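import Mathlib

/-! Tournaments and the graphs that encode them. -/

set_option autoImplicit false

namespace Pool.Agent.P.MP_f1a348_lc.TO

/-- `T` is a tournament: no loops, and exactly one arc between two distinct vertices -/
def IsTour {V : Type} (T : V → V → Prop) : Prop :=
  (∀ v, ¬ T v v) ∧ ∀ u v, u ≠ v → (T u v ↔ ¬ T v u)

/-- The simple graph that encodes a digraph: each vertex `v` becomes a triangle
`(v, 0), (v, 1), (v, 2)` with a pendant vertex `(v, 3)` at `(v, 0)`, and each arc from `u` to `v`
becomes the edge between `(u, 0)` and `(v, 1)`. -/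
def arcGraph {V : Type} (T : V → V → Prop) : SimpleGraph (V × Fin 4) :=
  SimpleGraph.fromRel fun p q => (p.1 = q.1 ∧ p.2 = 0) ∨ (p.1 = q.1 ∧ p.2 = 1 ∧ q.2 = 2) ∨
    (T p.1 q.1 ∧ p.2 = 0 ∧ q.2 = 1)

open Classical in
/-- the adjacency matrix, row by row: the bit number `u * n + v` tells if `u` and `v` are
adjacent -/
noncomputable def adjBits {n : ℕ} (X : SimpleGraph (Fin n)) : List Bool :=
  List.ofFn fun x : Fin (n * n) => decide (X.Adj x.divNat x.modNat)

end Pool.Agent.P.MP_f1a348_lc.TO
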