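import Pool.Agent.P.MP_f1a348_lc.TO.FIface
import Pool.Agent.Lib.Helper33.RT

/-! Step FINX. -/

set_option autoImplicit false
set_option linter.unusedSectionVars false

namespace Pool.Agent.P.MP_f1a348_lc.TO

open Pool.Agent.Lib.Helper47 Pool.Agent.P.MP_f1a348_lc.GI

namespace FX

open Pool.Agent.Lib.Helper33

/-- the number of vertices, read off from the length of the input -/
def ordN (x : List Bool) : ℕ :=
  (List.range x.length).countP (fun m => Nat.ble (2 * ((m + 1) * (m + 1))) x.length)

/-- the arcs of the matrix that starts at position `off` -/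
def arcs (R : List ℕ) (x : List Bool) (off : ℕ) : List (ℕ × ℕ) :=
  (prodL R R).filter (fun p => x.getD (off + (p.1 * R.length + p.2)) false)

/-- the parsed input -/
def parse (x : List Bool) : Q :=
  (List.range (ordN x), arcs (List.range (ordN x)) x 0, List.range (ordN x),
    arcs (List.range (ordN x)) x (ordN x * ordN x))

/-- the state of the main loop -/
abbrev St : Type := List Unit × List Unit × Q

/-- the initial state -/
def start (x : List Bool) : St := ([()], [], parse x)

/-- double the budget -/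
def step (s : St) : St := (s.1 ++ s.1, () :: s.2.1, s.2.2)

/-- the level `u` is admissible -/
def ok (s : St) (u : List Unit) : Bool :=
  Nat.ble 4 u.length && Nat.ble ((s.2.2.1.length + 2) ^ (u.length + 8)) s.1.length

/-- the first answer of an admissible level -/
def ans (mn : Par × Q → Option Bool) (s : St) : Option Bool :=
  ((List.range (() :: s.2.1).length).filterMap (fun j =>
    bif ok s (s.2.1.take j) then mn ((s.1, s.2.1.take j), s.2.2) else none)).head?

theorem pt_ordN : PT ordN := by
  have := PT.rangeLength (PT.id (α := List Bool))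
  unfold ordN; fun_prop

@[fun_prop] theorem pt_arcs {α : Type} [Enc α] {R : α → List ℕ} {x : α → List Bool}
    {off : α → ℕ} (h1 : PT R) (h2 : PT x) (h3 : PT off) :
    PT (fun a => arcs (R a) (x a) (off a)) := by
  unfold arcs; fun_prop

theorem pt_start : PT start := by
  have h1 := pt_ordN
  have h2 : PT (fun x => List.range (ordN x)) :=
    PT.range_of_le pt_ordN PT.id (fun x => List.countP_le_length.trans (by simp))
  unfold start parse; fun_prop

theorem pt_step : PT step := by unfold step; fun_prop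

theorem pt_ok : PT (fun a : St × List Unit => ok a.1 a.2) := by
  have h : PT (fun a : St × List Unit => (a.1.2.2.1.length + 2) ^ (a.2.length + 8)) :=
    PT.pow (by fun_prop) (by fun_prop) ((ps_len (by fun_prop)).add (PB.const 8))
  unfold ok; fun_prop

theorem pt_ans {mn : Par × Q → Option Bool} (h : PT mn) : PT (ans mn) := by
  have h1 : PT (fun s : St => List.range (() :: s.2.1).length) := PT.rangeLength (by fun_prop)
  have h2 : PT (fun a : St × ℕ => ok a.1 (a.1.2.1.take a.2)) :=
    PT.comp (g := fun a : St × ℕ => (a.1, a.1.2.1.take a.2)) pt_ok (by fun_prop)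
  have h3 : PT (fun a : St × ℕ => mn ((a.1.1, a.1.2.1.take a.2), a.1.2.2)) :=
    PT.comp (g := fun a : St × ℕ => ((a.1.1, a.1.2.1.take a.2), a.1.2.2)) h (by fun_prop)
  exact PT.head? (PT.filterMap (PT.cond h2 h3 (PT.const none)) h1)

theorem countP_range_lt (n s : ℕ) (hs : s ≤ n) (q : ℕ → Bool) (hq : ∀ i, q i = true ↔ i < s) :
    (List.range n).countP q = s := by
  obtain ⟨m, rfl⟩ := Nat.exists_eq_add_of_le hs
  rw [List.range_add, List.countP_append, List.countP_eq_length.2, List.countP_eq_zero.2]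
  · simp
  · intro a ha
    obtain ⟨b, _, rfl⟩ := List.mem_map.1 ha
    simp [hq]
  · intro a ha
    simpa [hq] using ha

theorem step_iter (x : List Bool) (k : ℕ) : (step^[k] (start x)).1.length = 2 ^ k ∧
    (step^[k] (start x)).2.1.length = k ∧ (step^[k] (start x)).2.2 = parse x := by
  induction k with
  | zero => exact ⟨rfl, rfl, rfl⟩
  | succ k ih =>
    rw [Function.iterate_succ_apply']
    generalize step^[k] (start x) = s at ih ⊢
    exact ⟨by simp [step, ih.1, pow_succ, mul_two], by simp [step, ih.2.1], ih.2.2⟩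

/-- inputs on which some level answers -/
def Halts (mn : Par × Q → Option Bool) (x : List Bool) : Prop :=
  ∃ k, (ans mn (step^[k] (start x))).isSome = true

open Classical in
/-- the first level that answers -/
noncomputable def lev {mn : Par × Q → Option Bool} (x : {x // Halts mn x}) : ℕ := Nat.find x.2

/-- the budget -/
noncomputable def bud {mn : Par × Q → Option Bool} (x : {x // Halts mn x}) : ℕ :=
  x.1.length + lev x + 2 ^ lev x

theorem size_units (l : List Unit) : size l = 2 * l.length + 1 := by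
  induction l with
  | nil => rfl
  | cons a l ih => rw [size_cons, ih, size_unit, List.length_cons]; omega

theorem exists_machine {mn : Par × Q → Option Bool} (hmn : PT mn) :
    ∃ (M : BTM) (p : Polynomial ℕ), ∀ x : {x // Halts mn x},
      M.Out x.1 [(ans mn (step^[lev x] (start x.1))).getD false] (p.eval (bud x)) := by
  classical
  have ha := pt_ans hmn
  have hlen : PB (bud (mn := mn)) (fun x => x.1.length) :=
    PB.self.mono fun x => (Nat.le_add_right _ _).trans (Nat.le_add_right _ _)
  have hx : PB (bud (mn := mn)) (fun x => size x.1) :=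
    (((PB.const 4).mul hlen).add (PB.const 1)).mono (fun a => size_bits_le _)
  have h0 : RT (bud (mn := mn)) (fun x => x.1) (fun x => start x.1) := RT.of_PT pt_start hx
  have hs := h0.size_le hx
  have h1 : RT (bud (mn := mn)) (fun x => start x.1) (fun x => step^[lev x] (start x.1)) := by
    refine RT.whileN (go := fun s => (ans mn s).isNone) pt_step (PT.isNone ha) lev
      (fun x => 4 * bud x + 4 + size (start x.1))
      (PB.self.mono fun x => by unfold bud; exact (Nat.le_add_left _ _).trans (Nat.le_add_right _ _))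
      ((((PB.const 4).mul PB.self).add (PB.const 4)).add hs) (fun x i hi => ?_) (fun x => ?_)
      (fun x i hi => ?_)
    · have := Nat.find_min x.2 hi
      simpa using this
    · have := Nat.find_spec x.2
      rw [← Option.not_isSome, Bool.not_eq_false']
      exact this
    · obtain ⟨e1, e2, e3⟩ := step_iter x.1 i
      have e4 : 2 ^ i ≤ 2 ^ lev x := Nat.pow_le_pow_right (by omega) hi
      have e5 : (start x.1).2.2 = parse x.1 := rfl
      rw [size_prod, size_prod (step^[i] (start x.1)).2, size_units, size_units, e1, e2, e3,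
        size_prod (start x.1), size_prod (start x.1).2, e5]
      unfold bud
      omega
  have h2 := h1.trans (RT.of_PT (f := fun s => [(ans mn s).getD false]) (by fun_prop)
    (h1.size_le hs))
  obtain ⟨M, t, ⟨p, hp⟩, _, h⟩ := (h0.trans h2).exists_btm hlen
  exact ⟨M, p, fun x => (h x).mono (hp x)⟩

theorem length_arcBits {n : ℕ} (X : Fin n → Fin n → Bool) : (arcBits X).length = n * n :=
  List.length_ofFn

theorem arcBits_getD {n : ℕ} (X : Fin n → Fin n → Bool) (a b : Fin n) :
    (arcBits X).getD (a * n + b) false = X a b := by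
  have h1 : a * n + b < n * n := by nlinarith [a.2, b.2]
  have hN : 0 < n := Fin.pos a
  rw [List.getD_eq_getElem _ _ (by rwa [length_arcBits])]
  simp only [arcBits, List.getElem_ofFn]
  have d2 : (a * n + b) / n = a := by
    rw [mul_comm, Nat.mul_add_div hN, Nat.div_eq_of_lt b.2, add_zero]
  have e1 : (⟨_, h1⟩ : Fin (n * n)).divNat = a := Fin.ext (by simp [d2])
  have e2 : (⟨_, h1⟩ : Fin (n * n)).modNat = b := Fin.ext (by simp [Nat.mod_eq_of_lt b.2])
  rw [e1, e2]

theorem parse_eq {n : ℕ} (X Y : Fin n → Fin n → Bool) : ∃ E F : List (ℕ × ℕ),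
    parse (arcBits X ++ arcBits Y) = (List.range n, E, List.range n, F) ∧
    (∀ a b : Fin n, ((a : ℕ), (b : ℕ)) ∈ E ↔ X a b = true) ∧
    (∀ a b : Fin n, ((a : ℕ), (b : ℕ)) ∈ F ↔ Y a b = true) ∧
    size (parse (arcBits X ++ arcBits Y)) ≤ 16 * (n + 2) ^ 3 := by
  have hl : (arcBits X ++ arcBits Y).length = 2 * (n * n) := by
    rw [List.length_append, length_arcBits, length_arcBits]; ring
  have ho : ordN (arcBits X ++ arcBits Y) = n := by
    rw [ordN, hl]
    refine countP_range_lt _ _ (by have := Nat.le_mul_self n; omega) _ (fun i => ?_)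
    rw [Nat.ble_eq]
    have := Nat.mul_self_le_mul_self_iff (m := i + 1) (n := n)
    omega
  have hb : ∀ a b : Fin n, a * n + b < n * n := fun a b => by nlinarith [a.2, b.2]
  have hR : size (List.range n) ≤ n * (4 * n + 1 + 1) + 1 := by
    have := size_list_le (l := List.range n) (B := 4 * n + 1) fun x hx => by
      have h1 := size_nat_le x
      have h2 := List.mem_range.1 hx
      omega
    rwa [List.length_range] at this
  have hA : ∀ x off, size (arcs (List.range n) x off) ≤ n * n * (8 * n + 3 + 1) + 1 := by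
    intro x off
    refine (size_sublist List.filter_sublist).trans ?_
    have := size_list_le (l := prodL (List.range n) (List.range n)) (B := 8 * n + 3) fun p hp => by
      have h1 := size_nat_le p.1
      have h2 := size_nat_le p.2
      have h3 := List.mem_range.1 (mem_prodL.1 hp).1
      have h4 := List.mem_range.1 (mem_prodL.1 hp).2
      rw [size_prod]
      omega
    rwa [show (prodL (List.range n) (List.range n)).length = n * n by
      simp [prodL, List.length_flatMap]] at this
  refine ⟨_, _, by rw [parse, ho], fun a b => ?_, fun a b => ?_, ?_⟩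
  · rw [arcs, List.mem_filter, mem_prodL, List.length_range, zero_add,
      List.getD_append _ _ _ _ (by rw [length_arcBits]; exact hb a b), arcBits_getD]
    simp
  · rw [arcs, List.mem_filter, mem_prodL, List.length_range,
      List.getD_append_right _ _ _ _ (by rw [length_arcBits]; omega), length_arcBits,
      Nat.add_sub_cancel_left, arcBits_getD]
    simp
  · rw [parse, ho, size_pair, size_pair, size_pair]
    have h1 := hA (arcBits X ++ arcBits Y) 0
    have h2 := hA (arcBits X ++ arcBits Y) (n * n)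
    nlinarith [Nat.zero_le n, Nat.zero_le (n * n)]

theorem iso_iff {n : ℕ} {X Y : Fin n → Fin n → Bool} {E F : List (ℕ × ℕ)}
    (hE : ∀ a b : Fin n, ((a : ℕ), (b : ℕ)) ∈ E ↔ X a b = true)
    (hF : ∀ a b : Fin n, ((a : ℕ), (b : ℕ)) ∈ F ↔ Y a b = true) :
    (∃ φ, DIso φ (List.range n) E (List.range n) F) ↔
      ∃ f : Equiv.Perm (Fin n), ∀ u v, Y (f u) (f v) = X u v := by
  constructor
  · rintro ⟨φ, hb, ha⟩
    let g : Fin n → Fin n := fun v => ⟨φ v, List.mem_range.1 (hb.mapsTo (List.mem_range.2 v.2))⟩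
    have hg : Function.Injective g := fun u v h =>
      Fin.ext (hb.injOn (List.mem_range.2 u.2) (List.mem_range.2 v.2) (congrArg Fin.val h))
    refine ⟨Equiv.ofBijective g (Finite.injective_iff_bijective.1 hg), fun u v => ?_⟩
    rw [Bool.eq_iff_iff, ← hE, ← hF]
    exact (ha u (List.mem_range.2 u.2) v (List.mem_range.2 v.2)).symm
  · rintro ⟨f, hf⟩
    let φ : ℕ → ℕ := fun v => if h : v < n then f ⟨v, h⟩ else v
    have hφ : ∀ v (h : v < n), φ v = f ⟨v, h⟩ := fun v h => dif_pos h
    refine ⟨φ, ⟨fun u hu => ?_, fun u hu v hv h => ?_, fun u hu => ?_⟩, fun u hu v hv => ?_⟩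
    · rw [hφ u (List.mem_range.1 hu)]
      exact List.mem_range.2 (Fin.is_lt _)
    · rw [hφ u (List.mem_range.1 hu), hφ v (List.mem_range.1 hv)] at h
      exact congrArg Fin.val (f.injective (Fin.ext h))
    · refine ⟨f.symm ⟨u, List.mem_range.1 hu⟩, List.mem_range.2 (Fin.is_lt _), ?_⟩
      rw [hφ _ (Fin.is_lt _)]
      simp
    · rw [hφ u (List.mem_range.1 hu), hφ v (List.mem_range.1 hv), hF, hf]
      exact hE ⟨u, List.mem_range.1 hu⟩ ⟨v, List.mem_range.1 hv⟩

theorem tour_of {n : ℕ} {X : Fin n → Fin n → Bool} {E : List (ℕ × ℕ)} (hX : IsTournament X)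
    (hE : ∀ a b : Fin n, ((a : ℕ), (b : ℕ)) ∈ E ↔ X a b = true) : Tour (List.range n) E := by
  intro u hu v hv
  obtain ⟨a, rfl⟩ : ∃ a : Fin n, (a : ℕ) = u := ⟨⟨u, List.mem_range.1 hu⟩, rfl⟩
  obtain ⟨b, rfl⟩ : ∃ b : Fin n, (b : ℕ) = v := ⟨⟨v, List.mem_range.1 hv⟩, rfl⟩
  rw [hE, hE]
  by_cases h : a = b
  · subst h
    simp [hX.1 a]
  · rw [hX.2 a b h]
    simp [Fin.val_inj, h]

theorem mpre_of {s : St} {u : List Unit} (h : ok s u = true) (h1 : s.2.2.1.Nodup)
    (h2 : s.2.2.2.2.1.Nodup) (h3 : Tour s.2.2.1 s.2.2.2.1) : MPre (s.1, u) s.2.2 := by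
  rw [ok, Bool.and_eq_true, Nat.ble_eq, Nat.ble_eq] at h
  exact ⟨h1, h2, h3, h.1, h.2⟩

theorem poly_le_pow (p : Polynomial ℕ) : ∃ c d : ℕ, ∀ m : ℕ, p.eval m ≤ c * (m + 1) ^ d := by
  induction p using Polynomial.induction_on' with
  | add p q hp hq =>
    obtain ⟨c, d, h⟩ := hp
    obtain ⟨c', d', h'⟩ := hq
    refine ⟨c + c', d + d', fun m => ?_⟩
    have e1 : (m + 1) ^ d ≤ (m + 1) ^ (d + d') := Nat.pow_le_pow_right (by omega) (by omega)
    have e2 : (m + 1) ^ d' ≤ (m + 1) ^ (d + d') := Nat.pow_le_pow_right (by omega) (by omega)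
    rw [Polynomial.eval_add, add_mul]
    exact Nat.add_le_add ((h m).trans (Nat.mul_le_mul_left _ e1))
      ((h' m).trans (Nat.mul_le_mul_left _ e2))
  | monomial k a =>
    exact ⟨a, k, fun m => by
      rw [Polynomial.eval_monomial]
      exact Nat.mul_le_mul_left _ (Nat.pow_le_pow_left (Nat.le_succ m) k)⟩

end FX

open FX in
theorem p_FINX (hFTIME : S_FTIME) :
    S_FINX := by
  classical
  intro mn hmn
  obtain ⟨B, p, hB⟩ := exists_machine hmn.pt
  obtain ⟨c, d, hp⟩ := poly_le_pow p
  obtain ⟨c1, hc1⟩ := hmn.halts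
  refine ⟨B.tm, B.e₀, B.e₁, B.fin, fun ε hε => ?_⟩
  obtain ⟨E, hE, hC⟩ := hFTIME (d * (c1 + 1)) ε hε
  obtain ⟨c0, hc0⟩ := hc1 E
  obtain ⟨C, hC⟩ := hC c0
  refine ⟨(c * 6 ^ d : ℕ) * C, fun n X Y hX hY => ?_⟩
  obtain ⟨A, F, e, hA, hF, hsz⟩ := parse_eq X Y
  have hl : (arcBits X ++ arcBits Y).length = 2 * (n * n) := by
    rw [List.length_append, length_arcBits, length_arcBits]; ring
  generalize hx : arcBits X ++ arcBits Y = x at e hsz hl
  have hpre : ∀ k u, ok (step^[k] (start x)) u = true →
      MPre ((step^[k] (start x)).1, u) (step^[k] (start x)).2.2 := fun k u h => by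
    obtain ⟨-, -, e3⟩ := step_iter x k
    refine mpre_of h ?_ ?_ ?_ <;> rw [e3, e]
    exacts [List.nodup_range, List.nodup_range, tour_of hX hA]
  have hCn := hC n
  have hM : fM n c0 = 16 * (n + 2) ^ 3 + 2 * (c0 + 4) := rfl
  have hJ : fJ n E c0 = (Nat.log 2 (fM n c0) + c0) / E + 4 := rfl
  generalize fJ n E c0 = j at hCn hJ
  generalize fM n c0 = M at hCn hJ hM
  have hj4 : 4 ≤ j := by rw [hJ]; exact Nat.le_add_left _ _
  have hn3 : 2 * (n * n) + n + 2 ≤ 16 * (n + 2) ^ 3 := by nlinarith [Nat.zero_le (n * n * n)]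
  have hjM : j ≤ M := by
    have a1 := Nat.pow_log_le_self 2 (show M ≠ 0 by omega)
    have a2 := Nat.mul_le_pow (show 2 ≠ 1 by omega) (Nat.log 2 M)
    have a3 := Nat.div_le_self (Nat.log 2 M + c0) E
    omega
  have hjE : Nat.log 2 M + c0 ≤ E * j := by
    have a1 := Nat.lt_mul_div_succ (Nat.log 2 M + c0) (show 0 < E by omega)
    exact a1.le.trans (Nat.mul_le_mul_left E (by omega))
  obtain ⟨T, hT⟩ : ∃ T, T = (M + 2) ^ ((c1 + 1) * (j + 8)) := ⟨_, rfl⟩
  have hle : ∀ a, a ≤ (c1 + 1) * (j + 8) → (M + 2) ^ a ≤ T := fun a ha =>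
    hT ▸ Nat.pow_le_pow_right (by omega) ha
  have t1 : M + 2 ≤ T := by simpa using hle 1 (Nat.mul_pos (by omega) (by omega))
  have t2 : T < 2 ^ (Nat.log 2 T + 1) := Nat.lt_pow_succ_log_self (by omega) T
  have t3 : 2 ^ (Nat.log 2 T + 1) ≤ 2 * T := by
    have := Nat.pow_log_le_self 2 (show T ≠ 0 by omega)
    rw [pow_succ]
    omega
  generalize Nat.log 2 T + 1 = i at t2 t3
  have t4 : (M + 2) ^ (j + 8) ≤ T := hle _ (Nat.le_mul_of_pos_left _ (by omega))
  have hji : j ≤ i := by
    have a1 : 2 ^ j ≤ (M + 2) ^ (j + 8) := (Nat.pow_le_pow_left (by omega) j).trans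
      (Nat.pow_le_pow_right (by omega) (by omega))
    exact ((Nat.pow_lt_pow_iff_right (by omega : 1 < 2)).1 (by omega)).le
  have hk : (ans mn (step^[i] (start x))).isSome = true := by
    obtain ⟨e1, e2, e3⟩ := step_iter x i
    have h0 := hpre i ((step^[i] (start x)).2.1.take j)
    generalize step^[i] (start x) = s at e1 e2 e3 h0
    have hu : (s.2.1.take j).length = j := by rw [List.length_take, e2]; omega
    have hok : ok s (s.2.1.take j) = true := by
      rw [ok, Bool.and_eq_true, Nat.ble_eq, Nat.ble_eq, hu, e1, e3, e, List.length_range]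
      exact ⟨hj4, ((Nat.pow_le_pow_left (by omega) _).trans t4).trans t2.le⟩
    have h1 := hc0 _ _ M (h0 hok)
      (fun y hy => by rw [e3, e] at hy; have := List.mem_range.1 hy; omega)
      (fun y hy => by rw [e3, e] at hy; have := List.mem_range.1 hy; omega)
      (by rw [e3]; omega) (by rw [hu]; exact hjM) (by rw [hu]; exact hjE)
      (by rw [hu, e1]; exact (hle _ (Nat.mul_le_mul (by omega) (by omega))).trans t2.le)
    obtain ⟨b, hb⟩ := Option.ne_none_iff_exists'.1 h1
    rw [ans, List.isSome_head?]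
    refine List.ne_nil_of_mem (a := b) (List.mem_filterMap.2 ⟨j, List.mem_range.2 ?_, ?_⟩)
    · rw [List.length_cons, e2]; omega
    · rw [hok, cond_true, hb]
  let Z : {x // Halts mn x} := ⟨x, i, hk⟩
  have hlev : lev Z ≤ i := Nat.find_min' Z.2 hk
  refine ⟨p.eval (bud Z), _, ?_, hB Z, ?_⟩
  · have h1 : bud Z + 1 ≤ 6 * T := by
      have a1 : 2 ^ lev Z ≤ 2 ^ i := Nat.pow_le_pow_right (by omega) hlev
      have a2 : i < 2 ^ i := Nat.lt_two_pow_self
      have a3 : bud Z = x.length + lev Z + 2 ^ lev Z := rfl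
      omega
    have h2 : p.eval (bud Z) ≤ c * 6 ^ d * (M + 2) ^ (d * (c1 + 1) * (j + 8)) := by
      refine (hp _).trans ((Nat.mul_le_mul_left c (Nat.pow_le_pow_left h1 d)).trans (le_of_eq ?_))
      rw [mul_pow, hT, ← pow_mul]
      ring
    calc ((p.eval (bud Z) : ℕ) : ℝ) ≤ ((c * 6 ^ d : ℕ) : ℝ) *
          (((M + 2) ^ (d * (c1 + 1) * (j + 8)) : ℕ) : ℝ) := by exact_mod_cast h2
      _ ≤ (c * 6 ^ d : ℕ) * (C * (n : ℝ) ^ (ε * Real.logb 2 n)) :=
          mul_le_mul_of_nonneg_left hCn (Nat.cast_nonneg _)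
      _ = _ := by ring
  · obtain ⟨b, hb⟩ := Option.isSome_iff_exists.1 (Nat.find_spec Z.2)
    change ans mn (step^[lev Z] (start x)) = some b at hb
    change (ans mn (step^[lev Z] (start x))).getD false = true ↔ _
    obtain ⟨-, -, e3⟩ := step_iter x (lev Z)
    rw [hb, Option.getD_some]
    obtain ⟨k, -, hk⟩ := List.mem_filterMap.1 (List.mem_of_mem_head? (Option.mem_def.2 hb))
    cases h : ok (step^[lev Z] (start x)) ((step^[lev Z] (start x)).2.1.take k) with
    | false => rw [h, cond_false] at hk; cases hk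
    | true =>
      rw [h, cond_true] at hk
      rw [hmn.sound _ _ b (hpre _ _ h) hk, e3, e]
      exact iso_iff hA hF

end Pool.Agent.P.MP_f1a348_lc.TO
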