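import Pool.Agent.P.MP_f1a348_lc.GI.PTA
import Pool.Agent.P.MP_f1a348_lc.GI.Sims
import Pool.Agent.P.MP_f1a348_lc.GI.Tower

/-!
Subgroups of small index, orbits and cosets of groups given by generators.
-/

namespace Pool.Agent.P.MP_f1a348_lc.TO

open Pool.Agent.Lib.Helper47 Pool.Agent.P.MP_f1a348_lc.GI

set_option autoImplicit false
set_option linter.unusedSectionVars false

variable {G Ω₀ Ω : Type} [Group G] [DecidableEq G] [MulAction G Ω₀] [DecidableEq Ω₀]
  [MulAction G Ω] [DecidableEq Ω]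

/-! ### programs -/

/-- generators of the subgroup of `⟨S⟩` cut out by the test `m` -/
def subG (pad : List Unit) (base : List Ω₀) (m : G → Bool) (S : List G) : List G :=
  sims pad base ((schTriples (bfs pad m S) S).filter m)

/-- the test for fixing all points of `P` -/
def fixB (P : List Ω) (g : G) : Bool := P.all (fun p => g • p == p)

/-- the orbit of `a` inside `D` -/
def orbL (pad : List Unit) (S : List G) (D : List Ω) (a : Ω) : List Ω :=
  D.filter (fun b => (bfs pad (fixB [a]) S).any (fun r => r • a == b))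

/-- the coset generated by two cosets -/
def join (pad : List Unit) (base : List Ω₀) (c d : Option (G × List G)) : Option (G × List G) :=
  c.elim d (fun p => d.elim c (fun q => some (p.1, sims pad base (p.1⁻¹ * q.1 :: (p.2 ++ q.2)))))

/-! ### specifications -/

/-- the Sims filter works inside `W` -/
def Faith (pad : List Unit) (base : List Ω₀) (W : Subgroup G) : Prop :=
  ∃ c, (∀ u ∈ W, (∀ b ∈ base, u • b = b) → u = 1) ∧
    (∀ b ∈ base, ∃ T : Finset Ω₀, T.card ≤ c ∧ ∀ u ∈ W, u • b ∈ T) ∧ base.length * c ≤ pad.length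

theorem Faith.mono {pad : List Unit} {base : List Ω₀} {W W' : Subgroup G} (h : Faith pad base W)
    (e : W' ≤ W) : Faith pad base W' := by
  obtain ⟨c, a1, a2, a3⟩ := h
  exact ⟨c, fun u hu => a1 u (e hu),
    fun b hb => (a2 b hb).imp fun T hT => ⟨hT.1, fun u hu => hT.2 u (e hu)⟩, a3⟩

theorem Faith.gen_sims {pad : List Unit} {base : List Ω₀} {W : Subgroup G} (h : Faith pad base W)
    {S : List G} (e : gen S ≤ W) : gen (sims pad base S) = gen S := by
  obtain ⟨c, a1, a2, a3⟩ := h.mono e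
  exact simsLemma G Ω₀ pad base S c a1 a2 a3

/-- `V` has index at most `m` in `K` -/
def Idx (V K : Subgroup G) (m : ℕ) : Prop :=
  ∀ l : List G, (∀ u ∈ l, u ∈ K) → l.Pairwise (fun u v => u⁻¹ * v ∉ V) → l.length ≤ m

theorem Idx.mono {V K K' : Subgroup G} {m m' : ℕ} (h : Idx V K m) (e : K' ≤ K) (e' : m ≤ m') :
    Idx V K' m' := fun l a b => (h l (fun u hu => e (a u hu)) b).trans e'

theorem Idx.of_le {V V' K : Subgroup G} {m : ℕ} (h : Idx V K m) (e : K ⊓ V ≤ V') : Idx V' K m :=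
  fun l a b => h l a ((List.Pairwise.and_mem.1 b).imp fun c d =>
    c.2.2 (e ⟨K.mul_mem (K.inv_mem (a _ c.1)) (a _ c.2.1), d⟩))

theorem Idx.pos {V K : Subgroup G} {m : ℕ} (h : Idx V K m) : 0 < m :=
  h [1] (by simp [K.one_mem]) (by simp)

/-- an invariant with few values bounds the index -/
theorem idx_of_map {β : Type} {V K : Subgroup G} (c : G → β) (T : Finset β)
    (h1 : ∀ u ∈ K, c u ∈ T) (h2 : ∀ u ∈ K, ∀ v ∈ K, c u = c v → u⁻¹ * v ∈ V) :
    Idx V K T.card := fun l a b => by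
  classical
  have hn : (l.map c).Nodup := by
    rw [List.Nodup, List.pairwise_map]
    exact (List.Pairwise.and_mem.1 b).imp fun h e => h.2.2 (h2 _ (a _ h.1) _ (a _ h.2.1) e)
  rw [← List.length_map c, ← List.toFinset_card_of_nodup hn]
  refine Finset.card_le_card fun w hw => ?_
  obtain ⟨u, hu, rfl⟩ := List.mem_map.1 (List.mem_toFinset.1 hw)
  exact h1 u (a u hu)

/-- a short list of representatives bounds the index -/
theorem idx_of_cover {V K : Subgroup G} (R : List G) (h : ∀ u ∈ K, ∃ r ∈ R, r⁻¹ * u ∈ V) :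
    Idx V K R.length := by
  classical
  choose! c h1 h2 using h
  exact (idx_of_map c R.toFinset (fun u hu => List.mem_toFinset.2 (h1 u hu)) fun u hu v hv e => by
    simpa [e, mul_assoc] using mul_mem (inv_mem (h2 u hu)) (h2 v hv)).mono le_rfl
    R.toFinset_card_le

theorem idx_of_relIndex {V K : Subgroup G} (h : V.relIndex K ≠ 0) : Idx V K (V.relIndex K) := by
  classical
  have : Finite (K ⧸ V.subgroupOf K) := Nat.finite_of_card_ne_zero h
  have := Fintype.ofFinite (K ⧸ V.subgroupOf K)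
  have e : V.relIndex K = (Finset.univ : Finset (K ⧸ V.subgroupOf K)).card := by
    rw [Finset.card_univ, ← Nat.card_eq_fintype_card]; rfl
  rw [e]
  refine idx_of_map (fun u => if hu : u ∈ K then ((⟨u, hu⟩ : K) : K ⧸ V.subgroupOf K) else
    ((1 : K) : K ⧸ V.subgroupOf K)) _ (fun _ _ => Finset.mem_univ _) (fun u hu v hv e => ?_)
  simp only [dif_pos hu, dif_pos hv] at e
  have := QuotientGroup.eq.1 e
  exact this

/-- the pointwise stabiliser of a list -/
def fixS (P : List Ω) : Subgroup G := ⨅ p ∈ P, MulAction.stabilizer G p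

theorem mem_fixS {P : List Ω} {g : G} : g ∈ (fixS P : Subgroup G) ↔ ∀ p ∈ P, g • p = p := by
  simp [fixS, Subgroup.mem_iInf]

theorem fixB_iff {P : List Ω} {g : G} : fixB P g = true ↔ g ∈ (fixS P : Subgroup G) := by
  simp [fixB, mem_fixS]

theorem bfs_spec {m : G → Bool} {S : List G} {V : Subgroup G} (pad : List Unit)
    (h : ∀ u ∈ gen S, m u = true ↔ u ∈ V) :
    (1 : G) ∈ bfs pad m S ∧ (∀ r ∈ bfs pad m S, r ∈ gen S) ∧
      (bfs pad m S).Pairwise (fun u v => u⁻¹ * v ∉ V) ∧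
      ((bfs pad m S).length ≤ pad.length → TowerA.Done m S (bfs pad m S)) := by
  have key : ∀ i, (1 : G) ∈ (bfsStep m S)^[i] [1] ∧ (∀ r ∈ (bfsStep m S)^[i] [1], r ∈ gen S) ∧
      ((bfsStep m S)^[i] [1]).Pairwise (fun u v => u⁻¹ * v ∉ V) ∧
      (TowerA.Done m S ((bfsStep m S)^[i] [1]) ∨ i + 1 ≤ ((bfsStep m S)^[i] [1]).length) := by
    intro i
    induction i with
    | zero => simp
    | succ i ih =>
      rw [Function.iterate_succ_apply']
      generalize (bfsStep m S)^[i] [1] = R at ih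
      obtain ⟨a1, a2, a3, a4⟩ := ih
      rcases TowerA.step_cases m S R with ⟨b1, b2⟩ | ⟨s, hs, r, hr, b1, b2⟩
      · rw [b2]
        exact ⟨a1, a2, a3, Or.inl b1⟩
      · have hx : s * r ∈ gen S :=
          mul_mem (hs.elim mem_gen fun h => (inv_mem_iff).1 (mem_gen h)) (a2 r hr)
        rw [b2]
        refine ⟨List.mem_cons_of_mem _ a1, List.forall_mem_cons.2 ⟨hx, a2⟩,
          List.pairwise_cons.2 ⟨fun r' hr' hc => ?_, a3⟩, Or.inr ?_⟩
        · have h4 := (h _ (mul_mem (inv_mem (a2 r' hr')) hx)).2 (by simpa using V.inv_mem hc)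
          rw [b1 r' hr'] at h4
          exact Bool.false_ne_true h4
        · rcases a4 with a4 | a4
          · obtain ⟨r', hr', h4⟩ := a4 s hs r hr
            rw [b1 r' hr'] at h4
            exact absurd h4 Bool.false_ne_true
          · rw [List.length_cons]
            omega
  obtain ⟨a1, a2, a3, a4⟩ := key pad.length
  exact ⟨a1, a2, a3, fun e => a4.resolve_right fun h => by unfold bfs at e; omega⟩

theorem bfs_length {m : G → Bool} {S : List G} {V : Subgroup G} (pad : List Unit)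
    (h : ∀ u ∈ gen S, m u = true ↔ u ∈ V) {k : ℕ} (hk : Idx V (gen S) k) :
    (bfs pad m S).length ≤ k := hk _ (bfs_spec pad h).2.1 (bfs_spec pad h).2.2.1

theorem bfs_cover {m : G → Bool} {S : List G} {V : Subgroup G} {pad : List Unit}
    (h : ∀ u ∈ gen S, m u = true ↔ u ∈ V) (e : (bfs pad m S).length ≤ pad.length) :
    gen ((schTriples (bfs pad m S) S).filter m) = gen S ⊓ V ∧
      ∀ u ∈ gen S, ∃ r ∈ bfs pad m S, r⁻¹ * u ∈ gen S ⊓ V := by
  obtain ⟨a1, a2, -, a4⟩ := bfs_spec pad h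
  refine schreier a1 a2 inf_le_left (fun x hx => by simp [h x hx, hx]) fun r hr s hs => ?_
  obtain ⟨r', hr', c⟩ := a4 e s hs r hr
  have d : r'⁻¹ * (s * r) ∈ gen S := mul_mem (inv_mem (a2 r' hr'))
    (mul_mem (hs.elim mem_gen fun h => (inv_mem_iff).1 (mem_gen h)) (a2 r hr))
  exact ⟨r', hr', by rw [mul_assoc]; exact ⟨d, (h _ d).1 c⟩⟩

theorem subG_le (pad : List Unit) (base : List Ω₀) (m : G → Bool) (S : List G) :
    gen (subG pad base m S) ≤ gen S := gen_le.2 fun x hx => by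
  have hb : ∀ x ∈ bfs pad m S, x ∈ gen S := (bfsIter_inv _ _ _).1
  refine (gen_le.2 fun y hy => ?_ : gen _ ≤ gen S) (sims_mem hx)
  obtain ⟨r', hr', s, hs, r, hr, rfl⟩ := mem_schTriples.1 (List.mem_filter.1 hy).1
  refine mul_mem (mul_mem (inv_mem (hb _ hr')) ?_) (hb _ hr)
  rcases hs with rfl | hs | hs
  · exact one_mem _
  · exact mem_gen hs
  · exact inv_mem_iff.1 (mem_gen hs)

theorem gen_subG {m : G → Bool} {S : List G} {V : Subgroup G} {pad : List Unit} {base : List Ω₀}
    (hf : Faith pad base (gen S)) (h : ∀ u ∈ gen S, m u = true ↔ u ∈ V)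
    (e : (bfs pad m S).length ≤ pad.length) : gen (subG pad base m S) = gen S ⊓ V := by
  rw [subG, hf.gen_sims ((bfs_cover h e).1 ▸ inf_le_left), (bfs_cover h e).1]

/-- the list `D` is invariant under `K` -/
def InvL (K : Subgroup G) (D : List Ω) : Prop := ∀ u ∈ K, ∀ a ∈ D, u • a ∈ D

theorem InvL.mono {K K' : Subgroup G} {D : List Ω} (h : InvL K D) (e : K' ≤ K) : InvL K' D :=
  fun u hu => h u (e hu)

theorem inv_gen {S : List G} {D : List Ω} (h : ∀ s ∈ S, ∀ a, s • a ∈ D ↔ a ∈ D) :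
    InvL (gen S) D := fun u hu => by
  suffices ∀ a, u • a ∈ D ↔ a ∈ D from fun a => (this a).2
  induction hu using Subgroup.closure_induction with
  | mem x hx => exact h x hx
  | one => simp
  | mul x y _ _ i1 i2 => intro a; rw [mul_smul, i1, i2]
  | inv x _ i => intro a; rw [← i, smul_inv_smul]

theorem InvL.idx {K : Subgroup G} {D : List Ω} (h : InvL K D) {a : Ω} (ha : a ∈ D) :
    Idx (fixS [a]) K D.length :=
  (idx_of_map (fun u => u • a) D.toFinset (fun u hu => List.mem_toFinset.2 (h u hu a ha))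
    (fun u _ v _ e => by
      simp only [mem_fixS, List.mem_singleton, forall_eq]
      rw [mul_smul, ← e, inv_smul_smul])).mono le_rfl D.toFinset_card_le

theorem InvL.iff {K : Subgroup G} {D : List Ω} (h : InvL K D) {u : G} (hu : u ∈ K) {a : Ω} :
    u • a ∈ D ↔ a ∈ D := ⟨fun e => by simpa using h _ (inv_mem hu) _ e, h u hu a⟩

theorem orbL_sublist (pad : List Unit) (S : List G) (D : List Ω) (a : Ω) :
    (orbL pad S D a).Sublist D := List.filter_sublist

theorem mem_orbL {pad : List Unit} {S : List G} {D : List Ω} (h : InvL (gen S) D)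
    (hp : D.length ≤ pad.length) {a b : Ω} (ha : a ∈ D) :
    b ∈ orbL pad S D a ↔ ∃ u ∈ gen S, u • a = b := by
  have e : ∀ u ∈ gen S, fixB [a] u = true ↔ u ∈ (fixS [a] : Subgroup G) := fun _ _ => fixB_iff
  simp only [orbL, List.mem_filter, List.any_eq_true, beq_iff_eq]
  refine ⟨fun ⟨_, r, hr, c⟩ => ⟨r, (bfs_spec pad e).2.1 r hr, c⟩, ?_⟩
  rintro ⟨u, hu, rfl⟩
  obtain ⟨r, hr, c⟩ := (bfs_cover e ((bfs_length pad e (h.idx ha)).trans hp)).2 u hu
  refine ⟨h u hu a ha, r, hr, ?_⟩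
  have := mem_fixS.1 c.2 a (by simp)
  rw [mul_smul, inv_smul_eq_iff] at this
  exact this.symm

theorem orbL_inv {pad : List Unit} {S : List G} {D : List Ω} (h : InvL (gen S) D)
    (hp : D.length ≤ pad.length) {a : Ω} (ha : a ∈ D) : InvL (gen S) (orbL pad S D a) :=
  fun u hu b hb => by
    obtain ⟨v, hv, rfl⟩ := (mem_orbL h hp ha).1 hb
    exact (mem_orbL h hp ha).2 ⟨u * v, mul_mem hu hv, mul_smul _ _ _⟩

/-- the coset described by a result -/
def cs (c : Option (G × List G)) : Set G := {g | ∃ p ∈ c, p.1⁻¹ * g ∈ gen p.2}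

@[simp] theorem cs_none : cs (none : Option (G × List G)) = ∅ := by simp [cs]

theorem mem_cs {σ g : G} {S : List G} : g ∈ cs (some (σ, S)) ↔ σ⁻¹ * g ∈ gen S := by simp [cs]

theorem self_mem_cs (σ : G) (S : List G) : σ ∈ cs (some (σ, S)) := by simp [mem_cs]

/-- a coset inside a coset of `K` -/
theorem le_of_cs {σ τ : G} {S : List G} {K : Subgroup G}
    (h : ∀ g ∈ cs (some (σ, S)), τ⁻¹ * g ∈ K) : gen S ≤ K := fun u hu => by
  have h1 := h _ (self_mem_cs σ S)
  have h2 := h (σ * u) (mem_cs.2 (by simpa using hu))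
  simpa [mul_assoc] using mul_mem (inv_mem h1) h2

theorem join_spec {pad : List Unit} {base : List Ω₀} {A : Subgroup G} (hf : Faith pad base A)
    {I : Set G} (h1 : ∀ g ∈ I, ∀ g' ∈ I, g⁻¹ * g' ∈ A) (h2 : ∀ g ∈ I, ∀ u ∈ A, g * u ∈ I)
    {c d : Option (G × List G)} (hc : cs c ⊆ I) (hd : cs d ⊆ I) :
    cs c ∪ cs d ⊆ cs (join pad base c d) ∧ cs (join pad base c d) ⊆ I := by
  rcases c with _ | ⟨g, S⟩
  · simpa [join] using hd
  rcases d with _ | ⟨g', S'⟩
  · simpa [join] using hc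
  have a1 := hc (self_mem_cs g S)
  have a2 := hd (self_mem_cs g' S')
  have a3 : gen (g⁻¹ * g' :: (S ++ S')) ≤ A := gen_le.2 (List.forall_mem_cons.2 ⟨h1 _ a1 _ a2,
    List.forall_mem_append.2 ⟨gen_le.1 (le_of_cs fun x hx => h1 _ a1 _ (hc hx)),
      gen_le.1 (le_of_cs fun x hx => h1 _ a1 _ (hd hx))⟩⟩)
  simp only [join, Option.elim_some]
  refine ⟨fun x hx => ?_, fun x hx => ?_⟩
  · rw [mem_cs, hf.gen_sims a3]
    rcases hx with hx | hx
    · exact gen_mono (fun y hy => by simp [hy]) (mem_cs.1 hx)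
    · have b1 : g'⁻¹ * x ∈ gen (g⁻¹ * g' :: (S ++ S')) :=
        gen_mono (fun y hy => by simp [hy]) (mem_cs.1 hx)
      simpa [mul_assoc] using mul_mem (mem_gen List.mem_cons_self) b1
  · rw [mem_cs, hf.gen_sims a3] at hx
    simpa using h2 _ a1 _ (a3 hx)

theorem join_length {pad : List Unit} {base : List Ω₀} {n : ℕ} (hn : pad.length ≤ n)
    {c d : Option (G × List G)} (hc : ∀ p ∈ c, p.2.length ≤ n) (hd : ∀ p ∈ d, p.2.length ≤ n) :
    ∀ p ∈ join pad base c d, p.2.length ≤ n := by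
  rcases c with _ | ⟨g, S⟩
  · exact hd
  rcases d with _ | ⟨g', S'⟩
  · exact hc
  rintro p ⟨rfl⟩
  exact (sims_length _ _ _).trans hn

/-! ### running time -/

variable [Enc G] [Enc Ω₀] [Enc Ω] [PG G] [PA G Ω₀] [PA G Ω] {α : Type} [Enc α]

theorem pt_subG {pad : α → List Unit} {base : α → List Ω₀} {m : α → G → Bool} {S : α → List G}
    (h1 : PT pad) (h2 : PT base) (h3 : PT (fun p : α × G => m p.1 p.2)) (h4 : PT S) :
    PT (fun a => subG (pad a) (base a) (m a) (S a)) :=
  pt_sims h1 h2 (PT.filter h3 (pt_schTriples (pt_bfs h1 h3 h4) h4))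

@[fun_prop] theorem pt_fixB {P : α → List Ω} {g : α → G} (h1 : PT P) (h2 : PT g) :
    PT (fun a => fixB (P a) (g a)) := by
  unfold fixB; fun_prop

@[fun_prop] theorem pt_bfsFix {pad : α → List Unit} {P : α → List Ω} {S : α → List G}
    (h1 : PT pad) (h2 : PT P) (h3 : PT S) : PT (fun a => bfs (pad a) (fixB (P a)) (S a)) :=
  pt_bfs h1 (by fun_prop) h3

@[fun_prop] theorem pt_orbL {pad : α → List Unit} {S : α → List G} {D : α → List Ω} {b : α → Ω}
    (h1 : PT pad) (h2 : PT S) (h3 : PT D) (h4 : PT b) :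
    PT (fun a => orbL (pad a) (S a) (D a) (b a)) := by
  unfold orbL; fun_prop

@[fun_prop] theorem pt_join {pad : α → List Unit} {base : α → List Ω₀}
    {c d : α → Option (G × List G)} (h1 : PT pad) (h2 : PT base) (h3 : PT c) (h4 : PT d) :
    PT (fun a => join (pad a) (base a) (c a) (d a)) := by
  unfold join; fun_prop

end Pool.Agent.P.MP_f1a348_lc.TO
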