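import Pool.Agent.P.MP_f1a348_lc.TO.FIface

/-! Step FTIME. -/

set_option autoImplicit false
set_option linter.unusedSectionVars false

namespace Pool.Agent.P.MP_f1a348_lc.TO

open Pool.Agent.Lib.Helper47 Pool.Agent.P.MP_f1a348_lc.GI

theorem ftime_exp {ε l d a b E J : ℝ} (hε : 0 < ε) (hl : 0 ≤ l) (hd : 0 ≤ d) (ha : 0 ≤ a)
    (hE : 1 ≤ E) (hdE : 18 * d ≤ ε * E) (hJ : J ≤ 3 * l / E + b) :
    (3 * l + a) * (d * J) ≤ ((3 * d * (a + b)) ^ 2 / (2 * ε) + d * a * b) + l * (ε * l) := by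
  have h1 : 3 * d * (a + b) * l ≤ (3 * d * (a + b)) ^ 2 / (2 * ε) + ε / 2 * l ^ 2 := by
    generalize 3 * d * (a + b) = k
    have h3 : k ^ 2 / (2 * ε) + ε / 2 * l ^ 2 - k * l = (k - ε * l) ^ 2 / (2 * ε) := by
      field_simp; ring
    have h4 : 0 ≤ (k - ε * l) ^ 2 / (2 * ε) := by positivity
    linarith
  have h2 : d * (l / E) ≤ ε / 18 * l := by
    rw [← mul_div_assoc, div_le_iff₀ (by linarith)]
    nlinarith
  have h3 : l / E ≤ l := div_le_self hl hE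
  have h4 := mul_le_mul_of_nonneg_left hJ (show 0 ≤ (3 * l + a) * d by positivity)
  rw [mul_div_assoc] at h4
  generalize l / E = x at *
  nlinarith [mul_le_mul_of_nonneg_left h2 hl, mul_le_mul_of_nonneg_left h3 (mul_nonneg hd ha)]

theorem p_FTIME :
    S_FTIME := by
  intro d ε hε
  obtain ⟨j, hj⟩ := exists_nat_gt (18 * d / ε)
  refine ⟨j + 1, by omega, fun c0 => ⟨2 ^ ((3 * d * ((c0 + 10) + (2 * c0 + 22))) ^ 2 / (2 * ε) +
    d * (c0 + 10) * (2 * c0 + 22) : ℝ), fun n => ?_⟩⟩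
  set l := Real.logb 2 n with hl
  have hn : 0 ≤ l ∧ (n : ℝ) ≤ 2 ^ l ∧ (n : ℝ) ^ (ε * l) = 2 ^ (l * (ε * l)) := by
    rcases Nat.eq_zero_or_pos n with rfl | h
    · simp [hl]
    · have h1 : (1 : ℝ) ≤ n := by exact_mod_cast h
      have e1 : (n : ℝ) = 2 ^ l := (Real.rpow_logb two_pos (by norm_num) (by linarith)).symm
      exact ⟨Real.logb_nonneg one_lt_two h1, e1.le, by rw [Real.rpow_mul two_pos.le, ← e1]⟩
  obtain ⟨h0, h1, h2⟩ := hn
  have hx : (1 : ℝ) ≤ 2 ^ l := Real.one_le_rpow one_le_two h0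
  have hc : (0 : ℝ) ≤ c0 := Nat.cast_nonneg _
  have h3 : ((fM n c0 + 2 : ℕ) : ℝ) ≤ 2 ^ (3 * l + (c0 + 10)) := by
    have a : (2 : ℝ) ^ (3 * l + (c0 + 10)) = (2 ^ l) ^ 3 * (2 ^ c0 * 1024) := by
      rw [Real.rpow_add two_pos, Real.rpow_add two_pos, Real.rpow_natCast, mul_comm 3 l,
        Real.rpow_mul two_pos.le]
      norm_num
    have b : (c0 : ℝ) + 1 ≤ 2 ^ c0 := by exact_mod_cast Nat.lt_two_pow_self
    have c : ((n : ℝ) + 2) ^ 3 ≤ (3 * 2 ^ l) ^ 3 := pow_le_pow_left₀ (by positivity) (by linarith) 3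
    have e : (1 : ℝ) ≤ (2 ^ l) ^ 3 := one_le_pow₀ hx
    rw [mul_pow] at c
    rw [a, fM]
    push_cast
    nlinarith
  have h4 : (Nat.log 2 (fM n c0) : ℝ) ≤ 3 * l + (c0 + 10) := by
    have a : 2 ^ Nat.log 2 (fM n c0) ≤ fM n c0 + 2 :=
      (Nat.pow_log_le_self 2 (by unfold fM; omega)).trans (by omega)
    refine (Real.rpow_le_rpow_left_iff one_lt_two).1 (le_trans ?_ h3)
    rw [Real.rpow_natCast]; exact_mod_cast a
  have hE : (1 : ℝ) ≤ (j + 1 : ℕ) := by exact_mod_cast Nat.succ_pos j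
  have h5 : ((fJ n (j + 1) c0 + 8 : ℕ) : ℝ) ≤ 3 * l / (j + 1 : ℕ) + (2 * c0 + 22) := by
    have a := Nat.cast_div_le (α := ℝ) (m := Nat.log 2 (fM n c0) + c0) (n := j + 1)
    have b : ((Nat.log 2 (fM n c0) + c0 : ℕ) : ℝ) / (j + 1 : ℕ) ≤
        (3 * l + (2 * c0 + 10)) / (j + 1 : ℕ) := by
      refine div_le_div_of_nonneg_right ?_ (by linarith)
      push_cast; linarith
    have c : (2 * c0 + 10 : ℝ) / (j + 1 : ℕ) ≤ 2 * c0 + 10 := div_le_self (by positivity) hE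
    rw [add_div] at b
    rw [fJ, Nat.cast_add, Nat.cast_add]
    norm_num at *
    linarith
  calc _ = ((fM n c0 + 2 : ℕ) : ℝ) ^ (d * (fJ n (j + 1) c0 + 8)) := by rw [Nat.cast_pow]
    _ ≤ (2 ^ (3 * l + (c0 + 10))) ^ (d * (fJ n (j + 1) c0 + 8)) :=
        pow_le_pow_left₀ (by positivity) h3 _
    _ = 2 ^ ((3 * l + (c0 + 10)) * (d * ((fJ n (j + 1) c0 + 8 : ℕ) : ℝ))) := by
        rw [← Real.rpow_natCast, ← Real.rpow_mul two_pos.le, Nat.cast_mul]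
    _ ≤ _ := by
        rw [h2, ← Real.rpow_add two_pos]
        refine Real.rpow_le_rpow_of_exponent_le one_le_two (ftime_exp hε h0 (by positivity)
          (by positivity) hE ?_ h5)
        rw [div_lt_iff₀ hε] at hj
        push_cast
        nlinarith

end Pool.Agent.P.MP_f1a348_lc.TO
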