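import Pool.Agent.P.MP_f1a348_lc.TO.GDefs

/-! The digraph is read off from the graph that encodes it. -/

set_option autoImplicit false

namespace Pool.Agent.P.MP_f1a348_lc.TO.GG

variable {α β V W : Type}

/-- `a` has a pendant neighbour -/
def Core (G : SimpleGraph α) (a : α) : Prop := ∃ p, G.Adj a p ∧ ∀ u, G.Adj p u → u = a

/-- `a` is joined to the triangle at `b` -/
def Arc (G : SimpleGraph α) (a b : α) : Prop :=
  a ≠ b ∧ ∃ w m, G.Adj a w ∧ G.Adj w b ∧ G.Adj w m ∧ G.Adj m b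

theorem Core.map {G : SimpleGraph α} {H : SimpleGraph β} (f : G ≃g H) {a : α} (h : Core G a) :
    Core H (f a) := by
  obtain ⟨p, h1, h2⟩ := h
  refine ⟨f p, f.map_adj_iff.2 h1, fun u hu => ?_⟩
  obtain ⟨u, rfl⟩ := f.surjective u
  rw [h2 u (f.map_adj_iff.1 hu)]

theorem Arc.map {G : SimpleGraph α} {H : SimpleGraph β} (f : G ≃g H) {a b : α} (h : Arc G a b) :
    Arc H (f a) (f b) := by
  obtain ⟨h0, w, m, h1, h2, h3, h4⟩ := h
  exact ⟨fun e => h0 (f.injective e), f w, f m, f.map_adj_iff.2 h1, f.map_adj_iff.2 h2,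
    f.map_adj_iff.2 h3, f.map_adj_iff.2 h4⟩

theorem adj_iff (T : V → V → Prop) (a b : V) (i j : Fin 4) :
    (arcGraph T).Adj (a, i) (b, j) ↔ (a ≠ b ∨ i ≠ j) ∧
      (((a = b ∧ i = 0) ∨ (a = b ∧ i = 1 ∧ j = 2) ∨ (T a b ∧ i = 0 ∧ j = 1)) ∨
        ((b = a ∧ j = 0) ∨ (b = a ∧ j = 1 ∧ i = 2) ∨ (T b a ∧ j = 0 ∧ i = 1))) := by
  rw [arcGraph, SimpleGraph.fromRel_adj, Ne, Prod.mk.injEq, not_and_or]

theorem core_iff (T : V → V → Prop) (x : V × Fin 4) : Core (arcGraph T) x ↔ x.2 = 0 := by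
  obtain ⟨a, i⟩ := x
  constructor
  · rintro ⟨⟨b, j⟩, -, h⟩
    have h0 := h (b, 0)
    have h1 := h (b, 1)
    have h2 := h (b, 2)
    simp only [adj_iff, Prod.mk.injEq] at h0 h1 h2
    fin_cases j <;> simp at h0 h1 h2 <;> grind
  · rintro rfl
    refine ⟨(a, 3), by simp [adj_iff], ?_⟩
    rintro ⟨b, j⟩ h
    simp only [adj_iff] at h
    simp at h
    simp [h]

theorem arc_iff {T : V → V → Prop} (hT : ∀ v, ¬ T v v) (a b : V) :
    Arc (arcGraph T) (a, 0) (b, 0) ↔ T a b := by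
  constructor
  · rintro ⟨h0, ⟨c, i⟩, ⟨d, j⟩, h1, h2, h3, h4⟩
    have hab : a ≠ b := fun e => h0 (by rw [e])
    simp only [adj_iff] at h1 h2 h3 h4
    fin_cases i <;> fin_cases j <;> simp at h1 h2 h3 h4 <;> grind
  · intro h
    have hab : a ≠ b := fun e => hT b (e ▸ h)
    exact ⟨fun e => hab (congrArg Prod.fst e), (b, 1), (b, 2), by simp [adj_iff, h],
      by simp [adj_iff], by simp [adj_iff], by simp [adj_iff]⟩

/-- an isomorphism of digraphs gives an isomorphism of the graphs -/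
def lift {S : V → V → Prop} {T : W → W → Prop} (f : S ≃r T) : arcGraph S ≃g arcGraph T where
  toEquiv := f.toEquiv.prodCongr (Equiv.refl _)
  map_rel_iff' := by
    rintro ⟨a, i⟩ ⟨b, j⟩
    change (arcGraph T).Adj (f a, i) (f b, j) ↔ _
    simp only [adj_iff, f.map_rel_iff, ne_eq, f.injective.eq_iff]

theorem decode {G : SimpleGraph α} {T : V → V → Prop} (hT : ∀ v, ¬ T v v) (e : G ≃g arcGraph T) :
    ∃ ψ : V → α, Function.Injective ψ ∧ (∀ x, Core G x ↔ ∃ v, ψ v = x) ∧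
      ∀ a b, Arc G (ψ a) (ψ b) ↔ T a b := by
  refine ⟨fun v => e.symm (v, 0), fun a b h => congrArg Prod.fst (e.symm.injective h),
    fun x => ⟨fun h => ?_, ?_⟩, fun a b => ⟨fun h => ?_, fun h => ?_⟩⟩
  · have h1 := (core_iff T _).1 (h.map e)
    exact ⟨(e x).1, by rw [← h1]; simp⟩
  · rintro ⟨v, rfl⟩
    exact ((core_iff T (v, 0)).2 rfl).map e.symm
  · have h1 := h.map e
    simp only [RelIso.apply_symm_apply] at h1
    exact (arc_iff hT a b).1 h1
  · exact ((arc_iff hT a b).2 h).map e.symm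

end Pool.Agent.P.MP_f1a348_lc.TO.GG
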