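import Pool.Agent.P.MP_f1a348_lc.TO.XFINX
import Pool.Agent.P.MP_f1a348_lc.TO.GGraph

/-! The machine for the graphs that encode tournaments. -/

set_option autoImplicit false
set_option linter.unusedSectionVars false

namespace Pool.Agent.P.MP_f1a348_lc.TO

open Pool.Agent.Lib.Helper47 Pool.Agent.P.MP_f1a348_lc.GI Pool.Agent.Lib.Helper33

namespace GG

open FX

/-- the test for a pendant neighbour -/
def coreB (A : List ℕ) (E : List (ℕ × ℕ)) (a : ℕ) : Bool :=
  A.any fun p => E.contains (a, p) && A.all fun u => !E.contains (p, u) || u == a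

/-- the test for an arc -/
def arcB (A : List ℕ) (E : List (ℕ × ℕ)) (e : ℕ × ℕ) : Bool :=
  !(e.1 == e.2) && (prodL A A).any fun x => E.contains (e.1, x.1) && E.contains (x.1, e.2) &&
    E.contains (x.1, x.2) && E.contains (x.2, e.2)

/-- the two digraphs -/
def dec (q : Q) : Q :=
  (q.1.filter (coreB q.1 q.2.1), (prodL q.1 q.1).filter (arcB q.1 q.2.1),
    q.2.2.1.filter (coreB q.2.2.1 q.2.2.2), (prodL q.2.2.1 q.2.2.1).filter (arcB q.2.2.1 q.2.2.2))

theorem pt_dec : PT dec := by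
  unfold dec coreB arcB; fun_prop

theorem machine {mn : Par × Q → Option Bool} (hmn : MSpec mn) (hFTIME : S_FTIME) :
    ∃ B : BTM, ∀ ε : ℝ, 0 < ε → ∃ C : ℝ, ∀ (n : ℕ) (x : List Bool), x.length = 2 * (n * n) →
      (parse x).1.length = n → (dec (parse x)).1.Sublist (List.range n) →
      (dec (parse x)).2.2.1.Sublist (List.range n) →
      Tour (dec (parse x)).1 (dec (parse x)).2.1 → size (dec (parse x)) ≤ 16 * (n + 2) ^ 3 →
      ∃ (t : ℕ) (b : Bool), (t : ℝ) ≤ C * (n : ℝ) ^ (ε * Real.logb 2 n) ∧ B.Out x [b] t ∧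
        (b = true ↔ ∃ φ, DIso φ (dec (parse x)).1 (dec (parse x)).2.1 (dec (parse x)).2.2.1
          (dec (parse x)).2.2.2) := by
  classical
  obtain ⟨mn', hmn'⟩ : ∃ mn' : Par × Q → Option Bool, mn' = fun a => mn (a.1, dec a.2) := ⟨_, rfl⟩
  have hpt : PT mn' := by
    have := pt_dec
    rw [hmn']
    exact PT.comp (g := fun a : Par × Q => (a.1, dec a.2)) hmn.pt (by fun_prop)
  have hev : ∀ p q, mn' (p, q) = mn (p, dec q) := fun p q => by rw [hmn']
  obtain ⟨B, p, hB⟩ := exists_machine hpt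
  obtain ⟨c, d, hp⟩ := poly_le_pow p
  obtain ⟨c1, hc1⟩ := hmn.halts
  refine ⟨B, fun ε hε => ?_⟩
  obtain ⟨E, hE, hC⟩ := hFTIME (d * (c1 + 1)) ε hε
  obtain ⟨c0, hc0⟩ := hc1 E
  obtain ⟨C, hC⟩ := hC c0
  refine ⟨(c * 6 ^ d : ℕ) * C, fun n x hl e s1 s2 hT hsz => ?_⟩
  have hpre : ∀ k u, ok (step^[k] (start x)) u = true →
      MPre ((step^[k] (start x)).1, u) (dec (step^[k] (start x)).2.2) := fun k u h => by
    obtain ⟨-, -, e3⟩ := step_iter x k
    rw [ok, Bool.and_eq_true, Nat.ble_eq, Nat.ble_eq, e3, e] at h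
    rw [e3]
    have := s1.length_le
    rw [List.length_range] at this
    exact ⟨List.nodup_range.sublist s1, List.nodup_range.sublist s2, hT, h.1,
      (Nat.pow_le_pow_left (by omega) _).trans h.2⟩
  have hCn := hC n
  have hM : fM n c0 = 16 * (n + 2) ^ 3 + 2 * (c0 + 4) := rfl
  have hJ : fJ n E c0 = (Nat.log 2 (fM n c0) + c0) / E + 4 := rfl
  generalize fJ n E c0 = j at hCn hJ
  generalize fM n c0 = M at hCn hJ hM
  have hj4 : 4 ≤ j := by rw [hJ]; exact Nat.le_add_left _ _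
  have hn3 : 2 * (n * n) + n + 2 ≤ 16 * (n + 2) ^ 3 := by nlinarith [Nat.zero_le (n * n * n)]
  have hjM : j ≤ M := by
    have a1 := Nat.pow_log_le_self 2 (show M ≠ 0 by omega)
    have a2 := Nat.mul_le_pow (show 2 ≠ 1 by omega) (Nat.log 2 M)
    have a3 := Nat.div_le_self (Nat.log 2 M + c0) E
    omega
  have hjE : Nat.log 2 M + c0 ≤ E * j := by
    have a1 := Nat.lt_mul_div_succ (Nat.log 2 M + c0) (show 0 < E by omega)
    exact a1.le.trans (Nat.mul_le_mul_left E (by omega))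
  obtain ⟨T, hT⟩ : ∃ T, T = (M + 2) ^ ((c1 + 1) * (j + 8)) := ⟨_, rfl⟩
  have hle : ∀ a, a ≤ (c1 + 1) * (j + 8) → (M + 2) ^ a ≤ T := fun a ha =>
    hT ▸ Nat.pow_le_pow_right (by omega) ha
  have t1 : M + 2 ≤ T := by simpa using hle 1 (Nat.mul_pos (by omega) (by omega))
  have t2 : T < 2 ^ (Nat.log 2 T + 1) := Nat.lt_pow_succ_log_self (by omega) T
  have t3 : 2 ^ (Nat.log 2 T + 1) ≤ 2 * T := by
    have := Nat.pow_log_le_self 2 (show T ≠ 0 by omega)
    rw [pow_succ]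
    omega
  generalize Nat.log 2 T + 1 = i at t2 t3
  have t4 : (M + 2) ^ (j + 8) ≤ T := hle _ (Nat.le_mul_of_pos_left _ (by omega))
  have hji : j ≤ i := by
    have a1 : 2 ^ j ≤ (M + 2) ^ (j + 8) := (Nat.pow_le_pow_left (by omega) j).trans
      (Nat.pow_le_pow_right (by omega) (by omega))
    exact ((Nat.pow_lt_pow_iff_right (by omega : 1 < 2)).1 (by omega)).le
  have hk : (ans mn' (step^[i] (start x))).isSome = true := by
    obtain ⟨e1, e2, e3⟩ := step_iter x i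
    have h0 := hpre i ((step^[i] (start x)).2.1.take j)
    generalize step^[i] (start x) = s at e1 e2 e3 h0
    have hu : (s.2.1.take j).length = j := by rw [List.length_take, e2]; omega
    have hok : ok s (s.2.1.take j) = true := by
      rw [ok, Bool.and_eq_true, Nat.ble_eq, Nat.ble_eq, hu, e1, e3, e]
      exact ⟨hj4, ((Nat.pow_le_pow_left (by omega) _).trans t4).trans t2.le⟩
    have h1 := hc0 _ _ M (h0 hok)
      (fun y hy => by rw [e3] at hy; have := List.mem_range.1 (s1.subset hy); omega)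
      (fun y hy => by rw [e3] at hy; have := List.mem_range.1 (s2.subset hy); omega)
      (by rw [e3]; omega) (by rw [hu]; exact hjM) (by rw [hu]; exact hjE)
      (by rw [hu, e1]; exact (hle _ (Nat.mul_le_mul (by omega) (by omega))).trans t2.le)
    obtain ⟨b, hb⟩ := Option.ne_none_iff_exists'.1 h1
    rw [ans, List.isSome_head?]
    refine List.ne_nil_of_mem (a := b) (List.mem_filterMap.2 ⟨j, List.mem_range.2 ?_, ?_⟩)
    · rw [List.length_cons, e2]; omega
    · rw [hok, cond_true, hev, hb]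
  let Z : {x // Halts mn' x} := ⟨x, i, hk⟩
  have hlev : lev Z ≤ i := Nat.find_min' Z.2 hk
  refine ⟨p.eval (bud Z), _, ?_, hB Z, ?_⟩
  · have h1 : bud Z + 1 ≤ 6 * T := by
      have a1 : 2 ^ lev Z ≤ 2 ^ i := Nat.pow_le_pow_right (by omega) hlev
      have a2 : i < 2 ^ i := Nat.lt_two_pow_self
      have a3 : bud Z = x.length + lev Z + 2 ^ lev Z := rfl
      omega
    have h2 : p.eval (bud Z) ≤ c * 6 ^ d * (M + 2) ^ (d * (c1 + 1) * (j + 8)) := by
      refine (hp _).trans ((Nat.mul_le_mul_left c (Nat.pow_le_pow_left h1 d)).trans (le_of_eq ?_))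
      rw [mul_pow, hT, ← pow_mul]
      ring
    calc ((p.eval (bud Z) : ℕ) : ℝ) ≤ ((c * 6 ^ d : ℕ) : ℝ) *
          (((M + 2) ^ (d * (c1 + 1) * (j + 8)) : ℕ) : ℝ) := by exact_mod_cast h2
      _ ≤ (c * 6 ^ d : ℕ) * (C * (n : ℝ) ^ (ε * Real.logb 2 n)) :=
          mul_le_mul_of_nonneg_left hCn (Nat.cast_nonneg _)
      _ = _ := by ring
  · obtain ⟨b, hb⟩ := Option.isSome_iff_exists.1 (Nat.find_spec Z.2)
    change ans mn' (step^[lev Z] (start x)) = some b at hb
    change (ans mn' (step^[lev Z] (start x))).getD false = true ↔ _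
    obtain ⟨-, -, e3⟩ := step_iter x (lev Z)
    rw [hb, Option.getD_some]
    obtain ⟨k, -, hk⟩ := List.mem_filterMap.1 (List.mem_of_mem_head? (Option.mem_def.2 hb))
    cases h : ok (step^[lev Z] (start x)) ((step^[lev Z] (start x)).2.1.take k) with
    | false => rw [h, cond_false] at hk; cases hk
    | true =>
      rw [h, cond_true, hev] at hk
      rw [hmn.sound _ _ b (hpre _ _ h) hk, e3]

theorem size_dec (n : ℕ) (E F : List (ℕ × ℕ)) :
    size (dec (List.range n, E, List.range n, F)) ≤ 16 * (n + 2) ^ 3 := by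
  have hR : size (List.range n) ≤ n * (4 * n + 1 + 1) + 1 := by
    have := size_list_le (l := List.range n) (B := 4 * n + 1) fun x hx => by
      have h1 := size_nat_le x
      have h2 := List.mem_range.1 hx
      omega
    rwa [List.length_range] at this
  have hA : size (prodL (List.range n) (List.range n)) ≤ n * n * (8 * n + 3 + 1) + 1 := by
    have := size_list_le (l := prodL (List.range n) (List.range n)) (B := 8 * n + 3) fun p hp => by
      have h1 := size_nat_le p.1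
      have h2 := size_nat_le p.2
      have h3 := List.mem_range.1 (mem_prodL.1 hp).1
      have h4 := List.mem_range.1 (mem_prodL.1 hp).2
      rw [size_prod]
      omega
    rwa [show (prodL (List.range n) (List.range n)).length = n * n by
      simp [prodL, List.length_flatMap]] at this
  have h1 := fun f => (size_sublist (List.filter_sublist (p := f) (l := List.range n))).trans hR
  have h2 := fun f => (size_sublist (List.filter_sublist (p := f)
    (l := prodL (List.range n) (List.range n)))).trans hA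
  rw [dec, size_pair, size_pair, size_pair]
  nlinarith [Nat.zero_le n, Nat.zero_le (n * n), h1 (coreB (List.range n) E),
    h1 (coreB (List.range n) F), h2 (arcB (List.range n) E), h2 (arcB (List.range n) F)]

variable {V W : Type}

/-- the lists `O`, `D` present the digraph `T` -/
def Pres (O : List ℕ) (D : List (ℕ × ℕ)) (T : V → V → Prop) : Prop :=
  ∃ ψ : V → ℕ, Function.Injective ψ ∧ (∀ x, x ∈ O ↔ ∃ v, ψ v = x) ∧
    ∀ a b, (ψ a, ψ b) ∈ D ↔ T a b

theorem pres {n : ℕ} {G : SimpleGraph (Fin n)} {E : List (ℕ × ℕ)}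
    (hE : ∀ a b : Fin n, ((a : ℕ), (b : ℕ)) ∈ E ↔ G.Adj a b) {T : V → V → Prop}
    (hT : ∀ v, ¬ T v v) (e : G ≃g arcGraph T) :
    Pres ((List.range n).filter (coreB (List.range n) E))
      ((prodL (List.range n) (List.range n)).filter (arcB (List.range n) E)) T := by
  obtain ⟨ψ, h1, h2, h3⟩ := decode hT e
  have hc : ∀ a : Fin n, coreB (List.range n) E a = true ↔ Core G a := fun a => by
    simp only [coreB, List.any_eq_true, List.mem_range, Bool.and_eq_true, List.contains_iff_mem,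
      List.all_eq_true, Bool.or_eq_true, Bool.not_eq_true', beq_iff_eq]
    constructor
    · rintro ⟨p, hp, a1, a2⟩
      refine ⟨⟨p, hp⟩, (hE a ⟨p, hp⟩).1 a1, fun u hu => ?_⟩
      rcases a2 u u.2 with h | h
      · have := List.contains_iff_mem.2 ((hE ⟨p, hp⟩ u).2 hu)
        rw [h] at this
        cases this
      · exact Fin.ext h
    · rintro ⟨p, a1, a2⟩
      refine ⟨p, p.2, (hE a p).2 a1, fun u hu => ?_⟩
      cases h : E.contains ((p : ℕ), u) with
      | false => exact Or.inl rfl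
      | true =>
        exact Or.inr (congrArg Fin.val (a2 ⟨u, hu⟩ ((hE p ⟨u, hu⟩).1 (List.contains_iff_mem.1 h))))
  have ha : ∀ a b : Fin n, arcB (List.range n) E ((a : ℕ), (b : ℕ)) = true ↔ Arc G a b :=
    fun a b => by
    simp only [arcB, List.any_eq_true, mem_prodL, List.mem_range, Bool.and_eq_true,
      List.contains_iff_mem, Bool.not_eq_true', beq_eq_false_iff_ne]
    constructor
    · rintro ⟨a0, ⟨w, m⟩, ⟨hw, hm⟩, ⟨⟨a1, a2⟩, a3⟩, a4⟩
      exact ⟨fun h => a0 (congrArg Fin.val h), ⟨w, hw⟩, ⟨m, hm⟩, (hE a ⟨w, hw⟩).1 a1,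
        (hE ⟨w, hw⟩ b).1 a2, (hE ⟨w, hw⟩ ⟨m, hm⟩).1 a3, (hE ⟨m, hm⟩ b).1 a4⟩
    · rintro ⟨a0, w, m, a1, a2, a3, a4⟩
      exact ⟨fun h => a0 (Fin.ext h), (w, m), ⟨w.2, m.2⟩,
        ⟨⟨(hE _ _).2 a1, (hE _ _).2 a2⟩, (hE _ _).2 a3⟩, (hE _ _).2 a4⟩
  refine ⟨fun v => ψ v, fun a b h => h1 (Fin.ext h), fun x => ?_, fun a b => ?_⟩
  · rw [List.mem_filter, List.mem_range]
    constructor
    · rintro ⟨hx, h⟩
      obtain ⟨v, hv⟩ := (h2 ⟨x, hx⟩).1 ((hc ⟨x, hx⟩).1 h)
      exact ⟨v, congrArg Fin.val hv⟩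
    · rintro ⟨v, rfl⟩
      exact ⟨(ψ v).2, (hc _).2 ((h2 _).2 ⟨v, rfl⟩)⟩
  · rw [List.mem_filter, ha, h3, mem_prodL]
    simp

theorem Pres.tour {O : List ℕ} {D : List (ℕ × ℕ)} {T : V → V → Prop} (h : Pres O D T)
    (hT : IsTour T) : Tour O D := by
  obtain ⟨ψ, h1, h2, h3⟩ := h
  intro u hu v hv
  obtain ⟨a, rfl⟩ := (h2 u).1 hu
  obtain ⟨b, rfl⟩ := (h2 v).1 hv
  rw [h3, h3, h1.ne_iff]
  by_cases h : a = b
  · subst h
    simp [hT.1 a]
  · rw [hT.2 a b h]
    simp [h]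

theorem Pres.iso {O O' : List ℕ} {D D' : List (ℕ × ℕ)} {S : V → V → Prop} {T : W → W → Prop}
    (h : Pres O D S) (h' : Pres O' D' T) : (∃ φ, DIso φ O D O' D') ↔ Nonempty (S ≃r T) := by
  classical
  obtain ⟨ψ, h1, h2, h3⟩ := h
  obtain ⟨χ, k1, k2, k3⟩ := h'
  have m1 : ∀ v, ψ v ∈ O := fun v => (h2 _).2 ⟨v, rfl⟩
  have m2 : ∀ v, χ v ∈ O' := fun v => (k2 _).2 ⟨v, rfl⟩
  constructor
  · rintro ⟨φ, hb, ha⟩
    choose g hg using fun v => (k2 _).1 (hb.mapsTo (m1 v))
    refine ⟨⟨Equiv.ofBijective g ⟨fun a b e => h1 (hb.injOn (m1 a) (m1 b) ?_), fun w => ?_⟩,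
      fun {a b} => ?_⟩⟩
    · rw [← hg, ← hg, e]
    · obtain ⟨x, hx, e⟩ := hb.surjOn (m2 w)
      obtain ⟨v, rfl⟩ := (h2 x).1 hx
      exact ⟨v, k1 (by rw [hg, e])⟩
    · change T (g a) (g b) ↔ _
      rw [← k3, ← h3, hg, hg]
      exact (ha _ (m1 a) _ (m1 b)).symm
  · rintro ⟨f⟩
    have hφ : ∀ v, Function.extend ψ (fun v => χ (f v)) id (ψ v) = χ (f v) := fun v =>
      h1.extend_apply _ _ v
    refine ⟨Function.extend ψ (fun v => χ (f v)) id, ⟨fun u hu => ?_, fun u hu v hv e => ?_,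
      fun u hu => ?_⟩, fun u hu v hv => ?_⟩
    · obtain ⟨a, rfl⟩ := (h2 u).1 hu
      rw [hφ]
      exact m2 _
    · obtain ⟨a, rfl⟩ := (h2 u).1 hu
      obtain ⟨b, rfl⟩ := (h2 v).1 hv
      rw [hφ, hφ] at e
      rw [f.injective (k1 e)]
    · obtain ⟨w, rfl⟩ := (k2 u).1 hu
      exact ⟨ψ (f.symm w), m1 _, by rw [hφ]; simp⟩
    · obtain ⟨a, rfl⟩ := (h2 u).1 hu
      obtain ⟨b, rfl⟩ := (h2 v).1 hv
      rw [hφ, hφ, h3, k3, f.map_rel_iff]

end GG

/-- tournament isomorphism in time `n ^ o(log n)`, in graph form -/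
def GFINAL : Prop :=
  ∃ (tm : Turing.FinTM2) (e₀ : tm.Γ tm.k₀ ≃ Bool) (e₁ : tm.Γ tm.k₁ ≃ Bool),
    (∀ k, Finite (tm.Γ k)) ∧ ∀ ε : ℝ, 0 < ε → ∃ C : ℝ,
      ∀ (n : ℕ) (G H : SimpleGraph (Fin n)) (V W : Type) (S : V → V → Prop) (T : W → W → Prop),
        IsTour S → IsTour T → Nonempty (G ≃g arcGraph S) → Nonempty (H ≃g arcGraph T) →
        ∃ (t : ℕ) (b : Bool), (t : ℝ) ≤ C * (n : ℝ) ^ (ε * Real.logb 2 n) ∧
          Nonempty (Turing.TM2OutputsInTime tm ((adjBits G ++ adjBits H).map e₀.symm)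
            (Option.some ([b].map e₁.symm)) t) ∧
          (b = true ↔ Nonempty (G ≃g H)) ∧ (b = true ↔ Nonempty (S ≃r T))

open FX GG in
theorem gfinal {mn : Par × Q → Option Bool} (hmn : MSpec mn) (hFTIME : S_FTIME) : GFINAL := by
  classical
  obtain ⟨B, hB⟩ := machine hmn hFTIME
  refine ⟨B.tm, B.e₀, B.e₁, B.fin, fun ε hε => (hB ε hε).imp fun C hC => ?_⟩
  rintro n G H V W S T hS hT ⟨e⟩ ⟨e'⟩
  obtain ⟨E, F, h0, hE, hF, -⟩ :=
    parse_eq (fun a b => decide (G.Adj a b)) (fun a b => decide (H.Adj a b))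
  simp only [decide_eq_true_eq] at hE hF
  have p1 := pres hE hS.1 e
  have p2 := pres hF hT.1 e'
  have hx : adjBits G ++ adjBits H = arcBits (fun a b => decide (G.Adj a b)) ++
    arcBits (fun a b => decide (H.Adj a b)) := rfl
  obtain ⟨t, b, h1, h2, h3⟩ := hC n (adjBits G ++ adjBits H)
    (by rw [hx, List.length_append, length_arcBits, length_arcBits]; ring)
    (by rw [hx, h0, List.length_range]) (by rw [hx, h0]; exact List.filter_sublist)
    (by rw [hx, h0]; exact List.filter_sublist) (by rw [hx, h0]; exact p1.tour hS)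
    (by rw [hx, h0]; exact size_dec n E F)
  rw [hx, h0] at h3
  have h4 : b = true ↔ Nonempty (S ≃r T) := h3.trans (p1.iso p2)
  refine ⟨t, b, h1, h2, h4.trans ⟨fun ⟨f⟩ => ⟨(e.trans (lift f)).trans e'.symm⟩, fun ⟨f⟩ => ?_⟩, h4⟩
  exact (p1.iso (pres hE hT.1 (f.trans e'))).1
    ⟨id, Set.bijOn_id _, fun _ _ _ _ => Iff.rfl⟩

end Pool.Agent.P.MP_f1a348_lc.TO
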