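import Pool.Agent.P.MP_f1a348_lc.TO.Sys

/-! Blocks A and B: elementary facts on systems of local automorphisms. -/

set_option autoImplicit false
set_option linter.unusedSectionVars false

namespace Pool.Agent.P.MP_f1a348_lc.TO

open Equiv Finset
open scoped Classical

/-- The finite set of the points with property `p`. -/
noncomputable def fil {Z : Type} [Fintype Z] (p : Z → Prop) : Finset Z := univ.filter p

@[simp] theorem mem_fil {Z : Type} [Fintype Z] {p : Z → Prop} {z : Z} : z ∈ fil p ↔ p z := by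
  simp [fil]

theorem card_fil_le {Z : Type} [Fintype Z] (p : Z → Prop) : (fil p).card ≤ Fintype.card Z :=
  card_le_univ _

/-- The real indicator of a proposition. -/
noncomputable def ind (p : Prop) : ℝ := if p then 1 else 0

theorem ind_pos {p : Prop} (h : p) : ind p = 1 := by simp [ind, h]

theorem ind_neg {p : Prop} (h : ¬ p) : ind p = 0 := by simp [ind, h]

theorem ind_nonneg (p : Prop) : 0 ≤ ind p := by unfold ind; split_ifs <;> norm_num

theorem ind_le_one (p : Prop) : ind p ≤ 1 := by unfold ind; split_ifs <;> norm_num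

theorem abs_ind_le (p : Prop) : |ind p| ≤ 1 := by
  rw [abs_of_nonneg (ind_nonneg p)]; exact ind_le_one p

theorem ind_and (p q : Prop) : ind (p ∧ q) = ind p * ind q := by
  by_cases hp : p <;> by_cases hq : q <;> simp [ind, hp, hq]

theorem ind_congr {p q : Prop} (h : p ↔ q) : ind p = ind q := by rw [propext h]

theorem ind_mono {p q : Prop} (h : p → q) : ind p ≤ ind q := by
  by_cases hp : p
  · rw [ind_pos hp, ind_pos (h hp)]
  · rw [ind_neg hp]; exact ind_nonneg q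

theorem sum_ind {Z : Type} [Fintype Z] (p : Z → Prop) : ∑ z, ind (p z) = ((fil p).card : ℝ) := by
  simp [ind, fil]

theorem sum_ind_mul {Z : Type} [Fintype Z] (p : Z → Prop) (F : Z → ℝ) :
    ∑ z, ind (p z) * F z = ∑ z ∈ fil p, F z := by
  rw [fil, sum_filter]
  exact sum_congr rfl fun z _ => by by_cases h : p z <;> simp [ind, h]

theorem sum_ind_mem {Z : Type} [Fintype Z] (A : Finset Z) (p : Z → Prop) :
    ∑ z ∈ A, ind (p z) = ((fil fun z => z ∈ A ∧ p z).card : ℝ) := by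
  rw [← sum_ind]
  have : ∀ z, ind (z ∈ A ∧ p z) = ind (z ∈ A) * ind (p z) := fun z => ind_and _ _
  simp only [this]
  rw [sum_ind_mul]
  congr 1
  ext z; simp

/-- Averaging over one coordinate. -/
theorem sum_update {ι Z : Type} [Fintype ι] [DecidableEq ι] [Fintype Z] (l : ι)
    (F : (ι → Z) → ℝ) :
    ∑ u : ι → Z, ∑ y, F (Function.update u l y) = Fintype.card Z * ∑ u, F u := by
  have h1 : ∑ u : ι → Z, ∑ y, F (Function.update u l y)
      = ∑ p : (ι → Z) × Z, F (Function.update p.1 l p.2) := by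
    rw [Fintype.sum_prod_type]
  have h2 : (Fintype.card Z : ℝ) * ∑ u, F u = ∑ p : (ι → Z) × Z, F p.1 := by
    rw [Fintype.sum_prod_type, mul_sum]
    exact sum_congr rfl fun u _ => by simp
  rw [h1, h2]
  refine Fintype.sum_equiv
    ⟨fun p => (Function.update p.1 l p.2, p.1 l), fun p => (Function.update p.1 l p.2, p.1 l),
      fun p => ?_, fun p => ?_⟩ _ _ fun p => rfl
  · simp
  · simp

namespace Sys

variable {Y : Type} [Fintype Y] [DecidableEq Y] {k : ℕ} {Γ : Sys Y k}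
variable {A B S S' : Finset Y} {f g : Perm Y} {a b c a' b' a'' b'' x y : Y}

theorem mono (h : Γ.L A f) (hB : B ⊆ A) : Γ.L B f := Γ.loc h hB fun _ _ => rfl

theorem mul' (h : Γ.L A f) (h' : Γ.L B g) (hAB : ∀ x ∈ A, f x ∈ B) : Γ.L A (g * f) :=
  Γ.mul h (mono h' fun y hy => by
    obtain ⟨x, hx, rfl⟩ := mem_image.1 hy
    exact hAB x hx)

theorem inv' (h : Γ.L A f) (hB : ∀ y ∈ B, ∃ x ∈ A, f x = y) : Γ.L B f⁻¹ :=
  mono (Γ.inv h) fun y hy => mem_image.2 (hB y hy)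

theorem ext1 (h : Γ.L A f) (hA : A.card < k) (w : Y) :
    ∃ g : Perm Y, (∀ x ∈ A, g x = f x) ∧ Γ.L (insert w A) g := by
  obtain ⟨β, hβ⟩ := Γ.ext h hA
  obtain ⟨g, h1, -, h3⟩ := hβ w
  exact ⟨g, h1, h3⟩

/-- Extension backwards: any point is a value. -/
theorem extb (h : Γ.L A f) (hA : A.card < k) (w' : Y) :
    ∃ (g : Perm Y) (w : Y), (∀ x ∈ A, g x = f x) ∧ g w = w' ∧ Γ.L (insert w A) g := by
  obtain ⟨β, hβ⟩ := Γ.ext h hA
  obtain ⟨g, h1, h2, h3⟩ := hβ (β⁻¹ w')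
  exact ⟨g, _, h1, by rw [h2]; simp, h3⟩

theorem exts (h : Γ.L A f) (B : Finset Y) (hc : A.card + B.card ≤ k) :
    ∃ g : Perm Y, (∀ x ∈ A, g x = f x) ∧ Γ.L (A ∪ B) g := by
  induction B using Finset.induction_on with
  | empty => exact ⟨f, fun _ _ => rfl, by simpa using h⟩
  | insert w B hw ih =>
    rw [card_insert_of_notMem hw] at hc
    obtain ⟨g, h1, h2⟩ := ih (by omega)
    have := card_union_le A B
    obtain ⟨g', h3, h4⟩ := ext1 h2 (by omega) w
    refine ⟨g', fun x hx => by rw [h3 x (mem_union_left _ hx), h1 x hx], mono h4 ?_⟩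
    intro z hz; simp only [mem_union, mem_insert] at hz ⊢; tauto

/-- Sums are transported along a local automorphism. -/
theorem sum_tr {M : Type} [AddCommMonoid M] (h : Γ.L A f) (hA : A.card < k) (F F' : Y → M)
    (H : ∀ (w : Y) (g : Perm Y), (∀ x ∈ A, g x = f x) → Γ.L (insert w A) g → F' (g w) = F w) :
    ∑ w, F' w = ∑ w, F w := by
  obtain ⟨β, hβ⟩ := Γ.ext h hA
  rw [← Equiv.sum_comp β F']
  refine sum_congr rfl fun w _ => ?_
  obtain ⟨g, h1, h2, h3⟩ := hβ w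
  rw [← h2]; exact H w g h1 h3

/-- Cardinalities are transported along a local automorphism. -/
theorem card_le_tr (h : Γ.L A f) (hA : A.card < k) (U U' : Finset Y)
    (H : ∀ (w : Y) (g : Perm Y), (∀ x ∈ A, g x = f x) → Γ.L (insert w A) g → w ∈ U → g w ∈ U') :
    U.card ≤ U'.card := by
  obtain ⟨β, hβ⟩ := Γ.ext h hA
  refine card_le_card_of_injOn β (fun w hw => ?_) β.injective.injOn
  obtain ⟨g, h1, h2, h3⟩ := hβ w
  have := H w g h1 h3 hw
  rw [h2] at this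
  exact this

theorem card_tr (h : Γ.L A f) (hA : A.card < k) (U U' : Finset Y)
    (H : ∀ (w : Y) (g : Perm Y), (∀ x ∈ A, g x = f x) → Γ.L (insert w A) g →
      (g w ∈ U' ↔ w ∈ U)) :
    U'.card = U.card := by
  obtain ⟨β, hβ⟩ := Γ.ext h hA
  refine (card_bij (fun w _ => β w) (fun w hw => ?_) (fun _ _ _ _ e => β.injective e)
    fun w' hw' => ?_).symm
  · obtain ⟨g, h1, h2, h3⟩ := hβ w
    rw [← h2]; exact (H w g h1 h3).2 hw
  · obtain ⟨g, h1, h2, h3⟩ := hβ (β⁻¹ w')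
    refine ⟨β⁻¹ w', (H _ g h1 h3).1 ?_, by simp⟩
    rw [h2]; simpa using hw'

theorem image_fix (h : ∀ x ∈ S, f x = x) : S.image f = S := by
  ext y
  simp only [mem_image]
  exact ⟨fun ⟨x, hx, e⟩ => by rw [← e, h x hx]; exact hx, fun hy => ⟨y, hy, h y hy⟩⟩

namespace Aut

theorem mk' (h : Γ.L A f) (hA : S ∪ B ⊆ A) (hS : ∀ x ∈ S, f x = x) : Γ.Aut S B f :=
  ⟨mono h hA, hS⟩

theorem one (S B : Finset Y) : Γ.Aut S B 1 := ⟨Γ.one _, fun _ _ => rfl⟩

/-- Smaller base, any domain inside the old base and domain. -/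
theorem base (h : Γ.Aut S' A f) (hS : S ⊆ S') (hB : B ⊆ S' ∪ A) : Γ.Aut S B f :=
  ⟨mono h.1 (union_subset (hS.trans subset_union_left) hB), fun x hx => h.2 x (hS hx)⟩

/-- Larger base made of fixed points. -/
theorem up (h : Γ.Aut S A f) (hS : S' ∪ B ⊆ S ∪ A) (hf : ∀ x ∈ S', f x = x) : Γ.Aut S' B f :=
  ⟨mono h.1 hS, hf⟩

theorem loc (h : Γ.Aut S A f) (hB : B ⊆ S ∪ A) (hg : ∀ x ∈ S ∪ B, g x = f x) : Γ.Aut S B g :=
  ⟨Γ.loc h.1 (union_subset subset_union_left hB) hg,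
    fun x hx => by rw [hg x (mem_union_left _ hx), h.2 x hx]⟩

theorem mul (h : Γ.Aut S A f) (h' : Γ.Aut S B g) (hAB : ∀ x ∈ A, f x ∈ S ∪ B) :
    Γ.Aut S A (g * f) := by
  refine ⟨mul' h.1 h'.1 fun x hx => ?_, fun x hx => by simp [h.2 x hx, h'.2 x hx]⟩
  rcases mem_union.1 hx with hx | hx
  · rw [h.2 x hx]; exact mem_union_left _ hx
  · exact hAB x hx

theorem inv (h : Γ.Aut S A f) (hB : ∀ y ∈ B, ∃ x ∈ S ∪ A, f x = y) : Γ.Aut S B f⁻¹ := by
  refine ⟨inv' h.1 fun y hy => ?_, fun x hx => ?_⟩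
  · rcases mem_union.1 hy with hy | hy
    · exact ⟨y, mem_union_left _ hy, h.2 y hy⟩
    · exact hB y hy
  · rw [Perm.inv_eq_iff_eq]; exact (h.2 x hx).symm

theorem ext (h : Γ.Aut S A f) (B : Finset Y) (hc : S.card + A.card + B.card ≤ k) :
    ∃ g : Perm Y, (∀ x ∈ S ∪ A, g x = f x) ∧ Γ.Aut S (A ∪ B) g := by
  have := card_union_le S A
  obtain ⟨g, h1, h2⟩ := exts h.1 B (by omega)
  exact ⟨g, h1, by rwa [union_assoc] at h2,
    fun x hx => by rw [h1 x (mem_union_left _ hx), h.2 x hx]⟩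

/-- An extension of a local automorphism over `S` to a new point. -/
theorem of_ext (h : Γ.Aut S A f) {w : Y} (hg : ∀ x ∈ S ∪ A, g x = f x)
    (hL : Γ.L (insert w (S ∪ A)) g) : Γ.Aut S (insert w A) g :=
  ⟨by rwa [union_insert], fun x hx => by rw [hg x (mem_union_left _ hx), h.2 x hx]⟩

theorem cnt (h : Γ.Aut S A f) (hc : S.card + A.card < k) :
    ∃ β : Perm Y, ∀ w, ∃ g : Perm Y, (∀ x ∈ S ∪ A, g x = f x) ∧ g w = β w ∧
      Γ.Aut S (insert w A) g := by
  have := card_union_le S A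
  obtain ⟨β, hβ⟩ := Γ.ext h.1 (by omega)
  refine ⟨β, fun w => ?_⟩
  obtain ⟨g, h1, h2, h3⟩ := hβ w
  exact ⟨g, h1, h2, h.of_ext h1 h3⟩

theorem sum_tr {M : Type} [AddCommMonoid M] (h : Γ.Aut S A f) (hc : S.card + A.card < k)
    (F F' : Y → M)
    (H : ∀ (w : Y) (g : Perm Y), (∀ x ∈ S ∪ A, g x = f x) → Γ.Aut S (insert w A) g →
      F' (g w) = F w) : ∑ w, F' w = ∑ w, F w := by
  have := card_union_le S A
  exact Sys.sum_tr h.1 (by omega) F F' fun w g h1 h2 => H w g h1 (h.of_ext h1 h2)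

theorem card_tr (h : Γ.Aut S A f) (hc : S.card + A.card < k) (U U' : Finset Y)
    (H : ∀ (w : Y) (g : Perm Y), (∀ x ∈ S ∪ A, g x = f x) → Γ.Aut S (insert w A) g →
      (g w ∈ U' ↔ w ∈ U)) : U'.card = U.card := by
  have := card_union_le S A
  exact Sys.card_tr h.1 (by omega) U U' fun w g h1 h2 => H w g h1 (h.of_ext h1 h2)

end Aut

namespace E1

theorem of (h : Γ.Aut S A f) (ha : a ∈ S ∪ A) : Γ.E1 S a (f a) :=
  ⟨f, h.base subset_rfl (singleton_subset_iff.2 ha), rfl⟩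

theorem refl (S : Finset Y) (a : Y) : Γ.E1 S a a := ⟨1, Aut.one _ _, rfl⟩

theorem symm (h : Γ.E1 S a b) : Γ.E1 S b a := by
  obtain ⟨f, h, rfl⟩ := h
  exact ⟨f⁻¹, h.inv (by simp), by simp⟩

theorem trans (h : Γ.E1 S a b) (h' : Γ.E1 S b c) : Γ.E1 S a c := by
  obtain ⟨f, h, rfl⟩ := h
  obtain ⟨g, h', rfl⟩ := h'
  exact ⟨g * f, h.mul h' (by simp), rfl⟩

theorem equiv (S : Finset Y) : Equivalence (Γ.E1 S) := ⟨refl S, symm, trans⟩

theorem base (h : Γ.E1 S' a b) (hS : S ⊆ S') : Γ.E1 S a b := by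
  obtain ⟨f, h, rfl⟩ := h
  exact ⟨f, h.base hS subset_union_right, rfl⟩

theorem eq_of_mem (h : Γ.E1 S a b) (ha : a ∈ S) : b = a := by
  obtain ⟨f, h, rfl⟩ := h
  exact h.2 a ha

/-- Transport to any base inside the image of the base. -/
theorem tr (h : Γ.E1 S a b) (hg : Γ.L A g) (hA : S ⊆ A) (ha : a ∈ A) (hb : b ∈ A)
    (hS : ∀ y ∈ S', ∃ x ∈ S, g x = y) : Γ.E1 S' (g a) (g b) := by
  obtain ⟨f, h, rfl⟩ := h
  have h1 : Γ.L (S' ∪ {g a}) g⁻¹ := inv' hg fun y hy => by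
    rcases mem_union.1 hy with hy | hy
    · obtain ⟨x, hx, e⟩ := hS y hy
      exact ⟨x, hA hx, e⟩
    · exact ⟨a, ha, (mem_singleton.1 hy).symm⟩
  have h2 : Γ.L (S' ∪ {g a}) (f * g⁻¹) := mul' h1 h.1 fun y hy => by
    rcases mem_union.1 hy with hy | hy
    · obtain ⟨x, hx, rfl⟩ := hS y hy
      simp [hx]
    · simp [mem_singleton.1 hy]
  have h3 : Γ.L (S' ∪ {g a}) (g * (f * g⁻¹)) := mul' h2 hg fun y hy => by
    rcases mem_union.1 hy with hy | hy
    · obtain ⟨x, hx, rfl⟩ := hS y hy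
      simp [h.2 x hx, hA hx]
    · simp [mem_singleton.1 hy, hb]
  refine ⟨_, ⟨h3, fun y hy => ?_⟩, by simp⟩
  obtain ⟨x, hx, rfl⟩ := hS y hy
  simp [h.2 x hx]

end E1

@[simp] theorem mem_atom : b ∈ Γ.atom S a ↔ Γ.E1 S a b := by simp [atom]

theorem atom_eq (h : Γ.E1 S a b) : Γ.atom S b = Γ.atom S a := by
  ext z; simp only [mem_atom]
  exact ⟨h.trans, h.symm.trans⟩

theorem card_atom_tr (h : Γ.L (insert a S) f) (hc : S.card + 2 ≤ k) :
    (Γ.atom (S.image f) (f a)).card = (Γ.atom S a).card := by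
  have := card_insert_le a S
  refine card_tr h (by omega) _ _ fun w g h1 h2 => ?_
  have e : S.image f = S.image g :=
    image_congr fun x hx => (h1 x (mem_insert_of_mem hx)).symm
  rw [mem_atom, mem_atom, e, ← h1 a (mem_insert_self _ _)]
  constructor
  · intro h3
    have := h3.tr (S' := S) (Γ.inv h2) (image_subset_image (by intro z hz; simp [hz]))
      (mem_image_of_mem _ (by simp)) (mem_image_of_mem _ (by simp))
      fun y hy => ⟨g y, mem_image_of_mem _ hy, by simp⟩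
    simpa using this
  · intro h3
    exact h3.tr h2 (by intro z hz; simp [hz]) (by simp) (by simp) fun y hy => mem_image.1 hy

namespace E2

theorem of (h : Γ.Aut S A f) (ha : a ∈ S ∪ A) (hb : b ∈ S ∪ A) : Γ.E2 S a b (f a) (f b) :=
  ⟨f, h.base subset_rfl (insert_subset ha (singleton_subset_iff.2 hb)), rfl, rfl⟩

theorem refl (S : Finset Y) (a b : Y) : Γ.E2 S a b a b := ⟨1, Aut.one _ _, rfl, rfl⟩

theorem symm (h : Γ.E2 S a b a' b') : Γ.E2 S a' b' a b := by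
  obtain ⟨f, h, rfl, rfl⟩ := h
  exact ⟨f⁻¹, h.inv (by simp), by simp, by simp⟩

theorem trans (h : Γ.E2 S a b a' b') (h' : Γ.E2 S a' b' a'' b'') : Γ.E2 S a b a'' b'' := by
  obtain ⟨f, h, rfl, rfl⟩ := h
  obtain ⟨g, h', rfl, rfl⟩ := h'
  exact ⟨g * f, h.mul h' (by simp), rfl, rfl⟩

theorem swap (h : Γ.E2 S a b a' b') : Γ.E2 S b a b' a' := by
  obtain ⟨f, h, rfl, rfl⟩ := h
  exact ⟨f, by rwa [pair_comm], rfl, rfl⟩

theorem base (h : Γ.E2 S' a b a' b') (hS : S ⊆ S') : Γ.E2 S a b a' b' := by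
  obtain ⟨f, h, rfl, rfl⟩ := h
  exact ⟨f, h.base hS subset_union_right, rfl, rfl⟩

theorem fst (h : Γ.E2 S a b a' b') : Γ.E1 S a a' := by
  obtain ⟨f, h, rfl, rfl⟩ := h
  exact E1.of h (by simp)

theorem snd (h : Γ.E2 S a b a' b') : Γ.E1 S b b' := h.swap.fst

theorem toE1 (h : Γ.E2 S a b a b') : Γ.E1 (insert a S) b b' := by
  obtain ⟨f, h, e, rfl⟩ := h
  refine ⟨f, h.up (by intro z hz; simp only [mem_union, mem_insert, mem_singleton] at hz ⊢; tauto)
    fun z hz => ?_, rfl⟩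
  rcases mem_insert.1 hz with rfl | hz
  · exact e
  · exact h.2 z hz

theorem anti (h : Γ.E2 S a b b a) : a = b := by
  obtain ⟨f, h, e, e'⟩ := h
  exact Γ.anti (mono h.1 subset_union_right) e e'

end E2

theorem E1.toE2 (h : Γ.E1 S' b b') (hS : S ⊆ S') (ha : a ∈ S') : Γ.E2 S a b a b' := by
  obtain ⟨f, h, rfl⟩ := h
  exact ⟨f, h.base hS (insert_subset (mem_union_left _ ha) subset_union_right), h.2 a ha, rfl⟩

theorem E2_iff : Γ.E2 S a b a b' ↔ Γ.E1 (insert a S) b b' :=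
  ⟨E2.toE1, fun h => h.toE2 (subset_insert _ _) (mem_insert_self _ _)⟩

variable (Γ)

/-- A function of one point that is invariant over `S`. -/
def Inv1 {α : Type} (S : Finset Y) (Φ : Y → α) : Prop :=
  ∀ (f : Perm Y) (x : Y), Γ.Aut S {x} f → Φ (f x) = Φ x

/-- A function of two points that is invariant over `S`. -/
def Inv2 {α : Type} (S : Finset Y) (Φ : Y → Y → α) : Prop :=
  ∀ (f : Perm Y) (x y : Y), Γ.Aut S {x, y} f → Φ (f x) (f y) = Φ x y

/-- A function of three points that is invariant over `S`. -/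
def Inv3 {α : Type} (S : Finset Y) (Φ : Y → Y → Y → α) : Prop :=
  ∀ (f : Perm Y) (x y z : Y), Γ.Aut S {x, y, z} f → Φ (f x) (f y) (f z) = Φ x y z

variable {Γ}

theorem Inv1.of_imp {R : Y → Prop} (h : ∀ (f : Perm Y) (x : Y), Γ.Aut S {x} f → R x → R (f x)) :
    Γ.Inv1 S R := fun f x hf => propext ⟨fun h1 => by
  have := h f⁻¹ (f x) (hf.inv (by simp)) h1
  simpa using this, h f x hf⟩

theorem Inv2.of_imp {R : Y → Y → Prop}
    (h : ∀ (f : Perm Y) (x y : Y), Γ.Aut S {x, y} f → R x y → R (f x) (f y)) :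
    Γ.Inv2 S R := fun f x y hf => propext ⟨fun h1 => by
  have := h f⁻¹ (f x) (f y) (hf.inv (by simp)) h1
  simpa using this, h f x y hf⟩

theorem Inv3.of_imp {R : Y → Y → Y → Prop}
    (h : ∀ (f : Perm Y) (x y z : Y), Γ.Aut S {x, y, z} f → R x y z → R (f x) (f y) (f z)) :
    Γ.Inv3 S R := fun f x y z hf => propext ⟨fun h1 => by
  have := h f⁻¹ (f x) (f y) (f z) (hf.inv (by simp)) h1
  simpa using this, h f x y z hf⟩

section
variable {α : Type}

theorem Inv1.app {Φ : Y → α} (h : Γ.Inv1 S Φ) (hf : Γ.Aut S' A f) (hS : S ⊆ S')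
    (hx : x ∈ S' ∪ A) : Φ (f x) = Φ x :=
  h f x (hf.base hS (singleton_subset_iff.2 hx))

theorem Inv2.app {Φ : Y → Y → α} (h : Γ.Inv2 S Φ) (hf : Γ.Aut S' A f) (hS : S ⊆ S')
    (hx : x ∈ S' ∪ A) (hy : y ∈ S' ∪ A) : Φ (f x) (f y) = Φ x y :=
  h f x y (hf.base hS (insert_subset hx (singleton_subset_iff.2 hy)))

theorem Inv3.app {Φ : Y → Y → Y → α} {z : Y} (h : Γ.Inv3 S Φ) (hf : Γ.Aut S' A f) (hS : S ⊆ S')
    (hx : x ∈ S' ∪ A) (hy : y ∈ S' ∪ A) (hz : z ∈ S' ∪ A) : Φ (f x) (f y) (f z) = Φ x y z :=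
  h f x y z (hf.base hS (insert_subset hx (insert_subset hy (singleton_subset_iff.2 hz))))

theorem Inv1.base {Φ : Y → α} (h : Γ.Inv1 S Φ) (hS : S ⊆ S') : Γ.Inv1 S' Φ :=
  fun _ _ hf => h.app hf hS (by simp)

theorem Inv2.base {Φ : Y → Y → α} (h : Γ.Inv2 S Φ) (hS : S ⊆ S') : Γ.Inv2 S' Φ :=
  fun _ _ _ hf => h.app hf hS (by simp) (by simp)

theorem Inv1.e1 {Φ : Y → α} (h : Γ.Inv1 S Φ) (e : Γ.E1 S a a') : Φ a' = Φ a := by
  obtain ⟨f, hf, rfl⟩ := e
  exact h f a hf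

theorem Inv2.e2 {Φ : Y → Y → α} (h : Γ.Inv2 S Φ) (e : Γ.E2 S a b a' b') : Φ a' b' = Φ a b := by
  obtain ⟨f, hf, rfl, rfl⟩ := e
  exact h f a b hf

/-- Fixing the first place at a point of the larger base. -/
theorem Inv2.fix {Φ : Y → Y → α} (h : Γ.Inv2 S Φ) (hS : S ⊆ S') (ha : a ∈ S') :
    Γ.Inv1 S' (Φ a) := fun f x hf => by
  have := h.app hf hS (mem_union_left _ ha) (mem_union_right _ (mem_singleton_self x))
  rwa [hf.2 a ha] at this

theorem Inv2.flip {Φ : Y → Y → α} (h : Γ.Inv2 S Φ) : Γ.Inv2 S (fun x y => Φ y x) :=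
  fun f x y hf => h f y x (by rwa [pair_comm])

end

theorem inv2_E1 (S : Finset Y) : Γ.Inv2 S (Γ.E1 S) := Inv2.of_imp fun _ _ _ hf h =>
  ((E1.of hf (by simp)).symm.trans h).trans (E1.of hf (by simp))

theorem inv2_E2 (S : Finset Y) (a b : Y) : Γ.Inv2 S (fun x y => Γ.E2 S x y a b) :=
  Inv2.of_imp fun _ _ _ hf h => (E2.of hf (by simp) (by simp)).symm.trans h

/-- Summing out the last place. -/
theorem Inv2.sum {Φ : Y → Y → ℝ} (h : Γ.Inv2 S Φ) (hc : S.card + 2 ≤ k) :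
    Γ.Inv1 S (fun x => ∑ y, Φ x y) := fun f x hf =>
  hf.sum_tr (by rw [card_singleton]; omega) _ _ fun w g h1 h2 => by
    rw [← h1 x (by simp)]; exact h.app h2 subset_rfl (by simp) (by simp)

theorem Inv3.sum {Φ : Y → Y → Y → ℝ} (h : Γ.Inv3 S Φ) (hc : S.card + 3 ≤ k) :
    Γ.Inv2 S (fun x y => ∑ z, Φ x y z) := fun f x y hf =>
  hf.sum_tr (by have := card_le_two (a := x) (b := y); omega) _ _ fun w g h1 h2 => by
    rw [← h1 x (by simp), ← h1 y (by simp)]
    exact h.app h2 subset_rfl (by simp) (by simp) (by simp)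

theorem Inv2.card {R : Y → Y → Prop} (h : Γ.Inv2 S R) (hc : S.card + 2 ≤ k) :
    Γ.Inv1 S (fun x => (fil (R x)).card) := fun f x hf =>
  hf.card_tr (by rw [card_singleton]; omega) _ _ fun w g h1 h2 => by
    rw [← h1 x (by simp), mem_fil, mem_fil, h.app h2 subset_rfl (by simp) (by simp)]

theorem Inv3.card {R : Y → Y → Y → Prop} (h : Γ.Inv3 S R) (hc : S.card + 3 ≤ k) :
    Γ.Inv2 S (fun x y => (fil (R x y)).card) := fun f x y hf =>
  hf.card_tr (by have := card_le_two (a := x) (b := y); omega) _ _ fun w g h1 h2 => by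
    rw [← h1 x (by simp), ← h1 y (by simp), mem_fil, mem_fil,
      h.app h2 subset_rfl (by simp) (by simp) (by simp)]

/-- Products of invariant matrices are invariant. -/
theorem Inv2.mul {M N : Matrix Y Y ℝ} (h : Γ.Inv2 S M) (h' : Γ.Inv2 S N) (hc : S.card + 3 ≤ k) :
    Γ.Inv2 S (M * N) := by
  have : Γ.Inv3 S (fun x y z => M x z * N z y) := fun f x y z hf => by
    have e1 : M (f x) (f z) = M x z := h.app hf subset_rfl (by simp) (by simp)
    have e2 : N (f z) (f y) = N z y := h'.app hf subset_rfl (by simp) (by simp)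
    show M (f x) (f z) * N (f z) (f y) = M x z * N z y
    rw [e1, e2]
  exact this.sum hc

theorem Prim.inv2 (h : Γ.Prim) {E : Y → Y → Prop} (hE : Equivalence E) (hI : Γ.Inv2 ∅ E) :
    (∀ a b, E a b → a = b) ∨ (∀ a b, E a b) :=
  h E hE fun a b f hf hab => by
    rw [hI f a b ⟨by simpa using hf, by simp⟩]; exact hab

variable (Γ)

/-- The points with a small atom. -/
noncomputable def acl (K : ℕ) (S : Finset Y) : Finset Y :=
  fil fun w => K ^ (S.card + 1) * (Γ.atom S w).card ≤ Fintype.card Y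

/-- The same system at a lower level. -/
def low {k' : ℕ} (h : k' ≤ k) : Sys Y k' where
  L := Γ.L
  loc := Γ.loc
  one := Γ.one
  inv := Γ.inv
  mul := Γ.mul
  ext := fun h1 h2 => Γ.ext h1 (lt_of_lt_of_le h2 h)
  anti := Γ.anti

theorem low_acl {k' : ℕ} (h : k' ≤ k) (K : ℕ) (S : Finset Y) :
    (Γ.low h).acl K S = Γ.acl K S := rfl

end Sys

end Pool.Agent.P.MP_f1a348_lc.TO
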