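import Pool.Agent.P.MP_f1a348_lc.TO.ABase

/-! Block A: contexts, closure, strong classes, strong local automorphisms, the facts. -/

set_option autoImplicit false
set_option linter.unusedSectionVars false

namespace Pool.Agent.P.MP_f1a348_lc.TO

open Equiv Finset Filter
open scoped Classical

/-- The constants. -/
structure APar where
  K : ℕ
  C : ℕ → ℕ
  hK : 2 ≤ K
  hC : Monotone C

/-- The number of sorts in the last part. -/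
abbrev APar.q (P : APar) : ℕ := 16 * P.K ^ 2 + 1

theorem APar.q_ge (P : APar) : 3 ≤ P.q := by
  have := P.hK
  have : 4 ≤ P.K ^ 2 := by nlinarith
  unfold APar.q; omega

/-- The density of a large set. -/
noncomputable def APar.dl (P : APar) (s : ℕ) : ℝ := ((P.K : ℝ) ^ (s + 2))⁻¹

theorem APar.K_pos (P : APar) : (0 : ℝ) < P.K := by
  have := P.hK
  have : 0 < P.K := by omega
  exact_mod_cast this

theorem APar.dl_pos (P : APar) (s : ℕ) : 0 < P.dl s := inv_pos.2 (pow_pos P.K_pos _)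

theorem APar.dl_le_one (P : APar) (s : ℕ) : P.dl s ≤ 1 := by
  have h : (1 : ℝ) ≤ P.K := by have := P.hK; exact_mod_cast (by omega : 1 ≤ P.K)
  exact inv_le_one_of_one_le₀ (one_le_pow₀ h)

/-- A system in which the closure of a small set is bounded. -/
structure Ctx (P : APar) where
  Y : Type
  fin : Fintype Y
  dec : DecidableEq Y
  k : ℕ
  G : @Sys Y fin dec k
  F1 : ∀ S : Finset Y, S.card ≤ k → (@Sys.acl Y fin dec k G P.K S).card ≤ P.C S.card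

instance Ctx.instFin {P : APar} (Γ : Ctx P) : Fintype Γ.Y := Γ.fin

instance Ctx.instDec {P : APar} (Γ : Ctx P) : DecidableEq Γ.Y := Γ.dec

/-- The number of points. -/
abbrev Ctx.n {P : APar} (Γ : Ctx P) : ℕ := Fintype.card Γ.Y

/-- Many points and a high level. -/
def big (P : APar) : Filter (Ctx P) := Filter.comap (fun Γ => min Γ.n Γ.k) atTop

theorem ev_min (P : APar) (N : ℕ) : ∀ᶠ Γ : Ctx P in big P, N ≤ min Γ.n Γ.k :=
  (tendsto_comap (f := fun Γ : Ctx P => min Γ.n Γ.k) (x := atTop)).eventually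
    (eventually_ge_atTop N)

theorem ev_n (P : APar) (N : ℕ) : ∀ᶠ Γ : Ctx P in big P, N ≤ Γ.n :=
  (ev_min P N).mono fun _ h => h.trans (min_le_left _ _)

theorem ev_k (P : APar) (N : ℕ) : ∀ᶠ Γ : Ctx P in big P, N ≤ Γ.k :=
  (ev_min P N).mono fun _ h => h.trans (min_le_right _ _)

theorem ev_real (P : APar) (c : ℝ) : ∀ᶠ Γ : Ctx P in big P, c ≤ (Γ.n : ℝ) :=
  (ev_n P ⌈c⌉₊).mono fun _ h => (Nat.le_ceil c).trans (by exact_mod_cast h)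

theorem tendsto_n (P : APar) : Tendsto (fun Γ : Ctx P => (Γ.n : ℝ)) (big P) atTop :=
  tendsto_atTop.2 (ev_real P)

theorem of_ev {P : APar} {p : Ctx P → Prop} (h : ∀ᶠ Γ in big P, p Γ) :
    ∃ N, ∀ Γ : Ctx P, N ≤ Γ.n → N ≤ Γ.k → p Γ := by
  obtain ⟨N, hN⟩ := eventually_atTop.1 (eventually_comap.1 h)
  exact ⟨N, fun Γ h1 h2 => hN _ (le_min h1 h2) Γ rfl⟩

/-- The pairs `i < j`. -/
def pairs (q : ℕ) : Finset (Fin q × Fin q) := univ.filter fun p => p.1 < p.2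

namespace Ctx

variable {P : APar} (Γ : Ctx P)

/-- The closure of `S`. -/
noncomputable def acl (S : Finset Γ.Y) : Finset Γ.Y := Γ.G.acl P.K S

theorem mem_acl {S : Finset Γ.Y} {w : Γ.Y} :
    w ∈ Γ.acl S ↔ P.K ^ (S.card + 1) * (Γ.G.atom S w).card ≤ Γ.n := mem_fil

/-- `A` is large at level `s`. -/
def Lg (s : ℕ) (A : Finset Γ.Y) : Prop := Γ.n < P.K ^ (s + 2) * A.card

/-- `A` is independent over `S`. -/
def Ind (S A : Finset Γ.Y) : Prop := ∀ z ∈ A, z ∉ Γ.acl (S ∪ A.erase z)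

/-- The family `u` is independent over `S`. -/
def IndF {q : ℕ} (S : Finset Γ.Y) (u : Fin q → Γ.Y) : Prop :=
  ∀ i, u i ∉ Γ.acl (S ∪ (univ.erase i).image u)

/-- An invariant equivalence relation. -/
def Dfn (S : Finset Γ.Y) (E : Γ.Y → Γ.Y → Prop) : Prop := Equivalence E ∧ Γ.G.Inv2 S E

/-- The classes outside the closure are not algebraic. -/
def Lrg (S : Finset Γ.Y) (E : Γ.Y → Γ.Y → Prop) : Prop :=
  ∀ x, x ∉ Γ.acl S → ∃ y, E x y ∧ y ∉ Γ.acl (insert x S)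

/-- Same strong class over `S`. -/
def Q (S : Finset Γ.Y) (x y : Γ.Y) : Prop := ∀ E, Γ.Dfn S E → Γ.Lrg S E → E x y

/-- The strong class of `x` over `S`. -/
noncomputable def cls (S : Finset Γ.Y) (x : Γ.Y) : Finset Γ.Y := fil (Γ.Q S x)

variable {Γ}

theorem Q.refl (S : Finset Γ.Y) (x : Γ.Y) : Γ.Q S x x := fun _ h _ => h.1.refl x

theorem Q.symm {S : Finset Γ.Y} {x y : Γ.Y} (h : Γ.Q S x y) : Γ.Q S y x :=
  fun E h1 h2 => h1.1.symm (h E h1 h2)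

theorem Q.trans {S : Finset Γ.Y} {x y z : Γ.Y} (h : Γ.Q S x y) (h' : Γ.Q S y z) : Γ.Q S x z :=
  fun E h1 h2 => h1.1.trans (h E h1 h2) (h' E h1 h2)

theorem Q.equiv (S : Finset Γ.Y) : Equivalence (Γ.Q S) := ⟨Q.refl S, Q.symm, Q.trans⟩

theorem Q.inv2 (S : Finset Γ.Y) : Γ.G.Inv2 S (Γ.Q S) :=
  Sys.Inv2.of_imp fun f x y hf h E h1 h2 => by rw [h1.2 f x y hf]; exact h E h1 h2

theorem Q.dfn (S : Finset Γ.Y) : Γ.Dfn S (Γ.Q S) := ⟨Q.equiv S, Q.inv2 S⟩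

@[simp] theorem mem_cls {S : Finset Γ.Y} {x y : Γ.Y} : y ∈ Γ.cls S x ↔ Γ.Q S x y := mem_fil

theorem cls_eq {S : Finset Γ.Y} {x y : Γ.Y} (h : Γ.Q S x y) : Γ.cls S y = Γ.cls S x := by
  ext z; simp only [mem_cls]; exact ⟨h.trans, h.symm.trans⟩

theorem cls_pos (S : Finset Γ.Y) (x : Γ.Y) : 0 < (Γ.cls S x).card :=
  card_pos.2 ⟨x, mem_cls.2 (Q.refl S x)⟩

theorem Lg.mono {s : ℕ} {A B : Finset Γ.Y} (h : Γ.Lg s A) (hAB : A ⊆ B) : Γ.Lg s B :=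
  lt_of_lt_of_le h (Nat.mul_le_mul_left _ (card_le_card hAB))

theorem Lg.up {s t : ℕ} {A : Finset Γ.Y} (h : Γ.Lg s A) (hst : s ≤ t) : Γ.Lg t A :=
  lt_of_lt_of_le h (Nat.mul_le_mul_right _
    (Nat.pow_le_pow_right (by have := P.hK; omega) (by omega)))

theorem Lg.real {s : ℕ} {A : Finset Γ.Y} (h : Γ.Lg s A) : P.dl s * Γ.n < A.card := by
  have h1 : (Γ.n : ℝ) < (P.K : ℝ) ^ (s + 2) * A.card := by exact_mod_cast h
  rw [APar.dl, inv_mul_lt_iff₀ (pow_pos P.K_pos _)]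
  exact h1

variable (Γ)

/-- One representative of each strong class. -/
noncomputable def rep (S : Finset Γ.Y) : Finset Γ.Y :=
  univ.image fun y => (Quotient.mk (Setoid.mk (Γ.Q S) (Q.equiv S)) y).out

theorem exists_rep (S : Finset Γ.Y) (y : Γ.Y) : ∃ r ∈ Γ.rep S, Γ.Q S r y :=
  ⟨_, mem_image_of_mem _ (mem_univ y),
    Quotient.mk_out (s := Setoid.mk (Γ.Q S) (Q.equiv S)) y⟩

theorem rep_inj {S : Finset Γ.Y} {r r' : Γ.Y} (h : r ∈ Γ.rep S) (h' : r' ∈ Γ.rep S)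
    (e : Γ.Q S r r') : r = r' := by
  obtain ⟨y, -, rfl⟩ := mem_image.1 h
  obtain ⟨y', -, rfl⟩ := mem_image.1 h'
  have := Quotient.sound (s := Setoid.mk (Γ.Q S) (Q.equiv S)) e
  simp only [Quotient.out_eq] at this
  rw [this]

/-- A strong local automorphism over `S` defined on `A`. -/
def SL (S A : Finset Γ.Y) (f : Perm Γ.Y) : Prop :=
  (∀ x ∈ S, f x = x) ∧ ∃ g : Perm Γ.Y, (∀ x ∈ S ∪ A, g x = f x) ∧
    Γ.G.L (S ∪ A ∪ Γ.rep S) g ∧ ∀ r ∈ Γ.rep S, Γ.Q S r (g r)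

variable {Γ}

theorem SL.aut {S A : Finset Γ.Y} {f : Perm Γ.Y} (h : Γ.SL S A f) : Γ.G.Aut S A f := by
  obtain ⟨h1, g, h2, h3, -⟩ := h
  exact ⟨Γ.G.loc h3 subset_union_left fun x hx => (h2 x hx).symm, h1⟩

theorem SL.fix {S A : Finset Γ.Y} {f : Perm Γ.Y} (h : Γ.SL S A f) : ∀ x ∈ S, f x = x := h.1

theorem SL.one (S A : Finset Γ.Y) : Γ.SL S A 1 :=
  ⟨fun _ _ => rfl, 1, fun _ _ => rfl, Γ.G.one _, fun r _ => Q.refl S r⟩

theorem SL.loc {S A B : Finset Γ.Y} {f g : Perm Γ.Y} (h : Γ.SL S A f) (hB : B ⊆ S ∪ A)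
    (hg : ∀ x ∈ S ∪ B, g x = f x) : Γ.SL S B g := by
  obtain ⟨h1, g', h2, h3, h4⟩ := h
  have hs : S ∪ B ⊆ S ∪ A := union_subset subset_union_left hB
  exact ⟨fun x hx => by rw [hg x (mem_union_left _ hx), h1 x hx], g',
    fun x hx => by rw [hg x hx, h2 x (hs hx)], Sys.mono h3 (union_subset_union_left hs), h4⟩

theorem SL.mono {S A B : Finset Γ.Y} {f : Perm Γ.Y} (h : Γ.SL S A f) (hB : B ⊆ S ∪ A) :
    Γ.SL S B f := h.loc hB fun _ _ => rfl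

variable (Γ)

/-- The density of `p` in the strong class of `y`. -/
noncomputable def den (S : Finset Γ.Y) (p : Γ.Y → Prop) (y : Γ.Y) : ℝ :=
  ((fil fun z => z ∈ Γ.cls S y ∧ p z).card : ℝ) / (Γ.cls S y).card

/-- The indicator of `p`, centred on each strong class. -/
noncomputable def cen (S : Finset Γ.Y) (p : Γ.Y → Prop) (y : Γ.Y) : ℝ := ind (p y) - Γ.den S p y

variable {Γ}

theorem den_nonneg (S : Finset Γ.Y) (p : Γ.Y → Prop) (y : Γ.Y) : 0 ≤ Γ.den S p y := by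
  unfold den; positivity

theorem den_le_one (S : Finset Γ.Y) (p : Γ.Y → Prop) (y : Γ.Y) : Γ.den S p y ≤ 1 := by
  unfold den
  refine div_le_one_of_le₀ ?_ (by positivity)
  exact Nat.cast_le.2 (card_le_card fun z hz => (mem_fil.1 hz).1)

theorem den_eq {S : Finset Γ.Y} {x y : Γ.Y} (p : Γ.Y → Prop) (h : Γ.Q S x y) :
    Γ.den S p y = Γ.den S p x := by
  unfold den; rw [cls_eq h]

theorem den_mul (S : Finset Γ.Y) (p : Γ.Y → Prop) (y : Γ.Y) :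
    Γ.den S p y * (Γ.cls S y).card = ((fil fun z => z ∈ Γ.cls S y ∧ p z).card : ℝ) := by
  unfold den
  have : ((Γ.cls S y).card : ℝ) ≠ 0 := by exact_mod_cast (cls_pos S y).ne'
  field_simp

theorem abs_cen_le (S : Finset Γ.Y) (p : Γ.Y → Prop) (y : Γ.Y) : |Γ.cen S p y| ≤ 1 := by
  have := den_nonneg S p y
  have := den_le_one S p y
  have := ind_nonneg (p y)
  have := ind_le_one (p y)
  unfold cen; rw [abs_le]; constructor <;> linarith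

theorem sum_cen (S : Finset Γ.Y) (p : Γ.Y → Prop) (d : Γ.Y) :
    ∑ y ∈ Γ.cls S d, Γ.cen S p y = 0 := by
  have : ∀ y ∈ Γ.cls S d, Γ.cen S p y = ind (p y) - Γ.den S p d := fun y hy => by
    rw [cen, den_eq p (mem_cls.1 hy)]
  rw [sum_congr rfl this, sum_sub_distrib, sum_ind_mem, sum_const, nsmul_eq_mul, mul_comm,
    den_mul, sub_self]

variable (Γ)

/-- First facts on the closure. -/
structure Fa (s : ℕ) : Prop where
  room : s ≤ Γ.k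
  card : ∀ {S : Finset Γ.Y}, S.card ≤ s → (Γ.acl S).card ≤ P.C s
  lrg : ∀ {S : Finset Γ.Y} {w : Γ.Y}, S.card ≤ s → w ∉ Γ.acl S → Γ.Lg s (Γ.G.atom S w)
  mem : ∀ {S : Finset Γ.Y} {x : Γ.Y}, S.card ≤ s → x ∈ S → x ∈ Γ.acl S
  tr : ∀ {S : Finset Γ.Y} {a : Γ.Y} {f : Perm Γ.Y}, S.card ≤ s → Γ.G.L (insert a S) f →
    (f a ∈ Γ.acl (S.image f) ↔ a ∈ Γ.acl S)
  avoid : ∀ {A B : Finset Γ.Y}, Γ.Lg s A → B.card ≤ s → ∃ y ∈ A, y ∉ Γ.acl B

/-- The closure is monotone and transitive. -/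
structure Fb (s : ℕ) : Prop where
  cl : ∀ {S S' : Finset Γ.Y} {a : Γ.Y}, S.card ≤ s → S'.card ≤ s → (∀ b ∈ S', b ∈ Γ.acl S) →
    a ∈ Γ.acl S' → a ∈ Γ.acl S

/-- Exchange. -/
structure Fc (s : ℕ) : Prop where
  exch : ∀ {S : Finset Γ.Y} {a b : Γ.Y}, S.card ≤ s → a ∈ Γ.acl (insert b S) → a ∉ Γ.acl S →
    b ∈ Γ.acl (insert a S)

/-- The pregeometry. -/
structure Pre (s : ℕ) : Prop extends Γ.Fa s, Γ.Fb s, Γ.Fc s

/-- Independent sets. -/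
structure Fi (s : ℕ) : Prop where
  ins : ∀ {S A : Finset Γ.Y} {y : Γ.Y}, S.card ≤ s → A.card ≤ s → Γ.Ind S A →
    y ∉ Γ.acl (S ∪ A) → Γ.Ind S (insert y A)
  join : ∀ {S A A' : Finset Γ.Y}, S.card ≤ s → A.card ≤ s → A'.card ≤ s → Γ.Ind S A →
    Γ.Ind (S ∪ A) A' → Γ.Ind S (A ∪ A')
  basis : ∀ {S : Finset Γ.Y} (A : Finset Γ.Y), S.card ≤ s → A.card ≤ s →
    ∃ A0, A0 ⊆ A ∧ Γ.Ind S A0 ∧ ∀ z ∈ A, z ∈ Γ.acl (S ∪ A0)

/-- Strong classes refine types and are points inside the closure. -/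
structure Fq (s : ℕ) : Prop where
  qacl : ∀ {S : Finset Γ.Y} {x y : Γ.Y}, S.card ≤ s → x ∈ Γ.acl S → Γ.Q S x y → y = x
  qe1 : ∀ {S : Finset Γ.Y} {x y : Γ.Y}, S.card ≤ s → Γ.Q S x y → Γ.G.E1 S x y

/-- The meet of two large invariant equivalence relations is large. -/
def Meet (s : ℕ) : Prop :=
  ∀ (S : Finset Γ.Y) (E E' : Γ.Y → Γ.Y → Prop), S.card ≤ s → Γ.Dfn S E → Γ.Lrg S E →
    Γ.Dfn S E' → Γ.Lrg S E' → Γ.Lrg S (fun x y => E x y ∧ E' x y)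

/-- Strong classes are large. -/
structure Fl (s : ℕ) : Prop where
  qlg : ∀ {S : Finset Γ.Y} {x : Γ.Y}, S.card ≤ s → x ∉ Γ.acl S → Γ.Lg s (Γ.cls S x)
  qd : ∀ {S S' : Finset Γ.Y} {x y : Γ.Y}, S ⊆ S' → S'.card ≤ s → Γ.Q S' x y → Γ.Q S x y
  repc : ∀ {S : Finset Γ.Y}, S.card ≤ s → (Γ.rep S).card ≤ P.C s + P.K ^ (s + 2)

/-- Strong classes are transported. -/
structure Ft (s : ℕ) : Prop where
  qtr : ∀ {S : Finset Γ.Y} {x y : Γ.Y} {f : Perm Γ.Y}, S.card ≤ s →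
    Γ.G.L (insert x (insert y S)) f → Γ.Q S x y → Γ.Q (S.image f) (f x) (f y)

/-- Strong local automorphisms, first part. -/
structure Fs (s : ℕ) : Prop where
  pres : ∀ {S A : Finset Γ.Y} {f : Perm Γ.Y} {x : Γ.Y}, S.card ≤ s → Γ.SL S A f → x ∈ A →
    Γ.Q S x (f x)
  sext : ∀ {S A : Finset Γ.Y} {f : Perm Γ.Y} (B : Finset Γ.Y), S.card ≤ s → A.card ≤ s →
    B.card ≤ s → Γ.SL S A f → ∃ g : Perm Γ.Y, (∀ x ∈ S ∪ A, g x = f x) ∧ Γ.SL S (A ∪ B) g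
  scnt : ∀ {S A : Finset Γ.Y} {f : Perm Γ.Y}, S.card ≤ s → A.card ≤ s → Γ.SL S A f →
    ∃ β : Perm Γ.Y, ∀ w, ∃ g : Perm Γ.Y, (∀ x ∈ S ∪ A, g x = f x) ∧ g w = β w ∧
      Γ.SL S (insert w A) g
  sbase : ∀ {S S' A B : Finset Γ.Y} {f : Perm Γ.Y}, S ⊆ S' → S'.card ≤ s → A.card ≤ s →
    Γ.SL S' A f → B ⊆ S' ∪ A → Γ.SL S B f

/-- Strong local automorphisms, second part. -/
structure Fm (s : ℕ) : Prop where
  smul : ∀ {S A B : Finset Γ.Y} {f g : Perm Γ.Y}, S.card ≤ s → A.card ≤ s → B.card ≤ s →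
    Γ.SL S A f → Γ.SL S B g → (∀ x ∈ A, f x ∈ S ∪ B) → Γ.SL S A (g * f)
  sinv : ∀ {S A B : Finset Γ.Y} {f : Perm Γ.Y}, S.card ≤ s → A.card ≤ s → Γ.SL S A f →
    (∀ y ∈ B, ∃ x ∈ S ∪ A, f x = y) → Γ.SL S B f⁻¹

/-- Points of a strong class are conjugate under strong local automorphisms. -/
structure Fr (s : ℕ) : Prop where
  transfer : ∀ {S : Finset Γ.Y} {a a' : Γ.Y}, S.card ≤ s → Γ.Q S a a' →
    ∃ f : Perm Γ.Y, Γ.SL S {a} f ∧ f a = a'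

/-- Invariance of densities. -/
structure Fg (s : ℕ) : Prop where
  den2 : ∀ {S : Finset Γ.Y} {R : Γ.Y → Γ.Y → Prop}, S.card ≤ s → Γ.G.Inv2 S R →
    Γ.G.Inv2 S (fun b y => Γ.den S (R b) y)
  cen2 : ∀ {S : Finset Γ.Y} {R : Γ.Y → Γ.Y → Prop}, S.card ≤ s → Γ.G.Inv2 S R →
    Γ.G.Inv2 S (fun b y => Γ.cen S (R b) y)
  cen3 : ∀ {S : Finset Γ.Y} {R : Γ.Y → Γ.Y → Γ.Y → Prop}, S.card ≤ s → Γ.G.Inv3 S R →
    Γ.G.Inv3 S (fun b b' y => Γ.cen S (R b b') y)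
  deg : ∀ {S : Finset Γ.Y} {R : Γ.Y → Γ.Y → Prop} {a a' : Γ.Y} (y : Γ.Y), S.card ≤ s →
    Γ.G.Inv2 S R → Γ.Q S a a' → Γ.den S (R a') y = Γ.den S (R a) y

/-- All the basic facts for sets with at most `s` points. -/
structure Geo (s : ℕ) : Prop extends Γ.Pre s, Γ.Fi s, Γ.Fq s, Γ.Fl s, Γ.Ft s, Γ.Fs s, Γ.Fm s,
  Γ.Fr s, Γ.Fg s

variable {Γ}

section
variable {s : ℕ} {S S' A B : Finset Γ.Y} {a b x y : Γ.Y} {f : Perm Γ.Y}

namespace Pre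

theorem mono (h : Γ.Pre s) (hS : S ⊆ S') (hc : S'.card ≤ s) (ha : a ∈ Γ.acl S) :
    a ∈ Γ.acl S' :=
  h.cl hc ((card_le_card hS).trans hc) (fun _ hb => h.mem hc (hS hb)) ha

theorem nmono (h : Γ.Pre s) (hS : S ⊆ S') (hc : S'.card ≤ s) (ha : a ∉ Γ.acl S') :
    a ∉ Γ.acl S := fun h1 => ha (h.mono hS hc h1)

/-- Dropping an algebraic point from the base. -/
theorem drop (h : Γ.Pre s) (hc : S.card + 1 ≤ s) (hb : b ∈ Γ.acl S)
    (ha : a ∈ Γ.acl (insert b S)) : a ∈ Γ.acl S :=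
  h.cl (by omega) ((card_insert_le _ _).trans hc) (fun z hz => by
    rcases mem_insert.1 hz with rfl | hz
    · exact hb
    · exact h.mem (by omega) hz) ha

/-- Exchange, negative form. -/
theorem nexch (h : Γ.Pre s) (hc : S.card ≤ s) (ha : a ∉ Γ.acl S) (hb : b ∉ Γ.acl (insert a S)) :
    a ∉ Γ.acl (insert b S) := fun h1 => hb (h.exch hc h1 ha)

/-- Transport of membership to any base containing the image of the base. -/
theorem acl_tr (h : Γ.Pre s) (hf : Γ.G.L A f) (hS : S ⊆ A) (ha : a ∈ A)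
    (hS' : ∀ x ∈ S, f x ∈ S') (hc : S'.card ≤ s) (h1 : a ∈ Γ.acl S) : f a ∈ Γ.acl S' := by
  have h2 : S.image f ⊆ S' := fun y hy => by
    obtain ⟨x, hx, rfl⟩ := mem_image.1 hy
    exact hS' x hx
  have h3 : S.card ≤ s := by
    rw [← card_image_of_injective S f.injective]; exact (card_le_card h2).trans hc
  exact h.mono h2 hc ((h.tr h3 (Sys.mono hf (insert_subset ha hS))).2 h1)

/-- Transport of non-membership to any base inside the image of the base. -/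
theorem nacl_tr (h : Γ.Pre s) (hf : Γ.G.L A f) (hS : S ⊆ A) (ha : a ∈ A)
    (hS' : ∀ y ∈ S', ∃ x ∈ S, f x = y) (hc : S.card ≤ s) (h1 : a ∉ Γ.acl S) :
    f a ∉ Γ.acl S' := fun h2 =>
  h1 ((h.tr hc (Sys.mono hf (insert_subset ha hS))).1
    (h.mono (fun y hy => mem_image.2 (hS' y hy)) (card_image_le.trans hc) h2))

theorem acl_e1 (h : Γ.Pre s) (hc : S.card ≤ s) (e : Γ.G.E1 S a b) (ha : a ∈ Γ.acl S) :
    b ∈ Γ.acl S := by
  obtain ⟨f, hf, rfl⟩ := e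
  exact h.acl_tr hf.1 subset_union_left (by simp) (fun x hx => by rw [hf.2 x hx]; exact hx) hc ha

theorem nacl_e1 (h : Γ.Pre s) (hc : S.card ≤ s) (e : Γ.G.E1 S a b) (ha : a ∉ Γ.acl S) :
    b ∉ Γ.acl S := fun h1 => ha (h.acl_e1 hc e.symm h1)

/-- Genericity of a pair depends on its type only. -/
theorem nacl_e2 (h : Γ.Pre s) {a' b' : Γ.Y} (hc : S.card + 1 ≤ s) (e : Γ.G.E2 S a b a' b')
    (hb : b ∉ Γ.acl (insert a S)) : b' ∉ Γ.acl (insert a' S) := by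
  obtain ⟨f, hf, rfl, rfl⟩ := e
  refine h.nacl_tr hf.1 (insert_subset (by simp) subset_union_left) (by simp) (fun y hy => ?_)
    ((card_insert_le _ _).trans hc) hb
  rcases mem_insert.1 hy with rfl | hy
  · exact ⟨a, by simp, rfl⟩
  · exact ⟨y, by simp [hy], hf.2 y hy⟩

theorem ne_of (h : Γ.Pre s) (hc : S.card ≤ s) (ha : a ∉ Γ.acl S) (hb : b ∈ S) : a ≠ b :=
  fun e => ha (e ▸ h.mem hc hb)

theorem ind_mono (h : Γ.Pre s) (hI : Γ.Ind S' A) (hS : S ⊆ S') (hB : B ⊆ A)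
    (hc : S'.card + A.card ≤ s) : Γ.Ind S B := fun z hz =>
  h.nmono (union_subset_union hS (erase_subset_erase _ hB))
    ((card_union_le _ _).trans (by have := card_erase_le (s := A) (a := z); omega))
    (hI z (hB hz))

theorem exists_nacl (h : Γ.Pre s) (hn : 0 < Γ.n) (hc : B.card ≤ s) : ∃ y, y ∉ Γ.acl B := by
  have h2 : 1 < P.K ^ (s + 2) := Nat.one_lt_pow (by omega) (by have := P.hK; omega)
  have : Γ.Lg s univ := by
    unfold Lg; rw [card_univ]; exact (Nat.lt_mul_iff_one_lt_left hn).2 h2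
  obtain ⟨y, -, hy⟩ := h.avoid this hc
  exact ⟨y, hy⟩

end Pre

namespace Geo

theorem qnacl (h : Γ.Geo s) (hc : S.card ≤ s) (e : Γ.Q S x y) (hx : x ∉ Γ.acl S) :
    y ∉ Γ.acl S := h.toPre.nacl_e1 hc (h.qe1 hc e) hx

/-- A strong class outside the closure has a point outside any other closure. -/
theorem qav (h : Γ.Geo s) (hc : S.card ≤ s) (hx : x ∉ Γ.acl S) (B : Finset Γ.Y)
    (hB : B.card ≤ s) : ∃ y, Γ.Q S x y ∧ y ∉ Γ.acl B := by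
  obtain ⟨y, h1, h2⟩ := h.avoid (h.qlg hc hx) hB
  exact ⟨y, mem_cls.1 h1, h2⟩

/-- Transport of strong classes to any base inside the image of the base. -/
theorem q_tr (h : Γ.Geo s) (hf : Γ.G.L A f) (hS : S ⊆ A) (hx : x ∈ A) (hy : y ∈ A)
    (hS' : ∀ y ∈ S', ∃ x ∈ S, f x = y) (hc : S.card ≤ s) (e : Γ.Q S x y) :
    Γ.Q S' (f x) (f y) :=
  h.qd (fun y hy => mem_image.2 (hS' y hy)) (card_image_le.trans hc)
    (h.qtr hc (Sys.mono hf (insert_subset hx (insert_subset hy hS))) e)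

/-- Transfer, extended to a finite set. -/
theorem move (h : Γ.Geo s) {a' : Γ.Y} (hc : S.card ≤ s) (A : Finset Γ.Y) (hA : A.card + 1 ≤ s)
    (e : Γ.Q S a a') : ∃ f : Perm Γ.Y, Γ.SL S (insert a A) f ∧ f a = a' := by
  obtain ⟨f, h1, h2⟩ := h.transfer hc e
  obtain ⟨g, h3, h4⟩ := h.sext A hc (by rw [card_singleton]; omega) (by omega) h1
  exact ⟨g, by rwa [insert_eq], by rw [h3 a (by simp), h2]⟩

/-- A strong local automorphism fixes the algebraic points of its domain. -/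
theorem sfix (h : Γ.Geo s) (hc : S.card ≤ s) (hf : Γ.SL S A f) (hx : x ∈ A)
    (h1 : x ∈ Γ.acl S) : f x = x := h.qacl hc h1 (h.pres hc hf hx)

theorem ssum (h : Γ.Geo s) (hc : S.card ≤ s) (hA : A.card ≤ s) (hf : Γ.SL S A f)
    (F F' : Γ.Y → ℝ)
    (H : ∀ (w : Γ.Y) (g : Perm Γ.Y), (∀ x ∈ S ∪ A, g x = f x) → Γ.SL S (insert w A) g →
      F' (g w) = F w) : ∑ w, F' w = ∑ w, F w := by
  obtain ⟨β, hβ⟩ := h.scnt hc hA hf
  rw [← Equiv.sum_comp β F']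
  refine sum_congr rfl fun w _ => ?_
  obtain ⟨g, h1, h2, h3⟩ := hβ w
  rw [← h2]; exact H w g h1 h3

theorem qe2 (h : Γ.Geo s) (hS : S ⊆ S') (hc : S'.card ≤ s) (ha : a ∈ S') (e : Γ.Q S' x y) :
    Γ.G.E2 S a x a y := (h.qe1 hc e).toE2 hS ha

end Geo

end

variable (Γ)

/-- Few generic types inside a strong class. -/
def Few (s L : ℕ) : Prop :=
  ∀ (S : Finset Γ.Y) (x : Γ.Y), S.card ≤ s → x ∉ Γ.acl S → ∃ V : Finset Γ.Y, V.card ≤ L ∧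
    ∀ y, Γ.Q S x y → y ∉ Γ.acl (insert x S) → ∃ v ∈ V, Γ.G.E1 (insert x S) v y

/-- Spectral bound for invariant matrices with zero row sums inside the strong classes. -/
def SPb (s : ℕ) (θ : ℝ) : Prop :=
  ∀ (S : Finset Γ.Y) (M : Matrix Γ.Y Γ.Y ℝ), S.card ≤ s → (∀ x y, M x y = M y x) →
    Γ.G.Inv2 S M → (∀ x y, |M x y| ≤ 1) → (∀ x y, M x y ≠ 0 → Γ.Q S x y) →
    (∀ x, ∑ y, M x y = 0) →
    ∀ v : Γ.Y → ℝ, |∑ x, ∑ y, v x * M x y * v y| ≤ θ * Γ.n * ∑ x, v x ^ 2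

/-- Independence with two generic parameters. -/
def Ind2 (s : ℕ) (θ : ℝ) : Prop :=
  ∀ (S S' : Finset Γ.Y) (d b b' : Γ.Y) (R : Γ.Y → Γ.Y → Γ.Y → Prop) (H : Γ.Y → ℝ), S ⊆ S' →
    S'.card ≤ s → d ∈ S' → Γ.G.Inv3 S R → b ∉ Γ.acl S' → b' ∉ Γ.acl (insert b S') →
    Γ.G.Inv1 S' H → (∀ y, |H y| ≤ 1) →
    |∑ y ∈ Γ.cls S d, Γ.cen S (R b b') y * H y| ≤ θ * Γ.n

/-- Independence with one generic parameter. -/
def Ind1 (s : ℕ) (θ : ℝ) : Prop :=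
  ∀ (S S' : Finset Γ.Y) (d b : Γ.Y) (R : Γ.Y → Γ.Y → Prop) (H : Γ.Y → ℝ), S ⊆ S' →
    S'.card ≤ s → d ∈ S' → Γ.G.Inv2 S R → b ∉ Γ.acl S' →
    Γ.G.Inv1 S' H → (∀ y, |H y| ≤ 1) →
    |∑ y ∈ Γ.cls S d, Γ.cen S (R b) y * H y| ≤ θ * Γ.n

/-- Amalgamation of strong classes. -/
def Amalg (s : ℕ) : Prop :=
  ∀ (S S' S'' : Finset Γ.Y) (b y1 y2 : Γ.Y), S ⊆ S' → S'.card ≤ s → S''.card ≤ s →
    Γ.Q S y1 y2 → b ∉ Γ.acl S' → y1 ∉ Γ.acl (insert b S) → y2 ∉ Γ.acl S' →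
    ∃ y, y ∉ Γ.acl S'' ∧ Γ.Q (insert b S) y1 y ∧ Γ.Q S' y2 y

/-- Generic types have density at least `1 / (2 K ^ 2)` in their strong class. -/
def L5 (s : ℕ) : Prop :=
  ∀ (S : Finset Γ.Y) (x y : Γ.Y), S.card ≤ s → x ∉ Γ.acl S → y ∉ Γ.acl (insert x S) →
    (Γ.cls S y).card ≤
      2 * P.K ^ 2 * (fil fun z => z ∈ Γ.cls S y ∧ Γ.G.E1 (insert x S) y z).card

/-- At most `2 K ^ 2` generic types between a point and a strong class. -/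
def Few2 (s : ℕ) : Prop :=
  ∀ (S : Finset Γ.Y) (x d : Γ.Y), S.card ≤ s → x ∉ Γ.acl S → ∃ V : Finset Γ.Y,
    V.card ≤ 2 * P.K ^ 2 ∧ (∀ v ∈ V, Γ.Q S d v ∧ v ∉ Γ.acl (insert x S)) ∧
    ∀ y, Γ.Q S d y → y ∉ Γ.acl (insert x S) → ∃ v ∈ V, Γ.G.E1 (insert x S) v y

/-- Two generic types between `a` and the class of `a'`. -/
def P0 (S : Finset Γ.Y) (a a' : Γ.Y) : Prop :=
  ∃ y y', Γ.Q S a' y ∧ Γ.Q S a' y' ∧ y ∉ Γ.acl (insert a S) ∧ y' ∉ Γ.acl (insert a S) ∧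
    ¬ Γ.G.E1 (insert a S) y y'

/-- Generic types between the classes of `a` and `a'` do not split up to size `H`. -/
def P1 (S : Finset Γ.Y) (a a' : Γ.Y) (H : ℕ) : Prop :=
  ∀ (S' : Finset Γ.Y) (x x' y y' : Γ.Y), S ⊆ S' → S'.card ≤ H → Γ.Q S a x → Γ.Q S a' y →
    Γ.Q S' x x' → Γ.Q S' y y' → x ∉ Γ.acl S' → y ∉ Γ.acl (insert x S') →
    y' ∉ Γ.acl (insert x' S') → Γ.G.E2 S x y x' y' → Γ.G.E2 S' x y x' y'

/-- A plateau. -/
def Plat {ι : Type} (S : Finset Γ.Y) (d : ι → Γ.Y) (H : ℕ) : Prop :=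
  (∀ i, d i ∉ Γ.acl S) ∧ ∀ i j, i ≠ j → Γ.P0 S (d i) (d j) ∧ Γ.P1 S (d i) (d j) H

/-- Generic types are realised in the strong classes over a larger base. -/
def UP (s : ℕ) : Prop :=
  ∀ (S S' : Finset Γ.Y) (x y x' y' : Γ.Y), S ⊆ S' → S'.card ≤ s → x' ∉ Γ.acl S' →
    y' ∉ Γ.acl S' → Γ.Q S x x' → Γ.Q S y y' → y ∉ Γ.acl (insert x S) →
    ∃ y'', Γ.Q S' y' y'' ∧ y'' ∉ Γ.acl (insert x' S') ∧ Γ.G.E2 S x y x' y''

/-- The number of generic types between two strong classes. -/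
noncomputable def nu (S : Finset Γ.Y) (x y : Γ.Y) : ℕ :=
  ((fil fun p : Γ.Y × Γ.Y => Γ.Q S x p.1 ∧ Γ.Q S y p.2 ∧ p.2 ∉ Γ.acl (insert p.1 S)).image
    fun p => fil fun r : Γ.Y × Γ.Y => Γ.G.E2 S p.1 p.2 r.1 r.2).card

/-- On a plateau the type over the base and the strong class determine the next strong class. -/
def B1 (s : ℕ) : Prop :=
  ∀ (S S' : Finset Γ.Y) (a a' x y y' : Γ.Y) (H : ℕ), S ⊆ S' → S'.card + 1 ≤ H → H ≤ s →
    Γ.P1 S a a' H → Γ.Q S a x → Γ.Q S a' y → x ∉ Γ.acl S' → y ∉ Γ.acl (insert x S') →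
    y' ∉ Γ.acl (insert x S') → Γ.Q S' y y' → Γ.G.E2 S x y x y' → Γ.Q (insert x S') y y'

/-- A circuit through the classes of `a` and `a'`. -/
def Circ (S : Finset Γ.Y) (a a' : Γ.Y) (H : ℕ) : Prop :=
  ∃ (S' : Finset Γ.Y) (e x p : Γ.Y), S ⊆ S' ∧ S'.card ≤ H ∧ Γ.Q S a x ∧ Γ.Q S a' p ∧
    e ∉ Γ.acl S' ∧ p ∉ Γ.acl (insert e S') ∧ x ∈ Γ.acl (insert p (insert e S')) ∧
    x ∉ Γ.acl (insert e S') ∧ x ∉ Γ.acl (insert p S')

/-- Three circuits through `x` in general position. -/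
structure Conf (S T : Finset Γ.Y) (d : Fin 3 → Γ.Y) (x : Γ.Y) (e p : Fin 3 → Γ.Y) : Prop where
  sub : ∀ l, S ⊆ T.erase (e l)
  he : ∀ l, e l ∈ T
  hp : ∀ l, Γ.Q S (d l) (p l)
  hx : x ∉ Γ.acl T
  hxp : ∀ l, x ∈ Γ.acl (insert (p l) T)
  ge : ∀ l, e l ∉ Γ.acl (insert x (T.erase (e l)))
  gp : ∀ l, p l ∉ Γ.acl (insert x (T.erase (e l)))
  ap : ∀ l m, l ≠ m → p m ∈ Γ.acl (insert x (T.erase (e l)))

/-- The data of the last part: a plateau without circuits. -/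
structure Triv (S : Finset Γ.Y) (a : Γ.Y) (c : Fin P.q → Γ.Y) (H : ℕ) : Prop where
  room : S.card + 2 * P.q + 3 ≤ H
  ha : a ∉ Γ.acl S
  hc : ∀ i, c i ∉ Γ.acl (insert a S)
  col : ∀ i, ∃ y, Γ.Q S (c i) y ∧ y ∉ Γ.acl (insert a S) ∧ ¬ Γ.G.E1 (insert a S) (c i) y
  p1 : ∀ i j, i ≠ j → Γ.P1 S (c i) (c j) H
  nc0 : ∀ i, ¬ Γ.Circ S (c i) a H
  nc : ∀ i j, i ≠ j → ¬ Γ.Circ S (c i) (c j) H
  uni : ∀ w i x, w ∈ Γ.acl (insert a S) → Γ.Q S a w → Γ.Q S (c i) x →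
    x ∉ Γ.acl (insert a S) → Γ.G.E2 S a x w x

/-- The centred colour function between the classes of `a` and `c`. -/
noncomputable def ff (S : Finset Γ.Y) (a c w x : Γ.Y) : ℝ :=
  ind (Γ.Q S a w) * ind (Γ.Q S c x) * Γ.cen S (fun y => Γ.G.E2 S w y a c) x

/-- The correlation of two rows. -/
noncomputable def MM (S : Finset Γ.Y) (a c w w' : Γ.Y) : ℝ :=
  ∑ x, Γ.ff S a c w x * Γ.ff S a c w' x

/-- The star count. -/
noncomputable def TT (S : Finset Γ.Y) (a : Γ.Y) (c u : Fin P.q → Γ.Y) : ℝ :=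
  ∑ w, ∏ i, Γ.ff S a (c i) w (u i)

/-- The base with the names of the classes. -/
def S2 (S : Finset Γ.Y) (a : Γ.Y) (c : Fin P.q → Γ.Y) : Finset Γ.Y :=
  insert a (S ∪ univ.image c)

/-- Pairwise generic tuples. -/
def Gen (S : Finset Γ.Y) (a : Γ.Y) (c u : Fin P.q → Γ.Y) : Prop :=
  (∀ i, Γ.Q S (c i) (u i)) ∧ ∀ i j, i ≠ j → u i ∉ Γ.acl (insert (u j) (Γ.S2 S a c))

/-- Tuples with the same pair types. -/
def Sim (S : Finset Γ.Y) (u v : Fin P.q → Γ.Y) : Prop :=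
  ∀ i j, i < j → Γ.G.E2 S (v i) (v j) (u i) (u j)

/-- The star count against a product of pair functions. -/
noncomputable def Lam (S : Finset Γ.Y) (a : Γ.Y) (c : Fin P.q → Γ.Y)
    (φ : Fin P.q → Fin P.q → Γ.Y → Γ.Y → ℝ) : ℝ :=
  ∑ v : Fin P.q → Γ.Y, (∏ p ∈ pairs P.q, φ p.1 p.2 (v p.1) (v p.2)) * Γ.TT S a c v

/-- The term of the Cauchy-Schwarz bound. -/
noncomputable def csT (S : Finset Γ.Y) (a : Γ.Y) (c : Fin P.q → Γ.Y) (i : Fin P.q)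
    (ψ : Fin P.q → Γ.Y → Γ.Y → ℝ) (w x w' x' : Γ.Y) : ℝ :=
  |Γ.ff S a (c i) w x| * |Γ.ff S a (c i) w' x'| *
    ∏ j ∈ univ.erase i, |∑ y, Γ.ff S a (c j) w y * Γ.ff S a (c j) w' y * ψ j x y * ψ j x' y|

variable {Γ}

theorem abs_ff_le (S : Finset Γ.Y) (a c w x : Γ.Y) : |Γ.ff S a c w x| ≤ 1 := by
  unfold ff
  rw [abs_mul, abs_mul]
  exact mul_le_one₀ (mul_le_one₀ (abs_ind_le _) (abs_nonneg _) (abs_ind_le _)) (abs_nonneg _)
    (abs_cen_le _ _ _)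

theorem ff_eq_zero {S : Finset Γ.Y} {a c w x : Γ.Y} (h : ¬ (Γ.Q S a w ∧ Γ.Q S c x)) :
    Γ.ff S a c w x = 0 := by
  unfold ff; rw [← ind_and, ind_neg h, zero_mul]

theorem ff_eq {S : Finset Γ.Y} {a c w x : Γ.Y} (h : Γ.Q S a w) (h' : Γ.Q S c x) :
    Γ.ff S a c w x = Γ.cen S (fun y => Γ.G.E2 S w y a c) x := by
  unfold ff; rw [ind_pos h, ind_pos h', one_mul, one_mul]

/-- Sums against a row are sums over the class of `c`. -/
theorem sum_ff_mul {S : Finset Γ.Y} {a w : Γ.Y} (c : Γ.Y) (h : Γ.Q S a w) (H : Γ.Y → ℝ) :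
    ∑ x, Γ.ff S a c w x * H x =
      ∑ x ∈ Γ.cls S c, Γ.cen S (fun y => Γ.G.E2 S w y a c) x * H x := by
  rw [cls, ← sum_ind_mul]
  exact sum_congr rfl fun x _ => by unfold ff; rw [ind_pos h]; ring

theorem sum_ff (S : Finset Γ.Y) (a c w : Γ.Y) : ∑ x, Γ.ff S a c w x = 0 := by
  by_cases h : Γ.Q S a w
  · simpa [sum_cen] using sum_ff_mul c h fun _ => 1
  · exact sum_eq_zero fun x _ => ff_eq_zero fun h1 => h h1.1

theorem card_S2 (S : Finset Γ.Y) (a : Γ.Y) (c : Fin P.q → Γ.Y) :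
    (Γ.S2 S a c).card ≤ S.card + P.q + 1 := by
  have h1 := card_insert_le a (S ∪ univ.image c)
  have h2 := card_union_le S (univ.image c)
  have h3 : (univ.image c).card ≤ P.q := card_image_le.trans (by simp)
  unfold S2; omega

theorem sub_S2 (S : Finset Γ.Y) (a : Γ.Y) (c : Fin P.q → Γ.Y) : S ⊆ Γ.S2 S a c :=
  subset_union_left.trans (subset_insert _ _)

theorem a_mem_S2 (S : Finset Γ.Y) (a : Γ.Y) (c : Fin P.q → Γ.Y) : a ∈ Γ.S2 S a c :=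
  mem_insert_self _ _

theorem c_mem_S2 (S : Finset Γ.Y) (a : Γ.Y) (c : Fin P.q → Γ.Y) (i : Fin P.q) :
    c i ∈ Γ.S2 S a c :=
  mem_insert_of_mem (mem_union_right _ (mem_image_of_mem _ (mem_univ i)))

theorem P1.anti {S : Finset Γ.Y} {a a' : Γ.Y} {H H' : ℕ} (h : Γ.P1 S a a' H) (hH : H' ≤ H) :
    Γ.P1 S a a' H' := fun S' x x' y y' h1 h2 => h S' x x' y y' h1 (h2.trans hH)

theorem P1.congr {S : Finset Γ.Y} {a a' b b' : Γ.Y} {H : ℕ} (h : Γ.P1 S a a' H)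
    (e : Γ.Q S a b) (e' : Γ.Q S a' b') : Γ.P1 S b b' H :=
  fun S' x x' y y' h1 h2 h3 h4 => h S' x x' y y' h1 h2 (e.trans h3) (e'.trans h4)

end Ctx

end Pool.Agent.P.MP_f1a348_lc.TO
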