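import Mathlib

/-! Tournament isomorphism, block A: linear algebra. -/

set_option autoImplicit false
set_option linter.unusedSectionVars false

namespace Pool.Agent.P.MP_f1a348_lc.TO

open Finset Matrix Polynomial
open scoped Pointwise

variable {Y : Type} [Fintype Y] [DecidableEq Y]

theorem lin_basis (P : Matrix Y Y ℝ) :
    ∃ T : Finset Y, T.card ≤ P.rank ∧ ∀ x, P x ∈ Submodule.span ℝ ((fun t => P t) '' T) := by
  obtain ⟨κ, a, ha, h1, h2⟩ := exists_linearIndependent' ℝ P.row
  have := Fintype.ofInjective a ha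
  refine ⟨univ.image a, ?_, fun x => ?_⟩
  · rw [card_image_of_injective _ ha, rank_eq_finrank_span_row, ← h1, finrank_span_eq_card h2,
      card_univ]
  · rw [coe_image, coe_univ, Set.image_univ, ← Set.range_comp]
    exact h1.ge (Submodule.subset_span ⟨x, rfl⟩)

theorem lin_span (P : Matrix Y Y ℝ) :
    ∃ T : Finset Y, T.card ≤ P.rank ∧ ∀ x y, (∀ t ∈ T, P x t = P y t) → P x = P y := by
  obtain ⟨T, h1, h2⟩ := lin_basis Pᵀ
  refine ⟨T, h1.trans_eq (rank_transpose P), fun x y h => funext fun z => ?_⟩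
  refine Submodule.span_induction (p := fun v _ => v x = v y) ?_ rfl ?_ ?_ (h2 z)
  · rintro _ ⟨t, ht, rfl⟩
    exact h t ht
  · intro u v _ _ hu hv
    simp [hu, hv]
  · intro c u _ hu
    simp [hu]

theorem lin_dist (P : Matrix Y Y ℝ) (I : Finset Y) (L : ℕ) (V : Y → Finset ℝ)
    (h1 : ∀ x ∈ I, (V x).card ≤ L)
    (h2 : ∀ x ∈ I, ∀ y ∈ I, y ≠ x → P x y ∈ V x ∧ P x y ≠ P x x) :
    I.card ≤ (P.rank + 1) ^ L := by
  classical
  obtain ⟨T, t1, t2⟩ := lin_basis P
  let s : Finset (Y → ℝ) := insert 1 (T.image fun t => P t)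
  let W := Submodule.span ℝ (s : Set (Y → ℝ))
  have w1 : (1 : Y → ℝ) ∈ W := Submodule.subset_span (mem_insert_self _ _)
  have w2 : ∀ x c, (fun y => P x y - c) ∈ W := fun x c => by
    have := W.sub_mem (Submodule.span_mono (by simp [s]) (t2 x)) (W.smul_mem c w1)
    convert this using 1
    ext y
    simp
  have w3 : ∀ (x : Y) (U : Finset ℝ), (fun y => ∏ c ∈ U, (P x y - c)) ∈ W ^ U.card := by
    intro x U
    induction U using Finset.induction_on with
    | empty => exact Submodule.pow_mem_pow _ w1 0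
    | insert c U hc ih =>
      rw [card_insert_of_notMem hc, pow_succ']
      simp only [prod_insert hc]
      exact Submodule.mul_mem_mul (w2 x c) ih
  let f : I → (W ^ L : Submodule ℝ (Y → ℝ)) := fun x =>
    ⟨fun y => ∏ c ∈ (V x).erase (P x x), (P x y - c), pow_le_pow_right'
      (Submodule.one_le.2 w1) ((card_erase_le).trans (h1 x x.2)) (w3 _ _)⟩
  have hf : LinearIndependent ℝ f := by
    rw [Fintype.linearIndependent_iff]
    intro g hg x
    have e := congrFun (congrArg Subtype.val hg) x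
    simp only [Submodule.coe_sum, Finset.sum_apply, Submodule.coe_smul, Pi.smul_apply, f,
      smul_eq_mul, Submodule.coe_zero, Pi.zero_apply] at e
    rw [sum_eq_single x] at e
    · exact (mul_eq_zero.1 e).resolve_right
        (prod_ne_zero_iff.2 fun c hc => sub_ne_zero.2 (mem_erase.1 hc).1.symm)
    · intro z _ hz
      obtain ⟨a1, a2⟩ := h2 z z.2 x x.2 fun e => hz (Subtype.ext e.symm)
      exact mul_eq_zero_of_right _ (prod_eq_zero (mem_erase.2 ⟨a2, a1⟩) (sub_self _))
    · simp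
  have h3 := hf.fintype_card_le_finrank
  rw [Fintype.card_coe, Submodule.span_pow, ← Finset.coe_pow] at h3
  refine h3.trans ((finrank_span_finset_le_card _).trans (card_pow_le.trans ?_))
  exact Nat.pow_le_pow_left ((card_insert_le _ _).trans
    (Nat.succ_le_succ (card_image_le.trans t1))) _

theorem lin_eig (M : Matrix Y Y ℝ) (hM : M.IsSymm) (hb : ∀ x y, |M x y| ≤ 1) {θ : ℝ} (hθ : 0 < θ)
    (v : Y → ℝ) (hv : θ * Fintype.card Y * (v ⬝ᵥ v) < |v ⬝ᵥ M *ᵥ v|) :
    ∃ p : ℝ[X], p.eval 0 = 0 ∧ (aeval M p).IsSymm ∧ aeval M p ≠ 0 ∧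
      aeval M p * aeval M p = aeval M p ∧ θ ^ 2 * (aeval M p).rank ≤ 1 := by
  have hH : M.IsHermitian := by rwa [IsHermitian, conjTranspose_eq_transpose_of_trivial]
  obtain ⟨U, d, u1, u2, hd⟩ : ∃ (U : Matrix Y Y ℝ) (d : Y → ℝ), Uᵀ * U = 1 ∧ U * Uᵀ = 1 ∧
      M = U * diagonal d * Uᵀ :=
    ⟨hH.eigenvectorUnitary, hH.eigenvalues, hH.eigenvectorUnitary.2.1,
      hH.eigenvectorUnitary.2.2, hH.spectral_theorem⟩
  have mul : ∀ a b : Y → ℝ, U * diagonal a * Uᵀ * (U * diagonal b * Uᵀ) =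
      U * diagonal (a * b) * Uᵀ := fun a b => by
    rw [show U * diagonal a * Uᵀ * (U * diagonal b * Uᵀ) =
      U * (diagonal a * (Uᵀ * U) * diagonal b) * Uᵀ by simp only [Matrix.mul_assoc], u1,
      Matrix.mul_one, diagonal_mul_diagonal]
    rfl
  have ev : ∀ p : ℝ[X], aeval M p = U * diagonal (fun i => p.eval (d i)) * Uᵀ := fun p => by
    induction p using Polynomial.induction_on with
    | C a => simp [← smul_one_eq_diagonal, u2, Algebra.algebraMap_eq_smul_one]
    | add p q hp hq => simp [hp, hq, ← diagonal_add, mul_add, add_mul]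
    | monomial n a h =>
      rw [pow_succ, ← mul_assoc, map_mul, h, aeval_X]
      refine (congrArg _ hd).trans ((mul _ _).trans ?_)
      simp only [eval_mul, eval_X]
      rfl
  obtain ⟨i, hi⟩ : ∃ i, θ * Fintype.card Y < |d i| := by
    by_contra h
    push Not at h
    have e1 : v ⬝ᵥ v = (Uᵀ *ᵥ v) ⬝ᵥ (Uᵀ *ᵥ v) := by
      rw [dotProduct_mulVec, vecMul_transpose, mulVec_mulVec, u2, one_mulVec]
    have e2 : v ⬝ᵥ M *ᵥ v = (Uᵀ *ᵥ v) ⬝ᵥ diagonal d *ᵥ (Uᵀ *ᵥ v) := by
      rw [hd, ← mulVec_mulVec, ← mulVec_mulVec, dotProduct_mulVec, mulVec_transpose]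
    rw [e1, e2] at hv
    generalize Uᵀ *ᵥ v = w at hv
    simp only [dotProduct, mulVec_diagonal, mul_sum] at hv
    refine absurd ((abs_sum_le_sum_abs _ _).trans (sum_le_sum fun j _ => ?_)) hv.not_ge
    rw [mul_left_comm, abs_mul, abs_mul_self]
    exact mul_le_mul_of_nonneg_right (h j) (mul_self_nonneg _)
  have hn : (0 : ℝ) < Fintype.card Y := by exact_mod_cast Fintype.card_pos_iff.2 ⟨i⟩
  have h0 : d i ≠ 0 := abs_pos.1 (lt_trans (by positivity) hi)
  let s : Finset ℝ := insert 0 (univ.image d)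
  have hs : ∀ j, d j ∈ s := fun j => mem_insert_of_mem (mem_image_of_mem _ (mem_univ j))
  have e : (fun j => (Lagrange.basis s id (d i)).eval (d j)) = fun j =>
      if d i = d j then (1 : ℝ) else 0 := funext fun j => by
    split_ifs with h
    · exact h ▸ Lagrange.eval_basis_self (Set.injOn_id _) (hs i)
    · exact Lagrange.eval_basis_of_ne (v := id) h (hs j)
  refine ⟨Lagrange.basis s id (d i),
    Lagrange.eval_basis_of_ne (v := id) h0 (mem_insert_self _ _), ?_⟩
  rw [ev, e]
  refine ⟨by simp [IsSymm, Matrix.mul_assoc], fun h => ?_, (mul _ _).trans ?_, ?_⟩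
  · have := congrArg (fun N => (Uᵀ * N * U) i i) h
    simp only [← Matrix.mul_assoc, u1] at this
    simp [Matrix.mul_assoc, u1] at this
  · congr 3
    ext j
    simp
  · have r1 : (U * diagonal (fun j => if d i = d j then (1 : ℝ) else 0) * Uᵀ).rank ≤
        (univ.filter fun j => d i = d j).card := by
      refine (rank_mul_le_left _ _).trans ((rank_mul_le_right _ _).trans_eq ?_)
      rw [rank_diagonal, Fintype.card_subtype]
      simp
    have r2 : ∑ j, d j * d j ≤ (Fintype.card Y : ℝ) ^ 2 := by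
      have t := congrArg trace (mul d d)
      rw [← hd, trace_mul_cycle, u1, Matrix.one_mul, trace_diagonal] at t
      refine t.symm.le.trans ?_
      simp only [trace, Matrix.diag, Matrix.mul_apply]
      refine (sum_le_sum fun x _ => sum_le_sum fun y _ => (le_abs_self _).trans
        ((abs_mul _ _).trans_le (mul_le_one₀ (hb _ _) (abs_nonneg _) (hb _ _)))).trans_eq ?_
      simp [sq]
    have r3 : ((univ.filter fun j => d i = d j).card : ℝ) * (d i * d i) ≤ ∑ j, d j * d j := by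
      rw [← nsmul_eq_mul, ← sum_const]
      exact (sum_congr rfl fun j hj => by rw [(mem_filter.1 hj).2]).trans_le
        (sum_le_sum_of_subset_of_nonneg (filter_subset _ _) fun j _ _ => mul_self_nonneg _)
    have r4 : (θ * Fintype.card Y) ^ 2 ≤ d i * d i := by
      rw [← abs_mul_abs_self, ← sq]
      exact pow_le_pow_left₀ (by positivity) hi.le 2
    have r5 := mul_le_mul (Nat.cast_le.2 r1) r4 (by positivity) (Nat.cast_nonneg _)
    refine le_of_mul_le_mul_right ?_ (pow_pos hn 2)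
    linarith

theorem lin_ind {α : Type} [DecidableEq α] (r : α → α → Prop) (hs : ∀ a b, r a b → r b a)
    (hd : ∀ a i j l, i ≠ a → j ≠ a → l ≠ a → i ≠ j → i ≠ l → j ≠ l → r a i → r a j → ¬r a l)
    (q : ℕ) : ∀ W : Finset α, 3 * q ≤ W.card →
      ∃ I ⊆ W, I.card = q ∧ ∀ a ∈ I, ∀ b ∈ I, a ≠ b → ¬r a b := by
  classical
  induction q with
  | zero => exact fun W _ => ⟨∅, empty_subset _, rfl, by simp⟩
  | succ q ih =>
    intro W hW
    obtain ⟨a, ha⟩ := card_pos.1 (show 0 < W.card by omega)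
    have h1 : ((W.erase a).filter (r a)).card ≤ 2 := by
      by_contra h
      obtain ⟨i, hi, j, hj, l, hl, h1, h2, h3⟩ := two_lt_card.1 (not_le.1 h)
      simp only [mem_filter, mem_erase] at hi hj hl
      exact hd a i j l hi.1.1 hj.1.1 hl.1.1 h1 h2 h3 hi.2 hj.2 hl.2
    have h2 := card_filter_add_card_filter_not (s := W.erase a) (r a)
    rw [card_erase_of_mem ha] at h2
    obtain ⟨I, i1, i2, i3⟩ := ih ((W.erase a).filter fun b => ¬r a b) (by omega)
    have h3 : ∀ b ∈ I, (b ≠ a ∧ b ∈ W) ∧ ¬r a b := fun b hb => by simpa using i1 hb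
    refine ⟨insert a I, insert_subset ha fun b hb => (h3 b hb).1.2, ?_, ?_⟩
    · rw [card_insert_of_notMem fun h => (h3 a h).1.1 rfl, i2]
    · intro b hb c hc hne
      rcases mem_insert.1 hb with rfl | hb' <;> rcases mem_insert.1 hc with rfl | hc'
      exacts [absurd rfl hne, (h3 c hc').2, fun h => (h3 b hb').2 (hs _ _ h), i3 b hb' c hc' hne]

theorem lin_sel {q : ℕ} (r : Fin (3 * q) → Fin (3 * q) → Prop) (hs : ∀ a b, r a b → r b a)
    (hd : ∀ a i j l, i ≠ a → j ≠ a → l ≠ a → i ≠ j → i ≠ l → j ≠ l → r a i → r a j → ¬r a l) :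
    ∃ e : Fin q → Fin (3 * q), Function.Injective e ∧ ∀ i j, i ≠ j → ¬r (e i) (e j) := by
  obtain ⟨I, -, h1, h2⟩ := lin_ind r hs hd q univ (by simp)
  let e := I.orderEmbOfFin h1
  exact ⟨e, e.injective, fun i j h =>
    h2 _ (orderEmbOfFin_mem _ _ _) _ (orderEmbOfFin_mem _ _ _) (e.injective.ne h)⟩

open scoped Classical in
theorem lin_reps {Z : Type} {E : Z → Z → Prop} (hE : Equivalence E) (A D : Finset Z) (m : ℕ)
    (hD : D.Nonempty) (h : ∀ y ∈ A, D.card ≤ m * (D.filter fun z => E y z).card) :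
    ∃ V ⊆ A, V.card ≤ m ∧ ∀ y ∈ A, ∃ v ∈ V, E v y := by
  obtain ⟨V, hV, hmax⟩ := exists_max_image
    (A.powerset.filter fun V : Finset Z => (V : Set Z).Pairwise fun a b => ¬E a b) card ⟨∅, by simp⟩
  obtain ⟨h1, h2⟩ := mem_filter.1 hV
  rw [mem_powerset] at h1
  refine ⟨V, h1, ?_, fun y hy => ?_⟩
  · have h3 : ∑ v ∈ V, (D.filter fun z => E v z).card ≤ D.card := by
      rw [← card_biUnion]
      · exact card_le_card (biUnion_subset.2 fun _ _ => filter_subset _ _)
      · exact fun a ha b hb hab => disjoint_left.2 fun z z1 z2 => h2 ha hb hab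
          (hE.trans (mem_filter.1 z1).2 (hE.symm (mem_filter.1 z2).2))
    have h4 := sum_le_sum fun v (hv : v ∈ V) => h v (h1 hv)
    rw [sum_const, smul_eq_mul, ← mul_sum] at h4
    exact Nat.le_of_mul_le_mul_right (h4.trans (Nat.mul_le_mul_left m h3)) hD.card_pos
  · by_contra hn
    push Not at hn
    have h3 := hmax (insert y V) (mem_filter.2 ⟨mem_powerset.2 (insert_subset hy h1), ?_⟩)
    · rw [card_insert_of_notMem fun hv => hn y hv (hE.refl y)] at h3
      omega
    · rw [coe_insert]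
      exact h2.insert fun b hb _ => ⟨fun e => hn b hb (hE.symm e), hn b hb⟩

end Pool.Agent.P.MP_f1a348_lc.TO
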