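import Pool.Agent.P.MP_f1a348_lc.TO.Sys

/-! Tournament isomorphism, block B: the input statement. -/

set_option autoImplicit false
set_option linter.unusedSectionVars false

namespace Pool.Agent.P.MP_f1a348_lc.TO

open Equiv Finset
open scoped Classical

/-- Block A, the output: no large system has bounded algebraic closure. -/
def COREY : Prop :=
  ∀ (K : ℕ) (C : ℕ → ℕ), 2 ≤ K → Monotone C → ∃ N : ℕ,
    ∀ (Y : Type) [Fintype Y] [DecidableEq Y] (k : ℕ) (Γ : Sys Y k),
      N ≤ Fintype.card Y → N ≤ k →
      (∀ S : Finset Y, S.card ≤ k →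
        (univ.filter (fun w => K ^ (S.card + 1) * (Γ.atom S w).card ≤ Fintype.card Y)).card ≤
          C S.card) → False

end Pool.Agent.P.MP_f1a348_lc.TO
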