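import Pool.Agent.P.MP_f1a348_lc.TO.ADefs
import Pool.Agent.P.MP_f1a348_lc.TO.ALin
import Pool.Agent.P.MP_f1a348_lc.TO.BDefs

/-! Block A: the statements of the steps. -/

set_option autoImplicit false
set_option linter.unusedSectionVars false

namespace Pool.Agent.P.MP_f1a348_lc.TO

open Equiv Finset Filter
open scoped Classical

-- deps:
def S_AFA : Prop := ∀ (P : APar) (s : ℕ), ∀ᶠ Γ : Ctx P in big P, Γ.Fa s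

-- deps: AFA
def S_AFB : Prop := ∀ (P : APar) (s : ℕ), ∀ᶠ Γ : Ctx P in big P, Γ.Fb s

-- deps: AFA
def S_AFC : Prop := ∀ (P : APar) (s : ℕ), ∀ᶠ Γ : Ctx P in big P, Γ.Fc s

-- deps: AFA AFB AFC
def S_APRE : Prop := ∀ (P : APar) (s : ℕ), ∀ᶠ Γ : Ctx P in big P, Γ.Pre s

-- deps: APRE
def S_AFI : Prop := ∀ (P : APar) (s : ℕ), ∀ᶠ Γ : Ctx P in big P, Γ.Fi s

-- deps: APRE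
def S_AFQ : Prop := ∀ (P : APar) (s : ℕ), ∀ᶠ Γ : Ctx P in big P, Γ.Fq s

-- deps: APRE
def S_AMEET : Prop := ∀ (P : APar) (s : ℕ), ∀ᶠ Γ : Ctx P in big P, Γ.Meet s

-- deps: APRE AFQ AMEET
def S_AFL : Prop := ∀ (P : APar) (s : ℕ), ∀ᶠ Γ : Ctx P in big P, Γ.Fl s

-- deps: APRE
def S_AFT : Prop := ∀ (P : APar) (s : ℕ), ∀ᶠ Γ : Ctx P in big P, Γ.Ft s

-- deps: APRE AFL AFT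
def S_AFS : Prop := ∀ (P : APar) (s : ℕ), ∀ᶠ Γ : Ctx P in big P, Γ.Fs s

-- deps: APRE AFL AFT AFS
def S_AFM : Prop := ∀ (P : APar) (s : ℕ), ∀ᶠ Γ : Ctx P in big P, Γ.Fm s

-- deps: APRE AFL AFT AFS AFM
def S_AFR : Prop := ∀ (P : APar) (s : ℕ), ∀ᶠ Γ : Ctx P in big P, Γ.Fr s

-- deps: APRE AFS AFR
def S_AFG : Prop := ∀ (P : APar) (s : ℕ), ∀ᶠ Γ : Ctx P in big P, Γ.Fg s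

-- deps: APRE AFI AFQ AFL AFT AFS AFM AFR AFG
def S_AGEO : Prop := ∀ (P : APar) (s : ℕ), ∀ᶠ Γ : Ctx P in big P, Γ.Geo s

-- deps: AGEO
def S_AFEW0 : Prop := ∀ (P : APar) (s : ℕ), ∃ L : ℕ, ∀ᶠ Γ : Ctx P in big P, Γ.Few s L

-- deps: AGEO
def S_ASP1 : Prop := ∀ (P : APar) (s : ℕ), ∀ᶠ Γ : Ctx P in big P,
  ∀ (S : Finset Γ.Y) (A : Matrix Γ.Y Γ.Y ℝ), S.card ≤ s → (∀ x y, A x y = A y x) → A * A = A →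
    A ≠ 0 → Γ.G.Inv2 S A → (∀ x y, A x y ≠ 0 → Γ.Q S x y) → (∀ x, ∑ y, A x y = 0) →
    ∃ x0, x0 ∉ Γ.acl S ∧ ∀ x y, Γ.Q S x0 x → Γ.Q S x0 y → A x y = A x x →
      y ∈ Γ.acl (insert x S)

-- deps: AGEO
def S_ASP2 : Prop := ∀ (P : APar) (s : ℕ), ∀ᶠ Γ : Ctx P in big P, ∀ L : ℕ, Γ.Few s L →
  ∀ (S : Finset Γ.Y) (A : Matrix Γ.Y Γ.Y ℝ) (x0 : Γ.Y), S.card ≤ s → Γ.G.Inv2 S A →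
    x0 ∉ Γ.acl S →
    (∀ x y, Γ.Q S x0 x → Γ.Q S x0 y → A x y = A x x → y ∈ Γ.acl (insert x S)) →
    (Γ.cls S x0).card ≤ P.C (s + 1) * (A.rank + 1) ^ L

-- deps: AGEO ASP1 ASP2
def S_ASP : Prop := ∀ (P : APar) (s : ℕ), ∀ᶠ Γ : Ctx P in big P, ∀ (L : ℕ) (θ : ℝ), Γ.Few s L →
  0 < θ → (P.K : ℝ) ^ (s + 2) * P.C (s + 1) * ((θ ^ 2)⁻¹ + 1) ^ L ≤ Γ.n → Γ.SPb s θ

-- deps: AGEO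
def S_AI2A : Prop := ∀ (P : APar) (s : ℕ), ∀ᶠ Γ : Ctx P in big P, ∀ θ : ℝ, 0 ≤ θ → Γ.SPb s θ →
  ∀ (S : Finset Γ.Y) (d : Γ.Y) (R : Γ.Y → Γ.Y → Γ.Y → Prop) (H : Γ.Y → ℝ), S.card ≤ s →
    Γ.G.Inv3 S R → (∀ y, |H y| ≤ 1) →
    ∑ b, ∑ b', (∑ y ∈ Γ.cls S d, Γ.cen S (R b b') y * H y) ^ 2 ≤ θ * (Γ.n : ℝ) ^ 4

-- deps: AGEO
def S_AI2B : Prop := ∀ (P : APar) (s : ℕ), ∀ᶠ Γ : Ctx P in big P,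
  ∀ (S : Finset Γ.Y) (b b' : Γ.Y) (Φ : Γ.Y → Γ.Y → ℝ), S.card ≤ s → Γ.G.Inv2 S Φ →
    (∀ x y, 0 ≤ Φ x y) → b ∉ Γ.acl S → b' ∉ Γ.acl (insert b S) →
    (Γ.n : ℝ) ^ 2 * Φ b b' ≤ (P.K : ℝ) ^ (2 * s + 5) * ∑ x, ∑ y, Φ x y

-- deps: AGEO AI2A AI2B
def S_AIND2 : Prop := ∀ (P : APar) (s : ℕ), ∀ᶠ Γ : Ctx P in big P, ∀ θ θ' : ℝ, 0 ≤ θ → 0 ≤ θ' →
  θ * (P.K : ℝ) ^ (2 * s + 5) ≤ θ' ^ 2 → Γ.SPb s θ → Γ.Ind2 s θ'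

-- deps: AGEO
def S_AIND1 : Prop := ∀ (P : APar) (s : ℕ), ∀ᶠ Γ : Ctx P in big P, ∀ θ : ℝ,
  Γ.Ind2 s θ → Γ.Ind1 s θ

-- deps: AFEW0 ASP AIND2 AIND1
def S_AIND0 : Prop := ∀ (P : APar) (s : ℕ) (θ : ℝ), 0 < θ → ∀ᶠ Γ : Ctx P in big P,
  Γ.Ind2 s θ ∧ Γ.Ind1 s θ

-- deps: AGEO AIND0
def S_AMALG : Prop := ∀ (P : APar) (s : ℕ), ∀ᶠ Γ : Ctx P in big P, Γ.Amalg s

-- deps: AGEO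
def S_AL5A : Prop := ∀ (P : APar) (s l : ℕ), ∀ᶠ Γ : Ctx P in big P, ∀ θ : ℝ, 0 ≤ θ →
  Γ.Ind1 (s + l + 1) θ → ∀ (S : Finset Γ.Y) (x d : Γ.Y) (R : Γ.Y → Γ.Y → Prop), S.card ≤ s →
    x ∉ Γ.acl S → Γ.G.Inv2 S R → ∃ B H : Finset Γ.Y, insert d S ⊆ B ∧ B.card ≤ s + l + 1 ∧
      H ⊆ Γ.cls S d ∧ Γ.G.Inv1 B (fun y => y ∈ H) ∧
      |(H.card : ℝ) - Γ.den S (R x) d ^ l * (Γ.cls S d).card| ≤ l * θ * Γ.n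

-- deps: AGEO AIND0 AL5A
def S_AL5 : Prop := ∀ (P : APar) (s : ℕ), ∀ᶠ Γ : Ctx P in big P, Γ.L5 s

-- deps: AGEO AL5
def S_AFEW1 : Prop := ∀ (P : APar) (s : ℕ), ∀ᶠ Γ : Ctx P in big P, Γ.Few2 s

-- deps: AFEW1 ASP AIND2 AIND1
def S_AINDS : Prop := ∀ (P : APar) (s : ℕ) (ε : ℝ), 0 < ε → ∀ᶠ Γ : Ctx P in big P,
  ∃ θ : ℝ, 0 ≤ θ ∧ θ ≤ ε ∧ Γ.n * θ ^ (16 * P.K ^ 2) ≤ ε ∧ Γ.Ind1 s θ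

-- deps: AGEO AMALG
def S_AUP : Prop := ∀ (P : APar) (s : ℕ), ∀ᶠ Γ : Ctx P in big P, Γ.UP s

-- deps: AGEO AUP
def S_APEXT : Prop := ∀ (P : APar) (s : ℕ), ∀ᶠ Γ : Ctx P in big P,
  ∀ (S S' : Finset Γ.Y) (a a' b b' : Γ.Y), S ⊆ S' → S'.card ≤ s → Γ.Q S a b → Γ.Q S a' b' →
    (b ∉ Γ.acl S' → b' ∉ Γ.acl S' → Γ.P0 S a a' → Γ.P0 S' b b') ∧
    (∀ H, Γ.P1 S a a' H → Γ.P1 S' b b' H) ∧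
    (∀ H, Γ.Circ S' b b' H → Γ.Circ S a a' H)

-- deps: AGEO AFEW1
def S_ANU1 : Prop := ∀ (P : APar) (s : ℕ), ∀ᶠ Γ : Ctx P in big P,
  ∀ (S : Finset Γ.Y) (x y : Γ.Y), S.card ≤ s → x ∉ Γ.acl S → Γ.nu S x y ≤ 2 * P.K ^ 2

-- deps: AGEO AUP
def S_ANU2 : Prop := ∀ (P : APar) (s : ℕ), ∀ᶠ Γ : Ctx P in big P,
  ∀ (S S' : Finset Γ.Y) (x y x' y' : Γ.Y), S ⊆ S' → S'.card ≤ s → x' ∉ Γ.acl S' →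
    y' ∉ Γ.acl S' → Γ.Q S x x' → Γ.Q S y y' → Γ.nu S x y ≤ Γ.nu S' x' y' ∧
    ∀ x'' y'', Γ.Q S' x' x'' → Γ.Q S' y' y'' → y' ∉ Γ.acl (insert x' S') →
      y'' ∉ Γ.acl (insert x'' S') → Γ.G.E2 S x' y' x'' y'' → ¬ Γ.G.E2 S' x' y' x'' y'' →
      Γ.nu S x y < Γ.nu S' x' y'

-- deps: AGEO
def S_AP00 : Prop := ∀ P : APar, ∀ᶠ Γ : Ctx P in big P, ∃ d, d ∉ Γ.acl ∅ ∧ Γ.P0 ∅ d d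

-- deps: AGEO APEXT ANU1 ANU2 AP00
def S_APLAT : Prop := ∀ (P : APar) (r : ℕ) (φ : ℕ → ℕ), Monotone φ → ∃ s0 : ℕ,
  ∀ᶠ Γ : Ctx P in big P, ∃ (S : Finset Γ.Y) (d : Fin r → Γ.Y), S.card ≤ s0 ∧
    Γ.Plat S d (φ S.card)

-- deps: AGEO AMALG
def S_AB1 : Prop := ∀ (P : APar) (s : ℕ), ∀ᶠ Γ : Ctx P in big P, Γ.B1 s

-- deps: AGEO AB1
def S_ACC : Prop := ∀ (P : APar) (s : ℕ), ∀ᶠ Γ : Ctx P in big P,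
  ∀ (q H : ℕ) (S : Finset Γ.Y) (c u v : Fin q → Γ.Y), S.card + q + 1 ≤ H → H ≤ s →
    (∀ i j, i ≠ j → Γ.P1 S (c i) (c j) H) → (∀ i, Γ.Q S (c i) (u i)) →
    (∀ i, Γ.Q S (c i) (v i)) → Γ.IndF S u → Γ.IndF S v →
    (∀ i j, i ≠ j → Γ.G.E2 S (u i) (u j) (v i) (v j)) →
    ∃ f : Perm Γ.Y, Γ.SL S (univ.image u) f ∧ ∀ i, f (u i) = v i

-- deps: AGEO
def S_ACONJ : Prop := ∀ (P : APar) (s : ℕ), ∀ᶠ Γ : Ctx P in big P,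
  ∀ (q : ℕ) (S : Finset Γ.Y) (u : Fin q → Γ.Y), S.card + q ≤ s → Γ.IndF S u →
    Γ.n ^ q ≤ (P.K ^ (s + 2)) ^ q * (fil fun v : Fin q → Γ.Y =>
      ∃ f : Perm Γ.Y, Γ.G.Aut S (univ.image u) f ∧ ∀ i, f (u i) = v i).card

-- deps: AGEO
def S_ACSYM : Prop := ∀ (P : APar) (s : ℕ), ∀ᶠ Γ : Ctx P in big P,
  ∀ (S : Finset Γ.Y) (a a' : Γ.Y) (H : ℕ), H ≤ s → Γ.Circ S a a' H → Γ.Circ S a' a H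

-- deps: AGEO
def S_AGEN : Prop := ∀ (P : APar) (s : ℕ), ∀ᶠ Γ : Ctx P in big P,
  ∀ S A B : Finset Γ.Y, S.card ≤ s → A.card ≤ s → B.card ≤ s → Γ.Ind S A →
    ∃ f : Perm Γ.Y, Γ.SL S A f ∧ Γ.Ind (S ∪ B) (A.image f)

-- deps: AGEO AGEN
def S_AST0 : Prop := ∀ (P : APar) (s : ℕ), ∀ᶠ Γ : Ctx P in big P,
  ∀ (S B : Finset Γ.Y) (a a' x : Γ.Y) (H : ℕ), H ≤ s → B.card ≤ s → Γ.Circ S a a' H →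
    Γ.Q S a x → ∃ (A : Finset Γ.Y) (e p : Γ.Y), e ∈ A ∧ A.card ≤ H + 1 ∧ Γ.Q S a' p ∧
      Γ.Ind (insert x S ∪ B) A ∧ x ∉ Γ.acl (S ∪ A) ∧ x ∈ Γ.acl (insert p (S ∪ A)) ∧
      x ∉ Γ.acl (insert p (S ∪ A.erase e))

-- deps: AGEO AST0
def S_AST1 : Prop := ∀ (P : APar) (s : ℕ), ∀ᶠ Γ : Ctx P in big P,
  ∀ (S : Finset Γ.Y) (a : Γ.Y) (d : Fin 3 → Γ.Y) (H : ℕ), H ≤ s → (∀ l, Γ.Circ S a (d l) H) →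
    ∃ (T : Finset Γ.Y) (e p : Fin 3 → Γ.Y), T.card ≤ 4 * H + 3 ∧ Γ.Conf S T d a e p

-- deps: AGEO AMALG
def S_AST2 : Prop := ∀ (P : APar) (s : ℕ), ∀ᶠ Γ : Ctx P in big P,
  ∀ (S T : Finset Γ.Y) (d : Fin 3 → Γ.Y) (x : Γ.Y) (e p : Fin 3 → Γ.Y), T.card ≤ s →
    Γ.Conf S T d x e p → ∀ l, ∃ p', p' ∉ Γ.acl (insert x T) ∧ Γ.Q T (p l) p' ∧
      ∀ m, l ≠ m → Γ.G.E2 S p' (p m) (p l) (p m)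

-- deps: AGEO AB1
def S_AROOT : Prop := ∀ (P : APar) (s : ℕ), ∀ᶠ Γ : Ctx P in big P,
  ∀ (S T A : Finset Γ.Y) (d a p y z : Γ.Y) (h : Perm Γ.Y) (H : ℕ), S ⊆ T → T.card + 1 ≤ H →
    H ≤ s → A.card ≤ s → Γ.P1 S d a H → Γ.Q S d p → Γ.Q S a z → p ∉ Γ.acl T →
    y ∈ Γ.acl (insert p T) → z ∉ Γ.acl (insert p T) → Γ.SL T A h → p ∈ A → y ∈ A → h p = p →
    Γ.G.E2 T y z (h y) z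

-- deps: AGEO AB1 AROOT
def S_AST4 : Prop := ∀ (P : APar) (s : ℕ), ∀ᶠ Γ : Ctx P in big P,
  ∀ (S T : Finset Γ.Y) (d1 d2 x p1 p2 : Γ.Y) (f1 f2 : Perm Γ.Y) (H : ℕ), S ⊆ T →
    T.card + 1 ≤ H → H ≤ s → Γ.P1 S d1 x H → Γ.P1 S d2 x H → Γ.P1 S d1 d2 H →
    Γ.Q S d1 p1 → Γ.Q S d2 p2 → x ∉ Γ.acl T → x ∈ Γ.acl (insert p1 T) →
    x ∈ Γ.acl (insert p2 T) → Γ.SL T {p1, x} f1 → Γ.SL T {p2, x} f2 →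
    f1 p1 ∉ Γ.acl (insert x T) → f2 p2 ∉ Γ.acl (insert x T) →
    Γ.G.E2 S (f1 p1) p2 p1 p2 → Γ.G.E2 S (f2 p2) p1 p2 p1 → Γ.G.E2 T (f1 x) x x (f2 x)

-- deps: AGEO AST1 AST2 AST4
def S_ASTAR : Prop := ∀ (P : APar) (s : ℕ), ∀ᶠ Γ : Ctx P in big P,
  ∀ (S : Finset Γ.Y) (a : Γ.Y) (d : Fin 3 → Γ.Y) (H0 H : ℕ), 4 * H0 + 4 ≤ H → H ≤ s →
    (∀ l, Γ.P1 S (d l) a H) → (∀ l m, l ≠ m → Γ.P1 S (d l) (d m) H) →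
    (∀ l, Γ.Circ S a (d l) H0) → False

-- deps: AGEO
def S_AUN0 : Prop := ∀ (P : APar) (s : ℕ), ∀ᶠ Γ : Ctx P in big P,
  ∀ S V : Finset Γ.Y, S.card ≤ s → V.card ≤ s → (∀ v ∈ V, v ∉ Γ.acl S) →
    ∃ B : Finset Γ.Y, B.card ≤ V.card ∧ Γ.Ind S B ∧ (∀ p ∈ B, ∃ v ∈ V, Γ.Q S v p) ∧
      ∀ v ∈ V, ∃ p ∈ B, Γ.Q S v p

-- deps: AGEO AFEW1 AB1 AUN0
def S_AUN1 : Prop := ∀ (P : APar) (s : ℕ), ∀ᶠ Γ : Ctx P in big P,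
  ∀ (q H : ℕ) (S : Finset Γ.Y) (a : Γ.Y) (c : Fin q → Γ.Y), S.card + 2 * P.K ^ 2 * q + 1 ≤ H →
    H ≤ s → a ∉ Γ.acl S → (∀ i, Γ.P1 S a (c i) H) →
    ∃ B : Finset Γ.Y, B.card ≤ 2 * P.K ^ 2 * q ∧ Γ.Ind (insert a S) B ∧ a ∉ Γ.acl (S ∪ B) ∧
      (∀ p ∈ B, ∃ i, Γ.Q S (c i) p) ∧
      ∀ i x, Γ.Q S (c i) x → x ∉ Γ.acl (insert a S) → ∃ p ∈ B, Γ.Q (insert a S) x p

-- deps: AGEO AUN1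
def S_AUNI : Prop := ∀ (P : APar) (s : ℕ), ∀ᶠ Γ : Ctx P in big P,
  ∀ (q H : ℕ) (S : Finset Γ.Y) (a : Γ.Y) (c : Fin q → Γ.Y), S.card + 2 * P.K ^ 2 * q + 1 ≤ H →
    H ≤ s → a ∉ Γ.acl S → (∀ i, Γ.P1 S a (c i) H) → (∀ i, ¬ Γ.Circ S a (c i) H) →
    ∃ S1 : Finset Γ.Y, S ⊆ S1 ∧ S1.card ≤ S.card + 2 * P.K ^ 2 * q ∧ a ∉ Γ.acl S1 ∧
      ∀ w i x, w ∈ Γ.acl (insert a S1) → Γ.Q S1 a w → Γ.Q S (c i) x →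
        x ∉ Γ.acl (insert a S1) → Γ.G.E2 S1 a x w x

-- deps: AGEO
def S_ATINV : Prop := ∀ (P : APar) (s : ℕ), ∀ᶠ Γ : Ctx P in big P,
  ∀ (S A : Finset Γ.Y) (a : Γ.Y) (f : Perm Γ.Y), S.card ≤ s → A.card ≤ s → Γ.SL S A f →
    (∀ c w x, w ∈ A → x ∈ A → Γ.ff S a c (f w) (f x) = Γ.ff S a c w x) ∧
    (∀ c w w', w ∈ A → w' ∈ A → Γ.MM S a c (f w) (f w') = Γ.MM S a c w w') ∧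
    (∀ c u : Fin P.q → Γ.Y, (∀ i, u i ∈ A) → Γ.TT S a c (fun i => f (u i)) = Γ.TT S a c u)

-- deps: AGEO
def S_AFINV : Prop := ∀ (P : APar) (s : ℕ), ∀ᶠ Γ : Ctx P in big P,
  ∀ (S S' : Finset Γ.Y) (a c : Γ.Y), S ⊆ S' → S.card ≤ s → a ∈ S' → c ∈ S' →
    Γ.G.Inv2 S' (Γ.ff S a c)

-- deps: AGEO
def S_AM1 : Prop := ∀ (P : APar) (s : ℕ), ∀ᶠ Γ : Ctx P in big P, ∀ θ : ℝ, 0 ≤ θ →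
  Γ.Ind1 (s + 2) θ → ∀ (S : Finset Γ.Y) (a c w w' : Γ.Y), S.card ≤ s → c ∉ Γ.acl S →
    w' ∉ Γ.acl (insert w S) → |Γ.MM S a c w w'| ≤ θ * Γ.n

-- deps: AGEO
def S_AM2A : Prop := ∀ (P : APar) (s : ℕ), ∀ᶠ Γ : Ctx P in big P,
  ∀ (S : Finset Γ.Y) (a c y : Γ.Y), S.card + 1 ≤ s → c ∉ Γ.acl (insert a S) → Γ.Q S c y →
    y ∉ Γ.acl (insert a S) → ¬ Γ.G.E1 (insert a S) c y → P.dl s ^ 2 * Γ.n ≤ Γ.MM S a c a a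

-- deps: AGEO
def S_AM2B : Prop := ∀ (P : APar) (s : ℕ), ∀ᶠ Γ : Ctx P in big P,
  ∀ (S : Finset Γ.Y) (a c w : Γ.Y), S.card + 1 ≤ s → Γ.Q S a w →
    (∀ x, Γ.Q S c x → x ∉ Γ.acl (insert a S) → Γ.G.E2 S a x w x) →
    Γ.MM S a c a a - P.C s ≤ Γ.MM S a c a w

-- deps: AGEO ATINV AM2A AM2B
def S_AM2 : Prop := ∀ (P : APar) (s : ℕ), ∀ᶠ Γ : Ctx P in big P,
  ∀ (S : Finset Γ.Y) (a : Γ.Y) (c : Fin P.q → Γ.Y) (H : ℕ), H ≤ s → Γ.Triv S a c H →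
    ∀ i w, Γ.Q S a w → P.dl s ^ 2 * Γ.n ≤ Γ.MM S a (c i) w w ∧
      ∀ w', w' ∈ Γ.acl (insert w S) → 0 ≤ Γ.MM S a (c i) w w'

-- deps: AGEO AINDS AM1 AM2
def S_ALOW : Prop := ∀ (P : APar) (s : ℕ), ∃ c0 : ℝ, 0 < c0 ∧ ∀ᶠ Γ : Ctx P in big P,
  ∀ (S : Finset Γ.Y) (a : Γ.Y) (c : Fin P.q → Γ.Y) (H : ℕ), H ≤ s → Γ.Triv S a c H →
    c0 * (Γ.n : ℝ) ^ (P.q + 1) ≤ ∑ u : Fin P.q → Γ.Y, Γ.TT S a c u ^ 2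

-- deps: AGEO
def S_ATRIV : Prop := ∀ (P : APar) (s : ℕ), ∀ᶠ Γ : Ctx P in big P,
  ∀ (S : Finset Γ.Y) (a : Γ.Y) (c u : Fin P.q → Γ.Y) (H : ℕ), H ≤ s → Γ.Triv S a c H →
    Γ.Gen S a c u → Γ.IndF (Γ.S2 S a c) u

-- deps:
def S_ABAD : Prop := ∀ (ι Z : Type) [Fintype ι] [DecidableEq ι] [Fintype Z] (A : Z → Finset Z)
  (C : ℕ) (i j : ι), i ≠ j → (∀ z, (A z).card ≤ C) →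
    Fintype.card Z * (fil fun u : ι → Z => u i ∈ A (u j)).card ≤
      C * Fintype.card Z ^ Fintype.card ι

-- deps:
def S_ANG1 : Prop := ∀ (ι Z : Type) [Fintype ι] [DecidableEq ι] [Fintype Z]
  (F : ι → Z → Z → ℝ) (l : ι) (p : (ι → Z) → Prop) (b : ℝ), (∀ i w x, |F i w x| ≤ 1) →
    (∀ u y, p (Function.update u l y) ↔ p u) →
    ∑ w, ∑ w', |∑ x, F l w x * F l w' x| ≤ b →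
    Fintype.card Z * ∑ u ∈ fil p, (∑ w, ∏ i, F i w (u i)) ^ 2 ≤ (fil p).card * b

-- deps: AGEO AIND0 AM1 ABAD ANG1
def S_ANONG : Prop := ∀ (P : APar) (s : ℕ) (ε : ℝ), 0 < ε → ∀ᶠ Γ : Ctx P in big P,
  ∀ (S : Finset Γ.Y) (a : Γ.Y) (c : Fin P.q → Γ.Y) (H : ℕ), H ≤ s → Γ.Triv S a c H →
    ∑ u ∈ fil (fun u => ¬ Γ.Gen S a c u), Γ.TT S a c u ^ 2 ≤ ε * (Γ.n : ℝ) ^ (P.q + 1)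

-- deps:
def S_ACS : Prop := ∀ (ι Z : Type) [Fintype ι] [DecidableEq ι] [Fintype Z] (a : ι)
  (Ψ : (ι → Z) → ℝ) (ψ F : ι → Z → Z → ℝ), (∀ u, |Ψ u| ≤ 1) →
    (∀ u y, Ψ (Function.update u a y) = Ψ u) →
    (∑ u : ι → Z, Ψ u * (∏ j ∈ univ.erase a, ψ j (u a) (u j)) * ∑ w, ∏ i, F i w (u i)) ^ 2 ≤
      (Fintype.card Z : ℝ) ^ (Fintype.card ι - 1) * ∑ w, ∑ x, ∑ w', ∑ x',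
        |F a w x| * |F a w' x'| *
          ∏ j ∈ univ.erase a, |∑ y, F j w y * F j w' y * ψ j x y * ψ j x' y|

-- deps: AGEO AFINV
def S_ACP1 : Prop := ∀ (P : APar) (s : ℕ), ∀ᶠ Γ : Ctx P in big P, ∀ θ : ℝ, 0 ≤ θ →
  Γ.Ind1 (s + 4) θ → ∀ (S : Finset Γ.Y) (a : Γ.Y) (c : Fin P.q → Γ.Y) (i : Fin P.q)
    (ψ : Fin P.q → Γ.Y → Γ.Y → ℝ) (w x w' x' : Γ.Y), S.card + P.q + 1 ≤ s →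
    (∀ j, Γ.G.Inv2 S (ψ j)) → (∀ j x y, |ψ j x y| ≤ 1) →
    w ∉ Γ.acl (insert w' (insert x (insert x' (Γ.S2 S a c)))) →
    Γ.csT S a c i ψ w x w' x' ≤ (θ * Γ.n) ^ (P.q - 1)

-- deps: AGEO AFINV
def S_ACP2 : Prop := ∀ (P : APar) (s : ℕ), ∀ᶠ Γ : Ctx P in big P, ∀ θ : ℝ, 0 ≤ θ →
  Γ.Ind1 (s + 4) θ → ∀ (S : Finset Γ.Y) (a : Γ.Y) (c : Fin P.q → Γ.Y) (i j0 : Fin P.q)
    (ψ : Fin P.q → Γ.Y → Γ.Y → ℝ) (R : Γ.Y → Γ.Y → Prop) (w x w' x' : Γ.Y),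
    S.card + P.q + 1 ≤ s → i ≠ j0 → (∀ j, Γ.G.Inv2 S (ψ j)) → (∀ j x y, |ψ j x y| ≤ 1) →
    Γ.G.Inv2 S R → (∀ x y, ψ j0 x y = Γ.cen S (R x) y) →
    (x ∉ Γ.acl (insert w (insert w' (insert x' (Γ.S2 S a c)))) ∨
      x' ∉ Γ.acl (insert w (insert w' (insert x (Γ.S2 S a c))))) →
    Γ.csT S a c i ψ w x w' x' ≤ θ * (Γ.n : ℝ) ^ (P.q - 1)

-- deps: AGEO
def S_ACP3 : Prop := ∀ (P : APar) (s : ℕ), ∀ᶠ Γ : Ctx P in big P,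
  ∀ (S T : Finset Γ.Y) (a c w x w' x' : Γ.Y) (H : ℕ), S ⊆ T → T.card + 1 ≤ H → H ≤ s →
    ¬ Γ.Circ S c a H → Γ.Q S a w → Γ.Q S c x →
    w ∈ Γ.acl (insert w' (insert x (insert x' T))) →
    x ∈ Γ.acl (insert w (insert w' (insert x' T))) →
    x' ∈ Γ.acl (insert w (insert w' (insert x T))) →
    w' ∈ Γ.acl T ∨ x' ∈ Γ.acl (insert w' T) ∨ w ∈ Γ.acl (insert w' (insert x' T))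

-- deps:
def S_ACNT : Prop := ∀ (Z : Type) [Fintype Z] (C : ℕ) (A0 : Finset Z) (A1 : Z → Finset Z)
  (A2 : Z → Z → Finset Z) (A3 B3 : Z → Z → Z → Finset Z), A0.card ≤ C → (∀ a, (A1 a).card ≤ C) →
    (∀ a b, (A2 a b).card ≤ C) → (∀ a b c, (A3 a b c).card ≤ C) →
    (∀ a b c, (B3 a b c).card ≤ C) →
    (∑ w, ∑ x, ∑ w', ∑ x', ind (w ∈ B3 w' x x') ≤ C * (Fintype.card Z : ℝ) ^ 3) ∧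
    ∑ w, ∑ x, ∑ w', ∑ x', ind (x ∈ A3 w w' x' ∧ (w' ∈ A0 ∨ x' ∈ A1 w' ∨ w ∈ A2 w' x')) ≤
      3 * C ^ 2 * (Fintype.card Z : ℝ) ^ 2

-- deps: AGEO ACP1 ACP2 ACP3 ACNT
def S_ACSB : Prop := ∀ (P : APar) (s : ℕ), ∀ᶠ Γ : Ctx P in big P, ∀ θ : ℝ, 0 ≤ θ →
  Γ.Ind1 (s + 4) θ → ∀ (S : Finset Γ.Y) (a : Γ.Y) (c : Fin P.q → Γ.Y) (H : ℕ) (i j0 : Fin P.q)
    (ψ : Fin P.q → Γ.Y → Γ.Y → ℝ) (R : Γ.Y → Γ.Y → Prop), H ≤ s → Γ.Triv S a c H → i ≠ j0 →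
    (∀ j, Γ.G.Inv2 S (ψ j)) → (∀ j x y, |ψ j x y| ≤ 1) → Γ.G.Inv2 S R →
    (∀ x y, ψ j0 x y = Γ.cen S (R x) y) →
    ∑ w, ∑ x, ∑ w', ∑ x', Γ.csT S a c i ψ w x w' x' ≤ (Γ.n : ℝ) ^ (P.q - 1) *
      (θ ^ (P.q - 1) * (Γ.n : ℝ) ^ 4 + P.C (s + 4) * θ * (Γ.n : ℝ) ^ 3 +
        3 * P.C (s + 4) ^ 2 * (Γ.n : ℝ) ^ 2)

-- deps: ACS ACSB
def S_ALAM : Prop := ∀ (P : APar) (s : ℕ), ∀ᶠ Γ : Ctx P in big P, ∀ θ : ℝ, 0 ≤ θ →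
  Γ.Ind1 (s + 4) θ → ∀ (S : Finset Γ.Y) (a : Γ.Y) (c : Fin P.q → Γ.Y) (H : ℕ) (i0 j0 : Fin P.q)
    (φ : Fin P.q → Fin P.q → Γ.Y → Γ.Y → ℝ) (R : Γ.Y → Γ.Y → Prop), H ≤ s → Γ.Triv S a c H →
    i0 < j0 → (∀ i j, Γ.G.Inv2 S (φ i j)) → (∀ i j x y, |φ i j x y| ≤ 1) → Γ.G.Inv2 S R →
    (∀ x y, φ i0 j0 x y = Γ.cen S (R x) y) →
    Γ.Lam S a c φ ^ 2 ≤ (Γ.n : ℝ) ^ (2 * (P.q - 1)) *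
      (θ ^ (P.q - 1) * (Γ.n : ℝ) ^ 4 + P.C (s + 4) * θ * (Γ.n : ℝ) ^ 3 +
        3 * P.C (s + 4) ^ 2 * (Γ.n : ℝ) ^ 2)

-- deps:
def S_AZERO : Prop := ∀ (P : APar) (Γ : Ctx P) (S : Finset Γ.Y) (a : Γ.Y) (c : Fin P.q → Γ.Y)
  (φ : Fin P.q → Fin P.q → Γ.Y → Γ.Y → ℝ),
    (∀ i j x y y', Γ.Q S y y' → φ i j x y = φ i j x y') → Γ.Lam S a c φ = 0

-- deps: AGEO AINDS ALAM AZERO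
def S_AEXP : Prop := ∀ (P : APar) (s : ℕ) (ε : ℝ), 0 < ε → ∀ᶠ Γ : Ctx P in big P,
  ∀ (S : Finset Γ.Y) (a : Γ.Y) (c u : Fin P.q → Γ.Y) (H : ℕ), H ≤ s → Γ.Triv S a c H →
    (∑ v ∈ fil (Γ.Sim S u), Γ.TT S a c v) ^ 2 ≤ ε * (Γ.n : ℝ) ^ (2 * P.q + 1)

-- deps: AGEO ACC ATRIV ATINV
def S_AGEQ : Prop := ∀ (P : APar) (s : ℕ), ∀ᶠ Γ : Ctx P in big P,
  ∀ (S : Finset Γ.Y) (a : Γ.Y) (c u v : Fin P.q → Γ.Y) (H : ℕ), H ≤ s → Γ.Triv S a c H →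
    Γ.Gen S a c u → Γ.Gen S a c v → Γ.Sim S u v → Γ.TT S a c v = Γ.TT S a c u

-- deps: AGEO ACONJ ATRIV
def S_AGCNT : Prop := ∀ (P : APar) (s : ℕ), ∀ᶠ Γ : Ctx P in big P,
  ∀ (S : Finset Γ.Y) (a : Γ.Y) (c u : Fin P.q → Γ.Y) (H : ℕ), H ≤ s → Γ.Triv S a c H →
    Γ.Gen S a c u → (P.dl s * Γ.n) ^ P.q ≤
      ((fil fun v => Γ.Sim S u v ∧ Γ.Gen S a c v).card : ℝ)

-- deps: AGEO ABAD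
def S_AGNON : Prop := ∀ (P : APar) (s : ℕ), ∀ᶠ Γ : Ctx P in big P,
  ∀ (S : Finset Γ.Y) (a : Γ.Y) (c : Fin P.q → Γ.Y), S.card + P.q + 2 ≤ s →
    ∑ v ∈ fil (fun v => ¬ Γ.Gen S a c v), |Γ.TT S a c v| ≤
      (P.q : ℝ) ^ 2 * P.C s * (Γ.n : ℝ) ^ P.q

-- deps: AEXP AGEQ AGCNT AGNON
def S_AGENB : Prop := ∀ (P : APar) (s : ℕ) (ε : ℝ), 0 < ε → ∀ᶠ Γ : Ctx P in big P,
  ∀ (S : Finset Γ.Y) (a : Γ.Y) (c u : Fin P.q → Γ.Y) (H : ℕ), H ≤ s → Γ.Triv S a c H →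
    Γ.Gen S a c u → Γ.TT S a c u ^ 2 ≤ ε * Γ.n

-- deps: ALOW ANONG AGENB
def S_AL9 : Prop := ∀ (P : APar) (s : ℕ), ∀ᶠ Γ : Ctx P in big P,
  ∀ (S : Finset Γ.Y) (a : Γ.Y) (c : Fin P.q → Γ.Y) (H : ℕ), H ≤ s → ¬ Γ.Triv S a c H

-- deps: APLAT ACSYM ASTAR
def S_ANC : Prop := ∀ (P : APar) (r t : ℕ), ∃ s0 : ℕ, ∀ᶠ Γ : Ctx P in big P,
  ∃ (S : Finset Γ.Y) (d : Fin r → Γ.Y), S.card ≤ s0 ∧ Γ.Plat S d (S.card + t) ∧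
    ∀ i j, i ≠ j → ¬ Γ.Circ S (d i) (d j) (S.card + t)

-- deps: AGEO ANC AUNI APEXT
def S_ATRV : Prop := ∀ P : APar, ∃ s : ℕ, ∀ᶠ Γ : Ctx P in big P,
  ∃ (S : Finset Γ.Y) (a : Γ.Y) (c : Fin P.q → Γ.Y) (H : ℕ), H ≤ s ∧ Γ.Triv S a c H

-- deps: ATRV AL9
def S_ACORE : Prop := COREY

end Pool.Agent.P.MP_f1a348_lc.TO
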