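import Pool.Agent.P.MP_f1a348_lc.TO.ALin

/-! Tournament isomorphism, block B: quasirandom sign matrices. -/

set_option autoImplicit false
set_option linter.unusedSectionVars false

namespace Pool.Agent.P.MP_f1a348_lc.TO

open Finset Matrix Polynomial
open scoped Classical

variable {Y : Type} [Fintype Y] [DecidableEq Y]

/-- Sums of rows are short. -/
def QRh (M : Matrix Y Y ℝ) (H : ℕ) : Prop :=
  ∀ A : Finset Y, (H : ℝ) * ∑ y, (∑ a ∈ A, M a y) ^ 2 ≤ (Fintype.card Y : ℝ) ^ 2 * A.card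

/-- A sign matrix with zero diagonal. -/
def Sgn (M : Matrix Y Y ℝ) : Prop := (∀ a, M a a = 0) ∧ ∀ a b, a ≠ b → M a b = 1 ∨ M a b = -1

/-- The number of places where two rows differ. -/
noncomputable def dd (M : Matrix Y Y ℝ) (a b : Y) : ℕ :=
  (univ.filter (fun y => M a y ≠ M b y)).card

theorem Sgn.abs_le {M : Matrix Y Y ℝ} (h : Sgn M) (a b : Y) : |M a b| ≤ 1 := by
  by_cases e : a = b
  · subst e; simp [h.1]
  · rcases h.2 a b e with h | h <;> simp [h]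

theorem Sgn.sq {M : Matrix Y Y ℝ} (h : Sgn M) {a b : Y} (e : a ≠ b) : M a b * M a b = 1 := by
  rcases h.2 a b e with h | h <;> simp [h]

theorem Sgn.mul_abs {M : Matrix Y Y ℝ} (h : Sgn M) (a b c d : Y) : |M a b * M c d| ≤ 1 := by
  rw [abs_mul]
  exact mul_le_one₀ (h.abs_le a b) (abs_nonneg _) (h.abs_le c d)

theorem dd_self (M : Matrix Y Y ℝ) (a : Y) : dd M a a = 0 := by simp [dd]

theorem dd_comm (M : Matrix Y Y ℝ) (a b : Y) : dd M a b = dd M b a := by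
  simp only [dd, ne_comm]

theorem dd_tri (M : Matrix Y Y ℝ) (a b c : Y) : dd M a c ≤ dd M a b + dd M b c := by
  refine le_trans (Finset.card_le_card ?_) (Finset.card_union_le _ _)
  intro y hy
  simp only [Finset.mem_filter, Finset.mem_univ, true_and, Finset.mem_union] at hy ⊢
  by_contra hc
  push Not at hc
  exact hy (hc.1.trans hc.2)

theorem qr_or {M : Matrix Y Y ℝ} (hM : Sgn M) (hn : 0 < Fintype.card Y) {H : ℕ} (hH : 0 < H) :
    QRh M H ∨ ∃ p : ℝ[X], p.eval 0 = 0 ∧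
      (aeval (((Fintype.card Y : ℝ)⁻¹) • (M * Mᵀ)) p).IsSymm ∧
      aeval (((Fintype.card Y : ℝ)⁻¹) • (M * Mᵀ)) p ≠ 0 ∧
      (aeval (((Fintype.card Y : ℝ)⁻¹) • (M * Mᵀ)) p).rank ≤ H ^ 2 := by
  by_cases hq : QRh M H
  · exact Or.inl hq
  right
  have hn' : (0 : ℝ) < Fintype.card Y := by exact_mod_cast hn
  have hH' : (0 : ℝ) < H := by exact_mod_cast hH
  simp only [QRh, not_forall, not_le] at hq
  obtain ⟨A, hA⟩ := hq
  let v : Y → ℝ := fun a => if a ∈ A then 1 else 0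
  have hvv : v ⬝ᵥ v = A.card := by
    simp [v, dotProduct]
  have hvM : ∀ y, (v ᵥ* M) y = ∑ a ∈ A, M a y := by
    intro y
    simp [v, vecMul, dotProduct]
  have hq : v ⬝ᵥ (((Fintype.card Y : ℝ)⁻¹) • (M * Mᵀ)) *ᵥ v =
      (Fintype.card Y : ℝ)⁻¹ * ∑ y, (∑ a ∈ A, M a y) ^ 2 := by
    rw [smul_mulVec, dotProduct_smul, ← mulVec_mulVec, dotProduct_mulVec, mulVec_transpose,
      smul_eq_mul, dotProduct]
    simp only [hvM, pow_two]
  obtain ⟨p, h0, h1, h2, -, h4⟩ := lin_eig (((Fintype.card Y : ℝ)⁻¹) • (M * Mᵀ))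
    ((isSymm_mul_transpose_self M).smul _) (by
      intro x y
      rw [Matrix.smul_apply, smul_eq_mul, abs_mul, abs_of_pos (inv_pos.2 hn'), Matrix.mul_apply,
        inv_mul_le_iff₀ hn', mul_one]
      refine (Finset.abs_sum_le_sum_abs _ _).trans ?_
      refine (Finset.sum_le_sum fun w _ => hM.mul_abs x w y w).trans ?_
      simp) (θ := (H : ℝ)⁻¹) (inv_pos.2 hH') v (by
      rw [hq, hvv]
      refine lt_of_lt_of_le ?_ (le_abs_self _)
      rw [lt_inv_mul_iff₀ hn', mul_assoc, mul_left_comm, inv_mul_lt_iff₀ hH']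
      calc _ = (Fintype.card Y : ℝ) ^ 2 * A.card := by ring
        _ < _ := hA)
  refine ⟨p, h0, h1, h2, ?_⟩
  rw [inv_pow, inv_mul_le_iff₀ (by positivity), mul_one] at h4
  exact_mod_cast h4

theorem qr1 {M : Matrix Y Y ℝ} (hM : Sgn M) {H : ℕ} (hq : QRh M H) {A B : Finset Y}
    (hA : 1 < A.card) (h : ∀ a ∈ A, ∀ a' ∈ A, ∀ y ∈ B, M a y = M a' y) :
    H * (A.card * B.card) ≤ Fintype.card Y ^ 2 := by
  have h1 : ∀ y ∈ B, (∑ a ∈ A, M a y) ^ 2 = (A.card : ℝ) ^ 2 := by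
    intro y hy
    obtain ⟨a0, ha0, hne⟩ := Finset.exists_mem_ne hA y
    rw [Finset.sum_congr rfl fun a ha => h a ha a0 ha0 y hy, Finset.sum_const, nsmul_eq_mul,
      mul_pow, pow_two (M a0 y), hM.sq hne, mul_one]
  have h2 : (B.card : ℝ) * (A.card : ℝ) ^ 2 ≤ ∑ y, (∑ a ∈ A, M a y) ^ 2 := by
    rw [← nsmul_eq_mul, ← Finset.sum_const, ← Finset.sum_congr rfl h1]
    exact Finset.sum_le_sum_of_subset_of_nonneg (Finset.subset_univ _) fun _ _ _ => sq_nonneg _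
  have h3 := le_trans (mul_le_mul_of_nonneg_left h2 (Nat.cast_nonneg H)) (hq A)
  have hA' : (0 : ℝ) < A.card := by exact_mod_cast (by omega : 0 < A.card)
  have h4 : (H : ℝ) * (A.card * B.card) ≤ (Fintype.card Y : ℝ) ^ 2 := by
    refine le_of_mul_le_mul_right ?_ hA'
    calc _ = (H : ℝ) * (B.card * (A.card : ℝ) ^ 2) := by ring
      _ ≤ _ := h3
  exact_mod_cast h4

theorem dd_inner {M : Matrix Y Y ℝ} (hM : Sgn M) (a b : Y) :
    (Fintype.card Y : ℝ) - 1 - 2 * dd M a b ≤ ∑ y, M a y * M b y := by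
  have h1 : ∀ y, (1 : ℝ) - (if y = a then 1 else 0) - 2 * (if M a y ≠ M b y then 1 else 0) ≤
      M a y * M b y := by
    intro y
    have h2 := (abs_le.1 (hM.mul_abs a y b y)).1
    by_cases e : M a y = M b y
    · by_cases e2 : y = a
      · subst e2
        simp [hM.1]
        simp [← e, hM.1]
      · rw [← e, hM.sq (Ne.symm e2)]
        simp [e2]
    · split_ifs <;> linarith
  refine le_trans (le_of_eq ?_) (Finset.sum_le_sum fun y _ => h1 y)
  simp only [Finset.sum_sub_distrib, ← Finset.mul_sum, dd, Finset.sum_boole]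
  simp [Finset.filter_eq']

theorem qr2 {M : Matrix Y Y ℝ} (hM : Sgn M) {H : ℕ} (hq : QRh M H) (hn : 4 ≤ Fintype.card Y)
    (a : Y) :
    H * (univ.filter (fun b => 8 * dd M a b ≤ Fintype.card Y)).card ≤ 4 * Fintype.card Y := by
  set A := univ.filter (fun b => 8 * dd M a b ≤ Fintype.card Y) with hA
  set n : ℝ := (Fintype.card Y : ℝ) with hnd
  have hn' : (4 : ℝ) ≤ n := by rw [hnd]; exact_mod_cast hn
  have hA0 : (0 : ℝ) < A.card := by
    have : a ∈ A := by simp [hA, dd_self]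
    exact_mod_cast Finset.card_pos.2 ⟨a, this⟩
  have h1 : (A.card : ℝ) * (n / 2) ≤ ∑ y, M a y * ∑ b ∈ A, M b y := by
    simp only [Finset.mul_sum]
    rw [Finset.sum_comm, ← nsmul_eq_mul, ← Finset.sum_const]
    refine Finset.sum_le_sum fun b hb => le_trans ?_ (dd_inner hM a b)
    have h2 : 8 * dd M a b ≤ Fintype.card Y := by simpa [hA] using hb
    have h3 : 8 * (dd M a b : ℝ) ≤ n := by rw [hnd]; exact_mod_cast h2
    linarith
  have h2 := Finset.sum_mul_sq_le_sq_mul_sq univ (fun y => M a y) (fun y => ∑ b ∈ A, M b y)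
  have h3 : ∑ y, M a y ^ 2 ≤ n := by
    refine (Finset.sum_le_sum fun y _ => (sq_le_one_iff_abs_le_one _).2 (hM.abs_le a y)).trans ?_
    simp [hnd]
  have h4 := hq A
  have hS : (0 : ℝ) ≤ ∑ y, (∑ b ∈ A, M b y) ^ 2 := Finset.sum_nonneg fun _ _ => sq_nonneg _
  have h5 : ((A.card : ℝ) * (n / 2)) ^ 2 ≤ n * ∑ y, (∑ b ∈ A, M b y) ^ 2 :=
    le_trans (pow_le_pow_left₀ (by positivity) h1 2) (h2.trans (mul_le_mul_of_nonneg_right h3 hS))
  have h6 : (H : ℝ) * ((A.card : ℝ) * (n / 2)) ^ 2 ≤ n * (n ^ 2 * A.card) :=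
    calc _ ≤ (H : ℝ) * (n * ∑ y, (∑ b ∈ A, M b y) ^ 2) :=
          mul_le_mul_of_nonneg_left h5 (Nat.cast_nonneg H)
      _ = n * ((H : ℝ) * ∑ y, (∑ b ∈ A, M b y) ^ 2) := by ring
      _ ≤ _ := mul_le_mul_of_nonneg_left h4 (by linarith)
  have h7 : (H : ℝ) * A.card ≤ 4 * n := by
    have hp : (0 : ℝ) < n ^ 2 * A.card / 4 := by positivity
    refine le_of_mul_le_mul_right ?_ hp
    calc _ = (H : ℝ) * ((A.card : ℝ) * (n / 2)) ^ 2 := by ring
      _ ≤ n * (n ^ 2 * A.card) := h6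
      _ = _ := by ring
  rw [hnd] at h7
  exact_mod_cast h7

end Pool.Agent.P.MP_f1a348_lc.TO
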