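import Pool.Agent.P.MP_f1a348_lc.TO.BBase
import Pool.Agent.P.MP_f1a348_lc.TO.BQr

/-! Tournament isomorphism, block B: the three layers from the core statement. -/

set_option autoImplicit false
set_option linter.unusedSectionVars false

namespace Pool.Agent.P.MP_f1a348_lc.TO

open Finset Matrix Polynomial
open scoped Classical

namespace Sys

variable {Y : Type} [Fintype Y] [DecidableEq Y] {k : ℕ} {Γ : Sys Y k}

theorem b_eig (hk : 3 ≤ k) (hH : Γ.Hom) (hP : Γ.Prim) {M : Matrix Y Y ℝ} (hI : Γ.BInv M)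
    (ha : ∀ a b, M b a = -M a b) (hn : 0 < Fintype.card Y) (c : ℝ) (p : ℝ[X])
    (h0 : p.eval 0 = 0) (h1 : (aeval (c • (M * Mᵀ)) p).IsSymm)
    (h2 : aeval (c • (M * Mᵀ)) p ≠ 0) :
    ∃ T0 : Finset Y, T0.card ≤ (aeval (c • (M * Mᵀ)) p).rank ∧
      ∀ T, T0 ⊆ T → ∀ z z', Γ.E1 T z z' → z' = z := by
  have hT : Γ.BInv (Mᵀ : Matrix Y Y ℝ) := fun a b f h => hI b a f (by rwa [Finset.pair_comm])
  have hN : Γ.BInv (c • (M * Mᵀ) : Matrix Y Y ℝ) := fun a b f h => by
    rw [Matrix.smul_apply, Matrix.smul_apply, hI.mul hk hT a b f h]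
  have hPI := hN.aeval hk p
  have hN1 : (c • (M * Mᵀ)) *ᵥ (fun _ => (1 : ℝ)) = 0 := by
    have : Mᵀ *ᵥ (fun _ => (1 : ℝ)) = 0 := by
      funext y
      have h3 := b_rowsum hk hH hI ha y
      simp only [mulVec, dotProduct, transpose_apply, mul_one, Pi.zero_apply]
      rw [Finset.sum_congr rfl fun x _ => ha y x, Finset.sum_neg_distrib, h3, neg_zero]
    rw [smul_mulVec, ← mulVec_mulVec, this, mulVec_zero, smul_zero]
  have hP1 : (aeval (c • (M * Mᵀ)) p) *ᵥ (fun _ => (1 : ℝ)) = 0 := by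
    obtain ⟨q, rfl⟩ : X ∣ p := X_dvd_iff.2 (by rw [coeff_zero_eq_eval_zero, h0])
    rw [mul_comm, map_mul, aeval_X, ← mulVec_mulVec, hN1, mulVec_zero]
  generalize aeval (c • (M * Mᵀ)) p = P at h1 h2 hPI hP1 ⊢
  rcases hP (fun a b => P a = P b) ⟨fun _ => rfl, Eq.symm, Eq.trans⟩ (by
    intro a b f h e
    obtain ⟨β, hβ⟩ := b_beta hk h
    funext w
    obtain ⟨w, rfl⟩ := β.surjective w
    rw [(hβ _ P hPI w).1, (hβ _ P hPI w).2.1, e]) with h | h
  · obtain ⟨T0, hc, hT0⟩ := lin_span P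
    exact ⟨T0, hc, fun T hT z z' e => h _ _ (hT0 _ _ fun t ht => (hPI.e1 e (hT ht)).1)⟩
  · exfalso
    apply h2
    ext x y
    have h3 : ∑ w, P y w = 0 := by simpa [mulVec, dotProduct] using congrFun hP1 y
    have h4 : ∀ w, P y w = P x y := fun w => by rw [← h1.apply y w, h w x]
    rw [Finset.sum_congr rfl fun w _ => h4 w, Finset.sum_const, Finset.card_univ,
      nsmul_eq_mul] at h3
    exact (mul_eq_zero.1 h3).resolve_left (by positivity)

theorem b_struct {M : Matrix Y Y ℝ} (hS : Sgn M) (hI : Γ.BInv M) {H K : ℕ} (hq : QRh M H)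
    {T : Finset Y} (hk : T.card + 3 ≤ k) (hn : 0 < Fintype.card Y) (hH : 0 < H)
    (h1 : K ^ T.card ≤ Fintype.card Y) (h2 : K ^ T.card * K ^ T.card ≤ H)
    (hf : Γ.sm K T (Γ.sm K T (Γ.sm K T ∅)) ≠ univ) :
    H * (Γ.sm K T ∅).card ≤ K ^ T.card * Fintype.card Y ∧
      ∀ z ∉ Γ.sm K T ∅, Fintype.card Y < K ^ T.card * (Γ.tr T (Γ.sm K T ∅) z).card := by
  set Z1 := Γ.sm K T ∅ with hZ1
  set Z2 := Γ.sm K T Z1 with hZ2
  set n := Fintype.card Y with hn'
  set κ := K ^ T.card with hκ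
  obtain ⟨z0, hz0⟩ : ∃ z0, z0 ∉ Γ.sm K T Z2 := by
    by_contra hc
    push Not at hc
    exact hf (Finset.eq_univ_of_forall hc)
  rw [b_mem_sm, not_le, ← hκ, ← hn'] at hz0
  have hA : 1 < (Γ.tr T Z2 z0).card := by
    by_contra hc
    have := Nat.mul_le_mul_left κ (not_lt.1 hc)
    omega
  have h3 := qr1 hS hq (B := Z2) hA (by
    intro a ha a' ha' y hy
    rw [(hI.e1 ((b_mem_tr.1 ha).2 y hy) (Finset.mem_insert_self _ _)).1,
      (hI.e1 ((b_mem_tr.1 ha').2 y hy) (Finset.mem_insert_self _ _)).1])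
  have h4 : H * Z2.card ≤ κ * n := by
    refine Nat.le_of_mul_le_mul_right ?_ hn
    calc H * Z2.card * n ≤ H * Z2.card * (κ * (Γ.tr T Z2 z0).card) :=
          Nat.mul_le_mul_left _ hz0.le
      _ = κ * (H * ((Γ.tr T Z2 z0).card * Z2.card)) := by ring
      _ ≤ κ * n ^ 2 := Nat.mul_le_mul_left _ h3
      _ = _ := by ring
  have h5 : Z1 ⊆ Z2 := b_sm_mono le_rfl (Finset.empty_subset _)
  have hc2 : Γ.BCl T Z2 := b_cl_sm hk (b_cl_sm hk fun _ _ _ h => by simp at h)
  refine ⟨le_trans (Nat.mul_le_mul_left _ (Finset.card_le_card h5)) h4, fun z hz => ?_⟩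
  by_contra hc
  have hz2 : z ∈ Z2 := b_mem_sm.2 (not_lt.1 hc)
  rw [hZ1, b_mem_sm, not_le, b_tr_empty] at hz
  have h6 : (Γ.atom T z).card ≤ Z2.card :=
    Finset.card_le_card fun w hw => hc2 z w (b_mem_atom.1 hw) hz2
  have h7 : H * n < H * (κ * Z2.card) :=
    Nat.mul_lt_mul_of_pos_left (hz.trans_le (Nat.mul_le_mul_left _ h6)) hH
  have h8 : H * (κ * Z2.card) ≤ H * n :=
    calc H * (κ * Z2.card) = κ * (H * Z2.card) := by ring
      _ ≤ κ * (κ * n) := Nat.mul_le_mul_left _ h4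
      _ = κ * κ * n := by ring
      _ ≤ H * n := Nat.mul_le_mul_right _ h2
  omega

theorem b_tr_val {M : Matrix Y Y ℝ} (hI : Γ.BInv M) {T Z : Finset Y} {a y y' : Y} (ha : a ∈ Z)
    (hy : y' ∈ Γ.tr T Z y) : M a y' = M a y :=
  (hI.e1 ((b_mem_tr.1 hy).2 a ha) (Finset.mem_insert_self _ _)).2

theorem b_dd_le {M : Matrix Y Y ℝ} {Z : Finset Y} {a b : Y} (h : ∀ y ∉ Z, M a y = M b y) :
    dd M a b ≤ Z.card :=
  Finset.card_le_card fun y hy => by
    by_contra hc
    exact (Finset.mem_filter.1 hy).2 (h y hc)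

theorem b_pat {M : Matrix Y Y ℝ} (hI : Γ.BInv M) {T Z : Finset Y} {κ n : ℕ}
    (h : ∀ z ∉ Z, n < κ * (Γ.tr T Z z).card) {a b : Y} (ha : a ∈ Z) (hb : b ∈ Z) :
    dd M a b ≤ Z.card ∨ n < κ * dd M a b := by
  by_cases hc : ∀ y ∉ Z, M a y = M b y
  · exact Or.inl (b_dd_le hc)
  · push Not at hc
    obtain ⟨y, hy, hne⟩ := hc
    refine Or.inr ((h y hy).trans_le (Nat.mul_le_mul_left _ (Finset.card_le_card ?_)))
    intro y' hy'
    refine Finset.mem_filter.2 ⟨Finset.mem_univ _, ?_⟩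
    rwa [b_tr_val hI ha hy', b_tr_val hI hb hy']

theorem b_cnt {M : Matrix Y Y ℝ} (hS : Sgn M) (hI : Γ.BInv M) {T Z : Finset Y} {κ : ℕ}
    (hn : 0 < Fintype.card Y)
    (h : ∀ z ∉ Z, Fintype.card Y < κ * (Γ.tr T Z z).card)
    (hd : ∀ a ∈ Z, ∀ b ∈ Z, dd M a b ≤ Z.card → a = b) : Z.card ≤ 2 ^ κ := by
  set C := (univ \ Z).image (Γ.tr T Z) with hC
  have hCc : C.card ≤ κ := by
    have h1 : ∑ c ∈ C, c.card ≤ Fintype.card Y := by
      rw [← Finset.card_biUnion (t := fun c => c)]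
      · exact Finset.card_le_univ _
      · intro c hc c' hc' hne
        obtain ⟨y, -, rfl⟩ := Finset.mem_image.1 (Finset.mem_coe.1 hc)
        obtain ⟨y', -, rfl⟩ := Finset.mem_image.1 (Finset.mem_coe.1 hc')
        exact Finset.disjoint_left.2 fun w hw hw' => hne ((b_tr_eq hw).symm.trans (b_tr_eq hw'))
    have h2 : C.card * Fintype.card Y ≤ ∑ c ∈ C, κ * c.card := by
      rw [← smul_eq_mul, ← Finset.sum_const]
      refine Finset.sum_le_sum fun c hc => ?_
      obtain ⟨y, hy, rfl⟩ := Finset.mem_image.1 hc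
      exact (h y (Finset.mem_sdiff.1 hy).2).le
    rw [← Finset.mul_sum] at h2
    exact Nat.le_of_mul_le_mul_right (h2.trans (Nat.mul_le_mul_left _ h1)) hn
  refine le_trans ?_ (Nat.pow_le_pow_right two_pos hCc)
  rw [← Finset.card_powerset]
  refine Finset.card_le_card_of_injOn (fun a => C.filter (fun c => ∃ y ∈ c, M a y = 1))
    (fun a _ => Finset.mem_coe.2 (Finset.mem_powerset.2 (Finset.filter_subset _ _))) ?_
  intro a ha b hb e
  refine hd a ha b hb (b_dd_le fun y hy => ?_)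
  have key : ∀ a ∈ Z, Γ.tr T Z y ∈ C.filter (fun c => ∃ y ∈ c, M a y = 1) ↔ M a y = 1 := by
    intro a ha
    rw [Finset.mem_filter]
    constructor
    · rintro ⟨-, y', hy', e⟩
      rw [← b_tr_val hI ha hy', e]
    · intro e
      exact ⟨Finset.mem_image_of_mem _ (by simp [hy]), y, b_tr_self _ _ _, e⟩
  have h1 : M a y = 1 ↔ M b y = 1 := by
    rw [← key a ha, ← key b hb]
    exact Finset.ext_iff.1 e _
  have h2 := hS.2 a y (fun e => hy (e ▸ ha))
  have h3 := hS.2 b y (fun e => hy (e ▸ hb))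
  rcases h2 with h2 | h2
  · rw [h2, h1.1 h2]
  · rcases h3 with h3 | h3
    · rw [h3, h1.2 h3]
    · rw [h2, h3]

theorem b_dd_inv (hk : 3 ≤ k) {M : Matrix Y Y ℝ} (hI : Γ.BInv M) : Γ.BInv (dd M) := by
  intro a b f h
  obtain ⟨β, hβ⟩ := b_beta hk h
  symm
  refine Finset.card_bij (fun y _ => β y) ?_ (fun _ _ _ _ e => β.injective e) ?_
  · intro y hy
    simp only [Finset.mem_filter, Finset.mem_univ, true_and] at hy ⊢
    rwa [(hβ _ M hI y).1, (hβ _ M hI y).2.1]
  · intro y hy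
    obtain ⟨y, rfl⟩ := β.surjective y
    refine ⟨y, ?_, rfl⟩
    simp only [Finset.mem_filter, Finset.mem_univ, true_and] at hy ⊢
    rwa [(hβ _ M hI y).1, (hβ _ M hI y).2.1] at hy

theorem b_gap (hk : 4 ≤ k) (hP : Γ.Prim) {M : Matrix Y Y ℝ} (hS : Sgn M) (hI : Γ.BInv M)
    {H K : ℕ} (hq : QRh M H) (hn : 4 ≤ Fintype.card Y) (hK : 8 ≤ K) (h1 : K ≤ Fintype.card Y)
    (h2 : 2 * (K * K) ≤ H)
    (hf : ∀ a, Γ.sm K {a} (Γ.sm K {a} (Γ.sm K {a} ∅)) ≠ univ) {a b : Y} (hab : a ≠ b) :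
    Fintype.card Y < K * dd M a b := by
  set n := Fintype.card Y with hn'
  have hKK : 8 * K ≤ K * K := Nat.mul_le_mul_right _ hK
  have hH : 0 < H := by omega
  have hdI := b_dd_inv (Γ := Γ) (by omega) hI
  have hA : ∀ a, K * (univ.filter (fun b => 8 * dd M a b ≤ n)).card ≤ n := by
    intro a
    refine Nat.le_of_mul_le_mul_left ?_ hH
    calc H * (K * (univ.filter (fun b => 8 * dd M a b ≤ n)).card)
        = K * (H * (univ.filter (fun b => 8 * dd M a b ≤ n)).card) := by ring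
      _ ≤ K * (4 * n) := Nat.mul_le_mul_left _ (qr2 hS hq hn a)
      _ = (4 * K) * n := by ring
      _ ≤ H * n := Nat.mul_le_mul_right _ (by omega)
  have hdi : ∀ a b, H * dd M a b ≤ K * n ∨ n < K * dd M a b := by
    intro a b
    by_cases h8 : 8 * dd M a b ≤ n
    · obtain ⟨s1, s2⟩ := b_struct hS hI hq (K := K) (T := {a}) (by simpa using hk) (by omega) hH
        (by simpa using h1) (by simp; omega) (hf a)
      rw [Finset.card_singleton, pow_one] at s1 s2
      have hm : ∀ b, 8 * dd M a b ≤ n → b ∈ Γ.sm K {a} ∅ := by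
        intro b h8
        rw [b_mem_sm, b_tr_empty, Finset.card_singleton, pow_one]
        refine le_trans (Nat.mul_le_mul_left _ (Finset.card_le_card fun w hw => ?_)) (hA a)
        refine Finset.mem_filter.2 ⟨Finset.mem_univ _, ?_⟩
        rwa [(hdI.e1 (b_mem_atom.1 hw) (Finset.mem_singleton_self a)).2]
      exact (b_pat hI s2 (hm a (by simp [dd_self])) (hm b h8)).imp
        (fun h => le_trans (Nat.mul_le_mul_left _ h) s1) id
    · exact Or.inr ((not_le.1 h8).trans_le (Nat.mul_le_mul_right _ hK))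
  rcases hP (fun a b => H * dd M a b ≤ K * n) ⟨fun a => by simp [dd_self],
    fun h => by rwa [dd_comm], fun {a b c} h h' => (hdi a c).elim id fun h3 => by
      exfalso
      have h4 : H * n < H * (K * dd M a c) := Nat.mul_lt_mul_of_pos_left h3 hH
      have h5 : H * (K * dd M a c) ≤ H * n :=
        calc H * (K * dd M a c) ≤ H * (K * (dd M a b + dd M b c)) :=
              Nat.mul_le_mul_left _ (Nat.mul_le_mul_left _ (dd_tri M a b c))
          _ = K * (H * dd M a b + H * dd M b c) := by ring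
          _ ≤ K * (K * n + K * n) := Nat.mul_le_mul_left _ (Nat.add_le_add h h')
          _ = 2 * (K * K) * n := by ring
          _ ≤ H * n := Nat.mul_le_mul_right _ h2
      omega⟩ (fun a b f h e => by rwa [hdI a b f h]) with h | h
  · exact (hdi a b).resolve_left fun e => hab (h a b e)
  · exfalso
    have h3 : univ.filter (fun b => 8 * dd M a b ≤ n) = univ := by
      refine Finset.filter_true_of_mem fun b _ => Nat.le_of_mul_le_mul_left ?_ hH
      calc H * (8 * dd M a b) = 8 * (H * dd M a b) := by ring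
        _ ≤ 8 * (K * n) := Nat.mul_le_mul_left _ (h a b)
        _ = (8 * K) * n := by ring
        _ ≤ H * n := Nat.mul_le_mul_right _ (by omega)
    have h4 := hA a
    rw [h3, Finset.card_univ, ← hn'] at h4
    have h5 : 8 * n ≤ K * n := Nat.mul_le_mul_right _ hK
    omega

end Sys

open Sys in
theorem gain_of_core (hC : COREY) : GAIN := by
  intro K0
  obtain ⟨K, hK0, hK⟩ : ∃ K, K0 ≤ K ∧ 8 ≤ K := ⟨K0 + 8, by omega, by omega⟩
  obtain ⟨N, hN⟩ := hC K (fun t => 2 ^ (K ^ t)) (by omega)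
    (fun s t h => Nat.pow_le_pow_right two_pos (Nat.pow_le_pow_right (by omega) h))
  obtain ⟨H, hH⟩ : ∃ H, H = 2 * K ^ (2 * (N + 1)) := ⟨_, rfl⟩
  have hHpos : 0 < H := by rw [hH]; positivity
  refine ⟨H ^ 2 + 1 + (N + 1) + 3, H ^ 2 + 1 + (N + 1), N + 4 + K ^ (H ^ 2 + 1 + (N + 1)), ?_⟩
  intro Y _ _ Γ hn hHom hPrim
  suffices h : ∃ T : Finset Y, 1 ≤ T.card ∧ T.card ≤ H ^ 2 + 1 + (N + 1) ∧
      Γ.sm K T (Γ.sm K T (Γ.sm K T ∅)) = univ by
    obtain ⟨T, h1, h2, h3⟩ := h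
    refine ⟨T, h1, h2, Finset.eq_univ_of_forall fun z => ?_⟩
    exact b_sm_mono hK0 (b_sm_mono hK0 (b_sm_mono hK0 le_rfl)) (h3 ▸ Finset.mem_univ z)
  have hpow : ∀ t ≤ H ^ 2 + 1 + (N + 1), K ^ t ≤ Fintype.card Y := fun t ht =>
    (Nat.pow_le_pow_right (by omega) ht).trans (by omega)
  have hn0 : 0 < Fintype.card Y := by omega
  obtain ⟨M, hM0, hM1, hMa, hMI⟩ := b_orient Γ
  have hS : Sgn M := ⟨hM0, hM1⟩
  rcases qr_or hS hn0 hHpos with hq | ⟨p, h0, h1, h2, h3⟩
  swap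
  · obtain ⟨T0, hc, hT0⟩ := b_eig (by omega) hHom hPrim hMI hMa hn0 _ p h0 h1 h2
    obtain ⟨y0⟩ := Fintype.card_pos_iff.1 hn0
    have c1 := Finset.card_insert_le y0 T0
    refine ⟨insert y0 T0, Finset.card_pos.2 ⟨y0, Finset.mem_insert_self _ _⟩, by omega,
      Finset.eq_univ_of_forall fun z => b_mem_sm.2 ?_⟩
    refine le_trans (Nat.mul_le_mul_left _ (Finset.card_le_one.2 fun a ha b hb => ?_)) ?_
    · rw [hT0 _ (Finset.subset_insert _ _) _ _ (b_mem_tr.1 ha).1,
        hT0 _ (Finset.subset_insert _ _) _ _ (b_mem_tr.1 hb).1]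
    · rw [mul_one]
      exact hpow _ (by omega)
  by_contra hf
  push Not at hf
  have hKH : ∀ t ≤ N + 1, 2 * (K ^ t * K ^ t) ≤ H := by
    intro t ht
    rw [hH, ← pow_add]
    exact Nat.mul_le_mul_left _ (Nat.pow_le_pow_right (by omega) (by omega))
  have hgap : ∀ a b, a ≠ b → Fintype.card Y < K * dd M a b := fun a b hab =>
    b_gap (by omega) hPrim hS hMI hq (by omega) hK (by simpa using hpow 1 (by omega))
      (by simpa using hKH 1 (by omega)) (fun a => hf {a} (by simp) (by rw [Finset.card_singleton]; omega)) hab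
  refine hN Y (N + 1) (Γ.blow (by omega)) (by omega) (by omega) fun S hS' => ?_
  show (univ.filter (fun w => K ^ (S.card + 1) * (Γ.atom S w).card ≤ Fintype.card Y)).card ≤ _
  rcases Nat.eq_zero_or_pos S.card with h0 | h0
  · rw [Finset.card_eq_zero] at h0
    subst h0
    rw [Finset.filter_false_of_mem]
    · simp
    · intro w _
      have : Γ.atom ∅ w = univ := Finset.eq_univ_of_forall fun b => b_mem_atom.2 (hHom w b)
      rw [this, Finset.card_univ, Finset.card_empty, zero_add, pow_one]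
      have : 8 * Fintype.card Y ≤ K * Fintype.card Y := Nat.mul_le_mul_right _ hK
      omega
  · have hκ := hKH _ hS'
    obtain ⟨s1, s2⟩ := b_struct hS hMI hq (K := K) (T := S) (by omega) hn0 hHpos
      (hpow _ (by omega)) (by omega) (hf S h0 (by omega))
    refine le_trans (Finset.card_le_card fun w hw => ?_) (b_cnt hS hMI hn0 s2 ?_)
    · rw [b_mem_sm, b_tr_empty]
      exact le_trans (Nat.mul_le_mul_right _ (Nat.pow_le_pow_right (by omega) (Nat.le_succ _)))
        (Finset.mem_filter.1 hw).2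
    · intro a _ b _ hd
      by_contra hab
      have h4 : H * Fintype.card Y < H * (K * dd M a b) :=
        Nat.mul_lt_mul_of_pos_left (hgap a b hab) hHpos
      have h5 : K ≤ K ^ S.card := by
        simpa using Nat.pow_le_pow_right (show 0 < K by omega) h0
      have h6 : H * (K * dd M a b) ≤ H * Fintype.card Y :=
        calc H * (K * dd M a b) ≤ H * (K * (Γ.sm K S ∅).card) :=
              Nat.mul_le_mul_left _ (Nat.mul_le_mul_left _ hd)
          _ = K * (H * (Γ.sm K S ∅).card) := by ring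
          _ ≤ K ^ S.card * (K ^ S.card * Fintype.card Y) := Nat.mul_le_mul h5 s1
          _ = K ^ S.card * K ^ S.card * Fintype.card Y := by ring
          _ ≤ H * Fintype.card Y := Nat.mul_le_mul_right _ (by omega)
      omega

end Pool.Agent.P.MP_f1a348_lc.TO
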