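import Pool.Agent.P.MP_f1a348_lc.TO.AIface

section

/-! Step ACP2. -/

set_option autoImplicit false
set_option linter.unusedSectionVars false

namespace Pool.Agent.P.MP_f1a348_lc.TO

open Equiv Finset Filter
open scoped Classical

theorem ACP2_key {P : APar} {Γ : Ctx P} {t : ℕ} {θ : ℝ} (hI : Γ.Ind1 t θ)
    {S S' : Finset Γ.Y} {a c w w' x x' : Γ.Y} {ψ : Γ.Y → Γ.Y → ℝ} {R : Γ.Y → Γ.Y → Prop}
    (hS : S ⊆ S') (hc : S'.card ≤ t) (hF : Γ.G.Inv2 S' (Γ.ff S a c)) (hcS : c ∈ S') (hw : w ∈ S')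
    (hw' : w' ∈ S') (hx' : x' ∈ S') (hψ : Γ.G.Inv2 S ψ) (hb : ∀ x y, |ψ x y| ≤ 1)
    (hR : Γ.G.Inv2 S R) (he : ∀ x y, ψ x y = Γ.cen S (R x) y) (hx : x ∉ Γ.acl S') :
    |∑ y, Γ.ff S a c w y * Γ.ff S a c w' y * ψ x y * ψ x' y| ≤ θ * Γ.n := by
  have hH : Γ.G.Inv1 S' (fun y => Γ.ff S a c w y * Γ.ff S a c w' y * ψ x' y) := fun f y hf => by
    have e1 := hF.fix subset_rfl hw f y hf
    have e2 := hF.fix subset_rfl hw' f y hf
    have e3 := hψ.fix hS hx' f y hf
    show Γ.ff S a c w (f y) * Γ.ff S a c w' (f y) * ψ x' (f y) = _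
    rw [e1, e2, e3]
  have h1 := hI S S' c x R _ hS hc hcS hR hx hH fun y => by
    rw [abs_mul, abs_mul]
    exact mul_le_one₀ (mul_le_one₀ (Ctx.abs_ff_le _ _ _ _ _) (abs_nonneg _)
      (Ctx.abs_ff_le _ _ _ _ _)) (abs_nonneg _) (hb _ _)
  have e : ∑ y, Γ.ff S a c w y * Γ.ff S a c w' y * ψ x y * ψ x' y =
      ∑ y ∈ Γ.cls S c, Γ.cen S (R x) y * (Γ.ff S a c w y * Γ.ff S a c w' y * ψ x' y) := by
    rw [← sum_subset (subset_univ (Γ.cls S c)) fun y _ hy => by
      rw [Ctx.ff_eq_zero (w := w) fun h => hy (Ctx.mem_cls.2 h.2), zero_mul, zero_mul, zero_mul]]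
    exact sum_congr rfl fun y _ => by rw [he x y]; ring
  rwa [e]

theorem p_ACP2 (hAGEO : S_AGEO) (hAFINV : S_AFINV) :
    S_ACP2 := by
  intro P s
  filter_upwards [hAFINV P s] with Γ hF
  intro θ hθ hI S a c i j0 ψ R w x w' x' hs hij hψ hb hR he hx
  have c2 := Ctx.card_S2 S a c
  have cI : ∀ u v z : Γ.Y, (insert u (insert v (insert z (Γ.S2 S a c)))).card ≤ s + 4 :=
    fun u v z => by
      have h1 := card_insert_le u (insert v (insert z (Γ.S2 S a c)))
      have h2 := card_insert_le v (insert z (Γ.S2 S a c))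
      have h3 := card_insert_le z (Γ.S2 S a c)
      omega
  have sI : ∀ u v z : Γ.Y, Γ.S2 S a c ⊆ insert u (insert v (insert z (Γ.S2 S a c))) :=
    fun u v z => (subset_insert _ _).trans ((subset_insert _ _).trans (subset_insert _ _))
  have key : ∀ z z' : Γ.Y, z ∉ Γ.acl (insert w (insert w' (insert z' (Γ.S2 S a c)))) →
      |∑ y, Γ.ff S a (c j0) w y * Γ.ff S a (c j0) w' y * ψ j0 z y * ψ j0 z' y| ≤ θ * Γ.n :=
    fun z z' hz => ACP2_key hI ((Ctx.sub_S2 S a c).trans (sI w w' z')) (cI w w' z')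
      (hF S _ a (c j0) ((Ctx.sub_S2 S a c).trans (sI w w' z')) (by omega)
        (sI w w' z' (Ctx.a_mem_S2 S a c)) (sI w w' z' (Ctx.c_mem_S2 S a c j0)))
      (sI w w' z' (Ctx.c_mem_S2 S a c j0)) (by simp) (by simp) (by simp) (hψ j0) (hb j0) hR he hz
  have h0 : |∑ y, Γ.ff S a (c j0) w y * Γ.ff S a (c j0) w' y * ψ j0 x y * ψ j0 x' y| ≤
      θ * Γ.n := by
    rcases hx with hx | hx
    · exact key x x' hx
    · have h1 := key x' x hx
      rwa [sum_congr rfl fun y _ => mul_right_comm _ (ψ j0 x' y) (ψ j0 x y)] at h1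
  have hj : ∀ j, |∑ y, Γ.ff S a (c j) w y * Γ.ff S a (c j) w' y * ψ j x y * ψ j x' y| ≤
      (Γ.n : ℝ) := fun j => by
    refine (abs_sum_le_sum_abs _ _).trans ((sum_le_sum (g := fun _ => (1 : ℝ)) fun y _ => ?_).trans
      (by simp))
    rw [abs_mul, abs_mul, abs_mul]
    exact mul_le_one₀ (mul_le_one₀ (mul_le_one₀ (Ctx.abs_ff_le _ _ _ _ _) (abs_nonneg _)
      (Ctx.abs_ff_le _ _ _ _ _)) (abs_nonneg _) (hb _ _ _)) (abs_nonneg _) (hb _ _ _)
  have hm : j0 ∈ univ.erase i := mem_erase.2 ⟨hij.symm, mem_univ _⟩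
  have hq := P.q_ge
  have hcard : ((univ.erase i).erase j0).card = P.q - 2 := by
    rw [card_erase_of_mem hm, card_erase_of_mem (mem_univ _), card_univ, Fintype.card_fin]
    omega
  have hp : ∏ j ∈ (univ.erase i).erase j0,
      |∑ y, Γ.ff S a (c j) w y * Γ.ff S a (c j) w' y * ψ j x y * ψ j x' y| ≤
      (Γ.n : ℝ) ^ (P.q - 2) := by
    rw [← hcard, ← prod_const]
    exact prod_le_prod (fun _ _ => abs_nonneg _) fun j _ => hj j
  have h1 : |Γ.ff S a (c i) w x| * |Γ.ff S a (c i) w' x'| ≤ 1 :=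
    mul_le_one₀ (Ctx.abs_ff_le _ _ _ _ _) (abs_nonneg _) (Ctx.abs_ff_le _ _ _ _ _)
  unfold Ctx.csT
  rw [← mul_prod_erase _ _ hm, show P.q - 1 = P.q - 2 + 1 by omega, pow_succ]
  calc _ ≤ 1 * (θ * Γ.n * (Γ.n : ℝ) ^ (P.q - 2)) :=
        mul_le_mul h1 (mul_le_mul h0 hp (prod_nonneg fun _ _ => abs_nonneg _) (by positivity))
          (mul_nonneg (abs_nonneg _) (prod_nonneg fun _ _ => abs_nonneg _)) zero_le_one
    _ = _ := by ring

end Pool.Agent.P.MP_f1a348_lc.TO

end

section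

/-! Step AFC. -/

set_option autoImplicit false
set_option linter.unusedSectionVars false

namespace Pool.Agent.P.MP_f1a348_lc.TO

open Equiv Finset Filter
open scoped Classical

theorem p_AFC (hAFA : S_AFA) :
    S_AFC := by
  intro P s
  filter_upwards [hAFA P (s + 3), ev_n P (P.K ^ (2 * s + 5) * P.C (s + 3) + 1)] with G h hn
  refine ⟨fun {S a b} hS hab ha => ?_⟩
  by_contra hb
  have hk := h.room
  have c1 : ∀ x, (insert x S).card ≤ s + 3 := fun x => by have := card_insert_le x S; omega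
  have inv : G.G.Inv2 S (fun a' b' => a' ∈ G.acl (insert b' S)) := fun f x y hf => by
    have e : (insert y S).image f = insert (f y) S := by
      rw [image_insert, Sys.image_fix hf.2]
    have := h.tr (S := insert y S) (a := x) (f := f) (c1 y) (Sys.mono hf.1 (by grind))
    rw [e] at this
    exact propext this
  have hN := inv.card (by omega)
  set N : G.Y → ℕ := fun x => (fil fun b' => x ∈ G.acl (insert b' S)).card with hNd
  have h1 : G.n < P.K ^ (s + 3) * N a := by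
    have l1 : ¬ P.K ^ ((insert a S).card + 1) * (G.G.atom (insert a S) b).card ≤ G.n :=
      fun e => hb (G.mem_acl.2 e)
    have l2 : (G.G.atom (insert a S) b).card ≤ N a := by
      refine card_le_card fun z hz => mem_fil.2 ?_
      have e := (Sys.mem_atom.1 hz).toE2 (subset_insert a S) (mem_insert_self _ _)
      rw [inv.e2 e]; exact hab
    have l3 : P.K ^ ((insert a S).card + 1) ≤ P.K ^ (s + 3) :=
      Nat.pow_le_pow_right (by have := P.hK; omega) (by have := card_insert_le a S; omega)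
    exact lt_of_lt_of_le (not_le.1 l1) (Nat.mul_le_mul l3 l2)
  have h2 : G.n < P.K ^ (s + 2) * (G.G.atom S a).card := by
    have l1 : ¬ P.K ^ (S.card + 1) * (G.G.atom S a).card ≤ G.n := fun e => ha (G.mem_acl.2 e)
    exact lt_of_lt_of_le (not_le.1 l1) (Nat.mul_le_mul_right _
      (Nat.pow_le_pow_right (by have := P.hK; omega) (by omega)))
  have h3 : (G.G.atom S a).card * N a ≤ G.n * P.C (s + 3) := by
    calc (G.G.atom S a).card * N a = ∑ x ∈ G.G.atom S a, N x := by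
          rw [sum_congr rfl fun x hx => hN.e1 (Sys.mem_atom.1 hx), sum_const, smul_eq_mul]
      _ ≤ ∑ x, N x := sum_le_sum_of_subset (subset_univ _)
      _ = ∑ y, (G.acl (insert y S)).card := by
          have e : ∀ x, N x = ∑ y, if x ∈ G.acl (insert y S) then 1 else 0 := fun x => by
            rw [← card_filter]
            exact congrArg card (by ext y; simp)
          rw [sum_congr rfl fun x _ => e x, sum_comm]
          exact sum_congr rfl fun y _ => by simp
      _ ≤ ∑ _y : G.Y, P.C (s + 3) := sum_le_sum fun y _ => h.card (c1 y)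
      _ = G.n * P.C (s + 3) := by simp
  have h4 : G.n * G.n ≤ G.n * (P.K ^ (2 * s + 5) * P.C (s + 3)) := by
    calc G.n * G.n ≤ (P.K ^ (s + 3) * N a) * (P.K ^ (s + 2) * (G.G.atom S a).card) :=
          Nat.mul_le_mul h1.le h2.le
      _ = P.K ^ (2 * s + 5) * ((G.G.atom S a).card * N a) := by ring
      _ ≤ P.K ^ (2 * s + 5) * (G.n * P.C (s + 3)) := Nat.mul_le_mul_left _ h3
      _ = _ := by ring
  have := Nat.le_of_mul_le_mul_left h4 (by omega)
  omega

end Pool.Agent.P.MP_f1a348_lc.TO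

end

section

/-! Step AFG. -/

set_option autoImplicit false
set_option linter.unusedSectionVars false

namespace Pool.Agent.P.MP_f1a348_lc.TO

open Equiv Finset Filter
open scoped Classical

theorem afg_den {P : APar} {G : Ctx P} {S A : Finset G.Y} {f : Perm G.Y} {y : G.Y}
    (hf : G.G.Aut S A f) (hc : S.card + A.card < G.k) (hy : y ∈ A) (p p' : G.Y → Prop)
    (H : ∀ (w : G.Y) (g : Perm G.Y), (∀ x ∈ S ∪ A, g x = f x) → G.G.Aut S (insert w A) g →
      p' (g w) = p w) : G.den S p' (f y) = G.den S p y := by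
  have hq : ∀ (w : G.Y) (g : Perm G.Y), (∀ x ∈ S ∪ A, g x = f x) → G.G.Aut S (insert w A) g →
      (g w ∈ G.cls S (f y) ↔ w ∈ G.cls S y) := fun w g h1 h2 => by
    rw [Ctx.mem_cls, Ctx.mem_cls, ← h1 y (mem_union_right _ hy),
      (Ctx.Q.inv2 S).app h2 subset_rfl (mem_union_right _ (mem_insert_of_mem hy))
        (mem_union_right _ (mem_insert_self _ _))]
  have e1 : (G.cls S (f y)).card = (G.cls S y).card := hf.card_tr hc _ _ hq
  have e2 : (fil fun z => z ∈ G.cls S (f y) ∧ p' z).card = (fil fun z => z ∈ G.cls S y ∧ p z).card :=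
    hf.card_tr hc _ _ fun w g h1 h2 => by
      rw [mem_fil, mem_fil, hq w g h1 h2, H w g h1 h2]
  unfold Ctx.den
  rw [e1, e2]

theorem p_AFG (hAPRE : S_APRE) (hAFS : S_AFS) (hAFR : S_AFR) :
    S_AFG := by
  intro P s
  filter_upwards [hAPRE P (s + 1), hAFS P (s + 1), hAFR P s, ev_k P (s + 4)] with G _ hs hr hk
  have d2 : ∀ {S : Finset G.Y} {R : G.Y → G.Y → Prop}, S.card ≤ s → G.G.Inv2 S R →
      G.G.Inv2 S (fun b y => G.den S (R b) y) := by
    intro S R hc hR f b y hf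
    have := card_le_two (a := b) (b := y)
    refine afg_den hf (by omega) (by simp) _ _ fun w g h1 h2 => ?_
    rw [← h1 b (by simp)]
    exact hR.app h2 subset_rfl (by simp) (by simp)
  refine ⟨d2, ?_, ?_, ?_⟩
  · intro S R hc hR f b y hf
    have e1 : G.den S (R (f b)) (f y) = G.den S (R b) y := d2 hc hR f b y hf
    show G.cen S (R (f b)) (f y) = G.cen S (R b) y
    unfold Ctx.cen
    rw [e1, hR f b y hf]
  · intro S R hc hR f b b' y hf
    have := card_le_three (a := b) (b := b') (c := y)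
    have e1 : G.den S (R (f b) (f b')) (f y) = G.den S (R b b') y := by
      refine afg_den hf (by omega) (by simp) _ _ fun w g h1 h2 => ?_
      rw [← h1 b (by simp), ← h1 b' (by simp)]
      exact hR.app h2 subset_rfl (by simp) (by simp) (by simp)
    show G.cen S (R (f b) (f b')) (f y) = G.cen S (R b b') y
    unfold Ctx.cen
    rw [e1, hR f b b' y hf]
  · intro S R a a' y hc hR e
    obtain ⟨f, h1, h2⟩ := hr.transfer hc e
    obtain ⟨g, h3, h4⟩ := hs.sext {y} (by omega) (by simp) (by simp) h1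
    have ea : g a = a' := by rw [h3 a (by simp), h2]
    have hq : G.Q S y (g y) := hs.pres (by omega) h4 (by simp)
    have e1 : G.den S (R (g a)) (g y) = G.den S (R a) y :=
      (d2 hc hR).app h4.aut subset_rfl (by simp) (by simp)
    rw [← e1, ea, Ctx.den_eq _ hq]

end Pool.Agent.P.MP_f1a348_lc.TO

end

section

/-! Step AFINV. -/

set_option autoImplicit false
set_option linter.unusedSectionVars false

namespace Pool.Agent.P.MP_f1a348_lc.TO

open Equiv Finset Filter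
open scoped Classical

theorem p_AFINV (hAGEO : S_AGEO) :
    S_AFINV := by
  intro P s
  filter_upwards [hAGEO P s] with G h S S' a c hS hc ha hc' f w x hf
  have e1 := (Ctx.Q.inv2 S).app (x := a) (y := w) hf hS (mem_union_left _ ha) (by simp)
  have e2 := (Ctx.Q.inv2 S).app (x := c) (y := x) hf hS (mem_union_left _ hc') (by simp)
  have e3 := (h.cen2 hc (Sys.inv2_E2 S a c)).app (x := w) (y := x) hf hS (by simp) (by simp)
  rw [hf.2 a ha] at e1
  rw [hf.2 c hc'] at e2
  unfold Ctx.ff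
  rw [e1, e2]
  exact congrArg _ e3

end Pool.Agent.P.MP_f1a348_lc.TO

end

section

/-! Step AFQ. -/

set_option autoImplicit false
set_option linter.unusedSectionVars false

namespace Pool.Agent.P.MP_f1a348_lc.TO

open Equiv Finset Filter
open scoped Classical

theorem p_AFQ (hAPRE : S_APRE) :
    S_AFQ := by
  intro P s
  filter_upwards [hAPRE P (s + 1), ev_n P 1] with G h hn
  refine ⟨fun {S x y} hc hx e => ?_, fun {S x y} hc e => ?_⟩
  · have hc1 : S.card ≤ s + 1 := by omega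
    have tr : ∀ (f : Perm G.Y) (a b z : G.Y), G.G.Aut S {a, b} f → z ∈ S ∪ {a, b} →
        z ∉ G.acl S → f z ∉ G.acl S := fun f a b z hf hz h1 =>
      h.nacl_e1 hc1 (Sys.E1.of hf hz) h1
    have := e (fun a b => a = b ∨ (a ∉ G.acl S ∧ b ∉ G.acl S))
      ⟨⟨fun _ => Or.inl rfl, fun k => k.imp Eq.symm And.symm, fun k k' => by
        rcases k with rfl | k
        · exact k'
        · rcases k' with rfl | k'
          · exact Or.inr k
          · exact Or.inr ⟨k.1, k'.2⟩⟩,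
        Sys.Inv2.of_imp fun f a b hf k => k.imp (congrArg f) fun k =>
          ⟨tr f a b a hf (by simp) k.1, tr f a b b hf (by simp) k.2⟩⟩
      fun a ha => by
        have h1 : (insert a S).card ≤ s + 1 := (card_insert_le _ _).trans (by omega)
        obtain ⟨b, hb⟩ := h.exists_nacl hn h1
        exact ⟨b, Or.inr ⟨ha, h.nmono (subset_insert _ _) h1 hb⟩, hb⟩
    exact (this.resolve_right fun k => k.1 hx).symm
  · refine e _ ⟨Sys.E1.equiv S, Sys.inv2_E1 S⟩ fun a ha => ?_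
    obtain ⟨b, h1, h2⟩ := h.avoid (h.lrg (by omega) ha)
      ((card_insert_le a S).trans (by omega : S.card + 1 ≤ s + 1))
    exact ⟨b, Sys.mem_atom.1 h1, h2⟩

end Pool.Agent.P.MP_f1a348_lc.TO

end

section

/-! Step AGENB. -/

set_option autoImplicit false
set_option linter.unusedSectionVars false

namespace Pool.Agent.P.MP_f1a348_lc.TO

open Equiv Finset Filter
open scoped Classical

theorem p_AGENB (hAEXP : S_AEXP) (hAGEQ : S_AGEQ) (hAGCNT : S_AGCNT) (hAGNON : S_AGNON) :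
    S_AGENB := by
  intro P s ε hε
  have hd := P.dl_pos s
  set D : ℝ := (P.dl s ^ P.q) ^ 2 with hD
  have hD0 : 0 < D := by positivity
  filter_upwards [hAEXP P s (ε * D / 4) (by positivity), hAGEQ P s, hAGCNT P s, hAGNON P s,
    ev_real P (4 * ((P.q : ℝ) ^ 2 * P.C s) ^ 2 / (ε * D)), ev_real P 1]
    with Γ h1 h2 h3 h4 h5 h6 S a c u H hH hT hG
  have a1 := h1 S a c u H hH hT
  have a3 := h3 S a c u H hH hT hG
  have a4 := h4 S a c (by have := hT.room; omega)
  set N : ℝ := ((fil fun v => Γ.Sim S u v ∧ Γ.Gen S a c v).card : ℝ)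
  set B := ∑ v ∈ (fil (Γ.Sim S u)).filter (fun v => ¬ Γ.Gen S a c v), Γ.TT S a c v with hB
  have b1 : ∑ v ∈ fil (Γ.Sim S u), Γ.TT S a c v = N * Γ.TT S a c u + B := by
    rw [← sum_filter_add_sum_filter_not _ (Γ.Gen S a c), sum_congr rfl fun v hv =>
      h2 S a c u v H hH hT hG (mem_filter.1 hv).2 (mem_fil.1 (mem_filter.1 hv).1), sum_const,
      nsmul_eq_mul]
    congr 4
    ext v
    simp
  have b2 : |B| ≤ (P.q : ℝ) ^ 2 * P.C s * (Γ.n : ℝ) ^ P.q :=
    (abs_sum_le_sum_abs _ _).trans ((sum_le_sum_of_subset_of_nonneg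
      (fun v hv => mem_fil.2 (mem_filter.1 hv).2) fun _ _ _ => abs_nonneg _).trans a4)
  have b3 := pow_le_pow_left₀ (abs_nonneg _) b2 2
  have b4 := pow_le_pow_left₀ (by positivity) a3 2
  rw [b1, pow_succ (Γ.n : ℝ), mul_comm 2, pow_mul] at a1
  rw [sq_abs, mul_pow _ ((Γ.n : ℝ) ^ P.q)] at b3
  rw [mul_pow, mul_pow, ← hD] at b4
  rw [div_le_iff₀ (by positivity)] at h5
  have hn : (0 : ℝ) < ((Γ.n : ℝ) ^ P.q) ^ 2 := by positivity
  set M : ℝ := ((Γ.n : ℝ) ^ P.q) ^ 2
  have b5 := mul_le_mul_of_nonneg_right h5 hn.le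
  have b6 := mul_le_mul_of_nonneg_right b4 (sq_nonneg (Γ.TT S a c u))
  refine le_of_mul_le_mul_left ?_ (mul_pos hD0 hn)
  nlinarith [sq_nonneg (N * Γ.TT S a c u + 2 * B)]

end Pool.Agent.P.MP_f1a348_lc.TO

end

section

/-! Step AI2A. -/

set_option autoImplicit false
set_option linter.unusedSectionVars false

namespace Pool.Agent.P.MP_f1a348_lc.TO

open Equiv Finset Filter
open scoped Classical

private theorem ai2a_swap {Y : Type} [Fintype Y] (F : Y → Y → Y → Y → ℝ) :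
    ∑ x, ∑ y, ∑ b, ∑ b', F x y b b' = ∑ b, ∑ b', ∑ x, ∑ y, F x y b b' := by
  calc ∑ x, ∑ y, ∑ b, ∑ b', F x y b b' = ∑ x, ∑ b, ∑ y, ∑ b', F x y b b' :=
        sum_congr rfl fun x _ => sum_comm
    _ = ∑ b, ∑ x, ∑ y, ∑ b', F x y b b' := sum_comm
    _ = ∑ b, ∑ x, ∑ b', ∑ y, F x y b b' :=
        sum_congr rfl fun b _ => sum_congr rfl fun x _ => sum_comm
    _ = ∑ b, ∑ b', ∑ x, ∑ y, F x y b b' := sum_congr rfl fun b _ => sum_comm

theorem p_AI2A (hAGEO : S_AGEO) :
    S_AI2A := by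
  intro P s
  filter_upwards [hAGEO P s, ev_n P 1, ev_k P (s + 5)] with G h hn hk
  intro θ hθ hSP S d R H hS hR hH
  have hN : (0 : ℝ) < G.n := by exact_mod_cast hn
  have hN2 : (0 : ℝ) < (G.n : ℝ) ^ 2 := by positivity
  have hc3 := h.cen3 hS hR
  set c : G.Y → G.Y → G.Y → ℝ := fun b b' y => G.cen S (R b b') y with hc
  set T : G.Y → G.Y → ℝ := fun y y' => ∑ b, ∑ b', c b b' y * c b b' y' with hT
  set M : Matrix G.Y G.Y ℝ := fun y y' => ind (G.Q S y y') * (((G.n : ℝ) ^ 2)⁻¹ * T y y') with hM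
  set v : G.Y → ℝ := fun y => ind (G.Q S d y) * H y with hv
  have hTs : ∀ x y, T x y = T y x := fun x y =>
    sum_congr rfl fun b _ => sum_congr rfl fun b' _ => mul_comm _ _
  have hsym : ∀ x y, M x y = M y x := fun x y => by
    show ind (G.Q S x y) * (((G.n : ℝ) ^ 2)⁻¹ * T x y)
      = ind (G.Q S y x) * (((G.n : ℝ) ^ 2)⁻¹ * T y x)
    rw [hTs x y, ind_congr (⟨Ctx.Q.symm, Ctx.Q.symm⟩ : G.Q S x y ↔ G.Q S y x)]
  have hTi : G.G.Inv2 S T := fun f x y hf => by
    have h2 := card_le_two (a := x) (b := y)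
    refine hf.sum_tr (by omega) (fun b => ∑ b', c b b' x * c b b' y)
      (fun b => ∑ b', c b b' (f x) * c b b' (f y)) fun w g h1 hg => ?_
    have h3 := card_insert_le w ({x, y} : Finset G.Y)
    refine hg.sum_tr (by omega) (fun b' => c w b' x * c w b' y)
      (fun b' => c (g w) b' (f x) * c (g w) b' (f y)) fun w' g' h4 hg' => ?_
    have e1 : g' w = g w := h4 w (by simp)
    have e2 : g' x = f x := by rw [h4 x (by simp), h1 x (by simp)]
    have e3 : g' y = f y := by rw [h4 y (by simp), h1 y (by simp)]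
    have e4 : c (g' w) (g' w') (g' x) = c w w' x :=
      hc3.app hg' subset_rfl (by simp) (by simp) (by simp)
    have e5 : c (g' w) (g' w') (g' y) = c w w' y :=
      hc3.app hg' subset_rfl (by simp) (by simp) (by simp)
    show c (g w) (g' w') (f x) * c (g w) (g' w') (f y) = c w w' x * c w w' y
    rw [← e1, ← e2, ← e3, e4, e5]
  have hinv : G.G.Inv2 S M := fun f x y hf => by
    show ind (G.Q S (f x) (f y)) * (((G.n : ℝ) ^ 2)⁻¹ * T (f x) (f y))
      = ind (G.Q S x y) * (((G.n : ℝ) ^ 2)⁻¹ * T x y)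
    rw [hTi f x y hf, Ctx.Q.inv2 S f x y hf]
  have hTb : ∀ x y, |T x y| ≤ (G.n : ℝ) ^ 2 := fun x y => by
    have h1 : ∀ b b', |c b b' x * c b b' y| ≤ 1 := fun b b' => by
      rw [abs_mul]
      exact mul_le_one₀ (Ctx.abs_cen_le _ _ _) (abs_nonneg _) (Ctx.abs_cen_le _ _ _)
    calc |T x y| ≤ ∑ b, |∑ b', c b b' x * c b b' y| := abs_sum_le_sum_abs _ _
      _ ≤ ∑ _b : G.Y, ∑ _b' : G.Y, (1 : ℝ) :=
        sum_le_sum fun b _ => (abs_sum_le_sum_abs _ _).trans (sum_le_sum fun b' _ => h1 b b')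
      _ = (G.n : ℝ) ^ 2 := by simp [sq]
  have hb : ∀ x y, |M x y| ≤ 1 := fun x y => by
    show |ind (G.Q S x y) * (((G.n : ℝ) ^ 2)⁻¹ * T x y)| ≤ 1
    rw [abs_mul, abs_mul, abs_of_pos (inv_pos.2 hN2)]
    refine mul_le_one₀ (abs_ind_le _) (by positivity) ?_
    rw [inv_mul_le_iff₀ hN2, mul_one]
    exact hTb x y
  have hsupp : ∀ x y, M x y ≠ 0 → G.Q S x y := fun x y h1 => by
    by_contra h2
    apply h1
    show ind (G.Q S x y) * (((G.n : ℝ) ^ 2)⁻¹ * T x y) = 0
    rw [ind_neg h2, zero_mul]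
  have hrow : ∀ x, ∑ y, M x y = 0 := fun x => by
    show ∑ y, ind (G.Q S x y) * (((G.n : ℝ) ^ 2)⁻¹ * T x y) = 0
    rw [sum_ind_mul (fun y => G.Q S x y), ← mul_sum]
    have h1 : ∑ y ∈ fil (fun y => G.Q S x y), T x y = 0 := by
      show ∑ y ∈ G.cls S x, ∑ b, ∑ b', c b b' x * c b b' y = 0
      rw [sum_comm]
      refine sum_eq_zero fun b _ => ?_
      rw [sum_comm]
      refine sum_eq_zero fun b' _ => ?_
      rw [← mul_sum, Ctx.sum_cen, mul_zero]
    rw [h1, mul_zero]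
  have hmain := hSP S M hS hsym hinv hb hsupp hrow v
  have hv2 : ∑ x, v x ^ 2 ≤ (G.n : ℝ) := by
    calc ∑ x, v x ^ 2 ≤ ∑ _x : G.Y, (1 : ℝ) := sum_le_sum fun x _ => by
          rw [sq_le_one_iff_abs_le_one]
          show |ind (G.Q S d x) * H x| ≤ 1
          rw [abs_mul]
          exact mul_le_one₀ (abs_ind_le _) (abs_nonneg _) (hH x)
      _ = G.n := by simp
  have hterm : ∀ x y, v x * M x y * v y
      = ((G.n : ℝ) ^ 2)⁻¹ * ∑ b, ∑ b', (c b b' x * v x) * (c b b' y * v y) := fun x y => by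
    have h1 : ∑ b, ∑ b', (c b b' x * v x) * (c b b' y * v y) = v x * T x y * v y := by
      show _ = v x * (∑ b, ∑ b', c b b' x * c b b' y) * v y
      rw [mul_sum, sum_mul]
      refine sum_congr rfl fun b _ => ?_
      rw [mul_sum, sum_mul]
      exact sum_congr rfl fun b' _ => by ring
    rw [h1]
    show ind (G.Q S d x) * H x * (ind (G.Q S x y) * (((G.n : ℝ) ^ 2)⁻¹ * T x y))
        * (ind (G.Q S d y) * H y)
      = ((G.n : ℝ) ^ 2)⁻¹ * (ind (G.Q S d x) * H x * T x y * (ind (G.Q S d y) * H y))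
    by_cases h2 : G.Q S d x
    · by_cases h3 : G.Q S d y
      · rw [ind_pos (h2.symm.trans h3)]; ring
      · rw [ind_neg h3]; ring
    · rw [ind_neg h2]; ring
  have hsq : ∀ b b', (∑ y ∈ G.cls S d, G.cen S (R b b') y * H y) ^ 2
      = ∑ x, ∑ y, (c b b' x * v x) * (c b b' y * v y) := fun b b' => by
    have h1 : ∑ y ∈ G.cls S d, G.cen S (R b b') y * H y = ∑ y, c b b' y * v y := by
      rw [Ctx.cls, ← sum_ind_mul]
      exact sum_congr rfl fun y _ => by
        show _ = G.cen S (R b b') y * (ind (G.Q S d y) * H y)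
        ring
    rw [h1, sq, sum_mul_sum]
  have hL : ∑ x, ∑ y, v x * M x y * v y
      = ((G.n : ℝ) ^ 2)⁻¹ * ∑ b, ∑ b', (∑ y ∈ G.cls S d, G.cen S (R b b') y * H y) ^ 2 := by
    simp only [hterm, hsq]
    rw [← ai2a_swap fun x y b b' => (c b b' x * v x) * (c b b' y * v y), mul_sum]
    exact sum_congr rfl fun x _ => (mul_sum _ _ _).symm
  rw [hL] at hmain
  have h1 := (le_abs_self _).trans hmain
  rw [inv_mul_le_iff₀ hN2] at h1
  calc _ ≤ (G.n : ℝ) ^ 2 * (θ * G.n * ∑ x, v x ^ 2) := h1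
    _ ≤ (G.n : ℝ) ^ 2 * (θ * G.n * G.n) := by gcongr
    _ = θ * (G.n : ℝ) ^ 4 := by ring

end Pool.Agent.P.MP_f1a348_lc.TO

end

section

/-! Step ASP. -/

set_option autoImplicit false
set_option linter.unusedSectionVars false

namespace Pool.Agent.P.MP_f1a348_lc.TO

open Equiv Finset Filter
open scoped Classical

theorem asp_poly {P : APar} {Γ : Ctx P} {S : Finset Γ.Y} {M : Matrix Γ.Y Γ.Y ℝ}
    (hc : S.card + 3 ≤ Γ.k) (h1 : Γ.G.Inv2 S M) (h2 : ∀ x y, M x y ≠ 0 → Γ.Q S x y)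
    (h3 : ∀ x, ∑ y, M x y = 0) (q : Polynomial ℝ) :
    Γ.G.Inv2 S (Polynomial.aeval M q * M) ∧
      (∀ x y, (Polynomial.aeval M q * M) x y ≠ 0 → Γ.Q S x y) ∧
      ∀ x, ∑ y, (Polynomial.aeval M q * M) x y = 0 := by
  refine (and_assoc.1 ⟨?_, fun x => ?_⟩)
  · induction q using Polynomial.induction_on with
    | C a =>
      rw [Polynomial.aeval_C, ← Algebra.smul_def]
      exact ⟨fun f x y hf => congrArg (a * ·) (h1 f x y hf),
        fun x y h => h2 x y (right_ne_zero_of_mul h)⟩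
    | add p q hp hq =>
      rw [map_add, add_mul]
      refine ⟨fun f x y hf => congrArg₂ (· + ·) (hp.1 f x y hf) (hq.1 f x y hf), fun x y h => ?_⟩
      by_contra c
      exact h (by
        rw [Matrix.add_apply, not_not.1 (mt (hp.2 x y) c), not_not.1 (mt (hq.2 x y) c), add_zero])
    | monomial n a ih =>
      rw [pow_succ, ← mul_assoc, map_mul, Polynomial.aeval_X]
      refine ⟨ih.1.mul h1 hc, fun x y h => ?_⟩
      rw [Matrix.mul_apply] at h
      obtain ⟨z, -, hz⟩ := exists_ne_zero_of_sum_ne_zero h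
      exact (ih.2 x z (left_ne_zero_of_mul hz)).trans (h2 z y (right_ne_zero_of_mul hz))
  · simp only [Matrix.mul_apply]
    rw [sum_comm]
    simp only [← mul_sum, h3, mul_zero, sum_const_zero]

theorem p_ASP (hAGEO : S_AGEO) (hASP1 : S_ASP1) (hASP2 : S_ASP2) :
    S_ASP := by
  intro P s
  filter_upwards [hAGEO P s, hASP1 P s, hASP2 P s, ev_k P (s + 3)] with Γ h g1 g2 hk L θ hL hθ hn
    S M hS m1 m2 m3 m4 m5 v
  by_contra c
  obtain ⟨p, p0, p1, p2, p3, p4⟩ := lin_eig M (Matrix.IsSymm.ext fun x y => m1 y x) m3 hθ v (by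
    have e : ∑ x, ∑ y, v x * M x y * v y = v ⬝ᵥ M.mulVec v := by
      simp only [dotProduct, Matrix.mulVec, mul_sum, mul_assoc]
    rw [← e]
    simpa only [dotProduct, sq] using not_le.1 c)
  have e : Polynomial.aeval M p = Polynomial.aeval M p.divX * M := by
    conv_lhs => rw [← p.divX_mul_X_add, Polynomial.coeff_zero_eq_eval_zero, p0]
    simp
  obtain ⟨a1, a2, a3⟩ := asp_poly (by omega) m2 m4 m5 p.divX
  rw [← e] at a1 a2 a3
  obtain ⟨x0, x1, x2⟩ := g1 S _ hS (fun x y => (p1.apply x y).symm) p3 p2 a1 a2 a3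
  have b1 : ((Γ.cls S x0).card : ℝ) ≤
      P.C (s + 1) * (((Polynomial.aeval M p).rank : ℝ) + 1) ^ L := by
    exact_mod_cast g2 L hL S _ x0 hS a1 x1 x2
  have b2 : (Γ.n : ℝ) < (P.K : ℝ) ^ (s + 2) * (Γ.cls S x0).card := by
    exact_mod_cast h.qlg hS x1
  have b3 : ((Polynomial.aeval M p).rank : ℝ) ≤ (θ ^ 2)⁻¹ := by
    rw [← mul_one (θ ^ 2)⁻¹, le_inv_mul_iff₀ (by positivity)]
    exact p4
  have b4 : ((Γ.cls S x0).card : ℝ) ≤ P.C (s + 1) * ((θ ^ 2)⁻¹ + 1) ^ L :=
    b1.trans (by gcongr)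
  have := mul_le_mul_of_nonneg_left b4 (pow_pos P.K_pos (s + 2)).le
  rw [mul_assoc] at hn
  linarith

end Pool.Agent.P.MP_f1a348_lc.TO

end

section

/-! Step AST2. -/

set_option autoImplicit false
set_option linter.unusedSectionVars false

namespace Pool.Agent.P.MP_f1a348_lc.TO

open Equiv Finset Filter
open scoped Classical

theorem p_AST2 (hAGEO : S_AGEO) (hAMALG : S_AMALG) :
    S_AST2 := by
  intro P s
  filter_upwards [hAGEO P (s + 4), hAMALG P (s + 4)] with G h hA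
  intro S T d x e p hT hc l
  have h1 : (T.erase (e l)).card ≤ s := card_erase_le.trans hT
  have h2 : ((univ.erase l).image p).card ≤ 3 :=
    card_image_le.trans (card_erase_le.trans (by simp))
  have h3 : (T.erase (e l) ∪ (univ.erase l).image p).card ≤ s + 4 :=
    (card_union_le _ _).trans (by omega)
  have h4 : (insert x (T.erase (e l))).card ≤ s + 4 := (card_insert_le _ _).trans (by omega)
  have h5 : ∀ b ∈ T.erase (e l) ∪ (univ.erase l).image p,
      b ∈ G.acl (insert x (T.erase (e l))) := fun b hb => by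
    rcases mem_union.1 hb with hb | hb
    · exact h.mem h4 (mem_insert_of_mem hb)
    · obtain ⟨m, hm, rfl⟩ := mem_image.1 hb
      exact hc.ap l m (ne_of_mem_erase hm).symm
  have h6 : p l ∉ G.acl T := fun h7 => hc.hx (h.toPre.drop (by omega) h7 (hc.hxp l))
  obtain ⟨y, hy1, hy2, hy3⟩ := hA (T.erase (e l)) (T.erase (e l) ∪ (univ.erase l).image p)
    (insert x T) (e l) (p l) (p l) subset_union_left h3 ((card_insert_le _ _).trans (by omega))
    (Ctx.Q.refl _ _) (fun h7 => hc.ge l (h.cl h4 h3 h5 h7))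
    (by rw [insert_erase (hc.he l)]; exact h6) (fun h7 => hc.gp l (h.cl h4 h3 h5 h7))
  rw [insert_erase (hc.he l)] at hy2
  refine ⟨y, hy1, hy2, fun m hm => ?_⟩
  exact (h.qe2 ((hc.sub l).trans subset_union_left) h3
    (mem_union_right _ (mem_image_of_mem _ (mem_erase.2 ⟨hm.symm, mem_univ m⟩))) hy3).swap.symm

end Pool.Agent.P.MP_f1a348_lc.TO

end

section

/-! Step AUN1. -/

set_option autoImplicit false
set_option linter.unusedSectionVars false

namespace Pool.Agent.P.MP_f1a348_lc.TO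

open Equiv Finset Filter
open scoped Classical

theorem p_AUN1 (hAGEO : S_AGEO) (hAFEW1 : S_AFEW1) (hAB1 : S_AB1) (hAUN0 : S_AUN0) :
    S_AUN1 := by
  intro P s
  filter_upwards [hAGEO P (2 * s + 4), hAFEW1 P s, hAB1 P s, hAUN0 P s] with Γ h h1 h2 h3
  intro q H S a c hH hs ha hp
  choose V v1 v2 v3 using fun i => h1 S a (c i) (by omega) ha
  have c1 : (univ.biUnion V).card ≤ 2 * P.K ^ 2 * q := by
    refine (card_biUnion_le_card_mul _ _ _ fun i _ => v1 i).trans ?_
    simp [mul_comm]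
  have c2 : (insert a S).card ≤ s := by have := card_insert_le a S; omega
  obtain ⟨B, b1, b2, b3, b4⟩ := h3 (insert a S) (univ.biUnion V) c2 (by omega) fun v hv => by
    obtain ⟨i, -, hi⟩ := mem_biUnion.1 hv
    exact (v2 i v hi).2
  refine ⟨B, by omega, b2, ?_, fun p hp => ?_, fun i x hx hx' => ?_⟩
  · have i1 : Γ.Ind S {a} := fun z hz => by
      rw [mem_singleton.1 hz]; simpa using ha
    have i2 := h.join (A' := B) (by omega) (by rw [card_singleton]; omega) (by omega) i1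
      (by rwa [union_comm, ← insert_eq]) a (by simp)
    have i3 : a ∉ B := fun hB => b2 a hB (h.mem (by
      have := card_union_le (insert a S) (B.erase a)
      have := card_erase_le (s := B) (a := a)
      omega) (by simp))
    have : ({a} ∪ B).erase a = B := by grind
    rwa [this] at i2
  · obtain ⟨v, hv, e⟩ := b3 p hp
    obtain ⟨i, -, hi⟩ := mem_biUnion.1 hv
    exact ⟨i, (v2 i v hi).1.trans (h.qd (subset_insert _ _) (by omega) e)⟩
  · obtain ⟨v, hv, e⟩ := v3 i x hx hx'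
    obtain ⟨p, p1, p2⟩ := b4 v (mem_biUnion.2 ⟨i, mem_univ _, hv⟩)
    exact ⟨p, p1, (h2 S S a (c i) a x v H subset_rfl (by omega) hs (hp i) (Ctx.Q.refl _ _) hx ha
      hx' (v2 i v hv).2 (hx.symm.trans (v2 i v hv).1) (Sys.E2_iff.2 e.symm)).trans p2⟩

end Pool.Agent.P.MP_f1a348_lc.TO

end
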