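import Pool.Agent.P.MP_f1a348_lc.TO.AIface

section

/-! Step ACNT. -/

set_option autoImplicit false
set_option linter.unusedSectionVars false

namespace Pool.Agent.P.MP_f1a348_lc.TO

open Equiv Finset Filter
open scoped Classical

theorem acnt_comm {Z : Type} [Fintype Z] (G : Z → Z → Z → Z → ℝ) :
    ∑ w, ∑ x, ∑ w', ∑ x', G w x w' x' = ∑ w', ∑ x', ∑ w, ∑ x, G w x w' x' := by
  calc _ = ∑ w, ∑ w', ∑ x', ∑ x, G w x w' x' :=
        sum_congr rfl fun _ _ => sum_comm.trans (sum_congr rfl fun _ _ => sum_comm)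
    _ = _ := sum_comm.trans (sum_congr rfl fun _ _ => sum_comm)

theorem acnt_le {Z : Type} [Fintype Z] {F : Z → ℝ} {t : ℝ} (h : ∀ z, F z ≤ t) :
    ∑ z, F z ≤ Fintype.card Z * t :=
  (sum_le_sum fun z _ => h z).trans_eq (by simp)

theorem acnt_mem {Z : Type} [Fintype Z] {C : ℕ} {A : Finset Z} (h : A.card ≤ C) :
    ∑ z, ind (z ∈ A) ≤ C := by
  rw [sum_ind, show fil (· ∈ A) = A by ext; simp]
  exact_mod_cast h

theorem acnt_or (a b c : Prop) : ind (a ∨ b ∨ c) ≤ ind a + ind b + ind c := by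
  by_cases ha : a <;> by_cases hb : b <;> by_cases hc : c <;> simp [ind, ha, hb, hc]

theorem p_ACNT :
    S_ACNT := by
  intro Z _ C A0 A1 A2 A3 B3 h0 h1 h2 h3 h4
  have hn := Nat.cast_nonneg (α := ℝ) (Fintype.card Z)
  have hC := Nat.cast_nonneg (α := ℝ) C
  rw [acnt_comm, acnt_comm fun w x w' x' => ind (x ∈ A3 w w' x' ∧ _)]
  refine ⟨(acnt_le fun w' => acnt_le fun x' => sum_comm.trans_le
    (acnt_le fun x => acnt_mem (h4 w' x x'))).trans_eq (by ring), ?_⟩
  have a : ∀ w' x' w, ∑ x, ind (x ∈ A3 w w' x' ∧ (w' ∈ A0 ∨ x' ∈ A1 w' ∨ w ∈ A2 w' x')) ≤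
      C * (ind (w' ∈ A0) + ind (x' ∈ A1 w') + ind (w ∈ A2 w' x')) := fun w' x' w => by
    simp only [ind_and, ← sum_mul]
    exact mul_le_mul (acnt_mem (h3 _ _ _)) (acnt_or _ _ _) (ind_nonneg _) hC
  refine (sum_le_sum fun w' _ => sum_le_sum fun x' _ => sum_le_sum fun w _ => a w' x' w).trans ?_
  have b0 : ∑ w', ∑ _x' : Z, ∑ _w : Z, ind (w' ∈ A0) ≤
      Fintype.card Z * (Fintype.card Z * (C : ℝ)) :=
    sum_comm.trans_le (acnt_le fun _ => sum_comm.trans_le (acnt_le fun _ => acnt_mem h0))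
  have b1 : ∑ w', ∑ x', ∑ _w : Z, ind (x' ∈ A1 w') ≤
      Fintype.card Z * (Fintype.card Z * (C : ℝ)) :=
    acnt_le fun w' => sum_comm.trans_le (acnt_le fun _ => acnt_mem (h1 w'))
  have b2 : ∑ w', ∑ x', ∑ w, ind (w ∈ A2 w' x') ≤ Fintype.card Z * (Fintype.card Z * (C : ℝ)) :=
    acnt_le fun w' => acnt_le fun x' => acnt_mem (h2 w' x')
  simp only [← mul_sum, sum_add_distrib]
  exact (mul_le_mul_of_nonneg_left (add_le_add (add_le_add b0 b1) b2) hC).trans_eq (by ring)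

end Pool.Agent.P.MP_f1a348_lc.TO

end

section

/-! Step ACP1. -/

set_option autoImplicit false
set_option linter.unusedSectionVars false

namespace Pool.Agent.P.MP_f1a348_lc.TO

open Equiv Finset Filter
open scoped Classical

theorem p_ACP1 (hAGEO : S_AGEO) (hAFINV : S_AFINV) :
    S_ACP1 := by
  intro P s
  filter_upwards [hAFINV P s] with G hF θ hθ hI S a c i ψ w x w' x' hs hψ hψ1 hw
  have hb : 0 ≤ θ * (G.n : ℝ) := by positivity
  by_cases hQ : G.Q S a w
  swap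
  · unfold Ctx.csT
    rw [Ctx.ff_eq_zero fun h => hQ h.1]
    simp only [abs_zero, zero_mul]
    positivity
  have hsub : S ⊆ insert w' (insert x (insert x' (G.S2 S a c))) :=
    (Ctx.sub_S2 S a c).trans ((subset_insert _ _).trans ((subset_insert _ _).trans
      (subset_insert _ _)))
  have hS2 : G.S2 S a c ⊆ insert w' (insert x (insert x' (G.S2 S a c))) :=
    (subset_insert _ _).trans ((subset_insert _ _).trans (subset_insert _ _))
  have hcard : (insert w' (insert x (insert x' (G.S2 S a c)))).card ≤ s + 4 := by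
    have h1 := Ctx.card_S2 S a c
    have h2 := card_insert_le x' (G.S2 S a c)
    have h3 := card_insert_le x (insert x' (G.S2 S a c))
    have h4 := card_insert_le w' (insert x (insert x' (G.S2 S a c)))
    omega
  have key : ∀ j, |∑ y, G.ff S a (c j) w y * G.ff S a (c j) w' y * ψ j x y * ψ j x' y| ≤
      θ * G.n := by
    intro j
    have e : ∑ y, G.ff S a (c j) w y * G.ff S a (c j) w' y * ψ j x y * ψ j x' y =
        ∑ y, G.ff S a (c j) w y * (G.ff S a (c j) w' y * ψ j x y * ψ j x' y) :=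
      sum_congr rfl fun y _ => by ring
    rw [e, Ctx.sum_ff_mul (c j) hQ]
    refine hI S _ (c j) w (fun b y => G.G.E2 S b y a (c j)) _ hsub hcard
      (hS2 (Ctx.c_mem_S2 S a c j)) (Sys.inv2_E2 S a (c j)) hw ?_ ?_
    · intro f y hf
      have h1 := (hF S _ a (c j) hsub (by omega) (hS2 (Ctx.a_mem_S2 S a c))
        (hS2 (Ctx.c_mem_S2 S a c j))).fix subset_rfl (mem_insert_self w' _) f y hf
      have h2 := (hψ j).fix hsub (mem_insert_of_mem (mem_insert_self x _)) f y hf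
      have h3 := (hψ j).fix hsub (mem_insert_of_mem (mem_insert_of_mem (mem_insert_self x' _)))
        f y hf
      show G.ff S a (c j) w' (f y) * ψ j x (f y) * ψ j x' (f y) = _
      rw [h1, h2, h3]
    · intro y
      rw [abs_mul, abs_mul]
      exact mul_le_one₀ (mul_le_one₀ (Ctx.abs_ff_le _ _ _ _ _) (abs_nonneg _) (hψ1 _ _ _))
        (abs_nonneg _) (hψ1 _ _ _)
  unfold Ctx.csT
  have h1 : |G.ff S a (c i) w x| * |G.ff S a (c i) w' x'| ≤ 1 :=
    mul_le_one₀ (Ctx.abs_ff_le _ _ _ _ _) (abs_nonneg _) (Ctx.abs_ff_le _ _ _ _ _)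
  have h2 : ∏ j ∈ univ.erase i,
      |∑ y, G.ff S a (c j) w y * G.ff S a (c j) w' y * ψ j x y * ψ j x' y| ≤
      (θ * G.n) ^ (P.q - 1) := by
    refine (prod_le_prod (fun _ _ => abs_nonneg _) fun j _ => key j).trans (le_of_eq ?_)
    rw [prod_const, card_erase_of_mem (mem_univ i), card_univ, Fintype.card_fin]
  calc _ ≤ 1 * (θ * G.n) ^ (P.q - 1) :=
        mul_le_mul h1 h2 (prod_nonneg fun _ _ => abs_nonneg _) zero_le_one
    _ = _ := one_mul _

end Pool.Agent.P.MP_f1a348_lc.TO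

end

section

/-! Step AFEW0. -/

set_option autoImplicit false
set_option linter.unusedSectionVars false

namespace Pool.Agent.P.MP_f1a348_lc.TO

open Equiv Finset Filter
open scoped Classical

theorem p_AFEW0 (hAGEO : S_AGEO) :
    S_AFEW0 := by
  intro P s
  refine ⟨P.K ^ (s + 1 + 2), ?_⟩
  filter_upwards [hAGEO P (s + 1)] with Γ h
  intro S x hS _
  have hc : (insert x S).card ≤ s + 1 := (card_insert_le _ _).trans (by omega)
  obtain ⟨V, -, h2, h3⟩ := lin_reps (Sys.E1.equiv (Γ := Γ.G) (insert x S))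
    (fil fun y => y ∉ Γ.acl (insert x S)) univ (P.K ^ (s + 1 + 2)) ⟨x, mem_univ x⟩ (fun y hy => by
      have h1 := h.lrg (w := y) hc (by simpa using hy)
      refine h1.le.trans (Nat.mul_le_mul_left _ (card_le_card fun z hz => ?_))
      exact mem_filter.2 ⟨mem_univ z, Sys.mem_atom.1 hz⟩)
  exact ⟨V, h2, fun y _ hy => h3 y (by simpa using hy)⟩

end Pool.Agent.P.MP_f1a348_lc.TO

end

section

/-! Step AFM. -/

set_option autoImplicit false
set_option linter.unusedSectionVars false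

namespace Pool.Agent.P.MP_f1a348_lc.TO

open Equiv Finset Filter
open scoped Classical

theorem p_AFM (hAPRE : S_APRE) (hAFL : S_AFL) (hAFT : S_AFT) (hAFS : S_AFS) :
    S_AFM := by
  intro P s
  filter_upwards [hAFL P s, hAFT P s, hAFS P s,
    ev_k P (2 * s + 2 * (P.C s + P.K ^ (s + 2)))] with G hl ht hs hk
  refine ⟨fun {S A B f g} h1 h2 h3 hf hg hAB => ?_, fun {S A B f} h1 h2 hf hB => ?_⟩
  · obtain ⟨f0, f', f1, f2, f3⟩ := hf
    obtain ⟨g0, g', g1, g2, g3⟩ := hg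
    have hr := hl.repc h1
    have c1 := card_union_le (S ∪ B) (G.rep S)
    have c2 := card_union_le S B
    have c3 : ((G.rep S).image f').card ≤ (G.rep S).card := card_image_le
    obtain ⟨g'', e1, e2⟩ := Sys.exts g2 ((G.rep S).image f') (by omega)
    have hSL : G.SL S (B ∪ (G.rep S).image f') g'' := by
      refine ⟨fun x hx => ?_, g'', fun _ _ => rfl, Sys.mono e2 ?_, fun r hr => ?_⟩
      · rw [e1 x (by simp [hx]), g1 x (by simp [hx]), g0 x hx]
      · intro z hz; simp only [mem_union] at hz ⊢; tauto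
      · rw [e1 r (by simp [hr])]; exact g3 r hr
    have hm : ∀ x ∈ S ∪ A, f x ∈ S ∪ B := fun x hx => by
      rcases mem_union.1 hx with hx | hx
      · rw [f0 x hx]; exact mem_union_left _ hx
      · exact hAB x hx
    refine ⟨fun x hx => by simp [f0 x hx, g0 x hx], g'' * f', fun x hx => ?_,
      Sys.mul' f2 e2 fun x hx => ?_, fun r hr => ?_⟩
    · rw [Perm.mul_apply, Perm.mul_apply, f1 x hx, e1 _ (mem_union_left _ (hm x hx)),
        g1 _ (hm x hx)]
    · rcases mem_union.1 hx with hx | hx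
      · rw [f1 x hx]; exact mem_union_left _ (mem_union_left _ (hm x hx))
      · exact mem_union_right _ (mem_image_of_mem _ hx)
    · exact (f3 r hr).trans (hs.pres h1 hSL (mem_union_right _ (mem_image_of_mem _ hr)))
  · obtain ⟨f0, g, f1, f2, f3⟩ := hf
    have hr := hl.repc h1
    have c1 := card_union_le (S ∪ A) (G.rep S)
    have c2 := card_union_le S A
    have c3 : ((S ∪ A ∪ G.rep S).image g).card ≤ (S ∪ A ∪ G.rep S).card := card_image_le
    obtain ⟨h, e1, e2⟩ := Sys.exts (G.G.inv f2) (G.rep S) (by omega)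
    have hm : ∀ y ∈ S ∪ B, ∃ x ∈ S ∪ A, f x = y := fun y hy => by
      rcases mem_union.1 hy with hy | hy
      · exact ⟨y, mem_union_left _ hy, f0 y hy⟩
      · exact hB y hy
    have him : ∀ y ∈ S ∪ B, y ∈ (S ∪ A ∪ G.rep S).image g := fun y hy => by
      obtain ⟨x, hx, rfl⟩ := hm y hy
      exact mem_image.2 ⟨x, mem_union_left _ hx, f1 x hx⟩
    have hh : ∀ y ∈ S ∪ B, h y = f⁻¹ y := fun y hy => by
      rw [e1 y (him y hy)]
      obtain ⟨x, hx, rfl⟩ := hm y hy
      rw [Perm.inv_eq_iff_eq]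
      simp [f1 x hx]
    have hfix : ∀ x ∈ S, f⁻¹ x = x := fun x hx => by
      rw [Perm.inv_eq_iff_eq]; exact (f0 x hx).symm
    refine ⟨hfix, h, hh, Sys.mono e2 (union_subset_union_left him), fun r hr => ?_⟩
    have hgr : g r ∈ (S ∪ A ∪ G.rep S).image g := mem_image_of_mem _ (mem_union_right _ hr)
    have h4 := ht.qtr (f := h) h1 (Sys.mono e2 (insert_subset (mem_union_right _ hr)
      (insert_subset (mem_union_left _ hgr) fun z hz =>
        mem_union_left _ (him z (mem_union_left _ hz))))) (f3 r hr)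
    rw [Sys.image_fix fun x hx => (hh x (mem_union_left _ hx)).trans (hfix x hx), e1 _ hgr] at h4
    simpa using h4.symm

end Pool.Agent.P.MP_f1a348_lc.TO

end

section

/-! Step AGEO. -/

set_option autoImplicit false
set_option linter.unusedSectionVars false

namespace Pool.Agent.P.MP_f1a348_lc.TO

open Equiv Finset Filter
open scoped Classical

theorem p_AGEO (hAPRE : S_APRE) (hAFI : S_AFI) (hAFQ : S_AFQ) (hAFL : S_AFL) (hAFT : S_AFT) (hAFS : S_AFS) (hAFM : S_AFM) (hAFR : S_AFR) (hAFG : S_AFG) :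
    S_AGEO := by
  intro P s
  filter_upwards [hAPRE P s, hAFI P s, hAFQ P s, hAFL P s, hAFT P s, hAFS P s, hAFM P s,
    hAFR P s, hAFG P s] with Γ h1 h2 h3 h4 h5 h6 h7 h8 h9
  exact ⟨h1, h2, h3, h4, h5, h6, h7, h8, h9⟩

end Pool.Agent.P.MP_f1a348_lc.TO

end

section

/-! Step AINDS. -/

set_option autoImplicit false
set_option linter.unusedSectionVars false

namespace Pool.Agent.P.MP_f1a348_lc.TO

open Equiv Finset Filter
open scoped Classical

theorem p_AINDS (hAFEW1 : S_AFEW1) (hASP : S_ASP) (hAIND2 : S_AIND2) (hAIND1 : S_AIND1) :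
    S_AINDS := by
  intro P s ε hε
  have hK : (1 : ℝ) ≤ P.K := by have := P.hK; exact_mod_cast (by omega : 1 ≤ P.K)
  obtain ⟨L, hL⟩ : ∃ L, L = 2 * P.K ^ 2 := ⟨_, rfl⟩
  have L0 : 8 * L ≠ 0 := by have := P.hK; rw [hL]; positivity
  obtain ⟨D, hD⟩ : ∃ D : ℝ, D = (P.K : ℝ) ^ (2 * s + 5) := ⟨_, rfl⟩
  have D1 : 1 ≤ D := hD ▸ one_le_pow₀ hK
  obtain ⟨B, hB⟩ : ∃ B : ℝ, B = (P.K : ℝ) ^ (s + 2) * P.C (s + 1) * (2 * D ^ 2) ^ L := ⟨_, rfl⟩
  have e0 : 0 < min ε 1 := lt_min hε one_pos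
  filter_upwards [hAFEW1 P s, hASP P s, hAIND2 P s, hAIND1 P s, ev_real P 1,
    ev_real P (1 / ε ^ (8 * L)), ev_real P (B ^ 2 / min ε 1)] with Γ h1 h2 h3 h4 n1 n2 n3
  obtain ⟨θ, t0, ht⟩ : ∃ θ : ℝ, 0 < θ ∧ θ ^ (8 * L) = min ε 1 / Γ.n :=
    ⟨(min ε 1 / Γ.n) ^ (((8 * L : ℕ) : ℝ))⁻¹, by positivity,
      Real.rpow_inv_natCast_pow (by positivity) L0⟩
  have hn : Γ.n * θ ^ (8 * L) = min ε 1 := by rw [ht]; field_simp
  have t1 : θ ≤ 1 := (pow_le_one_iff_of_nonneg t0.le L0).1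
    (ht ▸ (div_le_one (by linarith)).2 ((min_le_right _ _).trans n1))
  have t2 : θ ≤ ε := (pow_le_pow_iff_left₀ t0.le hε.le L0).1 (by
    rw [ht, div_le_iff₀ (by linarith)]
    rw [div_le_iff₀ (by positivity)] at n2
    linarith [min_le_right ε 1])
  refine ⟨θ, t0.le, t2, ?_, h4 θ (h3 (θ ^ 2 / D) θ (by positivity) t0.le
    (by rw [← hD]; exact (div_mul_cancel₀ _ (by positivity)).le)
    (h2 L _ (fun S x hS hx => ?_) (by positivity) ?_))⟩
  · rw [show 16 * P.K ^ 2 = 8 * L by rw [hL]; ring, hn]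
    exact min_le_left _ _
  · obtain ⟨V, v1, -, v2⟩ := h1 S x x hS hx
    exact ⟨V, hL ▸ v1, v2⟩
  · have u1 : ((θ ^ 2 / D) ^ 2)⁻¹ + 1 ≤ 2 * D ^ 2 / θ ^ 4 := by
      have u2 : θ ^ 4 ≤ D ^ 2 := (pow_le_one₀ t0.le t1).trans (one_le_pow₀ D1)
      rw [show ((θ ^ 2 / D) ^ 2)⁻¹ = D ^ 2 / θ ^ 4 by field_simp, two_mul, add_div]
      exact add_le_add le_rfl ((one_le_div (by positivity)).2 u2)
    refine (mul_le_mul_of_nonneg_left (pow_le_pow_left₀ (by positivity) u1 L)
      (by positivity)).trans ?_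
    rw [div_pow, ← mul_div_assoc, ← hB, div_le_iff₀ (by positivity)]
    refine (pow_le_pow_iff_left₀ (by rw [hB]; positivity) (by positivity) two_ne_zero).1 ?_
    rw [div_le_iff₀ e0, ← hn] at n3
    refine n3.trans_eq ?_
    ring

end Pool.Agent.P.MP_f1a348_lc.TO

end

section

/-! Step AMALG. -/

set_option autoImplicit false
set_option linter.unusedSectionVars false

namespace Pool.Agent.P.MP_f1a348_lc.TO

open Equiv Finset Filter
open scoped Classical

theorem p_AMALG (hAGEO : S_AGEO) (hAIND0 : S_AIND0) :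
    S_AMALG := by
  intro P s
  have hdl := P.dl_pos (s + 3)
  filter_upwards [hAGEO P (s + 3), hAIND0 P (s + 1) (P.dl (s + 3) ^ 2 / 2) (by positivity),
    ev_real P (2 * ((P.C (s + 3) : ℝ) + 1) / P.dl (s + 3) ^ 2)] with Γ G hI hn
  intro S S' S'' b y1 y2 hS hc hc'' h12 hb h1 h2
  have cS : S.card ≤ s := (card_le_card hS).trans hc
  have c1 := card_insert_le b S
  have c2 := card_insert_le b S'
  obtain ⟨d, hd1, hd2⟩ := G.qav (by omega) h2 (insert b S') (by omega)
  have c3 := card_insert_le d S'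
  have c4 := card_insert_le b (insert d S')
  have hb' : b ∉ Γ.acl (insert d S') := G.toPre.nexch (by omega) hb hd2
  obtain ⟨e, he1, he2⟩ := G.qav (by omega) h1 (insert b (insert d S')) (by omega)
  have hR : Γ.G.Inv3 S (fun x1 x2 y => Γ.Q (insert x1 S) x2 y) := by
    refine Sys.Inv3.of_imp fun f x y z hf h => ?_
    have := card_insert_le x S
    refine G.q_tr hf.1 (insert_subset (by simp) subset_union_left) (by simp) (by simp)
      (fun w hw => ?_) (by omega) h
    rcases mem_insert.1 hw with rfl | hw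
    · exact ⟨x, mem_insert_self _ _, rfl⟩
    · exact ⟨w, mem_insert_of_mem hw, hf.2 w hw⟩
  have hH : Γ.G.Inv1 (insert d S') (fun y => ind (Γ.Q S' d y)) := by
    intro f x hf
    have := (Ctx.Q.inv2 S').fix (subset_insert d S') (mem_insert_self d S') f x hf
    show ind _ = ind _
    rw [this]
  have key := hI.1 S (insert d S') d b e _ _ (hS.trans (subset_insert _ _)) (by omega)
    (mem_insert_self _ _) hR hb' he2 hH (fun y => abs_ind_le _)
  have hde : Γ.Q S d e :=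
    ((G.qd hS (by omega) hd1).symm.trans h12.symm).trans
      (G.qd (subset_insert b S) (by omega) he1)
  set p : Γ.Y → Prop := fun y => Γ.Q (insert b S) e y with hp
  have e1 : ∀ y ∈ Γ.cls S d, Γ.cen S p y * ind (Γ.Q S' d y) =
      ind (p y ∧ Γ.Q S' d y) - Γ.den S p d * ind (Γ.Q S' d y) := by
    intro y hy
    rw [Ctx.cen, Ctx.den_eq p (Ctx.mem_cls.1 hy), ind_and]; ring
  have eW : (fil fun z => z ∈ Γ.cls S d ∧ Γ.Q S' d z) = Γ.cls S' d := by
    ext z
    simp only [mem_fil, Ctx.mem_cls]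
    exact ⟨fun h => h.2, fun h => ⟨G.qd hS (by omega) h, h⟩⟩
  have eU : (fil fun z => z ∈ Γ.cls S d ∧ p z) = Γ.cls (insert b S) e := by
    ext z
    simp only [mem_fil, Ctx.mem_cls]
    exact ⟨fun h => h.2, fun h => ⟨hde.trans (G.qd (subset_insert b S) (by omega) h), h⟩⟩
  have key2 : |∑ y ∈ Γ.cls S d, Γ.cen S p y * ind (Γ.Q S' d y)| ≤ P.dl (s + 3) ^ 2 / 2 * Γ.n :=
    key
  rw [sum_congr rfl e1, sum_sub_distrib, ← mul_sum, sum_ind_mem, sum_ind_mem, eW] at key2
  have hU := (G.qlg (by omega : (insert b S).card ≤ s + 3)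
    (G.qnacl (by omega) he1 h1)).real
  have hW := (G.qlg (by omega : S'.card ≤ s + 3) (G.qnacl (by omega) hd1 h2)).real
  have hden := Ctx.den_mul S p d
  rw [eU] at hden
  have hD : ((Γ.cls S d).card : ℝ) ≤ Γ.n := by exact_mod_cast card_le_univ _
  have hD0 : (0 : ℝ) < (Γ.cls S d).card := by exact_mod_cast Ctx.cls_pos S d
  have hd3 : P.dl (s + 3) ≤ Γ.den S p d := by
    by_contra hlt
    push Not at hlt
    have := Ctx.den_nonneg S p d
    nlinarith
  have hn0 : (0 : ℝ) ≤ Γ.n := Nat.cast_nonneg _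
  have hm : P.dl (s + 3) * (P.dl (s + 3) * Γ.n) ≤ Γ.den S p d * (Γ.cls S' d).card :=
    mul_le_mul hd3 hW.le (by positivity) (Ctx.den_nonneg S p d)
  rw [div_le_iff₀ (by positivity)] at hn
  have hA : ((Γ.acl S'').card : ℝ) ≤ P.C (s + 3) := by
    exact_mod_cast G.card (by omega : S''.card ≤ s + 3)
  have hlt : (Γ.acl S'').card <
      (fil fun z => z ∈ Γ.cls S d ∧ (p z ∧ Γ.Q S' d z)).card := by
    have := (abs_le.1 key2).1
    have h5 : ((Γ.acl S'').card : ℝ) <
        ((fil fun z => z ∈ Γ.cls S d ∧ (p z ∧ Γ.Q S' d z)).card : ℝ) := by nlinarith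
    exact_mod_cast h5
  obtain ⟨y, hy1, hy2⟩ := exists_mem_notMem_of_card_lt_card hlt
  obtain ⟨-, hy3, hy4⟩ := mem_fil.1 hy1
  exact ⟨y, hy2, he1.trans hy3, hd1.trans hy4⟩

end Pool.Agent.P.MP_f1a348_lc.TO

end

section

/-! Step ANC. -/

set_option autoImplicit false
set_option linter.unusedSectionVars false

namespace Pool.Agent.P.MP_f1a348_lc.TO

open Equiv Finset Filter
open scoped Classical

theorem p_ANC (hAPLAT : S_APLAT) (hACSYM : S_ACSYM) (hASTAR : S_ASTAR) :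
    S_ANC := by
  intro P r t
  obtain ⟨s0, h0⟩ := hAPLAT P (3 * r) (fun m => 4 * (m + t) + 4) fun a b h => by
    show 4 * (a + t) + 4 ≤ 4 * (b + t) + 4
    omega
  refine ⟨s0, ?_⟩
  filter_upwards [h0, hACSYM P (4 * (s0 + t) + 4), hASTAR P (4 * (s0 + t) + 4)] with G h1 h2 h3
  obtain ⟨S, d, hS, hp1, hp2⟩ := h1
  obtain ⟨e, he, hr⟩ := lin_sel (q := r) (fun i j => G.Circ S (d i) (d j) (S.card + t))
    (fun a b h => h2 S _ _ _ (by omega) h) fun a i j l hi hj hl hij hil hjl ri rj rl => by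
      refine h3 S (d a) ![d i, d j, d l] (S.card + t) (4 * (S.card + t) + 4) le_rfl (by omega)
        (fun m => ?_) (fun m m' hm => ?_) fun m => ?_
      · fin_cases m
        exacts [(hp2 i a hi).2, (hp2 j a hj).2, (hp2 l a hl).2]
      · fin_cases m <;> fin_cases m'
        exacts [absurd rfl hm, (hp2 i j hij).2, (hp2 i l hil).2, (hp2 j i hij.symm).2,
          absurd rfl hm, (hp2 j l hjl).2, (hp2 l i hil.symm).2, (hp2 l j hjl.symm).2,
          absurd rfl hm]
      · fin_cases m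
        exacts [ri, rj, rl]
  refine ⟨S, fun i => d (e i), hS, ⟨fun i => hp1 _, fun i j hij => ?_⟩, hr⟩
  have := hp2 (e i) (e j) (he.ne hij)
  exact ⟨this.1, this.2.anti (by show S.card + t ≤ 4 * (S.card + t) + 4; omega)⟩

end Pool.Agent.P.MP_f1a348_lc.TO

end

section

/-! Step ANONG. -/

set_option autoImplicit false
set_option linter.unusedSectionVars false

namespace Pool.Agent.P.MP_f1a348_lc.TO

open Equiv Finset Filter
open scoped Classical

theorem p_ANONG (hAGEO : S_AGEO) (hAIND0 : S_AIND0) (hAM1 : S_AM1) (hABAD : S_ABAD) (hANG1 : S_ANG1) :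
    S_ANONG := by
  intro P s ε hε
  set C : ℝ := (P.C s : ℝ) with hC
  set q : ℝ := (P.q : ℝ) with hq
  have hC0 : 0 ≤ C := Nat.cast_nonneg _
  have hD : 0 < q ^ 2 * C + 1 := by positivity
  have hθ : 0 < ε / (2 * (q ^ 2 * C + 1)) := by positivity
  filter_upwards [hAGEO P s, hAIND0 P (s + 2) _ hθ, hAM1 P s, ev_real P (2 * (q ^ 2 * C * C) / ε),
    ev_n P 1] with G h hI hM hn hn1
  intro S a c H hH hT
  set θ := ε / (2 * (q ^ 2 * C + 1)) with hθd
  have hroom := hT.room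
  have hS2 := Ctx.card_S2 S a c
  have hnp : (0 : ℝ) < G.n := by exact_mod_cast hn1
  have hb : ∀ l, ∑ w, ∑ w', |∑ x, G.ff S a (c l) w x * G.ff S a (c l) w' x| ≤
      θ * (G.n : ℝ) ^ 3 + C * (G.n : ℝ) ^ 2 := by
    intro l
    have hc : c l ∉ G.acl S :=
      h.toPre.nmono (subset_insert a S) ((card_insert_le _ _).trans (by omega)) (hT.hc l)
    have h1 : ∀ w w', |G.MM S a (c l) w w'| ≤ θ * G.n + ind (w' ∈ G.acl (insert w S)) * G.n := by
      intro w w'
      by_cases hw : w' ∈ G.acl (insert w S)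
      · rw [ind_pos hw, one_mul]
        have : |G.MM S a (c l) w w'| ≤ G.n := by
          refine (abs_sum_le_sum_abs _ _).trans ((sum_le_sum fun x _ => ?_).trans
            (le_of_eq (show ∑ _x : G.Y, (1 : ℝ) = G.n by simp)))
          rw [abs_mul]
          exact mul_le_one₀ (Ctx.abs_ff_le _ _ _ _ _) (abs_nonneg _) (Ctx.abs_ff_le _ _ _ _ _)
        have : 0 ≤ θ * G.n := by positivity
        linarith
      · rw [ind_neg hw, zero_mul, add_zero]
        exact hM θ hθ.le hI.2 S a (c l) w w' (by omega) hc hw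
    have h2 : ∀ w, ∑ w', |G.MM S a (c l) w w'| ≤ θ * (G.n : ℝ) ^ 2 + C * G.n := by
      intro w
      refine (sum_le_sum fun w' _ => h1 w w').trans ?_
      rw [sum_add_distrib, ← sum_mul, ← sum_mul, sum_ind]
      have h3 : ((fil fun w' => w' ∈ G.acl (insert w S)).card : ℝ) ≤ C := by
        rw [hC]
        refine Nat.cast_le.2 (le_trans (card_le_card fun z hz => mem_fil.1 hz) (h.card ?_))
        exact (card_insert_le _ _).trans (by omega)
      have h4 : (∑ _i : G.Y, θ) = G.n * θ := by simp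
      rw [h4]
      nlinarith
    refine (sum_le_sum fun w _ => h2 w).trans (le_of_eq ?_)
    simp only [sum_const, card_univ, nsmul_eq_mul]
    ring
  have hpair : ∀ i j : Fin P.q, i ≠ j →
      ∑ u ∈ fil (fun u : Fin P.q → G.Y => u i ∈ G.acl (insert (u j) (G.S2 S a c))),
        G.TT S a c u ^ 2 ≤ C * (θ * G.n + C) * (G.n : ℝ) ^ P.q := by
    intro i j hij
    obtain ⟨l, hli, hlj⟩ : ∃ l : Fin P.q, l ≠ i ∧ l ≠ j := by
      obtain ⟨l, -, hl⟩ := exists_mem_notMem_of_card_lt_card (s := ({i, j} : Finset (Fin P.q)))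
        (t := univ) (lt_of_le_of_lt card_le_two (by have := P.q_ge; rw [card_univ, Fintype.card_fin]; omega))
      exact ⟨l, by simpa using hl⟩
    have h1 := hANG1 (Fin P.q) G.Y (fun i w x => G.ff S a (c i) w x) l
      (fun u => u i ∈ G.acl (insert (u j) (G.S2 S a c))) _ (fun _ _ _ => Ctx.abs_ff_le _ _ _ _ _)
      (fun u y => by
        rw [Function.update_of_ne hli.symm, Function.update_of_ne hlj.symm]) (hb l)
    have h2 := hABAD (Fin P.q) G.Y (fun z => G.acl (insert z (G.S2 S a c))) (P.C s) i j hij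
      (fun z => h.card ((card_insert_le _ _).trans (by omega)))
    rw [Fintype.card_fin] at h2
    have h3 : (G.n : ℝ) * ((fil fun u : Fin P.q → G.Y =>
        u i ∈ G.acl (insert (u j) (G.S2 S a c))).card : ℝ) ≤ C * (G.n : ℝ) ^ P.q := by
      rw [hC]; exact_mod_cast h2
    have hb0 : 0 ≤ θ * (G.n : ℝ) ^ 3 + C * (G.n : ℝ) ^ 2 := by positivity
    refine le_of_mul_le_mul_left ?_ (mul_pos hnp hnp)
    calc _ = (G.n : ℝ) * ((G.n : ℝ) * ∑ u ∈ fil (fun u : Fin P.q → G.Y =>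
            u i ∈ G.acl (insert (u j) (G.S2 S a c))), G.TT S a c u ^ 2) := mul_assoc _ _ _
      _ ≤ (G.n : ℝ) * (((fil fun u : Fin P.q → G.Y =>
            u i ∈ G.acl (insert (u j) (G.S2 S a c))).card : ℝ) *
            (θ * (G.n : ℝ) ^ 3 + C * (G.n : ℝ) ^ 2)) := mul_le_mul_of_nonneg_left h1 hnp.le
      _ ≤ C * (G.n : ℝ) ^ P.q * (θ * (G.n : ℝ) ^ 3 + C * (G.n : ℝ) ^ 2) := by
          rw [← mul_assoc]; exact mul_le_mul_of_nonneg_right h3 hb0
      _ = _ := by ring
  have hcov : ∑ u ∈ fil (fun u => ¬ G.Gen S a c u), G.TT S a c u ^ 2 ≤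
      ∑ p ∈ (univ : Finset (Fin P.q)).offDiag,
        ∑ u ∈ fil (fun u : Fin P.q → G.Y => u p.1 ∈ G.acl (insert (u p.2) (G.S2 S a c))),
          G.TT S a c u ^ 2 := by
    simp only [← sum_ind_mul]
    rw [sum_comm]
    refine sum_le_sum fun u _ => ?_
    rw [← sum_mul]
    by_cases hz : G.TT S a c u = 0
    · simp [hz]
    refine mul_le_mul_of_nonneg_right ?_ (sq_nonneg _)
    by_cases hg : G.Gen S a c u
    · rw [ind_neg (not_not.2 hg)]
      exact sum_nonneg fun _ _ => ind_nonneg _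
    rw [ind_pos hg]
    have hQ : ∀ i, G.Q S (c i) (u i) := by
      intro i
      by_contra hc
      exact hz (sum_eq_zero fun w _ => prod_eq_zero (mem_univ i)
        (Ctx.ff_eq_zero fun h1 => hc h1.2))
    obtain ⟨i, j, hij, hm⟩ : ∃ i j, i ≠ j ∧ u i ∈ G.acl (insert (u j) (G.S2 S a c)) := by
      by_contra hc
      push Not at hc
      exact hg ⟨hQ, hc⟩
    exact le_trans (le_of_eq (ind_pos hm).symm) (single_le_sum
      (f := fun p : Fin P.q × Fin P.q => ind (u p.1 ∈ G.acl (insert (u p.2) (G.S2 S a c))))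
      (fun _ _ => ind_nonneg _) (a := (i, j)) (by simpa using hij))
  refine hcov.trans ((sum_le_sum fun p hp => hpair p.1 p.2 (mem_offDiag.1 hp).2.2).trans ?_)
  rw [sum_const, nsmul_eq_mul]
  have h5 : (((univ : Finset (Fin P.q)).offDiag.card : ℕ) : ℝ) ≤ q ^ 2 := by
    rw [hq, offDiag_card, card_univ, Fintype.card_fin]
    exact_mod_cast (Nat.sub_le _ _).trans (pow_two _).ge
  have h6 : q ^ 2 * C * θ ≤ ε / 2 := by
    rw [hθd, mul_div_assoc', div_le_div_iff₀ (by positivity) two_pos]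
    nlinarith
  have h7 : q ^ 2 * C * C ≤ ε / 2 * G.n := by
    rw [div_le_iff₀ hε] at hn
    linarith
  have h8 : q ^ 2 * (C * (θ * G.n + C)) ≤ ε * G.n := by nlinarith
  calc _ ≤ q ^ 2 * (C * (θ * G.n + C) * (G.n : ℝ) ^ P.q) :=
        mul_le_mul_of_nonneg_right h5 (by positivity)
    _ = q ^ 2 * (C * (θ * G.n + C)) * (G.n : ℝ) ^ P.q := by ring
    _ ≤ ε * G.n * (G.n : ℝ) ^ P.q := mul_le_mul_of_nonneg_right h8 (by positivity)
    _ = _ := by ring

end Pool.Agent.P.MP_f1a348_lc.TO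

end

section

/-! Step AROOT. -/

set_option autoImplicit false
set_option linter.unusedSectionVars false

namespace Pool.Agent.P.MP_f1a348_lc.TO

open Equiv Finset Filter
open scoped Classical

theorem p_AROOT (hAGEO : S_AGEO) (hAB1 : S_AB1) :
    S_AROOT := by
  intro P s
  filter_upwards [hAGEO P (s + 2), hAB1 P s] with Γ G hB S T A d a p y z h H hST hT hH hA h1 hp hz
    np hy nz hh pA yA hpp
  have cT : (insert p T).card ≤ s + 2 := (card_insert_le _ _).trans (by omega)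
  obtain ⟨g, e, hg⟩ := G.sext {z} (by omega) (by omega) (by simp) hh
  have gp : g p = p := by rw [e p (mem_union_right _ pA), hpp]
  have fx : ∀ x ∈ insert p T, g x = x := fun x hx => by
    rcases mem_insert.1 hx with rfl | hx
    · exact gp
    · exact hg.fix x hx
  have sub : insert p T ⊆ T ∪ (A ∪ {z}) := insert_subset (by simp [pA]) subset_union_left
  have n1 : g z ∉ Γ.acl (insert p T) :=
    G.toPre.nacl_tr hg.aut.1 sub (by simp) (fun x hx => ⟨x, hx, fx x hx⟩) cT nz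
  have n2 : g y ∈ Γ.acl (insert p T) :=
    G.toPre.acl_tr hg.aut.1 sub (by simp [yA]) (fun x hx => by rw [fx x hx]; exact hx) cT hy
  have e1 : Γ.G.E2 T p z (g p) (g z) := Sys.E2.of hg.aut (by simp [pA]) (by simp)
  rw [gp] at e1
  have q := hB S T d a p z (g z) H hST hT hH h1 hp hz np nz n1
    (G.pres (by omega) hg (by simp)) (e1.base hST)
  obtain ⟨f, hf, fz⟩ := G.move cT {g y} (by simp) q.symm
  have e2 : Γ.G.E2 (insert p T) (g y) (g z) (f (g y)) (f (g z)) :=
    Sys.E2.of hf.aut (by simp) (by simp)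
  rw [fz, G.sfix cT hf (by simp) n2] at e2
  rw [← e y (mem_union_right _ yA)]
  exact (Sys.E2.of hg.aut (by simp [yA]) (by simp)).trans (e2.base (subset_insert _ _))

end Pool.Agent.P.MP_f1a348_lc.TO

end

section

/-! Step ATRV. -/

set_option autoImplicit false
set_option linter.unusedSectionVars false

namespace Pool.Agent.P.MP_f1a348_lc.TO

open Equiv Finset Filter
open scoped Classical

theorem p_ATRV (hAGEO : S_AGEO) (hANC : S_ANC) (hAUNI : S_AUNI) (hAPEXT : S_APEXT) :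
    S_ATRV := by
  intro P
  obtain ⟨s0, hs0⟩ := hANC P (P.q + 1) (2 * P.K ^ 2 * P.q + 2 * P.q + 3)
  refine ⟨s0 + (2 * P.K ^ 2 * P.q + 2 * P.q + 3), ?_⟩
  filter_upwards [hs0, hAGEO P (s0 + (2 * P.K ^ 2 * P.q + 2 * P.q + 3)),
    hAUNI P (s0 + (2 * P.K ^ 2 * P.q + 2 * P.q + 3)),
    hAPEXT P (s0 + (2 * P.K ^ 2 * P.q + 2 * P.q + 3))] with G h0 h hU hE
  obtain ⟨S, d, hS, ⟨hd, hP⟩, hN⟩ := h0
  obtain ⟨S1, hsub, hc1, ha1, huni⟩ := hU P.q (S.card + (2 * P.K ^ 2 * P.q + 2 * P.q + 3)) S (d 0)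
    (fun i => d i.succ) (by omega) (by omega) (hd 0)
    (fun i => (hP 0 i.succ (Fin.succ_ne_zero i).symm).2)
    (fun i => hN 0 i.succ (Fin.succ_ne_zero i).symm)
  have hS1 : S1.card ≤ s0 + (2 * P.K ^ 2 * P.q + 2 * P.q + 3) := by omega
  have key : ∀ i : Fin P.q, ∃ y y', G.Q S (d i.succ) y ∧ G.Q S1 y y' ∧
      y ∉ G.acl (insert (d 0) S1) ∧ y' ∉ G.acl (insert (d 0) S1) ∧
      ¬ G.G.E1 (insert (d 0) S1) y y' := by
    intro i
    obtain ⟨b, hb, hb1⟩ := h.qav (by omega) (hd i.succ) S1 hS1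
    obtain ⟨y, y', q1, q2, n1, n2, ne⟩ := (hE S S1 (d 0) (d i.succ) (d 0) b hsub hS1
      (Ctx.Q.refl _ _) hb).1 ha1 hb1 (hP 0 i.succ (Fin.succ_ne_zero i).symm).1
    exact ⟨y, y', hb.trans (h.qd hsub hS1 q1), q1.symm.trans q2, n1, n2, ne⟩
  choose c y hq1 hq2 hn1 hn2 hne using key
  refine ⟨S1, d 0, c, S.card + (2 * P.K ^ 2 * P.q + 2 * P.q + 3), by omega, by omega, ha1, hn1,
    fun i => ⟨y i, hq2 i, hn2 i, hne i⟩, fun i j hij => ?_, fun i hC => ?_, fun i j hij hC => ?_,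
    fun w i x hw hq hx hx' => ?_⟩
  · exact (hE S S1 _ _ _ _ hsub hS1 (hq1 i) (hq1 j)).2.1 _
      (hP i.succ j.succ fun e => hij (Fin.succ_injective _ e)).2
  · exact hN i.succ 0 (Fin.succ_ne_zero i)
      ((hE S S1 _ _ _ _ hsub hS1 (hq1 i) (Ctx.Q.refl _ _)).2.2 _ hC)
  · exact hN i.succ j.succ (fun e => hij (Fin.succ_injective _ e))
      ((hE S S1 _ _ _ _ hsub hS1 (hq1 i) (hq1 j)).2.2 _ hC)
  · exact huni w i x hw hq ((hq1 i).trans (h.qd hsub hS1 hx)) hx'

end Pool.Agent.P.MP_f1a348_lc.TO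

end
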