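import Pool.Agent.P.MP_f1a348_lc.TO.AIface

section

/-! Step ACSYM. -/

set_option autoImplicit false
set_option linter.unusedSectionVars false

namespace Pool.Agent.P.MP_f1a348_lc.TO

open Equiv Finset Filter
open scoped Classical

theorem p_ACSYM (hAGEO : S_AGEO) :
    S_ACSYM := by
  intro P s
  filter_upwards [hAGEO P (s + 2)] with G h
  rintro S a a' H hH ⟨S', e, x, p, h1, h2, h3, h4, h5, h6, h7, h8, h9⟩
  have hc : (insert e S').card ≤ s + 2 := (card_insert_le _ _).trans (by omega)
  exact ⟨S', e, p, x, h1, h2, h4, h3, h5, h8, h.exch hc h7 h8, h6, fun h0 =>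
    h9 (h.exch (by omega) h0 (h.toPre.nmono (subset_insert _ _) hc h6))⟩

end Pool.Agent.P.MP_f1a348_lc.TO

end

section

/-! Step AEXP. -/

set_option autoImplicit false
set_option linter.unusedSectionVars false

namespace Pool.Agent.P.MP_f1a348_lc.TO

open Equiv Finset Filter
open scoped Classical

theorem aexp_ind {ι : Type} (A : Finset ι) (p : ι → Prop) :
    ind (∀ i ∈ A, p i) = ∏ i ∈ A, ind (p i) := by
  by_cases h : ∀ i ∈ A, p i
  · rw [ind_pos h, prod_eq_one fun i hi => ind_pos (h i hi)]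
  · rw [ind_neg h]
    push Not at h
    obtain ⟨i, hi, hp⟩ := h
    exact (prod_eq_zero hi (ind_neg hp)).symm

theorem aexp_prod {ι : Type} [DecidableEq ι] (A J : Finset ι) (hJ : J ⊆ A) (f g : ι → ℝ) :
    (∏ i ∈ J, f i) * ∏ i ∈ A \ J, g i = ∏ i ∈ A, if i ∈ J then f i else g i := by
  rw [← prod_sdiff hJ, mul_comm]
  congr 1
  · exact prod_congr rfl fun i hi => by rw [if_neg (mem_sdiff.1 hi).2]
  · exact prod_congr rfl fun i hi => by rw [if_pos hi]

/-- the pair functions -/
noncomputable def aexpF {P : APar} (Γ : Ctx P) (S : Finset Γ.Y) (u : Fin P.q → Γ.Y)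
    (J : Finset (Fin P.q × Fin P.q)) (i j : Fin P.q) (x y : Γ.Y) : ℝ :=
  if (i, j) ∈ J then Γ.cen S (fun z => Γ.G.E2 S x z (u i) (u j)) y
  else Γ.den S (fun z => Γ.G.E2 S x z (u i) (u j)) y

theorem aexp_sum {P : APar} (Γ : Ctx P) (S : Finset Γ.Y) (a : Γ.Y) (c u : Fin P.q → Γ.Y) :
    ∑ v ∈ fil (Γ.Sim S u), Γ.TT S a c v =
      ∑ J ∈ (pairs P.q).powerset, Γ.Lam S a c (aexpF Γ S u J) := by
  rw [← sum_ind_mul]
  unfold Ctx.Lam
  rw [sum_comm]
  refine sum_congr rfl fun v _ => ?_
  rw [← sum_mul]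
  congr 1
  have h1 : Γ.Sim S u v ↔ ∀ p ∈ pairs P.q, Γ.G.E2 S (v p.1) (v p.2) (u p.1) (u p.2) := by
    simp [Ctx.Sim, pairs]
  rw [ind_congr h1, aexp_ind]
  have h2 : ∀ p ∈ pairs P.q, ind (Γ.G.E2 S (v p.1) (v p.2) (u p.1) (u p.2)) =
      Γ.cen S (fun z => Γ.G.E2 S (v p.1) z (u p.1) (u p.2)) (v p.2) +
        Γ.den S (fun z => Γ.G.E2 S (v p.1) z (u p.1) (u p.2)) (v p.2) := fun p _ => by
    simp [Ctx.cen]
  rw [prod_congr rfl h2, prod_add]
  refine sum_congr rfl fun J hJ => ?_
  rw [aexp_prod _ _ (mem_powerset.1 hJ)]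
  rfl

theorem aexp_num (n θ C η : ℝ) (m : ℕ) (hn : 1 ≤ n) (hθ : θ ≤ η) (h1 : n * θ ^ m ≤ η)
    (hC : 0 ≤ C) (h2 : 3 * C ^ 2 ≤ η * n) :
    n ^ (2 * m) * (θ ^ m * n ^ 4 + C * θ * n ^ 3 + 3 * C ^ 2 * n ^ 2) ≤
      (2 + C) * η * n ^ (2 * (m + 1) + 1) := by
  have h0 : 0 ≤ n := by linarith
  have e : n ^ (2 * (m + 1) + 1) = n ^ (2 * m) * n ^ 3 := by ring
  rw [e, mul_left_comm]
  refine mul_le_mul_of_nonneg_left ?_ (by positivity)
  have a1 : θ ^ m * n ^ 4 ≤ η * n ^ 3 := by
    have := mul_le_mul_of_nonneg_right h1 (pow_nonneg h0 3)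
    nlinarith
  have a2 : C * θ * n ^ 3 ≤ C * η * n ^ 3 := by gcongr
  have a3 : 3 * C ^ 2 * n ^ 2 ≤ η * n ^ 3 := by
    have := mul_le_mul_of_nonneg_right h2 (pow_nonneg h0 2)
    nlinarith
  nlinarith

theorem p_AEXP (hAGEO : S_AGEO) (hAINDS : S_AINDS) (hALAM : S_ALAM) (hAZERO : S_AZERO) :
    S_AEXP := by
  intro P s ε hε
  set N : ℝ := ((pairs P.q).powerset.card : ℝ) with hN
  have hN0 : 0 < N := by
    rw [hN]; exact_mod_cast card_pos.2 ⟨∅, empty_mem_powerset _⟩
  set C : ℝ := (P.C (s + 4) : ℝ) with hC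
  have hC0 : 0 ≤ C := Nat.cast_nonneg _
  set η : ℝ := ε / (N ^ 2 * (2 + C)) with hη
  have hη0 : 0 < η := by positivity
  filter_upwards [hAGEO P s, hAINDS P (s + 4) η hη0, hALAM P s, ev_real P 1,
    ev_real P (3 * C ^ 2 / η)] with Γ h hI hL hn1 hn2 S a c u H hH hT
  obtain ⟨θ, hθ0, hθ, hθn, hI⟩ := hI
  have hS : S.card ≤ s := by have := hT.room; omega
  have hb : ∀ J ∈ (pairs P.q).powerset, Γ.Lam S a c (aexpF Γ S u J) ^ 2 ≤
      (2 + C) * η * (Γ.n : ℝ) ^ (2 * P.q + 1) := by
    intro J hJ
    rcases J.eq_empty_or_nonempty with rfl | ⟨p, hp⟩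
    · rw [hAZERO P Γ S a c _ fun i j x y y' e => by simp [aexpF, Ctx.den_eq _ e]]
      simp only [ne_eq, OfNat.ofNat_ne_zero, not_false_eq_true, zero_pow]
      positivity
    · have hlt : p.1 < p.2 := by simpa [pairs] using mem_powerset.1 hJ hp
      refine (hL θ hθ0 hI S a c H p.1 p.2 _ (fun x z => Γ.G.E2 S x z (u p.1) (u p.2)) hH hT hlt
        (fun i j => ?_) (fun i j x y => ?_) (Sys.inv2_E2 _ _ _) fun x y => ?_).trans ?_
      · by_cases hij : (i, j) ∈ J
        · have := h.cen2 hS (Sys.inv2_E2 S (u i) (u j))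
          intro f x y hf
          simpa [aexpF, hij] using this f x y hf
        · have := h.den2 hS (Sys.inv2_E2 S (u i) (u j))
          intro f x y hf
          simpa [aexpF, hij] using this f x y hf
      · unfold aexpF
        split_ifs
        · exact Ctx.abs_cen_le _ _ _
        · rw [abs_of_nonneg (Ctx.den_nonneg _ _ _)]; exact Ctx.den_le_one _ _ _
      · simp [aexpF, hp]
      · have e : P.q - 1 = 16 * P.K ^ 2 := by simp [APar.q]
        rw [e]
        refine aexp_num _ θ C η _ hn1 hθ hθn hC0 ?_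
        rw [div_le_iff₀ hη0] at hn2
        linarith
  rw [aexp_sum]
  refine sq_sum_le_card_mul_sum_sq.trans ?_
  refine (mul_le_mul_of_nonneg_left (sum_le_card_nsmul _ _ _ hb) (Nat.cast_nonneg _)).trans ?_
  rw [nsmul_eq_mul, ← hN]
  have : N * (N * ((2 + C) * η * (Γ.n : ℝ) ^ (2 * P.q + 1))) =
      ε * (Γ.n : ℝ) ^ (2 * P.q + 1) := by
    rw [hη]; field_simp
  exact this.le

end Pool.Agent.P.MP_f1a348_lc.TO

end

section

/-! Step AGEQ. -/

set_option autoImplicit false
set_option linter.unusedSectionVars false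

namespace Pool.Agent.P.MP_f1a348_lc.TO

open Equiv Finset Filter
open scoped Classical

theorem p_AGEQ (hAGEO : S_AGEO) (hACC : S_ACC) (hATRIV : S_ATRIV) (hATINV : S_ATINV) :
    S_AGEQ := by
  intro P s
  filter_upwards [hAGEO P (2 * s), hACC P s, hATRIV P s, hATINV P s] with Γ h hC hT hI
    S a c u v H hH ht hu hv hs
  have hr := ht.room
  have key : ∀ w : Fin P.q → Γ.Y, Γ.Gen S a c w → Γ.IndF S w := fun w hw i => by
    refine h.toPre.nmono (union_subset_union_left (Ctx.sub_S2 S a c)) ?_
      (hT S a c w H hH ht hw i)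
    have h1 := card_union_le (Γ.S2 S a c) ((univ.erase i).image w)
    have h2 := Ctx.card_S2 S a c
    have h3 : ((univ.erase i).image w).card ≤ P.q :=
      card_image_le.trans (card_erase_le.trans (by simp))
    omega
  obtain ⟨f, hf, he⟩ := hC P.q H S c u v (by omega) hH ht.p1 hu.1 hv.1 (key u hu) (key v hv)
    fun i j hij => by
      rcases lt_or_gt_of_ne hij with h1 | h1
      · exact (hs i j h1).symm
      · exact (hs j i h1).symm.swap
  have h3 : (univ.image u).card ≤ P.q := card_image_le.trans (by simp)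
  have := (hI S _ a f (by omega) (by omega) hf).2.2 c u fun i => mem_image_of_mem _ (mem_univ i)
  rwa [funext he] at this

end Pool.Agent.P.MP_f1a348_lc.TO

end

section

/-! Step AGNON. -/

set_option autoImplicit false
set_option linter.unusedSectionVars false

namespace Pool.Agent.P.MP_f1a348_lc.TO

open Equiv Finset Filter
open scoped Classical

theorem p_AGNON (hAGEO : S_AGEO) (hABAD : S_ABAD) :
    S_AGNON := by
  intro P s
  filter_upwards [hAGEO P s] with Γ h S a c hc
  have h1 : ∀ v, |Γ.TT S a c v| ≤ Γ.n := fun v =>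
    (abs_sum_le_sum_abs _ _).trans ((sum_le_sum (g := fun _ => (1 : ℝ)) fun w _ => by
      rw [abs_prod]
      exact prod_le_one (fun _ _ => abs_nonneg _) fun _ _ => Ctx.abs_ff_le _ _ _ _ _).trans_eq
      (by simp))
  have h2 : ∀ v ∈ fil (fun v => ¬ Γ.Gen S a c v), |Γ.TT S a c v| ≤
      ∑ p ∈ (univ : Finset (Fin P.q)).offDiag,
        (Γ.n : ℝ) * ind (v p.1 ∈ Γ.acl (insert (v p.2) (Γ.S2 S a c))) := fun v hv => by
    have h0 : ∀ p ∈ (univ : Finset (Fin P.q)).offDiag,
        0 ≤ (Γ.n : ℝ) * ind (v p.1 ∈ Γ.acl (insert (v p.2) (Γ.S2 S a c))) :=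
      fun p _ => mul_nonneg (Nat.cast_nonneg _) (ind_nonneg _)
    by_cases hq : ∀ i, Γ.Q S (c i) (v i)
    · obtain ⟨i, j, hij, hm⟩ : ∃ i j, i ≠ j ∧ v i ∈ Γ.acl (insert (v j) (Γ.S2 S a c)) := by
        by_contra hn
        exact mem_fil.1 hv ⟨hq, fun i j hij hm => hn ⟨i, j, hij, hm⟩⟩
      refine le_trans ?_ (single_le_sum h0 (a := (i, j)) (by simpa using hij))
      rw [ind_pos hm, mul_one]
      exact h1 v
    · obtain ⟨i, hi⟩ := not_forall.1 hq
      rw [Ctx.TT, sum_eq_zero fun w _ => prod_eq_zero (mem_univ i)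
        (Ctx.ff_eq_zero fun h' => hi h'.2), abs_zero]
      exact sum_nonneg h0
  refine (sum_le_sum h2).trans ((sum_le_sum_of_subset_of_nonneg (subset_univ _) fun v _ _ =>
    sum_nonneg fun p _ => mul_nonneg (Nat.cast_nonneg _) (ind_nonneg _)).trans ?_)
  rw [sum_comm]
  refine (sum_le_sum (g := fun _ => (P.C s : ℝ) * (Γ.n : ℝ) ^ P.q) fun p hp => ?_).trans ?_
  · rw [← mul_sum, sum_ind]
    have h3 := hABAD (Fin P.q) Γ.Y (fun z => Γ.acl (insert z (Γ.S2 S a c))) (P.C s) p.1 p.2
      (mem_offDiag.1 hp).2.2 fun z => h.card (by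
        have := card_insert_le z (Γ.S2 S a c)
        have := Ctx.card_S2 S a c
        omega)
    rw [Fintype.card_fin] at h3
    exact_mod_cast h3
  · rw [sum_const, nsmul_eq_mul, mul_assoc]
    refine mul_le_mul_of_nonneg_right ?_ (by positivity)
    rw [offDiag_card, card_univ, Fintype.card_fin, sq]
    exact_mod_cast Nat.sub_le _ _

end Pool.Agent.P.MP_f1a348_lc.TO

end

section

/-! Step AL5A. -/

set_option autoImplicit false
set_option linter.unusedSectionVars false

namespace Pool.Agent.P.MP_f1a348_lc.TO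

open Equiv Finset Filter
open scoped Classical

theorem p_AL5A (hAGEO : S_AGEO) :
    S_AL5A := by
  intro P s l
  filter_upwards [hAGEO P (s + l + 1)] with G h
  intro θ hθ hI S x d R hc hx hR
  have key : ∀ j ≤ l, ∃ B H : Finset G.Y, insert d S ⊆ B ∧ B.card ≤ s + j + 1 ∧
      H ⊆ G.cls S d ∧ G.G.Inv1 B (fun y => y ∈ H) ∧
      |(H.card : ℝ) - G.den S (R x) d ^ j * (G.cls S d).card| ≤ j * θ * G.n := by
    intro j
    induction j with
    | zero =>
      intro _
      refine ⟨insert d S, G.cls S d, subset_rfl, (card_insert_le _ _).trans (by omega), subset_rfl,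
        ?_, by simp⟩
      have e : (fun y => y ∈ G.cls S d) = G.Q S d := funext fun y => propext Ctx.mem_cls
      rw [e]
      exact (Ctx.Q.inv2 S).fix (subset_insert _ _) (mem_insert_self _ _)
    | succ j ih =>
      intro hj
      obtain ⟨B, H, b1, b2, b3, b4, b5⟩ := ih (by omega)
      have hSB : S ⊆ B := (subset_insert _ _).trans b1
      obtain ⟨a, a1, a2⟩ := h.qav (by omega) hx B (by omega)
      have i1 := hI S B d a R (fun y => ind (y ∈ H)) hSB (by omega) (b1 (mem_insert_self _ _)) hR a2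
        (fun f y hf => by
          show ind (f y ∈ H) = ind (y ∈ H)
          rw [show (f y ∈ H) = (y ∈ H) from b4 f y hf]) fun y => abs_ind_le _
      refine ⟨insert a B, H.filter (R a), b1.trans (subset_insert _ _),
        (card_insert_le _ _).trans (by omega), (filter_subset _ _).trans b3, fun f y hf => ?_, ?_⟩
      · have e1 : (f y ∈ H) = (y ∈ H) := b4.base (subset_insert a B) f y hf
        have e2 : R a (f y) = R a y :=
          hR.fix (hSB.trans (subset_insert a B)) (mem_insert_self _ _) f y hf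
        show (f y ∈ H.filter (R a)) = (y ∈ H.filter (R a))
        rw [mem_filter, mem_filter, e1, e2]
      · have e : ∑ y ∈ G.cls S d, G.cen S (R a) y * ind (y ∈ H) =
            ((H.filter (R a)).card : ℝ) - G.den S (R x) d * H.card := by
          rw [← sum_subset b3 fun y _ hy => by rw [ind_neg hy, mul_zero]]
          have e1 : ∀ y ∈ H, G.cen S (R a) y * ind (y ∈ H) = ind (R a y) - G.den S (R x) d :=
            fun y hy => by
              rw [ind_pos hy, mul_one, Ctx.cen, Ctx.den_eq _ (Ctx.mem_cls.1 (b3 hy)),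
                h.deg d (by omega) hR a1]
          rw [sum_congr rfl e1, sum_sub_distrib, sum_const, nsmul_eq_mul, mul_comm, card_filter,
            Nat.cast_sum]
          congr 1
          exact sum_congr rfl fun y _ => by by_cases hy : R a y <;> simp [ind, hy]
        rw [e] at i1
        have g0 := Ctx.den_nonneg S (R x) d
        have g1 := Ctx.den_le_one S (R x) d
        have e2 : ((H.filter (R a)).card : ℝ) - G.den S (R x) d ^ (j + 1) * (G.cls S d).card =
            (((H.filter (R a)).card : ℝ) - G.den S (R x) d * H.card) + G.den S (R x) d *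
              ((H.card : ℝ) - G.den S (R x) d ^ j * (G.cls S d).card) := by ring
        rw [e2]
        refine (abs_add_le _ _).trans ?_
        rw [abs_mul, abs_of_nonneg g0]
        have g2 := mul_le_of_le_one_left
          (abs_nonneg ((H.card : ℝ) - G.den S (R x) d ^ j * (G.cls S d).card)) g1
        push_cast
        linarith
  exact key l le_rfl

end Pool.Agent.P.MP_f1a348_lc.TO

end

section

/-! Step AM1. -/

set_option autoImplicit false
set_option linter.unusedSectionVars false

namespace Pool.Agent.P.MP_f1a348_lc.TO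

open Equiv Finset Filter
open scoped Classical

theorem p_AM1 (hAGEO : S_AGEO) :
    S_AM1 := by
  intro P s
  filter_upwards [hAGEO P (s + 2)] with G h
  intro θ hθ hI S a c w w' hS hc hw'
  by_cases hq : G.Q S a w'
  swap
  · have : G.MM S a c w w' = 0 := sum_eq_zero fun x _ => by
      rw [Ctx.ff_eq_zero (w := w') (fun h1 => hq h1.1), mul_zero]
    rw [this, abs_zero]; positivity
  have c1 := card_insert_le w S
  have c2 := card_insert_le w' (insert w S)
  obtain ⟨d, hd, hd'⟩ := h.qav (by omega) hc (insert w' (insert w S)) (by omega)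
  have c3 := card_insert_le d (insert w S)
  have hw2 : w' ∉ G.acl (insert d (insert w S)) := h.toPre.nexch (by omega) hw' hd'
  have hsub : S ⊆ insert d (insert w S) := (subset_insert _ _).trans (subset_insert _ _)
  have hR := Sys.inv2_E2 (Γ := G.G) S a c
  have hcen := (h.cen2 (by omega) hR).fix hsub (show w ∈ insert d (insert w S) by simp)
  have hH : G.G.Inv1 (insert d (insert w S))
      (fun x => ind (G.Q S a w) * G.cen S (fun y => G.G.E2 S w y a c) x) := fun f x hf => by
    have e : G.cen S (fun y => G.G.E2 S w y a c) (f x) = G.cen S (fun y => G.G.E2 S w y a c) x :=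
      hcen f x hf
    show ind (G.Q S a w) * G.cen S (fun y => G.G.E2 S w y a c) (f x)
      = ind (G.Q S a w) * G.cen S (fun y => G.G.E2 S w y a c) x
    rw [e]
  have hb : ∀ x, |ind (G.Q S a w) * G.cen S (fun y => G.G.E2 S w y a c) x| ≤ 1 := fun x => by
    rw [abs_mul]
    exact mul_le_one₀ (abs_ind_le _) (abs_nonneg _) (Ctx.abs_cen_le _ _ _)
  have key := hI S (insert d (insert w S)) d w' (fun b y => G.G.E2 S b y a c) _ hsub (by omega)
    (mem_insert_self _ _) hR hw2 hH hb
  have e : G.MM S a c w w' = ∑ y ∈ G.cls S d, G.cen S (fun y => G.G.E2 S w' y a c) y *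
      (ind (G.Q S a w) * G.cen S (fun y => G.G.E2 S w y a c) y) := by
    have e1 : G.MM S a c w w' = ∑ x, G.ff S a c w' x * G.ff S a c w x :=
      sum_congr rfl fun x _ => mul_comm _ _
    rw [e1, Ctx.sum_ff_mul c hq, Ctx.cls_eq hd]
    refine sum_congr rfl fun x hx => ?_
    unfold Ctx.ff
    rw [ind_pos (Ctx.mem_cls.1 hx), mul_one]
  rw [e]
  exact key

end Pool.Agent.P.MP_f1a348_lc.TO

end

section

/-! Step AP00. -/

set_option autoImplicit false
set_option linter.unusedSectionVars false

namespace Pool.Agent.P.MP_f1a348_lc.TO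

open Equiv Finset Filter
open scoped Classical

theorem p_AP00 (hAGEO : S_AGEO) :
    S_AP00 := by
  intro P
  filter_upwards [hAGEO P 9, ev_n P 1] with Γ h hn
  obtain ⟨d, hd⟩ := h.toPre.exists_nacl (B := ∅) hn (by simp)
  obtain ⟨y, h1, h2⟩ := h.qav (by simp) hd (insert d ∅) (by simp)
  have h3 : d ∉ Γ.acl (insert y ∅) := h.toPre.nexch (by simp) hd h2
  obtain ⟨f, h4, h5⟩ := h.move (by simp) {d} (by simp) h1.symm
  have h6 : Γ.G.E2 ∅ y d d (f d) := by
    have := Sys.E2.of (a := y) (b := d) h4.aut (by simp) (by simp)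
    rwa [h5] at this
  refine ⟨d, hd, y, f d, h1, h.pres (by simp) h4 (by simp), h2,
    h.toPre.nacl_e2 (by simp) h6 h3, fun e => ?_⟩
  exact h.toPre.ne_of (by simp) h2 (mem_insert_self _ _) (h6.trans (Sys.E2_iff.2 e).symm).anti

end Pool.Agent.P.MP_f1a348_lc.TO

end

section

/-! Step AST0. -/

set_option autoImplicit false
set_option linter.unusedSectionVars false

namespace Pool.Agent.P.MP_f1a348_lc.TO

open Equiv Finset Filter
open scoped Classical

/-- The part of the conclusion that is transported. -/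
def AST0R {P : APar} (Γ : Ctx P) (S : Finset Γ.Y) (a' : Γ.Y) (H : ℕ) (x : Γ.Y) (A : Finset Γ.Y)
    (e p : Γ.Y) : Prop :=
  e ∈ A ∧ A.card ≤ H + 1 ∧ Γ.Q S a' p ∧ Γ.Ind (insert x S) A ∧ x ∉ Γ.acl (S ∪ A) ∧
    x ∈ Γ.acl (insert p (S ∪ A)) ∧ x ∉ Γ.acl (insert p (S ∪ A.erase e))

theorem AST0_tr {P : APar} {Γ : Ctx P} {s H : ℕ} (h : Γ.Geo s) {S A : Finset Γ.Y} {a' x e p : Γ.Y}
    {f : Perm Γ.Y} (hS : S.card + H + 2 ≤ s) (hf : Γ.SL S (insert x (insert p A)) f)
    (r : AST0R Γ S a' H x A e p) : AST0R Γ S a' H (f x) (A.image f) (f e) (f p) := by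
  obtain ⟨r1, r2, r3, r4, r5, r6, r7⟩ := r
  have c : ∀ (z : Γ.Y) (B : Finset Γ.Y), B.card ≤ H + 1 → (insert z (S ∪ B)).card ≤ s :=
    fun z B hB => by
      have := card_insert_le z (S ∪ B)
      have := card_union_le S B
      omega
  have ce : ∀ z, (A.erase z).card ≤ H + 1 := fun z => card_erase_le.trans r2
  have ci : (A.image f).card ≤ H + 1 := card_image_le.trans r2
  have im : ∀ (z : Γ.Y) (B : Finset Γ.Y), insert (f z) (S ∪ B.image f) =
      (insert z (S ∪ B)).image f := fun z B => by
    rw [image_insert, image_union, Sys.image_fix hf.fix]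
  have hL := hf.aut.1
  refine ⟨mem_image_of_mem _ r1, ci, r3.trans (h.pres (by omega) hf (by simp)), fun z hz => ?_,
    h.toPre.nacl_tr hL (by clear * -; grind) (by simp) (fun y hy => mem_image.1 ?_)
      ((card_le_card (subset_insert x _)).trans (c x A r2)) r5,
    h.toPre.acl_tr hL (by clear * -; grind) (by simp) (fun y hy => im p A ▸ mem_image_of_mem _ hy)
      (c _ _ ci) r6,
    h.toPre.nacl_tr hL (by clear * -; grind) (by simp) (fun y hy => mem_image.1 ?_) (c p _ (ce e)) r7⟩
  · obtain ⟨w, hw, rfl⟩ := mem_image.1 hz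
    have := r4 w hw
    rw [insert_union] at this
    refine h.toPre.nacl_tr hL (by clear * -; grind) (by simp [hw]) (fun y hy => mem_image.1 ?_)
      (c x _ (ce w)) this
    rwa [← im, image_erase f.injective, ← insert_union]
  · rwa [image_union, Sys.image_fix hf.fix]
  · rwa [← im, image_erase f.injective]

theorem p_AST0 (hAGEO : S_AGEO) (hAGEN : S_AGEN) :
    S_AST0 := by
  intro P s
  filter_upwards [hAGEO P (3 * s + 9), hAGEN P (s + 1)] with Γ h hG
  rintro S B a a' x H hH hB ⟨S', e, x', p, c1, c2, c3, c4, c5, -, c7, c8, c9⟩ hx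
  have cS := (card_le_card c1).trans c2
  obtain ⟨A, a1, a2, a3⟩ := h.basis (S := S) S' (by omega) (by omega)
  have cA := (card_le_card a1).trans c2
  have cE := card_insert_le e A
  have k1 := card_insert_le e S'
  have k2 := card_insert_le p S'
  have k3 := card_insert_le p (insert e S')
  have k4 := card_union_le S (insert e A)
  have k5 := card_insert_le p (S ∪ insert e A)
  have b1 : x' ∉ Γ.acl (S ∪ insert e A) :=
    h.toPre.nmono (union_subset (c1.trans (subset_insert _ _)) (insert_subset_insert _ a1))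
      (by omega) c8
  have b2 := h.ins (by omega) (by omega)
    (h.ins (by omega) (by omega) a2 (h.toPre.nmono (union_subset c1 a1) (by omega) c5)) b1
  have r : AST0R Γ S a' H x' (insert e A) e p := by
    refine ⟨mem_insert_self _ _, by omega, c4, fun z hz => ?_, b1,
      h.cl (by omega) (by omega) (fun b hb => ?_) c7, h.toPre.nmono (insert_subset_insert _
        (union_subset c1 ((erase_insert_subset _ _).trans a1))) (by omega) c9⟩
    · have := b2 z (mem_insert_of_mem hz)
      rwa [erase_insert_of_ne (h.toPre.ne_of (by omega) b1 (mem_union_right _ hz)), union_insert,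
        ← insert_union] at this
    · rcases mem_insert.1 hb with rfl | hb
      · exact h.mem (by omega) (mem_insert_self _ _)
      rcases mem_insert.1 hb with rfl | hb
      · exact h.mem (by omega) (by simp)
      · exact h.toPre.mono ((union_subset_union_right (subset_insert _ _)).trans
          (subset_insert _ _)) (by omega) (a3 b hb)
  have k6 := card_insert_le p (insert e A)
  obtain ⟨f, f1, rfl⟩ := h.move (by omega) (insert p (insert e A)) (by omega) (c3.symm.trans hx)
  have r' := AST0_tr h (by omega) f1 r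
  generalize (insert e A).image f = A', f x' = x, f e = e', f p = p' at r' ⊢
  have k7 := card_insert_le x S
  have k8 := r'.2.1
  obtain ⟨g, g1, g2⟩ := hG (insert x S) A' B (by omega) (by omega) (by omega) r'.2.2.2.1
  obtain ⟨g', g3, g4⟩ := h.sext {p'} (by omega) (by omega) (by simp) g1
  have k9 := card_union_le A' {p'}
  rw [card_singleton] at k9
  have r2 := AST0_tr h (by omega)
    (h.sbase (subset_insert x S) (by omega) (by omega) g4 (by clear * -; grind)) r'
  rw [g4.fix x (mem_insert_self _ _)] at r2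
  rw [← image_congr fun y hy => g3 y (mem_union_right _ hy)] at g2
  exact ⟨_, _, _, r2.1, r2.2.1, r2.2.2.1, g2, r2.2.2.2.2⟩

end Pool.Agent.P.MP_f1a348_lc.TO

end

section

/-! Step ATINV. -/

set_option autoImplicit false
set_option linter.unusedSectionVars false

namespace Pool.Agent.P.MP_f1a348_lc.TO

open Equiv Finset Filter
open scoped Classical

theorem p_ATINV (hAGEO : S_AGEO) :
    S_ATINV := by
  intro P s
  filter_upwards [hAGEO P s] with G h
  have key : ∀ (S A : Finset G.Y) (a c : G.Y) (f : Perm G.Y) (w x : G.Y), S.card ≤ s →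
      G.SL S A f → w ∈ A → x ∈ A → G.ff S a c (f w) (f x) = G.ff S a c w x := by
    intro S A a c f w x hS hf hw hx
    have e1 : ∀ (b z : G.Y), z ∈ A → ind (G.Q S b (f z)) = ind (G.Q S b z) := fun b z hz =>
      ind_congr ⟨fun e => e.trans (h.pres hS hf hz).symm, fun e => e.trans (h.pres hS hf hz)⟩
    unfold Ctx.ff
    rw [e1 a w hw, e1 c x hx]
    congr 1
    exact (h.cen2 hS (Sys.inv2_E2 S a c)).app hf.aut Subset.rfl (mem_union_right _ hw)
      (mem_union_right _ hx)
  intro S A a f hS hA hf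
  refine ⟨fun c w x hw hx => key S A a c f w x hS hf hw hx, fun c w w' hw hw' => ?_,
    fun c u hu => ?_⟩
  · refine h.ssum hS hA hf (fun x => G.ff S a c w x * G.ff S a c w' x)
      (fun x => G.ff S a c (f w) x * G.ff S a c (f w') x) fun x g hg hs => ?_
    rw [← hg w (mem_union_right _ hw), ← hg w' (mem_union_right _ hw'),
      key S _ a c g w x hS hs (mem_insert_of_mem hw) (mem_insert_self _ _),
      key S _ a c g w' x hS hs (mem_insert_of_mem hw') (mem_insert_self _ _)]
  · refine h.ssum hS hA hf (fun w => ∏ i, G.ff S a (c i) w (u i))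
      (fun w => ∏ i, G.ff S a (c i) w (f (u i))) fun w g hg hs => ?_
    refine prod_congr rfl fun i _ => ?_
    rw [← hg (u i) (mem_union_right _ (hu i)),
      key S _ a (c i) g w (u i) hS hs (mem_insert_self _ _) (mem_insert_of_mem (hu i))]

end Pool.Agent.P.MP_f1a348_lc.TO

end

section

/-! Step AUNI. -/

set_option autoImplicit false
set_option linter.unusedSectionVars false

namespace Pool.Agent.P.MP_f1a348_lc.TO

open Equiv Finset Filter
open scoped Classical

theorem p_AUNI (hAGEO : S_AGEO) (hAUN1 : S_AUN1) :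
    S_AUNI := by
  intro P s
  filter_upwards [hAGEO P (2 * s + 4), hAUN1 P s] with Γ h h1
  intro q H S a c hH hs ha hp hc
  obtain ⟨B, b1, b2, b3, b4, b5⟩ := h1 q H S a c hH hs ha hp
  have c1 : (S ∪ B).card + 1 ≤ H := by have := card_union_le S B; omega
  have cS : S.card + 1 ≤ s := by omega
  refine ⟨S ∪ B, subset_union_left, by have := card_union_le S B; omega, b3, ?_⟩
  intro w i x hw hq hx hx'
  have c2 : (insert a (S ∪ B)).card ≤ s := by have := card_insert_le a (S ∪ B); omega
  have w1 : w ∉ Γ.acl (S ∪ B) := h.qnacl (by omega) hq b3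
  have w2 : w ∈ Γ.acl (insert a S) := by
    obtain ⟨B0, hB0, hmin⟩ := exists_min_image
      (B.powerset.filter fun B0 => w ∈ Γ.acl (insert a (S ∪ B0))) card ⟨B, by simpa using hw⟩
    obtain ⟨e1, e2⟩ := mem_filter.1 hB0
    rw [mem_powerset] at e1
    rcases B0.eq_empty_or_nonempty with rfl | ⟨p, hp0⟩
    · simpa using e2
    exfalso
    obtain ⟨j, hj⟩ := b4 p (e1 hp0)
    have s1 : S ∪ B0.erase p ⊆ S ∪ B := union_subset_union_right ((erase_subset _ _).trans e1)
    refine hc j ⟨S ∪ B0.erase p, a, w, p, subset_union_left, (card_le_card s1).trans (by omega),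
      h.qd subset_union_left (by omega) hq, hj, h.toPre.nmono s1 (by omega) b3, ?_, ?_, ?_, ?_⟩
    · refine h.toPre.nmono ?_ ?_ (b2 p (e1 hp0))
      · have := erase_subset_erase p e1
        grind
      · exact (card_le_card (by grind : insert a S ∪ B.erase p ⊆ insert a (S ∪ B))).trans
          (by omega)
    · have : insert p (insert a (S ∪ B0.erase p)) = insert a (S ∪ B0) := by grind
      rwa [this]
    · intro e3
      have := hmin (B0.erase p)
        (mem_filter.2 ⟨mem_powerset.2 ((erase_subset _ _).trans e1), e3⟩)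
      have := card_erase_lt_of_mem hp0
      omega
    · exact h.toPre.nmono (insert_subset (mem_union_right _ (e1 hp0)) s1) (by omega) w1
  have x1 : x ∉ Γ.acl (insert a S) :=
    h.toPre.nmono (insert_subset_insert _ subset_union_left) (by omega) hx'
  have c3 : (insert a S).card ≤ s := by have := card_insert_le a S; omega
  obtain ⟨p, p1, p2⟩ := b5 i x hx x1
  obtain ⟨f, f1, f2⟩ := h.move (by omega) {w} (by rw [card_singleton]; omega) p2
  have f3 : f w = w := h.sfix (by omega) f1 (by simp) w2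
  have e1 : Γ.G.E2 S w x w p := by
    have := (Sys.E2.of (a := w) (b := x) f1.aut (by simp) (by simp)).base (subset_insert a S)
    rwa [f3, f2] at this
  have e2 : Γ.G.E2 S a p w p :=
    (h.qe2 subset_union_left (by omega) (mem_union_right _ p1) hq).swap
  have e3 : Γ.G.E2 S a x a p := h.qe2 (subset_insert _ _) (by omega) (mem_insert_self _ _) p2
  refine hp i (S ∪ B) a w x x subset_union_left (by omega) (Ctx.Q.refl _ _) hx hq
    (Ctx.Q.refl _ _) b3 hx' (fun e4 => hx' ?_) ((e3.trans e2).trans e1.symm)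
  refine h.cl (by omega) (by have := card_insert_le w (S ∪ B); omega) (fun z hz => ?_) e4
  rcases mem_insert.1 hz with rfl | hz
  · exact hw
  · exact h.mem (by omega) (mem_insert_of_mem hz)

end Pool.Agent.P.MP_f1a348_lc.TO

end

section

/-! Step AZERO. -/

set_option autoImplicit false
set_option linter.unusedSectionVars false

namespace Pool.Agent.P.MP_f1a348_lc.TO

open Equiv Finset Filter
open scoped Classical

theorem p_AZERO :
    S_AZERO := by
  intro P G S a c φ hφ
  have hn : (Fintype.card G.Y : ℝ) ≠ 0 :=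
    Nat.cast_ne_zero.2 (Fintype.card_pos_iff.2 ⟨a⟩).ne'
  refine mul_left_cancel₀ hn ?_
  obtain ⟨l, hl⟩ : ∃ l : Fin P.q, ∀ i, i ≤ l := ⟨Fin.last _, Fin.le_last⟩
  rw [Ctx.Lam, ← sum_update l, mul_zero]
  refine sum_eq_zero fun v _ => ?_
  have h1 : ∀ y, G.TT S a c (Function.update v l y) =
      ∑ w, (∏ i ∈ univ.erase l, G.ff S a (c i) w (v i)) * G.ff S a (c l) w y := fun y =>
    sum_congr rfl fun w _ => by
      rw [← prod_erase_mul _ _ (mem_univ l), Function.update_self]
      exact congrArg (· * _) (prod_congr rfl fun i hi => by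
        rw [Function.update_of_ne (ne_of_mem_erase hi)])
  have h2 : ∀ y, (∏ p ∈ pairs P.q, φ p.1 p.2 (Function.update v l y p.1)
      (Function.update v l y p.2)) * G.TT S a c (Function.update v l y) =
      (∏ p ∈ pairs P.q, φ p.1 p.2 (v p.1) (Function.update v l (c l) p.2)) *
        G.TT S a c (Function.update v l y) := fun y => by
    by_cases h : G.Q S (c l) y
    · refine congrArg (· * _) (prod_congr rfl fun p hp => ?_)
      rw [Function.update_of_ne ((mem_filter.1 hp).2.trans_le (hl _)).ne]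
      refine hφ _ _ _ _ _ ?_
      rcases eq_or_ne p.2 l with e | e
      · rw [e, Function.update_self, Function.update_self]; exact h.symm
      · rw [Function.update_of_ne e, Function.update_of_ne e]; exact Ctx.Q.refl _ _
    · rw [h1, sum_eq_zero fun w _ => by rw [Ctx.ff_eq_zero fun h3 => h h3.2, mul_zero]]
      simp
  simp only [h2]
  rw [← mul_sum]
  simp only [h1]
  rw [sum_comm]
  simp [← mul_sum, Ctx.sum_ff]

end Pool.Agent.P.MP_f1a348_lc.TO

end
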