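import Pool.Agent.P.MP_f1a348_lc.TO.AIface

section

/-! Step ACP3. -/

set_option autoImplicit false
set_option linter.unusedSectionVars false

namespace Pool.Agent.P.MP_f1a348_lc.TO

open Equiv Finset Filter
open scoped Classical

theorem p_ACP3 (hAGEO : S_AGEO) :
    S_ACP3 := by
  intro P s
  filter_upwards [hAGEO P (s + 3)] with Γ h S T a c w x w' x' H hS hT hH hC hw hx h1 h2 h3
  by_contra hn
  push Not at hn
  obtain ⟨-, n2, n3⟩ := hn
  have c1 := card_insert_le w' T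
  have c2 := card_insert_le x' (insert w' T)
  have c3 := card_insert_le w (insert w' T)
  rw [insert_comm w' x'] at n3 h2
  refine hC ⟨insert w' T, x', x, w, hS.trans (subset_insert _ _), by omega, hx, hw, n2, n3, h2,
    fun e => n3 (h.toPre.drop (by omega) e ?_),
    fun e => n3 (h.exch (by omega) (h.toPre.drop (by omega) e ?_) n2)⟩
  · rwa [insert_comm w' x, insert_comm w' x'] at h1
  · rwa [insert_comm w' x, insert_comm w x] at h3

end Pool.Agent.P.MP_f1a348_lc.TO

end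

section

/-! Step ACSB. -/

set_option autoImplicit false
set_option linter.unusedSectionVars false

namespace Pool.Agent.P.MP_f1a348_lc.TO

open Equiv Finset Filter
open scoped Classical

theorem acsb_le {P : APar} {Γ : Ctx P} (S : Finset Γ.Y) (a : Γ.Y) (c : Fin P.q → Γ.Y) (i : Fin P.q)
    {ψ : Fin P.q → Γ.Y → Γ.Y → ℝ} (hψ : ∀ j x y, |ψ j x y| ≤ 1) (w x w' x' : Γ.Y) :
    Γ.csT S a c i ψ w x w' x' ≤ (Γ.n : ℝ) ^ (P.q - 1) := by
  refine (mul_le_of_le_one_left (prod_nonneg fun _ _ => abs_nonneg _)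
    (mul_le_one₀ (Ctx.abs_ff_le ..) (abs_nonneg _) (Ctx.abs_ff_le ..))).trans ?_
  refine (prod_le_prod (fun _ _ => abs_nonneg _) (g := fun _ => (Γ.n : ℝ)) fun j _ => ?_).trans_eq
    (by simp)
  refine (abs_sum_le_sum_abs _ _).trans ((sum_le_sum (g := fun _ => 1) fun y _ => ?_).trans_eq
    (by simp))
  simp only [abs_mul]
  exact mul_le_one₀ (mul_le_one₀ (mul_le_one₀ (Ctx.abs_ff_le ..) (abs_nonneg _)
    (Ctx.abs_ff_le ..)) (abs_nonneg _) (hψ ..)) (abs_nonneg _) (hψ ..)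

theorem p_ACSB (hAGEO : S_AGEO) (hACP1 : S_ACP1) (hACP2 : S_ACP2) (hACP3 : S_ACP3) (hACNT : S_ACNT) :
    S_ACSB := by
  intro P s
  filter_upwards [hAGEO P (s + 4), hACP1 P s, hACP2 P s, hACP3 P s] with Γ h h1 h2 h3
  intro θ hθ hI S a c H i j0 ψ R hH hT hij p1 p2 p3 p4
  have r1 := hT.room
  have r2 := Ctx.card_S2 S a c
  set T := Γ.S2 S a c
  have c1 : ∀ u : Γ.Y, (insert u T).card ≤ s + 2 := fun u => (card_insert_le _ _).trans (by omega)
  have c2 : ∀ u v : Γ.Y, (insert u (insert v T)).card ≤ s + 3 := fun u v =>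
    (card_insert_le _ _).trans (Nat.succ_le_succ (c1 v))
  have c3 : ∀ u v z : Γ.Y, (insert u (insert v (insert z T))).card ≤ s + 4 := fun u v z =>
    (card_insert_le _ _).trans (Nat.succ_le_succ (c2 v z))
  obtain ⟨k1, k2⟩ := hACNT Γ.Y (P.C (s + 4)) (Γ.acl T) (fun u => Γ.acl (insert u T))
    (fun u v => Γ.acl (insert u (insert v T)))
    (fun u v z => Γ.acl (insert u (insert v (insert z T))))
    (fun u v z => Γ.acl (insert u (insert v (insert z T)))) (h.card (by omega))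
    (fun u => h.card ((c1 u).trans (by omega))) (fun u v => h.card ((c2 u v).trans (by omega)))
    (fun u v z => h.card (c3 u v z)) fun u v z => h.card (c3 u v z)
  have hN : (0 : ℝ) ≤ (Γ.n : ℝ) ^ (P.q - 1) := by positivity
  have key : ∀ w x w' x', Γ.csT S a c i ψ w x w' x' ≤ (Γ.n : ℝ) ^ (P.q - 1) * (θ ^ (P.q - 1) +
      θ * ind (w ∈ Γ.acl (insert w' (insert x (insert x' T)))) +
      ind (x ∈ Γ.acl (insert w (insert w' (insert x' T))) ∧ (w' ∈ Γ.acl T ∨
        x' ∈ Γ.acl (insert w' T) ∨ w ∈ Γ.acl (insert w' (insert x' T))))) := by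
    intro w x w' x'
    have t0 : 0 ≤ θ ^ (P.q - 1) := by positivity
    have t1 := mul_nonneg hθ (ind_nonneg (w ∈ Γ.acl (insert w' (insert x (insert x' T)))))
    have t2 := ind_nonneg (x ∈ Γ.acl (insert w (insert w' (insert x' T))) ∧ (w' ∈ Γ.acl T ∨
      x' ∈ Γ.acl (insert w' T) ∨ w ∈ Γ.acl (insert w' (insert x' T))))
    by_cases a1 : w ∈ Γ.acl (insert w' (insert x (insert x' T)))
    swap
    · refine (h1 θ hθ hI S a c i ψ w x w' x' (by omega) p1 p2 a1).trans ?_
      rw [mul_pow, mul_comm]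
      exact mul_le_mul_of_nonneg_left (by linarith) hN
    by_cases a2 : x ∈ Γ.acl (insert w (insert w' (insert x' T))) ∧
      x' ∈ Γ.acl (insert w (insert w' (insert x T)))
    swap
    · refine (h2 θ hθ hI S a c i j0 ψ R w x w' x' (by omega) hij p1 p2 p3 p4
        (not_and_or.1 a2)).trans ?_
      rw [mul_comm, ind_pos a1]
      exact mul_le_mul_of_nonneg_left (by linarith) hN
    by_cases a3 : Γ.Q S a w ∧ Γ.Q S (c i) x
    · rw [ind_pos (And.intro a2.1 (h3 S T a (c i) w x w' x' H (Ctx.sub_S2 S a c) (by omega) hH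
        (hT.nc0 i) a3.1 a3.2 a1 a2.1 a2.2))]
      exact (acsb_le S a c i p2 w x w' x').trans (le_mul_of_one_le_right hN (by linarith))
    · rw [Ctx.csT, Ctx.ff_eq_zero a3, abs_zero, zero_mul, zero_mul]
      exact mul_nonneg hN (by linarith)
  refine (sum_le_sum fun w _ => sum_le_sum fun x _ => sum_le_sum fun w' _ =>
    sum_le_sum fun x' _ => key w x w' x').trans ?_
  simp only [← mul_sum, sum_add_distrib]
  refine mul_le_mul_of_nonneg_left (add_le_add (add_le_add (le_of_eq ?_) ?_) k2) hN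
  · simp only [sum_const, card_univ, nsmul_eq_mul]
    ring
  · exact (mul_le_mul_of_nonneg_left k1 hθ).trans_eq (by ring)

end Pool.Agent.P.MP_f1a348_lc.TO

end

section

/-! Step AI2B. -/

set_option autoImplicit false
set_option linter.unusedSectionVars false

namespace Pool.Agent.P.MP_f1a348_lc.TO

open Equiv Finset Filter
open scoped Classical

theorem AI2B_atom {Y : Type} [Fintype Y] [DecidableEq Y] {k : ℕ} {Γ : Sys Y k} {S : Finset Y}
    {Ψ : Y → ℝ} (h : Γ.Inv1 S Ψ) (h0 : ∀ x, 0 ≤ Ψ x) (b : Y) :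
    ((Γ.atom S b).card : ℝ) * Ψ b ≤ ∑ x, Ψ x := by
  calc ((Γ.atom S b).card : ℝ) * Ψ b = ∑ x ∈ Γ.atom S b, Ψ x := by
        rw [sum_congr rfl fun x hx => h.e1 (Sys.mem_atom.1 hx), sum_const, nsmul_eq_mul]
    _ ≤ ∑ x, Ψ x := sum_le_sum_of_subset_of_nonneg (subset_univ _) fun x _ _ => h0 x

theorem p_AI2B (hAGEO : S_AGEO) :
    S_AI2B := by
  intro P s
  filter_upwards [hAGEO P s, hAGEO P (s + 1), ev_k P (s + 2)] with Γ G G1 hk
  intro S b b' Φ hc hΦ h0 hb hb'
  have c1 := card_insert_le b S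
  have h1 := AI2B_atom (hΦ.sum (by omega)) (fun x => sum_nonneg fun y _ => h0 x y) b
  have h2 := AI2B_atom (hΦ.fix (subset_insert b S) (mem_insert_self b S)) (h0 b) b'
  have l1 : (Γ.n : ℝ) ≤ (P.K : ℝ) ^ (s + 2) * (Γ.G.atom S b).card := by
    exact_mod_cast (G.lrg hc hb).le
  have l2 : (Γ.n : ℝ) ≤ (P.K : ℝ) ^ (s + 1 + 2) * (Γ.G.atom (insert b S) b').card := by
    exact_mod_cast (G1.lrg (by omega) hb').le
  have hK := P.K_pos
  have hn0 : (0 : ℝ) ≤ Γ.n := Nat.cast_nonneg _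
  have h3 : (Γ.n : ℝ) ^ 2 ≤ ((P.K : ℝ) ^ (s + 2) * (Γ.G.atom S b).card) *
      ((P.K : ℝ) ^ (s + 1 + 2) * (Γ.G.atom (insert b S) b').card) := by
    rw [sq]; exact mul_le_mul l1 l2 hn0 (by positivity)
  calc (Γ.n : ℝ) ^ 2 * Φ b b' ≤ ((P.K : ℝ) ^ (s + 2) * (Γ.G.atom S b).card) *
      ((P.K : ℝ) ^ (s + 1 + 2) * (Γ.G.atom (insert b S) b').card) * Φ b b' :=
        mul_le_mul_of_nonneg_right h3 (h0 _ _)
    _ = (P.K : ℝ) ^ (2 * s + 5) * ((Γ.G.atom S b).card *
        ((Γ.G.atom (insert b S) b').card * Φ b b')) := by ring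
    _ ≤ (P.K : ℝ) ^ (2 * s + 5) * ∑ x, ∑ y, Φ x y :=
        mul_le_mul_of_nonneg_left
          ((mul_le_mul_of_nonneg_left h2 (Nat.cast_nonneg _)).trans h1) (by positivity)

end Pool.Agent.P.MP_f1a348_lc.TO

end

section

/-! Step AIND1. -/

set_option autoImplicit false
set_option linter.unusedSectionVars false

namespace Pool.Agent.P.MP_f1a348_lc.TO

open Equiv Finset Filter
open scoped Classical

theorem p_AIND1 (hAGEO : S_AGEO) :
    S_AIND1 := by
  intro P s
  filter_upwards [hAGEO P (s + 1), ev_n P 1] with Γ h hn θ h2 S S' d b R H hS hc hd hR hb hH hH1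
  have c1 := card_insert_le b S'
  obtain ⟨b', hb'⟩ := h.toPre.exists_nacl (B := insert b S') hn (by omega)
  exact h2 S S' d b b' (fun b1 _ y => R b1 y) H hS hc hd
    (fun f x y z hf => hR.app hf subset_rfl (by simp) (by simp)) hb hb' hH hH1

end Pool.Agent.P.MP_f1a348_lc.TO

end

section

/-! Step ALAM. -/

set_option autoImplicit false
set_option linter.unusedSectionVars false

namespace Pool.Agent.P.MP_f1a348_lc.TO

open Equiv Finset Filter
open scoped Classical

theorem p_ALAM (hACS : S_ACS) (hACSB : S_ACSB) :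
    S_ALAM := by
  intro P s
  filter_upwards [hACSB P s] with Γ h1
  intro θ hθ hI S a c H i0 j0 φ R hH hT hij f1 f2 hR f3
  let ψ : Fin P.q → Γ.Y → Γ.Y → ℝ := fun j x y => if i0 < j then φ i0 j x y else φ j i0 y x
  let Ψ : (Fin P.q → Γ.Y) → ℝ := fun v =>
    ∏ p ∈ (pairs P.q).filter (fun p => p.1 ≠ i0 ∧ p.2 ≠ i0), φ p.1 p.2 (v p.1) (v p.2)
  have g1 : ∀ j, Γ.G.Inv2 S (ψ j) := fun j => by
    by_cases hj : i0 < j
    · simpa only [ψ, if_pos hj] using f1 i0 j
    · simpa only [ψ, if_neg hj] using (f1 j i0).flip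
  have g2 : ∀ j x y, |ψ j x y| ≤ 1 := fun j x y => by
    simp only [ψ]; split_ifs <;> exact f2 _ _ _ _
  have g3 : ∀ x y, ψ j0 x y = Γ.cen S (R x) y := fun x y => by simp only [ψ, if_pos hij, f3]
  have g4 : ∀ v, |Ψ v| ≤ 1 := fun v => by
    simp only [Ψ, abs_prod]
    exact prod_le_one (fun _ _ => abs_nonneg _) fun _ _ => f2 _ _ _ _
  have g5 : ∀ v y, Ψ (Function.update v i0 y) = Ψ v := fun v y =>
    prod_congr rfl fun p hp => by
      obtain ⟨-, e1, e2⟩ := mem_filter.1 hp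
      rw [Function.update_of_ne e1, Function.update_of_ne e2]
  have g6 : ∀ v : Fin P.q → Γ.Y, ∏ p ∈ pairs P.q, φ p.1 p.2 (v p.1) (v p.2) =
      Ψ v * ∏ j ∈ univ.erase i0, ψ j (v i0) (v j) := fun v => by
    rw [← prod_filter_mul_prod_filter_not (pairs P.q) (fun p => p.1 ≠ i0 ∧ p.2 ≠ i0)]
    congr 1
    symm
    refine prod_bij (fun j _ => if i0 < j then (i0, j) else (j, i0)) ?_ ?_ ?_ ?_
    · intro j hj
      have := ne_of_mem_erase hj
      by_cases h : i0 < j
      · simp [pairs, h]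
      · simp only [if_neg h, pairs, mem_filter, mem_univ, true_and]
        exact ⟨lt_of_le_of_ne (not_lt.1 h) this, by simp⟩
    · intro j hj j' hj' e
      have := ne_of_mem_erase hj
      have := ne_of_mem_erase hj'
      split_ifs at e <;> simp_all
    · rintro ⟨i, j⟩ hp
      simp only [pairs, mem_filter, mem_univ, true_and, not_and, not_not] at hp
      by_cases hi : i = i0
      · subst hi
        exact ⟨j, mem_erase.2 ⟨hp.1.ne', mem_univ _⟩, by simp [hp.1]⟩
      · have := hp.2 hi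
        subst this
        exact ⟨i, mem_erase.2 ⟨hi, mem_univ _⟩, by simp [not_lt.2 hp.1.le]⟩
    · intro j _
      simp only [ψ]
      split_ifs <;> rfl
  have a1 := hACS (Fin P.q) Γ.Y i0 Ψ ψ (fun i => Γ.ff S a (c i)) g4 g5
  have a2 := h1 θ hθ hI S a c H i0 j0 ψ R hH hT hij.ne g1 g2 hR g3
  have a3 : Γ.Lam S a c φ = ∑ u : Fin P.q → Γ.Y, Ψ u * (∏ j ∈ univ.erase i0, ψ j (u i0) (u j)) *
      ∑ w, ∏ i, Γ.ff S a (c i) w (u i) := sum_congr rfl fun v _ => by rw [g6]; rfl
  rw [a3, two_mul, pow_add, mul_assoc]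
  rw [Fintype.card_fin] at a1
  exact a1.trans (mul_le_mul_of_nonneg_left a2 (by positivity))

end Pool.Agent.P.MP_f1a348_lc.TO

end

section

/-! Step AM2A. -/

set_option autoImplicit false
set_option linter.unusedSectionVars false

namespace Pool.Agent.P.MP_f1a348_lc.TO

open Equiv Finset Filter
open scoped Classical

theorem p_AM2A (hAGEO : S_AGEO) :
    S_AM2A := by
  intro P s
  filter_upwards [hAGEO P s] with G h S a c y hS hc hq hy hne
  have hc1 : (insert a S).card ≤ s := (card_insert_le _ _).trans hS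
  set p : G.Y → Prop := fun z => G.G.E2 S a z a c with hp
  set U := fil fun z => z ∈ G.cls S c ∧ p z with hU
  have hUD : U ⊆ G.cls S c := fun z hz => (mem_fil.1 hz).1
  have h1 : G.cls (insert a S) c ⊆ U := fun z hz => by
    have e := Ctx.mem_cls.1 hz
    exact mem_fil.2 ⟨Ctx.mem_cls.2 (h.qd (subset_insert _ _) hc1 e),
      Sys.E2_iff.2 (h.qe1 hc1 e).symm⟩
  have h2 : G.cls (insert a S) y ⊆ G.cls S c \ U := fun z hz => by
    have e := Ctx.mem_cls.1 hz
    refine mem_sdiff.2 ⟨Ctx.mem_cls.2 (hq.trans (h.qd (subset_insert _ _) hc1 e)), fun hz' => ?_⟩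
    exact hne ((h.qe1 hc1 e).trans (Sys.E2_iff.1 (mem_fil.1 hz').2)).symm
  have h3 := ((h.qlg hc1 hc).mono h1).real
  have h4 := ((h.qlg hc1 hy).mono h2).real
  rw [card_sdiff_of_subset hUD, Nat.cast_sub (card_le_card hUD)] at h4
  have h5 := Ctx.den_mul S p c
  rw [← hU] at h5
  have h6 : ((G.cls S c).card : ℝ) ≤ G.n := by exact_mod_cast card_le_univ _
  have h7 : (0 : ℝ) < (G.cls S c).card := by exact_mod_cast Ctx.cls_pos S c
  have h8 : G.MM S a c a a = U.card * (1 - G.den S p c) := by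
    unfold Ctx.MM
    rw [Ctx.sum_ff_mul c (Ctx.Q.refl S a)]
    have : ∀ x ∈ G.cls S c, G.cen S p x * G.ff S a c a x
        = (1 - 2 * G.den S p c) * ind (p x) + G.den S p c ^ 2 := fun x hx => by
      rw [Ctx.ff_eq (Ctx.Q.refl S a) (Ctx.mem_cls.1 hx), ← hp, Ctx.cen,
        Ctx.den_eq p (Ctx.mem_cls.1 hx)]
      by_cases hx' : p x
      · rw [ind_pos hx']; ring
      · rw [ind_neg hx']; ring
    rw [sum_congr rfl this, sum_add_distrib, ← mul_sum, sum_ind_mem, ← hU, sum_const,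
      nsmul_eq_mul, ← h5]
    ring
  have hd := P.dl_pos s
  have hn : (0 : ℝ) < G.n := h7.trans_le h6
  rw [h8]
  have h9 : P.dl s ≤ 1 - G.den S p c := by
    have : P.dl s * (G.cls S c).card ≤ (1 - G.den S p c) * (G.cls S c).card := by
      have := mul_le_mul_of_nonneg_left h6 hd.le
      nlinarith
    exact le_of_mul_le_mul_right this h7
  have := mul_le_mul h3.le h9 hd.le (Nat.cast_nonneg _)
  nlinarith

end Pool.Agent.P.MP_f1a348_lc.TO

end

section

/-! Step AM2B. -/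

set_option autoImplicit false
set_option linter.unusedSectionVars false

namespace Pool.Agent.P.MP_f1a348_lc.TO

open Equiv Finset Filter
open scoped Classical

theorem p_AM2B (hAGEO : S_AGEO) :
    S_AM2B := by
  intro P s
  filter_upwards [hAGEO P s] with Γ h S a c w hc hw H
  have k : ∀ v, Γ.Q S a v → Γ.MM S a c a v = ∑ x ∈ Γ.cls S c,
      Γ.cen S (fun y => Γ.G.E2 S a y a c) x * ind (Γ.G.E2 S v x a c) := fun v hv => by
    rw [Ctx.MM, Ctx.sum_ff_mul c (Ctx.Q.refl S a), sum_congr rfl fun x hx => by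
      rw [Ctx.ff_eq hv (Ctx.mem_cls.1 hx), Ctx.cen.eq_1 Γ S (fun y => Γ.G.E2 S v y a c),
        Ctx.den_eq _ (Ctx.mem_cls.1 hx), mul_sub], sum_sub_distrib, ← sum_mul, Ctx.sum_cen,
      zero_mul, sub_zero]
  rw [k a (Ctx.Q.refl S a), k w hw, sub_le_comm, ← sum_sub_distrib]
  refine (sum_le_sum (g := fun x => ind (x ∈ Γ.acl (insert a S))) fun x hx => ?_).trans ?_
  · by_cases hm : x ∈ Γ.acl (insert a S)
    · have h1 := abs_le.1 (Ctx.abs_cen_le S (fun y => Γ.G.E2 S a y a c) x)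
      have h2 := ind_nonneg (Γ.G.E2 S a x a c)
      have h3 := ind_le_one (Γ.G.E2 S a x a c)
      have h4 := ind_nonneg (Γ.G.E2 S w x a c)
      have h5 := ind_le_one (Γ.G.E2 S w x a c)
      rw [ind_pos hm, ← mul_sub]
      refine (le_abs_self _).trans ?_
      rw [abs_mul]
      exact mul_le_one₀ (abs_le.2 h1) (abs_nonneg _) (abs_le.2 ⟨by linarith, by linarith⟩)
    · have e := H x (Ctx.mem_cls.1 hx) hm
      rw [ind_neg hm, ind_congr (show Γ.G.E2 S a x a c ↔ Γ.G.E2 S w x a c from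
        ⟨e.symm.trans, e.trans⟩), sub_self]
  · rw [sum_ind_mem]
    refine Nat.cast_le.2 ((card_le_card fun z hz => ?_).trans
      (h.card ((card_insert_le a S).trans hc)))
    exact (mem_fil.1 hz).2

end Pool.Agent.P.MP_f1a348_lc.TO

end

section

/-! Step ANU1. -/

set_option autoImplicit false
set_option linter.unusedSectionVars false

namespace Pool.Agent.P.MP_f1a348_lc.TO

open Equiv Finset Filter
open scoped Classical

theorem p_ANU1 (hAGEO : S_AGEO) (hAFEW1 : S_AFEW1) :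
    S_ANU1 := by
  intro P s
  filter_upwards [hAGEO P (s + 2), hAFEW1 P s] with G h hF S x y hS hx
  obtain ⟨V, h1, -, h3⟩ := hF S x y hS hx
  refine le_trans (card_le_card (t := V.image fun v =>
    fil fun r : G.Y × G.Y => G.G.E2 S x v r.1 r.2) fun Z hZ => ?_) (card_image_le.trans h1)
  obtain ⟨⟨x1, y1⟩, hp, rfl⟩ := mem_image.1 hZ
  rw [mem_fil] at hp
  obtain ⟨p1, p2, p3⟩ := hp
  obtain ⟨f, f1, f2⟩ := h.move (by omega) {y1} (by rw [card_singleton]; omega) p1.symm
  have e : G.G.E2 S x1 y1 x (f y1) := f2 ▸ Sys.E2.of f1.aut (by simp) (by simp)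
  obtain ⟨v, v1, v2⟩ := h3 (f y1) (p2.trans (h.pres (by omega) f1 (by simp)))
    (h.toPre.nacl_e2 (by omega) e p3)
  have e' : G.G.E2 S x v x1 y1 := (Sys.E2_iff.2 v2).trans e.symm
  refine mem_image.2 ⟨v, v1, ?_⟩
  ext r
  simp only [mem_fil]
  exact ⟨e'.symm.trans, e'.trans⟩

end Pool.Agent.P.MP_f1a348_lc.TO

end

section

/-! Step APLAT. -/

set_option autoImplicit false
set_option linter.unusedSectionVars false

namespace Pool.Agent.P.MP_f1a348_lc.TO

open Equiv Finset Filter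
open scoped Classical

/-- The size bounds of the successive bases. -/
def aplatB (φ : ℕ → ℕ) : ℕ → ℕ
  | 0 => 0
  | m + 1 => max (aplatB φ m) (φ (aplatB φ m))

theorem aplatB_mono (φ : ℕ → ℕ) : Monotone (aplatB φ) :=
  monotone_nat_of_le_succ fun _ => le_max_left _ _

theorem p_APLAT (hAGEO : S_AGEO) (hAPEXT : S_APEXT) (hANU1 : S_ANU1) (hANU2 : S_ANU2) (hAP00 : S_AP00) :
    S_APLAT := by
  intro P r φ hφ
  obtain ⟨M, hM⟩ : ∃ M, M = r * (r * (2 * P.K ^ 2)) := ⟨_, rfl⟩
  obtain ⟨s, hs⟩ : ∃ s, s = aplatB φ (M + 1) := ⟨_, rfl⟩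
  refine ⟨s, ?_⟩
  filter_upwards [hAGEO P (s + 1), hAPEXT P s, hANU1 P s, hANU2 P s, hAP00 P] with G h hE h1 h2 h0
  by_contra hcon
  have hno : ∀ (S : Finset G.Y) (d : Fin r → G.Y), S.card ≤ s → ¬ G.Plat S d (φ S.card) :=
    fun S d hc hp => hcon ⟨S, d, hc, hp⟩
  have key : ∀ m, m ≤ M + 1 → ∃ (S : Finset G.Y) (d : Fin r → G.Y), S.card ≤ aplatB φ m ∧
      (∀ i, d i ∉ G.acl S) ∧ (∀ i j, i ≠ j → G.P0 S (d i) (d j)) ∧
      m ≤ ∑ p : Fin r × Fin r, G.nu S (d p.1) (d p.2) := by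
    intro m
    induction m with
    | zero =>
      intro _
      obtain ⟨d, hd, hp⟩ := h0
      exact ⟨∅, fun _ => d, by simp, fun _ => hd, fun _ _ _ => hp, Nat.zero_le _⟩
    | succ m ih =>
      intro hm
      obtain ⟨S, d, hc, hd, hp, hpot⟩ := ih (by omega)
      have hb1 : aplatB φ m ≤ aplatB φ (m + 1) := aplatB_mono φ (by omega)
      have hb2 : aplatB φ (m + 1) ≤ s := hs ▸ aplatB_mono φ hm
      have hb3 : φ S.card ≤ aplatB φ (m + 1) := (hφ hc).trans (le_max_right _ _)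
      have hcs : S.card ≤ s := by omega
      have hn : ∃ i j, i ≠ j ∧ ¬ G.P1 S (d i) (d j) (φ S.card) := by
        by_contra hh
        refine hno S d hcs ⟨hd, fun i j hij => ⟨hp i j hij, ?_⟩⟩
        by_contra h3
        exact hh ⟨i, j, hij, h3⟩
      obtain ⟨i, j, hij, hn⟩ := hn
      have hn' : ∃ (S' : Finset G.Y) (x x' y y' : G.Y), S ⊆ S' ∧ S'.card ≤ φ S.card ∧
          G.Q S (d i) x ∧ G.Q S (d j) y ∧ G.Q S' x x' ∧ G.Q S' y y' ∧ x ∉ G.acl S' ∧
          y ∉ G.acl (insert x S') ∧ y' ∉ G.acl (insert x' S') ∧ G.G.E2 S x y x' y' ∧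
          ¬ G.G.E2 S' x y x' y' := by
        by_contra hh
        refine hn fun S' x x' y y' a1 a2 a3 a4 a5 a6 a7 a8 a9 a10 => ?_
        by_contra h3
        exact hh ⟨S', x, x', y, y', a1, a2, a3, a4, a5, a6, a7, a8, a9, a10, h3⟩
      obtain ⟨S', x, x', y, y', a1, a2, a3, a4, a5, a6, a7, a8, a9, a10, a11⟩ := hn'
      have hc' : S'.card ≤ s := by omega
      have hy : y ∉ G.acl S' := h.toPre.nmono (subset_insert x S')
        ((card_insert_le _ _).trans (by omega)) a8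
      have hex : ∀ l, ∃ z, G.Q S (d l) z ∧ z ∉ G.acl S' ∧ (l = i → z = x) ∧ (l = j → z = y) := by
        intro l
        by_cases hl : l = i
        · subst hl
          exact ⟨x, a3, a7, fun _ => rfl, fun e => absurd e hij⟩
        · by_cases hl' : l = j
          · subst hl'
            exact ⟨y, a4, hy, fun e => absurd e hl, fun _ => rfl⟩
          · obtain ⟨z, hz1, hz2⟩ := h.qav (by omega) (hd l) S' (by omega)
            exact ⟨z, hz1, hz2, fun e => absurd e hl, fun e => absurd e hl'⟩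
      choose d' hq hd' hi hj using hex
      refine ⟨S', d', by omega, hd', fun l l' hl =>
        (hE S S' (d l) (d l') (d' l) (d' l') a1 hc' (hq l) (hq l')).1 (hd' l) (hd' l')
          (hp l l' hl), ?_⟩
      have hlt : ∑ p : Fin r × Fin r, G.nu S (d p.1) (d p.2) <
          ∑ p : Fin r × Fin r, G.nu S' (d' p.1) (d' p.2) := by
        refine sum_lt_sum (fun p _ => (h2 S S' (d p.1) (d p.2) (d' p.1) (d' p.2) a1 hc'
          (hd' _) (hd' _) (hq _) (hq _)).1) ⟨(i, j), mem_univ _, ?_⟩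
        have e1 : d' i = x := hi i rfl
        have e2 : d' j = y := hj j rfl
        show G.nu S (d i) (d j) < G.nu S' (d' i) (d' j)
        rw [e1, e2]
        exact (h2 S S' (d i) (d j) x y a1 hc' a7 hy a3 a4).2 x' y' a5 a6 a8 a9 a10 a11
      omega
  obtain ⟨S, d, hc, hd, -, hpot⟩ := key (M + 1) le_rfl
  have hle : ∑ p : Fin r × Fin r, G.nu S (d p.1) (d p.2) ≤ M := by
    have := sum_le_card_nsmul (univ : Finset (Fin r × Fin r))
      (fun p => G.nu S (d p.1) (d p.2)) (2 * P.K ^ 2)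
      (fun p _ => h1 S _ _ (by omega) (hd _))
    rw [card_univ, Fintype.card_prod, Fintype.card_fin, smul_eq_mul, mul_assoc] at this
    omega
  omega

end Pool.Agent.P.MP_f1a348_lc.TO

end

section

/-! Step ASP2. -/

set_option autoImplicit false
set_option linter.unusedSectionVars false

namespace Pool.Agent.P.MP_f1a348_lc.TO

open Equiv Finset Filter
open scoped Classical

theorem p_ASP2 (hAGEO : S_AGEO) :
    S_ASP2 := by
  intro P s
  filter_upwards [hAGEO P (s + 1)] with Γ h L hF S A x0 hS hI h0 hA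
  have hS' : S.card ≤ s + 1 := by omega
  have hins : ∀ x, (insert x S).card ≤ s + 1 := fun x => (card_insert_le _ _).trans (by omega)
  have hn : ∀ x ∈ Γ.cls S x0, x ∉ Γ.acl S := fun x hx => h.qnacl hS' (Ctx.mem_cls.1 hx) h0
  obtain ⟨I, hI1, hI2⟩ := exists_max_image ((Γ.cls S x0).powerset.filter fun I =>
    ∀ x ∈ I, ∀ y ∈ I, y ≠ x → y ∉ Γ.acl (insert x S)) card ⟨∅, by simp⟩
  rw [mem_filter, mem_powerset] at hI1
  have h1 : Γ.cls S x0 ⊆ I.biUnion fun x => Γ.acl (insert x S) := fun z hz => by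
    by_contra c
    simp only [mem_biUnion, not_exists, not_and] at c
    have hzI : z ∉ I := fun d => c z d (h.mem (hins z) (mem_insert_self _ _))
    have := hI2 (insert z I) (mem_filter.2 ⟨mem_powerset.2 (insert_subset hz hI1.1),
      fun x hx y hy e => by
        rcases mem_insert.1 hx with rfl | hx' <;> rcases mem_insert.1 hy with rfl | hy'
        · exact absurd rfl e
        · exact h.toPre.nexch hS' (hn y (hI1.1 hy')) (c y hy')
        · exact c x hx'
        · exact hI1.2 x hx' y hy' e⟩)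
    rw [card_insert_of_notMem hzI] at this
    omega
  have h2 := (card_le_card h1).trans
    (card_biUnion_le_card_mul I _ (P.C (s + 1)) fun x _ => h.card (hins x))
  choose! V hV1 hV2 using fun x hx => hF S x hS hx
  have h3 := lin_dist A I L (fun x => (V x).image (A x))
    (fun x hx => card_image_le.trans (hV1 x (hn x (hI1.1 hx)))) fun x hx y hy e => by
      have qx := Ctx.mem_cls.1 (hI1.1 hx)
      have qy := Ctx.mem_cls.1 (hI1.1 hy)
      have a := hI1.2 x hx y hy e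
      obtain ⟨v, hv, hv'⟩ := hV2 x (hn x (hI1.1 hx)) y (qx.symm.trans qy) a
      exact ⟨mem_image.2 ⟨v, hv,
        ((hI.fix (subset_insert x S) (mem_insert_self _ _)).e1 hv').symm⟩,
        fun d => a (hA x y qx qy d)⟩
  rw [mul_comm]
  exact h2.trans (Nat.mul_le_mul_right _ h3)

end Pool.Agent.P.MP_f1a348_lc.TO

end

section

/-! Step AST4. -/

set_option autoImplicit false
set_option linter.unusedSectionVars false

namespace Pool.Agent.P.MP_f1a348_lc.TO

open Equiv Finset Filter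
open scoped Classical

theorem p_AST4 (hAGEO : S_AGEO) (hAB1 : S_AB1) (hAROOT : S_AROOT) :
    S_AST4 := by
  intro P s
  filter_upwards [hAGEO P (s + 9), hAB1 P s, hAROOT P (s + 2)] with Γ h hB hR
  intro S T d1 d2 x p1 p2 f1 f2 H hST hTH hHs P1 P2 P12 q1 q2 hx hx1 hx2 F1 F2 n1 n2 e1 e2
  have hp := h.toPre
  have cT : T.card ≤ s + 9 := by omega
  have cT1 : T.card + 1 ≤ s + 9 := by omega
  have cI : ∀ z, (insert z T).card ≤ s + 9 := fun z => (card_insert_le _ _).trans cT1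
  have c2 : ∀ a b : Γ.Y, ({a, b} : Finset Γ.Y).card ≤ 2 := fun a b => card_le_two
  have c3 : ∀ a b c : Γ.Y, ({a, b, c} : Finset Γ.Y).card ≤ 3 := fun a b c => card_le_three
  have c4 : ∀ a b c d : Γ.Y, ({a, b, c, d} : Finset Γ.Y).card ≤ 4 := fun a b c d =>
    (card_insert_le _ _).trans (by have := c3 b c d; omega)
  have cl : ∀ {a b c : Γ.Y}, a ∈ Γ.acl (insert b T) → b ∈ Γ.acl (insert c T) →
      a ∈ Γ.acl (insert c T) := fun {a b c} ha hb =>
    h.cl (cI c) (cI b) (fun z hz => by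
      rcases mem_insert.1 hz with rfl | hz
      · exact hb
      · exact h.mem (cI c) (mem_insert_of_mem hz)) ha
  have tr : ∀ {A : Finset Γ.Y} {f : Perm Γ.Y} {a b : Γ.Y}, Γ.SL T A f → a ∈ A → b ∈ A →
      a ∉ Γ.acl (insert b T) → f a ∉ Γ.acl (insert (f b) T) := fun {A f a b} hf ha hb hn =>
    hp.nacl_e2 cT1 (Sys.E2.of hf.aut (mem_union_right _ hb) (mem_union_right _ ha)) hn
  have np1 : p1 ∉ Γ.acl T := fun h1 => hx (hp.drop cT1 h1 hx1)
  have ap1 : p1 ∈ Γ.acl (insert x T) := h.exch cT hx1 hx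
  have nx1 : x ∉ Γ.acl (insert (f1 p1) T) := hp.nexch cT hx n1
  have nx2 : x ∉ Γ.acl (insert (f2 p2) T) := hp.nexch cT hx n2
  have n21 : p2 ∉ Γ.acl (insert (f1 p1) T) := fun h1 => nx1 (cl hx2 h1)
  have n21' : f2 p2 ∉ Γ.acl (insert p1 T) := fun h1 => n2 (cl h1 ap1)
  have Q1 : Γ.Q T p1 (f1 p1) := h.pres cT F1 (by simp)
  have Q2 : Γ.Q T p2 (f2 p2) := h.pres cT F2 (by simp)
  obtain ⟨g1, G1, g1p⟩ := h.move cT {p2, f1 x, x} (by have := c3 p2 (f1 x) x; omega) Q1.symm
  have Qg : Γ.Q T p2 (g1 p2) := h.pres cT G1 (by simp)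
  have ng : g1 p2 ∉ Γ.acl (insert p1 T) := by
    have := tr G1 (a := p2) (b := f1 p1) (by simp) (by simp) n21
    rwa [g1p] at this
  have eg : Γ.G.E2 S p1 (g1 p2) p1 (f2 p2) := by
    have h1 : Γ.G.E2 T (f1 p1) p2 (g1 (f1 p1)) (g1 p2) := Sys.E2.of G1.aut (by simp) (by simp)
    rw [g1p] at h1
    exact ((h1.base hST).symm.trans e1).trans e2.swap.symm
  have QB : Γ.Q (insert p1 T) (g1 p2) (f2 p2) :=
    hB S T d1 d2 p1 (g1 p2) (f2 p2) H hST hTH hHs P12 q1 (q2.trans (h.qd hST cT Qg)) np1 ng n21'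
      (Qg.symm.trans Q2) eg
  obtain ⟨g2, G2, g2p⟩ := h.move (cI p1) {g1 (f1 x), g1 x}
    (by have := c2 (g1 (f1 x)) (g1 x); omega) QB
  have G2' : Γ.SL T {p1, g1 p2, g1 (f1 x), g1 x} g2 :=
    h.sbase (subset_insert p1 T) (cI p1) (by have := c3 (g1 p2) (g1 (f1 x)) (g1 x); omega) G2
      (by intro z hz; simp only [mem_union, mem_insert, mem_singleton] at hz ⊢; tauto)
  have g2f : g2 p1 = p1 := G2.fix p1 (mem_insert_self _ _)
  have G : Γ.SL T {f1 p1, p2, f1 x, x} (g2 * g1) :=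
    h.smul cT (by have := c4 (f1 p1) p2 (f1 x) x; omega)
      (by have := c4 p1 (g1 p2) (g1 (f1 x)) (g1 x); omega) G1 G2' (by
        intro z hz
        simp only [mem_insert, mem_singleton] at hz
        rcases hz with rfl | rfl | rfl | rfl <;> simp [g1p])
  set g := g2 * g1 with hg
  have gp1 : g (f1 p1) = p1 := by rw [hg, Perm.mul_apply, g1p, g2f]
  have gp2 : g p2 = f2 p2 := by rw [hg, Perm.mul_apply, g2p]
  have H1 : Γ.SL T {p1, x} (g * f1) :=
    h.smul cT (by have := c2 p1 x; omega) (by have := c4 (f1 p1) p2 (f1 x) x; omega) F1 G (by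
      intro z hz
      simp only [mem_insert, mem_singleton] at hz
      rcases hz with rfl | rfl <;> simp)
  have ny2 : g x ∉ Γ.acl (insert p1 T) := by
    have := tr G (a := x) (b := f1 p1) (by simp) (by simp) nx1
    rwa [gp1] at this
  have R1 : Γ.G.E2 T x (g x) ((g * f1) x) (g x) :=
    hR S T {p1, x} d1 x p1 x (g x) (g * f1) H hST hTH (by omega) (by have := c2 p1 x; omega) P1 q1
      (h.qd hST cT (h.pres cT G (by simp))) np1 hx1 ny2 H1 (by simp) (by simp)
      (by rw [Perm.mul_apply, gp1])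
  have I2 : Γ.SL T {f2 p2, f2 x} f2⁻¹ :=
    h.sinv cT (by have := c2 p2 x; omega) F2 (by
      intro z hz
      simp only [mem_insert, mem_singleton] at hz
      rcases hz with rfl | rfl
      · exact ⟨p2, by simp, rfl⟩
      · exact ⟨x, by simp, rfl⟩)
  have H2 : Γ.SL T {f2 p2, f2 x} (g * f2⁻¹) :=
    h.smul cT (by have := c2 (f2 p2) (f2 x); omega) (by have := c4 (f1 p1) p2 (f1 x) x; omega)
      I2 G (by
        intro z hz
        simp only [mem_insert, mem_singleton] at hz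
        rcases hz with rfl | rfl <;> simp)
  have ax2 : f2 x ∈ Γ.acl (insert (f2 p2) T) :=
    hp.acl_tr F2.aut.1 (insert_subset (by simp) subset_union_left) (by simp) (fun z hz => by
      rcases mem_insert.1 hz with rfl | hz
      · exact mem_insert_self _ _
      · rw [F2.fix z hz]; exact mem_insert_of_mem hz) (cI _) hx2
  have iv : ∀ z, f2⁻¹ (f2 z) = z := fun z => by simp
  have R2 : Γ.G.E2 T (f2 x) x ((g * f2⁻¹) (f2 x)) x :=
    hR S T {f2 p2, f2 x} d2 x (f2 p2) (f2 x) x (g * f2⁻¹) H hST hTH (by omega)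
      (by have := c2 (f2 p2) (f2 x); omega) P2 (q2.trans (h.qd hST cT Q2)) (Ctx.Q.refl S x)
      (hp.nmono (subset_insert x T) (cI x) n2) ax2 nx2 H2 (by simp) (by simp)
      (by rw [Perm.mul_apply, iv, gp2])
  rw [Perm.mul_apply, iv] at R2
  rw [Perm.mul_apply] at R1
  have R0 : Γ.G.E2 T (f1 x) x (g (f1 x)) (g x) := Sys.E2.of G.aut (by simp) (by simp)
  exact (R0.trans R1.symm).trans R2.swap.symm

end Pool.Agent.P.MP_f1a348_lc.TO

end
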