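import Pool.Agent.P.MP_f1a348_lc.TO.AIface

section

/-! Step ABAD. -/

set_option autoImplicit false
set_option linter.unusedSectionVars false

namespace Pool.Agent.P.MP_f1a348_lc.TO

open Equiv Finset Filter
open scoped Classical

theorem p_ABAD :
    S_ABAD := by
  intro ι Z _ _ _ A C i j hij hA
  have h1 := sum_update i (fun u : ι → Z => ind (u i ∈ A (u j)))
  rw [sum_ind] at h1
  have h2 : ∀ u : ι → Z, ∑ y, ind (Function.update u i y i ∈ A (Function.update u i y j))
      ≤ (C : ℝ) := fun u => by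
    simp only [Function.update_self, Function.update_of_ne hij.symm]
    rw [sum_ind]
    have : (fil fun y => y ∈ A (u j)) = A (u j) := by ext y; simp
    rw [this]
    exact_mod_cast hA (u j)
  have h3 : ∑ u : ι → Z, ∑ y, ind (Function.update u i y i ∈ A (Function.update u i y j))
      ≤ ∑ _u : ι → Z, (C : ℝ) := sum_le_sum fun u _ => h2 u
  rw [h1, sum_const, card_univ, Fintype.card_fun, nsmul_eq_mul, mul_comm _ (C : ℝ)] at h3
  exact_mod_cast h3

end Pool.Agent.P.MP_f1a348_lc.TO

end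

section

/-! Step ACONJ. -/

set_option autoImplicit false
set_option linter.unusedSectionVars false

namespace Pool.Agent.P.MP_f1a348_lc.TO

open Equiv Finset Filter
open scoped Classical

theorem p_ACONJ (hAGEO : S_AGEO) :
    S_ACONJ := by
  intro P s
  filter_upwards [hAGEO P s, ev_k P (s + 1)] with Γ h hk
  intro q
  induction q with
  | zero =>
    intro S u _ _
    rw [pow_zero, pow_zero, one_mul]
    exact card_pos.2 ⟨u, mem_fil.2 ⟨1, Sys.Aut.one _ _, fun _ => rfl⟩⟩
  | succ q ih =>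
    intro S u hc hI
    set F := fil fun v : Fin (q + 1) → Γ.Y =>
      ∃ f : Perm Γ.Y, Γ.G.Aut S (univ.image u) f ∧ ∀ i, f (u i) = v i with hF
    have cu : ∀ T : Finset (Fin (q + 1)), (T.image u).card ≤ q + 1 := fun T =>
      card_image_le.trans ((card_le_univ T).trans (by simp))
    have cs : ∀ T : Finset (Fin (q + 1)), (S ∪ T.image u).card ≤ s := fun T =>
      (card_union_le _ _).trans (by have := cu T; omega)
    have mu : ∀ i, u i ∈ univ.image u := fun i => mem_image_of_mem _ (mem_univ i)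
    have key : ∀ a ∈ Γ.G.atom S (u 0),
        Γ.n ^ q ≤ (P.K ^ (s + 2)) ^ q * (F.filter fun v => v 0 = a).card := by
      intro a ha
      obtain ⟨f, hf, rfl⟩ := Sys.mem_atom.1 ha
      obtain ⟨g, g1, g2⟩ := hf.ext (univ.image u) (by have := cu univ; rw [card_singleton]; omega)
      have g3 : Γ.G.Aut S (univ.image u) g :=
        g2.base subset_rfl (subset_union_right.trans subset_union_right)
      rw [← g1 (u 0) (by simp)]
      refine (ih (insert (g (u 0)) S) (fun i => g (u i.succ))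
        (by have := card_insert_le (g (u 0)) S; omega) fun i => ?_).trans
        (Nat.mul_le_mul_left _ (card_le_card_of_injOn (fun v => Fin.cons (g (u 0)) v) ?_
          fun v _ v' _ e => funext fun i => congrFun e i.succ))
      · refine h.toPre.nacl_tr g3.1 (union_subset_union_right (image_subset_image (subset_univ _)))
          (mem_union_right _ (mu _)) (fun y hy => ?_) (cs _) (hI i.succ)
        simp only [mem_union, mem_insert, mem_image, mem_erase, mem_univ, and_true] at hy ⊢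
        rcases hy with (rfl | hy) | ⟨j, hj, rfl⟩
        · exact ⟨_, Or.inr ⟨0, (Fin.succ_ne_zero i).symm, rfl⟩, rfl⟩
        · exact ⟨y, Or.inl hy, g3.2 y hy⟩
        · exact ⟨_, Or.inr ⟨j.succ, fun e => hj (Fin.succ_injective _ e), rfl⟩, rfl⟩
      · intro v hv
        obtain ⟨f', f1, f2⟩ := mem_fil.1 hv
        refine mem_coe.2 (mem_filter.2 ⟨mem_fil.2 ⟨f' * g, g3.mul (f1.base (subset_insert _ _)
          subset_rfl) fun x hx => mem_union_right _ ?_, fun i => ?_⟩, rfl⟩)
        · obtain ⟨j, -, rfl⟩ := mem_image.1 hx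
          refine Fin.cases (mem_union_left _ (mem_insert_self _ _)) (fun j => ?_) j
          exact mem_union_right _ (mem_image_of_mem (fun i : Fin q => g (u i.succ)) (mem_univ j))
        · exact Fin.cases (f1.2 _ (mem_insert_self _ _)) f2 i
    have h1 := h.lrg (by omega) (h.toPre.nmono subset_union_left (cs _) (hI 0))
    have h2 := card_nsmul_le_sum _ _ _ key
    rw [← mul_sum, sum_card_fiberwise_eq_card_filter, smul_eq_mul] at h2
    calc Γ.n ^ (q + 1) = Γ.n * Γ.n ^ q := pow_succ' _ _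
      _ ≤ P.K ^ (s + 2) * (Γ.G.atom S (u 0)).card * Γ.n ^ q := Nat.mul_le_mul_right _ h1.le
      _ ≤ _ := by
        rw [mul_assoc, pow_succ' (P.K ^ (s + 2)), mul_assoc]
        exact Nat.mul_le_mul_left _ (h2.trans (Nat.mul_le_mul_left _ (card_filter_le _ _)))

end Pool.Agent.P.MP_f1a348_lc.TO

end

section

/-! Step ACS. -/

set_option autoImplicit false
set_option linter.unusedSectionVars false

namespace Pool.Agent.P.MP_f1a348_lc.TO

open Equiv Finset Filter
open scoped Classical

theorem acs_prod {ι Z : Type} [Fintype ι] [DecidableEq ι] [Fintype Z] (a : ι)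
    (χ : ι → Z → ℝ) :
    ∑ u : ι → Z, ∏ j ∈ univ.erase a, χ j (u j) =
      Fintype.card Z * ∏ j ∈ univ.erase a, ∑ y, χ j y := by
  have h := Finset.prod_univ_sum (fun _ : ι => (univ : Finset Z))
    (fun j y => if j = a then (1 : ℝ) else χ j y)
  rw [Fintype.piFinset_univ, ← Finset.mul_prod_erase _ _ (mem_univ a)] at h
  have e1 : ∏ j ∈ univ.erase a, ∑ y, (if j = a then (1 : ℝ) else χ j y) =
      ∏ j ∈ univ.erase a, ∑ y, χ j y :=
    prod_congr rfl fun j hj => sum_congr rfl fun y _ => if_neg (ne_of_mem_erase hj)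
  have e2 : ∀ u : ι → Z, ∏ j, (if j = a then (1 : ℝ) else χ j (u j)) =
      ∏ j ∈ univ.erase a, χ j (u j) := by
    intro u
    rw [← Finset.mul_prod_erase _ _ (mem_univ a), if_pos rfl, one_mul]
    exact prod_congr rfl fun j hj => if_neg (ne_of_mem_erase hj)
  rw [e1, sum_congr rfl fun u _ => e2 u] at h
  rw [← h]
  simp

theorem acs_sq {ι Z : Type} [Fintype ι] [DecidableEq ι] [Fintype Z] (a : ι)
    (ψ F : ι → Z → Z → ℝ) :
    ∑ u : ι → Z, (∑ p : Z × Z, F a p.1 p.2 *
        ∏ j ∈ univ.erase a, (ψ j p.2 (u j) * F j p.1 (u j))) ^ 2 ≤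
      Fintype.card Z * ∑ w, ∑ x, ∑ w', ∑ x', |F a w x| * |F a w' x'| *
          ∏ j ∈ univ.erase a, |∑ y, F j w y * F j w' y * ψ j x y * ψ j x' y| := by
  have e1 : ∀ u : ι → Z, (∑ p : Z × Z, F a p.1 p.2 *
        ∏ j ∈ univ.erase a, (ψ j p.2 (u j) * F j p.1 (u j))) ^ 2 =
      ∑ p : Z × Z, ∑ r : Z × Z, F a p.1 p.2 * F a r.1 r.2 * ∏ j ∈ univ.erase a,
        (F j p.1 (u j) * F j r.1 (u j) * ψ j p.2 (u j) * ψ j r.2 (u j)) := by
    intro u
    rw [pow_two, sum_mul_sum]
    refine sum_congr rfl fun p _ => sum_congr rfl fun r _ => ?_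
    rw [mul_mul_mul_comm, ← prod_mul_distrib]
    congr 1
    exact prod_congr rfl fun j _ => by ring
  have e2 : ∑ w, ∑ x, ∑ w', ∑ x', |F a w x| * |F a w' x'| *
          ∏ j ∈ univ.erase a, |∑ y, F j w y * F j w' y * ψ j x y * ψ j x' y| =
      ∑ p : Z × Z, ∑ r : Z × Z, |F a p.1 p.2| * |F a r.1 r.2| *
          ∏ j ∈ univ.erase a, |∑ y, F j p.1 y * F j r.1 y * ψ j p.2 y * ψ j r.2 y| := by
    simp only [Fintype.sum_prod_type]
  rw [sum_congr rfl fun u _ => e1 u, e2, sum_comm, mul_sum]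
  refine sum_le_sum fun p _ => ?_
  rw [sum_comm, mul_sum]
  refine sum_le_sum fun r _ => ?_
  rw [← mul_sum, acs_prod a fun j y => F j p.1 y * F j r.1 y * ψ j p.2 y * ψ j r.2 y,
    mul_left_comm, ← abs_prod, ← abs_mul, ← abs_mul]
  exact mul_le_mul_of_nonneg_left (le_abs_self _) (Nat.cast_nonneg _)

theorem p_ACS :
    S_ACS := by
  intro ι Z _ _ _ a Ψ ψ F h1 h2
  rcases Nat.eq_zero_or_pos (Fintype.card Z) with h0 | h0
  · have hZ : IsEmpty Z := Fintype.card_eq_zero_iff.1 h0
    have hE : IsEmpty (ι → Z) := ⟨fun u => hZ.false (u a)⟩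
    simp
  have hn : (0 : ℝ) < Fintype.card Z := by exact_mod_cast h0
  have hq : Fintype.card ι = Fintype.card ι - 1 + 1 := by
    have : 0 < Fintype.card ι := Fintype.card_pos_iff.2 ⟨a⟩
    omega
  have s1 := sum_update a fun u : ι → Z =>
    Ψ u * (∏ j ∈ univ.erase a, ψ j (u a) (u j)) * ∑ w, ∏ i, F i w (u i)
  have s2 : ∀ u : ι → Z, ∑ y, Ψ (Function.update u a y) *
      (∏ j ∈ univ.erase a, ψ j (Function.update u a y a) (Function.update u a y j)) *
        ∑ w, ∏ i, F i w (Function.update u a y i) =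
      Ψ u * ∑ p : Z × Z, F a p.1 p.2 *
        ∏ j ∈ univ.erase a, (ψ j p.2 (u j) * F j p.1 (u j)) := by
    intro u
    rw [Fintype.sum_prod_type_right, mul_sum]
    refine sum_congr rfl fun y _ => ?_
    rw [h2, mul_assoc, mul_sum]
    congr 1
    refine sum_congr rfl fun w _ => ?_
    rw [← Finset.mul_prod_erase _ _ (mem_univ a), Function.update_self, mul_left_comm,
      ← prod_mul_distrib]
    congr 1
    exact prod_congr rfl fun j hj => by rw [Function.update_of_ne (ne_of_mem_erase hj)]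
  rw [sum_congr rfl fun u _ => s2 u] at s1
  have s3 := sq_sum_le_card_mul_sum_sq (s := (univ : Finset (ι → Z)))
    (f := fun u => Ψ u * ∑ p : Z × Z, F a p.1 p.2 *
        ∏ j ∈ univ.erase a, (ψ j p.2 (u j) * F j p.1 (u j)))
  have s4 := acs_sq a ψ F
  have s5 : ∑ u : ι → Z, (Ψ u * ∑ p : Z × Z, F a p.1 p.2 *
        ∏ j ∈ univ.erase a, (ψ j p.2 (u j) * F j p.1 (u j))) ^ 2 ≤
      ∑ u : ι → Z, (∑ p : Z × Z, F a p.1 p.2 *
        ∏ j ∈ univ.erase a, (ψ j p.2 (u j) * F j p.1 (u j))) ^ 2 := by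
    refine sum_le_sum fun u _ => ?_
    rw [mul_pow]
    exact mul_le_of_le_one_left (sq_nonneg _) ((sq_le_one_iff_abs_le_one _).2 (h1 u))
  rw [s1, card_univ, Fintype.card_fun, hq] at s3
  push_cast at s3
  have s6 := s3.trans (mul_le_mul_of_nonneg_left (s5.trans s4) (by positivity))
  refine le_of_mul_le_mul_left ?_ (pow_pos hn 2)
  rw [← mul_pow]
  refine s6.trans (le_of_eq ?_)
  ring

end Pool.Agent.P.MP_f1a348_lc.TO

end

section

/-! Step AFI. -/

set_option autoImplicit false
set_option linter.unusedSectionVars false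

namespace Pool.Agent.P.MP_f1a348_lc.TO

open Equiv Finset Filter
open scoped Classical

theorem afi_ins {P : APar} {Γ : Ctx P} {t : ℕ} (h : Γ.Pre t) {S A : Finset Γ.Y} {y : Γ.Y}
    (hc : S.card + A.card ≤ t) (hI : Γ.Ind S A) (hy : y ∉ Γ.acl (S ∪ A)) :
    Γ.Ind S (insert y A) := by
  have h1 := card_union_le S A
  have hyA : y ∉ A := fun c => hy (h.mem (by omega) (mem_union_right _ c))
  intro z hz
  rcases mem_insert.1 hz with rfl | hz'
  · rwa [erase_insert hyA]
  · have h2 := card_union_le S (A.erase z)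
    have h3 := card_erase_le (s := A) (a := z)
    rw [erase_insert_of_ne (fun e : y = z => hyA (e ▸ hz')), union_insert]
    refine h.nexch (by omega) (hI z hz') ?_
    rwa [← union_insert, insert_erase hz']

theorem p_AFI (hAPRE : S_APRE) :
    S_AFI := by
  intro P s
  filter_upwards [hAPRE P (3 * s)] with Γ h
  refine ⟨fun h1 h2 => afi_ins h (by omega), fun {S A A'} h1 h2 h3 hI hI' => ?_,
    fun {S} A h1 h2 => ?_⟩
  · induction A' using Finset.induction_on with
    | empty => simpa using hI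
    | insert y B hy ih =>
      have e := card_insert_of_notMem hy
      have e1 := card_union_le S A
      have e2 := card_union_le A B
      have := hI' y (mem_insert_self _ _)
      rw [erase_insert hy, union_assoc] at this
      rw [union_insert]
      exact afi_ins h (by omega)
        (ih (by omega) (h.ind_mono hI' subset_rfl (subset_insert _ _) (by omega))) this
  · induction A using Finset.induction_on with
    | empty => exact ⟨∅, subset_rfl, fun z hz => by simp at hz, by simp⟩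
    | insert y B hy ih =>
      have e := card_insert_of_notMem hy
      obtain ⟨A0, g1, g2, g3⟩ := ih (by omega)
      have e1 := card_le_card g1
      by_cases c : y ∈ Γ.acl (S ∪ A0)
      · exact ⟨A0, g1.trans (subset_insert _ _), g2, forall_mem_insert _ _ _ |>.2 ⟨c, g3⟩⟩
      · have e2 := card_union_le S (insert y A0)
        have e3 := card_insert_le y A0
        exact ⟨insert y A0, insert_subset_insert _ g1, afi_ins h (by omega) g2 c,
          forall_mem_insert _ _ _ |>.2 ⟨h.mem (by omega) (by simp), fun z hz =>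
            h.mono (union_subset_union_right (subset_insert _ _)) (by omega) (g3 z hz)⟩⟩

end Pool.Agent.P.MP_f1a348_lc.TO

end

section

/-! Step AIND0. -/

set_option autoImplicit false
set_option linter.unusedSectionVars false

namespace Pool.Agent.P.MP_f1a348_lc.TO

open Equiv Finset Filter
open scoped Classical

theorem p_AIND0 (hAFEW0 : S_AFEW0) (hASP : S_ASP) (hAIND2 : S_AIND2) (hAIND1 : S_AIND1) :
    S_AIND0 := by
  intro P s θ hθ
  obtain ⟨L, hL⟩ := hAFEW0 P s
  have hK : (0 : ℝ) < (P.K : ℝ) ^ (2 * s + 5) := pow_pos P.K_pos _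
  have h0 : 0 < θ ^ 2 / (P.K : ℝ) ^ (2 * s + 5) := by positivity
  filter_upwards [hL, hASP P s, hAIND2 P s, hAIND1 P s,
    ev_real P ((P.K : ℝ) ^ (s + 2) * P.C (s + 1) *
      (((θ ^ 2 / (P.K : ℝ) ^ (2 * s + 5)) ^ 2)⁻¹ + 1) ^ L)] with Γ h1 h2 h3 h4 h5
  have h6 : Γ.Ind2 s θ :=
    h3 _ θ h0.le hθ.le (le_of_eq (div_mul_cancel₀ _ hK.ne')) (h2 L _ h1 h0 h5)
  exact ⟨h6, h4 θ h6⟩

end Pool.Agent.P.MP_f1a348_lc.TO

end

section

/-! Step AL9. -/

set_option autoImplicit false
set_option linter.unusedSectionVars false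

namespace Pool.Agent.P.MP_f1a348_lc.TO

open Equiv Finset Filter
open scoped Classical

theorem p_AL9 (hALOW : S_ALOW) (hANONG : S_ANONG) (hAGENB : S_AGENB) :
    S_AL9 := by
  intro P s
  obtain ⟨c0, hc0, hL⟩ := hALOW P s
  filter_upwards [hL, hANONG P s (c0 / 3) (by positivity), hAGENB P s (c0 / 3) (by positivity),
    ev_n P 1] with G h1 h2 h3 hn S a c H hH hT
  have e1 := h1 S a c H hH hT
  have e2 := h2 S a c H hH hT
  have hn' : (0 : ℝ) < G.n := by exact_mod_cast hn
  have e3 : ∑ u ∈ fil (fun u => G.Gen S a c u), G.TT S a c u ^ 2 ≤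
      c0 / 3 * (G.n : ℝ) ^ (P.q + 1) := by
    refine (sum_le_card_nsmul _ _ (c0 / 3 * G.n) fun u hu =>
      h3 S a c u H hH hT (mem_fil.1 hu)).trans ?_
    have h4 : ((fil fun u => G.Gen S a c u).card : ℝ) ≤ (G.n : ℝ) ^ P.q := by
      have := card_fil_le (fun u => G.Gen S a c u)
      rw [Fintype.card_fun, Fintype.card_fin] at this
      exact_mod_cast this
    rw [nsmul_eq_mul, pow_succ]
    calc _ ≤ (G.n : ℝ) ^ P.q * (c0 / 3 * G.n) :=
          mul_le_mul_of_nonneg_right h4 (by positivity)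
      _ = _ := by ring
  have e4 : ∑ u : Fin P.q → G.Y, G.TT S a c u ^ 2 =
      ∑ u ∈ fil (fun u => G.Gen S a c u), G.TT S a c u ^ 2 +
        ∑ u ∈ fil (fun u => ¬ G.Gen S a c u), G.TT S a c u ^ 2 := by
    rw [← sum_ind_mul, ← sum_ind_mul, ← sum_add_distrib]
    refine sum_congr rfl fun u _ => ?_
    by_cases h : G.Gen S a c u
    · rw [ind_pos h, ind_neg (not_not.2 h)]; ring
    · rw [ind_neg h, ind_pos h]; ring
  have e5 : 0 < c0 * (G.n : ℝ) ^ (P.q + 1) := by positivity
  linarith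

end Pool.Agent.P.MP_f1a348_lc.TO

end

section

/-! Step AMEET. -/

set_option autoImplicit false
set_option linter.unusedSectionVars false

namespace Pool.Agent.P.MP_f1a348_lc.TO

open Equiv Finset Filter
open scoped Classical

theorem p_AMEET (hAPRE : S_APRE) :
    S_AMEET := by
  intro P s
  filter_upwards [hAPRE P (s + 1), ev_k P (s + 2), ev_n P
    (P.K ^ (s + 3) * (P.K ^ (s + 3) * P.K ^ (s + 3) * P.C (s + 1)))] with G h hk hn
  intro S E E' hS hE hL hE' hL' x hx
  by_contra hc
  have hs1 : ∀ z, (insert z S).card ≤ s + 1 := fun z => (card_insert_le _ _).trans (by omega)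
  have key : ∀ E, G.Dfn S E → G.Lrg S E → ∃ V ⊆ G.G.atom S x, V.card ≤ P.K ^ (s + 3) ∧
      ∀ y ∈ G.G.atom S x, ∃ v ∈ V, E v y := fun E hE hL => by
    refine lin_reps hE.1 _ univ _ ⟨x, mem_univ x⟩ fun z hz => ?_
    obtain ⟨y, h1, h2⟩ := hL z (h.nacl_e1 (by omega) (Sys.mem_atom.1 hz) hx)
    refine (le_of_lt (h.lrg (hs1 z) h2)).trans (Nat.mul_le_mul_left _ (card_le_card fun w hw => ?_))
    rw [mem_filter, (hE.2.fix (subset_insert z S) (mem_insert_self z S)).e1 (Sys.mem_atom.1 hw)]
    exact ⟨mem_univ w, h1⟩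
  obtain ⟨V, -, hV, hV1⟩ := key E hE hL
  obtain ⟨V', -, hV', hV1'⟩ := key E' hE' hL'
  have hI : G.G.Inv2 S fun a b => E a b ∧ E' a b := fun f a b hf => by
    simp only [hE.2 f a b hf, hE'.2 f a b hf]
  have h1 : ∀ z ∈ G.G.atom S x, (fil fun y => E z y ∧ E' z y).card ≤ P.C (s + 1) := fun z hz => by
    refine ((hI.card (by omega)).e1 (Sys.mem_atom.1 hz)).le.trans
      ((card_le_card fun y hy => ?_).trans (h.card (hs1 x)))
    by_contra h2
    exact hc ⟨y, by simpa using hy, h2⟩
  have h2 : (G.G.atom S x).card ≤ (V ×ˢ V').card * P.C (s + 1) := by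
    refine (card_le_card fun z hz => ?_).trans (card_biUnion_le_card_mul (V ×ˢ V')
      (fun p => (G.G.atom S x).filter fun z => E p.1 z ∧ E' p.2 z) _ fun p _ => ?_)
    · obtain ⟨v, hv, e⟩ := hV1 z hz
      obtain ⟨v', hv', e'⟩ := hV1' z hz
      exact mem_biUnion.2 ⟨(v, v'), mem_product.2 ⟨hv, hv'⟩, mem_filter.2 ⟨hz, e, e'⟩⟩
    · rcases ((G.G.atom S x).filter fun z => E p.1 z ∧ E' p.2 z).eq_empty_or_nonempty with
        h3 | ⟨z, hz⟩
      · rw [h3]; simp
      obtain ⟨hz, e, e'⟩ := mem_filter.1 hz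
      refine (card_le_card fun y hy => ?_).trans (h1 z hz)
      obtain ⟨-, f, f'⟩ := mem_filter.1 hy
      exact mem_fil.2 ⟨hE.1.trans (hE.1.symm e) f, hE'.1.trans (hE'.1.symm e') f'⟩
  rw [card_product] at h2
  exact absurd (lt_of_lt_of_le (h.lrg (by omega) hx) (Nat.mul_le_mul_left _
    (h2.trans (Nat.mul_le_mul_right _ (Nat.mul_le_mul hV hV'))))) (not_lt.2 hn)

end Pool.Agent.P.MP_f1a348_lc.TO

end

section

/-! Step ANG1. -/

set_option autoImplicit false
set_option linter.unusedSectionVars false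

namespace Pool.Agent.P.MP_f1a348_lc.TO

open Equiv Finset Filter
open scoped Classical

theorem ang1_sq {Z : Type} [Fintype Z] (f : Z → Z → ℝ) (g : Z → ℝ) (hg : ∀ w, |g w| ≤ 1) :
    ∑ y, (∑ w, f w y * g w) ^ 2 ≤ ∑ w, ∑ w', |∑ x, f w x * f w' x| := by
  have e : ∑ y, (∑ w, f w y * g w) ^ 2 = ∑ w, ∑ w', g w * g w' * ∑ x, f w x * f w' x := by
    simp only [pow_two, sum_mul_sum]
    simp only [mul_sum]
    rw [sum_comm]
    refine sum_congr rfl fun w _ => ?_
    rw [sum_comm]
    exact sum_congr rfl fun w' _ => sum_congr rfl fun y _ => by ring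
  rw [e]
  refine sum_le_sum fun w _ => sum_le_sum fun w' _ => (le_abs_self _).trans ?_
  rw [abs_mul, abs_mul]
  exact mul_le_of_le_one_left (abs_nonneg _) (mul_le_one₀ (hg w) (abs_nonneg _) (hg w'))

theorem p_ANG1 :
    S_ANG1 := by
  intro ι Z _ _ _ F l p b hF hp hb
  rw [← sum_ind_mul, ← sum_update l, ← sum_ind, sum_mul]
  refine sum_le_sum fun u _ => ?_
  simp only [ind_congr (hp u _)]
  rw [← mul_sum]
  refine mul_le_mul_of_nonneg_left (le_trans (le_of_eq ?_) ((ang1_sq (F l)
    (fun w => ∏ i ∈ univ.erase l, F i w (u i)) fun w => ?_).trans hb)) (ind_nonneg _)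
  · refine sum_congr rfl fun y _ => congrArg (· ^ 2) (sum_congr rfl fun w _ => ?_)
    rw [← mul_prod_erase _ _ (mem_univ l), Function.update_self]
    exact congrArg _ (prod_congr rfl fun i hi => by
      rw [Function.update_of_ne (ne_of_mem_erase hi)])
  · rw [abs_prod]
    exact prod_le_one (fun _ _ => abs_nonneg _) fun _ _ => hF _ _ _

end Pool.Agent.P.MP_f1a348_lc.TO

end

section

/-! Step APEXT. -/

set_option autoImplicit false
set_option linter.unusedSectionVars false

namespace Pool.Agent.P.MP_f1a348_lc.TO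

open Equiv Finset Filter
open scoped Classical

theorem p_APEXT (hAGEO : S_AGEO) (hAUP : S_AUP) :
    S_APEXT := by
  intro P s
  filter_upwards [hAGEO P s, hAUP P s] with Γ G hU
  intro S S' a a' b b' hS hc hab hab'
  refine ⟨fun hb hb' h0 => ?_, fun H h1 => ?_, fun H h2 => ?_⟩
  · obtain ⟨y, y', h1, h2, h3, h4, h5⟩ := h0
    obtain ⟨z, k1, k2, k3⟩ := hU S S' a y b b' hS hc hb hb' hab (h1.symm.trans hab') h3
    obtain ⟨z', k1', k2', k3'⟩ := hU S S' a y' b b' hS hc hb hb' hab (h2.symm.trans hab') h4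
    refine ⟨z, z', k1, k1', k2, k2', fun e => h5 ?_⟩
    exact ((k3.trans (e.toE2 (hS.trans (subset_insert _ _)) (mem_insert_self _ _))).trans
      k3'.symm).toE1
  · intro T x x' y y' k1 k2 k3 k4 k5 k6 k7 k8 k9 k10
    exact h1 T x x' y y' (hS.trans k1) k2 (hab.trans (G.qd hS hc k3))
      (hab'.trans (G.qd hS hc k4)) k5 k6 k7 k8 k9 (k10.base hS)
  · obtain ⟨T, e, x, p, k1, k2, k3, k4, k5⟩ := h2
    exact ⟨T, e, x, p, hS.trans k1, k2, hab.trans (G.qd hS hc k3),
      hab'.trans (G.qd hS hc k4), k5⟩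

end Pool.Agent.P.MP_f1a348_lc.TO

end

section

/-! Step AST1. -/

set_option autoImplicit false
set_option linter.unusedSectionVars false

namespace Pool.Agent.P.MP_f1a348_lc.TO

open Equiv Finset Filter
open scoped Classical

theorem ast1_conf {P : APar} {Γ : Ctx P} {s : ℕ} (h : Γ.Pre s) {S T : Finset Γ.Y} {a : Γ.Y}
    {d e p : Fin 3 → Γ.Y} (A : Fin 3 → Finset Γ.Y) (hT : T.card + 2 ≤ s) (hS : S ⊆ T)
    (hA : ∀ l, A l ⊆ T) (he : ∀ l, e l ∈ A l) (hp : ∀ l, Γ.Q S (d l) (p l))
    (h1 : ∀ l, a ∉ Γ.acl (S ∪ A l)) (h2 : ∀ l, a ∈ Γ.acl (insert (p l) (S ∪ A l)))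
    (h3 : ∀ l, a ∉ Γ.acl (insert (p l) (S ∪ (A l).erase (e l)))) (hx : a ∉ Γ.acl T)
    (ge : ∀ l, e l ∉ Γ.acl (insert a (T.erase (e l)))) (hs : ∀ l, e l ∉ S)
    (hd : ∀ l m, l ≠ m → e l ∉ A m) : Γ.Conf S T d a e p := by
  have c0 : ∀ {U : Finset Γ.Y}, U ⊆ T → U.card + 2 ≤ s := fun hU =>
    (Nat.add_le_add_right (card_le_card hU) 2).trans hT
  have c1 : ∀ {U : Finset Γ.Y} (x : Γ.Y), U ⊆ T → (insert x U).card + 1 ≤ s := fun {U} x hU => by
    have := c0 hU
    have := card_insert_le x U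
    omega
  have c2 : ∀ {U : Finset Γ.Y} (x y : Γ.Y), U ⊆ T → (insert y (insert x U)).card ≤ s :=
    fun x y hU => (card_insert_le _ _).trans (c1 x hU)
  have u1 : ∀ l, S ∪ A l ⊆ T := fun l => union_subset hS (hA l)
  have u2 : ∀ l, S ∪ (A l).erase (e l) ⊆ T.erase (e l) := fun l =>
    union_subset (subset_erase.2 ⟨hS, hs l⟩) (erase_subset_erase _ (hA l))
  refine ⟨fun l => subset_erase.2 ⟨hS, hs l⟩, fun l => hA l (he l), hp, hx,
    fun l => h.mono (insert_subset_insert _ (u1 l)) (Nat.le_of_succ_le (c1 _ subset_rfl)) (h2 l),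
    ge, fun l hl => ge l ?_, fun l m hlm => ?_⟩
  · have u3 := (u2 l).trans (erase_subset _ _)
    have c3 := Nat.le_of_succ_le (c1 a (erase_subset (e l) T))
    refine h.cl c3 (c2 _ _ u3) (fun b hb => ?_) (h.exch (Nat.le_of_succ_le (c1 _ u3))
      (h.mono (S := insert (p l) (S ∪ A l)) (fun z hz => ?_) (c2 _ _ u3) (h2 l)) (h3 l))
    · rcases mem_insert.1 hb with rfl | hb
      · exact h.mem c3 (mem_insert_self _ _)
      rcases mem_insert.1 hb with rfl | hb
      · exact hl
      · exact h.mem c3 (mem_insert_of_mem (u2 l hb))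
    · simp only [mem_insert, mem_union, mem_erase] at hz ⊢
      tauto
  · refine h.mono (insert_subset_insert _ (subset_erase.2 ⟨u1 m, fun c => ?_⟩))
      (Nat.le_of_succ_le (c1 a (erase_subset (e l) T)))
      (h.exch (by have := c0 (u1 m); omega) (h2 m) (h1 m))
    exact (mem_union.1 c).elim (hs l) (hd l m hlm)

theorem p_AST1 (hAGEO : S_AGEO) (hAST0 : S_AST0) :
    S_AST1 := by
  intro P s
  filter_upwards [hAGEO P (8 * s + 9), hAST0 P (2 * s + 2)] with Γ h h0 S a d H hH hC
  have hS : S.card ≤ H := by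
    obtain ⟨S', -, -, -, b1, b2, -⟩ := hC 0
    exact (card_le_card b1).trans b2
  obtain ⟨A1, e1, p1, a1, a2, a3, a4, a5, a6, a7⟩ :=
    h0 S ∅ a (d 0) a H (by omega) (by simp) (hC 0) (Ctx.Q.refl _ _)
  obtain ⟨A2, e2, p2, b1, b2, b3, b4, b5, b6, b7⟩ :=
    h0 S A1 a (d 1) a H (by omega) (by omega) (hC 1) (Ctx.Q.refl _ _)
  have k1 := card_union_le A1 A2
  obtain ⟨A3, e3, p3, c1, c2, c3, c4, c5, c6, c7⟩ :=
    h0 S (A1 ∪ A2) a (d 2) a H (by omega) (by omega) (hC 2) (Ctx.Q.refl _ _)
  rw [union_empty] at a4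
  have k2 := card_union_le (A1 ∪ A2) A3
  have k3 := card_union_le S (A1 ∪ A2 ∪ A3)
  have k4 := card_insert_le a S
  have k5 := card_union_le S A1
  have i1 := h.join (by omega) (by omega) (by omega) (h.join (by omega) (by omega) (by omega) a4 b4) c4
  have out : ∀ {B A : Finset Γ.Y}, Γ.Ind B A → B.card + A.card ≤ 8 * s + 9 → ∀ z ∈ A, z ∉ B :=
    fun {B A} hI hc z hz hB => hI z hz (h.mem ((card_union_le _ _).trans (by
      have := card_erase_le (s := A) (a := z); omega)) (mem_union_left _ hB))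
  have o1 := out i1 (by omega)
  have o2 := out b4 (by have := card_union_le (insert a S) A1; omega)
  have o3 := out c4 (by have := card_union_le (insert a S) (A1 ∪ A2); omega)
  have i2 : Γ.Ind S ({a} ∪ (A1 ∪ A2 ∪ A3)) := h.join (by omega) (by simp) (by omega)
    (fun z hz => by
      rw [mem_singleton.1 hz, erase_singleton, union_empty]
      exact h.toPre.nmono subset_union_left (by omega) a5)
    (by rwa [union_comm, ← insert_eq])
  have mU : ∀ l, ![e1, e2, e3] l ∈ A1 ∪ A2 ∪ A3 := fun l => by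
    fin_cases l <;> simp [a1, b1, c1]
  refine ⟨S ∪ (A1 ∪ A2 ∪ A3), ![e1, e2, e3], ![p1, p2, p3], by omega,
    ast1_conf h.toPre ![A1, A2, A3] (by omega) subset_union_left (fun l => ?_) (fun l => ?_)
      (fun l => ?_) (fun l => ?_) (fun l => ?_) (fun l => ?_) ?_ (fun l => ?_)
      (fun l c => o1 _ (mU l) (mem_insert_of_mem c)) fun l m hlm => ?_⟩
  · fin_cases l <;> intro z hz <;> simp at hz <;> simp [hz]
  · fin_cases l <;> assumption
  · fin_cases l <;> assumption
  · fin_cases l <;> assumption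
  · fin_cases l <;> assumption
  · fin_cases l <;> assumption
  · have := i2 a (by simp)
    rwa [← insert_eq, erase_insert fun c => o1 a c (mem_insert_self _ _)] at this
  · refine h.toPre.nmono (fun z hz => ?_) ((card_union_le _ _).trans ?_) (i1 _ (mU l))
    · simp only [mem_insert, mem_union, mem_erase] at hz ⊢
      tauto
    · have := card_erase_le (s := A1 ∪ A2 ∪ A3) (a := ![e1, e2, e3] l)
      omega
  · have d1 : ∀ z ∈ A2, z ∉ A1 := fun z hz c => o2 z hz (mem_union_right _ c)
    have d2 : ∀ z ∈ A3, z ∉ A1 := fun z hz c => o3 z hz (by simp [c])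
    have d3 : ∀ z ∈ A3, z ∉ A2 := fun z hz c => o3 z hz (by simp [c])
    fin_cases l <;> fin_cases m
    exacts [absurd rfl hlm, fun c => d1 _ c a1, fun c => d2 _ c a1, d1 _ b1, absurd rfl hlm,
      fun c => d3 _ c b1, d2 _ c1, d3 _ c1, absurd rfl hlm]

end Pool.Agent.P.MP_f1a348_lc.TO

end

section

/-! Step ATRIV. -/

set_option autoImplicit false
set_option linter.unusedSectionVars false

namespace Pool.Agent.P.MP_f1a348_lc.TO

open Equiv Finset Filter
open scoped Classical

theorem p_ATRIV (hAGEO : S_AGEO) :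
    S_ATRIV := by
  intro P s
  filter_upwards [hAGEO P s] with Γ h
  intro S a c u H hH hT hG
  have hq := P.q_ge
  have hroom := hT.room
  have hc2 := Ctx.card_S2 S a c
  have hcard : ∀ J : Finset (Fin P.q), (Γ.S2 S a c ∪ J.image u).card + 2 ≤ H := by
    intro J
    have h1 := card_union_le (Γ.S2 S a c) (J.image u)
    have h2 : (J.image u).card ≤ P.q := card_image_le.trans ((card_le_univ _).trans (by simp))
    omega
  have hins : ∀ (J : Finset (Fin P.q)) (l : Fin P.q),
      insert (u l) (Γ.S2 S a c ∪ J.image u) = Γ.S2 S a c ∪ (insert l J).image u := by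
    intro J l
    rw [image_insert, union_insert]
  have key : ∀ (n : ℕ) (J : Finset (Fin P.q)) (i : Fin P.q), J.card = n → i ∉ J →
      u i ∉ Γ.acl (Γ.S2 S a c ∪ J.image u) := by
    intro n
    induction n using Nat.strong_induction_on with
    | _ n ih =>
      intro J i hJ hi hx
      by_cases h1 : J.card ≤ 1
      · have : ∃ j, j ≠ i ∧ J ⊆ {j} := by
          rcases J.eq_empty_or_nonempty with rfl | ⟨j, hj⟩
          · obtain ⟨j, hj⟩ := Fintype.exists_ne_of_one_lt_card
              (α := Fin P.q) (by rw [Fintype.card_fin]; omega) i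
            exact ⟨j, hj, empty_subset _⟩
          · exact ⟨j, fun e => hi (e ▸ hj), fun k hk =>
              mem_singleton.2 (card_le_one.1 h1 k hk j hj)⟩
        obtain ⟨j, hji, hj⟩ := this
        refine hG.2 i j hji.symm (h.toPre.mono ?_ ?_ hx)
        · refine union_subset (subset_insert _ _) fun y hy => ?_
          obtain ⟨k, hk, rfl⟩ := mem_image.1 hy
          rw [mem_singleton.1 (hj hk)]
          exact mem_insert_self _ _
        · have := card_insert_le (u j) (Γ.S2 S a c)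
          omega
      · obtain ⟨j, hj, l, hl, hjl⟩ := one_lt_card.1 (by omega : 1 < J.card)
        have hlj : l ∈ J.erase j := mem_erase.2 ⟨hjl.symm, hl⟩
        have c1 := card_erase_of_mem hj
        have c2 := card_erase_of_mem hlj
        have e1 : insert l ((J.erase j).erase l) = J.erase j := insert_erase hlj
        have e2 : insert j ((J.erase j).erase l) = J.erase l := by
          rw [erase_right_comm]; exact insert_erase (mem_erase.2 ⟨hjl, hj⟩)
        have c3 := card_erase_of_mem hl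
        have hij : i ≠ j := fun e => hi (e ▸ hj)
        refine hT.nc i j hij ⟨Γ.S2 S a c ∪ ((J.erase j).erase l).image u, u l, u i, u j,
          (Ctx.sub_S2 S a c).trans subset_union_left, by have := hcard ((J.erase j).erase l); omega,
          hG.1 i, hG.1 j, ?_, ?_, ?_, ?_, ?_⟩
        · exact ih _ (by omega) _ l rfl (notMem_erase _ _)
        · rw [hins, e1]
          exact ih _ (by omega) _ j rfl (notMem_erase _ _)
        · rw [hins, e1, hins, insert_erase hj]
          exact hx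
        · rw [hins, e1]
          exact ih _ (by omega) _ i rfl fun hk => hi (mem_of_mem_erase hk)
        · rw [hins, e2]
          exact ih _ (by omega) _ i rfl fun hk => hi (mem_of_mem_erase hk)
  intro i
  exact key _ _ i rfl (notMem_erase _ _)

end Pool.Agent.P.MP_f1a348_lc.TO

end
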