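import Pool.Agent.P.MP_f1a348_lc.TO.AIface

section

/-! Step ACORE. -/

set_option autoImplicit false
set_option linter.unusedSectionVars false

namespace Pool.Agent.P.MP_f1a348_lc.TO

open Equiv Finset Filter
open scoped Classical

theorem p_ACORE (hATRV : S_ATRV) (hAL9 : S_AL9) :
    S_ACORE := by
  intro K C hK hC
  let P : APar := ⟨K, C, hK, hC⟩
  obtain ⟨s, h1⟩ := hATRV P
  have h : ∀ᶠ Γ : Ctx P in big P, False := by
    filter_upwards [h1, hAL9 P s] with Γ ⟨S, a, c, H, h2, h3⟩ h4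
    exact h4 S a c H h2 h3
  obtain ⟨N, hN⟩ := of_ev h
  refine ⟨N, fun Y i1 i2 k Γ h2 h3 h4 => hN ⟨Y, i1, i2, k, Γ, fun S hS => ?_⟩ h2 h3⟩
  convert h4 S hS using 2
  ext w
  simp [Sys.acl, P]

end Pool.Agent.P.MP_f1a348_lc.TO

end

section

/-! Step AFR. -/

set_option autoImplicit false
set_option linter.unusedSectionVars false

namespace Pool.Agent.P.MP_f1a348_lc.TO

open Equiv Finset Filter
open scoped Classical

section
variable {P : APar} {Γ : Ctx P} {s t : ℕ} {S : Finset Γ.Y}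

/-- Conjugacy under strong local automorphisms. -/
def afrE (S : Finset Γ.Y) (a a' : Γ.Y) : Prop := ∃ f : Perm Γ.Y, Γ.SL S {a} f ∧ f a = a'

theorem afr_equiv (hm : Γ.Fm t) (hS : S.card ≤ t) (h1 : 1 ≤ t) : Equivalence (afrE S) := by
  refine ⟨fun a => ⟨1, Ctx.SL.one _ _, rfl⟩, ?_, ?_⟩
  · rintro a _ ⟨f, hf, rfl⟩
    exact ⟨f⁻¹, hm.sinv hS (by simpa using h1) hf (by simp), by simp⟩
  · rintro a _ _ ⟨f, hf, rfl⟩ ⟨g, hg, rfl⟩
    exact ⟨g * f, hm.smul hS (by simpa using h1) (by simpa using h1) hf hg (by simp), rfl⟩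

theorem afr_inv (hs : Γ.Fs t) (ht : Γ.Ft t) (hS : S.card ≤ t) (h1 : 1 ≤ t)
    (hR : (Γ.rep S).card ≤ t) (hk : 3 * t + 2 ≤ Γ.k) : Γ.G.Inv2 S (afrE S) := by
  refine Sys.Inv2.of_imp ?_
  rintro h a _ hh ⟨f, hf, rfl⟩
  have c2 : ∀ x y : Γ.Y, ({x, y} : Finset Γ.Y).card ≤ 2 := fun x y => card_le_two
  have hi : Γ.G.Aut S {h a, h (f a)} h⁻¹ := hh.inv (by simp)
  obtain ⟨h1, e1, a1⟩ := hi.ext (Γ.rep S) (by have := c2 (h a) (h (f a)); omega)
  have e1a : h1 (h a) = a := by rw [e1 _ (by simp)]; simp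
  have e1b : h1 (h (f a)) = f a := by rw [e1 _ (by simp)]; simp
  have cR : ((Γ.rep S).image h1).card ≤ t := card_image_le.trans hR
  obtain ⟨f1, e2, a2⟩ := hs.sext ((Γ.rep S).image h1) hS (by simpa using ‹1 ≤ t›) cR hf
  have e2a : f1 a = f a := e2 a (by simp)
  have hi2 : Γ.G.Aut S ({a, f a} ∪ (Γ.rep S).image h1) h1⁻¹ := a1.inv fun y hy => by
    rcases mem_union.1 hy with hy | hy
    · rcases mem_insert.1 hy with rfl | hy
      · exact ⟨h y, by simp, e1a⟩
      · rw [mem_singleton.1 hy]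
        exact ⟨h (f a), by simp, e1b⟩
    · obtain ⟨r, hr, rfl⟩ := mem_image.1 hy
      exact ⟨r, by simp [hr], rfl⟩
  obtain ⟨h2, e3, a3⟩ := hi2.ext (((Γ.rep S).image h1).image f1) (by
    have := c2 a (f a)
    have := card_union_le ({a, f a} : Finset Γ.Y) ((Γ.rep S).image h1)
    have : (((Γ.rep S).image h1).image f1).card ≤ t := card_image_le.trans cR
    omega)
  have b1 : Γ.G.Aut S ({h a} ∪ Γ.rep S) h1 := a1.base subset_rfl fun x hx => by
    rcases mem_union.1 hx with hx | hx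
    · simp [mem_singleton.1 hx]
    · simp [hx]
  have b2 : Γ.G.Aut S ({h a} ∪ Γ.rep S) (f1 * h1) := b1.mul a2.aut fun x hx => by
    rcases mem_union.1 hx with hx | hx
    · rw [mem_singleton.1 hx, e1a]; simp
    · exact mem_union_right _ (mem_union_right _ (mem_image_of_mem _ hx))
  have b3 : Γ.G.Aut S ({h a} ∪ Γ.rep S) (h2 * (f1 * h1)) := b2.mul a3 fun x hx => by
    rcases mem_union.1 hx with hx | hx
    · rw [mem_singleton.1 hx, Perm.mul_apply, e1a, e2a]; simp
    · exact mem_union_right _ (mem_union_right _ (mem_image_of_mem _ (mem_image_of_mem _ hx)))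
  refine ⟨h2 * (f1 * h1), ⟨b3.2, _, fun _ _ => rfl, by rw [union_assoc]; exact b3.1,
    fun r hr => ?_⟩, ?_⟩
  · have m1 : h1 r ∈ (Γ.rep S).image h1 := mem_image_of_mem _ hr
    have q1 : Γ.Q S (h1 r) (f1 (h1 r)) := hs.pres hS a2 (mem_union_right _ m1)
    have q2 := ht.qtr (f := h2) hS (Sys.mono a3.1 (insert_subset
      (mem_union_right _ (mem_union_left _ (mem_union_right _ m1)))
      (insert_subset (mem_union_right _ (mem_union_right _ (mem_image_of_mem _ m1)))
        subset_union_left))) q1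
    rw [Sys.image_fix a3.2, e3 (h1 r) (mem_union_right _ (mem_union_right _ m1))] at q2
    simpa using q2
  · rw [Perm.mul_apply, Perm.mul_apply, e1a, e2a, e3 (f a) (by simp), Perm.inv_eq_iff_eq, e1b]

theorem afr_lrg (hp : Γ.Pre t) (hI : Γ.G.Inv2 S (afrE S)) (hS : S.card + 1 ≤ t)
    (hR : S.card + (Γ.rep S).card ≤ t) (hk : t + 2 ≤ Γ.k) : Γ.Lrg S (afrE S) := by
  intro x hx
  have cB : (S ∪ Γ.rep S).card ≤ t := (card_union_le _ _).trans hR
  obtain ⟨a1, h1, h2⟩ := hp.avoid (hp.lrg (by omega) hx) cB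
  have h3 : Γ.Lg t (fil (afrE S a1)) := (hp.lrg cB h2).mono fun b hb => by
    obtain ⟨f, hf, rfl⟩ := Sys.mem_atom.1 hb
    refine mem_fil.2 ⟨f, ⟨fun y hy => hf.2 y (mem_union_left _ hy), f, fun _ _ => rfl,
      by rw [union_right_comm]; exact hf.1, fun r hr => ?_⟩, rfl⟩
    rw [hf.2 r (mem_union_right _ hr)]
    exact Ctx.Q.refl S r
  have h4 : (fil (afrE S a1)).card = (fil (afrE S x)).card :=
    (hI.card (by omega)).e1 (Sys.mem_atom.1 h1)
  have h5 : Γ.Lg t (fil (afrE S x)) := by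
    unfold Ctx.Lg at h3 ⊢
    rwa [h4] at h3
  obtain ⟨y, h6, h7⟩ := hp.avoid h5 ((card_insert_le x S).trans hS)
  exact ⟨y, mem_fil.1 h6, h7⟩

end

theorem p_AFR (hAPRE : S_APRE) (hAFL : S_AFL) (hAFT : S_AFT) (hAFS : S_AFS) (hAFM : S_AFM) :
    S_AFR := by
  intro P s
  obtain ⟨t, ht⟩ : ∃ t, t = s + (P.C s + P.K ^ (s + 2)) + 1 := ⟨_, rfl⟩
  filter_upwards [hAPRE P t, hAFL P s, hAFT P t, hAFS P t, hAFM P t, ev_k P (3 * t + 2)]
    with Γ h1 h2 h3 h4 h5 hk
  refine ⟨fun {S a a'} hS hQ => ?_⟩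
  have hR := h2.repc hS
  generalize P.C s + P.K ^ (s + 2) = r at ht hR
  have hI := afr_inv h4 h3 (S := S) (by omega) (by omega) (by omega) hk
  exact hQ (afrE S) ⟨afr_equiv h5 (by omega) (by omega), hI⟩
    (afr_lrg h1 hI (by omega) (by omega) (by omega))

end Pool.Agent.P.MP_f1a348_lc.TO

end

section

/-! Step AFS. -/

set_option autoImplicit false
set_option linter.unusedSectionVars false

namespace Pool.Agent.P.MP_f1a348_lc.TO

open Equiv Finset Filter
open scoped Classical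

theorem AFS_pres {P : APar} {Γ : Ctx P} {s : ℕ} (hT : Γ.Ft s) {S A : Finset Γ.Y} {f : Perm Γ.Y}
    {x : Γ.Y} (hc : S.card ≤ s) (h : Γ.SL S A f) (hx : x ∈ A) : Γ.Q S x (f x) := by
  obtain ⟨h1, g, h2, h3, h4⟩ := h
  obtain ⟨r, hr, e⟩ := Γ.exists_rep S x
  have h5 := hT.qtr (f := g) hc (Sys.mono h3 (insert_subset (mem_union_right _ hr)
    (insert_subset (mem_union_left _ (mem_union_right _ hx))
      (subset_union_left.trans subset_union_left)))) e
  rw [Sys.image_fix fun y hy => by rw [h2 y (mem_union_left _ hy), h1 y hy],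
    h2 x (mem_union_right _ hx)] at h5
  exact (e.symm.trans (h4 r hr)).trans h5

theorem AFS_new {P : APar} {Γ : Ctx P} {S A B : Finset Γ.Y} {g g' : Perm Γ.Y}
    (h1 : ∀ x ∈ S, g x = x) (h4 : ∀ r ∈ Γ.rep S, Γ.Q S r (g r))
    (h5 : ∀ x ∈ S ∪ A ∪ Γ.rep S, g' x = g x) (h6 : Γ.G.L (S ∪ B ∪ Γ.rep S) g') :
    Γ.SL S B g' :=
  ⟨fun x hx => by rw [h5 x (mem_union_left _ (mem_union_left _ hx)), h1 x hx], g',
    fun _ _ => rfl, h6, fun r hr => by rw [h5 r (mem_union_right _ hr)]; exact h4 r hr⟩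

theorem p_AFS (hAPRE : S_APRE) (hAFL : S_AFL) (hAFT : S_AFT) :
    S_AFS := by
  intro P s
  filter_upwards [hAFL P s, hAFT P s, ev_k P (3 * s + 2 * (P.C s + P.K ^ (s + 2)) + 1)] with
    Γ hL hT hk
  have hcard : ∀ {S A : Finset Γ.Y}, S.card ≤ s → A.card ≤ s →
      (S ∪ A ∪ Γ.rep S).card ≤ 2 * s + (P.C s + P.K ^ (s + 2)) := fun {S A} h1 h2 => by
    have := card_union_le (S ∪ A) (Γ.rep S)
    have := card_union_le S A
    have := hL.repc h1
    omega
  refine ⟨fun hc h hx => AFS_pres hT hc h hx, ?_, ?_, ?_⟩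
  · intro S A f B hS hA hB ⟨h1, g, h2, h3, h4⟩
    have := hcard hS hA
    obtain ⟨g', h5, h6⟩ := Sys.exts h3 B (by omega)
    refine ⟨g', fun x hx => by rw [h5 x (mem_union_left _ hx), h2 x hx],
      AFS_new (fun x hx => by rw [h2 x (mem_union_left _ hx), h1 x hx]) h4 h5 (Sys.mono h6 ?_)⟩
    intro z hz; simp only [mem_union] at hz ⊢; tauto
  · intro S A f hS hA ⟨h1, g, h2, h3, h4⟩
    have := hcard hS hA
    obtain ⟨β, hβ⟩ := Γ.G.ext h3 (by omega)
    refine ⟨β, fun w => ?_⟩
    obtain ⟨g', h5, h7, h6⟩ := hβ w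
    refine ⟨g', fun x hx => by rw [h5 x (mem_union_left _ hx), h2 x hx], h7,
      AFS_new (fun x hx => by rw [h2 x (mem_union_left _ hx), h1 x hx]) h4 h5 (Sys.mono h6 ?_)⟩
    intro z hz; simp only [mem_union, mem_insert] at hz ⊢; tauto
  · intro S S' A B f hSS hS hA ⟨h1, g, h2, h3, h4⟩ hB
    have := hcard hS hA
    have hS0 : S.card ≤ s := (card_le_card hSS).trans hS
    have := hL.repc hS0
    obtain ⟨g', h5, h6⟩ := Sys.exts h3 (Γ.rep S) (by omega)
    have h7 : Γ.SL S' (A ∪ Γ.rep S) g' :=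
      AFS_new (fun x hx => by rw [h2 x (mem_union_left _ hx), h1 x hx]) h4 h5 (Sys.mono h6 (by
        intro z hz; simp only [mem_union] at hz ⊢; tauto))
    have h8 : S ∪ B ⊆ S' ∪ A := union_subset (hSS.trans subset_union_left) hB
    exact ⟨fun x hx => h1 x (hSS hx), g',
      fun x hx => by rw [h5 x (mem_union_left _ (h8 hx)), h2 x (h8 hx)],
      Sys.mono h6 (union_subset_union_left (h8.trans subset_union_left)),
      fun r hr => hL.qd hSS hS (AFS_pres hT hS h7 (mem_union_right _ hr))⟩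

end Pool.Agent.P.MP_f1a348_lc.TO

end

section

/-! Step AFT. -/

set_option autoImplicit false
set_option linter.unusedSectionVars false

namespace Pool.Agent.P.MP_f1a348_lc.TO

open Equiv Finset Filter
open scoped Classical

theorem p_AFT (hAPRE : S_APRE) :
    S_AFT := by
  intro P s
  filter_upwards [hAPRE P (s + 3)] with Γ h
  refine ⟨fun {S x0 y0 f} hc hf hQ E' hD hL => ?_⟩
  have hk := h.room
  have hfS : Γ.G.L S f := Sys.mono hf (by grind)
  have key : ∀ (x y : Γ.Y) (g g' : Perm Γ.Y), (∀ z ∈ S, g z = f z) →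
      Γ.G.L (insert x (insert y S)) g → (∀ z ∈ S, g' z = f z) →
      Γ.G.L (insert x (insert y S)) g' → E' (g x) (g y) → E' (g' x) (g' y) := by
    intro x y g g' h1 h2 h3 h4 e
    have h5 : ∀ w ∈ S.image f ∪ {g x, g y}, ∃ z ∈ insert x (insert y S), g z = w := by
      intro w hw
      simp only [mem_union, mem_image, mem_insert, mem_singleton] at hw
      rcases hw with ⟨z, hz, rfl⟩ | rfl | rfl
      · exact ⟨z, by simp [hz], h1 z hz⟩
      · exact ⟨x, by simp, rfl⟩
      · exact ⟨y, by simp, rfl⟩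
    have h0 : ∀ z, (g' * g⁻¹) (g z) = g' z := fun z => by simp
    have h6 : Γ.G.Aut (S.image f) {g x, g y} (g' * g⁻¹) := by
      refine ⟨Sys.mul' (Sys.inv' h2 h5) h4 fun w hw => ?_, fun w hw => ?_⟩
      · obtain ⟨z, hz, rfl⟩ := h5 w hw
        simpa using hz
      · obtain ⟨z, hz, rfl⟩ := mem_image.1 hw
        rw [← h1 z hz, h0, h1 z hz, h3 z hz]
    have h7 := hD.2 _ _ _ h6
    rw [h0, h0] at h7
    rwa [h7]
  refine hQ (fun x y => ∀ g : Perm Γ.Y, (∀ z ∈ S, g z = f z) →
    Γ.G.L (insert x (insert y S)) g → E' (g x) (g y)) ⟨⟨?_, ?_, ?_⟩, ?_⟩ ?_ f (fun _ _ => rfl) hf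
  · exact fun x g _ _ => hD.1.refl _
  · exact fun {x y} e g h1 h2 => hD.1.symm (e g h1 (by rwa [insert_comm]))
  · intro x y z e e' g h1 h2
    have c1 := card_insert_le x (insert z S)
    have c2 := card_insert_le z S
    obtain ⟨g', h3, h4⟩ := Sys.ext1 h2 (by omega) y
    have h5 : ∀ w ∈ S, g' w = f w := fun w hw => by rw [h3 w (by simp [hw]), h1 w hw]
    rw [← h3 x (by simp), ← h3 z (by simp)]
    exact hD.1.trans (e g' h5 (Sys.mono h4 (by grind))) (e' g' h5 (Sys.mono h4 (by grind)))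
  · refine Sys.Inv2.of_imp fun u x y hu e g h1 h2 => e (g * u) (fun z hz => ?_) ?_
    · rw [Perm.mul_apply, hu.2 z hz, h1 z hz]
    · refine Sys.mul' (Sys.mono hu.1 (by grind)) h2 fun z hz => ?_
      simp only [mem_insert] at hz ⊢
      rcases hz with rfl | rfl | hz
      · simp
      · simp
      · rw [hu.2 z hz]; simp [hz]
  · intro x hx
    have c1 := card_insert_le x S
    obtain ⟨g, h1, h2⟩ := Sys.ext1 hfS (by omega) x
    have h3 : g x ∉ Γ.acl (S.image f) :=
      h.nacl_tr h2 (subset_insert _ _) (mem_insert_self _ _) (fun w hw => by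
        obtain ⟨z, hz, rfl⟩ := mem_image.1 hw
        exact ⟨z, hz, h1 z hz⟩) (by omega) hx
    obtain ⟨y', e, hy'⟩ := hL _ h3
    obtain ⟨g', y, h4, rfl, h6⟩ := Sys.extb h2 (by omega) y'
    have h5 : ∀ w ∈ S, g' w = f w := fun w hw => by rw [h4 w (by simp [hw]), h1 w hw]
    rw [← h4 x (by simp)] at e hy'
    refine ⟨y, fun g'' h7 h8 => key x y g' g'' h5 (by rwa [insert_comm]) h7 h8 e, fun h7 => hy' ?_⟩
    have c2 := card_insert_le (g' x) (S.image f)
    have c3 : (S.image f).card ≤ S.card := card_image_le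
    refine h.acl_tr h6 (subset_insert _ _) (mem_insert_self _ _) (fun w hw => ?_) (by omega) h7
    rcases mem_insert.1 hw with rfl | hw
    · simp
    · rw [h5 w hw]; exact mem_insert_of_mem (mem_image_of_mem _ hw)

end Pool.Agent.P.MP_f1a348_lc.TO

end

section

/-! Step AGCNT. -/

set_option autoImplicit false
set_option linter.unusedSectionVars false

namespace Pool.Agent.P.MP_f1a348_lc.TO

open Equiv Finset Filter
open scoped Classical

theorem p_AGCNT (hAGEO : S_AGEO) (hACONJ : S_ACONJ) (hATRIV : S_ATRIV) :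
    S_AGCNT := by
  intro P s
  filter_upwards [hAGEO P s, hACONJ P s, hATRIV P s] with Γ h hC hT S a c u H hH ht hg
  have h2 := Ctx.card_S2 S a c
  have hr := ht.room
  have h3 := hC P.q (Γ.S2 S a c) u (by omega) (hT S a c u H hH ht hg)
  have hu : ∀ i, u i ∈ Γ.S2 S a c ∪ univ.image u := fun i =>
    mem_union_right _ (mem_image_of_mem _ (mem_univ i))
  have h4 : (fil fun v : Fin P.q → Γ.Y =>
      ∃ f : Perm Γ.Y, Γ.G.Aut (Γ.S2 S a c) (univ.image u) f ∧ ∀ i, f (u i) = v i) ⊆
      fil fun v => Γ.Sim S u v ∧ Γ.Gen S a c v := by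
    intro v hv
    obtain ⟨f, hf, e⟩ := mem_fil.1 hv
    refine mem_fil.2 ⟨fun i j _ => ?_, fun i => ?_, fun i j hij => ?_⟩
    · rw [← e i, ← e j]
      exact ((Sys.E2.of hf (hu i) (hu j)).base (Ctx.sub_S2 S a c)).symm
    · have h5 := (Ctx.Q.inv2 S).app hf (Ctx.sub_S2 S a c)
        (mem_union_left _ (Ctx.c_mem_S2 S a c i)) (hu i)
      rw [hf.2 _ (Ctx.c_mem_S2 S a c i), e i] at h5
      rw [h5]; exact hg.1 i
    · rw [← e i]
      have h6 := card_insert_le (u j) (Γ.S2 S a c)
      refine h.toPre.nacl_tr hf.1 (insert_subset (hu j) subset_union_left) (hu i)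
        (fun y hy => ?_) (by omega) (hg.2 i j hij)
      rcases mem_insert.1 hy with rfl | hy
      · exact ⟨u j, mem_insert_self _ _, e j⟩
      · exact ⟨y, mem_insert_of_mem hy, hf.2 y hy⟩
  have h5 := h3.trans (Nat.mul_le_mul_left _ (card_le_card h4))
  have h6 : (Γ.n : ℝ) ^ P.q ≤ ((P.K : ℝ) ^ (s + 2)) ^ P.q *
      ((fil fun v => Γ.Sim S u v ∧ Γ.Gen S a c v).card : ℝ) := by exact_mod_cast h5
  rw [mul_pow, APar.dl, inv_pow, inv_mul_le_iff₀ (pow_pos (pow_pos P.K_pos _) _)]
  exact h6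

end Pool.Agent.P.MP_f1a348_lc.TO

end

section

/-! Step AGEN. -/

set_option autoImplicit false
set_option linter.unusedSectionVars false

namespace Pool.Agent.P.MP_f1a348_lc.TO

open Equiv Finset Filter
open scoped Classical

theorem p_AGEN (hAGEO : S_AGEO) :
    S_AGEN := by
  intro P s
  filter_upwards [hAGEO P (3 * s + 9)] with Γ h S A B hS hA hB hI
  induction A using Finset.induction_on with
  | empty => exact ⟨1, Ctx.SL.one _ _, fun z hz => by simp at hz⟩
  | insert z A0 hz ih =>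
    rw [card_insert_of_notMem hz] at hA
    have c0 : (insert z A0).card = A0.card + 1 := card_insert_of_notMem hz
    obtain ⟨f0, h1, h2⟩ := ih (by omega)
      (h.toPre.ind_mono hI subset_rfl (subset_insert _ _) (by omega))
    obtain ⟨g, h3, h4⟩ := h.sext {z} (by omega) (by omega) (by rw [card_singleton]; omega) h1
    have c1 : (A0.image f0).card ≤ A0.card := card_image_le
    have c2 := card_union_le S (A0.image f0)
    have c3 := card_union_le S A0
    have c4 := card_union_le S B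
    have c5 := card_union_le (S ∪ B) (A0.image f0)
    have c6 := card_insert_le (g z) (A0.image f0)
    have h5 : z ∉ Γ.acl (S ∪ A0) := by
      have := hI z (mem_insert_self _ _)
      rwa [erase_insert hz] at this
    have h6 : g z ∉ Γ.acl (S ∪ A0.image f0) := by
      refine h.toPre.nacl_tr h4.aut.1 (union_subset_union_right subset_union_left) (by simp)
        (fun y hy => ?_) (by omega) h5
      rcases mem_union.1 hy with hy | hy
      · exact ⟨y, mem_union_left _ hy, h4.fix y hy⟩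
      · obtain ⟨x, hx, rfl⟩ := mem_image.1 hy
        exact ⟨x, mem_union_right _ hx, h3 x (mem_union_right _ hx)⟩
    obtain ⟨y, h7, h8⟩ := h.qav (by omega) h6 (S ∪ B ∪ A0.image f0) (by omega)
    obtain ⟨f1, h9, h10⟩ := h.transfer (by omega) h7
    have h11 : Γ.SL S (insert (g z) (A0.image f0)) f1 :=
      h.sbase subset_union_left (by omega) (by rw [card_singleton]; omega) h9
        (insert_subset (by simp) (subset_union_right.trans subset_union_left))
    have h12 : Γ.SL S (insert z A0) g :=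
      h4.mono (insert_subset (by simp) (subset_union_left.trans subset_union_right))
    refine ⟨f1 * g, h.smul (by omega) (by omega) (by omega) h12 h11 fun x hx => ?_, ?_⟩
    · refine mem_union_right _ ?_
      rcases mem_insert.1 hx with rfl | hx
      · exact mem_insert_self _ _
      · rw [h3 x (mem_union_right _ hx)]
        exact mem_insert_of_mem (mem_image_of_mem _ hx)
    · have e : A0.image (f1 * g : Perm Γ.Y) = A0.image f0 := image_congr fun x hx => by
        rw [Perm.mul_apply, h3 x (mem_union_right _ hx)]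
        exact h9.fix _ (mem_union_right _ (mem_image_of_mem _ hx))
      rw [image_insert, e, Perm.mul_apply, h10]
      exact h.ins (by omega) (by omega) h2 h8

end Pool.Agent.P.MP_f1a348_lc.TO

end

section

/-! Step AM2. -/

set_option autoImplicit false
set_option linter.unusedSectionVars false

namespace Pool.Agent.P.MP_f1a348_lc.TO

open Equiv Finset Filter
open scoped Classical

theorem p_AM2 (hAGEO : S_AGEO) (hATINV : S_ATINV) (hAM2A : S_AM2A) (hAM2B : S_AM2B) :
    S_AM2 := by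
  intro P s
  filter_upwards [hAGEO P (3 * s + 9), hATINV P (s + 2), hAM2A P s, hAM2B P s,
    ev_real P ((P.C s : ℝ) / P.dl s ^ 2)] with Γ h hI hA hB hn
  intro S a c H hH T i w hw
  have room := T.room
  have c2 : ∀ w' : Γ.Y, (insert w ({w'} : Finset Γ.Y)).card ≤ s + 2 := fun w' =>
    card_le_two.trans (by omega)
  have key : ∀ w' : Γ.Y, ∃ f : Perm Γ.Y, Γ.SL S (insert w {w'}) f ∧ f w = a := fun w' =>
    h.move (by omega) {w'} (by rw [card_singleton]; omega) hw.symm
  have low : P.dl s ^ 2 * Γ.n ≤ Γ.MM S a (c i) a a := by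
    obtain ⟨y, h1, h2, h3⟩ := T.col i
    exact hA S a (c i) y (by omega) (T.hc i) h1 h2 h3
  refine ⟨?_, fun w' hw' => ?_⟩
  · obtain ⟨f, hf, e⟩ := key w
    have := (hI S _ a f (by omega) (c2 w) hf).2.1 (c i) w w (by simp) (by simp)
    rw [e] at this
    rw [← this]; exact low
  · obtain ⟨f, hf, e⟩ := key w'
    have := (hI S _ a f (by omega) (c2 w') hf).2.1 (c i) w w' (by simp) (by simp)
    rw [e] at this
    rw [← this]
    by_cases hq : Γ.Q S a (f w')
    · have hacl : f w' ∈ Γ.acl (insert a S) := by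
        refine h.toPre.acl_tr hf.aut.1 (S := insert w S)
          (insert_subset (by simp) subset_union_left) (by simp) (fun x hx => ?_)
          ((card_insert_le _ _).trans (by omega)) hw'
        rcases mem_insert.1 hx with rfl | hx
        · rw [e]; exact mem_insert_self _ _
        · rw [hf.fix x hx]; exact mem_insert_of_mem hx
      have h1 := hB S a (c i) (f w') (by omega) hq fun x hx hx' => T.uni (f w') i x hacl hq hx hx'
      have h2 : (P.C s : ℝ) ≤ P.dl s ^ 2 * Γ.n := by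
        rwa [div_le_iff₀' (pow_pos (P.dl_pos s) 2)] at hn
      linarith
    · refine le_of_eq (sum_eq_zero fun x _ => ?_).symm
      rw [Ctx.ff_eq_zero (w := f w') fun h1 => hq h1.1, mul_zero]

end Pool.Agent.P.MP_f1a348_lc.TO

end

section

/-! Step ASP1. -/

set_option autoImplicit false
set_option linter.unusedSectionVars false

namespace Pool.Agent.P.MP_f1a348_lc.TO

open Equiv Finset Filter
open scoped Classical

theorem asp1_row {Y : Type} [Fintype Y] {A : Matrix Y Y ℝ} (hs : ∀ x y, A x y = A y x)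
    (hA : A * A = A) (x y : Y) : A x x + A y y - 2 * A x y = 0 ↔ A x = A y := by
  have e : ∀ x y, ∑ z, A x z * A y z = A x y := fun x y => by
    conv_rhs => rw [← hA, Matrix.mul_apply]
    exact sum_congr rfl fun z _ => by rw [hs y z]
  have e2 : ∑ z, (A x z - A y z) ^ 2 = A x x + A y y - 2 * A x y := by
    rw [← e x x, ← e y y, ← e x y, mul_sum, ← sum_add_distrib, ← sum_sub_distrib]
    exact sum_congr rfl fun z _ => by ring
  rw [← e2, sum_eq_zero_iff_of_nonneg fun z _ => sq_nonneg _]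
  exact ⟨fun h => funext fun z => sub_eq_zero.1 (pow_eq_zero_iff two_ne_zero |>.1 (h z (mem_univ _))),
    fun h z _ => by rw [h]; simp⟩

theorem p_ASP1 (hAGEO : S_AGEO) :
    S_ASP1 := by
  intro P s
  filter_upwards [hAGEO P (s + 3)] with Γ h S A hS hs hA h0 hI hQ hr
  have hS' : S.card ≤ s + 3 := by omega
  have hins : ∀ x, (insert x S).card ≤ s + 3 := fun x => (card_insert_le _ _).trans (by omega)
  have hd : ∀ {x y}, Γ.Q S x y → A y y = A x x := fun {x y} e => by
    obtain ⟨f, hf, rfl⟩ := h.qe1 hS' e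
    exact hI.app hf subset_rfl (by simp) (by simp)
  set E : Γ.Y → Γ.Y → Prop := fun x y => Γ.Q S x y ∧ A x = A y with hE
  have hEI : Γ.G.Inv2 S E := fun f x y hf => by
    simp only [hE]
    rw [Ctx.Q.inv2 S f x y hf, ← asp1_row hs hA, ← asp1_row hs hA, hI f x y hf,
      hI.app hf subset_rfl (x := x) (y := x) (by simp) (by simp),
      hI.app hf subset_rfl (x := y) (y := y) (by simp) (by simp)]
  set Ψ : Γ.Y → Prop := fun x => ∀ y, E x y → y ∈ Γ.acl (insert x S) with hΨ
  have hΨI : Γ.G.Inv1 S Ψ := Sys.Inv1.of_imp fun f x hf hx y hy => by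
    obtain ⟨β, hβ⟩ := hf.cnt (by have := h.room; rw [card_singleton]; omega)
    obtain ⟨g, h1, h2, h3⟩ := hβ (β⁻¹ y)
    have e1 : g x = f x := h1 x (by simp)
    have e2 : g (β⁻¹ y) = y := by rw [h2]; simp
    have h4 : E x (β⁻¹ y) := by
      rw [← hEI.app h3 subset_rfl (by simp) (by simp), e1, e2]; exact hy
    rw [← e2]
    refine h.toPre.acl_tr h3.1 (insert_subset (by simp) subset_union_left) (by simp)
      (fun z hz => ?_) (hins _) (hx _ h4)
    rcases mem_insert.1 hz with rfl | hz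
    · rw [e1]; simp
    · rw [h3.2 z hz]; simp [hz]
  have hΨQ : ∀ {x y}, Γ.Q S x y → Ψ y = Ψ x := fun e => hΨI.e1 (h.qe1 hS' e)
  have key : ∀ x y, Γ.Q S x y → E x y ∨ Ψ x := fun x y e => by
    refine (e (fun x y => Γ.Q S x y ∧ (E x y ∨ Ψ x)) ⟨⟨fun x => ⟨.refl _ _, .inl ⟨.refl _ _, rfl⟩⟩,
      fun {x y} a => ⟨a.1.symm, a.2.imp (fun b => ⟨b.1.symm, b.2.symm⟩) fun b => ?_⟩,
      fun {x y z} a b => ⟨a.1.trans b.1, ?_⟩⟩, fun f x y hf => ?_⟩ fun x hx => ?_).2
    · rwa [hΨQ a.1]
    · rcases a.2 with c | c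
      · exact b.2.imp (fun d => ⟨c.1.trans d.1, c.2.trans d.2⟩) fun d => by rwa [hΨQ a.1] at d
      · exact .inr c
    · show (_ ∧ (_ ∨ _)) = (_ ∧ (_ ∨ _))
      rw [Ctx.Q.inv2 S f x y hf, hEI f x y hf, hΨI.app hf subset_rfl (by simp)]
    · by_cases c : Ψ x
      · obtain ⟨y, h1, h2⟩ := h.qav hS' hx _ (hins x)
        exact ⟨y, ⟨h1, .inr c⟩, h2⟩
      · simp only [hΨ, not_forall] at c
        obtain ⟨y, h1, h2⟩ := c
        exact ⟨y, ⟨h1.1, .inl h1⟩, h2⟩
  obtain ⟨x0, y0, h1⟩ : ∃ x y, A x y ≠ 0 := by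
    by_contra c
    push Not at c
    exact h0 (Matrix.ext c)
  have h2 : Ψ x0 := by
    by_contra c
    have e : ∀ y, A x0 y = ind (Γ.Q S x0 y) * A x0 x0 := fun y => by
      by_cases d : Γ.Q S x0 y
      · rw [ind_pos d, one_mul, hs x0 y, ← ((key x0 y d).resolve_right c).2]
      · rw [ind_neg d, zero_mul]
        by_contra d'
        exact d (hQ _ _ d')
    have e2 := hr x0
    rw [sum_congr rfl fun y _ => e y, ← sum_mul, sum_ind] at e2
    have : (0 : ℝ) < (fil (Γ.Q S x0)).card := by exact_mod_cast Ctx.cls_pos S x0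
    apply h1
    rw [e, (mul_eq_zero.1 e2).resolve_left this.ne', mul_zero]
  refine ⟨x0, fun c => ?_, fun x y hx hy e => ?_⟩
  · have e := hr x0
    rw [sum_eq_single x0 (fun y _ hy => by
      by_contra d
      exact hy (h.qacl hS' c (hQ _ _ d))) (by simp)] at e
    rw [h.qacl hS' c (hQ _ _ h1)] at h1
    exact h1 e
  · have h3 : Ψ x := by rwa [hΨQ hx]
    have h4 := hx.symm.trans hy
    refine h3 y ⟨h4, (asp1_row hs hA x y).1 ?_⟩
    rw [hd h4, e]; ring

end Pool.Agent.P.MP_f1a348_lc.TO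

end

section

/-! Step ASTAR. -/

set_option autoImplicit false
set_option linter.unusedSectionVars false

namespace Pool.Agent.P.MP_f1a348_lc.TO

open Equiv Finset Filter
open scoped Classical

theorem p_ASTAR (hAGEO : S_AGEO) (hAST1 : S_AST1) (hAST2 : S_AST2) (hAST4 : S_AST4) :
    S_ASTAR := by
  intro P s
  filter_upwards [hAGEO P (s + 2), hAST1 P s, hAST2 P s, hAST4 P s] with Γ h h1 h2 h4
  intro S a d H0 H hH hs hP hPP hC
  obtain ⟨T, e, p, hT, hc⟩ := h1 S a d H0 (by omega) hC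
  choose p' q1 q2 q3 using h2 S T d a e p (by omega) hc
  have hST : S ⊆ T := (hc.sub 0).trans (erase_subset _ _)
  have hm : ∀ l, ∃ f : Perm Γ.Y, Γ.SL T {p l, a} f ∧ f (p l) = p' l := fun l =>
    h.move (by omega) {a} (by rw [card_singleton]; omega) (q2 l)
  choose f g1 g2 using hm
  have key : ∀ l m, l ≠ m → Γ.G.E2 T (f l a) a a (f m a) := fun l m hlm =>
    h4 S T (d l) (d m) a (p l) (p m) (f l) (f m) H hST (by omega) hs (hP l) (hP m) (hPP l m hlm)
      (hc.hp l) (hc.hp m) hc.hx (hc.hxp l) (hc.hxp m) (g1 l) (g1 m)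
      (by rw [g2]; exact q1 l) (by rw [g2]; exact q1 m)
      (by rw [g2]; exact q3 l m hlm) (by rw [g2]; exact q3 m l hlm.symm)
  have ea : a = f 1 a :=
    (((key 0 1 (by decide)).symm.trans (key 0 2 (by decide))).trans
      (key 1 2 (by decide)).symm).anti
  have hp1 : p 1 ∈ Γ.acl (insert a T) := h.exch (by omega) (hc.hxp 1) hc.hx
  have hca := card_insert_le a T
  refine q1 1 ?_
  rw [← g2 1]
  refine h.toPre.acl_tr (g1 1).aut.1 (S := insert a T)
    (insert_subset (by simp) subset_union_left) (by simp) (fun x hx => ?_) (by omega) hp1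
  rcases mem_insert.1 hx with rfl | hx
  · rw [← ea]; exact mem_insert_self _ _
  · rw [(g1 1).fix x hx]; exact mem_insert_of_mem hx

end Pool.Agent.P.MP_f1a348_lc.TO

end

section

/-! Step AUN0. -/

set_option autoImplicit false
set_option linter.unusedSectionVars false

namespace Pool.Agent.P.MP_f1a348_lc.TO

open Equiv Finset Filter
open scoped Classical

theorem p_AUN0 (hAGEO : S_AGEO) :
    S_AUN0 := by
  intro P s
  filter_upwards [hAGEO P (2 * s + 2)] with Γ h S V hS
  induction V using Finset.induction_on with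
  | empty => exact fun _ _ => ⟨∅, le_rfl, by simp [Ctx.Ind], by simp, by simp⟩
  | insert v V hv ih =>
    intro hV hn
    rw [card_insert_of_notMem hv] at hV ⊢
    obtain ⟨B, h1, h2, h3, h4⟩ := ih (by omega) fun w hw => hn w (mem_insert_of_mem hw)
    have hc := card_union_le S B
    obtain ⟨p, h5, h6⟩ := h.qav (by omega) (hn v (mem_insert_self _ _)) (S ∪ B) (by omega)
    refine ⟨insert p B, (card_insert_le _ _).trans (by omega),
      h.ins (by omega) (by omega) h2 h6, fun z hz => ?_, fun w hw => ?_⟩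
    · rcases mem_insert.1 hz with rfl | hz
      · exact ⟨v, mem_insert_self _ _, h5⟩
      · obtain ⟨w, hw, e⟩ := h3 z hz
        exact ⟨w, mem_insert_of_mem hw, e⟩
    · rcases mem_insert.1 hw with rfl | hw
      · exact ⟨p, mem_insert_self _ _, h5⟩
      · obtain ⟨z, hz, e⟩ := h4 w hw
        exact ⟨z, mem_insert_of_mem hz, e⟩

end Pool.Agent.P.MP_f1a348_lc.TO

end

section

/-! Step AUP. -/

set_option autoImplicit false
set_option linter.unusedSectionVars false

namespace Pool.Agent.P.MP_f1a348_lc.TO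

open Equiv Finset Filter
open scoped Classical

theorem p_AUP (hAGEO : S_AGEO) (hAMALG : S_AMALG) :
    S_AUP := by
  intro P s
  filter_upwards [hAGEO P (s + 2), hAMALG P (s + 1)] with Γ h hA S S' x y x' y' hS hc hx hy e1 e2 hxy
  have c1 := card_le_card hS
  have c2 := card_insert_le x' S'
  have c3 := card_insert_le x' S
  obtain ⟨f, h1, rfl⟩ := h.move (by omega) {y} (by simp) e1
  have h2 : Γ.G.E2 S x y (f x) (f y) := Sys.E2.of h1.aut (by simp) (by simp)
  obtain ⟨z, h3, h4, h5⟩ := hA S S' (insert (f x) S') (f x) (f y) y' hS (by omega) (by omega)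
    ((h.pres (by omega) h1 (by simp)).symm.trans e2) hx (h.toPre.nacl_e2 (by omega) h2 hxy) hy
  exact ⟨z, h5, h3, h2.trans (h.qe2 (subset_insert _ _) (by omega) (mem_insert_self _ _) h4)⟩

end Pool.Agent.P.MP_f1a348_lc.TO

end
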