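import Pool.Agent.P.MP_f1a348_lc.TO.YA3
import Pool.Agent.P.MP_f1a348_lc.TO.YA1
import Pool.Agent.P.MP_f1a348_lc.TO.YA6
import Pool.Agent.P.MP_f1a348_lc.TO.YA7
import Pool.Agent.P.MP_f1a348_lc.TO.YA2
import Pool.Agent.P.MP_f1a348_lc.TO.YA5
import Pool.Agent.P.MP_f1a348_lc.TO.YA4
import Pool.Agent.P.MP_f1a348_lc.TO.BGain

/-! Blocks A and B assembled. -/

set_option autoImplicit false

namespace Pool.Agent.P.MP_f1a348_lc.TO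

theorem t_AFA : S_AFA := p_AFA

theorem t_AFB : S_AFB := p_AFB t_AFA

theorem t_AFC : S_AFC := p_AFC t_AFA

theorem t_APRE : S_APRE := p_APRE t_AFA t_AFB t_AFC

theorem t_AFI : S_AFI := p_AFI t_APRE

theorem t_AFQ : S_AFQ := p_AFQ t_APRE

theorem t_AMEET : S_AMEET := p_AMEET t_APRE

theorem t_AFL : S_AFL := p_AFL t_APRE t_AFQ t_AMEET

theorem t_AFT : S_AFT := p_AFT t_APRE

theorem t_AFS : S_AFS := p_AFS t_APRE t_AFL t_AFT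

theorem t_AFM : S_AFM := p_AFM t_APRE t_AFL t_AFT t_AFS

theorem t_AFR : S_AFR := p_AFR t_APRE t_AFL t_AFT t_AFS t_AFM

theorem t_AFG : S_AFG := p_AFG t_APRE t_AFS t_AFR

theorem t_AGEO : S_AGEO := p_AGEO t_APRE t_AFI t_AFQ t_AFL t_AFT t_AFS t_AFM t_AFR t_AFG

theorem t_AFEW0 : S_AFEW0 := p_AFEW0 t_AGEO

theorem t_ASP1 : S_ASP1 := p_ASP1 t_AGEO

theorem t_ASP2 : S_ASP2 := p_ASP2 t_AGEO

theorem t_ASP : S_ASP := p_ASP t_AGEO t_ASP1 t_ASP2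

theorem t_AI2A : S_AI2A := p_AI2A t_AGEO

theorem t_AI2B : S_AI2B := p_AI2B t_AGEO

theorem t_AIND2 : S_AIND2 := p_AIND2 t_AGEO t_AI2A t_AI2B

theorem t_AIND1 : S_AIND1 := p_AIND1 t_AGEO

theorem t_AIND0 : S_AIND0 := p_AIND0 t_AFEW0 t_ASP t_AIND2 t_AIND1

theorem t_AMALG : S_AMALG := p_AMALG t_AGEO t_AIND0

theorem t_AL5A : S_AL5A := p_AL5A t_AGEO

theorem t_AL5 : S_AL5 := p_AL5 t_AGEO t_AIND0 t_AL5A

theorem t_AFEW1 : S_AFEW1 := p_AFEW1 t_AGEO t_AL5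

theorem t_AINDS : S_AINDS := p_AINDS t_AFEW1 t_ASP t_AIND2 t_AIND1

theorem t_AUP : S_AUP := p_AUP t_AGEO t_AMALG

theorem t_APEXT : S_APEXT := p_APEXT t_AGEO t_AUP

theorem t_ANU1 : S_ANU1 := p_ANU1 t_AGEO t_AFEW1

theorem t_ANU2 : S_ANU2 := p_ANU2 t_AGEO t_AUP

theorem t_AP00 : S_AP00 := p_AP00 t_AGEO

theorem t_APLAT : S_APLAT := p_APLAT t_AGEO t_APEXT t_ANU1 t_ANU2 t_AP00

theorem t_AB1 : S_AB1 := p_AB1 t_AGEO t_AMALG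

theorem t_ACC : S_ACC := p_ACC t_AGEO t_AB1

theorem t_ACONJ : S_ACONJ := p_ACONJ t_AGEO

theorem t_ACSYM : S_ACSYM := p_ACSYM t_AGEO

theorem t_AGEN : S_AGEN := p_AGEN t_AGEO

theorem t_AST0 : S_AST0 := p_AST0 t_AGEO t_AGEN

theorem t_AST1 : S_AST1 := p_AST1 t_AGEO t_AST0

theorem t_AST2 : S_AST2 := p_AST2 t_AGEO t_AMALG

theorem t_AROOT : S_AROOT := p_AROOT t_AGEO t_AB1

theorem t_AST4 : S_AST4 := p_AST4 t_AGEO t_AB1 t_AROOT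

theorem t_ASTAR : S_ASTAR := p_ASTAR t_AGEO t_AST1 t_AST2 t_AST4

theorem t_AUN0 : S_AUN0 := p_AUN0 t_AGEO

theorem t_AUN1 : S_AUN1 := p_AUN1 t_AGEO t_AFEW1 t_AB1 t_AUN0

theorem t_AUNI : S_AUNI := p_AUNI t_AGEO t_AUN1

theorem t_ATINV : S_ATINV := p_ATINV t_AGEO

theorem t_AFINV : S_AFINV := p_AFINV t_AGEO

theorem t_AM1 : S_AM1 := p_AM1 t_AGEO

theorem t_AM2A : S_AM2A := p_AM2A t_AGEO

theorem t_AM2B : S_AM2B := p_AM2B t_AGEO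

theorem t_AM2 : S_AM2 := p_AM2 t_AGEO t_ATINV t_AM2A t_AM2B

theorem t_ALOW : S_ALOW := p_ALOW t_AGEO t_AINDS t_AM1 t_AM2

theorem t_ATRIV : S_ATRIV := p_ATRIV t_AGEO

theorem t_ABAD : S_ABAD := p_ABAD

theorem t_ANG1 : S_ANG1 := p_ANG1

theorem t_ANONG : S_ANONG := p_ANONG t_AGEO t_AIND0 t_AM1 t_ABAD t_ANG1

theorem t_ACS : S_ACS := p_ACS

theorem t_ACP1 : S_ACP1 := p_ACP1 t_AGEO t_AFINV

theorem t_ACP2 : S_ACP2 := p_ACP2 t_AGEO t_AFINV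

theorem t_ACP3 : S_ACP3 := p_ACP3 t_AGEO

theorem t_ACNT : S_ACNT := p_ACNT

theorem t_ACSB : S_ACSB := p_ACSB t_AGEO t_ACP1 t_ACP2 t_ACP3 t_ACNT

theorem t_ALAM : S_ALAM := p_ALAM t_ACS t_ACSB

theorem t_AZERO : S_AZERO := p_AZERO

theorem t_AEXP : S_AEXP := p_AEXP t_AGEO t_AINDS t_ALAM t_AZERO

theorem t_AGEQ : S_AGEQ := p_AGEQ t_AGEO t_ACC t_ATRIV t_ATINV

theorem t_AGCNT : S_AGCNT := p_AGCNT t_AGEO t_ACONJ t_ATRIV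

theorem t_AGNON : S_AGNON := p_AGNON t_AGEO t_ABAD

theorem t_AGENB : S_AGENB := p_AGENB t_AEXP t_AGEQ t_AGCNT t_AGNON

theorem t_AL9 : S_AL9 := p_AL9 t_ALOW t_ANONG t_AGENB

theorem t_ANC : S_ANC := p_ANC t_APLAT t_ACSYM t_ASTAR

theorem t_ATRV : S_ATRV := p_ATRV t_AGEO t_ANC t_AUNI t_APEXT

theorem t_ACORE : S_ACORE := p_ACORE t_ATRV t_AL9

/-- Block A. -/
theorem corey : COREY := t_ACORE

/-- Blocks A and B. -/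
theorem gain : GAIN := gain_of_core corey

end Pool.Agent.P.MP_f1a348_lc.TO
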