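import Pool.Agent.P.MP_f1a348_lc.TO.CDefs

/-! Tournament isomorphism, block C: basic lemmas. -/

set_option autoImplicit false
set_option linter.unusedSectionVars false

namespace Pool.Agent.P.MP_f1a348_lc.TO

open Equiv Finset
open scoped Classical

section Grp

variable {G X : Type} [Group G] [MulAction G X]

theorem Nz.self (H : Subgroup G) : Nz H H := fun _ hh _ ha =>
  H.mul_mem (H.mul_mem hh ha) (H.inv_mem hh)

theorem Nz.mono {H H' A : Subgroup G} (h : Nz H A) (hle : H' ≤ H) : Nz H' A :=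
  fun g hg a ha => h g (hle hg) a ha

theorem Nz.inf {H A B : Subgroup G} (hA : Nz H A) (hB : Nz H B) : Nz H (A ⊓ B) :=
  fun g hg a ha => ⟨hA g hg a ha.1, hB g hg a ha.2⟩

/-- The pointwise stabiliser of an invariant set is normalised. -/
theorem Nz.fix {H : Subgroup G} {Z : Set X} (hZ : ∀ h ∈ H, ∀ y ∈ Z, h • y ∈ Z) :
    Nz H (fixingSubgroup G Z) := by
  intro h hh a ha
  rw [mem_fixingSubgroup_iff] at ha ⊢
  intro y hy
  rw [mul_smul, mul_smul, ha _ (hZ _ (H.inv_mem hh) y hy), smul_inv_smul]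

theorem Nz.fix_ob (H : Subgroup G) (x : X) : Nz H (fixingSubgroup G (ob H x)) :=
  Nz.fix fun _ hh _ hy => smul_mem_ob hh hy

/-- The conjugate `g U g⁻¹`. -/
def cj (g : G) (U : Subgroup G) : Subgroup G := U.comap (MulAut.conj g⁻¹).toMonoidHom

theorem mem_cj {g x : G} {U : Subgroup G} : x ∈ cj g U ↔ g⁻¹ * x * g ∈ U := by
  simp [cj, Subgroup.mem_comap]

theorem cj_le {H U : Subgroup G} {g : G} (hg : g ∈ H) (hU : U ≤ H) : cj g U ≤ H := by
  intro x hx
  have := H.mul_mem (H.mul_mem hg (hU (mem_cj.1 hx))) (H.inv_mem hg)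
  simpa [mul_assoc] using this

theorem le_cj_of_nz {H A U : Subgroup G} {g : G} (hg : g ∈ H) (hA : Nz H A) (hU : A ≤ U) :
    A ≤ cj g U := by
  intro x hx
  rw [mem_cj]
  simpa using hU (hA g⁻¹ (H.inv_mem hg) x hx)

theorem ob_cj (g : G) (U : Subgroup G) (x : X) :
    ob (cj g U) (g • x) = (fun y => g • y) '' ob U x := by
  ext y
  constructor
  · rintro ⟨h, hh, rfl⟩
    refine ⟨(g⁻¹ * h * g) • x, ⟨_, mem_cj.1 hh, rfl⟩, ?_⟩
    simp [mul_smul]
  · rintro ⟨_, ⟨h, hh, rfl⟩, rfl⟩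
    refine ⟨g * h * g⁻¹, mem_cj.2 (by simpa [mul_assoc] using hh), ?_⟩
    simp [mul_smul]

theorem ncard_ob_cj (g : G) (U : Subgroup G) (x : X) :
    (ob (cj g U) (g • x)).ncard = (ob U x).ncard := by
  rw [ob_cj, Set.ncard_image_of_injective _ (MulAction.injective g)]

theorem Pr.cj {U : Subgroup G} {x : X} (hP : Pr U x) (g : G) : Pr (cj g U) (g • x) := by
  intro V h1 h2
  rcases hP (TO.cj g⁻¹ V) (by
      rintro u ⟨hu, hs⟩
      have hs' : u • x = x := hs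
      rw [mem_cj]
      apply h1
      refine ⟨mem_cj.2 (by simpa [mul_assoc] using hu), ?_⟩
      show (g⁻¹⁻¹ * u * g⁻¹) • g • x = g • x
      simp [mul_smul, hs']) (by
      intro u hu
      have := mem_cj.1 (h2 (mem_cj.1 hu))
      simpa [mul_assoc] using this) with h | h
  · left
    intro v hv
    have h3 : g⁻¹ * v * g ∈ TO.cj g⁻¹ V := mem_cj.2 (by simpa [mul_assoc] using hv)
    have h4 : (g⁻¹ * v * g) • x = x := h h3
    show v • g • x = g • x
    rw [mul_smul, mul_smul, inv_smul_eq_iff] at h4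
    exact h4
  · right
    refine le_antisymm h2 fun u hu => ?_
    have h3 : g⁻¹ * u * g ∈ TO.cj g⁻¹ V := h ▸ mem_cj.1 hu
    simpa [mul_assoc] using mem_cj.1 h3

/-- The base point of the coset space. -/
def q1 (U : Subgroup G) : G ⧸ U := ((1 : G) : G ⧸ U)

theorem stabilizer_q1 (U : Subgroup G) : MulAction.stabilizer G (q1 U) = U :=
  MulAction.stabilizer_quotient U

theorem smul_q1_eq {U : Subgroup G} {g : G} : g • q1 U = q1 U ↔ g ∈ U := by
  rw [← MulAction.mem_stabilizer_iff, stabilizer_q1]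

theorem ncard_ob_q1 (H U : Subgroup G) : (ob H (q1 U)).ncard = U.relIndex H := by
  rw [ncard_ob, stabilizer_q1]

/-- A proper subgroup of a finite group lies in a maximal one. -/
theorem exists_max [Finite G] {V H : Subgroup G} (hVH : V ≤ H) (hne : V ≠ H) :
    ∃ U : Subgroup G, V ≤ U ∧ U ≤ H ∧ U ≠ H ∧ Pr H (q1 U) := by
  obtain ⟨U, ⟨h1, h2, h3⟩, hmax⟩ := (wellFounded_gt (α := Subgroup G)).has_min
    {U | V ≤ U ∧ U ≤ H ∧ U ≠ H} ⟨V, le_rfl, hVH, hne⟩
  refine ⟨U, h1, h2, h3, fun W hW hWH => ?_⟩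
  rw [stabilizer_q1] at hW ⊢
  by_cases hWe : W = H
  · exact Or.inr hWe
  · left
    have hUW : U ≤ W := (le_inf h2 le_rfl).trans hW
    by_contra hn
    exact hmax W ⟨h1.trans hUW, hWH, hWe⟩ (lt_of_le_not_ge hUW hn)

/-- The kernel of the action on an invariant finite set has index at most the factorial. -/
theorem relIndex_fix_le {H : Subgroup G} {Z : Set X} (hfin : Z.Finite)
    (hZ : ∀ h ∈ H, ∀ y ∈ Z, h • y ∈ Z) :
    (fixingSubgroup G Z).relIndex H ≤ Z.ncard.factorial := by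
  haveI : Fintype Z := hfin.fintype
  letI : MulAction H Z :=
    { smul := fun h y => ⟨(h : G) • (y : X), hZ _ h.2 _ y.2⟩
      one_smul := fun y => Subtype.ext (one_smul G (y : X))
      mul_smul := fun a b y => Subtype.ext (mul_smul (a : G) (b : G) (y : X)) }
  have hker : (fixingSubgroup G Z).subgroupOf H = (MulAction.toPermHom H Z).ker := by
    ext h
    rw [Subgroup.mem_subgroupOf, mem_fixingSubgroup_iff, MonoidHom.mem_ker]
    constructor
    · intro hh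
      ext y
      exact hh y y.2
    · intro hh y hy
      exact congrArg Subtype.val (congrArg (fun σ : Perm Z => σ ⟨y, hy⟩) hh)
  rw [Subgroup.relIndex, hker, Subgroup.index_ker]
  calc Nat.card (MulAction.toPermHom H Z).range ≤ Nat.card (Perm Z) :=
        Nat.card_le_card_of_injective _ Subtype.val_injective
    _ = Z.ncard.factorial := by
        rw [Nat.card_eq_fintype_card, Fintype.card_perm, ← Nat.card_eq_fintype_card,
          Nat.card_coe_set_eq]

end Grp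

/-- Counting with fibres of constant size. -/
theorem fib_count {α β : Type} {S : Set α} (hS : S.Finite) (f : α → β) (k : ℕ)
    (hk : ∀ x ∈ S, {y | y ∈ S ∧ f y = f x}.ncard = k) (D : Set β) (hD : D ⊆ f '' S) :
    {y | y ∈ S ∧ f y ∈ D}.ncard = D.ncard * k := by
  have hDf : D.Finite := (hS.image f).subset hD
  induction D, hDf using Set.Finite.induction_on with
  | empty => simp
  | @insert d D hd hDf ih =>
    obtain ⟨x, hx, rfl⟩ := hD (Set.mem_insert _ _)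
    have e : {y | y ∈ S ∧ f y ∈ insert (f x) D} =
        {y | y ∈ S ∧ f y = f x} ∪ {y | y ∈ S ∧ f y ∈ D} := by
      ext y
      simp only [Set.mem_setOf_eq, Set.mem_insert_iff, Set.mem_union]
      tauto
    rw [e, Set.ncard_union_eq _ (hS.subset fun _ h => h.1) (hS.subset fun _ h => h.1), hk x hx,
      ih ((Set.subset_insert _ _).trans hD), Set.ncard_insert_of_notMem hd hDf]
    · ring
    · rw [Set.disjoint_left]
      rintro y ⟨_, h1⟩ ⟨_, h2⟩
      exact hd (h1 ▸ h2)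

section Game

variable {Ω : Type} [Fintype Ω] [DecidableEq Ω]

theorem mem_orb {H : Subgroup (Perm Ω)} {w x : Ω} : x ∈ orb H w ↔ ∃ g ∈ H, g w = x := by
  simp [orb]

theorem coe_orb (H : Subgroup (Perm Ω)) (w : Ω) : (orb H w : Set Ω) = ob H w := by
  ext x
  rw [Finset.mem_coe, mem_orb]
  rfl

theorem self_mem_orb (H : Subgroup (Perm Ω)) (w : Ω) : w ∈ orb H w :=
  mem_orb.2 ⟨1, H.one_mem, rfl⟩

theorem apply_mem_orb {H : Subgroup (Perm Ω)} {w x : Ω} {h : Perm Ω} (hh : h ∈ H)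
    (hx : x ∈ orb H w) : h x ∈ orb H w := by
  obtain ⟨g, hg, rfl⟩ := mem_orb.1 hx
  exact mem_orb.2 ⟨h * g, H.mul_mem hh hg, rfl⟩

theorem mem_stab {H : Subgroup (Perm Ω)} {p : Ω} {g : Perm Ω} :
    g ∈ stab H p ↔ g ∈ H ∧ g p = p := Iff.rfl

theorem stab_le (H : Subgroup (Perm Ω)) (p : Ω) : stab H p ≤ H := inf_le_left

theorem stab_mono {H H' : Subgroup (Perm Ω)} (h : H' ≤ H) (p : Ω) : stab H' p ≤ stab H p :=
  inf_le_inf_right _ h

/-- A pin over the point `h • x0`. -/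
theorem stab_apply_le {X : Type} [MulAction (Perm Ω) X] {H : Subgroup (Perm Ω)} {p : Ω} {x0 : X}
    (hp : stab H p ≤ MulAction.stabilizer (Perm Ω) x0) {h : Perm Ω} (hh : h ∈ H) :
    stab H (h p) ≤ MulAction.stabilizer (Perm Ω) (h • x0) := by
  intro g hg
  obtain ⟨hg, e⟩ := mem_stab.1 hg
  have h1 : h⁻¹ * g * h ∈ stab H p :=
    mem_stab.2 ⟨H.mul_mem (H.mul_mem (H.inv_mem hh) hg) hh, by simp [e]⟩
  have h2 : (h⁻¹ * g * h) • x0 = x0 := hp h1
  show g • h • x0 = h • x0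
  rw [mul_smul, mul_smul, inv_smul_eq_iff] at h2
  exact h2

theorem odd_of_le {G : Type} [Group G] {H H' : Subgroup G} (hle : H' ≤ H)
    (h : Odd (Nat.card H)) : Odd (Nat.card H') :=
  Odd.of_dvd_nat h (Subgroup.card_dvd_of_le hle)

/-- The equivariant map from an orbit in `Ω` onto an orbit in `X`, with fibres of one size. -/
theorem exists_psi {X : Type} [MulAction (Perm Ω) X] {H : Subgroup (Perm Ω)} {w : Ω} {x0 : X}
    (hw : stab H w ≤ MulAction.stabilizer (Perm Ω) x0) :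
    ∃ (ψ : Ω → X) (k : ℕ), (∀ h ∈ H, ψ (h w) = h • x0) ∧
      (∀ h ∈ H, ∀ x ∈ orb H w, ψ (h x) = h • ψ x) ∧
      ψ '' (orb H w : Set Ω) = ob H x0 ∧
      (∀ x ∈ orb H w, {y | y ∈ orb H w ∧ ψ y = ψ x}.ncard = k) ∧
      (orb H w).card = (ob H x0).ncard * k := by
  let ψ : Ω → X := fun x => if hx : ∃ g ∈ H, g w = x then hx.choose • x0 else x0
  have h1 : ∀ h ∈ H, ψ (h w) = h • x0 := by
    intro h hh
    have hx : ∃ g ∈ H, g w = h w := ⟨h, hh, rfl⟩
    have e : ψ (h w) = hx.choose • x0 := dif_pos hx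
    obtain ⟨hg, eg⟩ := hx.choose_spec
    have h2 : h⁻¹ * hx.choose ∈ stab H w :=
      mem_stab.2 ⟨H.mul_mem (H.inv_mem hh) hg, by simp [eg]⟩
    have h3 : (h⁻¹ * hx.choose) • x0 = x0 := hw h2
    rw [mul_smul, inv_smul_eq_iff] at h3
    rw [e, h3]
  have h2 : ∀ h ∈ H, ∀ x ∈ orb H w, ψ (h x) = h • ψ x := by
    intro h hh x hx
    obtain ⟨g, hg, rfl⟩ := mem_orb.1 hx
    rw [h1 g hg, ← mul_smul, ← h1 _ (H.mul_mem hh hg)]
    rfl
  have h3 : ψ '' (orb H w : Set Ω) = ob H x0 := by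
    ext y
    constructor
    · rintro ⟨x, hx, rfl⟩
      obtain ⟨g, hg, rfl⟩ := mem_orb.1 hx
      exact ⟨g, hg, (h1 g hg).symm⟩
    · rintro ⟨g, hg, rfl⟩
      exact ⟨g w, mem_orb.2 ⟨g, hg, rfl⟩, h1 g hg⟩
  have h4 : ∀ x ∈ orb H w, {y | y ∈ orb H w ∧ ψ y = ψ x}.ncard =
      {y | y ∈ orb H w ∧ ψ y = ψ w}.ncard := by
    intro x hx
    obtain ⟨g, hg, rfl⟩ := mem_orb.1 hx
    rw [← Set.ncard_image_of_injective {y | y ∈ orb H w ∧ ψ y = ψ w} g.injective]
    congr 1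
    ext y
    constructor
    · rintro ⟨hy, e⟩
      refine ⟨g⁻¹ y, ⟨apply_mem_orb (H.inv_mem hg) hy, ?_⟩, by simp⟩
      rw [h2 _ (H.inv_mem hg) y hy, e, h2 g hg w (self_mem_orb H w), inv_smul_smul]
    · rintro ⟨z, ⟨hz, e⟩, rfl⟩
      exact ⟨apply_mem_orb hg hz, by rw [h2 g hg z hz, e, h2 g hg w (self_mem_orb H w)]⟩
  refine ⟨ψ, _, h1, h2, h3, h4, ?_⟩
  have h5 := fib_count (S := (orb H w : Set Ω)) (Finset.finite_toSet _) ψ _ h4 (ob H x0)
    (by rw [h3])
  rw [← h5, ← Set.ncard_coe_finset]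
  congr 1
  ext y
  constructor
  · intro hy
    exact ⟨hy, h3 ▸ ⟨y, hy, rfl⟩⟩
  · exact fun hy => hy.1

theorem Reach.mono {m s c : ℕ} {H H' : Subgroup (Perm Ω)} {W W' : Finset Ω}
    (h : Reach m s c H W) (hH : H' ≤ H) (hW : W' ⊆ W) : Reach m s c H' W' := by
  cases c with
  | zero => exact fun H1 h1 w hw hM => h H1 (h1.trans hH) w (hw.trans hW) hM
  | succ c => exact fun H1 h1 w hw hM => h H1 (h1.trans hH) w (hw.trans hW) hM

theorem Reach.succ {m s : ℕ} : ∀ {c : ℕ} {H : Subgroup (Perm Ω)} {W : Finset Ω},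
    Reach m s c H W → Reach m s (c + 1) H W
  | 0, _, _, h => fun H1 h1 w hw hM => Or.inl (h H1 h1 w hw hM)
  | _ + 1, _, _, h => fun H1 h1 w hw hM =>
      (h H1 h1 w hw hM).imp id fun ⟨p, hp⟩ => ⟨p, Reach.succ hp⟩

theorem Reach.le {m s c c' : ℕ} {H : Subgroup (Perm Ω)} {W : Finset Ω}
    (h : Reach m s c H W) (hc : c ≤ c') : Reach m s c' H W := by
  induction hc with
  | refl => exact h
  | step _ ih => exact ih.succ

theorem Reach.pin {m s c : ℕ} {H : Subgroup (Perm Ω)} {W : Finset Ω} (p : Ω)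
    (h : Reach m s c (stab H p) W) : Reach m s (c + 1) H W :=
  fun _ h1 _ hw _ => Or.inr ⟨p, h.mono (stab_mono h1 p) hw⟩

theorem Reach.pins {m s c : ℕ} {W : Finset Ω} (P : Finset Ω) : ∀ {H : Subgroup (Perm Ω)},
    Reach m s c (H ⊓ fixingSubgroup (Perm Ω) (P : Set Ω)) W → Reach m s (c + P.card) H W := by
  induction P using Finset.induction_on with
  | empty => exact fun h => h.mono (by simp) le_rfl
  | insert p P hp ih =>
    intro H h
    rw [Finset.card_insert_of_notMem hp, ← add_assoc]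
    refine Reach.pin p (ih (h.mono ?_ le_rfl))
    rintro g ⟨hg, hf⟩
    obtain ⟨hg, e⟩ := mem_stab.1 hg
    refine ⟨hg, (mem_fixingSubgroup_iff _).2 fun y hy => ?_⟩
    rcases Finset.mem_insert.1 (Finset.mem_coe.1 hy) with rfl | hy
    · exact e
    · exact (mem_fixingSubgroup_iff _).1 hf y hy

theorem Reach.loc {m s c : ℕ} {H : Subgroup (Perm Ω)} {W : Finset Ω}
    (h : ∀ H' ≤ H, ∀ w, orb H' w ⊆ W → M2 m H' w →
      (orb H' w).card ^ 2 * m ≤ s ^ 2 ∨ Reach m s c H' (orb H' w)) : Reach m s c H W := by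
  cases c with
  | zero =>
    exact fun H1 h1 w hw hM => (h H1 h1 w hw hM).elim id fun h2 => h2 H1 le_rfl w le_rfl hM
  | succ c =>
    exact fun H1 h1 w hw hM => (h H1 h1 w hw hM).elim Or.inl fun h2 => h2 H1 le_rfl w le_rfl hM

theorem Focus.mono {m a0 s l : ℕ} {H H' : Subgroup (Perm Ω)} {W : Finset Ω} {Λ : Type}
    {φ : Ω → Λ} (h : Focus m a0 s l H W φ) (hH : H' ≤ H) : Focus m a0 s l H' W φ :=
  ⟨fun g hg => h.inv g (hH hg), h.card, fun g hg => h.eqv g (hH hg), h.cls, h.lab⟩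

/-- The stabiliser of the label of `w`, its index, and the dichotomy for a state. -/
theorem Focus.state {m a0 s l : ℕ} {H H1 : Subgroup (Perm Ω)} {W : Finset Ω} {Λ : Type}
    {φ : Ω → Λ} (hF : Focus m a0 s l H W φ) (h1 : H1 ≤ H) {w : Ω} (hw : orb H1 w ⊆ W) :
    (orb H1 w).card ^ 2 * m ≤ s ^ 2 ∨
    ∃ V : Subgroup (Perm Ω), stab H1 w ≤ V ∧ V ≤ H1 ∧ V ≠ H1 ∧ V.relIndex H1 ≤ a0 ^ l ∧
      ∀ g, g ∈ V ↔ g ∈ H1 ∧ φ (g w) = φ w := by
  have hwW : w ∈ W := hw (self_mem_orb H1 w)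
  let V : Subgroup (Perm Ω) :=
    { carrier := {g | g ∈ H1 ∧ φ (g w) = φ w}
      one_mem' := ⟨H1.one_mem, rfl⟩
      mul_mem' := by
        rintro a b ⟨ha, ea⟩ ⟨hb, eb⟩
        refine ⟨H1.mul_mem ha hb, ?_⟩
        rw [← ea]
        exact hF.eqv a (h1 ha) _ (hF.inv b (h1 hb) w hwW) w hwW eb
      inv_mem' := by
        rintro a ⟨ha, ea⟩
        refine ⟨H1.inv_mem ha, ?_⟩
        have := hF.eqv a⁻¹ (h1 (H1.inv_mem ha)) _ (hF.inv a (h1 ha) w hwW) w hwW ea
        simpa using this.symm }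
  by_cases hV : V = H1
  · left
    refine le_trans (Nat.mul_le_mul_right _ (Nat.pow_le_pow_left ?_ 2)) (hF.cls w hwW)
    rw [← Set.ncard_coe_finset]
    refine Set.ncard_le_ncard ?_ (Set.toFinite _)
    intro x hx
    obtain ⟨g, hg, rfl⟩ := mem_orb.1 hx
    have : g ∈ V := hV ▸ hg
    exact ⟨hw hx, this.2⟩
  · right
    refine ⟨V, fun g hg => ⟨(mem_stab.1 hg).1, by rw [(mem_stab.1 hg).2]⟩, fun g hg => hg.1, hV,
      ?_, fun g => Iff.rfl⟩
    refine le_trans ?_ hF.lab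
    rw [← ncard_ob_q1]
    have key : ∀ a ∈ H1, ∀ b ∈ H1, φ (a w) = φ (b w) → a • q1 V = b • q1 V := by
      intro a ha b hb e
      have h2 : b⁻¹ * a ∈ V := by
        refine ⟨H1.mul_mem (H1.inv_mem hb) ha, ?_⟩
        have := hF.eqv b⁻¹ (h1 (H1.inv_mem hb)) _ (hF.inv a (h1 ha) w hwW) _
          (hF.inv b (h1 hb) w hwW) e
        simpa using this
      have h3 := smul_q1_eq.2 h2
      rw [mul_smul, inv_smul_eq_iff] at h3
      exact h3
    choose! g hg eg using fun y (hy : y ∈ ob H1 (q1 V)) => mem_ob.1 hy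
    refine Set.ncard_le_ncard_of_injOn (fun y => φ (g y w)) ?_ ?_ (Set.toFinite _)
    · intro y hy
      exact ⟨g y w, hF.inv _ (h1 (hg y hy)) w hwW, rfl⟩
    · intro y hy z hz e
      rw [← eg y hy, ← eg z hz]
      exact key _ (hg y hy) _ (hg z hz) e

theorem Good.le {m a0 c c' : ℕ} {H X : Subgroup (Perm Ω)} (h : Good m a0 c H X) (hc : c ≤ c') :
    Good m a0 c' H X :=
  fun Λ φ s l H' W h1 hF hX => (h Λ φ s l H' W h1 hF hX).le (by omega)

theorem Good.mono {m a0 c : ℕ} {H H' X X' : Subgroup (Perm Ω)} (h : Good m a0 c H X)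
    (hH : H' ≤ H) (hX : H' ⊓ X ≤ X') : Good m a0 c H' X' :=
  fun Λ φ s l H1 W h1 hF h2 => h Λ φ s l H1 W (h1.trans hH) hF
    fun g hg hgX => h2 g hg (hX ⟨h1 hg, hgX⟩)

theorem Good.of_relIndex {m a0 : ℕ} {H X : Subgroup (Perm Ω)} (h : X.relIndex H ≤ m) :
    Good m a0 0 H X := by
  intro Λ φ s l H' W h1 hF hX
  refine Reach.le (c := 0) ?_ (Nat.zero_le _)
  intro H1 h2 w hw hM
  rcases hF.state h2 hw with h3 | ⟨V, hs, hV, hne, -, hmem⟩
  · exact h3
  · exfalso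
    have h4 := hM.2 V hs hV hne
    have h5 : X ⊓ H1 ≤ V := fun g hg =>
      (hmem g).2 ⟨hg.2, hX g (h2 hg.2) hg.1 w (hw (self_mem_orb H1 w))⟩
    have h6 : V.relIndex H1 ≤ (X ⊓ H1).relIndex H1 :=
      Subgroup.relIndex_le_of_le_left h5 Subgroup.FiniteIndex.index_ne_zero
    rw [Subgroup.inf_relIndex_right] at h6
    have h7 : X.relIndex H1 ≤ X.relIndex H :=
      Subgroup.relIndex_le_of_le_right (h2.trans h1) Subgroup.FiniteIndex.index_ne_zero
    omega

theorem Good.self {m a0 : ℕ} (hm : 1 ≤ m) (H : Subgroup (Perm Ω)) : Good m a0 0 H H :=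
  Good.of_relIndex (by simpa using hm)

theorem Good.pin {m a0 c : ℕ} {H X : Subgroup (Perm Ω)} (p : Ω)
    (h : Good m a0 c (stab H p) X) : Good m a0 (c + 1) H X := by
  intro Λ φ s l H' W h1 hF hX
  have := Reach.pin p (h Λ φ s l (stab H' p) W (stab_mono h1 p) (hF.mono (stab_le _ _))
    fun g hg => hX g (stab_le _ _ hg))
  exact this.le (by omega)

theorem Good.pins {m a0 c : ℕ} {H X : Subgroup (Perm Ω)} (P : Finset Ω)
    (h : Good m a0 c (H ⊓ fixingSubgroup (Perm Ω) (P : Set Ω)) X) :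
    Good m a0 (c + P.card) H X := by
  intro Λ φ s l H' W h1 hF hX
  have := Reach.pins P (h Λ φ s l (H' ⊓ fixingSubgroup (Perm Ω) (P : Set Ω)) W
    (inf_le_inf_right _ h1) (hF.mono inf_le_left) fun g hg => hX g hg.1)
  exact this.le (by omega)

/-- Pins in `Ω` over a finite set of points of an orbit in `X`. -/
theorem exists_pins {X : Type} [MulAction (Perm Ω) X] {H : Subgroup (Perm Ω)} {p : Ω} {x0 : X}
    (hp : stab H p ≤ MulAction.stabilizer (Perm Ω) x0) (T : Finset X)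
    (hT : (T : Set X) ⊆ ob H x0) :
    ∃ P : Finset Ω, P.card ≤ T.card ∧
      H ⊓ fixingSubgroup (Perm Ω) (P : Set Ω) ≤ H ⊓ fixingSubgroup (Perm Ω) (T : Set X) := by
  choose! g hg eg using fun y (hy : y ∈ ob H x0) => mem_ob.1 hy
  refine ⟨T.image fun y => g y p, Finset.card_image_le, ?_⟩
  rintro h ⟨hh, hf⟩
  refine ⟨hh, (mem_fixingSubgroup_iff _).2 fun y hy => ?_⟩
  have h1 : h (g y p) = g y p := (mem_fixingSubgroup_iff _).1 hf _
    (Finset.mem_coe.2 (Finset.mem_image_of_mem _ hy))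
  have h2 := stab_apply_le hp (hg y (hT hy)) (mem_stab.2 ⟨hh, h1⟩)
  rw [eg y (hT hy)] at h2
  exact h2

theorem Win.mono {m f : ℕ} {H H' : Subgroup (Perm Ω)} {W W' : Finset Ω}
    (h : Win m f H W) (hH : H' ≤ H) (hW : W' ⊆ W) : Win m f H' W' := by
  cases f with
  | zero => exact fun H1 h1 w hw hM => h H1 (h1.trans hH) w (hw.trans hW) hM
  | succ c => exact fun H1 h1 w hw hM => h H1 (h1.trans hH) w (hw.trans hW) hM

theorem Win.succ {m : ℕ} : ∀ {f : ℕ} {H : Subgroup (Perm Ω)} {W : Finset Ω},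
    Win m f H W → Win m (f + 1) H W
  | 0, _, _, h => fun H1 h1 w hw hM => (h H1 h1 w hw hM).elim
  | _ + 1, _, _, h => fun H1 h1 w hw hM =>
      (h H1 h1 w hw hM).imp fun _ hp => Win.succ hp

theorem Win.le {m f f' : ℕ} {H : Subgroup (Perm Ω)} {W : Finset Ω}
    (h : Win m f H W) (hc : f ≤ f') : Win m f' H W := by
  induction hc with
  | refl => exact h
  | step _ ih => exact ih.succ

theorem Win.loc {m f : ℕ} {H : Subgroup (Perm Ω)} {W : Finset Ω}
    (h : ∀ H' ≤ H, ∀ w, orb H' w ⊆ W → M2 m H' w → Win m f H' (orb H' w)) : Win m f H W := by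
  cases f with
  | zero => exact fun H1 h1 w hw hM => h H1 h1 w hw hM H1 le_rfl w le_rfl hM
  | succ c => exact fun H1 h1 w hw hM => h H1 h1 w hw hM H1 le_rfl w le_rfl hM

end Game

end Pool.Agent.P.MP_f1a348_lc.TO
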