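import Pool.Agent.P.MP_f1a348_lc.TO.CIface
import Pool.Agent.P.MP_f1a348_lc.TO.CBase

section

/-! Step GAMEC. -/

set_option autoImplicit false
set_option linter.unusedSectionVars false

namespace Pool.Agent.P.MP_f1a348_lc.TO

open Equiv Finset
open scoped Classical

theorem gamec_pow (n x : ℕ) (hx : 0 < x) : n ≤ (2 ^ x) ^ (Nat.log 2 n / x + 1) := by
  rw [← pow_mul]
  exact (Nat.lt_pow_succ_log_self (by norm_num) n).le.trans
    (Nat.pow_le_pow_right (by norm_num) (Nat.lt_mul_div_succ _ hx))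

theorem gamec_ar (N D E B : ℕ) :
    E * (2 * D * (B * (N / (4 * D * E * B) + 1) + 2 * (N / (8 * D * E) + 1))) ≤
      N + (2 * D * E * B + 4 * D * E) := by
  have h1 := Nat.mul_div_le N (4 * D * E * B)
  have h2 := Nat.mul_div_le N (8 * D * E)
  generalize N / (4 * D * E * B) = x at h1 ⊢
  generalize N / (8 * D * E) = y at h2 ⊢
  nlinarith

theorem p_GAMEC (hGGAIN : S_GGAIN) (hTRACK : S_TRACK) (hROUND : S_ROUND) :
    S_GAMEC := by
  intro hG D E
  rcases Nat.eq_zero_or_pos E with rfl | hE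
  · exact ⟨0, 1, fun Ω _ _ G m f _ _ _ h => by omega⟩
  obtain ⟨a0, ha0⟩ : ∃ a0, a0 = 2 ^ (8 * (D + 1) * E) := ⟨_, rfl⟩
  obtain ⟨B, hB⟩ : ∃ B, B = 9 * (a0 + 1) + 8 := ⟨_, rfl⟩
  have hB0 : 0 < B := by omega
  have hx : 0 < 4 * (D + 1) * E * B := by positivity
  have hy : 0 < 8 * (D + 1) * E := by positivity
  obtain ⟨K, hK⟩ : ∃ K, K = 2 ^ (4 * (D + 1) * E * B) := ⟨_, rfl⟩
  have hK2 : 2 ≤ K := hK ▸ Nat.le_self_pow hx.ne' 2
  obtain ⟨t0, n0, hGG⟩ := hGGAIN hG K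
  refine ⟨(K ^ (t0 + n0 + 1)).factorial, 2 * (D + 1) * E * B + 4 * (D + 1) * E,
    fun Ω _ _ G m f hodd hm hc hf => ?_⟩
  have hm1 : 1 ≤ m := (Nat.factorial_pos _).trans_le hm
  have hn0 : n0 ≤ K ^ (t0 + n0 + 1) :=
    (by omega : n0 ≤ t0 + n0 + 1).trans (Nat.lt_pow_self (by omega)).le
  have hT := hTRACK Ω m a0 K t0 n0 (t0 + n0 + 1) hGG hK2 (by omega) (by omega) hn0 hm
    (Nat.log 2 (Fintype.card Ω) / (4 * (D + 1) * E * B) + 1)
  rw [← hB] at hT
  have hW := hROUND Ω m a0 _ _ (Nat.log 2 (Fintype.card Ω) / (8 * (D + 1) * E) + 1) hm1 hT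
    (hK ▸ gamec_pow _ _ hx) (ha0 ▸ gamec_pow _ _ hy) (2 * (D + 1)) G univ hodd (by
      rw [card_univ, mul_comm, pow_mul]
      exact Nat.pow_le_pow_left (hc.trans (Nat.pow_le_pow_right hm1 (Nat.le_succ D))) 2)
  exact hW.le (Nat.le_of_mul_le_mul_left ((gamec_ar _ _ _ _).trans hf) hE)

end Pool.Agent.P.MP_f1a348_lc.TO

end

section

/-! Step GGAIN. -/

set_option autoImplicit false
set_option linter.unusedSectionVars false

namespace Pool.Agent.P.MP_f1a348_lc.TO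

open Equiv Finset
open scoped Classical

section Aux

variable {P Y : Type} [Group P] [MulAction P Y] [Fintype Y] [DecidableEq Y]

/-- The system of local automorphisms given by a group of odd order. -/
def ggain_sys (k : ℕ) (hodd : Odd (Nat.card P)) : Sys Y k where
  L A f := ∃ h : P, ∀ x ∈ A, f x = h • x
  loc := fun ⟨h, hh⟩ hBA hg => ⟨h, fun x hx => (hg x hx).trans (hh x (hBA hx))⟩
  one A := ⟨1, fun x _ => by simp⟩
  inv := by
    rintro A f ⟨h, hh⟩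
    refine ⟨h⁻¹, fun y hy => ?_⟩
    obtain ⟨x, hx, rfl⟩ := mem_image.1 hy
    rw [Perm.inv_eq_iff_eq, hh x hx, inv_smul_smul, hh x hx]
  mul := by
    rintro A f g ⟨h, hh⟩ ⟨h', hh'⟩
    refine ⟨h' * h, fun x hx => ?_⟩
    rw [Perm.mul_apply, hh' _ (mem_image_of_mem f hx), hh x hx, mul_smul]
  ext := by
    rintro A f ⟨h, hh⟩ _
    exact ⟨MulAction.toPerm h, fun w => ⟨MulAction.toPerm h, fun x hx => (hh x hx).symm, rfl,
      h, fun x _ => rfl⟩⟩
  anti := by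
    rintro a b f ⟨h, hh⟩ ha hb
    have e1 : h • a = b := by rw [← hh a (by simp), ha]
    have e2 : h • b = a := by rw [← hh b (by simp), hb]
    obtain ⟨m, hm⟩ := hodd
    have e3 : ∀ n : ℕ, h ^ (2 * n) • a = a := by
      intro n
      induction n with
      | zero => simp
      | succ n ih =>
        rw [show 2 * (n + 1) = 2 * n + 1 + 1 by ring, pow_succ, pow_succ, mul_smul, mul_smul,
          e1, e2, ih]
    have e4 : h ^ (2 * m + 1) = 1 := by rw [← hm]; exact pow_card_eq_one'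
    have e5 : h ^ (2 * m + 1) • a = b := by rw [pow_succ', mul_smul, e3, e1]
    rw [← e5, e4, one_smul]

variable {k : ℕ} {hodd : Odd (Nat.card P)}

theorem ggain_E1 (S : Finset Y) (a b : Y) :
    (ggain_sys k hodd : Sys Y k).E1 S a b ↔ ∃ h : P, (∀ x ∈ S, h • x = x) ∧ h • a = b := by
  constructor
  · rintro ⟨f, ⟨⟨h, hh⟩, hS⟩, hab⟩
    refine ⟨h, fun x hx => ?_, ?_⟩
    · rw [← hh x (mem_union_left _ hx), hS x hx]
    · rw [← hh a (by simp), hab]
  · rintro ⟨h, hS, hab⟩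
    exact ⟨MulAction.toPerm h, ⟨⟨h, fun x _ => rfl⟩, hS⟩, hab⟩

theorem ggain_tr (T Z : Finset Y)
    (hZ : ∀ g : P, (∀ x ∈ T, g • x = x) → ∀ y ∈ Z, g • y ∈ Z)
    (g : P) (hg : ∀ x ∈ T, g • x = x) (z z' : Y)
    (h : z' ∈ (ggain_sys k hodd : Sys Y k).tr T Z z) :
    g • z' ∈ (ggain_sys k hodd : Sys Y k).tr T Z (g • z) := by
  have hg' : ∀ x ∈ T, g⁻¹ • x = x := fun x hx => by rw [inv_smul_eq_iff, hg x hx]
  simp only [Sys.tr, mem_filter, mem_univ, true_and, ggain_E1] at h ⊢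
  obtain ⟨⟨a, haT, haz⟩, h2⟩ := h
  refine ⟨⟨g * a * g⁻¹, fun x hx => ?_, ?_⟩, fun y hy => ?_⟩
  · rw [mul_smul, mul_smul, hg' x hx, haT x hx, hg x hx]
  · rw [mul_smul, mul_smul, inv_smul_smul, haz]
  · obtain ⟨b, hbT, hbz⟩ := h2 _ (hZ g⁻¹ hg' y hy)
    refine ⟨g * b * g⁻¹, fun x hx => ?_, ?_⟩
    · rcases mem_insert.1 hx with rfl | hx
      · rw [mul_smul, mul_smul, hbT _ (mem_insert_self _ _), smul_inv_smul]
      · rw [mul_smul, mul_smul, hg' x hx, hbT x (mem_insert_of_mem hx), hg x hx]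
    · rw [mul_smul, mul_smul, inv_smul_smul, hbz]

theorem ggain_sm (K : ℕ) (T Z : Finset Y)
    (hZ : ∀ g : P, (∀ x ∈ T, g • x = x) → ∀ y ∈ Z, g • y ∈ Z)
    (g : P) (hg : ∀ x ∈ T, g • x = x) (z : Y)
    (h : z ∈ (ggain_sys k hodd : Sys Y k).sm K T Z) :
    g • z ∈ (ggain_sys k hodd : Sys Y k).sm K T Z := by
  have hg' : ∀ x ∈ T, g⁻¹ • x = x := fun x hx => by rw [inv_smul_eq_iff, hg x hx]
  simp only [Sys.sm, mem_filter, mem_univ, true_and] at h ⊢
  refine le_trans (Nat.mul_le_mul_left _ ?_) h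
  refine card_le_card_of_injOn (fun w => g⁻¹ • w) (fun w hw => ?_)
    (fun a _ b _ hab => MulAction.injective g⁻¹ hab)
  have := ggain_tr (k := k) (hodd := hodd) T Z hZ g⁻¹ hg' _ _ hw
  rwa [inv_smul_smul] at this

end Aux

/-- The action of `H` on its orbit. -/
@[reducible] def ggain_act {G X : Type} [Group G] [MulAction G X] (H : Subgroup G) (x0 : X) :
    MulAction H (ob H x0) where
  smul h y := ⟨(h : G) • (y : X), smul_mem_ob h.2 y.2⟩
  one_smul y := Subtype.ext (one_smul G (y : X))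
  mul_smul a b y := Subtype.ext (mul_smul (a : G) (b : G) (y : X))

theorem p_GGAIN :
    S_GGAIN := by
  intro hG K
  obtain ⟨k, t0, n0, hG⟩ := hG K
  refine ⟨t0, n0, ?_⟩
  intro G X _ _ _ H x0 hodd hP hn
  letI : Fintype (ob H x0) := (ob_finite H x0).fintype
  letI : MulAction H (ob H x0) := ggain_act H x0
  have hs : ∀ (h : H) (y : ob H x0), ((h • y : ob H x0) : X) = (h : G) • (y : X) :=
    fun _ _ => rfl
  have hc : Fintype.card (ob H x0) = (ob H x0).ncard := by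
    rw [← Nat.card_eq_fintype_card, Nat.card_coe_set_eq]
  let Γ : Sys (ob H x0) k := ggain_sys k hodd
  have hHom : Γ.Hom := by
    intro a b
    rw [ggain_E1]
    have hb : (b : X) ∈ ob H (a : X) := by rw [ob_eq_of_mem a.2]; exact b.2
    obtain ⟨h, hh, e⟩ := hb
    exact ⟨⟨h, hh⟩, fun x hx => absurd hx (notMem_empty x), Subtype.ext e⟩
  have hPrim : Γ.Prim := by
    intro E hE hinv
    rcases hP.eqv (fun x y => ∃ (hx : x ∈ ob H x0) (hy : y ∈ ob H x0), E ⟨x, hx⟩ ⟨y, hy⟩)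
      (fun x hx => ⟨hx, hx, hE.refl _⟩)
      (fun x _ y _ ⟨hx, hy, e⟩ => ⟨hy, hx, hE.symm e⟩)
      (fun x _ y _ z _ ⟨hx, _, e⟩ ⟨_, hz, e'⟩ => ⟨hx, hz, hE.trans e e'⟩)
      (fun h hh x _ y _ ⟨hx, hy, e⟩ => ⟨smul_mem_ob hh hx, smul_mem_ob hh hy,
        hinv ⟨x, hx⟩ ⟨y, hy⟩ (MulAction.toPerm (⟨h, hh⟩ : H)) ⟨⟨h, hh⟩, fun _ _ => rfl⟩ e⟩)
      with h | h
    · exact Or.inl fun a b e => Subtype.ext (h a a.2 b b.2 ⟨a.2, b.2, e⟩)
    · refine Or.inr fun a b => ?_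
      obtain ⟨_, _, e⟩ := h a a.2 b b.2
      exact e
  obtain ⟨T, hT1, hT2, hT⟩ := hG (ob H x0) Γ (hc ▸ hn) hHom hPrim
  let T' : Finset X := T.map (Function.Embedding.subtype _)
  have hTc : T'.card = T.card := card_map _
  have hfix : ∀ h : G, ∀ hh : h ∈ H, h ∈ fixingSubgroup G (T' : Set X) →
      ∀ x ∈ T, (⟨h, hh⟩ : H) • x = x := by
    intro h hh hf x hx
    exact Subtype.ext ((mem_fixingSubgroup_iff G).1 hf x (mem_map_of_mem _ hx))
  have hinv1 : ∀ g : H, (∀ x ∈ T, g • x = x) → ∀ y ∈ Γ.sm K T ∅, g • y ∈ Γ.sm K T ∅ :=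
    fun g hg y hy => ggain_sm K T ∅ (fun _ _ y hy => absurd hy (notMem_empty y)) g hg y hy
  have hinv2 : ∀ g : H, (∀ x ∈ T, g • x = x) → ∀ y ∈ Γ.sm K T (Γ.sm K T ∅),
      g • y ∈ Γ.sm K T (Γ.sm K T ∅) :=
    fun g hg y hy => ggain_sm K T _ hinv1 g hg y hy
  have key : ∀ (Z : Finset (ob H x0)) (U : Subgroup G) (y : ob H x0),
      U ≤ H ⊓ fixingSubgroup G (T' : Set X) → (∀ h ∈ U, ∀ z ∈ Z, h • (z : X) = z) →
      y ∈ Γ.sm K T Z → K ^ T'.card * (ob U (y : X)).ncard ≤ (ob H x0).ncard := by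
    intro Z U y hU hUZ hy
    simp only [Sys.sm, mem_filter, mem_univ, true_and] at hy
    rw [hTc, ← hc]
    refine le_trans (Nat.mul_le_mul_left _ ?_) hy
    have hsub : ob U (y : X) ⊆ Subtype.val '' (Γ.tr T Z y : Set (ob H x0)) := by
      rintro _ ⟨h, hh, rfl⟩
      have hH := (hU hh).1
      have hF := hfix h hH (hU hh).2
      refine ⟨(⟨h, hH⟩ : H) • y, ?_, rfl⟩
      simp only [Sys.tr, coe_filter, mem_univ, true_and, Set.mem_ofPred_eq, Γ, ggain_E1]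
      refine ⟨⟨⟨h, hH⟩, hF, rfl⟩, fun z hz => ⟨⟨h, hH⟩, fun x hx => ?_, rfl⟩⟩
      rcases mem_insert.1 hx with rfl | hx
      · exact Subtype.ext (hUZ h hh _ hz)
      · exact hF x hx
    refine le_trans (Set.ncard_le_ncard hsub (Set.toFinite _)) ?_
    rw [Set.ncard_image_of_injective _ Subtype.val_injective, Set.ncard_coe_finset]
  refine ⟨T', Subtype.val '' (Γ.sm K T ∅ : Set (ob H x0)),
    Subtype.val '' (Γ.sm K T (Γ.sm K T ∅) : Set (ob H x0)), ?_, hTc ▸ hT1, hTc ▸ hT2,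
    ?_, ?_, ?_, ?_, ?_, ?_, ?_⟩
  · intro x hx
    obtain ⟨y, _, rfl⟩ := mem_map.1 hx
    exact y.2
  · rintro _ ⟨y, _, rfl⟩; exact y.2
  · rintro _ ⟨y, _, rfl⟩; exact y.2
  · rintro h ⟨hH, hF⟩ _ ⟨y, hy, rfl⟩
    exact ⟨(⟨h, hH⟩ : H) • y, hinv1 _ (hfix h hH hF) y hy, rfl⟩
  · rintro h ⟨hH, hF⟩ _ ⟨y, hy, rfl⟩
    exact ⟨(⟨h, hH⟩ : H) • y, hinv2 _ (hfix h hH hF) y hy, rfl⟩
  · rintro _ ⟨y, hy, rfl⟩
    exact key ∅ _ y le_rfl (fun _ _ z hz => absurd hz (notMem_empty z)) hy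
  · rintro _ ⟨y, hy, rfl⟩
    exact key _ _ y inf_le_left
      (fun h hh z hz => (mem_fixingSubgroup_iff G).1 hh.2 z ⟨z, hz, rfl⟩) hy
  · intro y hy
    exact key _ _ ⟨y, hy⟩ inf_le_left
      (fun h hh z hz => (mem_fixingSubgroup_iff G).1 hh.2 z ⟨z, hz, rfl⟩)
      (by rw [hT]; exact mem_univ _)

end Pool.Agent.P.MP_f1a348_lc.TO

end

section

/-! Step ROUND. -/

set_option autoImplicit false
set_option linter.unusedSectionVars false

namespace Pool.Agent.P.MP_f1a348_lc.TO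

open Equiv Finset
open scoped Classical

section ROUND

variable {Ω : Type} [Fintype Ω] [DecidableEq Ω]

theorem ROUND_reach {m a0 c n l : ℕ} (hT : Trk Ω m a0 c n) (hn : Fintype.card Ω ≤ n)
    (hl : Fintype.card Ω ≤ a0 ^ l) (H : Subgroup (Perm Ω)) (W : Finset Ω)
    (hH : Odd (Nat.card H)) : Reach m W.card (c + 2 * l) H W := by
  refine Reach.loc fun H1 h1 w hw hM => Or.inr ?_
  have hne : stab H1 w ≠ H1 := by
    intro e
    obtain ⟨g, hg, hgw⟩ := hM.1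
    have hg' : g ∈ stab H1 w := by rw [e]; exact hg
    exact hgw (mem_stab.1 hg').2
  obtain ⟨U, hU1, hU2, hU3, -⟩ := exists_max (stab_le H1 w) hne
  have he : m < U.relIndex H1 := hM.2 U hU1 hU2 hU3
  have hs : stab H1 w ≤ MulAction.stabilizer (Perm Ω) (q1 U) := by
    rw [stabilizer_q1]; exact hU1
  obtain ⟨ψ, k, -, h2, h3, h4, h5⟩ := exists_psi hs
  have hpos : 0 < (orb H1 w).card := Finset.card_pos.2 ⟨w, self_mem_orb H1 w⟩
  have hk : 0 < k := by
    rcases Nat.eq_zero_or_pos k with rfl | h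
    · rw [h5] at hpos; simp at hpos
    · exact h
  have hle : (ob H1 (q1 U)).ncard ≤ Fintype.card Ω := by
    calc (ob H1 (q1 U)).ncard ≤ (ob H1 (q1 U)).ncard * k := Nat.le_mul_of_pos_right _ hk
      _ = (orb H1 w).card := h5.symm
      _ ≤ Fintype.card Ω := Finset.card_le_univ _
  have hcard : (orb H1 w).card ≤ W.card := Finset.card_le_card hw
  have hF : Focus m a0 W.card l H1 (orb H1 w) ψ := by
    refine ⟨fun h hh x hx => apply_mem_orb hh hx, hcard, ?_, ?_, ?_⟩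
    · intro h hh x hx y hy e
      rw [h2 h hh x hx, h2 h hh y hy, e]
    · intro x hx
      rw [h4 x hx]
      rw [ncard_ob_q1] at h5
      have hm2 : m ≤ (U.relIndex H1) ^ 2 := he.le.trans (Nat.le_self_pow two_ne_zero _)
      calc k ^ 2 * m ≤ k ^ 2 * (U.relIndex H1) ^ 2 := Nat.mul_le_mul_left _ hm2
        _ = ((orb H1 w).card) ^ 2 := by rw [h5]; ring
        _ ≤ W.card ^ 2 := Nat.pow_le_pow_left hcard 2
    · rw [h3]; exact hle.trans hl
  refine hT (Perm Ω ⧸ U) H1 (q1 U) w (odd_of_le h1 hH) hs (hle.trans hn) _ ψ W.card l H1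
    (orb H1 w) le_rfl hF ?_
  intro h hh hf x hx
  rw [h2 h hh x hx]
  refine (mem_fixingSubgroup_iff _).1 hf _ ?_
  rw [← h3]
  exact ⟨x, hx, rfl⟩

theorem ROUND_compose {m s f : ℕ} : ∀ (c : ℕ) (H : Subgroup (Perm Ω)) (W : Finset Ω),
    Reach m s c H W →
    (∀ H' ≤ H, ∀ O : Finset Ω, O.card ^ 2 * m ≤ s ^ 2 → Win m f H' O) →
    Win m (c + f) H W := by
  intro c
  induction c with
  | zero =>
    intro H W hR hs
    rw [Nat.zero_add]
    exact Win.loc fun H1 h1 w hw hM => hs H1 h1 _ (hR H1 h1 w hw hM)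
  | succ c ih =>
    intro H W hR hs
    refine Win.loc fun H1 h1 w hw hM => ?_
    rcases hR H1 h1 w hw hM with h | ⟨p, hp⟩
    · exact (hs H1 h1 _ h).le (by omega)
    · have h2 := ih _ _ hp fun H' h' O hO => hs H' (h'.trans ((stab_le H1 p).trans h1)) O hO
      have e : c + 1 + f = (c + f) + 1 := by omega
      rw [e]
      exact fun H2 h3 w2 hw2 _ => ⟨p, h2.mono (stab_mono h3 p) hw2⟩

end ROUND

theorem p_ROUND :
    S_ROUND := by
  intro Ω _ _ m a0 c n l hm hT hn hl R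
  induction R with
  | zero =>
    intro H W _ hW
    rw [Nat.zero_mul]
    intro H1 _ w hw hM
    obtain ⟨g, hg, hgw⟩ := hM.1
    have h1 : W.card ≤ 1 := by
      rw [pow_zero] at hW
      exact (Nat.le_self_pow two_ne_zero _).trans hW
    exact hgw (Finset.card_le_one.1 h1 _ (hw (apply_mem_orb hg (self_mem_orb H1 w))) _
      (hw (self_mem_orb H1 w)))
  | succ R ih =>
    intro H W hH hW
    have h1 := ROUND_compose (f := R * (c + 2 * l)) _ H W (ROUND_reach hT hn hl H W hH)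
      fun H' h' O hO => ih H' O (odd_of_le h' hH) (by
        have h2 : O.card ^ 2 * m ≤ m ^ R * m := by
          rw [← pow_succ]; exact hO.trans hW
        exact Nat.le_of_mul_le_mul_right h2 hm)
    exact h1.le (le_of_eq (by ring))

end Pool.Agent.P.MP_f1a348_lc.TO

end

section

/-! Step TRACK. -/

set_option autoImplicit false
set_option linter.unusedSectionVars false

namespace Pool.Agent.P.MP_f1a348_lc.TO

open Equiv Finset
open scoped Classical

theorem track_small {Ω : Type} [Fintype Ω] [DecidableEq Ω] {m a0 n : ℕ} (hn : n.factorial ≤ m)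
    {X : Type} [MulAction (Perm Ω) X] (H : Subgroup (Perm Ω)) (x0 : X)
    (h : (ob H x0).ncard ≤ n) : Good m a0 0 H (fixingSubgroup (Perm Ω) (ob H x0)) :=
  Good.of_relIndex ((relIndex_fix_le (ob_finite H x0) fun _ hh _ hy => smul_mem_ob hh hy).trans
    ((Nat.factorial_le h).trans hn))

theorem track_lift (hSTEP : S_STEP) {Ω : Type} [Fintype Ω] [DecidableEq Ω] {m a0 c : ℕ}
    {X : Type} [MulAction (Perm Ω) X] {H U : Subgroup (Perm Ω)} (y0 : X) {p : Ω}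
    (hU : U ≤ H) (hp : stab H p ≤ U)
    (h1 : Good m a0 c H (fixingSubgroup (Perm Ω) (ob H (q1 U))))
    (h2 : ∀ j ∈ H, Good m a0 c (cj j U) (fixingSubgroup (Perm Ω) (ob (cj j U) (j • y0)))) :
    Good m a0 (c + 2 * (a0 + 1) + 1) H (fixingSubgroup (Perm Ω) (ob H y0)) := by
  have hN : Nz H (H ⊓ fixingSubgroup (Perm Ω) (ob H (q1 U))) := (Nz.self H).inf (Nz.fix_ob H _)
  have hAU : H ⊓ fixingSubgroup (Perm Ω) (ob H (q1 U)) ≤ U := fun a ha =>
    smul_q1_eq.1 ((mem_fixingSubgroup_iff _).1 ha.2 _ (self_mem_ob H _))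
  have h3 := hSTEP Ω H m a0 c H (H ⊓ fixingSubgroup (Perm Ω) (ob H (q1 U)))
    (fun j => cj (j : Perm Ω) U)
    (fun j => fixingSubgroup (Perm Ω) (ob (cj (j : Perm Ω) U) ((j : Perm Ω) • y0)))
    (fun j => (j : Perm Ω) p) inf_le_left hN
    (fun j g hg => by
      obtain ⟨hg, e⟩ := mem_stab.1 hg
      exact mem_cj.2 (hp (mem_stab.2
        ⟨H.mul_mem (H.mul_mem (H.inv_mem j.2) hg) j.2, by simp [e]⟩)))
    (fun j => cj_le j.2 hU) (fun j => le_cj_of_nz j.2 hN hAU) (fun j => Nz.fix_ob _ _)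
    (h1.mono le_rfl le_rfl) (fun j => h2 j j.2)
  refine h3.mono le_rfl fun g hg => (mem_fixingSubgroup_iff _).2 ?_
  rintro y ⟨h, hh, rfl⟩
  exact (mem_fixingSubgroup_iff _).1 (Subgroup.mem_iInf.1 hg.2.2 ⟨h, hh⟩) _ (self_mem_ob _ _)

theorem track_rel {G : Type} [Group G] {H S U : Subgroup G} (hU : U ≤ H) :
    (H ⊓ S).relIndex U = S.relIndex U := by
  rw [← Subgroup.inf_relIndex_right (H ⊓ S), ← Subgroup.inf_relIndex_right S]
  congr 1
  exact le_antisymm (fun g hg => ⟨hg.1.2, hg.2⟩) fun g hg => ⟨⟨hU hg.2, hg.1⟩, hg.2⟩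

theorem p_TRACK (hSTEP : S_STEP) (hMID : S_MID) :
    S_TRACK := by
  intro Ω _ _ m a0 K t0 n0 l0 hG hK hl0 ht0 hn0 hm l
  induction l using Nat.strong_induction_on with
  | _ l ih =>
  intro X _ H x0 p hodd hp hn
  by_cases hs : (ob H x0).ncard ≤ K ^ l0
  · exact (track_small hm H x0 hs).le (Nat.zero_le _)
  have hlt : l0 < l := (Nat.pow_lt_pow_iff_right (by omega : 1 < K)).1 (by omega)
  obtain ⟨l, rfl⟩ : ∃ l', l = l' + 1 := ⟨l - 1, by omega⟩
  have hKl : K ≤ K ^ l0 := Nat.le_self_pow (by omega) K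
  obtain ⟨L, hL⟩ : ∃ L, L = H ⊓ MulAction.stabilizer (Perm Ω) x0 := ⟨_, rfl⟩
  have hLH : L ≤ H := hL ▸ inf_le_left
  have hrel : ∀ U ≤ H, L.relIndex U = (ob U x0).ncard := fun U hU => by
    rw [hL, track_rel hU, ncard_ob]
  have hpL : stab H p ≤ L := hL ▸ le_inf (stab_le H p) hp
  obtain ⟨U2, ⟨a1, a2, a3⟩, hmin⟩ := (wellFounded_lt (α := Subgroup (Perm Ω))).has_min
    {U | L ≤ U ∧ U ≤ H ∧ K ≤ L.relIndex U} ⟨H, hLH, le_rfl, by rw [hrel H le_rfl]; omega⟩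
  have hne : L ≠ U2 := by
    rintro rfl
    rw [Subgroup.relIndex_self] at a3
    omega
  obtain ⟨U1, b1, b2, b3, hP⟩ := exists_max a1 hne
  have b4 : L.relIndex U1 < K := by
    by_contra hc
    exact hmin U1 ⟨b1, b2.trans a2, by omega⟩ (lt_of_le_of_ne b2 b3)
  have c2 : U2.relIndex H ≤ K ^ l := by
    have e := Subgroup.relIndex_mul_relIndex L U2 H a1 a2
    rw [hrel H le_rfl] at e
    refine Nat.le_of_mul_le_mul_left (c := K) ?_ (by omega)
    calc K * U2.relIndex H ≤ L.relIndex U2 * U2.relIndex H := Nat.mul_le_mul_right _ a3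
      _ ≤ K ^ (l + 1) := e ▸ hn
      _ = K * K ^ l := by ring
  have c1 : U1.relIndex U2 ≤ K ^ (l + 1) :=
    (Subgroup.relIndex_le_of_le_right a2 Subgroup.FiniteIndex.index_ne_zero).trans
      ((Subgroup.relIndex_le_of_le_left b1 Subgroup.FiniteIndex.index_ne_zero).trans
        (by rw [hrel H le_rfl]; exact hn))
  have g2 := ih l (by omega) _ H (q1 U2) p hodd (by rw [stabilizer_q1]; exact hpL.trans a1)
    (by rw [ncard_ob_q1]; exact c2)
  have hp1 : stab H p ≤ MulAction.stabilizer (Perm Ω) (q1 U1) := by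
    rw [stabilizer_q1]
    exact hpL.trans b1
  have g1 := track_lift hSTEP (c := (9 * (a0 + 1) + 8) * l + 5 * (a0 + 1) + 3) (q1 U1) a2
    (hpL.trans a1) (g2.le (by omega)) fun j hj =>
      hMID Ω m a0 _ K t0 n0 l hG ((Nat.factorial_pos _).trans_le hm) (by omega) (by omega)
        (by omega) (hn0.trans (Nat.pow_le_pow_right (by omega) (by omega)))
        (fun l' hl' => ih l' (by omega)) _ (cj j U2) (j • q1 U1) (j p)
        (odd_of_le (cj_le hj a2) hodd)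
        ((stab_mono (cj_le hj a2) _).trans (stab_apply_le hp1 hj)) (hP.cj j)
        (by rw [ncard_ob_cj, ncard_ob_q1]; exact c1)
  have g0 := track_lift hSTEP x0 (b2.trans a2) (hpL.trans b1) g1 fun j _ =>
    (track_small hm (cj j U1) (j • x0)
      (by rw [ncard_ob_cj, ← hrel U1 (b2.trans a2)]; omega)).le (Nat.zero_le _)
  refine g0.le ?_
  rw [Nat.mul_succ (9 * (a0 + 1) + 8) l]
  omega

end Pool.Agent.P.MP_f1a348_lc.TO

end
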