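import Pool.Agent.P.MP_f1a348_lc.TO.YC2
import Pool.Agent.P.MP_f1a348_lc.TO.YC1

/-! Tournament isomorphism, block C: assembly. -/

set_option autoImplicit false

namespace Pool.Agent.P.MP_f1a348_lc.TO

theorem game_of_gain : GAIN → GAME :=
  have hL : S_LEVEL := p_LEVEL (p_BLK p_BLK0)
  have hS : S_STEP := p_STEP hL
  p_GAMEC p_GGAIN (p_TRACK hS (p_MID hL hS)) p_ROUND

end Pool.Agent.P.MP_f1a348_lc.TO
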