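import Pool.Agent.P.MP_f1a348_lc.TO.EIface

section

/-! Step EEV. -/

set_option autoImplicit false
set_option linter.unusedSectionVars false

namespace Pool.Agent.P.MP_f1a348_lc.TO

open Pool.Agent.Lib.Helper47 Pool.Agent.P.MP_f1a348_lc.GI

namespace EEV

variable {G Ω₀ Ω : Type} [Group G] [DecidableEq G] [MulAction G Ω₀] [DecidableEq Ω₀]
  [MulAction G Ω] [DecidableEq Ω]

/-- the frame `s` returns within `T` visits, and does not fail under the condition `C` -/
def Run (x : Cx G Ω₀ Ω) (s : Fm G Ω) (T : ℕ) (C : Prop) : Prop :=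
  ∃ r n, x.prog.Ev (fun _ => True) s r n ∧ n ≤ T ∧ (C → r ≠ none)

theorem Run.mono {x : Cx G Ω₀ Ω} {s : Fm G Ω} {T T' : ℕ} {C C' : Prop} (h : Run x s T C)
    (hT : T ≤ T') (hC : C' → C) : Run x s T' C' := by
  obtain ⟨r, n, a, b, c⟩ := h
  exact ⟨r, n, a, b.trans hT, fun h => c (hC h)⟩

theorem run_done {x : Cx G Ω₀ Ω} {s : Fm G Ω} {T : ℕ} {C : Prop} (h : x.prog.ask s = none)
    (hC : C → s.2.1 ≠ none) : Run x s (T + 1) C :=
  ⟨_, 1, .done trivial h, by omega, hC⟩

section loops

variable {x : Cx G Ω₀ Ω} {Pre : Fm G Ω → Prop} {Post : Fm G Ω → Rs G → Prop}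
  (hpost : ∀ s r n, Pre s → x.prog.Ev (fun _ => True) s r n → Post s r)
  (hstep : ∀ s a, Pre s → x.prog.ask s = some a → Pre a ∧ ∀ r, Post a r → Pre (x.prog.upd s r))

include hpost hstep

theorem br_loop {f : List Unit} {O : List Ω} {c : Cs G} {S : List G} {T : ℕ} {C : Prop}
    (h : ∀ g, Pre (Cx.winF f (g, S) O) → Run x (Cx.winF f (g, S) O) T C) :
    ∀ (R : List G) (r : Rs G), Pre (f, r, O, .inr (.inr (c, S, R))) →
      Run x (f, r, O, .inr (.inr (c, S, R))) (R.length * (T + 1) + 1) (r ≠ none ∧ C) := by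
  intro R
  induction R with
  | nil => intro r _; exact run_done (by cases r <;> rfl) fun h => h.1
  | cons g R ih =>
    intro r hp
    cases r with
    | none => exact run_done rfl fun h => h.1
    | some a =>
      have ha : x.prog.ask (f, some a, O, .inr (.inr (c, S, g :: R))) =
          some (Cx.winF f (g, S) O) := rfl
      obtain ⟨p1, p2⟩ := hstep _ _ hp ha
      obtain ⟨r1, n1, e1, b1, c1⟩ := h g p1
      obtain ⟨r2, n2, e2, b2, c2⟩ := ih _ (p2 r1 (hpost _ _ _ p1 e1))
      refine ⟨r2, _, .call trivial ha e1 e2, ?_, fun hC => c2 ⟨?_, hC.2⟩⟩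
      · rw [List.length_cons, Nat.succ_mul]
        omega
      · cases r1 with
        | none => exact absurd rfl (c1 hC.2)
        | some b => simp

theorem try_loop {f : List Unit} {O : List Ω} {c : Cs G} {T : ℕ} {C : Ω × List Ω → Prop} :
    ∀ (V : List (Ω × List Ω)) (r : Rs G),
      (∀ v ∈ V, Pre (x.brF f c O v) → Run x (x.brF f c O v) T (C v)) →
      Pre (f, r, O, .inr (.inl (c, V))) →
      Run x (f, r, O, .inr (.inl (c, V))) (V.length * (T + 1) + 1) (r ≠ none ∨ ∃ v ∈ V, C v) := by
  intro V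
  induction V with
  | nil => intro r _ _; exact run_done (by cases r <;> rfl) fun h => by simpa using h
  | cons v V ih =>
    intro r h hp
    cases r with
    | some a => exact run_done rfl fun _ => by simp
    | none =>
      have ha : x.prog.ask (f, none, O, .inr (.inl (c, v :: V))) = some (x.brF f c O v) := rfl
      obtain ⟨p1, p2⟩ := hstep _ _ hp ha
      obtain ⟨r1, n1, e1, b1, c1⟩ := h v List.mem_cons_self p1
      obtain ⟨r2, n2, e2, b2, c2⟩ := ih r1 (fun u hu => h u (List.mem_cons_of_mem _ hu))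
        (p2 r1 (hpost _ _ _ p1 e1))
      refine ⟨r2, _, .call trivial ha e1 e2, ?_, fun hC => c2 ?_⟩
      · rw [List.length_cons, Nat.succ_mul]
        omega
      · rcases hC with hC | ⟨u, hu, hC⟩
        · exact absurd rfl hC
        · rcases List.mem_cons.1 hu with rfl | hu
          · exact Or.inl (c1 hC)
          · exact Or.inr ⟨u, hu, hC⟩

end loops

theorem orbS_mono {K K' : Subgroup G} (h : K' ≤ K) (w : Ω) : orbS K' w ⊆ orbS K w :=
  fun _ ⟨u, hu, e⟩ => ⟨u, h hu, e⟩

theorem orbS_eq {K : Subgroup G} {w a : Ω} (h : a ∈ orbS K w) : orbS K a ⊆ orbS K w := by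
  obtain ⟨g, hg, rfl⟩ := h
  rintro _ ⟨u, hu, rfl⟩
  exact ⟨u * g, mul_mem hu hg, mul_smul _ _ _⟩

theorem cost_ge (m N f h : ℕ) : 2 ≤ cost m N f h :=
  Nat.le_mul_of_pos_right _ (by positivity) |>.trans (Nat.le_mul_of_pos_right _ (by positivity))

theorem cost_h (m N f h : ℕ) : cost m N f (h + 1) = 4 * (m + 1) * cost m N f h := by
  unfold cost; ring

theorem cost_f (m N f h : ℕ) : cost m N (f + 1) h = 4 * (N + 1) ^ 2 * cost m N f h := by
  unfold cost; ring

/-- the claim for windows -/
def WinC (x : Cx G Ω₀ Ω) (Pre : Fm G Ω → Prop) (f : List Unit) (h : ℕ) : Prop :=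
  ∀ (B A : List Ω) (r : Rs G), Pre (f, r, A, .inl B) →
    (∀ c, r = some (some c) → ∀ b ∈ B, (orbS (gen c.2) b).ncard < 2 ^ h) →
    Run x (f, r, A, .inl B) (B.length * cost x.um.length x.dom.length f.length h + 1)
      (r ≠ none ∧ ∀ c, r = some (some c) → WinL x.dom x.um.length f.length (gen c.2) (St B))

/-- the claim for orbits -/
def TryC (x : Cx G Ω₀ Ω) (H : Subgroup G) (Pre : Fm G Ω → Prop) (f : List Unit) (h : ℕ) : Prop :=
  ∀ (c : Cs G) (O : List Ω) (w : Ω), gen c.2 ≤ H → x.Sub O → St O = orbS (gen c.2) w →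
    Pre (x.tryF f c O w) → (orbS (gen c.2) w).ncard < 2 ^ h →
    Run x (x.tryF f c O w) (O.length * cost x.um.length x.dom.length f.length h - 1)
      (WinL x.dom x.um.length f.length (gen c.2) (St O))

end EEV

open EEV in
theorem p_EEV (hEHALF : S_EHALF) (hEBLK : S_EBLK) (hESTEP : S_ESTEP) :
    S_EEV := by
  intro G Ω₀ Ω _ _ _ _ _ _ x H σ P hok hP hodd hbig hmer f0 c0 hc0
  obtain ⟨s1, s2⟩ := hESTEP G Ω₀ Ω x H σ P f0.length hok hP
  set Pre := x.Pre H σ P f0.length with hPre
  have hpost : ∀ s r n, Pre s → x.prog.Ev (fun _ => True) s r n → x.Post H σ P s r :=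
    fun s r n hp e => e.sound Pre (x.Post H σ P) s1 (fun s a h1 h2 _ => s2 s a h1 h2) hp
  have hstep : ∀ s a, Pre s → x.prog.ask s = some a →
      Pre a ∧ ∀ r, x.Post H σ P a r → Pre (x.prog.upd s r) :=
    fun s a h1 h2 => ⟨(s2 s a h1 h2).1, fun r hr => ((s2 s a h1 h2).2 r hr).1⟩
  have hfinS : ∀ O : List Ω, (St O).Finite := fun O => List.finite_toSet O
  have hwin : ∀ f h, TryC x H Pre f h → WinC x Pre f h := by
    intro f h ht B
    induction hB : B.length using Nat.strong_induction_on generalizing B with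
    | _ n ih =>
    subst hB
    intro A r hp hb
    rcases r with _ | _ | c
    · exact run_done rfl fun h => h.1
    · exact run_done rfl fun h => h.1
    rcases B with _ | ⟨w, B1⟩
    · exact run_done rfl fun h => h.1
    obtain ⟨-, hsub, hp2⟩ := id hp
    obtain ⟨hgd, hp3⟩ := hp2 _ rfl
    obtain ⟨iA, iB, hsol⟩ := hp3 c rfl
    have hKH : gen c.2 ≤ H := le_of_cs (σ := c.1) hgd.1
    have hlen : (w :: B1).length ≤ x.dom.length :=
      le_trans (by rw [List.length_append]; omega) hsub.2
    set O := orbL x.sp c.2 (w :: B1) w with hO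
    have hmem : ∀ b, b ∈ O ↔ b ∈ orbS (gen c.2) w := fun b =>
      mem_orbL iB (hlen.trans hok.len) List.mem_cons_self
    have hsl : O.Sublist (w :: B1) := orbL_sublist _ _ _ _
    have hwO : w ∈ O := (hmem w).2 ⟨1, one_mem _, one_smul _ _⟩
    have ha : x.prog.ask (f, some (some c), A, .inl (w :: B1)) = some (x.tryF f c O w) := rfl
    obtain ⟨p1, p2⟩ := hstep _ _ hp ha
    obtain ⟨r1, n1, e1, b1, c1⟩ := ht c O w hKH
      ⟨fun a h => hsub.1 a (List.mem_append_right _ (hsl.subset h)), hsl.length_le.trans hlen⟩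
      (Set.ext hmem) p1 (hb c rfl w List.mem_cons_self)
    have q1 := hpost _ _ _ p1 e1
    have q2 : ∀ o' ∈ r1, Gd H σ x.sp.length o' ∧ cs o' = Sol P (some c) O := by
      unfold Cx.tryF at q1
      cases h1 : fixG c.2 w <;> rw [h1] at q1
      · cases h2 : x.findB c.2 O w <;> rw [h2] at q1 <;> exact q1
      · exact q1
    have hM : ∀ c', r1 = some (some c') → gen c'.2 ≤ gen c.2 ∧ MArg H σ x.sp.length P c' A O := by
      intro c' e
      obtain ⟨g1, g2⟩ := q2 (some c') (by rw [e]; rfl)
      have h3 : gen c'.2 ≤ gen c.2 := le_of_cs (σ := c'.1) (τ := c.1) fun g hg =>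
        mem_cs.1 (show g ∈ cs (some (c.1, c.2)) from (g2.subset hg).1)
      exact ⟨h3, g1, iA.mono h3, (orbL_inv iB (hlen.trans hok.len) List.mem_cons_self).mono h3,
        fun g hg => ⟨hsol g (g2.subset hg).1, (g2.subset hg).2⟩⟩
    set r2 : Rs G := r1.bind (fun o => o.elim (some none) (fun c => x.merge c A O)) with hr2
    set B2 := (w :: B1).filter (fun b => !O.contains b) with hB2
    have hu : x.prog.upd (f, some (some c), A, .inl (w :: B1)) r1 = (f, r2, A ++ O, .inl B2) := rfl
    have hle : ∀ c', r2 = some (some c') → gen c'.2 ≤ gen c.2 := by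
      intro c' e
      rw [hr2] at e
      rcases r1 with _ | _ | d
      · cases e
      · cases e
      · obtain ⟨h3, h4⟩ := hM d rfl
        have h5 := (hP.merge d A O _ h4 e).1
        exact le_trans (le_of_cs (σ := c'.1) (τ := d.1) fun g hg =>
          mem_cs.1 (show g ∈ cs (some (d.1, d.2)) from (h5.subset hg).1)) h3
    have hl2 : O.length + B2.length = (w :: B1).length := by
      obtain ⟨p, hp⟩ : ∃ p : Ω → Bool, O = (w :: B1).filter p := ⟨_, rfl⟩
      rw [List.length_eq_length_filter_add (l := w :: B1) p, ← hp]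
      congr 2
      refine List.filter_congr fun b hb => ?_
      rw [hp]
      cases hpb : p b <;> simp only [List.contains_eq_mem, List.mem_filter, hpb, hb] <;> simp
    have hOpos : 0 < O.length := List.length_pos_of_mem hwO
    have hB2s : ∀ b ∈ B2, b ∈ w :: B1 := fun b hb => (List.mem_filter.1 hb).1
    obtain ⟨r3, n3, e3, b3, c3⟩ := ih B2.length (by omega) B2 rfl (A ++ O) r2 (hu ▸ p2 r1 q1)
      (fun c' e b hb2 => lt_of_le_of_lt (Set.ncard_le_ncard (orbS_mono (hle c' e) b)
        ((hfinS (w :: B1)).subset (by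
          rintro _ ⟨u, hu, rfl⟩
          exact iB u hu b (hB2s b hb2)))) (hb c rfl b (hB2s b hb2)))
    refine ⟨r3, _, .call trivial ha e1 (hu ▸ e3), ?_, fun hC => c3 ⟨?_, fun c' e =>
      (hC.2 c rfl).mono (hle c' e) hB2s⟩⟩
    · have h6 := Nat.mul_le_mul hOpos (cost_ge x.um.length x.dom.length f.length h)
      rw [← hl2, Nat.add_mul]
      omega
    · have h7 := c1 ((hC.2 c rfl).mono le_rfl fun b hb => hsl.subset hb)
      rcases r1 with _ | _ | d
      · exact absurd rfl h7
      · simp [hr2]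
      · exact hmer d A O (hM d rfl).2
  have hbr : ∀ (f : List Unit) (h k : ℕ) (c : Cs G) (O : List Ω) (v : Ω × List Ω)
      (V : Subgroup G), WinC x Pre f h → gen c.2 ≤ H →
      (∀ u ∈ gen c.2, memB v.1 v.2 u = true ↔ u ∈ V) → Idx V (gen c.2) k →
      Idx V (gen c.2) x.dom.length → (∀ b ∈ O, (orbS (gen c.2 ⊓ V) b).ncard < 2 ^ h) →
      Pre (x.brF f c O v) → Run x (x.brF f c O v)
        (k * (O.length * cost x.um.length x.dom.length f.length h + 2) + 1)
        (WinL x.dom x.um.length f.length (gen c.2 ⊓ V) (St O)) := by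
    intro f h k c O v V hw hKH hV hk hN hb hp
    have e := gen_subG (hok.faith.mono hKH) hV ((bfs_length x.sp hV hN).trans hok.len)
    refine (br_loop hpost hstep (T := O.length * cost x.um.length x.dom.length f.length h + 1)
      (C := WinL x.dom x.um.length f.length (gen c.2 ⊓ V) (St O)) (fun g hg => ?_) _ _ hp).mono
      ?_ fun hC => ⟨by simp, hC⟩
    · refine (hw O [] _ hg fun c' e' b hb' => ?_).mono le_rfl fun hC => ⟨by simp, fun c' e' => ?_⟩
      · cases e'
        exact e.symm ▸ hb b hb'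
      · cases e'
        exact e.symm ▸ hC
    · rw [List.length_map]
      exact Nat.add_le_add_right (Nat.mul_le_mul_right _ (bfs_length x.sp hV hk)) 1
  have htry : ∀ f h, (∀ h', h = h' + 1 → WinC x Pre f h') →
      (∀ f', f = () :: f' → WinC x Pre f' h) → TryC x H Pre f h := by
    intro f h w1 w2 c O w hKH hsub hSt hp hb
    have hmem : ∀ b, b ∈ O ↔ b ∈ orbS (gen c.2) w := fun b => Set.ext_iff.1 hSt b
    have hwO : w ∈ O := (hmem w).2 ⟨1, one_mem _, one_smul _ _⟩
    have hOpos : 0 < O.length := List.length_pos_of_mem hwO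
    have hfo : (orbS (gen c.2) w).Finite := hSt ▸ hfinS O
    have iO : InvL (gen c.2) O := fun u hu a ha =>
      (hmem _).2 (orbS_eq ((hmem a).1 ha) ⟨u, hu, rfl⟩)
    have hone : ∀ (s : Fm G Ω) (C : Prop), x.prog.ask s = none → (C → s.2.1 ≠ none) →
        Run x s (O.length * cost x.um.length x.dom.length f.length h - 1) C := fun s C h1 h2 =>
      (run_done (T := 0) h1 h2).mono (by
        have := Nat.mul_le_mul hOpos (cost_ge x.um.length x.dom.length f.length h)
        omega) id
    obtain ⟨k1, k2⟩ := hEBLK G Ω₀ Ω x c.2 O w (hok.faith.mono hKH) iO (hsub.2.trans hok.len) hwO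
    unfold Cx.tryF at hp ⊢
    cases h1 : fixG c.2 w with
    | true => exact hone _ _ rfl fun _ => by simp
    | false =>
      rw [h1] at hp
      cases h2 : x.findB c.2 O w with
      | some B0 =>
        rw [h2] at hp
        obtain ⟨-, V, hV1, hV2, hV3⟩ := k1 B0 h2
        obtain ⟨h, rfl⟩ : ∃ h', h = h' + 1 := by
          cases h with
          | zero =>
            have := (Set.ncard_pos hfo).2 ⟨w, (hmem w).1 hwO⟩
            omega
          | succ h => exact ⟨h, rfl⟩
        have hVN : Idx V (gen c.2) x.dom.length :=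
          ((iO.idx hwO).of_le fun u hu => hV1.lo ⟨hu.1, mem_fixS.1 hu.2 w (by simp)⟩).mono le_rfl
            hsub.2
        refine (try_loop hpost hstep
          (T := x.um.length * (O.length * cost x.um.length x.dom.length f.length h + 2) + 1)
          (C := fun _ =>
          WinL x.dom x.um.length f.length (gen c.2 ⊓ V) (St O)) [(w, B0)] none (fun v hv hpv => ?_)
            hp).mono ?_ fun hC => Or.inr ⟨_, List.mem_cons_self, hC.mono inf_le_left le_rfl⟩
        · rw [List.mem_singleton.1 hv] at hpv ⊢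
          refine hbr f h _ c O (w, B0) V (w1 h rfl) hKH hV3 hV2 hVN (fun b hb' => ?_) hpv
          have h3 := hEHALF G Ω (gen c.2) V w (fun g hg => hodd g (hKH hg)) hV1 hfo b
            ((hmem b).1 hb')
          rw [inf_eq_right.2 hV1.hi]
          rw [pow_succ] at hb
          omega
        · have h4 := Nat.mul_le_mul hOpos (cost_ge x.um.length x.dom.length f.length h)
          rw [cost_h, List.length_singleton, Nat.mul_left_comm]
          generalize O.length * cost x.um.length x.dom.length f.length h = t at h4 ⊢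
          refine Nat.le_sub_one_of_lt ?_
          nlinarith
      | none =>
        rw [h2] at hp
        have hM2 : M2L x.um.length (gen c.2) w := by
          refine ⟨?_, k2 (le_trans (Nat.pow_le_pow_right (by positivity)
            (Nat.add_le_add_right (Nat.log_mono_right hsub.2) 1)) hbig) h2⟩
          simp only [fixG, List.all_eq_false, beq_iff_eq] at h1
          obtain ⟨s, hs, e⟩ := h1
          exact ⟨s, mem_gen hs, e⟩
        cases f with
        | nil => exact hone _ _ rfl fun hC => (hC _ le_rfl w hSt.ge hM2).elim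
        | cons u f =>
          refine (try_loop hpost hstep
            (T := x.dom.length * (O.length * cost x.um.length x.dom.length f.length h + 2) + 1)
            (C := fun v =>
            WinL x.dom x.um.length f.length (gen c.2 ⊓ MulAction.stabilizer G v.1) (St O))
            (x.dom.map fun p => (p, [p])) none (fun v hv hpv => ?_) hp).mono ?_ fun hC => ?_
          · obtain ⟨p, hpd, rfl⟩ := List.mem_map.1 hv
            have hI : Idx (MulAction.stabilizer G p) (gen c.2) x.dom.length :=
              ((hok.inv.mono hKH).idx hpd).of_le fun u hu => mem_fixS.1 hu.2 p (by simp)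
            refine hbr f h _ c O (p, [p]) _ (w2 f rfl) hKH (fun u _ => by simp [memB]) hI hI
              (fun b hb' => lt_of_le_of_lt (Set.ncard_le_ncard
                ((orbS_mono inf_le_left b).trans (orbS_eq ((hmem b).1 hb'))) hfo) hb) hpv
          · have h4 := Nat.mul_le_mul hOpos (cost_ge x.um.length x.dom.length f.length h)
            rw [List.length_cons, cost_f, List.length_map, Nat.mul_left_comm]
            generalize O.length * cost x.um.length x.dom.length f.length h = t at h4 ⊢
            refine Nat.le_sub_one_of_lt ?_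
            nlinarith
          · obtain ⟨p, hpd, hw⟩ := hC _ le_rfl w hSt.ge hM2
            exact Or.inr ⟨(p, [p]), List.mem_map_of_mem hpd, hSt ▸ hw⟩
  have hall : ∀ f h, WinC x Pre f h := by
    intro f
    induction f with
    | nil =>
      intro h
      induction h with
      | zero => exact hwin _ _ (htry _ _ (fun _ e => by cases e) fun _ e => by cases e)
      | succ h ih => exact hwin _ _ (htry _ _ (fun _ e => by cases e; exact ih) fun _ e => by cases e)
    | cons u f ihf =>
      intro h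
      induction h with
      | zero => exact hwin _ _ (htry _ _ (fun _ e => by cases e) fun _ e => by cases e; exact ihf _)
      | succ h ih =>
        exact hwin _ _ (htry _ _ (fun _ e => by cases e; exact ih) fun _ e => by cases e; exact ihf _)
  have hKH : gen c0.2 ≤ H := le_of_cs (σ := c0.1) hc0.1
  refine (hall f0 (Nat.log 2 x.dom.length + 1) x.dom [] (some (some c0)) ?_ ?_).mono le_rfl
    fun hC => ⟨by simp, fun c e => by cases e; exact hC⟩
  · refine ⟨le_rfl, ⟨fun a ha => ha, le_rfl⟩, fun o ho => ?_⟩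
    cases ho
    refine ⟨hc0, fun c hc => ?_⟩
    cases hc
    refine ⟨fun _ _ _ h => (List.not_mem_nil h).elim, hok.inv.mono hKH, fun g _ => ?_⟩
    have : St ([] : List Ω) = ∅ := by ext; simp
    rw [this]
    exact hP.nil g
  · intro c e b hb
    cases e
    refine lt_of_le_of_lt ?_ (Nat.lt_pow_succ_log_self one_lt_two x.dom.length)
    refine le_trans (Set.ncard_le_ncard (t := (x.dom.toFinset : Set Ω)) ?_ (Set.toFinite _)) ?_
    · rintro _ ⟨u, hu, rfl⟩
      simpa using hok.inv u (hKH hu) b hb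
    · rw [Set.ncard_coe_finset]
      exact List.toFinset_card_le _

end Pool.Agent.P.MP_f1a348_lc.TO

end

section

/-! Step ETRH. -/

set_option autoImplicit false
set_option linter.unusedSectionVars false

namespace Pool.Agent.P.MP_f1a348_lc.TO

open Pool.Agent.Lib.Helper47 Pool.Agent.P.MP_f1a348_lc.GI

namespace ETRH

theorem dbl_len (pad j : List Unit) (h : 2 ^ j.length ≤ pad.length) :
    (dbl pad j).length = 2 ^ j.length := by
  unfold dbl
  generalize j.length = n at h
  induction n with
  | zero => rfl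
  | succ n ih =>
    rw [pow_succ] at h
    rw [Function.iterate_succ_apply', List.length_take, List.length_append, ih (by omega), pow_succ]
    omega

theorem grp {l : List U} {σ : U} {M : ℕ} (hσ : σ ∈ gen l) (hl : size l ≤ M) :
    size σ ≤ M * (2 * M + 2) + 1 := by
  have h1 := FP.size_le (σ := σ) (c := l.flatMap (fun τ => τ.code.map Prod.fst)) (fun a ha => by
    by_contra hc
    refine ha (FP.app_fix (fun τ hτ => ?_) hσ)
    by_contra h
    exact hc (List.mem_flatMap.2 ⟨τ, hτ, FP.mem_keys.2 h⟩))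
  have h2 := size_flat l (fun τ : U => τ.code.map Prod.fst)
    (fun τ => size_map_le τ.code Prod.fst (fun p => by rw [size_prod p]; omega))
  have h3 := h2.trans hl
  exact h1.trans (Nat.succ_le_succ (Nat.mul_le_mul h3 (by omega)))

theorem win {X : List Str} {A O : List (Option ℕ)} {M : ℕ} (hX : size X ≤ M) {z : Str}
    (hz : z ∈ hyWin X A O) : size z ≤ M * (2 * M + 2) + 1 := by
  obtain ⟨⟨s, t⟩, hp, rfl⟩ := List.mem_map.1 hz
  obtain ⟨hs, ht⟩ := mem_prodL.1 hp
  have s1 : size s.list ≤ M := (size_lt_of_mem hs).le.trans hX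
  have t1 : size t.list ≤ M := (size_lt_of_mem ht).le.trans hX
  generalize e : Str.mk ((res A s).list ++ (res O t).list) = z
  have h1 : z.list ⊆ s.list ++ t.list := fun a ha => by
    rw [Str.mem_list, ← e, Str.mem_mk, List.mem_append, Str.mem_list, Str.mem_list, res, res,
      Str.mem_mk, Str.mem_mk] at ha
    exact List.mem_append.2 (ha.imp List.mem_of_mem_filter List.mem_of_mem_filter)
  have h2 : z.list.length ≤ (s.list ++ t.list).length :=
    (List.subperm_of_subset (Finset.sort_nodup _ _) h1).length_le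
  have h3 := size_list_le (l := z.list) (B := M) fun a ha => (List.mem_append.1 (h1 ha)).elim
    (fun h => (size_lt_of_mem h).le.trans s1) fun h => (size_lt_of_mem h).le.trans t1
  have h4 := length_lt_size s.list
  have h5 := length_lt_size t.list
  rw [List.length_append] at h2
  have h6 : z.list.length * (M + 1) ≤ 2 * M * (M + 1) := Nat.mul_le_mul_right _ (by omega)
  calc size z = size z.list := rfl
    _ ≤ 2 * M * (M + 1) + 1 := by omega
    _ = _ := by ring

theorem num {E m0 c M j n : ℕ} (h : Nat.log 2 M + (E * m0 + c + 1) ≤ E * j) (hn : n ≤ M * M) :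
    m0 ≤ 2 ^ j ∧ n ≤ (2 ^ j) ^ (2 * E) ∧ Nat.log 2 n + c ≤ 2 * E * j := by
  have h1 : m0 < j := Nat.lt_of_mul_lt_mul_left (a := E) (by omega)
  have h2 := Nat.lt_pow_succ_log_self (b := 2) (by norm_num) M
  have h3 : n < 2 ^ (2 * Nat.log 2 M + 2) :=
    hn.trans_lt ((Nat.mul_self_lt_mul_self h2).trans_eq (by rw [← pow_add]; congr 1; omega))
  have h4 := Nat.log_lt_of_lt_pow' (by omega) h3
  have h5 : 2 * E * j = 2 * (E * j) := by ring
  refine ⟨(h1.trans Nat.lt_two_pow_self).le, h3.le.trans ?_, by omega⟩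
  rw [← pow_mul, mul_comm j]
  exact Nat.pow_le_pow_right (by norm_num) (by omega)

end ETRH

theorem p_ETRH (hEENG : S_EENG) (hEWIN : S_EWIN) (hETROK : S_ETROK) :
    S_ETRH := by
  intro hg
  refine ⟨60, fun E => ?_⟩
  obtain ⟨m0, c, hw⟩ := hEWIN hg (2 * E) (2 * E)
  refine ⟨E * m0 + c + 1, fun p V σ X Y M hpre hni hM hj hp => ?_⟩
  unfold trP
  dsimp only
  cases ht : trT V σ X Y
  · simp
  have hxy : X = [] ↔ Y = [] := by
    have := beq_iff_eq.1 (Bool.and_eq_true_iff.1 ht).1
    rw [← List.isEmpty_iff, ← List.isEmpty_iff, this]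
  obtain ⟨a1, -, a3, a4, a5⟩ := hETROK p V σ X Y hpre.sup hxy
  have odd := a3 hni
  simp only [size_pair] at hM
  have v1 := length_lt_size V
  have x1 := length_lt_size X
  have hb : (M * (2 * M + 2) + 1 + 2) ^ (20 * (p.2.length + 1)) ≤ p.1.length := by
    refine le_trans ?_ hp
    rw [show 60 * (p.2.length + 1) = 3 * (20 * (p.2.length + 1)) by ring, pow_mul (M + 2)]
    exact Nat.pow_le_pow_left (by nlinarith [Nat.zero_le (M ^ 3)]) _
  have hd : (dbl p.1 p.2).length = 2 ^ p.2.length := ETRH.dbl_len _ _ (le_trans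
    ((Nat.pow_le_pow_left (by omega) _).trans (Nat.pow_le_pow_right (by omega) (by omega))) hp)
  have hs : (spOf V X).length ≤ M * (2 * M + 2) + 1 := by
    simp only [spOf, sqU, List.length_map, length_prodL, List.length_cons, List.length_append]
    exact (Nat.mul_le_mul (by omega) (by omega)).trans (Nat.le_succ _)
  have hG : ∀ g ∈ gen (σ.1 :: σ.2), size g ≤ M * (2 * M + 2) + 1 := fun g hg =>
    ETRH.grp hg (by rw [size_cons, ← size_prod]; omega)
  have hl : (posL V).length ≤ M * M := by
    simp only [posL, List.length_cons, List.length_map]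
    exact le_trans (by omega) (Nat.le_mul_self M)
  rw [cond_true, Ne, Option.map_eq_none_iff]
  refine (hEENG U ℕ _ (hyCx p V X Y) σ (hyP X Y) p.2 a1 a4).2 _ odd ?_ (fun c' A O ha => ?_) hG
    (fun a ha => ?_) hs hd.le hb
  · obtain ⟨b1, b2, b3⟩ := ETRH.num hj hl
    rw [← hd] at b1 b2
    exact hw U _ _ _ _ _ odd a1.inv b1 b2 b3
  · have le1 : gen c'.2 ≤ gen σ.2 := le_of_cs (σ := c'.1) ha.gd.1
    have odd' : OddG (gen c'.2) := fun g hg => odd g (le1 hg)
    have le2 : gen σ.2 ≤ gen (σ.1 :: σ.2) := gen_mono fun _ => List.mem_cons_of_mem _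
    have ok := a5 c' A O (X.map (res (A ++ O)))
      (Y.map (fun t => c'.1 • res (A ++ O) (c'.1⁻¹ • t))) ha
    refine (hEENG U ℕ _ _ c' _ p.2 ok (si_prob _ _ _ _ _)).2 _ odd' ?_
      (fun _ _ _ _ => Option.some_ne_none _) (fun g hg => hG g (gen_le.2 ?_ hg))
      (fun a ha => ETRH.win (by omega) ha) hs hd.le hb
    · obtain ⟨b1, b2, b3⟩ := ETRH.num (n := (hyWin X A O).length) hj (by
        rw [hyWin, List.length_map, length_prodL]
        exact Nat.mul_le_mul (by omega) (by omega))
      rw [← hd] at b1 b2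
      exact hw U _ _ _ _ _ odd' ok.inv b1 b2 b3
    · refine List.forall_mem_cons.2 ⟨?_, fun g hg => le2 (le1 (mem_gen hg))⟩
      simpa using mul_mem (mem_gen List.mem_cons_self) (le2 (ha.gd.1 _ (self_mem_cs c'.1 c'.2)))
  · rcases List.mem_cons.1 ha with rfl | h
    · simp
    · obtain ⟨v, hv, rfl⟩ := List.mem_map.1 h
      have := size_lt_of_mem hv
      rw [size_some]
      nlinarith

end Pool.Agent.P.MP_f1a348_lc.TO

end

section

/-! Step ETROK. -/

set_option autoImplicit false
set_option linter.unusedSectionVars false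

namespace Pool.Agent.P.MP_f1a348_lc.TO

open Pool.Agent.Lib.Helper47 Pool.Agent.P.MP_f1a348_lc.GI

theorem p_ETROK (hEENG : S_EENG) (hEHYP : S_EHYP) :
    S_ETROK := by
  intro p V c X Y hs hXY
  have sup : ∀ u ∈ gen c.2, ∀ v, v ∉ V → u.app v = v := fun u hu v hv =>
    FP.app_fix (fun s h => hs s h v hv) hu
  have inv : ∀ u ∈ gen c.2, ∀ b ∈ V, u.app b ∈ V := fun u hu b hb => by_contra fun h =>
    h ((u.app_injective (sup u hu _ h)).symm ▸ hb)
  have ex : ∀ u ∈ gen c.2, ∀ v ∈ gen c.2, (∀ b ∈ V, u.app b = v.app b) → u = v :=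
    fun u hu v hv h => FP.ext fun a => by
      by_cases ha : a ∈ V
      · exact h a ha
      · rw [sup u hu a ha, sup v hv a ha]
  have fa : ∀ pad : List Unit, V.length * V.length ≤ pad.length → Faith pad V (gen c.2) :=
    fun pad h => ⟨V.length, fun u hu e => ex u hu 1 (one_mem _) e, fun b hb =>
      ⟨V.toFinset, V.toFinset_card_le, fun u hu => List.mem_toFinset.2 (inv u hu b hb)⟩, h⟩
  have ls : (spOf V X).length = (V.length + X.length + 1) * (V.length + X.length + 1) := by
    simp [spOf, sqU, length_prodL]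
  have f1 := fa (spOf V X) (by rw [ls]; exact Nat.mul_le_mul (by omega) (by omega))
  have ok : ∀ (c' : Co) D X' Y', Gd (gen c.2) c.1 (spOf V X).length (some c') →
      InvL (gen c'.2) D → D.length ≤ X.length ^ 2 → (inCx p V X D X' Y').Ok (gen c'.2) :=
    fun c' D X' Y' h1 h2 h3 => ⟨f1.mono (le_of_cs h1.1), h2, h3.trans (by
      change _ ≤ (spOf V X).length
      rw [ls, sq]
      exact Nat.mul_le_mul (by omega) (by omega))⟩
  have hy := hEHYP X Y (gen c.2) c.1 (spOf V X).length
    (fun D X' Y' c => (inCx p V X D X' Y').eng p.2 c) hXY fun c' D X' Y' r h1 h2 h3 h4 =>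
      (hEENG U ℕ Str (inCx p V X D X' Y') c' (siP X' Y') p.2 (ok c' D X' Y' h1 h2 h3)
        (si_prob _ _ _ X' Y')).1 r h4
  refine ⟨⟨f1, fun u hu a ha => ?_, ?_⟩, fa _ (by simp [sqU, length_prodL]), fun h g hg => ?_,
    hy.1, fun c' A O X' Y' h => ok c' _ X' Y' h.gd (hy.2 c' A O h)
      (by simp [hyWin, length_prodL, sq])⟩
  · rcases List.mem_cons.1 ha with rfl | ha
    · exact List.mem_cons_self
    · obtain ⟨b, hb, rfl⟩ := List.mem_map.1 ha
      exact List.mem_cons_of_mem _ (List.mem_map_of_mem (inv u hu b hb))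
  · change (posL V).length ≤ (spOf V X).length
    rw [ls, posL, List.length_cons, List.length_map]
    exact le_trans (by omega) (Nat.le_mul_self _)
  · have : Finite (gen c.2) := Finite.of_injective
      (fun (u : gen c.2) (b : V.toFinset) => (⟨u.1.app b, List.mem_toFinset.2
        (inv _ u.2 _ (List.mem_toFinset.1 b.2))⟩ : V.toFinset)) fun u v e =>
      Subtype.ext (ex _ u.2 _ v.2 fun b hb =>
        congrArg Subtype.val (congrFun e ⟨b, List.mem_toFinset.2 hb⟩))
    have h0 : 0 < orderOf g := by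
      rw [← Subgroup.orderOf_mk g hg]
      exact orderOf_pos _
    refine ⟨orderOf g, Nat.not_even_iff_odd.1 fun ⟨k, hk⟩ => ?_, pow_orderOf_eq_one g⟩
    exact pow_ne_one_of_lt_orderOf (n := k) (by omega) (by omega)
      (h _ (pow_mem hg k) (by rw [← pow_add, ← hk, pow_orderOf_eq_one]))

end Pool.Agent.P.MP_f1a348_lc.TO

end

section

/-! Step ETRPT. -/

set_option autoImplicit false
set_option linter.unusedSectionVars false

namespace Pool.Agent.P.MP_f1a348_lc.TO

open Pool.Agent.Lib.Helper47 Pool.Agent.P.MP_f1a348_lc.GI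

namespace ETRPT

variable {α : Type} [Enc α]

instance paOpt : PA U (Option ℕ) := ⟨by
  have h : PT (fun x : U × Option ℕ => x.2.map (fun v => x.1.app v)) := by fun_prop
  refine h.of_eq fun x => ?_
  obtain ⟨g, _ | v⟩ := x <;> rfl⟩

theorem size_units (l : List Unit) : size l = 2 * l.length + 1 := by
  induction l with
  | nil => rfl
  | cons a l ih => simp only [size_cons, size_unit, ih, List.length_cons]; omega

@[fun_prop] theorem pt_dbl {pad j : α → List Unit} (h1 : PT pad) (h2 : PT j) :
    PT (fun a => dbl (pad a) (j a)) := by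
  refine PT.iterate_inv (f := fun a (l : List Unit) => (l ++ l).take (pad a).length)
    (by fun_prop) h2 (PT.const _) (fun a l => l.length ≤ (pad a).length + 1)
    (fun a => by simp) (fun a l _ => by simp only [List.length_take]; omega)
    (fun a => 2 * ((pad a).length + 1) + 1)
    (((PB.const 2).mul ((ps_len h1).add (PB.const 1))).add (PB.const 1)) (fun a l h => ?_)
  rw [size_units]; omega

@[fun_prop] theorem pt_sqU {β : Type} [Enc β] {l : α → List β} (h : PT l) :
    PT (fun a => sqU (l a)) := by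
  unfold sqU; fun_prop

@[fun_prop] theorem pt_spOf {V : α → List ℕ} {X : α → List Str} (h1 : PT V) (h2 : PT X) :
    PT (fun a => spOf (V a) (X a)) := by
  unfold spOf; fun_prop

@[fun_prop] theorem pt_posL {V : α → List ℕ} (h1 : PT V) : PT (fun a => posL (V a)) := by
  unfold posL; fun_prop

@[fun_prop] theorem pt_res {W : α → List (Option ℕ)} {s : α → Str} (h1 : PT W) (h2 : PT s) :
    PT (fun a => res (W a) (s a)) := by
  unfold res; fun_prop

@[fun_prop] theorem pt_hyLeaf {X Y : α → List Str} {g : α → U} {w : α → Option ℕ} (h1 : PT X)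
    (h2 : PT Y) (h3 : PT g) (h4 : PT w) : PT (fun a => hyLeaf (X a) (Y a) (g a) (w a)) := by
  unfold hyLeaf; fun_prop

@[fun_prop] theorem pt_hyWin {X : α → List Str} {A O : α → List (Option ℕ)} (h1 : PT X)
    (h2 : PT A) (h3 : PT O) : PT (fun a => hyWin (X a) (A a) (O a)) := by
  unfold hyWin; fun_prop

@[fun_prop] theorem pt_trT {V : α → List ℕ} {c : α → Co} {X Y : α → List Str} (h1 : PT V)
    (h2 : PT c) (h3 : PT X) (h4 : PT Y) : PT (fun a => trT (V a) (c a) (X a) (Y a)) := by
  unfold trT; fun_prop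

theorem pt_inner (hEPT : S_EPT) {p : α → Par} {V : α → List ℕ} {X D X' Y' : α → List Str}
    {c : α → Co} (h1 : PT p) (h2 : PT V) (h3 : PT X) (h4 : PT D) (h5 : PT X') (h6 : PT Y')
    (h7 : PT c) :
    PT (fun a => (inCx (p a) (V a) (X a) (D a) (X' a) (Y' a)).eng (p a).2 (c a)) := by
  refine hEPT U ℕ Str α (fun a => inCx (p a) (V a) (X a) (D a) (X' a) (Y' a)) (fun a => (p a).2)
    c ?_ (by fun_prop) h7
  refine ⟨?_, ?_, ?_, ?_, ?_, ?_, ?_⟩ <;> simp only [inCx, siCx] <;> fun_prop

theorem pt_outer (hEPT : S_EPT) {p : α → Par} {V : α → List ℕ} {X Y : α → List Str}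
    {c : α → Co} (h1 : PT p) (h2 : PT V) (h3 : PT X) (h4 : PT Y) (h7 : PT c) :
    PT (fun a => (hyCx (p a) (V a) (X a) (Y a)).eng (p a).2 (c a)) := by
  refine hEPT U ℕ (Option ℕ) α (fun a => hyCx (p a) (V a) (X a) (Y a)) (fun a => (p a).2)
    c ?_ (by fun_prop) h7
  refine ⟨?_, ?_, ?_, ?_, ?_, ?_, ?_⟩
  · simp only [hyCx]; fun_prop
  · simp only [hyCx]; fun_prop
  · simp only [hyCx]; fun_prop
  · simp only [hyCx]; fun_prop
  · simp only [hyCx]; fun_prop
  · simp only [hyCx]; fun_prop
  · simp only [hyCx, hyMerge]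
    exact pt_inner hEPT (α := α × Cs U × List (Option ℕ) × List (Option ℕ))
      (p := fun q => p q.1) (V := fun q => V q.1) (X := fun q => X q.1)
      (D := fun q => hyWin (X q.1) q.2.2.1 q.2.2.2)
      (X' := fun q => (X q.1).map (res (q.2.2.1 ++ q.2.2.2)))
      (Y' := fun q => (Y q.1).map (fun t => q.2.1.1 • res (q.2.2.1 ++ q.2.2.2) (q.2.1.1⁻¹ • t)))
      (c := fun q => q.2.1) (by fun_prop) (by fun_prop) (by fun_prop) (by fun_prop)
      (by fun_prop) (by fun_prop) (by fun_prop)

end ETRPT

open ETRPT in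
theorem p_ETRPT (hEPT : S_EPT) :
    S_ETRPT := by
  have h := pt_outer hEPT (α := TRIn) (p := fun q => q.1) (V := fun q => q.2.1)
    (X := fun q => q.2.2.2.1) (Y := fun q => q.2.2.2.2) (c := fun q => q.2.2.1)
    (by fun_prop) (by fun_prop) (by fun_prop) (by fun_prop) (by fun_prop)
  unfold S_ETRPT trP
  refine PT.cond (by fun_prop) (PT.optMap h ?_) (PT.const _)
  fun_prop

end Pool.Agent.P.MP_f1a348_lc.TO

end
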