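import Pool.Agent.P.MP_f1a348_lc.TO.EIface

section

/-! Step EENG. -/

set_option autoImplicit false
set_option linter.unusedSectionVars false

namespace Pool.Agent.P.MP_f1a348_lc.TO

open Pool.Agent.Lib.Helper47 Pool.Agent.P.MP_f1a348_lc.GI

namespace EENG

theorem two_le {N M : ℕ} (h : N ≤ M) : 2 * (N + 1) ≤ (M + 2) ^ 2 := by nlinarith

theorem pow_h {N M : ℕ} (h : N ≤ M) (a : ℕ) :
    (2 ^ a) ^ (Nat.log 2 N + 1) ≤ (M + 2) ^ (2 * a) := by
  have h1 : 2 ^ Nat.log 2 N ≤ N + 1 := by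
    rcases Nat.eq_zero_or_pos N with rfl | h0
    · simp
    · exact (Nat.pow_log_le_self 2 h0.ne').trans (Nat.le_succ _)
  have h2 : 2 ^ (Nat.log 2 N + 1) ≤ (M + 2) ^ 2 := by
    have := two_le h
    rw [pow_succ]; omega
  rw [← pow_mul, mul_comm, pow_mul, pow_mul]
  exact Nat.pow_le_pow_left h2 a

theorem big {N M m j : ℕ} (h : N ≤ M) (hm : m ≤ 2 ^ j) :
    ((m + 1) ^ 2 + 1) ^ (Nat.log 2 N + 1) ≤ (M + 2) ^ (20 * (j + 1)) := by
  have h0 : 1 ≤ 2 ^ j := Nat.one_le_two_pow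
  have h1 : (m + 1) ^ 2 + 1 ≤ 2 ^ (2 * j + 3) := by
    have e : 2 ^ (2 * j + 3) = 8 * (2 ^ j * 2 ^ j) := by ring
    rw [e]; nlinarith
  exact (Nat.pow_le_pow_left h1 _).trans ((pow_h h _).trans
    (Nat.pow_le_pow_right (by omega) (by omega)))

theorem calls {N M m j : ℕ} (h : N ≤ M) (hm : m ≤ 2 ^ j) :
    N * cost m N j (Nat.log 2 N + 1) + 1 ≤ (M + 2) ^ (20 * (j + 1)) := by
  have h0 : 1 ≤ 2 ^ j := Nat.one_le_two_pow
  have h1 : 4 * (m + 1) ≤ 2 ^ (j + 3) := by rw [pow_add]; omega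
  have h2 : (4 * (m + 1)) ^ (Nat.log 2 N + 1) ≤ (M + 2) ^ (2 * (j + 3)) :=
    (Nat.pow_le_pow_left h1 _).trans (pow_h h _)
  have h3 : 4 * (N + 1) ^ 2 ≤ (M + 2) ^ 4 := by
    have := Nat.pow_le_pow_left (two_le h) 2
    rw [← pow_mul, mul_pow] at this
    exact this
  have h4 : (4 * (N + 1) ^ 2) ^ j ≤ (M + 2) ^ (4 * j) := by
    rw [pow_mul]; exact Nat.pow_le_pow_left h3 j
  have h5 : N * cost m N j (Nat.log 2 N + 1) ≤ (M + 2) ^ (6 * j + 8) := by
    have e : (M + 2) ^ (6 * j + 8) =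
        (M + 2) * ((M + 2) * (M + 2) ^ (2 * (j + 3)) * (M + 2) ^ (4 * j)) := by ring
    rw [e, cost]
    exact Nat.mul_le_mul (by omega) (Nat.mul_le_mul (Nat.mul_le_mul (by omega) h2) h4)
  have h6 : (M + 2) ^ (6 * j + 8) < (M + 2) ^ (20 * (j + 1)) :=
    Nat.pow_lt_pow_right (by omega) (by omega)
  omega

theorem space (M j : ℕ) : 2 * j + 20 * (M + 2) ^ 3 ≤ (M + 2) ^ (20 * (j + 1)) := by
  have h1 : 2 * j ≤ (M + 2) ^ (j + 8) := by
    have a1 : j < 2 ^ j := Nat.lt_two_pow_self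
    have a2 : 2 ^ (j + 1) ≤ (M + 2) ^ (j + 1) := Nat.pow_le_pow_left (by omega) _
    have a3 : (M + 2) ^ (j + 1) ≤ (M + 2) ^ (j + 8) := Nat.pow_le_pow_right (by omega) (by omega)
    rw [pow_succ] at a2
    omega
  have h2 : 20 * (M + 2) ^ 3 ≤ (M + 2) ^ (j + 8) := by
    have a1 : 2 ^ 5 ≤ (M + 2) ^ 5 := Nat.pow_le_pow_left (by omega) _
    have a2 : (M + 2) ^ 8 ≤ (M + 2) ^ (j + 8) := Nat.pow_le_pow_right (by omega) (by omega)
    have a3 : 20 * (M + 2) ^ 3 ≤ (M + 2) ^ 5 * (M + 2) ^ 3 := Nat.mul_le_mul_right _ (by omega)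
    rw [← pow_add] at a3
    exact a3.trans a2
  have h3 : (M + 2) ^ (j + 8) * 2 ≤ (M + 2) ^ (j + 8 + 1) := by
    rw [pow_succ (M + 2) (j + 8)]; exact Nat.mul_le_mul_left _ (by omega)
  have h4 : (M + 2) ^ (j + 8 + 1) ≤ (M + 2) ^ (20 * (j + 1)) :=
    Nat.pow_le_pow_right (by omega) (by omega)
  omega

end EENG

theorem p_EENG (hESTEP : S_ESTEP) (hESIZE : S_ESIZE) (hEEV : S_EEV) :
    S_EENG := by
  intro G Ω₀ Ω _ _ _ _ _ _ _ _ x c P f hok hpr
  obtain ⟨σ, S⟩ := c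
  dsimp only at hok hpr ⊢
  have hg : gen (sims x.sp x.base S) = gen S := hok.faith.gen_sims le_rfl
  have hcs : cs (some (σ, sims x.sp x.base S)) = cs (some (σ, S)) := by
    ext g; rw [mem_cs, mem_cs, hg]
  have hgd : Gd (gen S) σ x.sp.length (some (σ, sims x.sp x.base S)) := by
    refine ⟨fun g h => ?_, fun p hp => ?_⟩
    · rw [hcs] at h; exact mem_cs.1 h
    · obtain rfl := Option.mem_some_iff.1 hp
      exact sims_length _ _ _
  have hpre : x.Pre (gen S) σ P f.length (Cx.winF f (σ, sims x.sp x.base S) x.dom) := by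
    refine ⟨le_rfl, ⟨fun a h => h, le_rfl⟩, fun o ho => ?_⟩
    obtain rfl := Option.mem_some_iff.1 ho
    refine ⟨hgd, fun c hc => ?_⟩
    obtain rfl := Option.mem_some_iff.1 hc
    refine ⟨fun _ _ _ h => (by cases h), hg ▸ hok.inv, fun g _ => ?_⟩
    have e : St ([] : List Ω) = ∅ := Set.ext fun a => by simp
    rw [e]; exact hpr.nil g
  obtain ⟨s1, s2⟩ := hESTEP G Ω₀ Ω x (gen S) σ P f.length hok hpr
  constructor
  · intro r hr
    obtain ⟨r', h1, h2⟩ := Option.bind_eq_some_iff.1 hr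
    obtain ⟨n, e⟩ := RP.run_sound h1
    have hpost := e.sound (x.Pre (gen S) σ P f.length) (x.Post (gen S) σ P) s1
      (fun s a h h' _ => s2 s a h h') hpre
    obtain ⟨a1, o, ho, a2⟩ := hpost r h2
    obtain rfl := Option.mem_some_iff.1 ho
    refine ⟨?_, a1.2⟩
    rw [a2, Sol, Sol, hcs]
    rfl
  · intro M hodd hwin hmer hsz hdom hsp hum hpad
    have hN : x.dom.length ≤ M := hok.len.trans hsp
    have hbig : x.Big := (EENG.big hN hum).trans hpad
    obtain ⟨r, n, e, hn, hr⟩ := hEEV G Ω₀ Ω x (gen S) σ P hok hpr hodd hbig hmer f _ hgd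
    have hle : gen S ≤ gen (σ :: S) := gen_mono fun a h => List.mem_cons_of_mem _ h
    have e2 := (e.strengthen (x.Pre (gen S) σ P f.length) (x.Post (gen S) σ P) s1
      (fun s a h h' _ => s2 s a h h') hpre).mono
      (ok' := fun s => size s ≤ 2 * f.length + 20 * (M + 2) ^ 3) fun s hs =>
        hESIZE G Ω₀ Ω x (gen S) σ P f.length M s (fun g h => hsz g (hle h)) (fun g h => hsz g (by
          have := mul_mem (mem_gen (List.mem_cons_self (a := σ) (l := S))) (hle h)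
          rwa [mul_inv_cancel_left] at this)) hdom hsp hN hs
    have hrun := RP.run_complete e2 (hn.trans ((EENG.calls hN hum).trans hpad))
      ((EENG.space M _).trans hpad)
    rw [Cx.eng]
    dsimp only
    rw [hrun]
    exact hr (by rw [hg]; exact hwin)

end Pool.Agent.P.MP_f1a348_lc.TO

end

section

/-! Step EPT. -/

set_option autoImplicit false
set_option linter.unusedSectionVars false

namespace Pool.Agent.P.MP_f1a348_lc.TO

open Pool.Agent.Lib.Helper47 Pool.Agent.P.MP_f1a348_lc.GI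

namespace EPT

variable {G Ω₀ Ω α : Type} [Group G] [DecidableEq G] [MulAction G Ω₀] [DecidableEq Ω₀]
  [MulAction G Ω] [DecidableEq Ω] [Enc G] [Enc Ω₀] [Enc Ω] [Enc α] [PG G] [PA G Ω₀] [PA G Ω]
  {x : α → Cx G Ω₀ Ω}

theorem sumElim {β γ δ : Type} [Enc β] [Enc γ] [Enc δ] (d : δ) {s : α → β ⊕ γ} {f : α → β → δ}
    {g : α → γ → δ} (hs : PT s) (hf : PT (fun p : α × β => f p.1 p.2))
    (hg : PT (fun p : α × γ => g p.1 p.2)) : PT (fun a => (s a).elim (f a) (g a)) :=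
  (PT.optElim (PT.getLeft? hs) (PT.optElim (PT.getRight? hs) (PT.const d) hg) hf).of_eq
    fun a => by cases s a <;> rfl

theorem pcomp (h : Cx.Poly x) {β : Type} [Enc β] {i : β → α} (hi : PT i) :
    Cx.Poly (fun b => x (i b)) :=
  ⟨h.pad.comp hi, h.sp.comp hi, h.um.comp hi, h.base.comp hi, h.dom.comp hi,
    h.leaf.comp (g := fun p : β × G × Ω => (i p.1, p.2)) (by fun_prop),
    h.merge.comp (g := fun p : β × Cs G × List Ω × List Ω => (i p.1, p.2)) (by fun_prop)⟩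

theorem pfst (h : Cx.Poly x) (β : Type) [Enc β] : Cx.Poly (fun p : α × β => x p.1) :=
  pcomp h (by fun_prop)

@[fun_prop] theorem pt_memB {w : α → Ω} {B : α → List Ω} {g : α → G} (h1 : PT w) (h2 : PT B)
    (h3 : PT g) : PT (fun a => memB (w a) (B a) (g a)) := by
  unfold memB; fun_prop

@[fun_prop] theorem pt_fixG {S : α → List G} {w : α → Ω} (h1 : PT S) (h2 : PT w) :
    PT (fun a => fixG (S a) (w a)) := by
  unfold fixG; fun_prop

@[fun_prop] theorem pt_bfsM {pad : α → List Unit} {w : α → Ω} {B : α → List Ω} {S : α → List G}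
    (h0 : PT pad) (h1 : PT w) (h2 : PT B) (h3 : PT S) :
    PT (fun a => bfs (pad a) (memB (w a) (B a)) (S a)) := pt_bfs h0 (by fun_prop) h3

@[fun_prop] theorem pt_subM {pad : α → List Unit} {base : α → List Ω₀} {w : α → Ω}
    {B : α → List Ω} {S : α → List G} (h0 : PT pad) (h4 : PT base) (h1 : PT w) (h2 : PT B)
    (h3 : PT S) : PT (fun a => subG (pad a) (base a) (memB (w a) (B a)) (S a)) :=
  pt_subG h0 h4 (by fun_prop) h3

variable {f : α → List Unit} {c : α → Cs G} {S : α → List G} {O B : α → List Ω} {w : α → Ω}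

theorem pt_nextB (h : Cx.Poly x) (h1 : PT S) (h2 : PT O) (h3 : PT w) (h4 : PT B) :
    PT (fun a => (x a).nextB (S a) (O a) (w a) (B a)) :=
  PT.map (pt_orbL (pfst h _).sp (PT.cons (by fun_prop) (pt_subM (pfst h _).sp (pfst h _).base
    (by fun_prop) (by fun_prop) (by fun_prop))) (by fun_prop) (by fun_prop))
    (pt_prodL (pt_bfsM h.um h3 h4 h1) (pt_bfsM h.um h3 h4 h1))

theorem pt_cands (h : Cx.Poly x) (h1 : PT S) (h2 : PT O) (h3 : PT w) :
    PT (fun a => (x a).cands (S a) (O a) (w a)) := by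
  have a1 : PT (fun p : α × List (List Ω) =>
      (p.2 ++ p.2.flatMap ((x p.1).nextB (S p.1) (O p.1) (w p.1))).take (x p.1).pad.length) :=
    PT.take (PT.length (pfst h _).pad) (PT.append (by fun_prop) (PT.flatMap
      (pt_nextB (pfst (pfst h _) _) (by fun_prop) (by fun_prop) (by fun_prop) (by fun_prop))
      (by fun_prop)))
  refine PT.iterate_inv (f := fun a L =>
      (L ++ L.flatMap ((x a).nextB (S a) (O a) (w a))).take (x a).pad.length)
    (s := fun a => [[w a]]) a1 h.sp (by fun_prop)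
    (fun a L => (∀ D ∈ L, size D ≤ size (O a) + size [w a]) ∧ L.length ≤ (x a).pad.length + 1)
    (fun a => by simp) (fun a L hL => ⟨fun D hD => ?_, (List.length_take_le _ _).trans (by omega)⟩)
    (fun a => ((x a).pad.length + 1) * (size (O a) + size [w a] + 1) + 1)
    ((((ps_len h.pad).add (PB.const 1)).mul ((h2.size_le.add
      (PT.size_le (by fun_prop))).add (PB.const 1))).add (PB.const 1))
    fun a L hL => (size_list_le hL.1).trans
      (Nat.add_le_add_right (Nat.mul_le_mul_right _ hL.2) _)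
  rcases List.mem_append.1 (List.mem_of_mem_take hD) with e | e
  · exact hL.1 D e
  · obtain ⟨_, -, e⟩ := List.mem_flatMap.1 e
    obtain ⟨r, -, rfl⟩ := List.mem_map.1 e
    exact (size_sublist (orbL_sublist _ _ _ _)).trans (Nat.le_add_right _ _)

theorem pt_findB (h : Cx.Poly x) (h1 : PT S) (h2 : PT O) (h3 : PT w) :
    PT (fun a => (x a).findB (S a) (O a) (w a)) :=
  PT.find? (PT.and (PT.ble (PT.length (pt_bfsM (pfst h _).um (by fun_prop) (by fun_prop)
    (by fun_prop))) (PT.length (pfst h _).um)) (by fun_prop)) (pt_cands h h1 h2 h3)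

@[fun_prop] theorem pt_winF (h1 : PT f) (h2 : PT c) (h3 : PT O) :
    PT (fun a => Cx.winF (f a) (c a) (O a)) := by
  unfold Cx.winF; fun_prop

theorem pt_tryF (h : Cx.Poly x) (h1 : PT f) (h2 : PT c) (h3 : PT O) (h4 : PT w) :
    PT (fun a => (x a).tryF (f a) (c a) (O a) (w a)) := by
  have a1 := h.leaf.comp (g := fun a => (a, (c a).1, w a)) (by fun_prop)
  have a2 : PT (fun a => (x a).dom.map (fun p => (p, [p]))) := PT.map (by fun_prop) h.dom
  exact PT.cond (by fun_prop) (PT.prodMk h1 (PT.prodMk (PT.some (PT.cond a1 (by fun_prop)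
    (PT.const _))) (by fun_prop))) (PT.optElim (pt_findB h (by fun_prop) h3 h4)
    (PT.prodMk (by fun_prop) (PT.prodMk (PT.const _) (PT.prodMk h3 (PT.inr (PT.inl
      (PT.prodMk h2 (PT.cond (by fun_prop) (PT.const _) a2))))))) (by fun_prop))

theorem pt_brF (h : Cx.Poly x) {v : α → Ω × List Ω} (h1 : PT f) (h2 : PT c) (h3 : PT O)
    (h4 : PT v) : PT (fun a => (x a).brF (f a) (c a) (O a) (v a)) :=
  PT.prodMk h1 (PT.prodMk (PT.const _) (PT.prodMk h3 (PT.inr (PT.inr (PT.prodMk h2 (PT.prodMk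
    (pt_subM h.sp h.base (by fun_prop) (by fun_prop) (by fun_prop))
    (PT.map (by fun_prop) (pt_bfsM h.sp (by fun_prop) (by fun_prop) (by fun_prop)))))))))

theorem pt_hd (h : Cx.Poly x) {r : α → Rs G} (h1 : PT r) (h2 : PT B) :
    PT (fun a => (x a).hd (r a) (B a)) :=
  PT.optElim (PT.optBind h1 (by fun_prop)) (PT.const _) (PT.optElim (by fun_prop) (PT.const _)
    (pt_orbL (pfst (pfst h _) _).sp (by fun_prop) (by fun_prop) (by fun_prop)))

theorem pt_ask (h : Cx.Poly x) : PT (fun p : α × Fm G Ω => (x p.1).prog.ask p.2) := by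
  have h3 := fun β γ δ [Enc β] [Enc γ] [Enc δ] => pfst (pfst (pfst (pfst h (Fm G Ω)) β) γ) δ
  refine sumElim none (by fun_prop) (PT.optBind (PT.optBind (by fun_prop) (by fun_prop))
    (PT.optMap (by fun_prop) (pt_tryF (h3 _ _ _) (by fun_prop) (by fun_prop)
      (pt_orbL (h3 _ _ _).sp (by fun_prop) (by fun_prop) (by fun_prop)) (by fun_prop))))
    (sumElim none (by fun_prop) (PT.cond (by fun_prop) (PT.const _) (PT.optMap (by fun_prop)
      (pt_brF (h3 _ _ _) (by fun_prop) (by fun_prop) (by fun_prop) (by fun_prop)))) ?_)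
  fun_prop

theorem pt_upd (h : Cx.Poly x) :
    PT (fun p : α × Fm G Ω × Rs G => (x p.1).prog.upd p.2.1 p.2.2) := by
  have h1 := pfst (pfst h (Fm G Ω × Rs G)) (List Ω)
  have a1 := pt_hd h1 (r := fun p => p.1.2.1.2.1) (B := fun p => p.2) (by fun_prop) (by fun_prop)
  have a2 : PT (fun q : (((α × Fm G Ω × Rs G) × List Ω) × Option (Cs G)) × Cs G =>
      (x q.1.1.1.1).merge q.2 q.1.1.1.2.1.2.2.1 ((x q.1.1.1.1).hd q.1.1.1.2.1.2.1 q.1.1.2)) :=
    h.merge.comp (PT.prodMk (by fun_prop) (PT.prodMk (by fun_prop) (PT.prodMk (by fun_prop)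
      (a1.comp (g := fun q : (_ × Option (Cs G)) × Cs G => q.1.1) (by fun_prop)))))
  have h5 := fun β γ [Enc β] [Enc γ] =>
    pfst (pfst (pfst (pfst (pfst h (Fm G Ω × Rs G)) β) γ) (Option (Cs G))) (Option (Cs G))
  refine sumElim ([], none, [], .inl []) (by fun_prop) (PT.prodMk (by fun_prop) (PT.prodMk
    (PT.optBind (by fun_prop) (PT.optElim (by fun_prop) (PT.const _) a2)) (PT.prodMk
    (PT.append (by fun_prop) a1) (PT.inl (PT.filter (PT.not (PT.contains
      (a1.comp (g := fun q : _ × Ω => q.1) (by fun_prop)) (by fun_prop))) (by fun_prop))))))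
    (sumElim ([], none, [], .inl []) (by fun_prop) (by fun_prop) (PT.prodMk (by fun_prop)
      (PT.prodMk (PT.optBind (by fun_prop) (PT.optMap (by fun_prop)
        (pt_join (h5 _ _).sp (h5 _ _).base (by fun_prop) (by fun_prop)))) (by fun_prop))))

end EPT

theorem p_EPT :
    S_EPT := by
  intro G Ω₀ Ω α _ _ _ _ _ _ _ _ _ _ _ _ _ x f c h h1 h2
  exact PT.optBind (RP.pt_run (P := fun a => (x a).prog) (EPT.pt_ask h) (EPT.pt_upd h)
    (show PT (fun p : α × Fm G Ω => p.2.2.1) by fun_prop) h.pad (EPT.pt_winF h1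
      (PT.prodMk (by fun_prop) (pt_sims h.sp h.base (by fun_prop))) h.dom)) (by fun_prop)

end Pool.Agent.P.MP_f1a348_lc.TO

end

section

/-! Step ESIZE. -/

set_option autoImplicit false
set_option linter.unusedSectionVars false

namespace Pool.Agent.P.MP_f1a348_lc.TO

open Pool.Agent.Lib.Helper47 Pool.Agent.P.MP_f1a348_lc.GI

namespace ESIZE

variable {α β : Type} [Enc α] [Enc β]

theorem inl (a : α) : size (Sum.inl a : α ⊕ β) = size a + 4 := by
  change size ((some a, none) : Option α × Option β) = _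
  simp

theorem inr (b : β) : size (Sum.inr b : α ⊕ β) = size b + 4 := by
  change size ((none, some b) : Option α × Option β) = _
  simp; omega

theorem lst {l : List α} {M B : ℕ} (h : ∀ a ∈ l, size a ≤ B) (hl : l.length ≤ M) :
    size l ≤ M * (B + 1) + 1 :=
  (size_list_le h).trans (Nat.add_le_add_right (Nat.mul_le_mul_right _ hl) 1)

end ESIZE

open ESIZE in
theorem p_ESIZE :
    S_ESIZE := by
  intro G Ω₀ Ω _ _ _ _ _ _ _ _ x H σ P k M s h1 h2 h3 h4 h5 hs
  obtain ⟨L, hL⟩ : ∃ L, L = M * (M + 1) + 1 := ⟨_, rfl⟩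
  obtain ⟨T, hT, t1, t2⟩ : ∃ T, T = (M + 2) ^ 3 ∧ L + M + 5 ≤ T ∧ M * (M + L + 1 + 1) + 1 ≤ T :=
    ⟨_, rfl, by rw [hL]; nlinarith [Nat.zero_le (M ^ 3), Nat.zero_le (M ^ 2)],
      by rw [hL]; nlinarith [Nat.zero_le (M ^ 3), Nat.zero_le (M ^ 2)]⟩
  rw [← hT]
  have hf : ∀ f : List Unit, f.length ≤ k → size f ≤ 2 * k + 1 := fun f hf =>
    (lst (B := 1) (fun _ _ => le_rfl) hf).trans (by omega)
  have hS : ∀ l, x.Sub l → size l ≤ L := fun l hl =>
    hL ▸ lst (fun a ha => h3 a (hl.1 a ha)) (hl.2.trans h5)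
  have hH : ∀ c : Cs G, Gd H σ x.sp.length (some c) → gen c.2 ≤ H := fun c hc => le_of_cs hc.1
  have hG : ∀ l : List G, gen l ≤ H → l.length ≤ x.sp.length → size l ≤ L := fun l h hl =>
    hL ▸ lst (fun a ha => h1 a (gen_le.1 h a ha)) (hl.trans h4)
  have hc : ∀ c : Cs G, Gd H σ x.sp.length (some c) → size c ≤ M + L + 1 := fun c hc => by
    have := h2 _ (hc.1 _ (self_mem_cs c.1 c.2))
    have := hG _ (hH c hc) (hc.2 c rfl)
    rw [size_prod]; omega
  have hr : ∀ r : Rs G, (∀ o ∈ r, Gd H σ x.sp.length o) → size r ≤ T := by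
    rintro (_ | _ | c) h
    · simp; omega
    · simp; omega
    · have := hc c (h _ rfl)
      simp only [size_some]; omega
  rcases s with ⟨f, r, A, B | ⟨c, V⟩ | ⟨c, S, R⟩⟩
  · obtain ⟨a1, a2, a3⟩ := hs
    have := hf f a1
    have := hS _ a2
    have := size_append A B
    have := hr r fun o ho => (a3 o ho).1
    simp only [size_pair, inl]; omega
  · obtain ⟨a1, a2, a3, -, ⟨a4, a5⟩, a6⟩ := hs
    have := hf f a1
    have := hS _ a2
    have := hc c a3
    have := hr r fun o ho => (a6 o ho).1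
    have := lst (B := M + L + 1) (fun v hv => by
      have := h3 _ (a5 v hv).1
      have := hS _ (a5 v hv).2.1
      rw [size_prod]; omega) (a4.trans h5)
    simp only [size_pair, inl, inr]; omega
  · obtain ⟨a1, a2, a3, -, ⟨a4, a5⟩, ⟨a6, a7⟩, a8⟩ := hs
    have := hf f a1
    have := hS _ a2
    have := hc c a3
    have := hr r fun o ho => (a8 o ho).1
    have := hG S (a4.trans (hH c a3)) a5
    have := hL ▸ lst (fun g hg => h2 g (a3.1 g (a7 g hg))) (a6.trans h5)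
    simp only [size_pair, inr]; omega

end Pool.Agent.P.MP_f1a348_lc.TO

end

section

/-! Step ESTEP. -/

set_option autoImplicit false
set_option linter.unusedSectionVars false

namespace Pool.Agent.P.MP_f1a348_lc.TO

open Pool.Agent.Lib.Helper47 Pool.Agent.P.MP_f1a348_lc.GI

namespace ESTEP

variable {G Ω₀ Ω : Type} [Group G] [DecidableEq G] [MulAction G Ω₀] [DecidableEq Ω₀]
  [MulAction G Ω] [DecidableEq Ω] {x : Cx G Ω₀ Ω} {H : Subgroup G} {σ : G}
  {P : Set Ω → G → Prop} {k n : ℕ} {c d : Cs G} {f : List Unit} {O : List Ω} {w : Ω}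

theorem mem_cs' {g : G} : g ∈ cs (some c) ↔ c.1⁻¹ * g ∈ gen c.2 := mem_cs

theorem gd_le (h : Gd H σ n (some c)) : gen c.2 ≤ H := le_of_cs (σ := c.1) h.1

theorem sub_le (h : cs (some d) ⊆ cs (some c)) : gen d.2 ≤ gen c.2 :=
  le_of_cs (σ := d.1) fun _ hg => mem_cs'.1 (h hg)

theorem gd_none : Gd H σ n none := ⟨by simp, by simp⟩

theorem try_pre (hE : S_EBLK) (hx : x.Ok H) (hP : Prob H σ x.sp.length P x.leaf x.merge)
    (h1 : f.length ≤ k) (h2 : x.Sub O) (h3 : Gd H σ x.sp.length (some c))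
    (h4 : InvL (gen c.2) O) (h5 : w ∈ O) (h6 : ∀ b ∈ O, ∃ u ∈ gen c.2, u • w = b) :
    x.Pre H σ P k (x.tryF f c O w) := by
  have i1 : InvL (gen c.2) x.dom := hx.inv.mono (gd_le h3)
  have i2 := h2.1 w h5
  have i3 : 1 ≤ x.dom.length := List.length_pos_of_mem i2
  unfold Cx.tryF
  cases e : fixG c.2 w
  · cases e' : x.findB c.2 O w with
    | none =>
      refine ⟨(List.tail_sublist f).length_le.trans h1, h2, h3, h4, ?_, by simp⟩
      cases f.isEmpty
      · refine ⟨by simp, fun v hv => ?_⟩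
        obtain ⟨p, hp, rfl⟩ := List.mem_map.1 hv
        exact ⟨hp, ⟨by simpa using hp, i3⟩, fixS [p], fun u _ => by simp [memB, mem_fixS],
          i1.idx hp⟩
      · simp
    | some B =>
      obtain ⟨⟨a1, a2⟩, U, a3, -, a4⟩ := (hE G Ω₀ Ω x c.2 O w (hx.faith.mono (gd_le h3)) h4
        (h2.2.trans hx.len) h5).1 B e'
      refine ⟨h1, h2, h3, h4, ⟨i3, fun v hv => ?_⟩, by simp⟩
      obtain rfl := List.mem_singleton.1 hv
      exact ⟨i2, ⟨fun a ha => h2.1 a (a1 a ha), a2.trans h2.2⟩, U, a4,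
        (i1.idx i2).of_le fun u hu => a3.lo ⟨hu.1, mem_fixS.1 hu.2 w (by simp)⟩⟩
  · have a1 : gen c.2 ≤ MulAction.stabilizer G w :=
      gen_le.2 (by simpa [fixG] using e)
    have a2 : St O = {w} := Set.ext fun b => ⟨fun hb => by
      obtain ⟨u, hu, rfl⟩ := h6 b hb
      exact a1 hu, fun hb => hb ▸ h5⟩
    have a3 : ∀ g ∈ cs (some c), x.leaf c.1 w = true ↔ P (St O) g := fun g hg => by
      rw [a2, hP.leaf c.1 _ w (a1 (mem_cs'.1 hg)), mul_inv_cancel_left]
    refine ⟨h1, h2, h3, h4, by simp, ?_⟩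
    rintro o ⟨rfl⟩
    cases e' : x.leaf c.1 w
    · exact ⟨gd_none, Set.ext fun g => ⟨by simp, fun hg => by
        simpa [e'] using (a3 g hg.1).2 hg.2⟩⟩
    · exact ⟨h3, Set.ext fun g => ⟨fun hg => ⟨hg, (a3 g hg).1 e'⟩, And.left⟩⟩

theorem try_post {r : Rs G} (h : x.Post H σ P (x.tryF f c O w) r) :
    ∀ o ∈ r, Gd H σ x.sp.length o ∧ cs o = Sol P (some c) O := by
  unfold Cx.tryF at h
  revert h
  cases fixG c.2 w
  · cases x.findB c.2 O w <;> exact id
  · exact id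

theorem len_split (B : List Ω) (q : Ω → Bool) :
    (B.filter q).length + (B.filter fun b => !(B.filter q).contains b).length = B.length := by
  rw [List.length_eq_length_filter_add (l := B) q]
  congr 2
  refine List.filter_congr fun b hb => ?_
  rw [Bool.eq_iff_iff]
  simp [hb]

theorem sol_join (hx : x.Ok H) (hP : Prob H σ n P x.leaf x.merge) (h3 : gen c.2 ≤ H)
    (h4 : InvL (gen c.2) O) {a b : Option (Cs G)} (ha : cs a ⊆ Sol P (some c) O)
    (hb : cs b ⊆ Sol P (some c) O) : cs a ∪ cs b ⊆ cs (join x.sp x.base a b) ∧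
      cs (join x.sp x.base a b) ⊆ Sol P (some c) O := by
  have k1 : ∀ g ∈ Sol P (some c) O, ∀ g' ∈ Sol P (some c) O, g⁻¹ * g' ∈ gen c.2 :=
    fun g hg g' hg' => by
      simpa [mul_assoc] using mul_mem (inv_mem (mem_cs'.1 hg.1)) (mem_cs'.1 hg'.1)
  have k2 : ∀ a ∈ Sol P (some c) O, ∀ b ∈ Sol P (some c) O, ∀ e ∈ Sol P (some c) O,
      a * (b⁻¹ * e) ∈ Sol P (some c) O := fun a ha b hb e he =>
    ⟨mem_cs'.2 (by rw [← mul_assoc]; exact mul_mem (mem_cs'.1 ha.1) (k1 b hb e he)),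
      mul_assoc a _ _ ▸ hP.heap (gen c.2) _ a b e h4 (k1 a ha b hb) (k1 a ha e he) ha.2 hb.2 he.2⟩
  let A : Subgroup G :=
    { carrier := {u | u ∈ gen c.2 ∧ ∀ g ∈ Sol P (some c) O, g * u ∈ Sol P (some c) O}
      one_mem' := ⟨one_mem _, by simp⟩
      mul_mem' := fun a b => ⟨mul_mem a.1 b.1, fun g hg => mul_assoc g _ _ ▸ b.2 _ (a.2 g hg)⟩
      inv_mem' := fun a => ⟨inv_mem a.1, fun g hg => by simpa using k2 g hg _ (a.2 g hg) g hg⟩ }
  exact join_spec (A := A) (hx.faith.mono fun _ a => h3 a.1)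
    (fun g hg g' hg' => ⟨k1 g hg g' hg', fun a ha => k2 a ha g hg g' hg'⟩)
    (fun g hg u hu => hu.2 g hg) ha hb

end ESTEP

open ESTEP in
theorem p_ESTEP (hEBLK : S_EBLK) :
    S_ESTEP := by
  intro G Ω₀ Ω _ _ _ _ _ _ x H σ P k hx hP
  refine ⟨?_, ?_⟩
  · rintro ⟨f, r, A, B | ⟨c, V⟩ | ⟨c, S, R⟩⟩ hp h
    · rintro o (rfl : r = some o)
      obtain ⟨a1, a2⟩ := hp.2.2 o rfl
      refine ⟨a1, o, rfl, ?_⟩
      rcases o with _ | c
      · simp [Sol]
      · obtain rfl : B = [] := by simpa [Cx.prog] using h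
        exact Set.ext fun g => ⟨fun hg => ⟨hg, by simpa using (a2 c rfl).2.2 g hg⟩, And.left⟩
    · exact hp.2.2.2.2.2
    · rintro o (rfl : r = some o)
      obtain ⟨a1, a2, a3⟩ := hp.2.2.2.2.2.2 o rfl
      obtain rfl : R = [] := by simpa [Cx.prog] using h
      exact ⟨a1, a2.antisymm fun g hg => by simpa using a3 g hg⟩
  · rintro ⟨f, r, A, B | ⟨c, V⟩ | ⟨c, S, R⟩⟩ a hp h
    · rcases r with _ | _ | c
      · simp [Cx.prog] at h
      · simp [Cx.prog] at h
      rcases B with _ | ⟨w, B'⟩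
      · simp [Cx.prog] at h
      obtain rfl : x.tryF f c (orbL x.sp c.2 (w :: B') w) w = a := by simpa [Cx.prog] using h
      have hu : ∀ r, x.prog.upd (f, some (some c), A, .inl (w :: B')) r =
          (f, r.bind (fun o => o.elim (some none)
            (fun c' => x.merge c' A (orbL x.sp c.2 (w :: B') w))), A ++ orbL x.sp c.2 (w :: B') w,
            .inl ((w :: B').filter (fun b => !(orbL x.sp c.2 (w :: B') w).contains b))) :=
        fun _ => rfl
      have hw : w ∈ w :: B' := List.mem_cons_self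
      generalize w :: B' = B at *
      obtain ⟨a1, a2, a3⟩ := hp
      obtain ⟨a3, a4⟩ := a3 _ rfl
      obtain ⟨a4, a5, a6⟩ := a4 c rfl
      have b0 := a2.2
      rw [List.length_append] at b0
      have b1 : B.length ≤ x.sp.length := le_trans (by omega) hx.len
      have b2 := orbL_inv a5 b1 hw
      have b3 : ∀ b, b ∈ orbL x.sp c.2 B w ↔ ∃ u ∈ gen c.2, u • w = b := fun b => mem_orbL a5 b1 hw
      have b4 := orbL_sublist x.sp c.2 B w
      have b5 : (orbL x.sp c.2 B w).length +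
          (B.filter fun b => !(orbL x.sp c.2 B w).contains b).length = B.length := len_split _ _
      generalize orbL x.sp c.2 B w = O at *
      refine ⟨try_pre hEBLK hx hP a1 ⟨fun b hb => a2.1 b (by simp [b4.subset hb]), by omega⟩ a3 b2
        ((b3 w).2 ⟨1, one_mem _, one_smul _ _⟩) fun b => (b3 b).1, fun r hr => ?_⟩
      have c1 := try_post hr
      have c2 : ∀ g, P (St (A ++ O)) g → P (St O) g := fun g =>
        hP.mono _ _ g fun b hb => List.mem_append_right _ hb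
      have c3 : St (A ++ O ++ B.filter fun b => !O.contains b) = St (A ++ B) := by
        ext b
        have : b ∈ O → b ∈ B := fun h => b4.subset h
        simp only [mem_St, List.mem_append, List.mem_filter, Bool.not_eq_true',
          List.contains_eq_mem, decide_eq_false_iff_not]
        tauto
      have key : ∀ o ∈ r.bind (fun o => o.elim (some none) (fun c' => x.merge c' A O)),
          Gd H σ x.sp.length o ∧ cs o = Sol P (some c) (A ++ O) := by
        rcases r with _ | _ | c'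
        · simp
        · rintro o ⟨rfl⟩
          exact ⟨gd_none, Set.ext fun g => ⟨by simp, fun hg =>
            (c1 _ rfl).2 ▸ ⟨hg.1, c2 g hg.2⟩⟩⟩
        · intro o ho
          obtain ⟨d1, d2⟩ := c1 _ rfl
          have d3 : ∀ g, g ∈ cs (some c') ↔ g ∈ cs (some c) ∧ P (St O) g := Set.ext_iff.1 d2
          have d4 := sub_le fun g hg => ((d3 g).1 hg).1
          obtain ⟨d5, d6⟩ := hP.merge c' A O o ⟨d1, a4.mono d4, b2.mono d4,
            fun g hg => ⟨a6 g ((d3 g).1 hg).1, ((d3 g).1 hg).2⟩⟩ ho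
          refine ⟨⟨fun g hg => d1.1 g (d5 ▸ hg : g ∈ Sol _ _ _).1, d6⟩, d5.trans (Set.ext fun g =>
            ⟨fun hg => ⟨((d3 g).1 hg.1).1, hg.2⟩, fun hg => ⟨(d3 g).2 ⟨hg.1, c2 g hg.2⟩, hg.2⟩⟩)⟩
      rw [hu]
      refine ⟨⟨a1, ⟨fun b hb => a2.1 b (show b ∈ St _ from c3 ▸ hb), by
        simp only [List.length_append]; omega⟩, fun o ho => ⟨(key o ho).1, ?_⟩⟩,
        fun r' hr' o' ho' => ?_⟩
      · rintro c' rfl
        have d3 : ∀ g, g ∈ cs (some c') ↔ g ∈ cs (some c) ∧ P (St (A ++ O)) g :=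
          Set.ext_iff.1 (key _ ho).2
        have d4 := sub_le fun g hg => ((d3 g).1 hg).1
        refine ⟨fun u hu b hb => ?_, fun u hu b hb => ?_, fun g hg => ((d3 g).1 hg).2⟩
        · rw [List.mem_append] at hb ⊢
          exact hb.imp (a4 u (d4 hu) b) (b2 u (d4 hu) b)
        · simpa [a5.iff (d4 hu), b2.iff (d4 hu)] using hb
      · obtain ⟨d1, o, ho, d2⟩ := hr' o' ho'
        refine ⟨d1, _, rfl, d2.trans (Set.ext fun g => ?_)⟩
        simp only [Sol, Set.mem_ofPred_eq, (key o ho).2, c3]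
        exact ⟨fun hg => ⟨hg.1.1, hg.2⟩, fun hg => ⟨⟨hg.1, hP.mono _ _ g
          (c3 ▸ fun b hb => List.mem_append_left _ hb) hg.2⟩, hg.2⟩⟩
    · rcases r with _ | o
      swap
      · simp [Cx.prog] at h
      rcases V with _ | ⟨v, V⟩
      · simp [Cx.prog] at h
      obtain rfl : x.brF f c A v = a := by simpa [Cx.prog] using h
      obtain ⟨a1, a2, a3, a4, ⟨a5, a6⟩, -⟩ := hp
      obtain ⟨-, -, U, b1, b2⟩ := a6 v List.mem_cons_self
      have b3 := bfs_length x.sp b1 b2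
      refine ⟨⟨a1, a2, a3, a4, ⟨subG_le _ _ _ _, sims_length _ _ _⟩, ⟨by simpa using b3,
        fun g hg => ?_⟩, ?_⟩, fun r hr => ⟨⟨a1, a2, a3, a4, ⟨Nat.le_of_succ_le a5,
        fun u hu => a6 u (List.mem_cons_of_mem _ hu)⟩, hr⟩, fun _ h => h⟩⟩
      · obtain ⟨t, ht, rfl⟩ := List.mem_map.1 hg
        simpa [mem_cs'] using (bfsIter_inv _ _ _).1 t ht
      · rintro o ⟨rfl⟩
        refine ⟨gd_none, by simp, fun g hg => .inr ?_⟩
        obtain ⟨t, c1, c2⟩ := (bfs_cover b1 (b3.trans hx.len)).2 _ (mem_cs'.1 hg.1)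
        refine ⟨c.1 * t, List.mem_map_of_mem c1, ?_⟩
        rw [gen_subG (hx.faith.mono (gd_le a3)) b1 (b3.trans hx.len)]
        simpa [mul_assoc] using c2
    · rcases r with _ | o
      · simp [Cx.prog] at h
      rcases R with _ | ⟨g, R⟩
      · simp [Cx.prog] at h
      obtain rfl : Cx.winF f (g, S) A = a := by simpa [Cx.prog] using h
      obtain ⟨a1, a2, a3, a4, ⟨a5, a6⟩, ⟨a7, a8⟩, a9⟩ := hp
      obtain ⟨b1, b2, b3⟩ := a9 o rfl
      have b4 : cs (some (g, S)) ⊆ cs (some c) := fun u hu => mem_cs'.2 (by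
        simpa [mul_assoc] using mul_mem (mem_cs'.1 (a8 g List.mem_cons_self)) (a5 (mem_cs.1 hu)))
      refine ⟨⟨a1, a2, ?_⟩, fun r hr => ⟨⟨a1, a2, a3, a4, ⟨a5, a6⟩, ⟨Nat.le_of_succ_le a7,
        fun u hu => a8 u (List.mem_cons_of_mem _ hu)⟩, ?_⟩, fun _ h => h⟩⟩
      · rintro _ ⟨rfl⟩
        refine ⟨⟨fun u hu => a3.1 u (b4 hu), by rintro _ ⟨rfl⟩; exact a6⟩, ?_⟩
        rintro _ ⟨rfl⟩
        exact ⟨fun _ _ _ h => by simp at h, a4.mono a5, fun u _ =>
          hP.mono _ _ u (fun _ h => by simp at h) (hP.nil u)⟩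
      · rcases r with _ | b
        · simp
        rintro _ ⟨rfl⟩
        obtain ⟨c1, _, ⟨rfl⟩, c2⟩ := hr b rfl
        obtain ⟨c3, c4⟩ := sol_join hx hP (gd_le a3) a4 b2 (b := b)
          (c2 ▸ fun u hu => ⟨b4 hu.1, hu.2⟩)
        refine ⟨⟨fun u hu => a3.1 u (c4 hu).1, join_length le_rfl b1.2 c1.2⟩, c4, fun u hu => ?_⟩
        rcases b3 u hu with e | ⟨t, ht, e⟩
        · exact .inl (c3 (.inl e))
        rcases List.mem_cons.1 ht with rfl | ht
        · exact .inl (c3 (.inr (c2 ▸ ⟨mem_cs.2 e, hu.2⟩)))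
        · exact .inr ⟨t, ht, e⟩

end Pool.Agent.P.MP_f1a348_lc.TO

end
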