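import Pool.Agent.P.MP_f1a348_lc.TO.MIface
import Pool.Agent.P.MP_f1a348_lc.GI.Sims

section

/-! Step MINV. -/

set_option autoImplicit false
set_option linter.unusedSectionVars false

namespace Pool.Agent.P.MP_f1a348_lc.TO

open Pool.Agent.Lib.Helper47 Pool.Agent.P.MP_f1a348_lc.GI

theorem p_MINV (hMCALL : S_MCALL) (hMNODE : S_MNODE) (hMSIZE : S_MSIZE) :
    S_MINV := by
  obtain ⟨d, hd⟩ := hMSIZE
  refine ⟨d + 7, fun tr cls htr hcls p M => ?_⟩
  obtain ⟨-, hq, hr⟩ := hd M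
  have hu : 1 ≤ (M + 2) ^ d := Nat.one_le_pow _ _ (by omega)
  have hw : 1 ≤ (M + 2) ^ (p.2.length + 4) := Nat.one_le_pow _ _ (by omega)
  have hB : 8 * ((M + 2) ^ (p.2.length + 4) * (M + 2) ^ d) ≤ (M + 2) ^ (p.2.length + (d + 7)) := by
    have h8 : 2 ^ 3 ≤ (M + 2) ^ 3 := Nat.pow_le_pow_left (by omega) 3
    calc _ ≤ (M + 2) ^ 3 * ((M + 2) ^ (p.2.length + 4) * (M + 2) ^ d) :=
          Nat.mul_le_mul_right _ h8
      _ = _ := by ring
  generalize (M + 2) ^ (p.2.length + (d + 7)) = B at hB ⊢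
  have hC := hMCALL cls hcls p M
  generalize (M + 2) ^ (p.2.length + 4) = w at hB hw hC
  generalize (M + 2) ^ d = u at hB hu hq hr
  have h1 : u ≤ w * u := Nat.le_mul_of_pos_left _ hw
  have h2 : w ≤ w * u := Nat.le_mul_of_pos_right _ hu
  have hl : ∀ n, n ≤ w → n * (u + u + 1 + 1) + 1 ≤ B := fun n hn => by
    have : n * (u + u + 1 + 1) ≤ w * (u + u + 1 + 1) := Nat.mul_le_mul_right _ hn
    have e : w * (u + u + 1 + 1) = 2 * (w * u) + 2 * w := by ring
    omega
  refine ⟨fun q _ => ⟨List.nodup_nil, fun e he => absurd he List.not_mem_nil⟩,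
    fun q t s h ht _ => ((hC q h).1 t ht).1, fun q t s r h ht hs ha => ?_,
    fun q s h hs o ho => ?_, fun q _ o ho => (by cases ho), fun q h => ⟨?_, ?_⟩,
    fun q s h hs => ?_, fun q r h ha => ?_⟩
  · show OS cls p M q (bif s.any (fun e => e.1 == t) then s else (t, r) :: s)
    cases e : s.any (fun e => e.1 == t)
    · refine ⟨List.nodup_cons.2 ⟨fun hm => ?_, hs.1⟩, fun x hx => ?_⟩
      · obtain ⟨x, hx, e1⟩ := List.mem_map.1 hm
        have := List.any_eq_false.1 e x hx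
        simp [e1] at this
      · rcases List.mem_cons.1 hx with rfl | hx
        · exact ⟨ht, ha⟩
        · exact hs.2 x hx
    · exact hs
  · exact (hMNODE tr cls htr hcls p M q s h hs).1 o ho
  · have := hq q h.sm
    omega
  · refine (size_list_le (B := u + u + 1) fun t ht => ?_).trans (hl _ (hC q h).2)
    have := hq t ((hC q h).1 t ht).1.sm
    omega
  · refine (size_list_le (B := u + u + 1) fun e he => ?_).trans (hl _ ?_)
    · have h3 := ((hC q h).1 e.1 (hs.2 e he).1).1.sm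
      have h4 := hq e.1 h3
      have h5 := hr e.1 e.2 h3 (hs.2 e he).2
      rw [size_prod]
      omega
    · refine le_trans ?_ (hC q h).2
      rw [← List.length_map Prod.fst]
      refine (hs.1.subperm fun x hx => ?_).length_le
      obtain ⟨e, he, rfl⟩ := List.mem_map.1 hx
      exact (hs.2 e he).1
  · have := hr q r h.sm ha
    omega

end Pool.Agent.P.MP_f1a348_lc.TO

end

section

/-! Step MLAB. -/

set_option autoImplicit false
set_option linter.unusedSectionVars false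

namespace Pool.Agent.P.MP_f1a348_lc.TO

open Pool.Agent.Lib.Helper47 Pool.Agent.P.MP_f1a348_lc.GI

namespace MLAB

variable {φ : ℕ → ℕ} {A N N' : List ℕ}

theorem cor_filter (h : Cor φ N N') {P P' : ℕ → Bool} (hP : ∀ z ∈ N, P' (φ z) = P z) :
    Cor φ (N.filter P) (N'.filter P') := fun y => by
  simp only [List.mem_filter, h y]
  constructor
  · rintro ⟨⟨x, hx, rfl⟩, e⟩
    exact ⟨x, ⟨hx, hP x hx ▸ e⟩, rfl⟩
  · rintro ⟨x, ⟨hx, e⟩, rfl⟩
    exact ⟨⟨x, hx, rfl⟩, (hP x hx).trans e⟩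

theorem cor_len (hi : Set.InjOn φ {x | x ∈ A}) (hN : ∀ x ∈ N, x ∈ A) (h : Cor φ N N')
    (n : N.Nodup) (n' : N'.Nodup) : N'.length = N.length := by
  have : (N.map φ).Nodup := n.map_on fun x hx y hy e => hi (hN x hx) (hN y hy) e
  rw [← List.length_map (as := N) φ]
  exact ((List.perm_ext_iff_of_nodup n' this).2 fun y => by rw [h y, List.mem_map]).length_eq

theorem cor_mem (hi : Set.InjOn φ {x | x ∈ A}) (hN : ∀ x ∈ N, x ∈ A) (h : Cor φ N N') {z : ℕ}
    (hz : z ∈ A) : N'.contains (φ z) = N.contains z := by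
  rw [Bool.eq_iff_iff, List.contains_iff_mem, List.contains_iff_mem, h]
  exact ⟨fun ⟨x, hx, e⟩ => hi (hN x hx) hz e ▸ hx, fun hx => ⟨z, hx, rfl⟩⟩

theorem cor_iso {E F : List (ℕ × ℕ)} {B : List ℕ} (hφ : DIso φ A E B F) (hN : ∀ x ∈ N, x ∈ A)
    (h : Cor φ N N') : DIso φ N E N' F :=
  ⟨⟨fun x hx => (h _).2 ⟨x, hx, rfl⟩, hφ.bij.injOn.mono hN, fun y hy => (h y).1 hy⟩,
    fun u hu v hv => hφ.arc u (hN u hu) v (hN v hv)⟩

theorem lab_even (cls : Cls) (p : Par) (q : Q) (b : Bool) (T Z : List ℕ) (z : ℕ) :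
    ∀ e ∈ (lab cls p q b T Z z).val, e.1 = none → Even e.2 := by
  intro e he h
  simp only [lab, Str.mem_mk, List.mem_cons, List.mem_map] at he
  obtain rfl | ⟨y, _, rfl⟩ := he
  · exact even_two_mul _
  · simp at h

end MLAB

open MLAB in
theorem p_MLAB (hMAUT : S_MAUT) (hMPARTS : S_MPARTS) :
    S_MLAB := by
  intro cls hW p A E B F φ T Z Z' κ hp hφ hT hl hZ hC
  have hi := hφ.bij.injOn
  have key : ∀ g : U, (∀ x ∈ Z, g.app x = φ x) → ∀ z ∈ A,
      lab cls p (A, E, B, F) true (T.map φ) Z' (φ z) = g • lab cls p (A, E, B, F) false T Z z := by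
    intro g hg z hz
    have h1 := hW.iso p A E B F φ hp hφ (z :: T) (by simpa [hz] using hT) (by simp)
      (by simp; omega)
    have h2 : ∀ y ∈ Z, _ := fun y hy => hW.iso p A E B F φ hp hφ (z :: y :: T)
      (by simpa [hz, hZ y hy] using hT) (by simp) (by simp; omega)
    refine Str.ext fun e => ?_
    simp only [lab, Str.smul_mk, Str.mem_mk, List.map_cons, List.mem_cons, List.mem_map, h1,
      List.map_map, hC _]
    refine or_congr Iff.rfl ⟨?_, ?_⟩
    · rintro ⟨_, ⟨y, hy, rfl⟩, rfl⟩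
      exact ⟨y, hy, by simp [Str.mv, h2 y hy, hg y hy]⟩
    · rintro ⟨y, hy, rfl⟩
      exact ⟨_, ⟨y, hy, rfl⟩, by simp [Str.mv, h2 y hy, hg y hy]⟩
  obtain ⟨g0, h0⟩ := hMAUT.2.2.2.2.2.2.2.1 φ A E B F hφ
  have hf : ∀ N N' : List ℕ, (∀ x ∈ N, x ∈ A) → Cor φ N N' → ∀ z ∈ A,
      Cor φ (fib N (lab cls p (A, E, B, F) false T Z) z)
        (fib N' (lab cls p (A, E, B, F) true (T.map φ) Z') (φ z)) := fun N N' hN h z hz =>
    cor_filter h fun y hy => by
      rw [key g0 (fun x hx => h0 x (hZ x hx)) z hz, key g0 (fun x hx => h0 x (hZ x hx)) y (hN y hy),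
        Bool.eq_iff_iff, beq_iff_eq, beq_iff_eq, smul_left_cancel_iff]
  have hAB : Cor φ A B := fun y => ⟨fun hy => hφ.bij.surjOn hy, by
    rintro ⟨x, hx, rfl⟩
    exact hφ.bij.mapsTo hx⟩
  have hn : Cor φ (nxt cls p (A, E, B, F) false T κ Z)
      (nxt cls p (A, E, B, F) true (T.map φ) κ Z') := cor_filter hAB fun z hz => by
    have := cor_len hi (fun x hx => (List.mem_filter.1 hx).1) (hf A B (fun _ h => h) hAB z hz)
      (hp.na.filter _) (hp.nb.filter _)
    simp only [sV, cond_true, cond_false, this, cor_mem hi hZ hC hz, hp.len]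
    rfl
  have hA : ∀ x ∈ new cls p (A, E, B, F) false T κ Z, x ∈ A := fun x hx =>
    (List.mem_filter.1 (List.mem_filter.1 hx).1).1
  have hw : Cor φ (new cls p (A, E, B, F) false T κ Z)
      (new cls p (A, E, B, F) true (T.map φ) κ Z') := cor_filter hn fun z hz => by
    rw [cor_mem hi hZ hC (List.mem_filter.1 hz).1]
  have m1 := (hMPARTS (new cls p (A, E, B, F) false T κ Z) _ ((hp.na.filter _).filter _)
    fun z _ => lab_even cls p (A, E, B, F) false T Z z).2.2
  have m2 := (hMPARTS (new cls p (A, E, B, F) true (T.map φ) κ Z') _ ((hp.nb.filter _).filter _)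
    fun z _ => lab_even cls p (A, E, B, F) true (T.map φ) Z' z).2.2
  refine ⟨hn, fun g hg => ⟨fun x hx => ?_, fun y hy => ?_⟩⟩
  · obtain ⟨z, hz, rfl⟩ := (m1 x).1 hx
    exact ⟨_, (m2 _).2 ⟨φ z, (hw _).2 ⟨z, hz, rfl⟩, rfl⟩, key g hg z (hA z hz),
      cor_iso hφ (fun x hx => hA x (List.mem_filter.1 hx).1) (hf _ _ hA hw z (hA z hz))⟩
  · obtain ⟨_, hz', rfl⟩ := (m2 y).1 hy
    obtain ⟨z, hz, rfl⟩ := (hw _).1 hz'
    exact ⟨_, (m1 _).2 ⟨z, hz, rfl⟩, key g hg z (hA z hz)⟩

end Pool.Agent.P.MP_f1a348_lc.TO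

end

section

/-! Step MPT. -/

set_option autoImplicit false
set_option linter.unusedSectionVars false

namespace Pool.Agent.P.MP_f1a348_lc.TO

open Pool.Agent.Lib.Helper47 Pool.Agent.P.MP_f1a348_lc.GI

namespace MPT
variable {α : Type} [Enc α]

@[fun_prop] theorem pt_fib {N : α → List ℕ} {f : α → ℕ → Str} {z : α → ℕ} (h1 : PT N)
    (h2 : PT (fun x : α × ℕ => f x.1 x.2)) (h3 : PT z) : PT (fun a => fib (N a) (f a) (z a)) := by
  unfold fib; fun_prop

@[fun_prop] theorem pt_parts {N : α → List ℕ} {f : α → ℕ → Str} (h1 : PT N)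
    (h2 : PT (fun x : α × ℕ => f x.1 x.2)) : PT (fun a => parts (N a) (f a)) := by
  unfold parts; fun_prop

@[fun_prop] theorem pt_cstep {V S : α → List ℕ} {r : α → ℕ → ℕ → Bool} (h1 : PT V)
    (h2 : PT (fun x : α × ℕ × ℕ => r x.1 x.2.1 x.2.2)) (h3 : PT S) :
    PT (fun a => cstep (V a) (r a) (S a)) := by
  have e1 : PT (fun x : (α × ℕ) × ℕ => r x.1.1 x.2 x.1.2) :=
    h2.comp (g := fun x : (α × ℕ) × ℕ => (x.1.1, x.2, x.1.2)) (by fun_prop)
  have e2 : PT (fun x : (α × ℕ) × ℕ => r x.1.1 x.1.2 x.2) :=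
    h2.comp (g := fun x : (α × ℕ) × ℕ => (x.1.1, x.1.2, x.2)) (by fun_prop)
  unfold cstep
  exact PT.filter (PT.or (by fun_prop) (PT.any (PT.or e1 e2) (by fun_prop))) h1

@[fun_prop] theorem pt_comp {V : α → List ℕ} {r : α → ℕ → ℕ → Bool} {x : α → ℕ} (h1 : PT V)
    (h2 : PT (fun x : α × ℕ × ℕ => r x.1 x.2.1 x.2.2)) (h3 : PT x) :
    PT (fun a => comp (V a) (r a) (x a)) :=
  PT.iterate_inv (f := fun a S => cstep (V a) (r a) S)
    (pt_cstep (by fun_prop)
      (h2.comp (g := fun x : (α × List ℕ) × ℕ × ℕ => (x.1.1, x.2)) (by fun_prop)) (by fun_prop))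
    h1 (by fun_prop) (fun a S => S.Sublist (V a)) (fun _ => List.filter_sublist)
    (fun _ _ _ => List.filter_sublist) _ h1.size_le (fun _ _ h => size_sublist h)

@[fun_prop] theorem pt_arcs {E : α → List (ℕ × ℕ)} {C D : α → List ℕ} (h1 : PT E) (h2 : PT C)
    (h3 : PT D) : PT (fun a => arcs (E a) (C a) (D a)) := by
  unfold arcs; fun_prop

@[fun_prop] theorem pt_bindR {r : α → Res} {f : α → Co → Res} (h1 : PT r)
    (h2 : PT (fun x : α × Co => f x.1 x.2)) : PT (fun a => bindR (r a) (f a)) := by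
  unfold bindR
  exact PT.optElim h1 (PT.const _) (PT.optElim (by fun_prop) (PT.const _)
    (h2.comp (g := fun x : (α × Option Co) × Co => (x.1.1, x.2)) (by fun_prop)))

@[fun_prop] theorem pt_rst {A : α → List ℕ} {g : α → U} (h1 : PT A) (h2 : PT g) :
    PT (fun a => rst (A a) (g a)) := by
  unfold rst; fun_prop

@[fun_prop] theorem pt_uni {A : α → List ℕ} {r r' : α → Res} (h1 : PT A) (h2 : PT r) (h3 : PT r') :
    PT (fun a => uni (A a) (r a) (r' a)) := by
  unfold uni; fun_prop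

@[fun_prop] theorem pt_strs {V : α → List ℕ} {E : α → List (ℕ × ℕ)} (h1 : PT V) (h2 : PT E) :
    PT (fun a => strs (V a) (E a)) := by
  unfold strs; fun_prop

@[fun_prop] theorem pt_look {tb : α → Tb} {q : α → Q} (h1 : PT tb) (h2 : PT q) :
    PT (fun a => look (tb a) (q a)) := by
  unfold look; fun_prop

@[fun_prop] theorem pt_tcalls {E F : α → List (ℕ × ℕ)} {a b : α → PD} (h1 : PT E) (h2 : PT F)
    (h3 : PT a) (h4 : PT b) : PT (fun x => tcalls (E x) (F x) (a x) (b x)) := by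
  unfold tcalls; fun_prop

@[fun_prop] theorem pt_typ {tb : α → Tb} {E G : α → List (ℕ × ℕ)} {a : α → PD} {C : α → List ℕ}
    (h1 : PT tb) (h2 : PT E) (h3 : PT a) (h4 : PT C) (h5 : PT G) :
    PT (fun x => typ (tb x) (E x) (a x) (C x) (G x)) := by
  unfold typ; fun_prop

@[fun_prop] theorem pt_labP {tb : α → Tb} {E G : α → List (ℕ × ℕ)} {a : α → PD}
    {y : α → Str × List ℕ} (h1 : PT tb) (h2 : PT E) (h3 : PT a) (h4 : PT G) (h5 : PT y) :
    PT (fun x => labP (tb x) (E x) (a x) (G x) (y x)) := by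
  unfold labP; fun_prop

@[fun_prop] theorem pt_lf {tb : α → Tb} {E G : α → List (ℕ × ℕ)} {D : α → List ℕ} {a b : α → PD}
    {g : α → U} (h1 : PT tb) (h2 : PT E) (h3 : PT D) (h4 : PT a) (h5 : PT b) (h6 : PT G)
    (h7 : PT g) : PT (fun x => lf (tb x) (E x) (D x) (a x) (b x) (G x) (g x)) := by
  unfold lf; fun_prop

@[fun_prop] theorem pt_autG {tb : α → Tb} {E : α → List (ℕ × ℕ)} {a : α → PD} (h1 : PT tb)
    (h2 : PT E) (h3 : PT a) : PT (fun x => autG (tb x) (E x) (a x)) := by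
  unfold autG; fun_prop

theorem sup_mul {W : List ℕ} {g h : U} (a : Sup W g) (b : Sup W h) : Sup W (g * h) :=
  fun v hv => by rw [FP.app_mul, b v hv, a v hv]

theorem sup_inv {W : List ℕ} {g : U} (a : Sup W g) : Sup W g⁻¹ :=
  fun v hv => by conv_lhs => rw [← a v hv, FP.app_inv_app]

theorem sup_gen {W : List ℕ} {S : List U} (h : ∀ s ∈ S, Sup W s) {g : U} (hg : g ∈ gen S) :
    Sup W g := fun v hv => FP.app_fix (fun s hs => h s hs v hv) hg

theorem sup_rst {W A : List ℕ} {g : U} (hA : ∀ x ∈ A, x ∈ W) (a : Sup W g) : Sup W (rst A g) :=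
  fun v hv => FP.ofList_fix fun p hp => by
    obtain ⟨x, hx, rfl⟩ := List.mem_map.1 hp
    refine ⟨fun e => hv (e ▸ hA x hx), fun e => ?_⟩
    have e1 : g.app x = g.app v := e.trans (a v hv).symm
    exact hv (g.app_injective e1 ▸ hA x hx)

/-- all permutations of a result -/
def pms (r : Res) : List U := r.elim [] fun o => o.elim [] fun c => c.1 :: c.2

/-- all points moved by some result -/
noncomputable def pts (A : List ℕ) (L : List Res) : List ℕ :=
  A ++ L.flatMap fun r => (pms r).flatMap fun g => g.code.map Prod.fst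

theorem pt_fold {A : α → List ℕ} {L : α → List Res} (h1 : PT A) (h2 : PT L) :
    PT (fun a => (L a).foldl (uni (A a)) (some none)) := by
  have hc : PT (fun g : U => g.code) := FP.pt_code
  have hW : PT (fun a => pts (A a) (L a)) := by
    unfold pts pms; fun_prop
  have hl : Lib.Helper47.PS (fun a => (A a).length * (A a).length + size (L a) + 1) :=
    (((ps_len h1).mul (ps_len h1)).add h2.size_le).add (PB.const 1)
  have hs : Lib.Helper47.PS (fun a => size (pts (A a) (L a)) * (2 * size (pts (A a) (L a)) + 2) + 1) :=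
    (hW.size_le.mul (((PB.const 2).mul hW.size_le).add (PB.const 2))).add (PB.const 1)
  refine PT.foldl_inv (f := fun a r r' => uni (A a) r r') (by fun_prop) h2 (PT.const _)
    (fun a r => (∀ g ∈ pms r, Sup (pts (A a) (L a)) g) ∧
      (pms r).length ≤ (A a).length * (A a).length + size (L a) + 1)
    (fun a => by simp [pms]) (fun a r r' hr' ⟨i1, i2⟩ => ?_) _
    ((hl.mul (hs.add (PB.const 1))).add (PB.const 6)) (fun a r ⟨i1, i2⟩ => ?_)
  · have j1 : ∀ g ∈ pms r', Sup (pts (A a) (L a)) g := fun g hg v hv => by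
      by_contra hc
      exact hv (List.mem_append_right _ (List.mem_flatMap.2 ⟨r', hr',
        List.mem_flatMap.2 ⟨g, hg, FP.mem_keys.2 hc⟩⟩))
    have j2 : (pms r').length ≤ size (L a) := by
      have := size_lt_of_mem hr'
      obtain _ | _ | c := r'
      · simp [pms]
      · simp [pms]
      · have := length_lt_size c.2
        simp only [size_some, size_prod c] at *
        simp only [pms, Option.elim_some, List.length_cons]
        omega
    obtain _ | _ | c := r
    · simp [uni, pms]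
    · obtain _ | o := r'
      · simp [uni, pms]
      · exact ⟨j1, j2.trans (by omega)⟩
    · obtain _ | _ | c' := r'
      · simp [uni, pms]
      · exact ⟨i1, i2⟩
      · simp only [pms, Option.elim_some, List.forall_mem_cons] at i1 j1
        simp only [uni, pms, Option.elim_some, List.forall_mem_cons, List.length_cons]
        refine ⟨⟨i1.1, fun g hg => sup_gen (fun s hs => ?_) (sims_mem hg)⟩, ?_⟩
        · rcases List.mem_cons.1 hs with rfl | hs
          · exact sup_rst (fun x hx => List.mem_append_left _ hx) (sup_mul (sup_inv i1.1) j1.1)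
          · exact (List.mem_append.1 hs).elim (i1.2 s) (j1.2 s)
        · have := sims_length ((prodL (A a) (A a)).map fun _ => ()) (A a)
            (rst (A a) (c.1⁻¹ * c'.1) :: (c.2 ++ c'.2))
          have e : (prodL (A a) (A a)).length = (A a).length * (A a).length := by
            simp [prodL, List.length_flatMap]
          rw [List.length_map, e] at this
          omega
  · have k := size_list_le (l := pms r) fun g hg => FP.size_le (σ := g) (c := pts (A a) (L a))
      fun v hv => by by_contra hc; exact hv (i1 g hg v hc)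
    have k2 := Nat.mul_le_mul_right
      (size (pts (A a) (L a)) * (2 * size (pts (A a) (L a)) + 2) + 1 + 1) i2
    have k3 : size r ≤ size (pms r) + 5 := by
      obtain _ | _ | c := r
      · simp
      · simp [pms]
      · simp [pms, size_prod c]
    omega

section prog
variable {tr : TRIn → Res} {cls : Par × Q × Bool × List ℕ → ℕ}

theorem pt_lift (ht : PT tr) {p : α → Par} {tb : α → Tb} {E F : α → List (ℕ × ℕ)}
    {V D : α → List ℕ} {c : α → Co} {a b : α → PD} (h0 : PT p) (h1 : PT tb) (h2 : PT E)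
    (h3 : PT F) (h4 : PT V) (h5 : PT D) (h6 : PT c) (h7 : PT a) (h8 : PT b) :
    PT (fun x => lift tr (p x) (tb x) (E x) (F x) (V x) (D x) (c x) (a x) (b x)) := by
  unfold lift; fun_prop

theorem pt_finish (ht : PT tr) {p : α → Par} {q : α → Q} {c : α → Co} (h0 : PT p) (h1 : PT q)
    (h2 : PT c) : PT (fun x => finish tr (p x) (q x) (c x)) := by
  unfold finish; fun_prop

@[fun_prop] theorem pt_sV {q : α → Q} {b : α → Bool} (h1 : PT q) (h2 : PT b) :
    PT (fun x => sV (q x) (b x)) := by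
  unfold sV; fun_prop

@[fun_prop] theorem pt_sE {q : α → Q} {b : α → Bool} (h1 : PT q) (h2 : PT b) :
    PT (fun x => sE (q x) (b x)) := by
  unfold sE; fun_prop

variable [hc : Fact (PT cls)]

@[fun_prop] theorem pt_lab {p : α → Par} {q : α → Q} {b : α → Bool} {T Z : α → List ℕ} {z : α → ℕ}
    (h0 : PT p) (h1 : PT q) (h2 : PT b) (h3 : PT T) (h4 : PT Z) (h5 : PT z) :
    PT (fun x => lab cls (p x) (q x) (b x) (T x) (Z x) (z x)) := by
  have := hc.out
  unfold lab; fun_prop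

@[fun_prop] theorem pt_nxt {p : α → Par} {q : α → Q} {b : α → Bool} {T Z : α → List ℕ} {κ : α → ℕ}
    (h0 : PT p) (h1 : PT q) (h2 : PT b) (h3 : PT T) (h5 : PT κ) (h4 : PT Z) :
    PT (fun x => nxt cls (p x) (q x) (b x) (T x) (κ x) (Z x)) := by
  unfold nxt; fun_prop

theorem pt_lay {p : α → Par} {q : α → Q} {b : α → Bool} {T : α → List ℕ} {κ : α → ℕ}
    (h0 : PT p) (h1 : PT q) (h2 : PT b) (h3 : PT T) (h5 : PT κ) (i : ℕ) :
    PT (fun x => lay cls (p x) (q x) (b x) (T x) (κ x) i) := by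
  induction i with
  | zero => exact PT.const []
  | succ i ih =>
    exact (pt_nxt h0 h1 h2 h3 h5 ih).of_eq fun x => by
      unfold lay; rw [Function.iterate_succ_apply']

@[fun_prop] theorem pt_new {p : α → Par} {q : α → Q} {b : α → Bool} {T Z : α → List ℕ} {κ : α → ℕ}
    (h0 : PT p) (h1 : PT q) (h2 : PT b) (h3 : PT T) (h5 : PT κ) (h4 : PT Z) :
    PT (fun x => new cls (p x) (q x) (b x) (T x) (κ x) (Z x)) := by
  unfold new; fun_prop

@[fun_prop] theorem pt_pdL {p : α → Par} {q : α → Q} {b : α → Bool} {T Z : α → List ℕ} {κ : α → ℕ}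
    (h0 : PT p) (h1 : PT q) (h2 : PT b) (h3 : PT T) (h5 : PT κ) (h4 : PT Z) :
    PT (fun x => pdL cls (p x) (q x) (b x) (T x) (κ x) (Z x)) := by
  unfold pdL; fun_prop

@[fun_prop] theorem pt_blk {p : α → Par} {q : α → Q} {b : α → Bool} {c z : α → ℕ}
    (h0 : PT p) (h1 : PT q) (h2 : PT b) (h3 : PT c) (h4 : PT z) :
    PT (fun x => blk cls (p x) (q x) (b x) (c x) (z x)) := by
  have := hc.out
  unfold blk; fun_prop

@[fun_prop] theorem pt_rep {p : α → Par} {q : α → Q} {b : α → Bool} {c z : α → ℕ}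
    (h0 : PT p) (h1 : PT q) (h2 : PT b) (h3 : PT c) (h4 : PT z) :
    PT (fun x => rep cls (p x) (q x) (b x) (c x) (z x)) := by
  unfold rep; fun_prop

@[fun_prop] theorem pt_reps {p : α → Par} {q : α → Q} {b : α → Bool} {c : α → ℕ}
    (h0 : PT p) (h1 : PT q) (h2 : PT b) (h3 : PT c) :
    PT (fun x => reps cls (p x) (q x) (b x) (c x)) := by
  unfold reps; fun_prop

@[fun_prop] theorem pt_qE {p : α → Par} {q : α → Q} {b : α → Bool} {c : α → ℕ}
    (h0 : PT p) (h1 : PT q) (h2 : PT b) (h3 : PT c) :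
    PT (fun x => qE cls (p x) (q x) (b x) (c x)) := by
  unfold qE; fun_prop

@[fun_prop] theorem pt_pdI {p : α → Par} {q : α → Q} {b : α → Bool} {c : α → ℕ}
    (h0 : PT p) (h1 : PT q) (h2 : PT b) (h3 : PT c) :
    PT (fun x => pdI cls (p x) (q x) (b x) (c x)) := by
  unfold pdI; fun_prop

@[fun_prop] theorem pt_quo {p : α → Par} {q : α → Q} {c : α → ℕ}
    (h0 : PT p) (h1 : PT q) (h3 : PT c) : PT (fun x => quo cls (p x) (q x) (c x)) := by
  unfold quo; fun_prop

@[fun_prop] theorem pt_hom {p : α → Par} {q : α → Q} (h0 : PT p) (h1 : PT q) :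
    PT (fun x => hom cls (p x) (q x)) := by
  have := hc.out
  unfold hom; fun_prop

@[fun_prop] theorem pt_impC {p : α → Par} {q : α → Q} (h0 : PT p) (h1 : PT q) :
    PT (fun x => impC cls (p x) (q x)) := by
  have := hc.out
  unfold impC; fun_prop

@[fun_prop] theorem pt_cands {p : α → Par} {q : α → Q} (h0 : PT p) (h1 : PT q) :
    PT (fun x => cands (p x) (q x)) := by
  unfold cands
  refine PT.flatMap (PT.flatMap (PT.map (PT.prodMk (by fun_prop) (PT.pow (by fun_prop)
    (by fun_prop) (ps_len (by fun_prop)))) (by fun_prop)) (PT.rangeLength (by fun_prop)))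
    (PT.reverse (PT.rangeLength (by fun_prop)))

@[fun_prop] theorem pt_gainT {p : α → Par} {q : α → Q} (h0 : PT p) (h1 : PT q) :
    PT (fun x => gainT cls (p x) (q x)) := by
  unfold gainT
  exact PT.find? (PT.beq (PT.length (pt_lay (by fun_prop) (by fun_prop) (by fun_prop) (by fun_prop)
    (by fun_prop) 3)) (by fun_prop)) (by fun_prop)

@[fun_prop] theorem pt_plan {p : α → Par} {q : α → Q} (h0 : PT p) (h1 : PT q) :
    PT (fun x => plan cls (p x) (q x)) := by
  unfold plan; fun_prop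

theorem pt_callsL {p : α → Par} {q : α → Q} {T T' : α → List ℕ} {κ : α → ℕ}
    (h0 : PT p) (h1 : PT q) (h3 : PT T) (h5 : PT κ) (h4 : PT T') (i : ℕ) :
    PT (fun x => callsL cls (p x) (q x) (T x) (κ x) (T' x) i) :=
  pt_tcalls (by fun_prop) (by fun_prop)
    (pt_pdL h0 h1 (PT.const _) h3 h5 (pt_lay h0 h1 (PT.const _) h3 h5 i))
    (pt_pdL h0 h1 (PT.const _) h4 h5 (pt_lay h0 h1 (PT.const _) h4 h5 i))

@[fun_prop] theorem pt_callsP {p : α → Par} {q : α → Q} {T : α → List ℕ} {κ : α → ℕ}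
    (h0 : PT p) (h1 : PT q) (h3 : PT T) (h5 : PT κ) :
    PT (fun x => callsP cls (p x) (q x) (T x) (κ x)) := by
  have k := fun i => pt_callsL (cls := cls) (α := α × List ℕ) (p := fun x => p x.1)
    (q := fun x => q x.1) (T := fun x => T x.1) (κ := fun x => κ x.1) (T' := fun x => x.2)
    (by fun_prop) (by fun_prop) (by fun_prop) (by fun_prop) (by fun_prop) i
  unfold callsP
  exact PT.flatMap (PT.append (k 0) (PT.append (k 1) (k 2))) (by fun_prop)

@[fun_prop] theorem pt_callsI {p : α → Par} {q : α → Q} {c : α → ℕ}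
    (h0 : PT p) (h1 : PT q) (h3 : PT c) : PT (fun x => callsI cls (p x) (q x) (c x)) := by
  unfold callsI; fun_prop

@[fun_prop] theorem pt_calls {p : α → Par} {q : α → Q} (h0 : PT p) (h1 : PT q) :
    PT (fun x => calls cls (p x) (q x)) := by
  unfold calls; fun_prop

theorem pt_stepL (ht : PT tr) {p : α → Par} {tb : α → Tb} {q : α → Q} {T T' : α → List ℕ}
    {κ : α → ℕ} {c : α → Co} (h0 : PT p) (h2 : PT tb) (h1 : PT q) (h3 : PT T) (h5 : PT κ)
    (h4 : PT T') (i : ℕ) (h6 : PT c) :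
    PT (fun x => stepL tr cls (p x) (tb x) (q x) (T x) (κ x) (T' x) i (c x)) :=
  pt_lift ht h0 h2 (by fun_prop) (by fun_prop) (pt_lay h0 h1 (PT.const _) h3 h5 i)
    (pt_lay h0 h1 (PT.const _) h3 h5 i) h6
    (pt_pdL h0 h1 (PT.const _) h3 h5 (pt_lay h0 h1 (PT.const _) h3 h5 i))
    (pt_pdL h0 h1 (PT.const _) h4 h5 (pt_lay h0 h1 (PT.const _) h4 h5 i))

theorem pt_pinOne (ht : PT tr) {p : α → Par} {tb : α → Tb} {q : α → Q} {T T' : α → List ℕ}
    {κ : α → ℕ} (h0 : PT p) (h2 : PT tb) (h1 : PT q) (h3 : PT T) (h5 : PT κ) (h4 : PT T') :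
    PT (fun x => pinOne tr cls (p x) (tb x) (q x) (T x) (κ x) (T' x)) := by
  have k := fun i => pt_stepL (cls := cls) ht (α := α × Co) (p := fun x => p x.1)
    (tb := fun x => tb x.1) (q := fun x => q x.1) (T := fun x => T x.1) (κ := fun x => κ x.1)
    (T' := fun x => T' x.1) (c := fun x => x.2) (by fun_prop) (by fun_prop) (by fun_prop)
    (by fun_prop) (by fun_prop) (by fun_prop) i (by fun_prop)
  unfold pinOne
  exact pt_bindR (pt_bindR (pt_bindR (pt_stepL ht h0 h2 h1 h3 h5 h4 0 (PT.const _)) (k 1)) (k 2))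
    (pt_finish ht (by fun_prop) (by fun_prop) (by fun_prop))

theorem pt_finP (ht : PT tr) {p : α → Par} {tb : α → Tb} {q : α → Q} {T : α → List ℕ}
    {κ : α → ℕ} (h0 : PT p) (h2 : PT tb) (h1 : PT q) (h3 : PT T) (h5 : PT κ) :
    PT (fun x => finP tr cls (p x) (tb x) (q x) (T x) (κ x)) := by
  have k : PT (fun x => (tuples (p x).1 (q x).2.2.1 (T x)).map
      (pinOne tr cls (p x) (tb x) (q x) (T x) (κ x))) :=
    PT.map (pt_pinOne ht (by fun_prop) (by fun_prop) (by fun_prop) (by fun_prop) (by fun_prop)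
      (by fun_prop)) (by fun_prop)
  exact (pt_fold (A := fun x => (q x).1) (by fun_prop) k).of_eq fun x => by
    rw [List.foldl_map]; rfl

theorem pt_finI (ht : PT tr) {p : α → Par} {tb : α → Tb} {q : α → Q} {c : α → ℕ}
    (h0 : PT p) (h2 : PT tb) (h1 : PT q) (h3 : PT c) :
    PT (fun x => finI tr cls (p x) (tb x) (q x) (c x)) := by
  unfold finI
  exact pt_bindR (pt_bindR (by fun_prop) (pt_lift ht (by fun_prop) (by fun_prop) (by fun_prop)
    (by fun_prop) (by fun_prop) (by fun_prop) (by fun_prop) (by fun_prop) (by fun_prop)))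
    (pt_finish ht (by fun_prop) (by fun_prop) (by fun_prop))

@[fun_prop] theorem pt_full {p : α → Par} {tb : α → Tb} {q : α → Q}
    (h0 : PT p) (h1 : PT q) (h2 : PT tb) : PT (fun x => full cls (p x) (q x) (tb x)) := by
  unfold full; fun_prop

theorem pt_finM (ht : PT tr) {p : α → Par} {tb : α → Tb} {q : α → Q}
    (h0 : PT p) (h1 : PT q) (h2 : PT tb) : PT (fun x => finM tr cls (p x) (q x) (tb x)) := by
  unfold finM
  exact PT.cond (by fun_prop) (PT.cond (by fun_prop) (PT.cond (by fun_prop)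
    (PT.optElim (by fun_prop) (pt_finP ht h0 h2 h1 (by fun_prop) (by fun_prop))
      (pt_finI ht (by fun_prop) (by fun_prop) (by fun_prop) (by fun_prop))) (PT.const _))
    (pt_finish ht h0 h1 (by fun_prop))) (PT.const _)
end prog
end MPT

theorem p_MPT :
    S_MPT := by
  intro tr cls ht hc
  have : Fact (PT cls) := ⟨hc⟩
  refine ⟨MPT.pt_calls (by fun_prop) (by fun_prop), PT.const _, ?_, ?_,
    MPT.pt_finM ht (by fun_prop) (by fun_prop) (by fun_prop)⟩
  · change PT (fun x : Par × Q × Q × Tb => x.2.2.1)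
    fun_prop
  · change PT (fun x : Par × Q × Q × Tb × Res => bif x.2.2.2.1.any (fun e => e.1 == x.2.2.1) then
      x.2.2.2.1 else (x.2.2.1, x.2.2.2.2) :: x.2.2.2.1)
    fun_prop

end Pool.Agent.P.MP_f1a348_lc.TO

end

section

/-! Step MUNI. -/

set_option autoImplicit false
set_option linter.unusedSectionVars false

namespace Pool.Agent.P.MP_f1a348_lc.TO

open Pool.Agent.Lib.Helper47 Pool.Agent.P.MP_f1a348_lc.GI

theorem p_MUNI (hMAUT : S_MAUT) :
    S_MUNI := by
  obtain ⟨-, m2, m3, -, m5, m6, m7, -, -, m10⟩ := hMAUT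
  intro M q o o' h h' s s'
  rcases o with _ | c
  · exact ⟨o', rfl, h', s', fun φ hφ => hφ.resolve_left (by rintro ⟨g, ⟨c, e, -⟩, -⟩; cases e)⟩
  rcases o' with _ | c'
  · exact ⟨some c, rfl, h, s, fun φ hφ =>
      hφ.resolve_right (by rintro ⟨g, ⟨c, e, -⟩, -⟩; cases e)⟩
  have i1 : DIso c.1.app q.1 q.2.1 q.2.2.1 q.2.2.2 := h.iso _ ⟨c, rfl, by simp [cset]⟩
  have i2 : DIso c'.1.app q.1 q.2.1 q.2.2.1 q.2.2.2 := h'.iso _ ⟨c', rfl, by simp [cset]⟩
  have i3 : DIso (c.1⁻¹ * c'.1).app q.1 q.2.1 q.1 q.2.1 :=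
    m7 _ _ _ _ _ _ (m5 _ _ _ _ _ _ _ _ i2 (m6 _ _ _ _ _ i1)) fun _ _ => rfl
  set ρ := rst q.1 (c.1⁻¹ * c'.1) with hρ
  have r1 : ∀ x ∈ q.1, ρ.app x = (c.1⁻¹ * c'.1).app x := fun x hx =>
    FP.ofList_map (fun a _ b _ e => FP.app_injective _ e) hx
  have r2 : Sup q.1 ρ := fun v hv => FP.ofList_fix fun p hp => by
    obtain ⟨x, hx, rfl⟩ := List.mem_map.1 hp
    exact ⟨fun e => hv (e ▸ hx), fun e => hv (e ▸ i3.bij.mapsTo hx)⟩
  have r3 : DIso ρ.app q.1 q.2.1 q.1 q.2.1 := m7 _ _ _ _ _ _ i3 r1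
  set S := ρ :: (c.2 ++ c'.2) with hS
  have sS : ∀ s ∈ S, Sup q.1 s := fun s hs => by
    rcases List.mem_cons.1 hs with rfl | hs
    · exact r2
    rcases List.mem_append.1 hs with hs | hs
    · exact h.sup c rfl s hs
    · exact h'.sup c' rfl s hs
  have sG := m2 _ _ sS
  have hG : gen (sims ((prodL q.1 q.1).map fun _ => ()) q.1 S) = gen S := by
    refine simsLemma _ _ _ _ _ q.1.length (fun u hu hb => FP.ext fun a => ?_)
      (fun b hb => ⟨q.1.toFinset, List.toFinset_card_le _, fun u hu => ?_⟩)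
      (by rw [List.length_map, length_prodL])
    · by_cases ha : a ∈ q.1
      · exact hb a ha
      · exact sG u hu a ha
    · exact List.mem_toFinset.2 ((m3 _ u (sG u hu) b).2 hb)
  have aG : ∀ g ∈ gen S, DIso g.app q.1 q.2.1 q.1 q.2.1 := fun g hg => by
    induction hg using Subgroup.closure_induction with
    | mem s hs =>
      rcases List.mem_cons.1 hs with rfl | hs
      · exact r3
      rcases List.mem_append.1 hs with hs | hs
      · exact (m10 q c h).2 s (mem_gen hs)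
      · exact (m10 q c' h').2 s (mem_gen hs)
    | one => exact (m10 q c h).2 1 (one_mem _)
    | mul x y _ _ hx hy => exact m7 _ _ _ _ _ _ (m5 _ _ _ _ _ _ _ _ hy hx) fun _ _ => rfl
    | inv x _ hx => exact m6 _ _ _ _ _ hx
  have l1 : gen c.2 ≤ gen S := gen_mono fun x hx => by simp [hS, hx]
  have l2 : gen c'.2 ≤ gen S := gen_mono fun x hx => by simp [hS, hx]
  refine ⟨some (c.1, sims ((prodL q.1 q.1).map fun _ => ()) q.1 S), rfl, ⟨?_, ?_, ?_⟩, ?_, ?_⟩
  · rintro g ⟨d, e, hg⟩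
    cases e
    rw [cset, Set.mem_ofPred_eq, hG] at hg
    have := m5 _ _ _ _ _ _ _ _ (aG _ hg) i1
    exact m7 _ _ _ _ _ _ this fun x _ => by simp
  · rintro d e t ht
    cases e
    exact sG t (sims_mem ht)
  · rintro d e
    cases e
    refine (sims_length _ _ _).trans ?_
    rw [List.length_map, length_prodL, sq]
  · rintro d e
    cases e
    exact s c rfl
  · rintro φ (⟨g, ⟨d, e, hg⟩, hφ⟩ | ⟨g, ⟨d, e, hg⟩, hφ⟩)
    · cases e
      exact ⟨g, ⟨_, rfl, by rw [cset, Set.mem_ofPred_eq, hG]; exact l1 hg⟩, hφ⟩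
    · cases e
      refine ⟨c.1 * (ρ * (c'.1⁻¹ * g)), ⟨_, rfl, ?_⟩, fun x hx => ?_⟩
      · rw [cset, Set.mem_ofPred_eq, hG, inv_mul_cancel_left]
        exact mul_mem (mem_gen (by simp [hS])) (l2 hg)
      · have := r1 _ (((m10 q c' h').2 _ hg).bij.mapsTo hx)
        rw [FP.app_mul, FP.app_mul, this, ← hφ x hx]
        simp

end Pool.Agent.P.MP_f1a348_lc.TO

end
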