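import Pool.Agent.P.MP_f1a348_lc.TO.MIface

section

/-! Step MFI. -/

set_option autoImplicit false
set_option linter.unusedSectionVars false

namespace Pool.Agent.P.MP_f1a348_lc.TO

open Pool.Agent.Lib.Helper47 Pool.Agent.P.MP_f1a348_lc.GI

namespace MFI

theorem oa_none {M : ℕ} {q : Q} (h : ∀ φ, DIso φ q.1 q.2.1 q.2.2.1 q.2.2.2 → False) :
    OA M q none :=
  ⟨⟨⟨fun _ hg => (by obtain ⟨c, hc, -⟩ := hg; cases hc), fun _ hc => (by cases hc),
    fun _ hc => (by cases hc)⟩, fun φ hφ => (h φ hφ).elim⟩, fun _ hc => (by cases hc)⟩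

theorem not_cov {A : List ℕ} {φ : ℕ → ℕ} (h : Cov A φ none) : False := by
  obtain ⟨g, ⟨c, hc, -⟩, -⟩ := h
  cases hc

end MFI

theorem p_MFI (hMAUT : S_MAUT) (hMLIFT : S_MLIFT) (hMFIN : S_MFIN) (hMPDI : S_MPDI) (hMQUO : S_MQUO) (hMIMP : S_MIMP) :
    S_MFI := by
  intro tr cls htr hcls p M q tb c hq hlen hplan htb
  obtain ⟨pa, sa, la, ra, -, -, ma⟩ := hMPDI cls p M q false c hq
  obtain ⟨pb, sb, -, -, -, -, -⟩ := hMPDI cls p M q true c hq
  obtain ⟨-, hT, -, hR, -⟩ := hMIMP cls hcls p M q c hq hlen hplan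
  have ho : OA M (quo cls p q c) (look tb (quo cls p q c)) := htb _ List.mem_cons_self
  have ea : sV q false = q.1 := rfl
  have eb : sV q true = q.2.2.1 := rfl
  rw [ea] at pa la ra
  rw [eb] at pb
  unfold finI
  cases e : look tb (quo cls p q c) with
  | none =>
    rw [e] at ho
    refine ⟨fun r hr => ?_, fun _ h => by cases h⟩
    obtain rfl : none = r := Option.some.inj hr
    refine MFI.oa_none fun φ hφ => ?_
    obtain ⟨ψ, h1, -⟩ := hMQUO cls hcls p M q φ c hq hφ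
    exact MFI.not_cov (ho.1.cov ψ h1)
  | some c0 =>
    rw [e] at ho
    have sv : SmV M (reps cls p q false c) :=
      ⟨ra.length_le.trans hq.sm.a.1, fun x hx => hq.sm.a.2 x (ra.subset hx)⟩
    have hs0 : ∀ s ∈ c0.2, Sup (reps cls p q false c) s := ho.1.sup c0 rfl
    have hLC : LC p M tb q.2.1 q.2.2.2 (reps cls p q false c) [] c0 q.1 q.2.2.1
        (pdI cls p q false c) (pdI cls p q true c) :=
      { pa := pa
        pb := pb
        tour := fun x hx u hu v hv => hq.pre.tour u ((pa.cover u).2 ⟨x, hx, hu⟩) v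
          ((pa.cover v).2 ⟨x, hx, hv⟩)
        dis := fun _ h => by cases h
        sup := hs0
        keep := fun _ _ _ h => by cases h
        ni := (hMAUT.2.2.2.2.2.2.2.2.2 (quo cls p q c) c0 ho.1.toPS).1 hT
        pos := fun x hx z hz v hv => by
          obtain ⟨r, hr, rfl⟩ := (ma x).1 hx
          rw [Str.mem_mk, List.mem_singleton] at hz
          subst hz
          obtain rfl : r = v := Option.some.inj hv
          exact hr
        big := by
          refine le_trans ?_ hq.pre.big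
          have h1 : (reps cls p q false c).length + (pdI cls p q false c).length + 2 ≤
              (q.1.length + 2) ^ 2 := by nlinarith
          calc _ ≤ ((q.1.length + 2) ^ 2) ^ 4 := Nat.pow_le_pow_left h1 4
            _ = (q.1.length + 2) ^ 8 := by rw [← pow_mul]
            _ ≤ _ := Nat.pow_le_pow_right (by omega) (by omega)
        tb := fun t ht => htb t (List.mem_cons_of_mem _ ht)
        sv := sv
        sd := ⟨Nat.zero_le _, fun _ h => by cases h⟩
        sc := ⟨ho.2 c0 rfl, fun s hs v hv => hs0 s hs v fun h => hv (List.mem_range.2 (sv.2 v h)),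
          by
            have h1 : c0.2.length ≤ (reps cls p q false c).length ^ 2 := ho.1.len c0 rfl
            have h2 := sv.1
            calc _ ≤ _ := h1
              _ ≤ (M + 1) ^ 2 := Nat.pow_le_pow_left (by omega) 2
              _ ≤ (M + 1) ^ 3 := Nat.pow_le_pow_right (by omega) (by omega)⟩
        sa := sa
        sb := sb }
    obtain ⟨hL1, hL2⟩ := hMLIFT tr htr p M tb _ _ _ _ _ _ _ _ _ hLC
    have hcov : ∀ r, lift tr p tb q.2.1 q.2.2.2 (reps cls p q false c) [] c0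
        (pdI cls p q false c) (pdI cls p q true c) = some r →
        ∀ φ, DIso φ q.1 q.2.1 q.2.2.1 q.2.2.2 → Cov q.1 φ r := fun r hr φ hφ => by
      obtain ⟨ψ, h1, h2⟩ := hMQUO cls hcls p M q φ c hq hφ
      obtain ⟨g, ⟨c', hc', hg⟩, h3⟩ := ho.1.cov ψ h1
      obtain rfl : c0 = c' := Option.some.inj hc'
      exact (hL1 r hr).2 φ g hg (fun _ h => by cases h) hφ.bij.injOn (h2 g h3)
    have e1 : bindR (some (some c0)) (fun c₀ => lift tr p tb q.2.1 q.2.2.2
        (reps cls p q false c) [] c₀ (pdI cls p q false c) (pdI cls p q true c)) =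
        lift tr p tb q.2.1 q.2.2.2 (reps cls p q false c) [] c0
          (pdI cls p q false c) (pdI cls p q true c) := rfl
    rw [e1]
    cases e2 : lift tr p tb q.2.1 q.2.2.2 (reps cls p q false c) [] c0
        (pdI cls p q false c) (pdI cls p q true c) with
    | none => exact ⟨fun r hr => (by cases hr), fun h => (hL2 h e2).elim⟩
    | some o =>
      cases o with
      | none =>
        refine ⟨fun r hr => ?_, fun _ h => by cases h⟩
        obtain rfl : none = r := Option.some.inj hr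
        exact MFI.oa_none fun φ hφ => MFI.not_cov (hcov _ e2 φ hφ)
      | some c1 =>
        obtain ⟨s1, n1, m1⟩ := (hL1 _ e2).1 c1 rfl
        obtain ⟨hF1, hF2⟩ := hMFIN tr htr p M q c1 hq s1 m1
        refine ⟨fun r hr => ?_, fun h => hF2 h n1⟩
        obtain ⟨a1, a2, a3⟩ := hF1 r hr
        exact ⟨⟨a1, fun φ hφ => a3 φ hφ (hcov _ e2 φ hφ)⟩, a2⟩

end Pool.Agent.P.MP_f1a348_lc.TO

end

section

/-! Step MFIN. -/

set_option autoImplicit false
set_option linter.unusedSectionVars false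

namespace Pool.Agent.P.MP_f1a348_lc.TO

open Pool.Agent.Lib.Helper47 Pool.Agent.P.MP_f1a348_lc.GI

namespace MFIN

variable {V A B : List ℕ} {E F : List (ℕ × ℕ)} {y : Str} {u v : ℕ} {g : U}

theorem mem_strs : y ∈ strs V E ↔ (∃ v ∈ V, Str.mk [(some v, 2)] = y) ∨
    ∃ u ∈ V, ∃ v ∈ V, (u, v) ∈ E ∧ Str.mk [(some u, 0), (some v, 1)] = y := by
  simp only [strs, List.mem_append, List.mem_map, List.mem_filter, mem_prodL, Prod.exists,
    List.contains_iff_mem]
  exact or_congr_right ⟨fun ⟨a, b, ⟨⟨h1, h2⟩, h3⟩, h4⟩ => ⟨a, h1, b, h2, h3, h4⟩,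
    fun ⟨a, h1, b, h2, h3, h4⟩ => ⟨a, b, ⟨⟨h1, h2⟩, h3⟩, h4⟩⟩

theorem mk_mem {l m : List (Option ℕ × ℕ)} (h : Str.mk l = Str.mk m) {e : Option ℕ × ℕ}
    (he : e ∈ m) : e ∈ l := Str.mem_mk.1 (h ▸ Str.mem_mk.2 he)

theorem vs_mem : Str.mk [(some v, 2)] ∈ strs V E ↔ v ∈ V := by
  refine mem_strs.trans ⟨?_, fun h => .inl ⟨v, h, rfl⟩⟩
  rintro (⟨w, h, e⟩ | ⟨a, -, b, -, -, e⟩)
  · obtain rfl : v = w := by simpa using mk_mem e List.mem_cons_self
    exact h
  · simpa using mk_mem e List.mem_cons_self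

theorem as_mem :
    Str.mk [(some u, 0), (some v, 1)] ∈ strs V E ↔ u ∈ V ∧ v ∈ V ∧ (u, v) ∈ E := by
  refine mem_strs.trans ⟨?_, fun h => .inr ⟨u, h.1, v, h.2.1, h.2.2, rfl⟩⟩
  rintro (⟨w, h, e⟩ | ⟨a, h1, b, h2, h3, e⟩)
  · simpa using mk_mem e List.mem_cons_self
  · obtain rfl : u = a := by simpa using mk_mem e List.mem_cons_self
    obtain rfl : v = b := by simpa using mk_mem e (List.mem_cons_of_mem _ List.mem_cons_self)
    exact ⟨h1, h2, h3⟩

theorem fwd (h : DIso g.app A E B F) (hy : y ∈ strs A E) : g • y ∈ strs B F := by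
  rcases mem_strs.1 hy with ⟨v, a, rfl⟩ | ⟨u, a, v, b, c, rfl⟩ <;> rw [Str.smul_mk]
  · exact vs_mem.2 (h.bij.mapsTo a)
  · exact as_mem.2 ⟨h.bij.mapsTo a, h.bij.mapsTo b, (h.arc u a v b).1 c⟩

theorem bwd (h : ∀ y, y ∈ strs A E ↔ g • y ∈ strs B F) : DIso g.app A E B F := by
  have h1 : ∀ v, v ∈ A ↔ g.app v ∈ B := fun v => by
    have := h (Str.mk [(some v, 2)])
    rw [Str.smul_mk, vs_mem] at this
    exact this.trans vs_mem
  refine ⟨⟨fun v a => (h1 v).1 a, g.app_injective.injOn, fun b hb =>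
    ⟨g⁻¹.app b, (h1 _).2 (by rw [FP.app_app_inv]; exact hb), g.app_app_inv b⟩⟩, fun u a v b => ?_⟩
  have := h (Str.mk [(some u, 0), (some v, 1)])
  rw [Str.smul_mk, as_mem] at this
  have := this.trans as_mem
  exact ⟨fun c => (this.1 ⟨a, b, c⟩).2.2, fun c => (this.2 ⟨(h1 u).1 a, (h1 v).1 b, c⟩).2.2⟩

theorem len (V : List ℕ) (E : List (ℕ × ℕ)) :
    (strs V E).length ≤ V.length + V.length * V.length := by
  rw [strs, List.length_append, List.length_map, List.length_map, ← length_prodL]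
  exact Nat.add_le_add_left (List.length_filter_le _ _) _

theorem ent (hy : y ∈ strs V E) : y.val.card ≤ 2 ∧
    ∀ e ∈ y.val, e.2 ≤ 2 ∧ ∀ v, e.1 = some v → v ∈ V := by
  rcases mem_strs.1 hy with ⟨v, a, rfl⟩ | ⟨u, a, v, b, -, rfl⟩
  · exact ⟨(List.toFinset_card_le _).trans (by simp), by simpa using a⟩
  · exact ⟨(List.toFinset_card_le _).trans (by simp), by simpa using ⟨a, b⟩⟩

theorem sml {M : ℕ} (h : SmV M V) (E : List (ℕ × ℕ)) : SmL M (strs V E) := by
  refine ⟨(len V E).trans ?_, fun s hs => ⟨(ent hs).1.trans (by omega), fun e he =>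
    ⟨((ent hs).2 e he).1.trans (by omega), fun v hv => h.2 v (((ent hs).2 e he).2 v hv)⟩⟩⟩
  have := Nat.mul_le_mul h.1 h.1
  have := h.1
  nlinarith

end MFIN

open MFIN in
theorem p_MFIN (hMAUT : S_MAUT) :
    S_MFIN := by
  obtain ⟨-, m2, -, -, -, m6, m7, -⟩ := hMAUT
  intro tr htr p M q c hq hs hc
  have pre : TRPre p q.1 c (strs q.1 q.2.1) := by
    refine ⟨hs, fun y hy e he => ((ent hy).2 e he).2, le_trans ?_ hq.pre.big⟩
    have := len q.1 q.2.1
    calc _ ≤ ((q.1.length + 2) ^ 2) ^ 4 := Nat.pow_le_pow_left (by nlinarith) 4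
      _ ≤ _ := by rw [← pow_mul]; exact Nat.pow_le_pow_right (by omega) (by omega)
  refine ⟨fun r hr => ?_, fun ht ni => ht _ _ _ _ pre ni hq.sm.a hc (sml hq.sm.a _) (sml hq.sm.b _)⟩
  obtain ⟨h1, h2⟩ := htr.sound _ _ _ _ _ r pre hr
  refine ⟨⟨fun g hg => bwd (h1 ▸ hg).2, fun c' e s a => m2 _ _ hs s ((h2 c' e).1 (mem_gen a)),
    fun c' e => (h2 c' e).2⟩, fun c' e v hv => ?_, ?_⟩
  · have a : c'.1 ∈ rset r := ⟨c', e, by simp [cset]⟩
    have b := m2 _ _ hc.2.1 _ (h1 ▸ a).1 v hv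
    rw [← mul_inv_cancel_left c.1 c'.1, FP.app_mul, b, hc.1 v hv]
  · rintro φ hφ ⟨g, ⟨c', e, a⟩, b⟩
    obtain rfl := Option.some.inj e
    have d := m7 _ _ _ _ _ _ hφ b
    refine ⟨g, h1 ▸ ⟨a, fun y => ⟨fwd d, fun z => ?_⟩⟩, b⟩
    simpa using fwd (m6 _ _ _ _ _ d) z

end Pool.Agent.P.MP_f1a348_lc.TO

end

section

/-! Step MFP. -/

set_option autoImplicit false
set_option linter.unusedSectionVars false

namespace Pool.Agent.P.MP_f1a348_lc.TO

open Pool.Agent.Lib.Helper47 Pool.Agent.P.MP_f1a348_lc.GI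

namespace MFP

theorem fold_none (A : List ℕ) (f : List ℕ → Res) (L : List (List ℕ)) :
    L.foldl (fun r T' => uni A r (f T')) none = none := by
  induction L with
  | nil => rfl
  | cons a L ih => exact ih

theorem fold (hMUNI : S_MUNI) (M : ℕ) (q : Q) (f : List ℕ → Res) (C : List ℕ → (ℕ → ℕ) → Prop)
    (L : List (List ℕ))
    (hf : ∀ T' ∈ L, ∀ r, f T' = some r → PS q r ∧ (∀ c, r = some c → Sup (List.range M) c.1) ∧
      ∀ φ, C T' φ → Cov q.1 φ r) (o : Option Co) (h1 : PS q o)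
    (h2 : ∀ c, o = some c → Sup (List.range M) c.1) :
    (∀ r, L.foldl (fun r T' => uni q.1 r (f T')) (some o) = some r → PS q r ∧
      (∀ c, r = some c → Sup (List.range M) c.1) ∧
      ∀ φ, (Cov q.1 φ o ∨ ∃ T' ∈ L, C T' φ) → Cov q.1 φ r) ∧
    ((∀ T' ∈ L, f T' ≠ none) → L.foldl (fun r T' => uni q.1 r (f T')) (some o) ≠ none) := by
  induction L generalizing o with
  | nil =>
    refine ⟨fun r e => ?_, fun _ => by simp⟩
    obtain rfl : o = r := Option.some.inj e
    exact ⟨h1, h2, fun φ h => h.resolve_right (by simp)⟩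
  | cons a L ih =>
    rw [List.foldl_cons]
    cases e : f a with
    | none =>
      have : uni q.1 (some o) none = none := rfl
      rw [this, fold_none]
      exact ⟨fun r h => absurd h (by simp), fun h => absurd e (h a (by simp))⟩
    | some o' =>
      obtain ⟨h3, h4, h5⟩ := hf a (by simp) o' e
      obtain ⟨u, hu, h6, h7, h8⟩ := hMUNI M q o o' h1 h3 h2 h4
      rw [hu]
      obtain ⟨i1, i2⟩ := ih (fun T' h => hf T' (List.mem_cons_of_mem _ h)) u h6 h7
      refine ⟨fun r h => ?_, fun h => i2 fun T' h' => h T' (List.mem_cons_of_mem _ h')⟩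
      obtain ⟨j1, j2, j3⟩ := i1 r h
      refine ⟨j1, j2, fun φ h => j3 φ ?_⟩
      rcases h with h | ⟨T', h, h'⟩
      · exact Or.inl (h8 φ (Or.inl h))
      · rcases List.mem_cons.1 h with rfl | h
        · exact Or.inl (h8 φ (Or.inr (h5 φ h')))
        · exact Or.inr ⟨T', h, h'⟩

end MFP

theorem p_MFP (hMAUT : S_MAUT) (hMUNI : S_MUNI) (hMPIN : S_MPIN) (hMPLAN : S_MPLAN) :
    S_MFP := by
  intro tr cls htr hcls p M q tb T κ hq hl h2 hp htb
  have _ := hMAUT
  obtain ⟨a1, a2, -, -, a5, -⟩ := hMPLAN cls hcls p M q T κ hq hl h2 hp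
  have key := fun T' (h : T' ∈ tuples p.1 q.2.2.1 T) =>
    hMPIN tr cls htr hcls p M q tb T T' κ hq hl a1 a2 a5 fun i hi t ht => htb t (by
      refine List.mem_flatMap.2 ⟨T', h, ?_⟩
      simp only [List.mem_append]
      interval_cases i
      · exact Or.inl ht
      · exact Or.inr (Or.inl ht)
      · exact Or.inr (Or.inr ht))
  obtain ⟨k1, k2⟩ := MFP.fold hMUNI M q (pinOne tr cls p tb q T κ)
    (fun T' φ => DIso φ q.1 q.2.1 q.2.2.1 q.2.2.2 ∧ T' = T.map φ) (tuples p.1 q.2.2.1 T)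
    (fun T' h r e => by
      obtain ⟨b1, b2, b3⟩ := (key T' h).1 r e
      exact ⟨b1, b2, fun φ h => b3 φ h.1 h.2⟩) none
    ⟨fun g ⟨c, e, _⟩ => absurd e (by simp), by simp, by simp⟩ (by simp)
  refine ⟨fun r e => ?_, fun h => k2 fun T' h' => (key T' h').2 h⟩
  obtain ⟨b1, b2, b3⟩ := k1 r e
  refine ⟨⟨b1, fun φ h => b3 φ (Or.inr ⟨T.map φ, tuples_complete ?_ (by simp) fun x hx => ?_,
    h, rfl⟩)⟩, b2⟩
  · refine le_trans ?_ hq.pre.big
    rw [← hl]
    exact (Nat.pow_le_pow_left (by omega) _).trans (Nat.pow_le_pow_right (by omega) (by omega))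
  · obtain ⟨y, hy, rfl⟩ := List.mem_map.1 hx
    exact h.bij.mapsTo (a1 y hy)

end Pool.Agent.P.MP_f1a348_lc.TO

end

section

/-! Step MLIFT. -/

set_option autoImplicit false
set_option linter.unusedSectionVars false

namespace Pool.Agent.P.MP_f1a348_lc.TO

open Pool.Agent.Lib.Helper47 Pool.Agent.P.MP_f1a348_lc.GI

namespace MLIFT

/-- the entries at the fixed position are even -/
def Ev (s : Str) : Prop := ∀ e ∈ s.val, e.1 = none → Even e.2

theorem ev_smul (g : U) {s : Str} (h : Ev s) : Ev (g • s) := by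
  intro e he h1
  rw [Str.val_smul, Finset.mem_image] at he
  obtain ⟨e', he', rfl⟩ := he
  refine h e' he' ?_
  obtain ⟨_ | v, k⟩ := e'
  · rfl
  · simp [Str.mv] at h1

theorem smul_tag (g : U) (t : ℕ) (s : Str) :
    g • Str.mk ((none, t) :: s.list) = Str.mk ((none, t) :: (g • s).list) := by
  rw [Str.smul_mk]
  refine Str.ext fun e => ?_
  simp only [Str.mem_mk, List.map_cons, List.mem_cons, List.mem_map, Str.mem_list, Str.val_smul,
    Finset.mem_image]
  rfl

theorem tag_inj {s s' : Str} (h : Ev s) (h' : Ev s') (t t' : ℕ) :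
    Str.mk ((none, 2 * t + 1) :: s.list) = Str.mk ((none, 2 * t' + 1) :: s'.list) ↔
      s' = s ∧ t = t' := by
  constructor
  · intro e
    have hm : ∀ q, (q = (none, 2 * t + 1) ∨ q ∈ s.val) ↔ (q = (none, 2 * t' + 1) ∨ q ∈ s'.val) := by
      intro q
      have : q ∈ (Str.mk ((none, 2 * t + 1) :: s.list)).val ↔
          q ∈ (Str.mk ((none, 2 * t' + 1) :: s'.list)).val := by rw [e]
      simpa only [Str.mem_mk, List.mem_cons, Str.mem_list] using this
    have no : ∀ (u : Str) (k : ℕ), Ev u → (none, 2 * k + 1) ∉ u.val := fun u k hu hk => by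
      have := hu _ hk rfl
      simp only [Nat.even_add_one, even_two, Even.mul_right, not_true_eq_false] at this
    have ht : t = t' := by
      rcases (hm _).1 (Or.inl rfl) with h1 | h1
      · have := congrArg Prod.snd h1
        simp only at this
        omega
      · exact absurd h1 (no _ _ h')
    subst ht
    refine ⟨Str.ext fun q => ⟨fun hq => ?_, fun hq => ?_⟩, rfl⟩
    · rcases (hm q).2 (Or.inr hq) with h1 | h1
      · exact absurd (h1 ▸ hq) (no _ _ h')
      · exact h1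
    · rcases (hm q).1 (Or.inr hq) with h1 | h1
      · exact absurd (h1 ▸ hq) (no _ _ h)
      · exact h1
  · rintro ⟨rfl, rfl⟩
    rfl

theorem key (tb : Tb) (E : List (ℕ × ℕ)) (a : PD) (G G' : List (ℕ × ℕ)) (g : U)
    {x y : Str × List ℕ} (hx : Ev x.1) (hy : Ev y.1) :
    g • labP tb E a G x = labP tb E a G' y ↔
      y.1 = g • x.1 ∧ typ tb E a x.2 G = typ tb E a y.2 G' := by
  unfold labP
  rw [smul_tag, tag_inj (ev_smul g hx) hy]

theorem mem_lab {tb : Tb} {E : List (ℕ × ℕ)} {a : PD} {G : List (ℕ × ℕ)} {x : Str × List ℕ}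
    {e : Option ℕ × ℕ} :
    e ∈ (labP tb E a G x).val ↔ e = (none, 2 * typ tb E a x.2 G + 1) ∨ e ∈ x.1.val := by
  unfold labP
  simp only [Str.mem_mk, List.mem_cons, Str.mem_list]

theorem smL {M : ℕ} (tb : Tb) (E : List (ℕ × ℕ)) {a b : PD} (G : List (ℕ × ℕ))
    (ha : a.length ≤ M) (hb : SmP M b) : SmL M (b.map (labP tb E a G)) := by
  refine ⟨?_, fun s hs => ?_⟩
  · rw [List.length_map]
    have := hb.1
    nlinarith
  · obtain ⟨x, hx, rfl⟩ := List.mem_map.1 hs
    obtain ⟨-, h2, h3⟩ := hb.2 x hx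
    refine ⟨?_, fun e he => ?_⟩
    · have h4 : (labP tb E a G x).val ⊆ insert (none, 2 * typ tb E a x.2 G + 1) x.1.val :=
        fun e he => Finset.mem_insert.2 (mem_lab.1 he)
      have := (Finset.card_le_card h4).trans (Finset.card_insert_le _ _)
      omega
    · rcases mem_lab.1 he with rfl | he
      · have : typ tb E a x.2 G ≤ a.length := List.findIdx_le_length
        exact ⟨by simp only; omega, fun v hv => by simp at hv⟩
      · exact ⟨(h3 e he).1.trans (by omega), (h3 e he).2⟩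

theorem len_aut {M : ℕ} (tb : Tb) (E : List (ℕ × ℕ)) (a : PD)
    (h : ∀ x ∈ a, ∀ c, look tb (x.2, E, x.2, E) = some c → c.2.length ≤ M ^ 2) :
    (autG tb E a).length ≤ a.length * M ^ 2 := by
  unfold autG
  induction a with
  | nil => simp
  | cons x a ih =>
    have h1 := ih fun y hy => h y (List.mem_cons_of_mem _ hy)
    have h2 := h x List.mem_cons_self
    rw [List.flatMap_cons, List.length_append, List.length_cons, add_mul, one_mul]
    cases e : look tb (x.2, E, x.2, E) with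
    | none => simp only [Option.elim, List.length_nil] at h1 ⊢; omega
    | some c =>
      have := h2 c e
      simp only [Option.elim] at h1 ⊢
      omega

theorem sup_lf {M : ℕ} (tb : Tb) (E : List (ℕ × ℕ)) (D : List ℕ) (a b : PD) (G : List (ℕ × ℕ))
    (g : U) (hD : ∀ d ∈ D, d < M ∧ g.app d < M)
    (ha : ∀ x ∈ a, ∀ y ∈ b, ∀ c, look tb (x.2, E, y.2, G) = some c →
      ∀ z ∈ x.2, z < M ∧ c.1.app z < M) :
    Sup (List.range M) (lf tb E D a b G g) := by
  intro v hv
  rw [List.mem_range] at hv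
  refine FP.ofList_fix fun q hq => ?_
  have : q.1 < M ∧ q.2 < M := by
    rcases List.mem_append.1 hq with hq | hq
    · obtain ⟨d, hd, rfl⟩ := List.mem_map.1 hq
      exact hD d hd
    · obtain ⟨x, hx, hq⟩ := List.mem_flatMap.1 hq
      cases e : b.find? fun y => y.1 == g • x.1 with
      | none => rw [e] at hq; simp at hq
      | some y =>
        rw [e] at hq
        simp only [Option.elim] at hq
        cases e' : look tb (x.2, E, y.2, G) with
        | none => rw [e'] at hq; simp at hq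
        | some c =>
          rw [e'] at hq
          obtain ⟨z, hz, rfl⟩ := List.mem_map.1 hq
          exact ha x hx y (List.mem_of_find?_eq_some e) c e' z hz
  exact ⟨fun e => hv (e ▸ this.1), fun e => hv (e ▸ this.2)⟩

end MLIFT

open MLIFT in
theorem p_MLIFT (hMAUT : S_MAUT) (hMTYP : S_MTYP) (hMLF : S_MLF) (hMOVG : S_MOVG) (hMKER : S_MKER) (hMCOV : S_MCOV) :
    S_MLIFT := by
  intro tr htr p M tb E F V D c N N' a b L
  obtain ⟨-, hgen, hin, -⟩ := hMAUT
  have taa : ∀ x ∈ a, ∀ y ∈ a, OA M (x.2, E, y.2, E) (look tb (x.2, E, y.2, E)) :=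
    fun x hx y hy => L.tb _ (List.mem_flatMap.2 ⟨x, hx,
      List.mem_append_left _ (List.mem_map.2 ⟨y, hy, rfl⟩)⟩)
  have tab : ∀ x ∈ a, ∀ y ∈ b, OA M (x.2, E, y.2, F) (look tb (x.2, E, y.2, F)) :=
    fun x hx y hy => L.tb _ (List.mem_flatMap.2 ⟨x, hx,
      List.mem_append_right _ (List.mem_map.2 ⟨y, hy, rfl⟩)⟩)
  have tyA : ∀ x ∈ a, ∀ y ∈ a,
      (typ tb E a x.2 E = typ tb E a y.2 E ↔ ∃ φ, DIso φ x.2 E y.2 E) := fun x hx y hy =>
    hMTYP M tb E a x y.2 E hx (fun z hz => taa z hz x hx) (fun z hz => taa z hz y hy)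
  have tyB : ∀ x ∈ a, ∀ y ∈ b,
      (typ tb E a x.2 E = typ tb E a y.2 F ↔ ∃ φ, DIso φ x.2 E y.2 F) := fun x hx y hy =>
    hMTYP M tb E a x y.2 F hx (fun z hz => taa z hz x hx) (fun z hz => tab z hz y hy)
  have eA : ∀ x ∈ a, Ev x.1 := L.pa.even
  have eB : ∀ x ∈ b, Ev x.1 := L.pb.even
  have pre : TRPre p V c (a.map (labP tb E a E)) := by
    refine ⟨L.sup, fun y hy e he v hv => ?_, by rw [List.length_map]; exact L.big⟩
    obtain ⟨x, hx, rfl⟩ := List.mem_map.1 hy
    rcases mem_lab.1 he with rfl | he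
    · simp at hv
    · exact L.pos x hx e he v hv
  have matT : ∀ φ (g : U), Mat φ g a E b F →
      ∀ y, y ∈ a.map (labP tb E a E) ↔ g • y ∈ b.map (labP tb E a F) := by
    intro φ g hm y
    constructor
    · intro hy
      obtain ⟨x, hx, rfl⟩ := List.mem_map.1 hy
      obtain ⟨v, hv, h1, h2⟩ := hm.fwd x hx
      exact List.mem_map.2 ⟨v, hv,
        ((key tb E a E F g (eA x hx) (eB v hv)).2 ⟨h1, (tyB x hx v hv).2 ⟨φ, h2⟩⟩).symm⟩
    · intro hy
      obtain ⟨v, hv, e⟩ := List.mem_map.1 hy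
      obtain ⟨x, hx, h0⟩ := hm.fro v hv
      obtain ⟨v', hv', h1, h2⟩ := hm.fwd x hx
      obtain rfl : v' = v := L.pb.inj v' hv' v hv (h1.trans h0.symm)
      have h3 := (key tb E a E F g (eA x hx) (eB v' hv)).2 ⟨h1, (tyB x hx v' hv).2 ⟨φ, h2⟩⟩
      exact List.mem_map.2 ⟨x, hx, MulAction.injective g (h3.trans e)⟩
  have nlt : ∀ z ∈ D ++ N, z < M := by
    intro z hz
    rcases List.mem_append.1 hz with hz | hz
    · exact L.sd.2 z hz
    · obtain ⟨x, hx, hz⟩ := (L.pa.cover z).1 hz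
      exact (L.sa.2 x hx).1.2 z hz
  have rlt : ∀ g : U, Sup (List.range M) g → ∀ z, z < M → g.app z < M := fun g hg z hz =>
    List.mem_range.1 ((hin _ g hg z).2 (List.mem_range.2 hz))
  refine ⟨fun r hr => ?_, fun hH => ?_⟩
  swap
  · have h1 := hH V c _ _ pre L.ni L.sv L.sc (smL tb E E L.sa.1 L.sa) (smL tb E F L.sa.1 L.sb)
    unfold lift bindR
    cases e : tr (p, V, c, a.map (labP tb E a E), b.map (labP tb E a F)) with
    | none => exact absurd e h1
    | some o => cases o <;> simp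
  unfold lift bindR at hr
  cases e : tr (p, V, c, a.map (labP tb E a E), b.map (labP tb E a F)) with
  | none => rw [e] at hr; simp at hr
  | some o =>
  obtain ⟨hs, hc⟩ := htr.sound p V c _ _ o pre e
  rw [e] at hr
  have hmem : ∀ g : U, g ∈ rset o ↔ g ∈ cset c ∧
      ∀ y, y ∈ a.map (labP tb E a E) ↔ g • y ∈ b.map (labP tb E a F) := fun g => by
    rw [hs]; rfl
  cases o with
  | none =>
    simp only [Option.elim, Option.some.injEq] at hr
    subst hr
    refine ⟨fun c' h => by simp at h, fun φ g hg _ _ hm => ?_⟩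
    obtain ⟨c', h, -⟩ := (hmem g).2 ⟨hg, matT φ g hm⟩
    simp at h
  | some c' =>
  obtain ⟨τ, S'⟩ := c'
  simp only [Option.elim, Option.some.injEq] at hr
  subst hr
  obtain ⟨hle, hlen⟩ := hc _ rfl
  simp only at hle hlen
  have hτs : ∀ s ∈ gen S', τ * s ∈ cset c ∧
      ∀ y, y ∈ a.map (labP tb E a E) ↔ (τ * s) • y ∈ b.map (labP tb E a F) := fun s h =>
    (hmem _).1 ⟨_, rfl, by simpa [cset] using h⟩
  have hτ := hτs 1 (Subgroup.one_mem _)
  rw [mul_one] at hτ
  have keep : ∀ h ∈ gen S', ∀ x ∈ D, h.app x ∈ D := fun h hh => L.keep h (hle hh)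
  have lfs : ∀ s ∈ gen S', Over E D a a E s (lf tb E D a a E s) ∧
      Sup (D ++ N) (lf tb E D a a E s) := by
    intro s h
    obtain ⟨h1, h2⟩ := hMLF M tb E D N N a a E s L.pa L.pa L.dis
      (fun x hx => L.dis _ (keep s h x hx)) taa (fun x hx => by
        have h3 := ((hτs s h).2 _).1 (List.mem_map.2 ⟨x, hx, rfl⟩)
        rw [mul_smul, ← hτ.2] at h3
        obtain ⟨y, hy, h4⟩ := List.mem_map.1 h3
        obtain ⟨h5, h6⟩ := (key tb E a E E s (eA x hx) (eA y hy)).1 h4.symm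
        exact ⟨y, hy, h5, (tyA x hx y hy).1 h6⟩)
    refine ⟨h1, fun v hv => ?_⟩
    rw [List.mem_append, not_or] at hv
    exact h2 v hv.1 hv.2 hv.2 fun d hd e => hv.1 (e ▸ keep s h d hd)
  obtain ⟨k1, k2⟩ := hMKER M tb E D N a L.pa L.dis fun x hx => taa x hx x hx
  have hS : ∀ s ∈ S'.map (lf tb E D a a E) ++ autG tb E a,
      Sup (D ++ N) s ∧ ∃ h ∈ gen S', Over E D a a E h s := by
    intro s h
    rcases List.mem_append.1 h with h | h
    · obtain ⟨u, hu, rfl⟩ := List.mem_map.1 h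
      exact ⟨(lfs u (mem_gen hu)).2, u, mem_gen hu, (lfs u (mem_gen hu)).1⟩
    · exact ⟨fun v hv => (k1 s h).1 v fun h' => hv (List.mem_append_right _ h'), 1,
        Subgroup.one_mem _, (k1 s h).2⟩
  refine ⟨fun c' h => ?_, fun φ g hg hD hI hm => ?_⟩
  · obtain rfl := Option.some.inj h
    refine ⟨fun s h => (hS s h).1, (hMOVG E D N a (gen S') _ L.pa L.tour
      (fun u hu => L.ni u (hle hu)) keep hS).1, ?_, fun s h v hv => ?_, ?_⟩
    · have h1 : Sup (List.range M) τ := by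
        intro v hv
        have h2 := hgen _ _ L.sc.2.1 _ hτ.1 v hv
        have h3 := L.sc.1 v hv
        have h4 : τ.app v = c.1.app ((c.1⁻¹ * τ).app v) := by simp
        rw [h4, h2, h3]
      refine sup_lf tb E D a b F τ (fun d hd => ⟨L.sd.2 d hd, rlt τ h1 d (L.sd.2 d hd)⟩)
        fun x hx y hy c₀ h0 z hz => ?_
      have h2 := (L.sa.2 x hx).1.2 z hz
      exact ⟨h2, rlt _ ((tab x hx y hy).2 c₀ h0) z h2⟩
    · exact (hS s h).1 v fun h' => hv (List.mem_range.2 (nlt v h'))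
    · have h1 := len_aut (M := M) tb E a fun x hx c₀ h0 =>
        ((taa x hx x hx).1.len c₀ h0).trans (Nat.pow_le_pow_left (L.sa.2 x hx).1.1 2)
      have h2 : V.length ^ 2 ≤ M ^ 2 := Nat.pow_le_pow_left L.sv.1 2
      have h3 : a.length * M ^ 2 ≤ M * M ^ 2 := Nat.mul_le_mul_right _ L.sa.1
      simp only [List.length_append, List.length_map]
      nlinarith
  · obtain ⟨c', h0, h1⟩ := (hmem g).2 ⟨hg, matT φ g hm⟩
    obtain rfl := Option.some.inj h0
    have h1 : τ⁻¹ * g ∈ gen S' := h1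
    have fw : ∀ x ∈ a, ∃ y ∈ b, y.1 = τ • x.1 ∧ ∃ φ, DIso φ x.2 E y.2 F := by
      intro x hx
      obtain ⟨y, hy, h4⟩ := List.mem_map.1 ((hτ.2 _).1 (List.mem_map.2 ⟨x, hx, rfl⟩))
      obtain ⟨h5, h6⟩ := (key tb E a E F τ (eA x hx) (eB y hy)).1 h4.symm
      exact ⟨y, hy, h5, (tyB x hx y hy).1 h6⟩
    have fr : ∀ y ∈ b, ∃ x ∈ a, y.1 = τ • x.1 := by
      intro y hy
      have h3 : τ • (τ⁻¹ • labP tb E a F y) ∈ b.map (labP tb E a F) := by
        rw [smul_inv_smul]
        exact List.mem_map.2 ⟨y, hy, rfl⟩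
      obtain ⟨x, hx, h4⟩ := List.mem_map.1 ((hτ.2 _).2 h3)
      refine ⟨x, hx, ((key tb E a E F τ (eA x hx) (eB y hy)).1 ?_).1⟩
      rw [h4, smul_inv_smul]
    have out : ∀ d ∈ D, τ.app d ∉ N' := by
      intro d hd hN
      have h2 := keep _ (Subgroup.inv_mem _ h1) d hd
      have h3 : τ.app d = φ ((τ⁻¹ * g)⁻¹.app d) := by
        rw [← hD _ h2]
        simp
      obtain ⟨y, hy, hz⟩ := (L.pb.cover _).1 hN
      obtain ⟨x, hx, h4⟩ := hm.fro y hy
      obtain ⟨y', hy', h5, h6⟩ := hm.fwd x hx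
      obtain rfl : y' = y := L.pb.inj y' hy' y hy (h5.trans h4.symm)
      obtain ⟨z, hz1, hz2⟩ := h6.bij.surjOn hz
      have hzN : z ∈ N := (L.pa.cover z).2 ⟨x, hx, hz1⟩
      have h7 := hI (List.mem_append_right _ hzN) (List.mem_append_left _ h2) (hz2.trans h3)
      exact L.dis _ h2 (h7 ▸ hzN)
    exact hMCOV E F D N N' a b S' _ τ _ g φ L.pa L.pb L.dis keep (fun s h => (hS s h).1)
      (fun s h => ⟨_, List.mem_append_left _ (List.mem_map.2 ⟨s, h, rfl⟩), (lfs s (mem_gen h)).1⟩)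
      (fun u h2 h3 => gen_mono (fun x hx => List.mem_append_right _ hx) (k2 u h2 h3))
      (hMLF M tb E D N N' a b F τ L.pa L.pb L.dis out tab fw).1 fr h1 hD hI hm

end Pool.Agent.P.MP_f1a348_lc.TO

end
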