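import Pool.Agent.P.MP_f1a348_lc.TO.MIface

section

/-! Step MAINX. -/

set_option autoImplicit false
set_option linter.unusedSectionVars false

namespace Pool.Agent.P.MP_f1a348_lc.TO

open Pool.Agent.Lib.Helper47 Pool.Agent.P.MP_f1a348_lc.GI

namespace MAINXa

theorem exM (p : Par) (q : Q) (h : MPre p q) : ∃ M, OQ p M q := by
  refine ⟨q.1.length + q.1.sum + q.2.2.1.length + q.2.2.1.sum + size q.2.1 + size q.2.2.2 +
    p.2.length + 1, h, ⟨⟨by omega, fun x hx => ?_⟩, ⟨by omega, fun x hx => ?_⟩, ?_, ?_⟩, by omega⟩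
  · have := List.single_le_sum (l := q.1) (fun _ _ => Nat.zero_le _) x hx
    omega
  · have := List.single_le_sum (l := q.2.2.1) (fun _ _ => Nat.zero_le _) x hx
    omega
  · refine le_trans ?_ (Nat.le_self_pow (by norm_num) _)
    omega
  · refine le_trans ?_ (Nat.le_self_pow (by norm_num) _)
    omega

theorem oq (p : Par) (q : Q) (M : ℕ) (h : MPre p q) (h1 : ∀ x ∈ q.1, x < M)
    (h2 : ∀ x ∈ q.2.2.1, x < M) (h3 : size q ≤ M) (h4 : p.2.length ≤ M) : OQ p M q := by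
  have e1 := size_prod q
  have e2 := size_prod q.2
  have e3 := size_prod q.2.2
  have l1 := length_lt_size q.1
  have l2 := length_lt_size q.2.2.1
  refine ⟨h, ⟨⟨by omega, h1⟩, ⟨by omega, h2⟩, ?_, ?_⟩, h4⟩
  · refine le_trans ?_ (Nat.le_self_pow (by norm_num) _)
    omega
  · refine le_trans ?_ (Nat.le_self_pow (by norm_num) _)
    omega

theorem logpow (M d : ℕ) : Nat.log 2 ((M + 2) ^ d) ≤ d * (Nat.log 2 M + 2) := by
  have h1 : M < 2 ^ (Nat.log 2 M + 1) := Nat.lt_pow_succ_log_self (by norm_num) M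
  have h2 : M + 2 ≤ 2 ^ (Nat.log 2 M + 2) := by
    have : 1 ≤ 2 ^ (Nat.log 2 M + 1) := Nat.one_le_two_pow
    rw [pow_succ 2 (Nat.log 2 M + 1)]
    omega
  have h3 : (M + 2) ^ d ≤ 2 ^ (d * (Nat.log 2 M + 2)) := by
    rw [mul_comm, pow_mul]
    exact Nat.pow_le_pow_left h2 d
  exact (Nat.log_mono_right h3).trans (Nat.log_pow (by norm_num) _).le

theorem pw (N a : ℕ) (hN : 2 ≤ N) : 2 ^ a ≤ N ^ a := Nat.pow_le_pow_left hN a

theorem addtwo (M d : ℕ) : (M + 2) ^ d + 2 ≤ (M + 2) ^ (d + 2) := by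
  have h1 : 1 ≤ (M + 2) ^ d := Nat.one_le_pow _ _ (by omega)
  have h2 := pw (M + 2) 2 (by omega)
  rw [pow_add]
  nlinarith

theorem stack (M n e : ℕ) (hn : n ≤ M) :
    (n + 2 + 2) * (8 * (M + 2) ^ e + 4 * (n + 2) + 40) ≤ (M + 2) ^ (e + 10) := by
  set N := M + 2 with hN
  have hN2 : 2 ≤ N := by omega
  have h1 : 1 ≤ N ^ e := Nat.one_le_pow _ _ (by omega)
  have h2 : n + 2 + 2 ≤ N ^ 2 := by nlinarith
  have h3 : 8 * N ^ e + 4 * (n + 2) + 40 ≤ N ^ e * N ^ 8 := by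
    have a7 := pw N 7 hN2
    have a8 : N ^ 8 = N ^ 7 * N := pow_succ N 7
    have b1 : 128 * N ≤ N ^ 8 := by rw [a8]; exact Nat.mul_le_mul_right N (by simpa using a7)
    have b2 : N ^ e * (128 * N) ≤ N ^ e * N ^ 8 := Nat.mul_le_mul_left _ b1
    have b3 : N ^ e ≤ N ^ e * N := Nat.le_mul_of_pos_right _ (by omega)
    have b4 : N ≤ N ^ e * N := Nat.le_mul_of_pos_left _ (by omega)
    have b5 : N ^ e * (128 * N) = 128 * (N ^ e * N) := by ring
    omega
  calc _ ≤ N ^ 2 * (N ^ e * N ^ 8) := Nat.mul_le_mul h2 h3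
    _ = N ^ (e + 10) := by ring

theorem logK (E M n j : ℕ) (hE : 1 ≤ E) (hn : n ≤ M) (h : Nat.log 2 M ≤ E * j) :
    Nat.log (2 ^ E) n ≤ j := by
  rcases Nat.eq_zero_or_pos n with rfl | h0
  · simp
  have h1 : (2 ^ E) ^ Nat.log (2 ^ E) n ≤ n := Nat.pow_log_le_self _ h0.ne'
  rw [← pow_mul] at h1
  have h2 : E * Nat.log (2 ^ E) n ≤ Nat.log 2 M :=
    Nat.le_log_of_pow_le (by norm_num) (h1.trans hn)
  exact Nat.le_of_mul_le_mul_left (h2.trans h) hE

theorem cntb (K M n n0 j G x : ℕ) (hn : n ≤ M) (hK : Nat.log K n ≤ j) (hG : 1 ≤ G)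
    (hG2 : G ^ n0 ≤ M) (hx : x ≤ 64 * (n + 1) ^ 7 * gam K (400 * (M + 1) ^ 3) G n0 n) :
    8 * (x + 1) ≤ (M + 2) ^ (18 + 12 * j) := by
  set N := M + 2 with hN
  have hN2 : 2 ≤ N := by omega
  have h1 : 400 * (M + 1) ^ 3 ≤ N ^ 12 := by
    have a9 := pw N 9 hN2
    have a3 : (M + 1) ^ 3 ≤ N ^ 3 := Nat.pow_le_pow_left (by omega) 3
    calc _ ≤ N ^ 9 * N ^ 3 := Nat.mul_le_mul (le_trans (by norm_num) a9) a3
      _ = N ^ 12 := by ring
  have h2 : (400 * (M + 1) ^ 3) ^ Nat.log K n ≤ N ^ (12 * j) := by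
    rw [pow_mul]
    exact (Nat.pow_le_pow_left h1 _).trans
      (Nat.pow_le_pow_right (Nat.one_le_pow _ _ (by omega)) hK)
  have h3 : G ^ min n n0 ≤ N :=
    (Nat.pow_le_pow_right hG (min_le_right _ _)).trans (by omega)
  have h4 : 64 * (n + 1) ^ 7 ≤ N ^ 6 * N ^ 7 :=
    Nat.mul_le_mul (le_trans (by norm_num) (pw N 6 hN2)) (Nat.pow_le_pow_left (by omega) 7)
  have h5 : x ≤ N ^ (14 + 12 * j) := by
    calc x ≤ (N ^ 6 * N ^ 7) * (N ^ (12 * j) * N) :=
          hx.trans (Nat.mul_le_mul h4 (Nat.mul_le_mul h2 h3))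
      _ = N ^ (14 + 12 * j) := by ring
  have h6 : 1 ≤ N ^ (14 + 12 * j) := Nat.one_le_pow _ _ (by omega)
  have h7 := pw N 4 hN2
  calc 8 * (x + 1) ≤ 2 ^ 4 * N ^ (14 + 12 * j) := by omega
    _ ≤ N ^ 4 * N ^ (14 + 12 * j) := Nat.mul_le_mul_right _ h7
    _ = N ^ (18 + 12 * j) := by ring

end MAINXa

theorem p_MAINX (hMRECOK : S_MRECOK) (hMSIZE : S_MSIZE) (hMINV : S_MINV) (hMHALT : S_MHALT) (hMCNT : S_MCNT) (hMPT : S_MPT) :
    S_MAINX := by
  intro hREC hGAIN tr cls htr hcls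
  obtain ⟨run, hPT, hS, hH⟩ :=
    hREC Par Q Q Tb Res (mainR tr cls) (hMPT tr cls htr.pt hcls.pt)
  obtain ⟨d2, hinv⟩ := hMINV
  obtain ⟨d, hsize⟩ := hMSIZE
  refine ⟨fun x => (run (x.1, x.1.1, () :: () :: x.2.1.map (fun _ => ()), x.2)).elim none
    (fun r => r.elim none (fun o => some o.isSome)), ?_, ?_, ?_⟩
  · have h1 : PT (fun x : Par × Q =>
        run (x.1, x.1.1, () :: () :: x.2.1.map (fun _ => ()), x.2)) :=
      PT.comp hPT (by fun_prop)
    fun_prop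
  · intro p q b hpre hb
    obtain ⟨M, hM⟩ := MAINXa.exM p q hpre
    have hI := hinv tr cls htr hcls p M
    dsimp only at hb
    rcases hr : run (p, p.1, () :: () :: q.1.map (fun _ => ()), q) with _ | r
    · rw [hr] at hb
      simp at hb
    rw [hr] at hb
    rcases r with _ | o
    · simp at hb
    have hb' : o.isSome = b := by simpa using hb
    have hev := hS _ _ _ _ _ hr
    have hoa : OA M q o :=
      hMRECOK Par Q Q Tb Res (mainR tr cls) p (OQ p M) (OS cls p M)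
        (fun q r => ∀ o, r = some o → OA M q o) hI.ini hI.call hI.upd hI.fin hI.out _ q hM o
        hev.symm
    rw [← hb']
    constructor
    · intro h
      obtain ⟨c, rfl⟩ := Option.isSome_iff_exists.mp h
      refine ⟨c.1.app, hoa.1.iso c.1 ⟨c, rfl, ?_⟩⟩
      change c.1⁻¹ * c.1 ∈ gen c.2
      rw [inv_mul_cancel]
      exact one_mem _
    · rintro ⟨φ, hφ⟩
      obtain ⟨g, ⟨c, hc, -⟩, -⟩ := hoa.1.cov φ hφ
      rw [hc]
      rfl
  · obtain ⟨c1, hc1⟩ := htr.halts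
    refine ⟨(d + 2) * c1 + d2 + 18, fun E => ?_⟩
    rcases Nat.eq_zero_or_pos E with rfl | hE
    · exact ⟨1, fun p q M _ _ _ _ _ h => by omega⟩
    obtain ⟨j0, n0, hcnt⟩ := hMCNT hGAIN (2 ^ E) (by
      calc 2 = 2 ^ 1 := rfl
        _ ≤ 2 ^ E := Nat.pow_le_pow_right (by norm_num) hE)
    obtain ⟨c0, hc0⟩ := hc1 ((d + 1) * E)
    set G := 400 * (n0 + 1) ^ (n0 + 2) with hG
    have hG1 : 1 ≤ G := Nat.mul_pos (by norm_num) (Nat.one_le_pow _ _ (by omega))
    refine ⟨c0 + 2 + E * (j0 + G ^ n0), fun p q M hpre h1 h2 h3 h4 h5 h6 => ?_⟩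
    have hM := MAINXa.oq p q M hpre h1 h2 h3 h4
    have hn : q.1.length ≤ M := hM.sm.a.1
    set j := p.2.length with hj
    have hJ : j0 + G ^ n0 ≤ j := Nat.le_of_mul_le_mul_left (by omega) hE
    have hle : ∀ e, e ≤ ((d + 2) * c1 + d2 + 18) * (j + 1) → (M + 2) ^ e ≤ p.1.length :=
      fun e he => (Nat.pow_le_pow_right (by omega) he).trans h6
    have hHT : HT tr p M := by
      intro V c X Y k1 k2 k3 k4 k5 k6
      refine hc0 p V c X Y ((M + 2) ^ d) k1 k2 ((hsize M).1 V c X Y k3 k4 k5 k6) ?_ ?_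
      · have a1 := MAINXa.logpow M d
        have a2 : (d + 1) * (Nat.log 2 M + (c0 + 2)) ≤ (d + 1) * (E * j) :=
          Nat.mul_le_mul_left _ (by omega)
        have a3 : (d + 1) * E * j = (d + 1) * (E * j) := by ring
        rw [← hj, a3]
        nlinarith [Nat.zero_le (d * c0), Nat.zero_le (Nat.log 2 M)]
      · refine le_trans (Nat.pow_le_pow_left (MAINXa.addtwo M d) _) ?_
        rw [← pow_mul]
        refine hle _ ?_
        rw [← hj, ← mul_assoc]
        exact Nat.mul_le_mul_right _ (by omega)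
    have hlen : (() :: () :: q.1.map (fun _ => ())).length = q.1.length + 2 := by simp
    have hrun := hH p p.1 (() :: () :: q.1.map (fun _ => ())) q _ _ _ _
      (hinv tr cls htr hcls p M) hM
      (by
        refine le_trans (MAINXa.cntb (2 ^ E) M q.1.length n0 j G _ hn
          (MAINXa.logK E M _ j hE hn (by omega)) hG1 (by omega)
          (hcnt tr cls hcls p M (by omega) _ q hM)) (hle _ ?_)
        nlinarith [Nat.zero_le (((d + 2) * c1 + d2) * (j + 1))])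
      (by
        rw [hlen]
        refine le_trans (MAINXa.stack M _ _ hn) (hle _ ?_)
        nlinarith [Nat.zero_le (((d + 2) * c1) * (j + 1)), Nat.zero_le (d2 * j)])
    have hne := hMHALT tr cls htr hcls p M hHT
      (() :: () :: q.1.map (fun _ => ())).length q hM (by rw [hlen]; omega)
    dsimp only
    rw [hrun]
    obtain ⟨o, ho⟩ := Option.ne_none_iff_exists'.mp hne
    rw [ho]
    simp

end Pool.Agent.P.MP_f1a348_lc.TO

end

section

/-! Step MCOMP. -/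

set_option autoImplicit false
set_option linter.unusedSectionVars false

namespace Pool.Agent.P.MP_f1a348_lc.TO

open Pool.Agent.Lib.Helper47 Pool.Agent.P.MP_f1a348_lc.GI

namespace MCOMP

theorem mem_cstep {V S : List ℕ} {r : ℕ → ℕ → Bool} {y : ℕ} :
    y ∈ cstep V r S ↔ y ∈ V ∧ (y ∈ S ∨ ∃ z ∈ S, r z y = true ∨ r y z = true) := by
  simp [cstep]

/-- the rounds of the search -/
noncomputable def st (V : List ℕ) (r : ℕ → ℕ → Bool) (x i : ℕ) : List ℕ :=
  (cstep V r)^[i] (V.filter fun y => y == x)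

variable {V : List ℕ} {r : ℕ → ℕ → Bool} {x : ℕ}

theorem st_succ (i : ℕ) : st V r x (i + 1) = cstep V r (st V r x i) :=
  Function.iterate_succ_apply' _ _ _

theorem mem_zero {y : ℕ} : y ∈ st V r x 0 ↔ y ∈ V ∧ y = x := by simp [st]

theorem filt (i : ℕ) : ∃ P : ℕ → Bool, st V r x i = V.filter P := by
  cases i with
  | zero => exact ⟨_, rfl⟩
  | succ i => exact ⟨_, st_succ i⟩

theorem sound (i : ℕ) : ∀ y ∈ st V r x i, y ∈ V ∧ x ∈ V ∧
    Relation.ReflTransGen (fun a b => b ∈ V ∧ (r a b = true ∨ r b a = true)) x y := by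
  induction i with
  | zero =>
    intro y hy
    obtain ⟨h, rfl⟩ := mem_zero.1 hy
    exact ⟨h, h, .refl⟩
  | succ i ih =>
    intro y hy
    rw [st_succ, mem_cstep] at hy
    obtain ⟨h, h1 | ⟨z, h1, h2⟩⟩ := hy
    · exact ih y h1
    · exact ⟨h, (ih z h1).2.1, (ih z h1).2.2.tail ⟨h, h2⟩⟩

theorem up (i : ℕ) : ∀ y ∈ st V r x i, y ∈ st V r x (i + 1) := fun y hy => by
  rw [st_succ, mem_cstep]
  exact ⟨(sound i y hy).1, Or.inl hy⟩

theorem self (hx : x ∈ V) (i : ℕ) : x ∈ st V r x i := by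
  induction i with
  | zero => exact mem_zero.2 ⟨hx, rfl⟩
  | succ i ih => exact up i x ih

theorem grow (hx : x ∈ V) (i : ℕ) : (∀ y ∈ st V r x (i + 1), y ∈ st V r x i) ∨
    i + 1 ≤ (st V r x i).toFinset.card := by
  induction i with
  | zero => exact Or.inr (Finset.card_pos.2 ⟨x, List.mem_toFinset.2 (self hx 0)⟩)
  | succ i ih =>
    by_cases hc : ∀ y ∈ st V r x (i + 1), y ∈ st V r x i
    · refine Or.inl fun y hy => ?_
      rw [st_succ, mem_cstep] at hy
      obtain ⟨h, h1 | ⟨z, h1, h2⟩⟩ := hy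
      · exact h1
      · rw [st_succ, mem_cstep]
        exact ⟨h, Or.inr ⟨z, hc z h1, h2⟩⟩
    · refine Or.inr ?_
      have h1 := ih.resolve_left hc
      have h2 : (st V r x i).toFinset ⊂ (st V r x (i + 1)).toFinset :=
        ⟨fun y hy => List.mem_toFinset.2 (up i y (List.mem_toFinset.1 hy)),
          fun h => hc fun y hy => List.mem_toFinset.1 (h (List.mem_toFinset.2 hy))⟩
      have := Finset.card_lt_card h2
      omega

theorem closed (hx : x ∈ V) : ∀ y ∈ st V r x (V.length + 1), y ∈ st V r x V.length := by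
  refine (grow hx V.length).resolve_right fun h => ?_
  have h1 : (st V r x V.length).toFinset ⊆ V.toFinset := fun y hy =>
    List.mem_toFinset.2 (sound _ y (List.mem_toFinset.1 hy)).1
  have h2 := Finset.card_le_card h1
  have h3 := List.toFinset_card_le V
  omega

end MCOMP

theorem p_MCOMP :
    S_MCOMP := by
  intro V r x _
  obtain ⟨P, hP⟩ := MCOMP.filt (V := V) (r := r) (x := x) V.length
  refine ⟨P, hP, fun y hy => ?_⟩
  have e : P y = true ↔ y ∈ MCOMP.st V r x V.length := by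
    rw [hP, List.mem_filter]; exact ⟨fun h => ⟨hy, h⟩, fun h => h.2⟩
  rw [e]
  refine ⟨fun h => (MCOMP.sound _ y h).2, ?_⟩
  rintro ⟨hx, h⟩
  clear e hy
  induction h with
  | refl => exact MCOMP.self hx _
  | tail _ h2 ih =>
    refine MCOMP.closed hx _ ?_
    rw [MCOMP.st_succ, MCOMP.mem_cstep]
    exact ⟨h2.1, Or.inr ⟨_, ih, h2.2⟩⟩

end Pool.Agent.P.MP_f1a348_lc.TO

end

section

/-! Step MHALT. -/

set_option autoImplicit false
set_option linter.unusedSectionVars false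

namespace Pool.Agent.P.MP_f1a348_lc.TO

open Pool.Agent.Lib.Helper47 Pool.Agent.P.MP_f1a348_lc.GI

namespace MHALT

theorem fold (f : Q → Res) (K : List Q) (L : List Q) (hL : ∀ t ∈ L, t ∈ K) (s : Tb)
    (h1 : (s.map Prod.fst).Nodup) (h2 : ∀ e ∈ s, e.1 ∈ K ∧ e.2 = f e.1) :
    let tb : Tb := L.foldl (fun s t => bif s.any (fun e => e.1 == t) then s else (t, f t) :: s) s
    (tb.map Prod.fst).Nodup ∧ (∀ e ∈ tb, e.1 ∈ K ∧ e.2 = f e.1) ∧ (∀ e ∈ s, e ∈ tb) ∧
      ∀ t ∈ L, ∃ e ∈ tb, e.1 = t := by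
  induction L generalizing s with
  | nil => exact ⟨h1, h2, fun _ h => h, fun _ h => by simp at h⟩
  | cons t L ih =>
    have hL' : ∀ u ∈ L, u ∈ K := fun u hu => hL u (List.mem_cons_of_mem _ hu)
    rw [List.foldl_cons]
    cases hc : s.any (fun e => e.1 == t)
    · have hn : t ∉ s.map Prod.fst := fun h => by
        obtain ⟨e, e1, e2⟩ := List.mem_map.1 h
        have : s.any (fun e => e.1 == t) = true := List.any_eq_true.2 ⟨e, e1, by simp [e2]⟩
        rw [hc] at this; cases this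
      obtain ⟨a1, a2, a3, a4⟩ := ih hL' ((t, f t) :: s) (List.nodup_cons.2 ⟨hn, h1⟩) fun e he => by
        rcases List.mem_cons.1 he with rfl | he
        · exact ⟨hL t (by simp), rfl⟩
        · exact h2 e he
      refine ⟨a1, a2, fun e he => a3 e (List.mem_cons_of_mem _ he), fun u hu => ?_⟩
      rcases List.mem_cons.1 hu with rfl | hu
      · exact ⟨_, a3 _ List.mem_cons_self, rfl⟩
      · exact a4 u hu
    · obtain ⟨a1, a2, a3, a4⟩ := ih hL' s h1 h2
      refine ⟨a1, a2, a3, fun u hu => ?_⟩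
      rcases List.mem_cons.1 hu with rfl | hu
      · obtain ⟨e, e1, e2⟩ := List.any_eq_true.1 hc
        exact ⟨e, a3 e e1, by simpa using e2⟩
      · exact a4 u hu

end MHALT

theorem p_MHALT (hMRECOK : S_MRECOK) (hMCALL : S_MCALL) (hMNODE : S_MNODE) (hMINV : S_MINV) :
    S_MHALT := by
  obtain ⟨d0, hI⟩ := hMINV
  intro tr cls htr hcls p M hT d
  have I := hI tr cls htr hcls p M
  have ok := hMRECOK _ _ _ _ _ (mainR tr cls) p _ _
    (fun q r => ∀ o, r = some o → OA M q o) I.ini I.call I.upd I.fin I.out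
  induction d with
  | zero => intro q _ h; omega
  | succ d ih =>
    intro q hq hd
    have hc := (hMCALL cls hcls p M q hq).1
    obtain ⟨a1, a2, -, a4⟩ := MHALT.fold ((mainR tr cls).ev p d) (calls cls p q) (calls cls p q)
      (fun _ h => h) [] List.nodup_nil (fun _ h => by simp at h)
    refine (hMNODE tr cls htr hcls p M q _ hq ⟨a1, fun e he => ⟨(a2 e he).1, fun o ho => ?_⟩⟩).2
      hT ?_
    · exact ok d e.1 (hc _ (a2 e he).1).1 o ((a2 e he).2 ▸ ho)
    · rw [full, Bool.and_eq_true, List.all_eq_true, List.all_eq_true]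
      refine ⟨fun e he => ?_, fun t ht => ?_⟩
      · rw [(a2 e he).2, Option.isSome_iff_ne_none]
        have := hc _ (a2 e he).1
        exact ih _ this.1 (by omega)
      · obtain ⟨e, e1, e2⟩ := a4 t ht
        exact List.any_eq_true.2 ⟨e, e1, by simp [e2]⟩

end Pool.Agent.P.MP_f1a348_lc.TO

end

section

/-! Step MKER. -/

set_option autoImplicit false
set_option linter.unusedSectionVars false

namespace Pool.Agent.P.MP_f1a348_lc.TO

open Pool.Agent.Lib.Helper47 Pool.Agent.P.MP_f1a348_lc.GI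

namespace MKER

theorem did (A : List ℕ) (E : List (ℕ × ℕ)) : DIso id A E A E :=
  ⟨Set.bijOn_id _, fun _ _ _ _ => Iff.rfl⟩

theorem inv_fix {g : U} {v w : ℕ} (h : g.app v = w) : g⁻¹.app w = v := by
  rw [← h, FP.app_inv_app]

theorem mem_autG {tb : Tb} {E : List (ℕ × ℕ)} {a : PD} {s : U} : s ∈ autG tb E a ↔
    ∃ x ∈ a, ∃ c, look tb (x.2, E, x.2, E) = some c ∧ s ∈ c.2 := by
  unfold autG
  rw [List.mem_flatMap]
  refine exists_congr fun x => and_congr_right fun _ => ?_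
  cases look tb (x.2, E, x.2, E) <;> simp

end MKER

theorem p_MKER (hMAUT : S_MAUT) :
    S_MKER := by
  obtain ⟨-, hsup, -, -, -, -, hcon, -, -, haut⟩ := hMAUT
  intro M tb E D N a ha hD hO
  refine ⟨fun s hs => ?_, fun u hu ho => ?_⟩
  · obtain ⟨x, hx, c, hc, hs⟩ := MKER.mem_autG.1 hs
    have hP := (hO x hx).1.toPS
    have h1 : Sup x.2 s := hP.sup c hc s hs
    have h2 : Sup N s := fun v hv => h1 v fun h => hv ((ha.cover v).2 ⟨x, hx, h⟩)
    refine ⟨h2, fun d hd => h2 d (hD d hd), fun w hw => ⟨w, hw, (one_smul _ _).symm, ?_⟩⟩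
    by_cases e : w = x
    · rw [hc] at hP
      rw [e]
      exact (haut _ c hP).2 s (mem_gen hs)
    · exact hcon _ _ _ _ _ _ (MKER.did _ _) fun z hz => h1 z fun h => e (ha.disj w hw x hx z hz h)
  have k1 : ∀ x ∈ a, ∀ φ, DIso φ x.2 E x.2 E →
      ∃ y ∈ gen (autG tb E a), Sup x.2 y ∧ ∀ z ∈ x.2, y.app z = φ z := by
    intro x hx φ hφ
    obtain ⟨g, ⟨c, hc, g1⟩, g2⟩ := (hO x hx).1.cov φ hφ
    obtain ⟨g', ⟨c', hc', g3⟩, g4⟩ := (hO x hx).1.cov id (MKER.did _ _)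
    obtain rfl : c = c' := Option.some.inj (hc.symm.trans hc')
    have h1 : g'⁻¹ * g ∈ gen c.2 := by
      have := (gen c.2).mul_mem ((gen c.2).inv_mem g3) g1
      simpa [mul_assoc] using this
    refine ⟨_, gen_mono (fun s hs => MKER.mem_autG.2 ⟨x, hx, c, hc, hs⟩) h1,
      hsup _ _ ((hO x hx).1.sup c hc) _ h1, fun z hz => ?_⟩
    rw [FP.app_mul, g2 z hz]
    exact MKER.inv_fix (g4 _ (hφ.bij.mapsTo hz))
  have k2 : ∀ l : PD, (∀ x ∈ l, x ∈ a) → ∀ u : U, (∀ v, (∀ x ∈ l, v ∉ x.2) → u.app v = v) →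
      (∀ x ∈ a, DIso u.app x.2 E x.2 E) → u ∈ gen (autG tb E a) := by
    intro l
    induction l with
    | nil =>
      intro _ u h1 _
      rw [show u = 1 from FP.ext fun v => h1 v (by simp)]
      exact Subgroup.one_mem _
    | cons x l ih =>
      intro hl u h1 h2
      have hx := hl x List.mem_cons_self
      obtain ⟨y, y1, y2, y3⟩ := k1 x hx _ (h2 x hx)
      rw [← Subgroup.mul_mem_cancel_left _ (Subgroup.inv_mem _ y1)]
      refine ih (fun w hw => hl w (List.mem_cons_of_mem _ hw)) _ (fun v hv => ?_) fun w hw => ?_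
      · refine MKER.inv_fix ?_
        by_cases e : v ∈ x.2
        · exact y3 v e
        · exact (y2 v e).trans (h1 v (List.forall_mem_cons.2 ⟨e, hv⟩)).symm
      · by_cases e : w = x
        · rw [e]
          exact hcon _ _ _ _ _ _ (MKER.did _ _) fun z hz => MKER.inv_fix (y3 z hz)
        · exact hcon _ _ _ _ _ _ (h2 w hw) fun z hz => MKER.inv_fix
            (y2 _ fun h => e (ha.disj w hw x hx _ ((h2 w hw).bij.mapsTo hz) h))
  refine k2 a (fun _ h => h) u (fun v hv => ?_) fun x hx => ?_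
  · by_cases e : v ∈ D
    · exact ho.eq v e
    · refine hu v fun h => (List.mem_append.1 h).elim e fun h => ?_
      obtain ⟨x, hx, h⟩ := (ha.cover v).1 h
      exact hv x hx h
  · obtain ⟨w, hw, e, h⟩ := ho.fwd x hx
    rwa [ha.inj w hw x hx (e.trans (one_smul _ _))] at h

end Pool.Agent.P.MP_f1a348_lc.TO

end

section

/-! Step MPIN. -/

set_option autoImplicit false
set_option linter.unusedSectionVars false

namespace Pool.Agent.P.MP_f1a348_lc.TO

open Pool.Agent.Lib.Helper47 Pool.Agent.P.MP_f1a348_lc.GI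

namespace MPIN

/-- the state after a layer -/
def St (M : ℕ) (A : List ℕ) (c : Co) : Prop :=
  (∀ s ∈ c.2, Sup A s) ∧ NoInv (gen c.2) ∧ SmC M c

theorem bind {R : Res} {f : Co → Res} {P : Co → Prop} {P' : Option Co → Prop}
    {Φ : (ℕ → ℕ) → Prop} {A A' : List ℕ} {H : Prop} (h0 : P' none)
    (h1 : (∀ r, R = some r → (∀ c, r = some c → P c) ∧ ∀ φ, Φ φ → Cov A φ r) ∧ (H → R ≠ none))
    (h2 : ∀ c, P c → (∀ r, f c = some r → P' r ∧ ∀ φ, Φ φ → Cov A φ (some c) → Cov A' φ r) ∧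
      (H → f c ≠ none)) :
    (∀ r, bindR R f = some r → P' r ∧ ∀ φ, Φ φ → Cov A' φ r) ∧ (H → bindR R f ≠ none) := by
  rcases R with _ | _ | c
  · exact ⟨fun r hr => by simp [bindR] at hr, fun h => absurd rfl (h1.2 h)⟩
  · refine ⟨fun r hr => ?_, fun _ => by simp [bindR]⟩
    obtain rfl : none = r := by simpa [bindR] using hr
    refine ⟨h0, fun φ hφ => ?_⟩
    obtain ⟨g, ⟨c, hc, -⟩, -⟩ := (h1.1 none rfl).2 φ hφ
    cases hc
  · obtain ⟨a1, a2⟩ := h1.1 (some c) rfl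
    obtain ⟨b1, b2⟩ := h2 c (a1 c rfl)
    exact ⟨fun r hr => ⟨(b1 r hr).1, fun φ hφ => (b1 r hr).2 φ hφ (a2 φ hφ)⟩, b2⟩

theorem smv {M : ℕ} {A B : List ℕ} (h : SmV M B) (hs : A.Sublist B) : SmV M A :=
  ⟨hs.length_le.trans h.1, fun x hx => h.2 x (hs.subset hx)⟩

theorem wl {p : Par} {M : ℕ} {q : Q} (h : OQ p M q) (hl : q.1.length = q.2.2.1.length) :
    WLPre p q.1 q.2.2.1 :=
  ⟨h.pre.na, h.pre.nb, hl, h.pre.lev, le_trans (le_trans (Nat.pow_le_pow_left (by omega) _)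
    (Nat.pow_le_pow_right (by omega) (by omega))) h.pre.big⟩

theorem cor (hMLAB : S_MLAB) (hMPDL : S_MPDL) {cls : Cls} (hw : WLSpec cls) {p : Par} {M : ℕ}
    {q : Q} {T : List ℕ} (κ : ℕ) {φ : ℕ → ℕ} (h : OQ p M q) (hl : q.1.length = q.2.2.1.length)
    (hT : ∀ x ∈ T, x ∈ q.1) (hT2 : T.length + 2 ≤ p.2.length)
    (hφ : DIso φ q.1 q.2.1 q.2.2.1 q.2.2.2) (i : ℕ) :
    Cor φ (lay cls p q false T κ i) (lay cls p q true (T.map φ) κ i) := by
  induction i with
  | zero => intro y; simp [lay]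
  | succ i ih =>
    have hs := (hMPDL cls hw p M q false T κ i h hl).2.2.2.1
    have := (hMLAB cls hw p q.1 q.2.1 q.2.2.1 q.2.2.2 φ T _ _ κ (wl h hl) hφ hT hT2
      (fun x hx => hs.subset hx) ih).1
    unfold lay
    rw [Function.iterate_succ_apply', Function.iterate_succ_apply']
    exact this

theorem step (hMAUT : S_MAUT) (hMLIFT : S_MLIFT) (hMLAB : S_MLAB) (hMPDL : S_MPDL)
    {tr : TRIn → Res} {cls : Cls} (ht : TRSpec tr) (hw : WLSpec cls) {p : Par} {M : ℕ} {q : Q}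
    {tb : Tb} {T T' : List ℕ} {κ : ℕ} (h : OQ p M q) (hl : q.1.length = q.2.2.1.length)
    (hT : ∀ x ∈ T, x ∈ q.1) (hT2 : T.length + 2 ≤ p.2.length) (i : ℕ)
    (htb : TbOK M tb (callsL cls p q T κ T' i)) (c : Co)
    (hc : St M (lay cls p q false T κ i) c) :
    (∀ r, stepL tr cls p tb q T κ T' i c = some r →
      (∀ c', r = some c' → St M (lay cls p q false T κ (i + 1)) c') ∧
      ∀ φ, (DIso φ q.1 q.2.1 q.2.2.1 q.2.2.2 ∧ T' = T.map φ) →
        Cov (lay cls p q false T κ i) φ (some c) → Cov (lay cls p q false T κ (i + 1)) φ r) ∧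
    (HT tr p M → stepL tr cls p tb q T κ T' i c ≠ none) := by
  obtain ⟨a1, a2, a3, a4, a5, a6, a7, a8⟩ := hMPDL cls hw p M q false T κ i h hl
  obtain ⟨b1, b2, -⟩ := hMPDL cls hw p M q true T' κ i h hl
  have hv : SmV M (lay cls p q false T κ i) := smv h.sm.a a4
  have hlen : (lay cls p q false T κ i).length ≤ q.1.length := a4.length_le
  have hbig : ((lay cls p q false T κ i).length +
      (pdL cls p q false T κ (lay cls p q false T κ i)).length + 2) ^ 4 ≤ p.1.length := by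
    refine le_trans ?_ h.pre.big
    refine le_trans ?_ (Nat.pow_le_pow_right (by omega) (show 2 * 4 ≤ _ by omega))
    rw [pow_mul]
    refine Nat.pow_le_pow_left ?_ _
    nlinarith
  have lc : LC p M tb q.2.1 q.2.2.2 (lay cls p q false T κ i) (lay cls p q false T κ i) c _ _ _ _ :=
    ⟨a1, b1, fun x hx u hu v hv => h.pre.tour u ((a8 x hx).1.subset hu) v ((a8 x hx).1.subset hv),
      a7, hc.1, fun s hs x hx => (hMAUT.2.2.1 _ s (hMAUT.2.1 _ _ hc.1 s hs) x).2 hx, hc.2.1,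
      fun x hx => (a8 x hx).2.2, hbig, htb, hv, hv, hc.2.2, a2, b2⟩
  obtain ⟨l1, l2⟩ := hMLIFT tr ht p M tb _ _ _ _ c _ _ _ _ lc
  refine ⟨fun r hr => ?_, l2⟩
  obtain ⟨m1, m2⟩ := l1 r hr
  refine ⟨fun c' hc' => ?_, ?_⟩
  · obtain ⟨n1, n2, n3⟩ := m1 c' hc'
    exact ⟨fun s hs v hv => n1 s hs v fun hh => hv ((a6 v).2 hh), n2, n3⟩
  · rintro φ ⟨hφ, rfl⟩ ⟨g, ⟨c0, e0, hg⟩, hgφ⟩
    cases e0
    have hsub : ∀ x ∈ lay cls p q false T κ i ++ new cls p q false T κ (lay cls p q false T κ i),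
        x ∈ q.1 := fun x hx => (List.mem_append.1 hx).elim (fun h => a4.subset h)
          fun h => a5.subset h
    obtain ⟨g', k1, k2⟩ := m2 φ g hg hgφ (hφ.bij.injOn.mono hsub)
      ((hMLAB cls hw p q.1 q.2.1 q.2.2.1 q.2.2.2 φ T _ _ κ (wl h hl) hφ hT hT2
        (fun x hx => a4.subset hx) (cor hMLAB hMPDL hw κ h hl hT hT2 hφ i)).2 g hgφ)
    exact ⟨g', k1, fun x hx => k2 x ((a6 x).1 hx)⟩

end MPIN

theorem p_MPIN (hMAUT : S_MAUT) (hMLIFT : S_MLIFT) (hMFIN : S_MFIN) (hMLAB : S_MLAB) (hMPDL : S_MPDL) :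
    S_MPIN := by
  intro tr cls ht hw p M q tb T T' κ h hl hT hT2 h3 htb
  have st := fun i (hi : i < 3) =>
    MPIN.step hMAUT hMLIFT hMLAB hMPDL ht hw (tb := tb) (T' := T') (κ := κ) h hl hT hT2 i (htb i hi)
  have c0 : MPIN.St M (lay cls p q false T κ 0) (1, []) := by
    refine ⟨fun s hs => by simp at hs, fun g hg _ => ?_,
      fun v _ => rfl, fun s hs => by simp at hs, by simp⟩
    rwa [gen_nil, Subgroup.mem_bot] at hg
  have s0 : (∀ r, stepL tr cls p tb q T κ T' 0 (1, []) = some r →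
      (∀ c', r = some c' → MPIN.St M (lay cls p q false T κ 1) c') ∧
      ∀ φ, (DIso φ q.1 q.2.1 q.2.2.1 q.2.2.2 ∧ T' = T.map φ) →
        Cov (lay cls p q false T κ 1) φ r) ∧
      (HT tr p M → stepL tr cls p tb q T κ T' 0 (1, []) ≠ none) := by
    obtain ⟨u1, u2⟩ := st 0 (by omega) _ c0
    refine ⟨fun r hr => ⟨(u1 r hr).1, fun φ hφ => (u1 r hr).2 φ hφ ?_⟩, u2⟩
    exact ⟨1, ⟨_, rfl, by simp [cset]⟩, fun x hx => by simp [lay] at hx⟩
  have s1 := MPIN.bind (fun _ hc => by cases hc) s0 (st 1 (by omega))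
  have s2 := MPIN.bind (fun _ hc => by cases hc) s1 (st 2 (by omega))
  have hs := (hMPDL cls hw p M q false T κ 3 h hl).2.2.2.1
  have s3 := MPIN.bind (f := finish tr p q) (A' := q.1)
    (P' := fun r => PS q r ∧ ∀ c, r = some c → Sup (List.range M) c.1)
    ⟨⟨fun g ⟨c, hc, _⟩ => (by cases hc), fun _ hc => (by cases hc), fun _ hc => (by cases hc)⟩,
      fun _ hc => (by cases hc)⟩ s2 fun c hc => by
      obtain ⟨f1, f2⟩ := hMFIN tr ht p M q c h
        (fun s hs' v hv => hc.1 s hs' v fun hh => hv (hs.subset hh)) hc.2.2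
      refine ⟨fun r hr => ?_, fun hh => f2 hh hc.2.1⟩
      obtain ⟨g1, g2, g3⟩ := f1 r hr
      refine ⟨⟨g1, g2⟩, ?_⟩
      rintro φ ⟨hφ, -⟩ ⟨g, k1, k2⟩
      exact g3 φ hφ ⟨g, k1, fun x hx => k2 x (h3 x hx)⟩
  refine ⟨fun r hr => ?_, s3.2⟩
  obtain ⟨⟨g1, g2⟩, g3⟩ := s3.1 r hr
  exact ⟨g1, g2, fun φ h1 h2 => g3 φ ⟨h1, h2⟩⟩

end Pool.Agent.P.MP_f1a348_lc.TO

end
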