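import Pool.Agent.P.MP_f1a348_lc.TO.MIface

section

/-! Step MARI. -/

set_option autoImplicit false
set_option linter.unusedSectionVars false

namespace Pool.Agent.P.MP_f1a348_lc.TO

open Pool.Agent.Lib.Helper47 Pool.Agent.P.MP_f1a348_lc.GI

namespace MARI

theorem mono (K W G n0 : ℕ) (hW : 1 ≤ W) (hG : 1 ≤ G) : Monotone (gam K W G n0) := by
  intro s t h
  unfold gam
  exact Nat.mul_le_mul (Nat.pow_le_pow_right hW (Nat.log_mono_right h))
    (Nat.pow_le_pow_right hG (min_le_min_right _ h))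

theorem one_le (K W G n0 : ℕ) (hW : 1 ≤ W) (hG : 1 ≤ G) (s : ℕ) : 1 ≤ gam K W G n0 s := by
  unfold gam
  exact Nat.mul_pos (Nat.pow_pos hW) (Nat.pow_pos hG)

theorem fin3 (n t s a b : ℕ) (hn : 2 ≤ n) (hA : 400 * n ^ (t + 2) ≤ b)
    (hB : s ^ 5 * (400 * n ^ (t + 2) * a) ≤ n ^ 5 * b) :
    1 + n ^ t * (3 * (2 * n ^ 2 + 2 * n ^ 2 * s ^ 5 * (64 * a))) ≤ 16 * n ^ 7 * b := by
  have h1 : 1 ≤ n ^ (t + 2) := Nat.pow_pos (by omega)
  have h5 : n ^ 5 ≤ n ^ 7 := Nat.pow_le_pow_right (by omega) (by omega)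
  have h7 : 1 ≤ n ^ 7 := Nat.pow_pos (by omega)
  have e : n ^ t * (3 * (2 * n ^ 2 + 2 * n ^ 2 * s ^ 5 * (64 * a))) =
      6 * n ^ (t + 2) + 384 * (s ^ 5 * (n ^ (t + 2) * a)) := by ring
  have e2 : s ^ 5 * (400 * n ^ (t + 2) * a) = 400 * (s ^ 5 * (n ^ (t + 2) * a)) := by ring
  have h8 : n ^ 5 * b ≤ n ^ 7 * b := Nat.mul_le_mul_right _ h5
  have h9 : b ≤ n ^ 7 * b := Nat.le_mul_of_pos_left _ h7
  rw [e, Nat.mul_assoc 16]
  rw [e2] at hB
  omega

end MARI

theorem p_MARI :
    S_MARI := by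
  intro K M n0 hK n hn hM Γ
  have hW : 1 ≤ 400 * (M + 1) ^ 3 := Nat.mul_pos (by omega) (Nat.pow_pos (by omega))
  have hG : 1 ≤ 400 * (n0 + 1) ^ (n0 + 2) := Nat.mul_pos (by omega) (Nat.pow_pos (by omega))
  have hm : Monotone Γ := MARI.mono _ _ _ _ hW hG
  have h1 : ∀ s, 1 ≤ Γ s := MARI.one_le _ _ _ _ hW hG
  have h27 : n ^ 2 ≤ n ^ 7 := Nat.pow_le_pow_right (by omega) (by omega)
  have h7 : 1 ≤ n ^ 7 := Nat.pow_pos (by omega)
  have h9 : n ^ 7 ≤ n ^ 7 * Γ n := Nat.le_mul_of_pos_right _ (h1 n)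
  refine ⟨hm, h1, ?_, ?_, ?_⟩
  · have e : 2 * n ^ 2 * n ^ 5 * (16 * Γ n) = 32 * (n ^ 7 * Γ n) := by ring
    rw [e, Nat.mul_assoc 64]
    omega
  · intro r s hr hs
    have a1 : (2 * r) ^ 7 * Γ r ≤ n ^ 7 * Γ n :=
      Nat.mul_le_mul (Nat.pow_le_pow_left hr 7) (hm (by omega))
    have a2 : n ^ 2 * ((2 * s) ^ 5 * Γ s) ≤ n ^ 2 * (n ^ 5 * Γ n) :=
      Nat.mul_le_mul_left _ (Nat.mul_le_mul (Nat.pow_le_pow_left hs 5) (hm (by omega)))
    have e1 : (2 * r) ^ 7 * Γ r = 128 * (r ^ 7 * Γ r) := by ring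
    have e2 : n ^ 2 * ((2 * s) ^ 5 * Γ s) = 32 * (n ^ 2 * s ^ 5 * Γ s) := by ring
    have e3 : n ^ 2 * (n ^ 5 * Γ n) = n ^ 7 * Γ n := by ring
    have e4 : 2 * n ^ 2 * s ^ 5 * (64 * Γ s) = 128 * (n ^ 2 * s ^ 5 * Γ s) := by ring
    rw [e1] at a1
    rw [e2, e3] at a2
    rw [e4, Nat.mul_assoc 64, Nat.mul_assoc 16]
    omega
  · rintro t s (⟨ht, hKt, hKs⟩ | ⟨hn0, ht, hs⟩)
    · have hWt : 400 * n ^ (t + 2) ≤ (400 * (M + 1) ^ 3) ^ t := by
        rw [mul_pow, ← pow_mul]
        refine Nat.mul_le_mul ?_ ?_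
        · exact Nat.le_self_pow (by omega) 400
        · exact (Nat.pow_le_pow_right (by omega) (by omega : t + 2 ≤ 3 * t)).trans
            (Nat.pow_le_pow_left (by omega) _)
      have hlog : t ≤ Nat.log K n := Nat.le_log_of_pow_le (by omega) hKt
      have hA : 400 * n ^ (t + 2) ≤ Γ n := by
        refine hWt.trans ((Nat.pow_le_pow_right hW hlog).trans ?_)
        exact Nat.le_mul_of_pos_right _ (Nat.pow_pos hG)
      refine MARI.fin3 n t s _ _ hn hA ?_
      rcases Nat.eq_zero_or_pos s with rfl | hs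
      · simp
      have hKp : 1 ≤ K ^ t := Nat.pow_pos (by omega)
      have hsn : s ≤ n := (Nat.le_mul_of_pos_left s hKp).trans hKs
      refine Nat.mul_le_mul (Nat.pow_le_pow_left hsn 5) ?_
      have hl : t + Nat.log K s ≤ Nat.log K n := by
        refine Nat.le_log_of_pow_le (by omega) ?_
        rw [pow_add]
        exact (Nat.mul_le_mul_left _ (Nat.pow_log_le_self K (by omega))).trans hKs
      refine (Nat.mul_le_mul_right _ hWt).trans ?_
      change _ * (_ * _) ≤ _ * _
      rw [← Nat.mul_assoc, ← pow_add]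
      exact Nat.mul_le_mul (Nat.pow_le_pow_right hW hl)
        (Nat.pow_le_pow_right hG (min_le_min_right _ hsn))
    · have hGt : 400 * n ^ (t + 2) ≤ 400 * (n0 + 1) ^ (n0 + 2) :=
        Nat.mul_le_mul_left _ ((Nat.pow_le_pow_left (by omega) _).trans
          (Nat.pow_le_pow_right (by omega) (by omega)))
      have hB : 400 * n ^ (t + 2) * Γ s ≤ Γ n := by
        refine (Nat.mul_le_mul_right _ hGt).trans ?_
        change _ * (_ * _) ≤ _ * _
        rw [Nat.mul_left_comm, ← pow_succ']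
        exact Nat.mul_le_mul (Nat.pow_le_pow_right hW (Nat.log_mono_right hs.le))
          (Nat.pow_le_pow_right hG (by omega))
      exact MARI.fin3 n t s _ _ hn ((Nat.le_mul_of_pos_right _ (h1 s)).trans hB)
        (Nat.mul_le_mul (Nat.pow_le_pow_left hs.le 5) hB)

end Pool.Agent.P.MP_f1a348_lc.TO

end

section

/-! Step MCNT. -/

set_option autoImplicit false
set_option linter.unusedSectionVars false

namespace Pool.Agent.P.MP_f1a348_lc.TO

open Pool.Agent.Lib.Helper47 Pool.Agent.P.MP_f1a348_lc.GI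

namespace MCNT

theorem fold {C Q S A : Type} (u : S → Q → S) (f : Q → ℕ) (l : List Q) (s : S) (m : ℕ) :
    (l.foldl (fun (x : S × ℕ) t => (u x.1 t, x.2 + f t)) (s, m)).2 = m + (l.map f).sum := by
  induction l generalizing s m with
  | nil => simp
  | cons a l ih => rw [List.foldl_cons, ih, List.map_cons, List.sum_cons, add_assoc]

theorem cnt_succ (tr : TRIn → Res) (cls : Cls) (p : Par) (d : ℕ) (q : Q) :
    (mainR tr cls).cnt p (d + 1) q = 1 + ((calls cls p q).map ((mainR tr cls).cnt p d)).sum := by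
  rw [Rec.cnt]
  exact congrArg (1 + ·) ((fold (C := Unit) (A := Unit) (fun s t => (mainR tr cls).upd p q t s
    ((mainR tr cls).ev p d t)) ((mainR tr cls).cnt p d) _ _ 0).trans (zero_add _))

theorem flat {α β : Type} (l : List α) (g : α → List β) (f : β → ℕ) (B : ℕ)
    (h : ∀ x ∈ l, ((g x).map f).sum ≤ B) : ((l.flatMap g).map f).sum ≤ l.length * B := by
  induction l with
  | nil => simp
  | cons a l ih =>
    have h1 := h a (by simp)
    have h2 := ih fun x hx => h x (by simp [hx])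
    rw [List.flatMap_cons, List.map_append, List.sum_append, List.length_cons, add_mul]
    omega

theorem mem_tc {E F : List (ℕ × ℕ)} {a b : PD} {t : Q} (h : t ∈ tcalls E F a b) :
    ∃ x ∈ a, t = (x.2, E, t.2.2.1, t.2.2.2) := by
  obtain ⟨x, hx, h⟩ := List.mem_flatMap.1 h
  refine ⟨x, hx, ?_⟩
  rcases List.mem_append.1 h with h | h <;> obtain ⟨y, -, rfl⟩ := List.mem_map.1 h <;> rfl

theorem gam_pos (K M n0 s : ℕ) :
    1 ≤ gam K (400 * (M + 1) ^ 3) (400 * (n0 + 1) ^ (n0 + 2)) n0 s := by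
  unfold gam
  exact Nat.succ_le_of_lt (by positivity)

end MCNT

open MCNT in
theorem p_MCNT (hMPDL : S_MPDL) (hMPDI : S_MPDI) (hMIMP : S_MIMP) (hMPLAN : S_MPLAN) (hMGAIN : S_MGAIN) (hMCALL : S_MCALL) (hMTC : S_MTC) (hMARI : S_MARI) :
    S_MCNT := by
  intro hG K hK
  obtain ⟨j0, n0, hg⟩ := hMGAIN hG K hK
  refine ⟨j0, n0, fun tr cls hc p M hj => ?_⟩
  have g1 := gam_pos K M n0
  have ari := hMARI K M n0 hK
  dsimp only at ari
  generalize gam K (400 * (M + 1) ^ 3) (400 * (n0 + 1) ^ (n0 + 2)) n0 = Γ at *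
  have one : ∀ q : Q, q.1 ≠ [] → 1 ≤ 16 * q.1.length ^ 7 * Γ q.1.length := fun q h => by
    have := List.length_pos_iff.2 h
    have := g1 q.1.length
    exact Nat.succ_le_of_lt (by positivity)
  have up : ∀ n, 16 * n ^ 7 * Γ n ≤ 64 * n ^ 7 * Γ n := fun n => by gcongr; omega
  have key : ∀ d q, OQ p M q →
      (q.1.length ≠ q.2.2.1.length ∨ q.1.length ≤ 1 → (mainR tr cls).cnt p d q ≤ 1) ∧
      (q.1 ≠ [] → (mainR tr cls).cnt p d q ≤ 64 * q.1.length ^ 7 * Γ q.1.length) ∧
      (q.1 ≠ [] → hom cls p q = true →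
        (mainR tr cls).cnt p d q ≤ 16 * q.1.length ^ 7 * Γ q.1.length) := by
    intro d
    induction d with
    | zero => exact fun q _ => ⟨fun _ => le_rfl, fun h => (one q h).trans (up _), fun h _ => one q h⟩
    | succ d ih =>
      intro q hq
      rw [cnt_succ]
      generalize (mainR tr cls).cnt p d = f at *
      by_cases h0 : q.1.length = q.2.2.1.length ∧ 2 ≤ q.1.length
      swap
      · have : calls cls p q = [] := by
          unfold calls
          rw [Bool.cond_eq_ite, if_neg (by simpa using h0)]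
        rw [this]
        exact ⟨fun _ => le_rfl, fun h => (one q h).trans (up _), fun h _ => one q h⟩
      obtain ⟨h1, h2⟩ := h0
      obtain ⟨mo, -, a1, a2, a3⟩ := ari _ h2 hq.sm.a.1
      have hcall := (hMCALL cls hc p M q hq).1
      have ec : calls cls p q = (plan cls p q).1.elim
          (callsP cls p q (plan cls p q).2.1 (plan cls p q).2.2) (callsI cls p q) := by
        unfold calls
        rw [Bool.cond_eq_ite, if_pos (by simpa using ⟨h1, h2⟩)]
      have nd : ∀ b, (sV q b).Nodup ∧ (sV q b).length ≤ q.1.length := fun b => by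
        cases b
        exacts [⟨hq.pre.na, le_rfl⟩, ⟨hq.pre.nb, h1.ge⟩]
      have tc : ∀ (N N' : List ℕ) (a b : PD) (s w : ℕ), IsPD N a → IsPD N' b →
          N.Sublist (sV q false) → N'.Sublist (sV q true) →
          (∀ t ∈ tcalls q.2.1 q.2.2.2 a b, t ∈ calls cls p q) → (∀ x ∈ a, x.2.length ≤ s) →
          (64 * Γ s ≤ w ∨ 16 * Γ s ≤ w ∧ ∀ x ∈ a, ∀ B' F', B'.Nodup → x.2.length = B'.length →
            hom cls p (x.2, q.2.1, B', F') = true) →
          ((tcalls q.2.1 q.2.2.2 a b).map f).sum ≤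
            2 * q.1.length ^ 2 + 2 * q.1.length ^ 2 * s ^ 5 * w := by
        intro N N' a b s w pa pb sa sb hs hl hw
        refine hMTC _ _ N N' a b _ w f pa pb ((nd _).1.sublist sa) ((nd _).1.sublist sb)
          (sa.length_le.trans (nd _).2) (sb.length_le.trans (nd _).2)
          (fun t ht h => (ih t (hcall t (hs t ht)).1).1 (.inl h)) (fun t ht h => ?_) s hl
        obtain ⟨b1, b2, -⟩ := hcall t (hs t ht)
        obtain ⟨x, hx, e⟩ := mem_tc ht
        have e1 : t.1 = x.2 := congrArg Prod.fst e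
        have b3 : Γ t.1.length ≤ Γ s := mo (e1 ▸ hl x hx)
        rcases hw with hw | ⟨hw, hh⟩
        · refine ((ih t b1).2.1 b2).trans ?_
          rw [mul_comm 64, mul_assoc]
          exact Nat.mul_le_mul_left _ (by omega)
        · refine ((ih t b1).2.2 b2 (e ▸ hh x hx _ _ b1.pre.nb (e1 ▸ h))).trans ?_
          rw [mul_comm 16, mul_assoc]
          exact Nat.mul_le_mul_left _ (by omega)
      refine ⟨fun h => by omega, ?_⟩
      obtain ⟨o, T, κ, hp⟩ : ∃ o T κ, plan cls p q = (o, T, κ) := ⟨_, _, _, rfl⟩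
      rw [hp] at ec
      rcases o with _ | c
      · obtain ⟨-, -, c1, c2, -, c3, c4⟩ := hMPLAN cls hc p M q T κ hq h1 h2 hp
        have ec' : calls cls p q = callsP cls p q T κ := ec
        have tl : ∀ s w, ∀ T' ∈ tuples p.1 q.2.2.1 T, ∀ i < 3,
            (∀ x ∈ pdL cls p q false T κ (lay cls p q false T κ i), x.2.length ≤ s) →
            (64 * Γ s ≤ w ∨ 16 * Γ s ≤ w ∧ ∀ x ∈ pdL cls p q false T κ (lay cls p q false T κ i),
              ∀ B' F', B'.Nodup → x.2.length = B'.length → hom cls p (x.2, q.2.1, B', F') = true) →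
            ((callsL cls p q T κ T' i).map f).sum ≤
              2 * q.1.length ^ 2 + 2 * q.1.length ^ 2 * s ^ 5 * w := by
          intro s w T' hT i hi hl hw
          have d1 := hMPDL cls hc p M q false T κ i hq h1
          have d2 := hMPDL cls hc p M q true T' κ i hq h1
          refine tc _ _ _ _ s w d1.1 d2.1 d1.2.2.2.2.1 d2.2.2.2.2.1 (fun t ht => ?_) hl hw
          rw [ec']
          refine List.mem_flatMap.2 ⟨T', hT, ?_⟩
          simp only [List.mem_append]
          interval_cases i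
          exacts [.inl ht, .inr (.inl ht), .inr (.inr ht)]
        cases hh : hom cls p q
        · obtain ⟨rfl, d1, d2, d3⟩ := c4 hh
          refine ⟨fun _ => le_trans (Nat.add_le_add_left ?_ 1) a1, fun _ h => by simp at h⟩
          have := tl _ _ [] (by simp [tuples]) 0 (by omega) (fun x hx => (c3 0 x hx).le)
            (.inr ⟨le_rfl, d3⟩)
          rw [ec']
          simpa [callsP, tuples, callsL, d1, d2, tcalls] using this
        · suffices h : 1 + ((calls cls p q).map f).sum ≤ 16 * q.1.length ^ 7 * Γ q.1.length from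
            ⟨fun _ => h.trans (up _), fun _ _ => h⟩
          obtain ⟨s, e1, e2⟩ : ∃ s, (1 ≤ T.length ∧ K ^ T.length ≤ q.1.length ∧
              K ^ T.length * s ≤ q.1.length ∨ q.1.length < n0 ∧ T.length ≤ q.1.length ∧
              s < q.1.length) ∧
              ∀ i, ∀ x ∈ pdL cls p q false T κ (lay cls p q false T κ i), x.2.length ≤ s := by
            rcases le_or_gt n0 q.1.length with h | h
            · obtain ⟨d1, d2⟩ := hg cls hc p M q T κ hq h1 hj h hh hp
              refine ⟨q.1.length / K ^ T.length, .inl ⟨d1, d2.trans c2, Nat.mul_div_le _ _⟩,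
                fun i x hx => (Nat.le_div_iff_mul_le (by positivity)).2 ?_⟩
              rw [mul_comm]
              exact (Nat.mul_le_mul_right _ d2).trans
                ((hMPDL cls hc p M q false T κ i hq h1).2.2.2.2.2.2.2 x hx).2.1
            · exact ⟨q.1.length - 1, .inr ⟨h, c1, by omega⟩, fun i x hx => by
                have := c3 i x hx; omega⟩
          refine le_trans (Nat.add_le_add_left ?_ 1) (a3 _ s e1)
          rw [ec']
          refine (flat _ _ f (3 * (2 * q.1.length ^ 2 + 2 * q.1.length ^ 2 * s ^ 5 * (64 * Γ s)))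
            fun T' hT => ?_).trans (Nat.mul_le_mul_right _ (h1 ▸ length_tuples_le _ _ _))
          have d0 := tl s _ T' hT 0 (by omega) (e2 0) (.inl le_rfl)
          have d1 := tl s _ T' hT 1 (by omega) (e2 1) (.inl le_rfl)
          have d2 := tl s _ T' hT 2 (by omega) (e2 2) (.inl le_rfl)
          simp only [List.map_append, List.sum_append]
          omega
      · suffices h : 1 + ((calls cls p q).map f).sum ≤ 16 * q.1.length ^ 7 * Γ q.1.length from
          ⟨fun _ => h.trans (up _), fun _ _ => h⟩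
        have ec' : calls cls p q = callsI cls p q c := ec
        obtain ⟨-, -, c1, c2, c3⟩ := hMIMP cls hc p M q c hq h1 (by rw [hp])
        refine le_trans (Nat.add_le_add_left ?_ 1)
          (a2 _ (q.1.length / 2) c2 (Nat.mul_div_le _ _))
        have d1 := (ih _ (hcall (quo cls p q c) (by rw [ec']; exact List.mem_cons_self)).1).2.1 c1
        have d2 := tc _ _ _ _ (q.1.length / 2) _ (hMPDI cls p M q false c hq).1
          (hMPDI cls p M q true c hq).1 (List.Sublist.refl _) (List.Sublist.refl _)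
          (fun t ht => by rw [ec']; exact List.mem_cons_of_mem _ ht)
          (fun x hx => by have := c3 x hx; omega) (.inl le_rfl)
        rw [ec', callsI, List.map_cons, List.sum_cons]
        exact Nat.add_le_add d1 d2
  intro d q hq
  have := g1 q.1.length
  by_cases h : q.1 = []
  · exact ((key d q hq).1 (.inr (by simp [h]))).trans (Nat.succ_le_of_lt (by positivity))
  · refine ((key d q hq).2.1 h).trans ?_
    gcongr
    omega

end Pool.Agent.P.MP_f1a348_lc.TO

end

section

/-! Step MNODE. -/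

set_option autoImplicit false
set_option linter.unusedSectionVars false

namespace Pool.Agent.P.MP_f1a348_lc.TO

open Pool.Agent.Lib.Helper47 Pool.Agent.P.MP_f1a348_lc.GI

namespace MNODE

theorem tbok {cls : Cls} {p : Par} {M : ℕ} {q : Q} {tb : Tb} (h : OS cls p M q tb)
    (hf : full cls p q tb = true) : TbOK M tb (calls cls p q) := by
  intro t ht
  simp only [full, Bool.and_eq_true, List.all_eq_true, List.any_eq_true] at hf
  obtain ⟨e0, he0, he1⟩ := hf.2 t ht
  cases e : tb.find? fun e => e.1 == t with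
  | none => exact absurd he1 (List.find?_eq_none.1 e e0 he0)
  | some x =>
    have h1 : x.1 = t := by simpa using List.find?_some e
    have h2 := List.mem_of_find?_eq_some e
    obtain ⟨o, ho⟩ := Option.isSome_iff_exists.1 (hf.1 x h2)
    have h3 : look tb t = o := by simp [look, e, ho]
    rw [h3, ← h1]
    exact (h.2 x h2).2 o ho

theorem zip_app {A B : List ℕ} {φ : ℕ → ℕ} (hl : A.length = B.length) (h1 : ¬ 2 ≤ A.length)
    (hφ : ∀ x ∈ A, φ x ∈ B) : ∀ x ∈ A, (FP.ofList (A.zip B)).app x = φ x := by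
  match A, B, hl, h1, hφ with
  | [], _, _, _, _ => simp
  | [a], [b], _, _, hφ =>
    intro x hx
    have e : x = a := by simpa using hx
    have e' : φ a = b := by simpa using hφ
    rw [e, e']
    exact FP.ofList_app (l := [(a, b)]) (p := (a, b)) (by simp) (by simp)
  | [_], [], hl, _, _ => simp at hl
  | [_], _ :: _ :: _, hl, _, _ => simp at hl
  | _ :: _ :: _, _, _, h1, _ => simp at h1

end MNODE

theorem p_MNODE (hMAUT : S_MAUT) (hMFIN : S_MFIN) (hMFP : S_MFP) (hMFI : S_MFI) :
    S_MNODE := by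
  intro tr cls htr hcls p M q tb hq hs
  by_cases hl : q.1.length = q.2.2.1.length
  · by_cases h2 : 2 ≤ q.1.length
    · have hb : Nat.ble 2 q.1.length = true := by rw [Nat.ble_eq]; exact h2
      have hbe : (q.1.length == q.2.2.1.length) = true := beq_iff_eq.2 hl
      cases hf : full cls p q tb with
      | false => simp [finM, hbe, hb, hf]
      | true =>
        have hT := MNODE.tbok hs hf
        simp only [calls, hbe, hb, Bool.and_self, cond_true] at hT
        simp only [finM, hbe, hb, hf, cond_true, forall_const]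
        rcases hp : plan cls p q with ⟨_ | c, T, κ⟩
        · rw [hp] at hT
          exact hMFP tr cls htr hcls p M q tb T κ hq hl h2 hp hT
        · rw [hp] at hT
          exact hMFI tr cls htr hcls p M q tb c hq hl (by rw [hp]) hT
    · have hb : Nat.ble 2 q.1.length = false := by
        rw [← Bool.not_eq_true, Nat.ble_eq]; exact h2
      have hbe : (q.1.length == q.2.2.1.length) = true := beq_iff_eq.2 hl
      simp only [finM, hbe, hb, cond_true, cond_false]
      have hsup : Sup (List.range M) (FP.ofList (q.1.zip q.2.2.1)) := fun v hv =>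
        FP.ofList_fix fun x hx => by
          have h3 := List.of_mem_zip (a := x.1) (b := x.2) hx
          have h4 := hq.sm.a.2 _ h3.1
          have h5 := hq.sm.b.2 _ h3.2
          rw [List.mem_range] at hv
          omega
      obtain ⟨h3, h4⟩ := hMFIN tr htr p M q (FP.ofList (q.1.zip q.2.2.1), []) hq (by simp)
        ⟨hsup, by simp, by simp⟩
      refine ⟨fun r hr => ?_, fun hH _ => h4 hH fun g hg _ => ?_⟩
      · obtain ⟨h5, h6, h7⟩ := h3 r hr
        exact ⟨⟨h5, fun φ hφ => h7 φ hφ ⟨_, ⟨_, rfl, by simp [cset]⟩,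
          MNODE.zip_app hl h2 fun x hx => hφ.bij.mapsTo hx⟩⟩, h6⟩
      · simpa [gen_nil] using hg
  · have hbe : (q.1.length == q.2.2.1.length) = false := by simpa using hl
    simp only [finM, hbe, cond_false]
    refine ⟨fun r hr => ?_, fun _ _ => by simp⟩
    obtain rfl : none = r := Option.some.inj hr
    refine ⟨⟨⟨fun g hg => ?_, by simp, by simp⟩, fun φ hφ => ?_⟩, by simp⟩
    · obtain ⟨c, hc, -⟩ := hg
      simp at hc
    · exact absurd (hMAUT.2.2.2.2.2.2.2.2.1 φ _ _ _ _ hq.pre.na hq.pre.nb hφ) hl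

end Pool.Agent.P.MP_f1a348_lc.TO

end

section

/-! Step MPDL. -/

set_option autoImplicit false
set_option linter.unusedSectionVars false

namespace Pool.Agent.P.MP_f1a348_lc.TO

open Pool.Agent.Lib.Helper47 Pool.Agent.P.MP_f1a348_lc.GI

namespace MPDL

theorem sV_nodup {p : Par} {M : ℕ} {q : Q} (h : OQ p M q) (b : Bool) : (sV q b).Nodup := by
  cases b
  · exact h.pre.na
  · exact h.pre.nb

theorem sV_sm {p : Par} {M : ℕ} {q : Q} (h : OQ p M q) (b : Bool) : SmV M (sV q b) := by
  cases b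
  · exact h.sm.a
  · exact h.sm.b

theorem sV_len {q : Q} (h : q.1.length = q.2.2.1.length) (b : Bool) :
    (sV q b).length = q.1.length := by
  cases b
  · rfl
  · exact h.symm

theorem col_le {cls : Cls} (hc : WLSpec cls) {p : Par} {M : ℕ} {q : Q} (h : OQ p M q)
    (hl : q.1.length = q.2.2.1.length) (b : Bool) (l : List ℕ) :
    cls (p, q, b, l) ≤ 2 * (M + 1) ^ M := by
  obtain ⟨A, E, B, F⟩ := q
  have hw : WLPre p A B := by
    refine ⟨h.pre.na, h.pre.nb, hl, h.pre.lev, le_trans ?_ h.pre.big⟩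
    exact (Nat.pow_le_pow_left (Nat.le_succ _) _).trans
      (Nat.pow_le_pow_right (Nat.succ_pos _) (Nat.le_add_right _ _))
  refine (hc.le p A E B F b l hw).trans (Nat.mul_le_mul_left 2 ?_)
  exact (Nat.pow_le_pow_left (Nat.succ_le_succ h.sm.a.1) _).trans
    (Nat.pow_le_pow_right (Nat.succ_pos _) h.lev)

theorem mem_lab {cls : Cls} {p : Par} {q : Q} {b : Bool} {T Z : List ℕ} {z : ℕ}
    {e : Option ℕ × ℕ} (he : e ∈ (lab cls p q b T Z z).val) :
    e = (none, 2 * cls (p, q, b, z :: T)) ∨ ∃ y ∈ Z, e = (some y, cls (p, q, b, z :: y :: T)) := by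
  rw [lab, Str.mem_mk, List.mem_cons, List.mem_map] at he
  rcases he with h | ⟨y, hy, h⟩
  · exact Or.inl h
  · exact Or.inr ⟨y, hy, h.symm⟩

theorem card_lab (cls : Cls) (p : Par) (q : Q) (b : Bool) (T Z : List ℕ) (z : ℕ) :
    (lab cls p q b T Z z).val.card ≤ Z.length + 1 := by
  have h := List.toFinset_card_le ((none, 2 * cls (p, q, b, z :: T)) ::
    Z.map fun y => ((some y : Option ℕ), cls (p, q, b, z :: y :: T)))
  rw [List.length_cons, List.length_map] at h
  exact h

theorem lay_succ (cls : Cls) (p : Par) (q : Q) (b : Bool) (T : List ℕ) (κ i : ℕ) :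
    lay cls p q b T κ (i + 1) = nxt cls p q b T κ (lay cls p q b T κ i) :=
  Function.iterate_succ_apply' _ _ _

theorem lay_sub (cls : Cls) (p : Par) (q : Q) (b : Bool) (T : List ℕ) (κ i : ℕ) :
    (lay cls p q b T κ i).Sublist (sV q b) := by
  cases i with
  | zero => exact List.nil_sublist _
  | succ n => rw [lay_succ]; exact List.filter_sublist

theorem new_sub (cls : Cls) (p : Par) (q : Q) (b : Bool) (T : List ℕ) (κ : ℕ) (Z : List ℕ) :
    (new cls p q b T κ Z).Sublist (sV q b) :=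
  List.filter_sublist.trans List.filter_sublist

theorem mem_nxt {cls : Cls} {p : Par} {q : Q} {b : Bool} {T : List ℕ} {κ : ℕ} {Z : List ℕ} {x : ℕ} :
    x ∈ nxt cls p q b T κ Z ↔ x ∈ sV q b ∧
      (x ∈ Z ∨ κ * (fib (sV q b) (lab cls p q b T Z) x).length ≤ (sV q b).length) := by
  rw [nxt, List.mem_filter, Bool.or_eq_true, List.contains_iff_mem, Nat.ble_eq]

theorem mem_new {cls : Cls} {p : Par} {q : Q} {b : Bool} {T : List ℕ} {κ : ℕ} {Z : List ℕ} {x : ℕ} :
    x ∈ new cls p q b T κ Z ↔ x ∈ nxt cls p q b T κ Z ∧ x ∉ Z := by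
  rw [new, List.mem_filter, Bool.not_eq_true', ← Bool.not_eq_true, List.contains_iff_mem]

end MPDL

open MPDL in
theorem p_MPDL (hMPARTS : S_MPARTS) :
    S_MPDL := by
  intro cls hc p M q b T κ i h hl
  have hV := sV_nodup h b
  have hS := sV_sm h b
  have hZ := lay_sub cls p q b T κ i
  rw [lay_succ]
  generalize lay cls p q b T κ i = Z at hZ ⊢
  have hN := new_sub cls p q b T κ Z
  obtain ⟨h1, h2, h3⟩ := hMPARTS (new cls p q b T κ Z) (lab cls p q b T Z) (hN.nodup hV) (by
    intro z _ e he hn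
    rcases mem_lab he with rfl | ⟨y, _, rfl⟩
    · exact even_two_mul _
    · cases hn)
  have hfib : ∀ z, (fib (new cls p q b T κ Z) (lab cls p q b T Z) z).Sublist
      (fib (sV q b) (lab cls p q b T Z) z) := fun z => hN.filter _
  have hfs : ∀ z, (fib (new cls p q b T κ Z) (lab cls p q b T Z) z).Sublist (sV q b) :=
    fun z => (hfib z).trans List.filter_sublist
  have hlen : (pdL cls p q b T κ Z).length ≤ (sV q b).length := h2.trans hN.length_le
  refine ⟨h1, ⟨hlen.trans hS.1, ?_⟩, hlen.trans (sV_len hl b).le, hZ, hN, ?_, ?_, ?_⟩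
  · intro x hx
    obtain ⟨z, _, rfl⟩ := (h3 x).1 hx
    refine ⟨⟨(hfs z).length_le.trans hS.1, fun y hy => hS.2 y ((hfs z).subset hy)⟩,
      (card_lab cls p q b T Z z).trans (Nat.succ_le_succ (hZ.length_le.trans hS.1)), ?_⟩
    intro e he
    rcases mem_lab he with rfl | ⟨y, hy, rfl⟩
    · refine ⟨?_, fun v hv => by cases hv⟩
      have := col_le hc h hl b (z :: T)
      dsimp only
      omega
    · refine ⟨?_, fun v hv => ?_⟩
      · have := col_le hc h hl b (z :: y :: T)
        dsimp only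
        omega
      · cases hv
        exact hS.2 _ (hZ.subset hy)
  · intro x
    rw [List.mem_append, mem_new]
    constructor
    · intro hx
      by_cases hz : x ∈ Z
      · exact Or.inl hz
      · exact Or.inr ⟨hx, hz⟩
    · rintro (hx | hx)
      · exact mem_nxt.2 ⟨hZ.subset hx, Or.inl hx⟩
      · exact hx.1
  · intro x hx hn
    exact (mem_new.1 hn).2 hx
  · intro x hx
    obtain ⟨z, hz, rfl⟩ := (h3 x).1 hx
    obtain ⟨z1, z2⟩ := mem_new.1 hz
    refine ⟨hfs z, ?_, ?_⟩
    · exact (Nat.mul_le_mul_left κ (hfib z).length_le).trans ((mem_nxt.1 z1).2.resolve_left z2)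
    · intro e he v hv
      rcases mem_lab he with rfl | ⟨y, hy, rfl⟩
      · cases hv
      · cases hv
        exact hy

end Pool.Agent.P.MP_f1a348_lc.TO

end

section

/-! Step MTC. -/

set_option autoImplicit false
set_option linter.unusedSectionVars false

namespace Pool.Agent.P.MP_f1a348_lc.TO

open Pool.Agent.Lib.Helper47 Pool.Agent.P.MP_f1a348_lc.GI

namespace MTC

theorem len (N : List ℕ) (a : PD) (h : IsPD N a) :
    (a.map fun x => x.2.length).sum ≤ N.length := by
  rw [← List.length_flatMap]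
  refine (List.subperm_of_subset ?_ ?_).length_le
  · rw [List.nodup_flatMap]
    refine ⟨h.nd, h.nodup.imp_of_mem ?_⟩
    intro x y hx hy hxy z hz hz'
    exact hxy (h.disj x hx y hy z hz hz')
  · intro z hz
    obtain ⟨x, hx, hz⟩ := List.mem_flatMap.1 hz
    exact (h.cover z).2 ⟨x, hx, hz⟩

theorem wsum (N : List ℕ) (a : PD) (h : IsPD N a) (n c : ℕ) (hn : N.length ≤ n)
    (g : Str × List ℕ → ℕ) (hg : ∀ y ∈ a, g y ≤ y.2.length * c) : (a.map g).sum ≤ n * c := by
  refine (List.sum_le_sum hg).trans ?_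
  rw [List.sum_map_mul_right]
  exact Nat.mul_le_mul_right _ ((len N a h).trans hn)

theorem row (N : List ℕ) (a : PD) (h : IsPD N a) (n l w : ℕ) (hn : N.length ≤ n)
    (g : Str × List ℕ → ℕ) (h1 : ∀ y ∈ a, l ≠ y.2.length → g y ≤ 1)
    (h2 : ∀ y ∈ a, l = y.2.length → g y ≤ l ^ 7 * w) : (a.map g).sum ≤ n * (1 + l ^ 6 * w) := by
  refine wsum N a h n _ hn g fun y hy => ?_
  have hp : 0 < y.2.length := List.length_pos_iff.2 (h.ne y hy)
  by_cases e : l = y.2.length
  · refine (h2 y hy e).trans ?_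
    rw [← e, Nat.mul_add, ← Nat.mul_assoc, ← pow_succ']
    exact Nat.le_add_left _ _
  · exact (h1 y hy e).trans (Nat.mul_pos hp (by omega))

theorem sum_flat {α β : Type} (a : List α) (g : α → List β) (f : β → ℕ) :
    ((a.flatMap g).map f).sum = (a.map fun x => ((g x).map f).sum).sum := by
  induction a with
  | nil => simp
  | cons x a ih => simp only [List.flatMap_cons, List.map_append, List.sum_append, ih,
      List.map_cons, List.sum_cons]

end MTC

theorem p_MTC :
    S_MTC := by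
  intro E F N N' a b n w f ha hb _ _ hn hn' h1 h2 s hs
  have e : 2 * n ^ 2 + 2 * n ^ 2 * s ^ 5 * w = n * (2 * n * (1 + s ^ 5 * w)) := by ring
  rw [e]
  unfold tcalls at h1 h2 ⊢
  rw [MTC.sum_flat]
  refine MTC.wsum N a ha n _ hn _ fun x hx => ?_
  have hp : 0 < x.2.length := List.length_pos_iff.2 (ha.ne x hx)
  have ma : ∀ y ∈ a, ((x.2, E, y.2, E) : Q) ∈ a.flatMap fun x =>
      a.map (fun y => ((x.2, E, y.2, E) : Q)) ++ b.map fun y => ((x.2, E, y.2, F) : Q) :=
    fun y hy => List.mem_flatMap.2 ⟨x, hx, List.mem_append_left _ (List.mem_map.2 ⟨y, hy, rfl⟩)⟩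
  have mb : ∀ y ∈ b, ((x.2, E, y.2, F) : Q) ∈ a.flatMap fun x =>
      a.map (fun y => ((x.2, E, y.2, E) : Q)) ++ b.map fun y => ((x.2, E, y.2, F) : Q) :=
    fun y hy => List.mem_flatMap.2 ⟨x, hx, List.mem_append_right _ (List.mem_map.2 ⟨y, hy, rfl⟩)⟩
  have ra := MTC.row N a ha n x.2.length w hn (fun y => f (x.2, E, y.2, E))
    (fun y hy => h1 _ (ma y hy)) (fun y hy => h2 _ (ma y hy))
  have rb := MTC.row N' b hb n x.2.length w hn' (fun y => f (x.2, E, y.2, F))
    (fun y hy => h1 _ (mb y hy)) (fun y hy => h2 _ (mb y hy))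
  rw [List.map_append, List.sum_append, List.map_map, List.map_map]
  refine (Nat.add_le_add ra rb).trans ?_
  have h5 : x.2.length ^ 5 * w ≤ s ^ 5 * w :=
    Nat.mul_le_mul_right _ (Nat.pow_le_pow_left (hs x hx) 5)
  have h6 : 1 + x.2.length ^ 6 * w ≤ x.2.length * (1 + s ^ 5 * w) := by
    rw [Nat.mul_add, Nat.mul_one, pow_succ', Nat.mul_assoc]
    exact Nat.add_le_add hp (Nat.mul_le_mul_left _ h5)
  calc n * (1 + x.2.length ^ 6 * w) + n * (1 + x.2.length ^ 6 * w)
      = 2 * n * (1 + x.2.length ^ 6 * w) := by ring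
    _ ≤ 2 * n * (x.2.length * (1 + s ^ 5 * w)) := Nat.mul_le_mul_left _ h6
    _ = _ := by ring

end Pool.Agent.P.MP_f1a348_lc.TO

end
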