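import Pool.Agent.P.MP_f1a348_lc.TO.Rec

/-! Recursive procedures: the frames of an evaluation satisfy the invariant. -/

set_option autoImplicit false

namespace Pool.Agent.P.MP_f1a348_lc.TO.RP

variable {S R : Type} {P : RP S R}

/-- all frames of an evaluation satisfy the precondition of a soundness proof -/
theorem Ev.strengthen {ok : S → Prop} (Pre : S → Prop) (Post : S → R → Prop)
    (h1 : ∀ s, Pre s → P.ask s = none → Post s (P.out s))
    (h2 : ∀ s a, Pre s → P.ask s = some a → ok a → Pre a ∧ ∀ r, Post a r → Pre (P.upd s r) ∧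
      ∀ r', Post (P.upd s r) r' → Post s r')
    {s : S} {r : R} {n : ℕ} (e : P.Ev ok s r n) : Pre s → P.Ev Pre s r n := by
  induction e with
  | done _ h => exact fun hp => .done hp h
  | call _ h e1 _ i1 i2 =>
    intro hp
    obtain ⟨a1, a2⟩ := h2 _ _ hp h e1.ok
    exact .call hp h (i1 a1) (i2 (a2 _ (e1.sound Pre Post h1 h2 a1)).1)

end Pool.Agent.P.MP_f1a348_lc.TO.RP
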