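import Pool.Agent.P.MP_f1a348_lc.TO.MIface
import Pool.Agent.P.MP_f1a348_lc.TO.ERec
import Pool.Agent.P.MP_f1a348_lc.TO.ABase

section

/-! Step EREC. -/

set_option autoImplicit false
set_option linter.unusedSectionVars false

namespace Pool.Agent.P.MP_f1a348_lc.TO

open Pool.Agent.Lib.Helper47 Pool.Agent.P.MP_f1a348_lc.GI

namespace EREC

variable {C Q T S A : Type} (R : Rec C Q T S A) (c : C)

/-- the frame of a new call -/
def fr (d : List Unit) (q : Q) : List Unit × Q × List T × S := (d, q, R.todo c q, R.ini c q)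

/-- the procedure on frames: depth, call, remaining items, state -/
def rp : RP (List Unit × Q × List T × S) A where
  ask x := bif x.1.isEmpty then none else
    x.2.2.1.head?.map (fun t => fr R c x.1.tail (R.call c x.2.1 t x.2.2.2))
  upd x r := (x.1, x.2.1, x.2.2.1.tail,
    x.2.2.1.head?.elim x.2.2.2 (fun t => R.upd c x.2.1 t x.2.2.2 r))
  out x := bif x.1.isEmpty then R.out else R.fin c x.2.1 x.2.2.2

theorem ev {ok : List Unit × Q × List T × S → Prop} {oq : Q → Prop} {os : Q → S → Prop}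
    {oa : Q → A → Prop} {D : ℕ} (h1 : ∀ q, oq q → os q (R.ini c q))
    (h2 : ∀ q t s, oq q → t ∈ R.todo c q → os q s → oq (R.call c q t s))
    (h3 : ∀ q t s r, oq q → t ∈ R.todo c q → os q s → oa (R.call c q t s) r →
      os q (R.upd c q t s r))
    (h4 : ∀ q s, oq q → os q s → oa q (R.fin c q s)) (h5 : ∀ q, oq q → oa q R.out)
    (hok : ∀ d q l s, d.length ≤ D → oq q → l <:+ R.todo c q → os q s → ok (d, q, l, s))
    (d : List Unit) : d.length ≤ D → ∀ q, oq q → oa q (R.ev c d.length q) ∧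
      ∃ n, (rp R c).Ev ok (fr R c d q) (R.ev c d.length q) n ∧ n + 1 ≤ 2 * R.cnt c d.length q := by
  induction d with
  | nil =>
    exact fun hd q hq => ⟨h5 q hq, 1,
      .done (hok _ _ _ _ hd hq List.suffix_rfl (h1 q hq)) rfl, le_rfl⟩
  | cons u d ih =>
    intro hd q hq
    have ih := ih (Nat.le_of_succ_le hd)
    have key : ∀ (l : List T) (s : S) (k : ℕ), l <:+ R.todo c q → os q s →
        os q (l.foldl (fun s t => R.upd c q t s (R.ev c d.length (R.call c q t s))) s) ∧
        ∃ n, (rp R c).Ev ok (u :: d, q, l, s) (R.fin c q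
          (l.foldl (fun s t => R.upd c q t s (R.ev c d.length (R.call c q t s))) s)) n ∧
          n + 2 * k ≤ 2 * (l.foldl (fun (p : S × ℕ) t =>
            (R.upd c q t p.1 (R.ev c d.length (R.call c q t p.1)),
              p.2 + R.cnt c d.length (R.call c q t p.1))) (s, k)).2 + 1 := by
      intro l
      induction l with
      | nil => exact fun s k hl hs => ⟨hs, 1, .done (hok _ _ _ _ hd hq hl hs) rfl, by simp; omega⟩
      | cons t l il =>
        intro s k hl hs
        have ht : t ∈ R.todo c q := hl.subset List.mem_cons_self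
        obtain ⟨a1, m, a2, a3⟩ := ih _ (h2 q t s hq ht hs)
        obtain ⟨b1, n, b2, b3⟩ := il _ (k + R.cnt c d.length (R.call c q t s))
          ((List.suffix_cons t l).trans hl) (h3 q t s _ hq ht hs a1)
        refine ⟨b1, m + n + 1, .call (hok _ _ _ _ hd hq hl hs) rfl a2 b2, ?_⟩
        rw [List.foldl_cons]
        dsimp only
        omega
    obtain ⟨a1, n, a2, a3⟩ := key _ _ 0 List.suffix_rfl (h1 q hq)
    refine ⟨h4 q _ hq a1, n, a2, ?_⟩
    rw [List.length_cons, Rec.cnt]
    omega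

end EREC

open EREC in
theorem p_EREC :
    S_EREC := by
  intro C Q T S A _ _ _ _ _ R hR
  have f1 : ∀ {α : Type} [Enc α] {c : α → C} {d : α → List Unit} {q : α → Q}, PT c → PT d → PT q →
      PT (fun a => fr R (c a) (d a) (q a)) := fun hc hd hq =>
    PT.prodMk hd (PT.prodMk hq (PT.prodMk (hR.todo.comp (PT.prodMk hc hq))
      (hR.ini.comp (PT.prodMk hc hq))))
  refine ⟨fun x => (rp R x.1).run x.2.1 (fr R x.1 x.2.2.1 x.2.2.2), ?_, ?_, ?_⟩
  · refine RP.pt_run (P := fun x : C × List Unit × List Unit × Q => rp R x.1) ?_ ?_ ?_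
      (by fun_prop) (f1 (by fun_prop) (by fun_prop) (by fun_prop))
    · refine PT.cond (by fun_prop) (PT.const _) (PT.optMap (by fun_prop)
        (f1 (by fun_prop) (by fun_prop) (hR.call.comp
          (g := fun p : ((C × List Unit × List Unit × Q) × List Unit × Q × List T × S) × T =>
            (p.1.1.1, p.1.2.2.1, p.2, p.1.2.2.2.2)) (by fun_prop))))
    · refine PT.prodMk (by fun_prop) (PT.prodMk (by fun_prop) (PT.prodMk (by fun_prop)
        (PT.optElim (by fun_prop) (by fun_prop) (hR.upd.comp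
          (g := fun p : ((C × List Unit × List Unit × Q) × (List Unit × Q × List T × S) × A) × T =>
            (p.1.1.1, p.1.2.1.2.1, p.2, p.1.2.1.2.2.2, p.1.2.2)) (by fun_prop)))))
    · exact PT.cond (by fun_prop) (PT.const _) (hR.fin.comp
        (g := fun p : (C × List Unit × List Unit × Q) × List Unit × Q × List T × S =>
          (p.1.1, p.2.2.1, p.2.2.2.2)) (by fun_prop))
  · intro c pad d q a h
    obtain ⟨n, e⟩ := RP.run_sound h
    obtain ⟨-, m, e', -⟩ := ev R c (ok := fun _ => True) (oq := fun _ => True)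
      (os := fun _ _ => True) (oa := fun _ _ => True) (by simp) (by simp) (by simp) (by simp)
      (by simp) (by simp) d le_rfl q trivial
    exact (e.det e').1
  · intro c pad d q B oq os oa hI hq h1 h2
    obtain ⟨-, m, e, hm⟩ := ev R c (ok := fun x => size x ≤ 3 * B + 2 * d.length + 4)
      hI.ini hI.call hI.upd hI.fin hI.out (fun d' q l s a1 a2 a3 a4 => by
        have b1 := hI.sq q a2
        have b2 := hI.ss q s a2 a4
        have b3 := size_sublist a3.sublist
        have b4 : size d' ≤ d'.length * (1 + 1) + 1 := size_list_le fun _ _ => le_rfl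
        simp only [size_pair]
        omega) d le_rfl q hq
    exact RP.run_complete (pad := pad) e (by omega) (by nlinarith)

end Pool.Agent.P.MP_f1a348_lc.TO

end

section

/-! Step MAUT. -/

set_option autoImplicit false
set_option linter.unusedSectionVars false

namespace Pool.Agent.P.MP_f1a348_lc.TO

open Pool.Agent.Lib.Helper47 Pool.Agent.P.MP_f1a348_lc.GI

namespace MAUT

theorem f1 (A : List ℕ) (E : List (ℕ × ℕ)) (g : U) (hT : Tour A E) (h : DIso g.app A E A E)
    (h2 : ∀ x ∈ A, g.app (g.app x) = x) (x : ℕ) (hx : x ∈ A) : g.app x = x := by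
  by_contra hne
  have hg : g.app x ∈ A := h.bij.1 hx
  have h3 := h.arc x hx _ hg
  have h4 := hT x hx _ hg
  rw [h2 x hx] at h3
  have h5 : x ≠ g.app x := Ne.symm hne
  tauto

theorem f2 (V : List ℕ) (S : List U) (h : ∀ s ∈ S, Sup V s) (g : U) (hg : g ∈ gen S) : Sup V g :=
  fun v hv => FP.app_fix (fun s hs => h s hs v hv) hg

theorem f3 (V : List ℕ) (g : U) (h : Sup V g) (x : ℕ) : g.app x ∈ V ↔ x ∈ V := by
  constructor
  · intro h1
    by_contra h2
    exact h2 (h x h2 ▸ h1)
  · intro h1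
    by_contra h2
    exact h2 ((g.app_injective (h _ h2)).symm ▸ h1)

theorem fin (h : U) : IsOfFinOrder h := by
  have h0 : ∀ n : ℕ, Sup h.supp.toList (h ^ n) := fun n =>
    f2 _ [h] (fun s hs v hv => by
      rw [List.mem_singleton.1 hs]
      simpa [FP.mem_supp] using hv) _ (pow_mem (mem_gen (List.mem_singleton_self h)) n)
  by_contra hn
  obtain ⟨m, -, n, -, hmn, e⟩ := Set.infinite_univ.exists_ne_map_eq_of_mapsTo
    (f := fun (n : ℕ) (a : h.supp) => (h ^ n).app a) (t := {f | ∀ a, f a ∈ (h.supp : Set ℕ)})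
    (fun n _ (a : h.supp) =>
      Finset.mem_toList.1 ((f3 _ _ (h0 n) a).2 (Finset.mem_toList.2 a.2)))
    (Set.Finite.pi' (t := fun _ : h.supp => (h.supp : Set ℕ)) fun _ => h.supp.finite_toSet)
  refine hmn (injective_pow_iff_not_isOfFinOrder.2 hn (FP.ext fun a => ?_))
  by_cases ha : a ∈ h.supp
  · exact congrFun e ⟨a, ha⟩
  · have ha' := mt Finset.mem_toList.1 ha
    exact (h0 m a ha').trans (h0 n a ha').symm

theorem f4 (H : Subgroup U) (hH : NoInv H) (h : U) (hh : h ∈ H) : ∃ r : ℕ, h = (h * h) ^ r := by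
  have h1 := (fin h).orderOf_pos
  rcases Nat.even_or_odd' (orderOf h) with ⟨k, hk | hk⟩
  · have h2 := hH (h ^ k) (pow_mem hh k) (by rw [← pow_add, ← two_mul, ← hk, pow_orderOf_eq_one])
    exact absurd h2 (pow_ne_one_of_lt_orderOf (by omega) (by omega))
  · exact ⟨k + 1, by
      rw [← pow_two, ← pow_mul, mul_add, mul_one, ← one_add_one_eq_two, ← add_assoc,
        one_add_one_eq_two, ← hk, pow_succ, pow_orderOf_eq_one, one_mul]⟩

theorem f5 (φ ψ : ℕ → ℕ) (A : List ℕ) (E : List (ℕ × ℕ)) (B : List ℕ) (F : List (ℕ × ℕ))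
    (C : List ℕ) (G : List (ℕ × ℕ)) (h : DIso φ A E B F) (h' : DIso ψ B F C G) :
    DIso (fun x => ψ (φ x)) A E C G :=
  ⟨h'.bij.comp h.bij, fun u hu v hv =>
    (h.arc u hu v hv).trans (h'.arc _ (h.bij.1 hu) _ (h.bij.1 hv))⟩

theorem f6 (g : U) (A : List ℕ) (E : List (ℕ × ℕ)) (B : List ℕ) (F : List (ℕ × ℕ))
    (h : DIso g.app A E B F) : DIso g⁻¹.app B F A E := by
  have h1 : Set.BijOn g⁻¹.app {x | x ∈ B} {x | x ∈ A} :=
    h.bij.symm ⟨fun x _ => g.app_app_inv x, fun x _ => g.app_inv_app x⟩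
  refine ⟨h1, fun u hu v hv => ?_⟩
  rw [h.arc _ (h1.1 hu) _ (h1.1 hv), g.app_app_inv, g.app_app_inv]

theorem f7 (φ ψ : ℕ → ℕ) (A : List ℕ) (E : List (ℕ × ℕ)) (B : List ℕ) (F : List (ℕ × ℕ))
    (h : DIso φ A E B F) (e : ∀ x ∈ A, ψ x = φ x) : DIso ψ A E B F :=
  ⟨h.bij.congr fun x hx => (e x hx).symm, fun u hu v hv => by
    rw [e u hu, e v hv]; exact h.arc u hu v hv⟩

theorem f10 (q : Q) (c : Co) (h : PS q (some c)) (g : U) (hg : g ∈ gen c.2) :
    DIso g.app q.1 q.2.1 q.1 q.2.1 := by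
  have h1 := h.iso c.1 ⟨c, rfl, by simp [cset]⟩
  have h2 := h.iso (c.1 * g) ⟨c, rfl, by simpa [cset] using hg⟩
  exact f7 _ _ _ _ _ _ (f5 _ _ _ _ _ _ _ _ h2 (f6 _ _ _ _ _ h1)) fun x _ => by simp

end MAUT

open MAUT in
theorem p_MAUT :
    S_MAUT := by
  refine ⟨f1, f2, f3, f4, f5, f6, f7, fun φ A E B F h => ⟨_, fun x hx =>
    FP.ofList_map (fun a ha b hb e => h.bij.2.1 ha hb e) hx⟩, fun φ A E B F hA hB h => ?_,
    fun q c h => ⟨fun hT g hg h2 => FP.ext fun a => ?_, f10 q c h⟩⟩
  · rw [← List.toFinset_card_of_nodup hA, ← List.toFinset_card_of_nodup hB]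
    exact Finset.card_nbij φ (by simpa using h.bij.1) (by simpa using h.bij.2.1)
      (by simpa using h.bij.2.2)
  · by_cases ha : a ∈ q.1
    · exact f1 _ _ g hT (f10 q c h g hg) (fun x _ => by rw [← FP.app_mul, h2, FP.app_one]) a ha
    · exact f2 _ _ (h.sup c rfl) g hg a ha

end Pool.Agent.P.MP_f1a348_lc.TO

end

section

/-! Step MBLK. -/

set_option autoImplicit false
set_option linter.unusedSectionVars false

namespace Pool.Agent.P.MP_f1a348_lc.TO

open Pool.Agent.Lib.Helper47 Pool.Agent.P.MP_f1a348_lc.GI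

namespace MBLK

open Finset Equiv

variable {Y : Type} [Fintype Y] [DecidableEq Y] {k : ℕ} {Γ : Sys Y k}

theorem inv_rtg (hk : 3 ≤ k) {r : Y → Y → Prop} (hr : Γ.Inv2 ∅ r) :
    Γ.Inv2 ∅ (Relation.ReflTransGen r) := by
  refine Sys.Inv2.of_imp fun f x y hf h => ?_
  induction h using Relation.ReflTransGen.head_induction_on generalizing f with
  | refl => exact .refl
  | @head a z h1 _ ih =>
    obtain ⟨g, g1, g2⟩ := hf.ext {z} (by
      have := card_le_two (a := a) (b := y)
      simp only [card_empty, card_singleton]; omega)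
    rw [← g1 a (by simp), ← g1 y (by simp)]
    refine .head ?_ (ih g (g2.base subset_rfl (by intro w; simp; tauto)))
    rw [hr.app g2 subset_rfl (by simp) (by simp)]
    exact h1

theorem odd_blk (hk : 3 ≤ k) (hH : Γ.Hom) {R E : Y → Y → Prop} (hR : Γ.Inv2 ∅ R)
    (hE : Γ.Inv2 ∅ E) (he : Equivalence R) (hT : ∀ u v, E u v ↔ u ≠ v ∧ ¬ E v u) (x : Y) :
    Odd (fil (R x)).card := by
  classical
  have i1 : Γ.Inv2 ∅ (fun a b => R a b ∧ E a b) := fun f a b hf => by
    simp only [hR f a b hf, hE f a b hf]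
  have i2 := i1.card (by simp only [card_empty]; omega)
  set B := fil (R x) with hB
  set d := (fil fun b => R x b ∧ E x b).card with hd
  have h1 : ∀ a ∈ B, (B.filter fun b => E a b).card = d := fun a ha => by
    rw [hd, ← i2.e1 (hH x a)]
    congr 1
    ext b
    simp only [hB, mem_filter, mem_fil] at ha ⊢
    exact and_congr_left fun _ => ⟨(he.trans (he.symm ha) ·), (he.trans ha ·)⟩
  have h2 : ∀ a ∈ B, (B.filter fun b => E a b).card + (B.filter fun b => E b a).card + 1 =
      B.card := fun a ha => by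
    rw [← card_union_of_disjoint, ← card_erase_add_one ha]
    · congr 2
      ext b
      have := hT a b
      have := hT b a
      simp only [mem_union, mem_filter, mem_erase]
      tauto
    · refine disjoint_filter.2 fun b _ h3 h4 => ((hT a b).1 h3).2 h4
  have h3 : ∑ a ∈ B, (B.filter fun b => E b a).card = ∑ a ∈ B, (B.filter fun b => E a b).card := by
    simp only [card_filter]
    exact sum_comm
  have h4 := sum_congr rfl h2
  rw [sum_add_distrib, sum_add_distrib, h3, sum_congr rfl h1] at h4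
  simp only [sum_const, smul_eq_mul, mul_one] at h4
  have h5 : 0 < B.card := card_pos.2 ⟨x, mem_fil.2 (he.refl x)⟩
  refine ⟨d, Nat.eq_of_mul_eq_mul_left h5 ?_⟩
  rw [← h4]; ring

end MBLK

theorem p_MBLK (hMCOMP : S_MCOMP) (hMPDI : S_MPDI) :
    S_MBLK := by
  intro cls hW p M q c hq hl hh
  obtain ⟨A, E, B, F⟩ := q
  have hp := hq.pre
  have pre : WLPre p A B := ⟨hp.na, hp.nb, hl, hp.lev, le_trans
    ((Nat.pow_le_pow_left (Nat.le_succ _) _).trans
      (Nat.pow_le_pow_right (Nat.succ_pos _) (Nat.le_add_right _ 8))) hp.big⟩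
  obtain ⟨Γ, s1, s2⟩ := hW.sys p A E B F pre hp.tour
  have hk : 4 ≤ p.2.length := hp.lev
  have hH : Γ.Hom := fun a b => by
    simp only [hom, List.all_eq_true, beq_iff_eq] at hh
    obtain ⟨f, f1, f2⟩ := (s1 [a] [b] rfl le_rfl (by simp only [List.length_singleton]; omega)).1
      ((hh a.1 a.2).trans (hh b.1 b.2).symm)
    exact ⟨f, ⟨by simpa using f1, by simp⟩, by simpa using f2⟩
  let r0 : ℕ → ℕ → Bool := fun u v => cls (p, (A, E, B, F), false, [u, v]) == c
  let r : {x // x ∈ A} → {x // x ∈ A} → Prop := fun a b => r0 a b = true ∨ r0 b a = true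
  have i0 : Γ.Inv2 ∅ (fun a b => r0 a.1 b.1) := fun f a b hf => by
    have := (s1 [a, b] [f a, f b] rfl (by simp) (by simp only [List.length_cons, List.length_nil]; omega)).2
      ⟨f, by simpa using hf.1, rfl⟩
    simp only [List.map_cons, List.map_nil] at this
    simp only [r0, this]
  have i1 : Γ.Inv2 ∅ r := fun f a b hf => by
    have e1 := i0 f a b hf
    have e2 := i0.flip f a b hf
    simp only at e1 e2
    simp only [r, e1, e2]
  have i2 := MBLK.inv_rtg (by omega) i1
  have i3 : Γ.Inv2 ∅ (fun a b => (a.1, b.1) ∈ E) := fun f a b hf =>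
    propext (s2 a b f (by simpa using hf.1)).symm
  have he : Equivalence (Relation.ReflTransGen r) :=
    ⟨fun _ => .refl, fun h => by
      induction h with
      | refl => exact .refl
      | tail _ h1 ih => exact .head h1.symm ih, Relation.ReflTransGen.trans⟩
  have key : ∀ x : {x // x ∈ A}, (blk cls p (A, E, B, F) false c x).length =
      (fil (Relation.ReflTransGen r x)).card := fun x => by
    obtain ⟨P, e1, e2⟩ := hMCOMP A r0 x hp.na
    have e3 : blk cls p (A, E, B, F) false c x = A.filter P := e1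
    rw [e3, ← List.toFinset_card_of_nodup (hp.na.filter _)]
    symm
    refine Finset.card_bij (fun y _ => y.1) (fun y hy => ?_) (fun _ _ _ _ e => Subtype.ext e)
      fun y hy => ?_
    · rw [List.mem_toFinset, List.mem_filter, e2 y y.2]
      refine ⟨y.2, x.2, ?_⟩
      have h3 := mem_fil.1 hy
      clear hy
      induction h3 with
      | refl => exact .refl
      | @tail b z _ h5 ih => exact ih.tail ⟨z.2, h5⟩
    · rw [List.mem_toFinset, List.mem_filter] at hy
      obtain ⟨h1, h2⟩ := hy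
      refine ⟨⟨y, h1⟩, mem_fil.2 ?_, rfl⟩
      have h3 := ((e2 y h1).1 h2).2
      clear h2
      induction h3 with
      | refl => exact .refl
      | @tail b z h4 h5 ih =>
        have hb : b ∈ A := by
          cases h4 with
          | refl => exact x.2
          | tail _ h6 => exact h6.1
        exact (ih hb).tail h5.2
  have i4 := i2.card (by simp only [Finset.card_empty]; omega)
  rcases A.eq_nil_or_concat' with rfl | ⟨L, a, hA⟩
  · exact ⟨1, by simp, by simp⟩
  have ha : a ∈ A := by simp [hA]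
  refine ⟨(fil (Relation.ReflTransGen r ⟨a, ha⟩)).card, fun x hx => ?_, fun _ =>
    MBLK.odd_blk (by omega) hH i2 i3 he (fun u v => ?_) _⟩
  · rw [key ⟨x, hx⟩]
    exact i4.e1 (hH _ _)
  · rw [hp.tour u.1 u.2 v.1 v.2, Ne, Subtype.coe_inj]

end Pool.Agent.P.MP_f1a348_lc.TO

end

section

/-! Step MGAIN. -/

set_option autoImplicit false
set_option linter.unusedSectionVars false

namespace Pool.Agent.P.MP_f1a348_lc.TO

open Pool.Agent.Lib.Helper47 Pool.Agent.P.MP_f1a348_lc.GI

namespace MGAIN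

theorem find_block {α : Type} (g : ℕ → List α) (P : α → Bool) (j : ℕ) (y : α) (hy : y ∈ g j)
    (hP : P y = true) (n : ℕ) : j < n → ∃ x j', j ≤ j' ∧ x ∈ g j' ∧
      ((List.range n).reverse.flatMap g).find? P = some x := by
  induction n with
  | zero => omega
  | succ n ih =>
    intro h
    rw [List.range_succ, List.reverse_append, List.reverse_singleton, List.singleton_append,
      List.flatMap_cons, List.find?_append]
    cases h1 : (g n).find? P with
    | some x => exact ⟨x, n, by omega, List.mem_of_find?_eq_some h1, rfl⟩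
    | none =>
      have h2 : j ≠ n := fun e => List.find?_eq_none.1 h1 y (e ▸ hy) hP
      simpa using ih (by omega)

/-- the link between the colouring and the system -/
def Lk {A : List ℕ} {k : ℕ} (c : List ℕ → ℕ) (m : ℕ) (Γ : Sys {x // x ∈ A} k) : Prop :=
  ∀ l l' : List {x // x ∈ A}, l.length = l'.length → 1 ≤ l.length → l.length ≤ m →
    c (l.map Subtype.val) = c (l'.map Subtype.val) → ∃ f, Γ.L l.toFinset f ∧ l.map f = l'

theorem e1 {A : List ℕ} {k m : ℕ} {c : List ℕ → ℕ} {Γ : Sys {x // x ∈ A} k} (h : Lk c m Γ)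
    (S : List {x // x ∈ A}) (z z' : {x // x ∈ A}) (hm : S.length + 1 ≤ m)
    (e : c (z.1 :: S.map Subtype.val) = c (z'.1 :: S.map Subtype.val)) : Γ.E1 S.toFinset z z' := by
  obtain ⟨f, h1, h2⟩ := h (z :: S) (z' :: S) rfl (by simp) hm e
  rw [List.map_cons, List.cons.injEq] at h2
  refine ⟨f, ⟨Γ.loc h1 (fun x hx => by simpa [or_comm] using hx) fun _ _ => rfl, fun x hx => ?_⟩, h2.1⟩
  exact List.map_inj_left.1 (h2.2.trans (List.map_id S).symm) x (List.mem_toFinset.1 hx)

theorem card_Y {A : List ℕ} (h : A.Nodup) : Fintype.card {x // x ∈ A} = A.length := by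
  rw [← List.toFinset_card_of_nodup h]
  exact Fintype.card_of_subtype _ fun _ => List.mem_toFinset

theorem layer {cls : Cls} {p : Par} {A : List ℕ} {E : List (ℕ × ℕ)} {B : List ℕ} {F : List (ℕ × ℕ)}
    {k : ℕ} {Γ : Sys {x // x ∈ A} k}
    (h : Lk (fun l => cls (p, (A, E, B, F), false, l)) p.2.length Γ) (hA : A.Nodup) (K : ℕ)
    (T : Finset {x // x ∈ A}) (hT : T.card + 2 ≤ p.2.length) (Z : Finset {x // x ∈ A})
    (Z' : List ℕ) (hZ : ∀ y ∈ Z, y.1 ∈ Z') : ∀ z ∈ Γ.sm K T Z,
      z.1 ∈ nxt cls p (A, E, B, F) false (T.toList.map Subtype.val) (K ^ T.card) Z' := by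
  intro z hz
  classical
  have h1 := (Finset.mem_filter.1 hz).2
  rw [card_Y hA] at h1
  refine List.mem_filter.2 ⟨z.2, ?_⟩
  rw [Bool.or_eq_true, Nat.ble_eq]
  refine Or.inr (le_trans (Nat.mul_le_mul_left _ ?_) h1)
  change (List.filter _ A).length ≤ _
  rw [← List.toFinset_card_of_nodup (hA.filter _)]
  refine le_trans (Finset.card_le_card fun y hy => ?_) (Finset.card_image_le (f := Subtype.val))
  obtain ⟨h2, h3⟩ := List.mem_filter.1 (List.mem_toFinset.1 hy)
  rw [beq_iff_eq] at h3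
  have h4 : ∀ e, e ∈ (lab cls p (A, E, B, F) false (T.toList.map Subtype.val) Z' z.1).val →
      e ∈ (lab cls p (A, E, B, F) false (T.toList.map Subtype.val) Z' y).val := fun e he => h3 ▸ he
  simp only [lab, Str.mem_mk, List.mem_cons, List.mem_map] at h4
  refine Finset.mem_image.2 ⟨⟨y, h2⟩, Finset.mem_filter.2 ⟨Finset.mem_univ _, ?_, fun w hw => ?_⟩, rfl⟩
  · have h5 := e1 h T.toList z ⟨y, h2⟩ (by rw [Finset.length_toList]; omega) (by
      rcases h4 _ (Or.inl rfl) with h6 | ⟨_, _, h6⟩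
      · exact Nat.eq_of_mul_eq_mul_left two_pos (Prod.ext_iff.1 h6).2
      · simp at h6)
    rwa [Finset.toList_toFinset] at h5
  · have h5 := e1 h (w :: T.toList) z ⟨y, h2⟩
      (by rw [List.length_cons, Finset.length_toList]; omega) (by
      rcases h4 _ (Or.inr ⟨w.1, hZ w hw, rfl⟩) with h6 | ⟨w', _, h6⟩
      · simp at h6
      · obtain ⟨h7, h8⟩ := Prod.ext_iff.1 h6
        obtain rfl : w' = w.1 := Option.some.inj h7
        exact h8.symm)
    rwa [List.toFinset_cons, Finset.toList_toFinset] at h5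

theorem prim (hMCOMP : S_MCOMP) {cls : Cls} {p : Par} {A : List ℕ} {E : List (ℕ × ℕ)} {B : List ℕ}
    {F : List (ℕ × ℕ)} {k : ℕ} {Γ : Sys {x // x ∈ A} k}
    (h : Lk (fun l => cls (p, (A, E, B, F), false, l)) p.2.length Γ) (hA : A.Nodup)
    (h2 : 2 ≤ p.2.length) (hi : impC cls p (A, E, B, F) = none) : Γ.Prim := by
  intro R hR hinv
  by_cases h0 : ∀ a b, R a b → a = b
  · exact Or.inl h0
  push Not at h0
  obtain ⟨a, b, hab, hne⟩ := h0
  have h3 : ∀ x y : {x // x ∈ A}, cls (p, (A, E, B, F), false, [x.1, y.1]) =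
      cls (p, (A, E, B, F), false, [a.1, b.1]) → R x y := by
    intro x y e
    obtain ⟨f, h4, h5⟩ := h [a, b] [x, y] rfl (by simp) h2 e.symm
    simp only [List.map_cons, List.map_nil, List.cons.injEq, and_true] at h5
    rw [← h5.1, ← h5.2]
    exact hinv a b f (by simpa using h4) hab
  have h4 : A.length ≤ (blk cls p (A, E, B, F) false
      (cls (p, (A, E, B, F), false, [a.1, b.1])) a.1).length := by
    unfold impC at hi
    generalize hf : List.find? _ _ = o at hi
    cases o with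
    | some e => simp at hi
    | none =>
      have := List.find?_eq_none.1 hf (a.1, b.1) (mem_prodL.2 ⟨a.2, b.2⟩)
      simpa [Subtype.val_inj, hne] using this
  obtain ⟨P, h5, h6⟩ := hMCOMP A (fun u v => cls (p, (A, E, B, F), false, [u, v]) ==
    cls (p, (A, E, B, F), false, [a.1, b.1])) a.1 hA
  change A.length ≤ (comp A _ _).length at h4
  rw [h5] at h4
  have h7 := List.length_filter_eq_length_iff.1 (le_antisymm (List.length_filter_le _ _) h4)
  have h8 : ∀ y : {x // x ∈ A}, R a y := by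
    intro y
    have h9 := ((h6 y.1 y.2).1 (h7 y.1 y.2)).2
    suffices ∃ hy : y.1 ∈ A, R a ⟨y.1, hy⟩ from this.2
    generalize y.1 = v at h9
    induction h9 with
    | refl => exact ⟨a.2, hR.refl a⟩
    | tail _ hs ih =>
      obtain ⟨hx, hr⟩ := ih
      refine ⟨hs.1, hR.trans hr ?_⟩
      rcases hs.2 with e | e
      · exact h3 ⟨_, hx⟩ ⟨_, hs.1⟩ (beq_iff_eq.1 e)
      · exact hR.symm (h3 ⟨_, hs.1⟩ ⟨_, hx⟩ (beq_iff_eq.1 e))
  exact Or.inr fun x y => hR.trans (hR.symm (h8 x)) (h8 y)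

end MGAIN

open MGAIN in
theorem p_MGAIN (hMCOMP : S_MCOMP) :
    S_MGAIN := by
  intro hG K hK
  obtain ⟨k, t0, n0, hG⟩ := hG K
  refine ⟨k + t0 + K + 2, n0, ?_⟩
  rintro cls hc p M ⟨A, E, B, F⟩ T κ hq hlen hj hn hh hp
  have hA : A.Nodup := hq.pre.na
  have hbig : ∀ e ≤ p.2.length, (A.length + 1) ^ e ≤ p.1.length := fun e he =>
    le_trans ((Nat.pow_le_pow_left (Nat.le_succ _) _).trans
      (Nat.pow_le_pow_right (Nat.succ_pos _) (by omega))) hq.pre.big
  obtain ⟨Γ0, hs, -⟩ := hc.sys p A E B F ⟨hA, hq.pre.nb, hlen, hq.pre.lev, hbig _ le_rfl⟩ hq.pre.tour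
  let Γ : Sys {x // x ∈ A} k := { Γ0 with ext := fun h h1 => Γ0.ext h (by omega) }
  have hL : Lk (fun l => cls (p, (A, E, B, F), false, l)) p.2.length Γ :=
    fun l l' h1 h2 h3 h4 => (hs l l' h1 h2 h3).1 h4
  rw [plan, hh, cond_true, Prod.mk.injEq] at hp
  obtain ⟨T0, h1, h2, h3⟩ := hG _ Γ (by rw [card_Y hA]; exact hn) (fun a b => by
    have h4 := List.all_eq_true.1 hh
    exact e1 hL [] a b (by simp; omega)
      ((beq_iff_eq.1 (h4 a.1 a.2)).trans (beq_iff_eq.1 (h4 b.1 b.2)).symm))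
    (prim hMCOMP hL hA (by omega) hp.1)
  have hT : T0.card + 2 ≤ p.2.length := by omega
  have h4 := layer hL hA K T0 hT _ _ (layer hL hA K T0 hT _ _ (layer hL hA K T0 hT ∅ [] (by simp)))
  rw [h3] at h4
  obtain ⟨x, j, h5, h6, h7⟩ := find_block (fun K => (List.range p.2.tail.tail.length).flatMap
      fun t => (tuples p.1 A (p.2.take (t + 1))).map fun T => (T, (K + 2) ^ T.length))
    (fun x => (lay cls p (A, E, B, F) false x.1 x.2 3).length == A.length) (K - 2)
    (T0.toList.map Subtype.val, K ^ T0.card) (by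
      refine List.mem_flatMap.2 ⟨T0.card - 1, by simp; omega, List.mem_map.2 ⟨_, tuples_complete
        (t := T0.toList.map Subtype.val) ((Nat.pow_le_pow_left (Nat.le_succ _) _).trans
          (hbig _ (List.length_take_le' _ _))) (by simp; omega) fun y hy => ?_, ?_⟩⟩
      · obtain ⟨z, -, rfl⟩ := List.mem_map.1 hy
        exact z.2
      · rw [Nat.sub_add_cancel hK, List.length_map, Finset.length_toList])
    (beq_iff_eq.2 (List.length_filter_eq_length_iff.2 fun z hz =>
      (List.mem_filter.1 (h4 ⟨z, hz⟩ (Finset.mem_univ _))).2)) p.2.length (by omega)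
  have h8 : x = (T, κ) := by
    rw [← hp.2]
    exact (congrArg (fun o => Option.getD o _) h7).symm
  obtain ⟨t, -, h9⟩ := List.mem_flatMap.1 h6
  obtain ⟨T', h10, h11⟩ := List.mem_map.1 h9
  obtain ⟨rfl, rfl⟩ := Prod.mk.inj (h11.trans h8)
  refine ⟨?_, Nat.pow_le_pow_left (by omega) _⟩
  rw [(tuples_sound h10).1, List.length_take]
  omega

end Pool.Agent.P.MP_f1a348_lc.TO

end

section

/-! Step MLF. -/

set_option autoImplicit false
set_option linter.unusedSectionVars false

namespace Pool.Agent.P.MP_f1a348_lc.TO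

open Pool.Agent.Lib.Helper47 Pool.Agent.P.MP_f1a348_lc.GI

theorem p_MLF (hMAUT : S_MAUT) :
    S_MLF := by
  obtain ⟨-, -, -, -, -, -, hcg, -⟩ := hMAUT
  intro M tb E D N N' a b G g pa pb dis hg hO hx
  have h1 : ∀ x ∈ a, ∃ y ∈ b, ∃ c : Co, y.1 = g • x.1 ∧
      (b.find? fun y => y.1 == g • x.1) = some y ∧ look tb (x.2, E, y.2, G) = some c ∧
      DIso c.1.app x.2 E y.2 G := by
    intro x hxa
    obtain ⟨y, hy, e, φ, hφ⟩ := hx x hxa
    have h2 := (hO x hxa y hy).1
    obtain ⟨g', ⟨c, hc, -⟩, -⟩ := h2.cov φ hφ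
    refine ⟨y, hy, c, e, ?_, hc, h2.iso c.1 ⟨c, hc, by simp [cset]⟩⟩
    cases h3 : b.find? fun y => y.1 == g • x.1 with
    | none => exact absurd (by simpa using e) (List.find?_eq_none.1 h3 y hy)
    | some y' =>
      have h4 : y'.1 = g • x.1 := by simpa using List.find?_some h3
      rw [pb.inj y' (List.mem_of_find?_eq_some h3) y hy (h4.trans e.symm)]
  choose Y hY C hl hf hc hd using h1
  set l : List (ℕ × ℕ) := D.map (fun d => (d, g.app d)) ++ a.flatMap fun x =>
    (b.find? fun y => y.1 == g • x.1).elim [] fun y =>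
      (look tb (x.2, E, y.2, G)).elim [] fun c => x.2.map fun z => (z, c.1.app z) with hl0
  have hm : ∀ p, p ∈ l ↔ (∃ d ∈ D, (d, g.app d) = p) ∨
      ∃ x, ∃ h : x ∈ a, ∃ z ∈ x.2, (z, (C x h).1.app z) = p := by
    intro p
    rw [hl0, List.mem_append, List.mem_map, List.mem_flatMap]
    refine or_congr Iff.rfl ⟨fun ⟨x, h, h2⟩ => ⟨x, h, ?_⟩, fun ⟨x, h, h2⟩ => ⟨x, h, ?_⟩⟩
    · rw [hf x h, Option.elim_some, hc x h, Option.elim_some, List.mem_map] at h2
      exact h2
    · rw [hf x h, Option.elim_some, hc x h, Option.elim_some, List.mem_map]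
      exact h2
  have hN : ∀ x ∈ a, ∀ z ∈ x.2, z ∈ N := fun x h z hz => (pa.cover z).2 ⟨x, h, hz⟩
  have hY2 : ∀ x (h : x ∈ a), ∀ z ∈ x.2, (C x h).1.app z ∈ (Y x h).2 := fun x h z hz =>
    (hd x h).bij.mapsTo hz
  have hN' : ∀ x (h : x ∈ a), ∀ z ∈ x.2, (C x h).1.app z ∈ N' := fun x h z hz =>
    (pb.cover _).2 ⟨_, hY x h, hY2 x h z hz⟩
  have hb : ∀ p ∈ l, ∀ q ∈ l, p.1 = q.1 ↔ p.2 = q.2 := by
    intro p hp q hq
    rcases (hm p).1 hp with ⟨d, hd1, rfl⟩ | ⟨x, h, z, hz, rfl⟩ <;>
      rcases (hm q).1 hq with ⟨d', hd2, rfl⟩ | ⟨x', h', z', hz', rfl⟩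
    · exact g.app_injective.eq_iff.symm
    · exact iff_of_false (fun e : d = z' => dis d hd1 (e ▸ hN x' h' z' hz'))
        fun e : g.app d = _ => hg d hd1 (e ▸ hN' x' h' z' hz')
    · exact iff_of_false (fun e : z = d' => dis d' hd2 (e ▸ hN x h z hz))
        fun e : _ = g.app d' => hg d' hd2 (e ▸ hN' x h z hz)
    · refine ⟨fun e : z = z' => ?_, fun e : (C x h).1.app z = (C x' h').1.app z' => ?_⟩
      · subst e
        obtain rfl := pa.disj x h x' h' z hz hz'
        rfl
      · have h2 := pb.disj _ (hY x h) _ (hY x' h') _ (hY2 x h z hz) (e ▸ hY2 x' h' z' hz')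
        have h3 : g • x.1 = g • x'.1 := by rw [← hl x h, h2, hl x' h']
        obtain rfl := pa.inj x h x' h' (MulAction.injective g h3)
        exact (C x h).1.app_injective e
  refine ⟨⟨fun d hd1 => FP.ofList_app hb ((hm _).2 (.inl ⟨d, hd1, rfl⟩)), fun u hu =>
    ⟨_, hY u hu, hl u hu, hcg _ _ _ _ _ _ (hd u hu) fun z hz =>
      FP.ofList_app hb ((hm _).2 (.inr ⟨u, hu, z, hz, rfl⟩))⟩⟩, fun v h1 h2 h3 h4 =>
    FP.ofList_fix (l := l) fun p hp => ?_⟩
  rcases (hm p).1 hp with ⟨d, hd1, rfl⟩ | ⟨x, h, z, hz, rfl⟩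
  · exact ⟨fun e : d = v => h1 (e ▸ hd1), h4 d hd1⟩
  · exact ⟨fun e : z = v => h2 (e ▸ hN x h z hz), fun e : _ = v => h3 (e ▸ hN' x h z hz)⟩

end Pool.Agent.P.MP_f1a348_lc.TO

end

section

/-! Step MRECOK. -/

set_option autoImplicit false
set_option linter.unusedSectionVars false

namespace Pool.Agent.P.MP_f1a348_lc.TO

open Pool.Agent.Lib.Helper47 Pool.Agent.P.MP_f1a348_lc.GI

namespace MRECOK

theorem foldl_inv {S T : Type} (P : S → Prop) (f : S → T → S) :
    ∀ (l : List T) (s : S), (∀ s t, t ∈ l → P s → P (f s t)) → P s → P (l.foldl f s)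
  | [], _, _, hs => hs
  | a :: l, s, h, hs =>
    foldl_inv P f l (f s a) (fun s t ht => h s t (List.mem_cons_of_mem a ht))
      (h s a List.mem_cons_self hs)

end MRECOK

theorem p_MRECOK :
    S_MRECOK := by
  intro C Q T S A R c oq os oa hini hcall hupd hfin hout d
  induction d with
  | zero => intro q hq; exact hout q hq
  | succ d ih =>
    intro q hq
    refine hfin q _ hq ?_
    refine MRECOK.foldl_inv (os q) _ _ _ ?_ (hini q hq)
    intro s t ht hs
    exact hupd q t s _ hq ht hs (ih _ (hcall q t s hq ht hs))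

end Pool.Agent.P.MP_f1a348_lc.TO

end
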