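import Pool.Agent.P.MP_f1a348_lc.TO.MIface

section

/-! Step MCALL. -/

set_option autoImplicit false
set_option linter.unusedSectionVars false

namespace Pool.Agent.P.MP_f1a348_lc.TO

open Pool.Agent.Lib.Helper47 Pool.Agent.P.MP_f1a348_lc.GI

namespace MCALL

theorem smv {M : ℕ} {A B : List ℕ} (h : SmV M B) (s : A.Sublist B) : SmV M A :=
  ⟨s.length_le.trans h.1, fun x hx => h.2 x (s.subset hx)⟩

theorem oq_mk {p : Par} {M : ℕ} {q : Q} (h : OQ p M q) {C D : List ℕ} {E G : List (ℕ × ℕ)}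
    (hC : C.Sublist q.1) (hT : Tour C E) (hE : size E ≤ (M + 2) ^ 4)
    (hD : D.Sublist q.1 ∨ D.Sublist q.2.2.1) (hG : size G ≤ (M + 2) ^ 4) :
    OQ p M (C, E, D, G) :=
  ⟨⟨h.pre.na.sublist hC, hD.elim (·.nodup h.pre.na) (·.nodup h.pre.nb), hT, h.pre.lev,
    (Nat.pow_le_pow_left (Nat.add_le_add_right hC.length_le 2) _).trans h.pre.big⟩,
    ⟨smv h.sm.a hC, hD.elim (smv h.sm.a) (smv h.sm.b), hE, hG⟩, h.lev⟩

theorem tc {p : Par} {M : ℕ} {q : Q} (h : OQ p M q) {a b : PD}
    (ha : ∀ x ∈ a, x.2.Sublist q.1 ∧ x.2 ≠ [] ∧ x.2.length < q.1.length)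
    (hb : ∀ y ∈ b, y.2.Sublist q.2.2.1) :
    ∀ t ∈ tcalls q.2.1 q.2.2.2 a b, OQ p M t ∧ t.1 ≠ [] ∧ t.1.length < q.1.length := by
  intro t ht
  obtain ⟨x, hx, ht⟩ := List.mem_flatMap.1 ht
  obtain ⟨s, n, l⟩ := ha x hx
  have hT : Tour x.2 q.2.1 := fun u hu v hv => h.pre.tour u (s.subset hu) v (s.subset hv)
  rcases List.mem_append.1 ht with ht | ht <;> obtain ⟨y, hy, rfl⟩ := List.mem_map.1 ht
  · exact ⟨oq_mk h s hT h.sm.e (.inl (ha y hy).1) h.sm.e, n, l⟩
  · exact ⟨oq_mk h s hT h.sm.e (.inr (hb y hy)) h.sm.f, n, l⟩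

theorem tlen (E F : List (ℕ × ℕ)) {a b : PD} {n : ℕ} (ha : a.length ≤ n) (hb : b.length ≤ n) :
    (tcalls E F a b).length ≤ 2 * n ^ 2 := by
  have h : (tcalls E F a b).length = a.length * (a.length + b.length) := by
    simp [tcalls, List.length_flatMap]
  rw [h, show 2 * n ^ 2 = n * (n + n) by ring]
  exact Nat.mul_le_mul ha (Nat.add_le_add ha hb)

theorem flen {α β : Type} (l : List α) (f : α → List β) (c : ℕ) (h : ∀ x, (f x).length ≤ c) :
    (l.flatMap f).length ≤ l.length * c := by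
  induction l with
  | nil => simp
  | cons x l ih =>
    rw [List.flatMap_cons, List.length_append, List.length_cons, Nat.succ_mul, add_comm]
    exact Nat.add_le_add ih (h x)

end MCALL

theorem p_MCALL (hMPDL : S_MPDL) (hMPDI : S_MPDI) (hMIMP : S_MIMP) (hMPLAN : S_MPLAN) :
    S_MCALL := by
  intro cls hw p M q h
  unfold calls
  cases hc : (q.1.length == q.2.2.1.length && Nat.ble 2 q.1.length)
  · simp
  rw [Bool.and_eq_true, beq_iff_eq, Nat.ble_eq] at hc
  obtain ⟨hl, h2⟩ := hc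
  have hn : q.1.length ≤ M := h.sm.a.1
  have h4 : 6 * q.1.length ^ 2 ≤ (M + 2) ^ 4 := by
    rw [show (M + 2) ^ 4 = (M + 2) ^ 2 * (M + 2) ^ 2 by ring]
    exact Nat.mul_le_mul (le_trans (by norm_num) (Nat.pow_le_pow_left (show 4 ≤ M + 2 by omega) 2))
      (Nat.pow_le_pow_left (by omega) 2)
  rw [cond_true]
  rcases hp : plan cls p q with ⟨_ | c, T, κ⟩
  · obtain ⟨-, hT, -, -, -, hs, -⟩ := hMPLAN cls hw p M q T κ h hl h2 hp
    have hL : ∀ T' i, (∀ t ∈ callsL cls p q T κ T' i,
        OQ p M t ∧ t.1 ≠ [] ∧ t.1.length < q.1.length) ∧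
        (callsL cls p q T κ T' i).length ≤ 2 * q.1.length ^ 2 := fun T' i => by
      obtain ⟨a1, -, a3, -, -, -, -, a8⟩ := hMPDL cls hw p M q false T κ i h hl
      obtain ⟨-, -, b3, -, -, -, -, b8⟩ := hMPDL cls hw p M q true T' κ i h hl
      exact ⟨MCALL.tc h (fun x hx => ⟨(a8 x hx).1, a1.ne x hx, hs i x hx⟩) fun y hy => (b8 y hy).1,
        MCALL.tlen _ _ a3 b3⟩
    dsimp only [Option.elim]
    refine ⟨fun t ht => ?_, ?_⟩
    · obtain ⟨T', -, ht⟩ := List.mem_flatMap.1 ht
      rcases List.mem_append.1 ht with ht | ht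
      · exact (hL T' 0).1 t ht
      · exact (List.mem_append.1 ht).elim ((hL T' 1).1 t) ((hL T' 2).1 t)
    · refine (MCALL.flen _ _ ((M + 2) ^ 4) fun T' => ?_).trans ?_
      · have := (hL T' 0).2
        have := (hL T' 1).2
        have := (hL T' 2).2
        rw [List.length_append, List.length_append]
        omega
      · rw [pow_add]
        exact Nat.mul_le_mul_right _ ((length_tuples_le _ _ _).trans
          ((Nat.pow_le_pow_left (by omega) _).trans (Nat.pow_le_pow_right (by omega) (by omega))))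
  · obtain ⟨-, i2, i3, i4, i5⟩ := hMIMP cls hw p M q c h hl (by rw [hp])
    obtain ⟨a1, -, a3, a4, a5, a6, a7⟩ := hMPDI cls p M q false c h
    obtain ⟨-, -, b3, b4, b5, b6, b7⟩ := hMPDI cls p M q true c h
    refine ⟨fun t ht => ?_, ?_⟩
    · rcases List.mem_cons.1 ht with rfl | ht
      · have := List.length_pos_iff.2 i3
        exact ⟨MCALL.oq_mk h a4 i2 a5 (.inr b4) b5, i3,
          show (reps cls p q false c).length < _ by omega⟩
      · refine MCALL.tc h (fun x hx => ⟨?_, a1.ne x hx, ?_⟩) (fun y hy => ?_) t ht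
        · obtain ⟨r, hr, rfl⟩ := (a7 x).1 hx
          exact (a6 r (a4.subset hr)).2.2.1
        · have := i5 x hx
          omega
        · obtain ⟨r, hr, rfl⟩ := (b7 y).1 hy
          exact (b6 r (b4.subset hr)).2.2.1
    · have a := MCALL.tlen q.2.1 q.2.2.2 (n := q.1.length) a3 (b3.trans hl.ge)
      have b : 2 ^ 2 ≤ q.1.length ^ 2 := Nat.pow_le_pow_left h2 2
      refine le_trans ?_ (Nat.pow_le_pow_right (by omega) (Nat.le_add_left 4 _))
      simp only [Option.elim, callsI, List.length_cons]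
      omega

end Pool.Agent.P.MP_f1a348_lc.TO

end

section

/-! Step MOVG. -/

set_option autoImplicit false
set_option linter.unusedSectionVars false

namespace Pool.Agent.P.MP_f1a348_lc.TO

open Pool.Agent.Lib.Helper47 Pool.Agent.P.MP_f1a348_lc.GI

namespace MOVG

theorem pow_fix {X : Type} [MulAction U X] {g : U} {x : X} (h : g • x = x) (r : ℕ) :
    g ^ r • x = x := by
  induction r with
  | zero => simp
  | succ r ih => rw [pow_succ, mul_smul, h, ih]

theorem over_one (E : List (ℕ × ℕ)) (D : List ℕ) (a : PD) : Over E D a a E 1 1 :=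
  ⟨fun _ _ => rfl, fun u hu => ⟨u, hu, (one_smul _ _).symm,
    ⟨Set.bijOn_id _, fun _ _ _ _ => Iff.rfl⟩⟩⟩

theorem over_mul (hMAUT : S_MAUT) {E : List (ℕ × ℕ)} {D : List ℕ} {a : PD} {h h' s s' : U}
    (keep : ∀ x ∈ D, h'.app x ∈ D) (o : Over E D a a E h s) (o' : Over E D a a E h' s') :
    Over E D a a E (h * h') (s * s') := by
  refine ⟨fun d hd => ?_, fun u hu => ?_⟩
  · rw [FP.app_mul, FP.app_mul, o'.eq d hd, o.eq _ (keep d hd)]
  · obtain ⟨v, hv, e, i⟩ := o'.fwd u hu
    obtain ⟨w, hw, e', i'⟩ := o.fwd v hv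
    exact ⟨w, hw, by rw [e', e, mul_smul], hMAUT.2.2.2.2.1 s'.app s.app _ _ _ _ _ _ i i'⟩

theorem over_inv (hMAUT : S_MAUT) {E : List (ℕ × ℕ)} {D N : List ℕ} {a : PD} {h s : U}
    (pa : IsPD N a) (keep : ∀ x ∈ D, h⁻¹.app x ∈ D) (o : Over E D a a E h s) :
    Over E D a a E h⁻¹ s⁻¹ := by
  refine ⟨fun d hd => ?_, fun v hv => ?_⟩
  · apply s.app_injective
    rw [FP.app_app_inv, o.eq _ (keep d hd), FP.app_app_inv]
  · have fin : {l : Str | l ∈ a.map Prod.fst}.Finite := List.finite_toSet _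
    have maps : Set.MapsTo (fun l : Str => h • l) {l : Str | l ∈ a.map Prod.fst}
        {l : Str | l ∈ a.map Prod.fst} := by
      intro l hl
      obtain ⟨u, hu, rfl⟩ := List.mem_map.1 hl
      obtain ⟨w, hw, e, -⟩ := o.fwd u hu
      exact List.mem_map.2 ⟨w, hw, e⟩
    have bij := (fin.injOn_iff_bijOn_of_mapsTo maps).1 (MulAction.injective h).injOn
    obtain ⟨l, hl, e⟩ := bij.surjOn (List.mem_map.2 ⟨v, hv, rfl⟩)
    obtain ⟨u, hu, rfl⟩ := List.mem_map.1 hl
    obtain ⟨w, hw, e', i⟩ := o.fwd u hu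
    have : w = v := pa.inj w hw v hv (e'.trans e)
    subst this
    exact ⟨u, hu, by rw [e', inv_smul_smul], hMAUT.2.2.2.2.2.1 _ _ _ _ _ i⟩

end MOVG

theorem p_MOVG (hMAUT : S_MAUT) :
    S_MOVG := by
  intro E D N a H S pa tour ni keep hS
  have main : ∀ s ∈ gen S, ∃ h ∈ H, Over E D a a E h s := by
    intro s hs
    induction hs using Subgroup.closure_induction with
    | mem x hx => exact (hS x hx).2
    | one => exact ⟨1, H.one_mem, MOVG.over_one E D a⟩
    | mul x y _ _ hx hy =>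
      obtain ⟨h, hh, o⟩ := hx
      obtain ⟨h', hh', o'⟩ := hy
      exact ⟨h * h', H.mul_mem hh hh', MOVG.over_mul hMAUT (keep h' hh') o o'⟩
    | inv x _ hx =>
      obtain ⟨h, hh, o⟩ := hx
      exact ⟨h⁻¹, H.inv_mem hh, MOVG.over_inv hMAUT pa (keep _ (H.inv_mem hh)) o⟩
  refine ⟨fun s hs ss => ?_, main⟩
  obtain ⟨h, hh, o⟩ := main s hs
  obtain ⟨r, hr⟩ := hMAUT.2.2.2.1 H ni h hh
  have s2 : ∀ x, s.app (s.app x) = x := fun x => by rw [← FP.app_mul, ss, FP.app_one]
  have sup := hMAUT.2.1 (D ++ N) S (fun s hs => (hS s hs).1) s hs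
  refine FP.ext fun x => ?_
  rw [FP.app_one]
  by_cases hD : x ∈ D
  · have e : (h * h) • x = x := by
      rw [FP.smul_def, FP.app_mul, ← o.eq x hD, ← o.eq _ (by rw [o.eq x hD]; exact keep h hh x hD),
        s2]
    have e2 := MOVG.pow_fix e r
    rw [← hr, FP.smul_def] at e2
    rw [o.eq x hD, e2]
  by_cases hN : x ∈ N
  · obtain ⟨u, hu, hx⟩ := (pa.cover x).1 hN
    obtain ⟨v, hv, e, i⟩ := o.fwd u hu
    obtain ⟨w, hw, e', i'⟩ := o.fwd v hv
    have hxw : x ∈ w.2 := by
      have := i'.bij.mapsTo (i.bij.mapsTo hx)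
      rwa [s2] at this
    have uw : u = w := pa.disj u hu w hw x hx hxw
    have e1 : (h * h) • u.1 = u.1 := by rw [mul_smul, ← e, ← e', uw]
    have e2 := MOVG.pow_fix e1 r
    rw [← hr] at e2
    have vu : v = u := pa.inj v hv u hu (e.trans e2)
    subst vu
    exact hMAUT.1 v.2 E s (tour v hv) i (fun y _ => s2 y) x hx
  · exact sup x (by simp [hD, hN])

end Pool.Agent.P.MP_f1a348_lc.TO

end

section

/-! Step MPARTS. -/

set_option autoImplicit false
set_option linter.unusedSectionVars false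

namespace Pool.Agent.P.MP_f1a348_lc.TO

open Pool.Agent.Lib.Helper47 Pool.Agent.P.MP_f1a348_lc.GI

namespace MPARTS

theorem mem_fib {N : List ℕ} {f : ℕ → Str} {z y : ℕ} : y ∈ fib N f z ↔ y ∈ N ∧ f y = f z := by
  simp [fib]

theorem fib_eq {N : List ℕ} {f : ℕ → Str} {z y : ℕ} (h : f y = f z) : fib N f y = fib N f z := by
  simp only [fib, h]

theorem mem_parts {N : List ℕ} {f : ℕ → Str} {x : Str × List ℕ} :
    x ∈ parts N f ↔ ∃ z ∈ N, x = (f z, fib N f z) := by
  simp only [parts, List.mem_map, List.mem_filter, beq_iff_eq]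
  constructor
  · rintro ⟨z, ⟨h1, -⟩, rfl⟩
    exact ⟨z, h1, rfl⟩
  · rintro ⟨z, h1, rfl⟩
    have h2 : fib N f z ≠ [] := List.ne_nil_of_mem (mem_fib.2 ⟨h1, rfl⟩)
    obtain ⟨h3, h4⟩ := mem_fib.1 (List.head_mem h2)
    refine ⟨_, ⟨h3, ?_⟩, by rw [fib_eq h4, h4]⟩
    rw [fib_eq h4, List.head?_eq_some_head h2]

end MPARTS

open MPARTS in
theorem p_MPARTS :
    S_MPARTS := by
  intro N f hN hE
  refine ⟨⟨?_, ?_, ?_, fun z => ⟨fun hz => ?_, ?_⟩, ?_, ?_, ?_⟩, ?_, fun x => mem_parts⟩
  · refine (hN.filter _).map_on fun x hx y hy e => ?_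
    have h1 := (List.mem_filter.1 hx).2
    have h2 := (List.mem_filter.1 hy).2
    rw [beq_iff_eq] at h1 h2
    have h3 : fib N f x = fib N f y := congrArg Prod.snd e
    rw [h3, h2] at h1
    exact (Option.some.inj h1).symm
  · intro x hx y hy e
    obtain ⟨z, -, rfl⟩ := mem_parts.1 hx
    obtain ⟨w, -, rfl⟩ := mem_parts.1 hy
    have e' : f z = f w := e
    rw [fib_eq e', e']
  · intro x hx y hy v h1 h2
    obtain ⟨z, -, rfl⟩ := mem_parts.1 hx
    obtain ⟨w, -, rfl⟩ := mem_parts.1 hy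
    have e' : f z = f w := (mem_fib.1 h1).2.symm.trans (mem_fib.1 h2).2
    rw [fib_eq e', e']
  · exact ⟨_, mem_parts.2 ⟨z, hz, rfl⟩, mem_fib.2 ⟨hz, rfl⟩⟩
  · rintro ⟨x, hx, h⟩
    obtain ⟨w, -, rfl⟩ := mem_parts.1 hx
    exact (mem_fib.1 h).1
  · intro x hx
    obtain ⟨w, -, rfl⟩ := mem_parts.1 hx
    exact hN.filter _
  · intro x hx
    obtain ⟨w, hw, rfl⟩ := mem_parts.1 hx
    exact List.ne_nil_of_mem (mem_fib.2 ⟨hw, rfl⟩)
  · intro x hx
    obtain ⟨w, hw, rfl⟩ := mem_parts.1 hx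
    exact hE w hw
  · rw [parts, List.length_map]
    exact List.length_filter_le _ _

end Pool.Agent.P.MP_f1a348_lc.TO

end

section

/-! Step MPLAN. -/

set_option autoImplicit false
set_option linter.unusedSectionVars false

namespace Pool.Agent.P.MP_f1a348_lc.TO

open Pool.Agent.Lib.Helper47 Pool.Agent.P.MP_f1a348_lc.GI

namespace MPLAN

variable {cls : Par × Q × Bool × List ℕ → ℕ} {p : Par} {q : Q}

theorem mem_nxt0 {T Z : List ℕ} {z : ℕ} : z ∈ nxt cls p q false T 0 Z ↔ z ∈ q.1 := by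
  simp [nxt, sV]

theorem mem_lay0 {T : List ℕ} {z : ℕ} (i : ℕ) : z ∈ lay cls p q false T 0 (i + 1) ↔ z ∈ q.1 := by
  rw [lay, Function.iterate_succ_apply', mem_nxt0]

theorem pd_nil {T : List ℕ} (i : ℕ) :
    pdL cls p q false T 0 (lay cls p q false T 0 (i + 1)) = [] := by
  have : new cls p q false T 0 (lay cls p q false T 0 (i + 1)) = [] := by
    rw [new, List.filter_eq_nil_iff]
    intro z hz
    simpa using (mem_lay0 i).2 (mem_nxt0.1 hz)
  rw [pdL, this]
  rfl

theorem lab_nil {T : List ℕ} {y z : ℕ} : lab cls p q false T [] y = lab cls p q false T [] z ↔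
    cls (p, q, false, y :: T) = cls (p, q, false, z :: T) := by
  constructor
  · intro h
    have h1 : (none, 2 * cls (p, q, false, y :: T)) ∈ (lab cls p q false T [] y).val := by
      simp [lab]
    rw [h] at h1
    simpa [lab] using h1
  · intro h
    simp [lab, h]

theorem mem_pd0 {T : List ℕ} {x : Str × List ℕ}
    (hx : x ∈ pdL cls p q false T 0 (lay cls p q false T 0 0)) :
    ∃ z ∈ x.2, ∀ y, y ∈ x.2 ↔ y ∈ q.1 ∧ cls (p, q, false, y :: T) = cls (p, q, false, z :: T) := by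
  have hN : ∀ y, y ∈ new cls p q false T 0 [] ↔ y ∈ q.1 := fun y => by
    simp [new, mem_nxt0]
  obtain ⟨z, hz, rfl⟩ := List.mem_map.1 hx
  have hz' := (List.mem_filter.1 hz).1
  have key : ∀ y, y ∈ fib (new cls p q false T 0 []) (lab cls p q false T []) z ↔
      y ∈ q.1 ∧ cls (p, q, false, y :: T) = cls (p, q, false, z :: T) := fun y => by
    rw [fib, List.mem_filter, hN, beq_iff_eq, lab_nil]
  exact ⟨z, (key z).2 ⟨(hN z).1 hz', rfl⟩, key⟩

theorem headD_mem {l : List ℕ} (h : l ≠ []) : l.headD 0 ∈ l := by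
  cases l with
  | nil => exact absurd rfl h
  | cons a l => simp

end MPLAN

open MPLAN in
theorem p_MPLAN (hMPARTS : S_MPARTS) (hMPDL : S_MPDL) :
    S_MPLAN := by
  intro cls hW p M q T κ hq hlen h2 hplan
  have hlev := hq.pre.lev
  have hne : q.1 ≠ [] := fun e => by rw [e] at h2; simp at h2
  have hbig : ∀ c ≤ q.1.length, (c + 1) ^ p.2.length ≤ p.1.length := fun c hc =>
    le_trans (le_trans (Nat.pow_le_pow_left (by omega) _)
      (Nat.pow_le_pow_right (by omega) (by omega))) hq.pre.big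
  have hpre : WLPre p q.1 q.2.2.1 := ⟨hq.pre.na, hq.pre.nb, hlen, hlev, hbig _ le_rfl⟩
  have hsub : ∀ T κ i, ∀ x ∈ pdL cls p q false T κ (lay cls p q false T κ i),
      x.2.Sublist q.1 ∧ κ * x.2.length ≤ q.1.length := fun T κ i x hx =>
    ⟨((hMPDL cls hW p M q false T κ i hq hlen).2.2.2.2.2.2.2 x hx).1,
      ((hMPDL cls hW p M q false T κ i hq hlen).2.2.2.2.2.2.2 x hx).2.1⟩
  have hzero : ∀ T, (¬ ∀ y ∈ q.1, ∀ z ∈ q.1, cls (p, q, false, y :: T) =
      cls (p, q, false, z :: T)) →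
      ∀ i, ∀ x ∈ pdL cls p q false T 0 (lay cls p q false T 0 i), x.2.length < q.1.length := by
    intro T hT i x hx
    cases i with
    | succ i => rw [pd_nil] at hx; simp at hx
    | zero =>
      by_contra hc
      have e := (hsub T 0 0 x hx).1.eq_of_length_le (not_lt.1 hc)
      obtain ⟨z, -, hz⟩ := mem_pd0 hx
      rw [e] at hz
      exact hT fun y hy y' hy' => ((hz y).1 hy).2.trans ((hz y').1 hy').2.symm
  cases hh : hom cls p q with
  | false =>
    rw [plan, hh, cond_false] at hplan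
    obtain ⟨rfl, rfl⟩ : T = [] ∧ κ = 0 := by simpa [eq_comm] using hplan
    refine ⟨by simp, by simp; omega, by simp, by simp, fun x hx => (mem_lay0 2).2 hx,
      hzero [] fun hc => ?_, fun _ => ⟨rfl, pd_nil 0, pd_nil 1, fun x hx B' F' hB hl => ?_⟩⟩
    · have : hom cls p q = true := by
        rw [hom, List.all_eq_true]
        exact fun y hy => beq_iff_eq.2 (hc y hy _ (headD_mem hne))
      rw [hh] at this
      exact Bool.noConfusion this
    · obtain ⟨z, hz, hmem⟩ := mem_pd0 hx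
      have hs := (hsub [] 0 0 x hx).1
      rw [hom, List.all_eq_true]
      intro y hy
      exact beq_iff_eq.2 (hW.atom p q.1 q.2.1 q.2.2.1 q.2.2.2 x.2 B' F' _ hpre
        ⟨hs.nodup hq.pre.na, hB, hl, hlev, hbig _ hs.length_le⟩ hmem y hy _
        (headD_mem (List.ne_nil_of_mem hz)))
  | true =>
    rw [plan, hh, cond_true] at hplan
    have hg : (gainT cls p q).getD ([q.1.headD 0], 0) = (T, κ) := (Prod.ext_iff.1 hplan).2
    cases hgt : gainT cls p q with
    | none =>
      rw [hgt, Option.getD_none] at hg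
      obtain ⟨rfl, rfl⟩ : T = [q.1.headD 0] ∧ κ = 0 := by simpa [eq_comm] using hg
      have ha := headD_mem hne
      refine ⟨by simpa using ha, by simp; omega, by simp; omega, by simp,
        fun x hx => (mem_lay0 2).2 hx, hzero _ fun hc => ?_, fun h => Bool.noConfusion h⟩
      obtain ⟨y, hy, hya⟩ : ∃ y ∈ q.1, y ≠ q.1.headD 0 := by
        by_contra hn
        push Not at hn
        have h3 : q.1.toFinset ⊆ {q.1.headD 0} := fun y hy => by
          simpa using hn y (List.mem_toFinset.1 hy)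
        have h4 := Finset.card_le_card h3
        rw [List.toFinset_card_of_nodup hq.pre.na, Finset.card_singleton] at h4
        omega
      obtain ⟨Γ, hΓ, -⟩ := hW.sys p q.1 q.2.1 q.2.2.1 q.2.2.2 hpre hq.pre.tour
      obtain ⟨f, -, hf⟩ := (hΓ [⟨y, hy⟩, ⟨_, ha⟩] [⟨_, ha⟩, ⟨_, ha⟩] rfl (by simp)
        (by simp; omega)).1 (hc y hy _ ha)
      simp only [List.map_cons, List.map_nil, List.cons.injEq, and_true] at hf
      exact hya (congrArg Subtype.val (f.injective (hf.1.trans hf.2.symm)))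
    | some x =>
      rw [hgt, Option.getD_some] at hg
      subst hg
      have hfull : (lay cls p q false T κ 3).length = q.1.length := by
        simpa using List.find?_some hgt
      obtain ⟨K, -, hK⟩ := List.mem_flatMap.1 (List.mem_of_find?_eq_some hgt)
      obtain ⟨t, ht, hT⟩ := List.mem_flatMap.1 hK
      obtain ⟨T', hT', e⟩ := List.mem_map.1 hT
      obtain ⟨rfl, rfl⟩ : T' = T ∧ (K + 2) ^ T'.length = κ := by simpa using e
      obtain ⟨hl, hm⟩ := tuples_sound hT'
      have ht' : t + 3 ≤ p.2.length := by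
        simp only [List.mem_range, List.length_tail] at ht
        omega
      have hl' : T'.length = t + 1 := by
        rw [hl, List.length_take]; omega
      have e3 : lay cls p q false T' ((K + 2) ^ T'.length) 3 = q.1 :=
        ((hMPDL cls hW p M q false T' _ 3 hq hlen).2.2.2.1).eq_of_length hfull
      have h2k : 2 ^ T'.length ≤ (K + 2) ^ T'.length := Nat.pow_le_pow_left (by omega) _
      have hk : (K + 2) ^ T'.length ≤ q.1.length := by
        have key : ∀ i, ∀ z ∈ lay cls p q false T' ((K + 2) ^ T'.length) i,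
            (K + 2) ^ T'.length ≤ q.1.length := by
          intro i
          induction i with
          | zero => intro z hz; simp [lay] at hz
          | succ i ih =>
            intro z hz
            have hP := hMPDL cls hW p M q false T' ((K + 2) ^ T'.length) i hq hlen
            rcases List.mem_append.1 ((hP.2.2.2.2.2.1 z).1 hz) with h | h
            · exact ih z h
            · obtain ⟨x, hx, hzx⟩ := (hP.1.cover z).1 h
              exact le_trans (Nat.le_mul_of_pos_right _ (List.length_pos_of_mem hzx))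
                (hsub _ _ i x hx).2
        exact key 3 _ (e3.symm ▸ headD_mem hne)
      refine ⟨hm, by omega, (Nat.lt_two_pow_self.le.trans h2k).trans hk, hk,
        fun x hx => e3.symm ▸ hx, fun i x hx => ?_, fun h => Bool.noConfusion h⟩
      have h5 := (hsub _ _ i x hx).2
      have h6 : 2 ≤ (K + 2) ^ T'.length :=
        le_trans (by rw [hl', pow_succ]; exact Nat.le_mul_of_pos_left _ (by positivity)) h2k
      have h7 := Nat.mul_le_mul_right x.2.length h6
      omega

end Pool.Agent.P.MP_f1a348_lc.TO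

end

section

/-! Step MSIZE. -/

set_option autoImplicit false
set_option linter.unusedSectionVars false

namespace Pool.Agent.P.MP_f1a348_lc.TO

open Pool.Agent.Lib.Helper47 Pool.Agent.P.MP_f1a348_lc.GI

namespace MSIZE

theorem pw (M : ℕ) {a b : ℕ} (h : a ≤ b) : (M + 2) ^ a ≤ (M + 2) ^ b :=
  Nat.pow_le_pow_right (by omega) h

theorem up (M a k : ℕ) : 2 ^ k * (M + 2) ^ a ≤ (M + 2) ^ (a + k) := by
  rw [pow_add, mul_comm]
  exact Nat.mul_le_mul_left _ (Nat.pow_le_pow_left (by omega) _)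

theorem szV {M : ℕ} {V : List ℕ} (h : SmV M V) : size V ≤ (M + 2) ^ 3 := by
  have h1 := size_list_le (l := V) (B := 4 * M + 1) fun x hx => by
    have := size_nat_le x
    have := h.2 x hx
    omega
  have h2 := Nat.mul_le_mul_right (4 * M + 1 + 1) h.1
  have h3 : M * (4 * M + 1 + 1) + 1 ≤ (M + 2) ^ 3 := by nlinarith [Nat.zero_le (M ^ 3)]
  omega

theorem szU {M : ℕ} {g : U} (h : Sup (List.range M) g) : size g + 1 ≤ (M + 2) ^ 8 := by
  have h1 := FP.size_le (σ := g) (c := List.range M) fun a ha => by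
    by_contra h2
    exact ha (h a h2)
  have h2 : size (List.range M) ≤ (M + 2) ^ 3 := szV ⟨by simp, fun x hx => List.mem_range.1 hx⟩
  have h3 := Nat.mul_le_mul h2 (Nat.add_le_add_right (Nat.mul_le_mul_left 2 h2) 2)
  have h4 : (M + 2) ^ 3 * (2 * (M + 2) ^ 3 + 2) = 2 * (M + 2) ^ 6 + 2 * (M + 2) ^ 3 := by ring
  have h5 := up M 6 2
  have h6 := up M 3 3
  have h7 := up M 0 3
  norm_num at h5 h6 h7
  omega

theorem szC {M : ℕ} {c : Co} (h : SmC M c) : size c ≤ (M + 2) ^ 13 := by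
  have h1 := szU h.1
  have h2 := size_list_le (l := c.2) (B := (M + 2) ^ 8 - 1) fun x hx => by
    have := szU (h.2.1 x hx)
    omega
  have h3 : c.2.length ≤ (M + 2) ^ 3 := h.2.2.trans (Nat.pow_le_pow_left (by omega) _)
  have h4 : (M + 2) ^ 8 - 1 + 1 = (M + 2) ^ 8 := by omega
  rw [h4] at h2
  have h5 := Nat.mul_le_mul_right ((M + 2) ^ 8) h3
  rw [← pow_add] at h5
  have h6 := up M 11 2
  have h7 := pw M (show 8 ≤ 11 by omega)
  rw [size_prod]
  norm_num at h5 h6
  omega

theorem col {M x : ℕ} (h : x ≤ 4 * (M + 1) ^ M + 2 * M + 2) : size x ≤ 4 * (M * M + 3) + 1 := by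
  refine size_nat_le_of_lt_pow (lt_of_le_of_lt h ?_)
  have h1 : M + 1 ≤ 2 ^ M := Nat.lt_two_pow_self
  have h2 : (M + 1) ^ M ≤ 2 ^ (M * M) := by
    rw [pow_mul]; exact Nat.pow_le_pow_left h1 _
  have h3 : 2 ^ M ≤ 2 ^ (M * M) := Nat.pow_le_pow_right (by omega) (Nat.le_mul_self M)
  rw [pow_add]
  omega

theorem szS {M : ℕ} {s : Str} (h : SmS M s) : size s + 1 ≤ (M + 2) ^ 7 := by
  have h0 : size s = size s.list := rfl
  have h1 := size_list_le (l := s.list) (B := 4 * (M * M) + 4 * M + 17) fun e he => by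
    obtain ⟨h2, h3⟩ := h.2 e (Str.mem_list.1 he)
    have h4 := col h2
    have h5 : size e.1 ≤ 4 * M + 3 := by
      cases h6 : e.1 with
      | none => simp
      | some v =>
        have := h3 v h6
        have := size_nat_le v
        rw [size_some]; omega
    rw [size_prod]; omega
  have h2 : s.list.length ≤ M + 2 := by
    rw [Str.list, srt, Finset.length_sort]; exact h.1
  have h3 : 4 * (M * M) + 4 * M + 17 + 1 ≤ (M + 2) ^ 5 := by
    have h4 := up M 2 3
    norm_num at h4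
    nlinarith
  have h4 := Nat.mul_le_mul h2 h3
  rw [← pow_succ'] at h4
  have h5 := up M 6 1
  have h6 := up M 0 6
  norm_num at h4 h5 h6
  omega

theorem szL {M : ℕ} {X : List Str} (h : SmL M X) : size X ≤ (M + 2) ^ 10 := by
  have h0 := up M 0 7
  have h2 := size_list_le (l := X) (B := (M + 2) ^ 7 - 1) fun x hx => by
    have := szS (h.2 x hx)
    omega
  have h3 : X.length ≤ (M + 2) ^ 2 := h.1.trans (Nat.pow_le_pow_left (by omega) _)
  have h4 : (M + 2) ^ 7 - 1 + 1 = (M + 2) ^ 7 := by norm_num at h0; omega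
  rw [h4] at h2
  have h5 := Nat.mul_le_mul_right ((M + 2) ^ 7) h3
  rw [← pow_add] at h5
  have h6 := up M 9 1
  have h7 := up M 0 9
  norm_num at h5 h6 h7
  omega

end MSIZE

open MSIZE in
theorem p_MSIZE :
    S_MSIZE := by
  refine ⟨16, fun M => ?_⟩
  have a1 := up M 13 3
  have a2 := pw M (show 3 ≤ 13 by omega)
  have a3 := pw M (show 4 ≤ 13 by omega)
  have a4 := pw M (show 10 ≤ 13 by omega)
  have a5 := up M 0 3
  norm_num at a1 a5
  refine ⟨fun V c X Y hV hc hX hY => ?_, fun q hq => ?_, fun q r hq hr => ?_⟩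
  · have := szV hV
    have := szC hc
    have := szL hX
    have := szL hY
    simp only [size_pair]
    omega
  · have := szV hq.a
    have := szV hq.b
    have := hq.e
    have := hq.f
    rw [size_prod, size_prod, size_prod]
    omega
  · rcases r with _ | _ | c
    · rw [size_none]; omega
    · rw [size_some, size_none]; omega
    · obtain ⟨h1, h2⟩ := hr _ rfl
      have h3 : SmC M c := by
        refine ⟨h2 c rfl, fun s hs v hv => h1.sup c rfl s hs v fun h4 => ?_, ?_⟩
        · exact hv (List.mem_range.2 (hq.a.2 v h4))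
        · exact (h1.len c rfl).trans ((Nat.pow_le_pow_left (hq.a.1.trans (Nat.le_succ M)) 2).trans
            (Nat.pow_le_pow_right (by omega) (by omega)))
      have := szC h3
      rw [size_some, size_some]; omega

end Pool.Agent.P.MP_f1a348_lc.TO

end
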