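import Pool.Agent.P.MP_f1a348_lc.TO.MIface

section

/-! Step MCOV. -/

set_option autoImplicit false
set_option linter.unusedSectionVars false

namespace Pool.Agent.P.MP_f1a348_lc.TO

open Pool.Agent.Lib.Helper47 Pool.Agent.P.MP_f1a348_lc.GI

namespace MCOV

variable {E F : List (ℕ × ℕ)} {D N : List ℕ} {a b : PD} {g h x u : U}

theorem over_mul (hMAUT : S_MAUT) (h1 : Over E D a a E h u) (h2 : Over E D a b F g x)
    (hk : ∀ d ∈ D, h.app d ∈ D) : Over E D a b F (g * h) (x * u) := by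
  refine ⟨fun d hd => ?_, fun y hy => ?_⟩
  · rw [FP.app_mul, FP.app_mul, h1.eq d hd, h2.eq _ (hk d hd)]
  · obtain ⟨v, hv, e1, i1⟩ := h1.fwd y hy
    obtain ⟨w, hw, e2, i2⟩ := h2.fwd v hv
    exact ⟨w, hw, by rw [e2, e1, mul_smul], hMAUT.2.2.2.2.1 u.app x.app _ _ _ _ _ _ i1 i2⟩

theorem over_one : Over E D a a E 1 1 :=
  ⟨fun _ _ => rfl, fun y hy => ⟨y, hy, (one_smul _ _).symm,
    ⟨Set.bijOn_id _, fun _ _ _ _ => Iff.rfl⟩⟩⟩

theorem over_inv (hMAUT : S_MAUT) (ha : IsPD N a) (h1 : Over E D a a E h u)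
    (hk : ∀ d ∈ D, h⁻¹.app d ∈ D) : Over E D a a E h⁻¹ u⁻¹ := by
  refine ⟨fun d hd => u.app_injective ?_, fun y hy => ?_⟩
  · rw [FP.app_app_inv, h1.eq _ (hk d hd), FP.app_app_inv]
  · have hm : Set.MapsTo (fun t : Str => h • t) {t | t ∈ a.map Prod.fst}
        {t | t ∈ a.map Prod.fst} := fun t ht => by
      obtain ⟨v, hv, rfl⟩ := List.mem_map.1 ht
      obtain ⟨w, hw, e, -⟩ := h1.fwd v hv
      exact List.mem_map.2 ⟨w, hw, e⟩
    obtain ⟨t, ht, e⟩ := (((List.finite_toSet _).injOn_iff_bijOn_of_mapsTo hm).1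
      (MulAction.injective h).injOn).surjOn (List.mem_map_of_mem (f := Prod.fst) hy)
    obtain ⟨v, hv, rfl⟩ := List.mem_map.1 ht
    obtain ⟨w, hw, e1, i1⟩ := h1.fwd v hv
    obtain rfl : w = y := ha.inj w hw y hy (e1.trans e)
    exact ⟨v, hv, by rw [e1, inv_smul_smul], hMAUT.2.2.2.2.2.1 _ _ _ _ _ i1⟩

theorem over_gen (hMAUT : S_MAUT) (ha : IsPD N a) {S' S : List U}
    (hk : ∀ h ∈ gen S', ∀ x ∈ D, h.app x ∈ D) (hs : ∀ s ∈ S', ∃ u ∈ S, Over E D a a E s u)
    (hh : h ∈ gen S') : ∃ u ∈ gen S, Over E D a a E h u := by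
  induction hh using Subgroup.closure_induction with
  | mem s h1 =>
    obtain ⟨u, h2, h3⟩ := hs s h1
    exact ⟨u, mem_gen h2, h3⟩
  | one => exact ⟨1, one_mem _, over_one⟩
  | mul s t _ h2 i1 i2 =>
    obtain ⟨u, h3, h4⟩ := i1
    obtain ⟨v, h5, h6⟩ := i2
    exact ⟨u * v, mul_mem h3 h5, over_mul hMAUT h6 h4 (hk t h2)⟩
  | inv s h1 i1 =>
    obtain ⟨u, h3, h4⟩ := i1
    exact ⟨u⁻¹, inv_mem h3, over_inv hMAUT ha h4 (hk _ (inv_mem h1))⟩

end MCOV

theorem p_MCOV (hMAUT : S_MAUT) :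
    S_MCOV := by
  intro E F D N N' a b S' S τ τ' g φ ha hb hD hk _ hs hker hτ _ hg hφ hi hM
  obtain ⟨u, hu, h1⟩ := MCOV.over_gen hMAUT ha hk hs hg
  have h2 := MCOV.over_mul hMAUT h1 hτ (hk _ hg)
  rw [mul_inv_cancel_left] at h2
  have h3 : ∀ y ∈ a, DIso (fun z => (τ' * u)⁻¹.app (φ z)) y.2 E y.2 E := fun y hy => by
    obtain ⟨v, hv, e1, i1⟩ := hM.fwd y hy
    obtain ⟨w, hw, e2, i2⟩ := h2.fwd y hy
    obtain rfl : w = v := hb.inj w hw v hv (e2.trans e1.symm)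
    exact hMAUT.2.2.2.2.1 _ _ _ _ _ _ _ _ i1 (hMAUT.2.2.2.2.2.1 _ _ _ _ _ i2)
  have h4 : ∀ z ∈ N, (τ' * u)⁻¹.app (φ z) ∈ N := fun z hz => by
    obtain ⟨y, hy, hz'⟩ := (ha.cover z).1 hz
    exact (ha.cover _).2 ⟨y, hy, (h3 y hy).bij.mapsTo hz'⟩
  obtain ⟨x, h5, h6⟩ : ∃ x : U, (∀ z ∈ N, x.app z = (τ' * u)⁻¹.app (φ z)) ∧
      ∀ z, z ∉ N → x.app z = z := by
    refine ⟨FP.ofList (N.map fun z => (z, (τ' * u)⁻¹.app (φ z))), fun z hz =>
      FP.ofList_map (fun y hy y' hy' e => hi (List.mem_append_right _ hy)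
        (List.mem_append_right _ hy') (FP.app_injective _ e)) hz,
      fun z hz => FP.ofList_fix fun p hp => ?_⟩
    obtain ⟨y, hy, rfl⟩ := List.mem_map.1 hp
    exact ⟨fun e => hz (e ▸ hy), fun e => hz (e ▸ h4 y hy)⟩
  have h7 : x ∈ gen S := hker x (fun v hv => h6 v fun h => hv (List.mem_append_right _ h))
    ⟨fun d hd => h6 d (hD d hd), fun y hy => ⟨y, hy, (one_smul _ _).symm,
      hMAUT.2.2.2.2.2.2.1 _ _ _ _ _ _ (h3 y hy) fun z hz =>
        h5 z ((ha.cover z).2 ⟨y, hy, hz⟩)⟩⟩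
  refine ⟨τ' * u * x, ⟨_, rfl, ?_⟩, fun z hz => ?_⟩
  · change τ'⁻¹ * (τ' * u * x) ∈ gen S
    rw [mul_assoc, inv_mul_cancel_left]
    exact mul_mem hu h7
  · rw [FP.app_mul]
    rcases List.mem_append.1 hz with hz | hz
    · rw [h6 z (hD z hz), h2.eq z hz, hφ z hz]
    · rw [h5 z hz, FP.app_app_inv]

end Pool.Agent.P.MP_f1a348_lc.TO

end

section

/-! Step MIMP. -/

set_option autoImplicit false
set_option linter.unusedSectionVars false

namespace Pool.Agent.P.MP_f1a348_lc.TO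

open Pool.Agent.Lib.Helper47 Pool.Agent.P.MP_f1a348_lc.GI

namespace MIMP

theorem arcs_add {A C D : List ℕ} {E : List (ℕ × ℕ)} (ht : Tour A E) (hC : C.Nodup) (hD : D.Nodup)
    (hCA : ∀ x ∈ C, x ∈ A) (hDA : ∀ x ∈ D, x ∈ A) (hd : ∀ x ∈ C, x ∉ D) :
    arcs E C D + arcs E D C = C.length * D.length := by
  have hp : (prodL D C).Perm ((prodL C D).map Prod.swap) := by
    refine (List.perm_ext_iff_of_nodup (nodup_prodL hD hC)
      ((nodup_prodL hC hD).map Prod.swap_injective)).2 fun e => ?_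
    simp only [List.mem_map, mem_prodL]
    constructor
    · intro h
      exact ⟨e.swap, ⟨h.2, h.1⟩, e.swap_swap⟩
    · rintro ⟨x, hx, rfl⟩
      exact ⟨hx.2, hx.1⟩
  unfold arcs
  rw [hp.countP_eq, List.countP_map, ← length_prodL,
    List.length_eq_countP_add_countP (fun e => E.contains e) (l := prodL C D)]
  congr 1
  refine List.countP_congr fun e he => ?_
  obtain ⟨h1, h2⟩ := mem_prodL.1 he
  have h3 := ht e.2 (hDA _ h2) e.1 (hCA _ h1)
  have h4 : e.2 ≠ e.1 := fun h => hd _ h1 (h ▸ h2)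
  simp only [Function.comp, List.contains_iff_mem, decide_eq_true_eq]
  exact h3.trans ⟨fun h => h.2, fun h => ⟨h4, h⟩⟩

theorem len_eq {A R : List ℕ} {f : ℕ → ℕ} {B : ℕ → List ℕ} {s : ℕ} (hA : A.Nodup) (hR : R.Nodup)
    (hf : ∀ x ∈ A, f x ∈ R) (hB : ∀ r ∈ R, (B r).Nodup ∧ (B r).length = s ∧
      ∀ y, y ∈ B r ↔ y ∈ A ∧ f y = r) : A.length = R.length * s := by
  rw [← List.toFinset_card_of_nodup hA, ← List.toFinset_card_of_nodup hR,
    Finset.card_eq_sum_card_fiberwise (f := f) (t := R.toFinset)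
      (fun x hx => by simpa using hf x (by simpa using hx)), ← smul_eq_mul, ← Finset.sum_const]
  refine Finset.sum_congr rfl fun r hr => ?_
  obtain ⟨h1, h2, h3⟩ := hB r (List.mem_toFinset.1 hr)
  rw [← h2, ← List.toFinset_card_of_nodup h1]
  congr 1
  ext y
  simp [h3]

end MIMP

theorem p_MIMP (hMCOMP : S_MCOMP) (hMPDI : S_MPDI) (hMBLK : S_MBLK) :
    S_MIMP := by
  intro cls hcls p M q c hq hlen hplan
  have hhom : hom cls p q = true := by
    by_contra h
    rw [Bool.not_eq_true] at h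
    simp [plan, h] at hplan
  have himp : impC cls p q = some c := by simpa [plan, hhom] using hplan
  obtain ⟨e, he1, he2, he3, he4, he5⟩ : ∃ e : ℕ × ℕ, e.1 ∈ q.1 ∧ e.2 ∈ q.1 ∧ e.1 ≠ e.2 ∧
      (blk cls p q false c e.1).length < q.1.length ∧ cls (p, q, false, [e.1, e.2]) = c := by
    unfold impC at himp
    cases hf : (prodL q.1 q.1).find? fun e => e.1 != e.2 &&
      Nat.blt (blk cls p q false (cls (p, q, false, [e.1, e.2])) e.1).length q.1.length with
    | none => rw [hf] at himp; simp at himp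
    | some e =>
      rw [hf] at himp
      have h1 : cls (p, q, false, [e.1, e.2]) = c := by simpa using himp
      have h2 := List.find?_some hf
      have h3 := mem_prodL.1 (List.mem_of_find?_eq_some hf)
      simp only [Bool.and_eq_true, bne_iff_ne, ne_eq, Nat.blt_eq, h1] at h2
      exact ⟨e, h3.1, h3.2, h2.1, h2.2, h1⟩
  obtain ⟨s, hs, hodd⟩ := hMBLK cls hcls p M q c hq hlen hhom
  obtain ⟨-, -, -, hsub, -, hb, hpd⟩ := hMPDI cls p M q false c hq
  have hsv : sV q false = q.1 := rfl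
  rw [hsv] at hsub hb
  have hna := hq.pre.na
  have hnd : ∀ x ∈ q.1, (blk cls p q false c x).Nodup := fun x hx => (hb x hx).2.2.1.nodup hna
  have hrep : ∀ r ∈ reps cls p q false c, rep cls p q false c r = r := fun r hr => by
    simpa using (List.mem_filter.1 hr).2
  have hmem : ∀ r ∈ reps cls p q false c, ∀ y,
      y ∈ blk cls p q false c r ↔ y ∈ q.1 ∧ rep cls p q false c y = r := by
    intro r hr y
    obtain ⟨-, -, h1, h2⟩ := hb r (hsub.subset hr)
    constructor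
    · intro hy
      exact ⟨h1.subset hy, ((h2 y (h1.subset hy)).1.1 hy).trans (hrep r hr)⟩
    · intro hy
      exact (h2 y hy.1).1.2 (hy.2.trans (hrep r hr).symm)
  have hn : q.1.length = (reps cls p q false c).length * s :=
    MIMP.len_eq (f := rep cls p q false c) (B := blk cls p q false c) hna (hsub.nodup hna)
      (fun x hx => (hb x hx).1)
      fun r hr => ⟨hnd r (hsub.subset hr), hs r (hsub.subset hr), hmem r hr⟩
  have hb2 : e.2 ∈ blk cls p q false c e.1 := by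
    obtain ⟨P, hP1, hP2⟩ := hMCOMP q.1 (fun u v => cls (p, q, false, [u, v]) == c) e.1 hna
    have : blk cls p q false c e.1 = q.1.filter P := hP1
    rw [this]
    refine List.mem_filter.2 ⟨he2, (hP2 _ he2).2 ⟨he1, Relation.ReflTransGen.single ⟨he2, ?_⟩⟩⟩
    left
    simp [he5]
  have hs2 : 2 ≤ s := by
    rw [← hs e.1 he1]
    have h1 : [e.1, e.2].Subperm (blk cls p q false c e.1) := by
      refine List.Nodup.subperm (by simpa using he3) fun x hx => ?_
      simp only [List.mem_cons, List.not_mem_nil, or_false] at hx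
      rcases hx with rfl | rfl
      · exact (hb _ he1).2.1
      · exact hb2
    exact h1.length_le
  rw [hs e.1 he1] at he4
  have hR : 2 ≤ (reps cls p q false c).length := by
    by_contra h
    have h1 : (reps cls p q false c).length * s ≤ 1 * s := Nat.mul_le_mul_right s (by omega)
    omega
  have hodd' : Odd (s * s) := (hodd (List.ne_nil_of_mem he1)).mul (hodd (List.ne_nil_of_mem he1))
  refine ⟨hhom, ?_, List.ne_nil_of_length_pos (by omega), ?_, ?_⟩
  · intro u hu v hv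
    have hq1 : ∀ a ∈ reps cls p q false c, ∀ b ∈ reps cls p q false c,
        (a, b) ∈ qE cls p q false c ↔
          arcs q.2.1 (blk cls p q false c b) (blk cls p q false c a) <
            arcs q.2.1 (blk cls p q false c a) (blk cls p q false c b) := by
      intro a ha b hb'
      unfold qE
      rw [List.mem_filter, mem_prodL, Nat.blt_eq]
      exact ⟨fun h => h.2, fun h => ⟨⟨ha, hb'⟩, h⟩⟩
    rw [hq1 u hu v hv, hq1 v hv u hu]
    by_cases huv : u = v
    · subst huv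
      simp
    · have h1 := MIMP.arcs_add hq.pre.tour (hnd u (hsub.subset hu)) (hnd v (hsub.subset hv))
        (fun x hx => ((hmem u hu x).1 hx).1) (fun x hx => ((hmem v hv x).1 hx).1)
        (fun x hx hx' => huv (((hmem u hu x).1 hx).2.symm.trans ((hmem v hv x).1 hx').2))
      rw [hs u (hsub.subset hu), hs v (hsub.subset hv)] at h1
      obtain ⟨k, hk⟩ := hodd'
      constructor
      · intro h
        exact ⟨huv, by omega⟩
      · intro h
        omega
  · rw [hn, mul_comm]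
    exact Nat.mul_le_mul_left _ hs2
  · intro x hx
    obtain ⟨r, hr, rfl⟩ := (hpd x).1 hx
    rw [hn]
    simp only [hs r (hsub.subset hr)]
    exact Nat.mul_le_mul_right s hR

end Pool.Agent.P.MP_f1a348_lc.TO

end

section

/-! Step MPDI. -/

set_option autoImplicit false
set_option linter.unusedSectionVars false

namespace Pool.Agent.P.MP_f1a348_lc.TO

open Pool.Agent.Lib.Helper47 Pool.Agent.P.MP_f1a348_lc.GI

namespace MPDI

variable {V : List ℕ} {r : ℕ → ℕ → Bool}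

theorem sub (h : S_MCOMP) (hV : V.Nodup) (x : ℕ) : (comp V r x).Sublist V := by
  obtain ⟨P, h1, -⟩ := h V r x hV
  rw [h1]; exact List.filter_sublist

theorem mem (h : S_MCOMP) (hV : V.Nodup) {x y : ℕ} : y ∈ comp V r x ↔ y ∈ V ∧ x ∈ V ∧
    Relation.ReflTransGen (fun a b => b ∈ V ∧ (r a b = true ∨ r b a = true)) x y := by
  obtain ⟨P, h1, h2⟩ := h V r x hV
  rw [h1, List.mem_filter]
  exact and_congr_right fun hy => h2 y hy

theorem filt (h : S_MCOMP) (hV : V.Nodup) (x : ℕ) (P : ℕ → Bool)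
    (hP : ∀ y ∈ V, P y = true ↔ y ∈ comp V r x) : V.filter P = comp V r x := by
  obtain ⟨P', h1, -⟩ := h V r x hV
  rw [h1] at hP ⊢
  refine List.filter_congr fun y hy => ?_
  have := hP y hy
  rw [List.mem_filter] at this
  rw [Bool.eq_iff_iff, this]
  exact and_iff_right hy

theorem symm {x y : ℕ} (hx : x ∈ V)
    (e : Relation.ReflTransGen (fun a b => b ∈ V ∧ (r a b = true ∨ r b a = true)) x y) :
    y ∈ V ∧ Relation.ReflTransGen (fun a b => b ∈ V ∧ (r a b = true ∨ r b a = true)) y x := by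
  induction e with
  | refl => exact ⟨hx, .refl⟩
  | tail _ h2 ih => exact ⟨h2.1, .head ⟨ih.1, h2.2.symm⟩ ih.2⟩

theorem self (h : S_MCOMP) (hV : V.Nodup) {x : ℕ} (hx : x ∈ V) : x ∈ comp V r x :=
  (mem h hV).2 ⟨hx, hx, .refl⟩

theorem eq (h : S_MCOMP) (hV : V.Nodup) {x y : ℕ} (hy : y ∈ comp V r x) :
    comp V r y = comp V r x := by
  obtain ⟨h1, h2, h3⟩ := (mem h hV).1 hy
  obtain ⟨P, e1, e2⟩ := h V r y hV
  rw [e1]
  refine filt h hV x P fun z hz => ?_
  rw [e2 z hz, mem h hV]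
  exact ⟨fun k => ⟨hz, h2, h3.trans k.2⟩, fun k => ⟨h1, (symm h2 h3).2.trans k.2.2⟩⟩

theorem headD_mem {l : List ℕ} {x : ℕ} (hx : x ∈ l) (d : ℕ) : l.headD d ∈ l := by
  cases l with
  | nil => cases hx
  | cons a l => exact List.mem_cons_self

theorem headD_eq {l : List ℕ} {x : ℕ} (hx : x ∈ l) (d e : ℕ) : l.headD d = l.headD e := by
  cases l with
  | nil => cases hx
  | cons a l => rfl

theorem hd_mem (h : S_MCOMP) (hV : V.Nodup) {x : ℕ} (hx : x ∈ V) :
    (comp V r x).headD x ∈ comp V r x := headD_mem (self h hV hx) x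

theorem iff (h : S_MCOMP) (hV : V.Nodup) {x y : ℕ} (hx : x ∈ V) (hy : y ∈ V) :
    y ∈ comp V r x ↔ (comp V r y).headD y = (comp V r x).headD x := by
  refine ⟨fun k => ?_, fun k => ?_⟩
  · rw [eq h hV k]; exact headD_eq k _ _
  · rw [← eq h hV (hd_mem h hV hx), ← k, eq h hV (hd_mem h hV hy)]
    exact self h hV hy

theorem mk_inj {a b : ℕ} : Str.mk [(some a, 0)] = Str.mk [(some b, 0)] ↔ a = b := by
  refine ⟨fun e => ?_, fun e => by rw [e]⟩
  have : (some a, 0) ∈ (Str.mk [(some b, 0)]).val := by rw [← e]; simp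
  simpa using this

theorem bound (M : ℕ) : M * M * (8 * M + 3 + 1) + 1 ≤ (M + 2) ^ 4 := by
  have : (M + 2) ^ 4 = M * M * (8 * M + 3 + 1) + 1 +
    (M ^ 4 + 20 * M ^ 2 + 32 * M + 15) := by ring
  omega

end MPDI

theorem p_MPDI (hMPARTS : S_MPARTS) (hMCOMP : S_MCOMP) :
    S_MPDI := by
  intro cls p M q b c hq
  have hV : (sV q b).Nodup := by
    cases b
    · exact hq.pre.na
    · exact hq.pre.nb
  have hS : SmV M (sV q b) := by
    cases b
    · exact hq.sm.a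
    · exact hq.sm.b
  have hsub : ∀ x, (blk cls p q b c x).Sublist (sV q b) := fun x => MPDI.sub hMCOMP hV x
  have hrb : ∀ x ∈ sV q b, rep cls p q b c x ∈ blk cls p q b c x :=
    fun x hx => MPDI.hd_mem hMCOMP hV hx
  have hiff : ∀ x ∈ sV q b, ∀ y ∈ sV q b,
      y ∈ blk cls p q b c x ↔ rep cls p q b c y = rep cls p q b c x :=
    fun x hx y hy => MPDI.iff hMCOMP hV hx hy
  have heq : ∀ x y, y ∈ blk cls p q b c x → blk cls p q b c y = blk cls p q b c x :=
    fun x y hy => MPDI.eq hMCOMP hV hy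
  have hrV : ∀ x ∈ sV q b, rep cls p q b c x ∈ sV q b := fun x hx => (hsub x).subset (hrb x hx)
  have hrr : ∀ x ∈ sV q b, rep cls p q b c x ∈ reps cls p q b c := fun x hx =>
    List.mem_filter.2 ⟨hrV x hx, beq_iff_eq.2 ((hiff x hx _ (hrV x hx)).1 (hrb x hx))⟩
  have hfib : ∀ z ∈ sV q b, fib (sV q b) (fun x => Str.mk [(some (rep cls p q b c x), 0)]) z =
      blk cls p q b c z := fun z hz =>
    MPDI.filt hMCOMP hV z _ fun y hy => by
      rw [beq_iff_eq, MPDI.mk_inj]; exact (hiff z hz y hy).symm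
  obtain ⟨h1, h2, h3⟩ := hMPARTS (sV q b) (fun x => Str.mk [(some (rep cls p q b c x), 0)]) hV
    (fun z _ e he h0 => by
      rw [Str.mem_mk, List.mem_singleton] at he
      rw [he] at h0; cases h0)
  have hrs : (reps cls p q b c).Sublist (sV q b) := List.filter_sublist
  have hlast : ∀ x, x ∈ pdI cls p q b c ↔
      ∃ r ∈ reps cls p q b c, x = (Str.mk [(some r, 0)], blk cls p q b c r) := by
    intro x
    refine (h3 x).trans ⟨?_, ?_⟩
    · rintro ⟨z, hz, rfl⟩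
      exact ⟨_, hrr z hz, by rw [hfib z hz, heq _ _ (hrb z hz)]⟩
    · rintro ⟨z, hz, rfl⟩
      obtain ⟨k1, k2⟩ := List.mem_filter.1 hz
      exact ⟨z, k1, by rw [hfib z k1, beq_iff_eq.1 k2]⟩
  refine ⟨h1, ⟨h2.trans hS.1, fun x hx => ?_⟩, h2, hrs, ?_, fun x hx =>
    ⟨hrr x hx, MPDI.self hMCOMP hV hx, hsub x, fun y hy => ⟨hiff x hx y hy, heq x y⟩⟩, hlast⟩
  · obtain ⟨r, hr, rfl⟩ := (hlast x).1 hx
    refine ⟨⟨(hsub r).length_le.trans hS.1, fun y hy => hS.2 y ((hsub r).subset hy)⟩, ?_, ?_⟩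
    · exact (List.toFinset_card_le _).trans (by simp)
    · intro e he
      rw [Str.mem_mk, List.mem_singleton] at he
      subst he
      refine ⟨Nat.zero_le _, fun v hv => ?_⟩
      cases hv
      exact hS.2 _ (hrs.subset hr)
  · have hl : (qE cls p q b c).length ≤ M * M := by
      refine (List.length_filter_le _ _).trans ?_
      rw [length_prodL]
      exact Nat.mul_le_mul (hrs.length_le.trans hS.1) (hrs.length_le.trans hS.1)
    refine (size_list_le (B := 8 * M + 3) fun e he => ?_).trans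
      (le_trans (by gcongr) (MPDI.bound M))
    obtain ⟨k1, k2⟩ := mem_prodL.1 (List.mem_filter.1 he).1
    have := hS.2 _ (hrs.subset k1)
    have := hS.2 _ (hrs.subset k2)
    have := size_nat_le e.1
    have := size_nat_le e.2
    rw [size_prod]
    omega

end Pool.Agent.P.MP_f1a348_lc.TO

end

section

/-! Step MQUO. -/

set_option autoImplicit false
set_option linter.unusedSectionVars false

namespace Pool.Agent.P.MP_f1a348_lc.TO

open Pool.Agent.Lib.Helper47 Pool.Agent.P.MP_f1a348_lc.GI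

namespace MQUO

theorem rtg {φ : ℕ → ℕ} {A B : List ℕ} {r r' : ℕ → ℕ → Bool}
    (hb : Set.BijOn φ {x | x ∈ A} {x | x ∈ B}) (hr : ∀ u ∈ A, ∀ v ∈ A, r u v = r' (φ u) (φ v))
    {x y : ℕ} (hx : x ∈ A) (hy : y ∈ A) :
    Relation.ReflTransGen (fun a b => b ∈ A ∧ (r a b = true ∨ r b a = true)) x y ↔
      Relation.ReflTransGen (fun a b => b ∈ B ∧ (r' a b = true ∨ r' b a = true)) (φ x) (φ y) := by
  have h1 : ∀ y, Relation.ReflTransGen (fun a b => b ∈ A ∧ (r a b = true ∨ r b a = true)) x y →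
      y ∈ A ∧ Relation.ReflTransGen (fun a b => b ∈ B ∧ (r' a b = true ∨ r' b a = true))
        (φ x) (φ y) := fun y h => by
    induction h with
    | refl => exact ⟨hx, .refl⟩
    | tail _ h ih => exact ⟨h.1, ih.2.tail ⟨hb.mapsTo h.1, by
        rw [← hr _ ih.1 _ h.1, ← hr _ h.1 _ ih.1]; exact h.2⟩⟩
  have h2 : ∀ z, Relation.ReflTransGen (fun a b => b ∈ B ∧ (r' a b = true ∨ r' b a = true))
      (φ x) z → ∃ y ∈ A, φ y = z ∧
        Relation.ReflTransGen (fun a b => b ∈ A ∧ (r a b = true ∨ r b a = true)) x y :=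
    fun z h => by
      induction h with
      | refl => exact ⟨x, hx, rfl, .refl⟩
      | tail _ h ih =>
        obtain ⟨u, hu, rfl, h3⟩ := ih
        obtain ⟨v, hv, rfl⟩ := hb.surjOn h.1
        exact ⟨v, hv, rfl, h3.tail ⟨hv, by rw [hr _ hu _ hv, hr _ hv _ hu]; exact h.2⟩⟩
  refine ⟨fun h => (h1 y h).2, fun h => ?_⟩
  obtain ⟨u, hu, e, h3⟩ := h2 _ h
  exact hb.injOn hu hy e ▸ h3

theorem arcs_eq {φ : ℕ → ℕ} {A B C D C' D' : List ℕ} {E F : List (ℕ × ℕ)} (h : DIso φ A E B F)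
    (hC : C.Sublist A) (hD : D.Sublist A) (nA : A.Nodup) (nC : C'.Nodup) (nD : D'.Nodup)
    (bC : DIso φ C E C' F) (bD : DIso φ D E D' F) : arcs F C' D' = arcs E C D := by
  have p : (prodL C' D').Perm ((prodL C D).map (Prod.map φ φ)) := by
    refine (List.perm_ext_iff_of_nodup (nodup_prodL nC nD) (List.Nodup.map_on
      (fun a ha b hb e => ?_) (nodup_prodL (nA.sublist hC) (nA.sublist hD)))).2 fun e => ?_
    · rw [mem_prodL] at ha hb
      exact Prod.ext (bC.bij.injOn ha.1 hb.1 (congrArg Prod.fst e))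
        (bD.bij.injOn ha.2 hb.2 (congrArg Prod.snd e))
    · rw [mem_prodL, List.mem_map]
      constructor
      · rintro ⟨h1, h2⟩
        obtain ⟨u, hu, e1⟩ := bC.bij.surjOn h1
        obtain ⟨v, hv, e2⟩ := bD.bij.surjOn h2
        exact ⟨(u, v), mem_prodL.2 ⟨hu, hv⟩, Prod.ext e1 e2⟩
      · rintro ⟨a, ha, rfl⟩
        exact ⟨bC.bij.mapsTo (mem_prodL.1 ha).1, bD.bij.mapsTo (mem_prodL.1 ha).2⟩
  rw [arcs, arcs, p.countP_eq, List.countP_map]
  refine List.countP_congr fun a ha => ?_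
  rw [mem_prodL] at ha
  simpa [Prod.map] using (h.arc _ (hC.subset ha.1) _ (hD.subset ha.2)).symm

end MQUO

theorem p_MQUO (hMAUT : S_MAUT) (hMCOMP : S_MCOMP) (hMPDI : S_MPDI) :
    S_MQUO := by
  rintro cls hW p M ⟨A, E, B, F⟩ φ c hq h
  have nA : A.Nodup := hq.pre.na
  have nB : B.Nodup := hq.pre.nb
  have hw : WLPre p A B := ⟨nA, nB, hMAUT.2.2.2.2.2.2.2.2.1 φ A E B F nA nB h, hq.pre.lev,
    le_trans ((Nat.pow_le_pow_left (Nat.le_succ _) _).trans
      (Nat.pow_le_pow_right (by omega) (Nat.le_add_right _ 8))) hq.pre.big⟩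
  obtain ⟨-, -, -, -, -, a1, a2⟩ := hMPDI cls p M _ false c hq
  obtain ⟨-, -, -, -, -, b1, b2⟩ := hMPDI cls p M _ true c hq
  have key : ∀ x ∈ A, ∀ y ∈ A, y ∈ blk cls p (A, E, B, F) false c x ↔
      φ y ∈ blk cls p (A, E, B, F) true c (φ x) := fun x hx y hy => by
    obtain ⟨P, e1, e2⟩ := hMCOMP A (fun u v => cls (p, (A, E, B, F), false, [u, v]) == c) x nA
    obtain ⟨P', e3, e4⟩ := hMCOMP B (fun u v => cls (p, (A, E, B, F), true, [u, v]) == c) (φ x) nB
    have hx' : φ x ∈ B := h.bij.mapsTo hx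
    have hy' : φ y ∈ B := h.bij.mapsTo hy
    show y ∈ comp A _ x ↔ φ y ∈ comp B _ (φ x)
    rw [e1, e3, List.mem_filter, List.mem_filter, e2 y hy, e4 _ hy', and_iff_right hy,
      and_iff_right hy', and_iff_right hx, and_iff_right hx']
    refine MQUO.rtg h.bij (fun u hu v hv => ?_) hx hy
    have l4 := hw.lev
    rw [hW.iso p A E B F φ hw h [u, v] (by simp [hu, hv]) (by simp) (by simp; omega)]
    rfl
  have rA : ∀ r ∈ reps cls p (A, E, B, F) false c, r ∈ A ∧ rep cls p (A, E, B, F) false c r = r :=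
    fun r hr => ⟨(List.mem_filter.1 hr).1, by simpa using (List.mem_filter.1 hr).2⟩
  have rB : ∀ r ∈ reps cls p (A, E, B, F) true c, r ∈ B ∧ rep cls p (A, E, B, F) true c r = r :=
    fun r hr => ⟨(List.mem_filter.1 hr).1, by simpa using (List.mem_filter.1 hr).2⟩
  have iso : ∀ x ∈ A, DIso φ (blk cls p (A, E, B, F) false c x) E
      (blk cls p (A, E, B, F) true c (rep cls p (A, E, B, F) true c (φ x))) F := fun x hx => by
    have hx' : φ x ∈ B := h.bij.mapsTo hx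
    have r1 := rB _ (b1 _ hx').1
    have s1 := (a1 x hx).2.2.1.subset
    rw [((b1 _ hx').2.2.2 _ r1.1).2 (((b1 _ hx').2.2.2 _ r1.1).1.2 r1.2)]
    refine ⟨⟨fun y hy => (key x hx y (s1 hy)).1 hy, fun y hy z hz e =>
      h.bij.injOn (s1 hy) (s1 hz) e, fun z hz => ?_⟩, fun u hu v hv => h.arc u (s1 hu) v (s1 hv)⟩
    obtain ⟨y, hy, rfl⟩ := h.bij.surjOn ((b1 _ hx').2.2.1.subset hz)
    exact ⟨y, (key x hx y hy).2 hz, rfl⟩
  have bij : Set.BijOn (fun r => rep cls p (A, E, B, F) true c (φ r))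
      {x | x ∈ reps cls p (A, E, B, F) false c} {x | x ∈ reps cls p (A, E, B, F) true c} := by
    refine ⟨fun r hr => (b1 _ (h.bij.mapsTo (rA r hr).1)).1, fun r hr t ht e => ?_,
      fun t ht => ?_⟩
    · have := ((a1 t (rA t ht).1).2.2.2 r (rA r hr).1).1.1 ((key t (rA t ht).1 r (rA r hr).1).2
        (((b1 _ (h.bij.mapsTo (rA t ht).1)).2.2.2 _ (h.bij.mapsTo (rA r hr).1)).1.2 e))
      rwa [(rA r hr).2, (rA t ht).2] at this
    · obtain ⟨y, hy, rfl⟩ := h.bij.surjOn (rB t ht).1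
      have r1 := rA _ (a1 y hy).1
      exact ⟨_, (a1 y hy).1, (((b1 _ (rB _ ht).1).2.2.2 _ (h.bij.mapsTo r1.1)).1.1
        ((key y hy _ r1.1).1 (((a1 y hy).2.2.2 _ r1.1).1.2 r1.2))).trans (rB _ ht).2⟩
  refine ⟨_, ⟨bij, fun u hu v hv => ?_⟩, fun g hg => ⟨fun x hx => ?_, fun y hy => ?_⟩⟩
  · have k : ∀ u ∈ reps cls p (A, E, B, F) false c, ∀ v ∈ reps cls p (A, E, B, F) false c, _ :=
      fun u hu v hv => MQUO.arcs_eq h (a1 u (rA u hu).1).2.2.1 (a1 v (rA v hv).1).2.2.1 nA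
        (nB.sublist (b1 _ (rB _ (bij.mapsTo hu)).1).2.2.1)
        (nB.sublist (b1 _ (rB _ (bij.mapsTo hv)).1).2.2.1) (iso u (rA u hu).1) (iso v (rA v hv).1)
    rw [qE, qE, List.mem_filter, List.mem_filter, mem_prodL, mem_prodL, and_iff_right ⟨hu, hv⟩,
      and_iff_right ⟨bij.mapsTo hu, bij.mapsTo hv⟩]
    show Nat.blt (arcs E _ _) (arcs E _ _) = true ↔ Nat.blt (arcs F _ _) (arcs F _ _) = true
    rw [k u hu v hv, k v hv u hu]
  · obtain ⟨r, hr, rfl⟩ := (a2 x).1 hx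
    refine ⟨_, (b2 _).2 ⟨_, bij.mapsTo hr, rfl⟩, ?_, iso r (rA r hr).1⟩
    simp [Str.smul_mk, Str.mv, hg r hr]
  · obtain ⟨t, ht, rfl⟩ := (b2 y).1 hy
    obtain ⟨r, hr, rfl⟩ := bij.surjOn ht
    refine ⟨_, (a2 _).2 ⟨r, hr, rfl⟩, ?_⟩
    simp [Str.smul_mk, Str.mv, hg r hr]

end Pool.Agent.P.MP_f1a348_lc.TO

end

section

/-! Step MTYP. -/

set_option autoImplicit false
set_option linter.unusedSectionVars false

namespace Pool.Agent.P.MP_f1a348_lc.TO

open Pool.Agent.Lib.Helper47 Pool.Agent.P.MP_f1a348_lc.GI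

namespace MTYP

theorem some_iff {M : ℕ} {q : Q} {r : Option Co} (h : OA M q r) :
    r.isSome = true ↔ ∃ φ, DIso φ q.1 q.2.1 q.2.2.1 q.2.2.2 := by
  constructor
  · intro h1
    obtain ⟨c, rfl⟩ := Option.isSome_iff_exists.1 h1
    refine ⟨_, h.1.iso c.1 ⟨c, rfl, ?_⟩⟩
    show c.1⁻¹ * c.1 ∈ gen c.2
    rw [inv_mul_cancel]
    exact one_mem _
  · rintro ⟨φ, hφ⟩
    obtain ⟨g, ⟨c, rfl, -⟩, -⟩ := h.1.cov φ hφ
    rfl

theorem idx_congr {α : Type} (a : List α) (p q : α → Bool) (h : ∀ y ∈ a, p y = q y) :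
    a.findIdx p = a.findIdx q := by
  induction a with
  | nil => rfl
  | cons y a ih =>
    rw [List.findIdx_cons, List.findIdx_cons, h y (by simp),
      ih fun z hz => h z (List.mem_cons_of_mem _ hz)]

theorem idx_both {α : Type} (a : List α) (p q : α → Bool) (h : a.findIdx p = a.findIdx q)
    (hx : ∃ x ∈ a, p x = true) : ∃ y ∈ a, p y = true ∧ q y = true := by
  induction a with
  | nil => simp at hx
  | cons y a ih =>
    rw [List.findIdx_cons, List.findIdx_cons] at h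
    cases hp : p y <;> cases hq : q y <;> rw [hp, hq] at h
    · obtain ⟨x, h1, h2⟩ := hx
      rcases List.mem_cons.1 h1 with rfl | h1
      · rw [hp] at h2; cases h2
      · obtain ⟨z, z1, z2⟩ := ih (Nat.succ.inj h) ⟨x, h1, h2⟩
        exact ⟨z, List.mem_cons_of_mem _ z1, z2⟩
    · cases h
    · cases h
    · exact ⟨y, by simp, hp, hq⟩

end MTYP

theorem p_MTYP (hMAUT : S_MAUT) :
    S_MTYP := by
  obtain ⟨-, -, -, -, h5, h6, h7, h8, -⟩ := hMAUT
  have inv : ∀ A E B F, (∃ φ, DIso φ A E B F) → ∃ ψ, DIso ψ B F A E := by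
    rintro A E B F ⟨φ, hφ⟩
    obtain ⟨g, hg⟩ := h8 φ A E B F hφ
    exact ⟨_, h6 g A E B F (h7 φ _ A E B F hφ hg)⟩
  have cmp : ∀ A E B F C G, (∃ φ, DIso φ A E B F) → (∃ φ, DIso φ B F C G) →
      ∃ φ, DIso φ A E C G := by
    rintro A E B F C G ⟨φ, hφ⟩ ⟨ψ, hψ⟩
    exact ⟨_, h5 φ ψ A E B F C G hφ hψ⟩
  intro M tb E a x C G hx h1 h2
  constructor
  · intro h
    obtain ⟨y, hy, y1, y2⟩ := MTYP.idx_both a _ _ h ⟨x, hx, (MTYP.some_iff (h1 x hx)).2
      ⟨id, Set.bijOn_id _, fun _ _ _ _ => Iff.rfl⟩⟩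
    exact cmp _ _ _ _ _ _ (inv _ _ _ _ ((MTYP.some_iff (h1 y hy)).1 y1))
      ((MTYP.some_iff (h2 y hy)).1 y2)
  · intro h
    refine MTYP.idx_congr a _ _ fun y hy => Bool.eq_iff_iff.2 ?_
    rw [MTYP.some_iff (h1 y hy), MTYP.some_iff (h2 y hy)]
    exact ⟨fun k => cmp _ _ _ _ _ _ k h, fun k => cmp _ _ _ _ _ _ k (inv _ _ _ _ h)⟩

end Pool.Agent.P.MP_f1a348_lc.TO

end
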