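import Pool.Agent.P.MP_f1a348_lc.TO.YE3
import Pool.Agent.P.MP_f1a348_lc.TO.YE2
import Pool.Agent.P.MP_f1a348_lc.TO.YE1
import Pool.Agent.P.MP_f1a348_lc.TO.YM5
import Pool.Agent.P.MP_f1a348_lc.TO.YM6
import Pool.Agent.P.MP_f1a348_lc.TO.YM3
import Pool.Agent.P.MP_f1a348_lc.TO.YM1
import Pool.Agent.P.MP_f1a348_lc.TO.YM2
import Pool.Agent.P.MP_f1a348_lc.TO.YM7
import Pool.Agent.P.MP_f1a348_lc.TO.YM4
import Pool.Agent.P.MP_f1a348_lc.TO.XWLX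
import Pool.Agent.P.MP_f1a348_lc.TO.XFTIME
import Pool.Agent.P.MP_f1a348_lc.TO.XFINX
import Pool.Agent.P.MP_f1a348_lc.TO.AMain
import Pool.Agent.P.MP_f1a348_lc.TO.CMain

/-! All blocks assembled. -/

set_option autoImplicit false

namespace Pool.Agent.P.MP_f1a348_lc.TO

theorem t_EHALF : S_EHALF := p_EHALF

theorem t_EBLK : S_EBLK := p_EBLK

theorem t_ESTEP : S_ESTEP := p_ESTEP t_EBLK

theorem t_ESIZE : S_ESIZE := p_ESIZE

theorem t_EEV : S_EEV := p_EEV t_EHALF t_EBLK t_ESTEP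

theorem t_EENG : S_EENG := p_EENG t_ESTEP t_ESIZE t_EEV

theorem t_EPT : S_EPT := p_EPT

theorem t_EWIN : S_EWIN := p_EWIN

theorem t_EHYP : S_EHYP := p_EHYP

theorem t_ETROK : S_ETROK := p_ETROK t_EENG t_EHYP

theorem t_ETRPT : S_ETRPT := p_ETRPT t_EPT

theorem t_ETRS : S_ETRS := p_ETRS t_EENG t_ETROK

theorem t_ETRH : S_ETRH := p_ETRH t_EENG t_EWIN t_ETROK

theorem t_EREC : S_EREC := p_EREC

theorem t_MRECOK : S_MRECOK := p_MRECOK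

theorem t_MPARTS : S_MPARTS := p_MPARTS

theorem t_MCOMP : S_MCOMP := p_MCOMP

theorem t_MAUT : S_MAUT := p_MAUT

theorem t_MUNI : S_MUNI := p_MUNI t_MAUT

theorem t_MFIN : S_MFIN := p_MFIN t_MAUT

theorem t_MTYP : S_MTYP := p_MTYP t_MAUT

theorem t_MLF : S_MLF := p_MLF t_MAUT

theorem t_MOVG : S_MOVG := p_MOVG t_MAUT

theorem t_MKER : S_MKER := p_MKER t_MAUT

theorem t_MCOV : S_MCOV := p_MCOV t_MAUT

theorem t_MLIFT : S_MLIFT := p_MLIFT t_MAUT t_MTYP t_MLF t_MOVG t_MKER t_MCOV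

theorem t_MLAB : S_MLAB := p_MLAB t_MAUT t_MPARTS

theorem t_MPDL : S_MPDL := p_MPDL t_MPARTS

theorem t_MPDI : S_MPDI := p_MPDI t_MPARTS t_MCOMP

theorem t_MQUO : S_MQUO := p_MQUO t_MAUT t_MCOMP t_MPDI

theorem t_MBLK : S_MBLK := p_MBLK t_MCOMP t_MPDI

theorem t_MIMP : S_MIMP := p_MIMP t_MCOMP t_MPDI t_MBLK

theorem t_MPLAN : S_MPLAN := p_MPLAN t_MPARTS t_MPDL

theorem t_MGAIN : S_MGAIN := p_MGAIN t_MCOMP

theorem t_MCALL : S_MCALL := p_MCALL t_MPDL t_MPDI t_MIMP t_MPLAN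

theorem t_MPIN : S_MPIN := p_MPIN t_MAUT t_MLIFT t_MFIN t_MLAB t_MPDL

theorem t_MFP : S_MFP := p_MFP t_MAUT t_MUNI t_MPIN t_MPLAN

theorem t_MFI : S_MFI := p_MFI t_MAUT t_MLIFT t_MFIN t_MPDI t_MQUO t_MIMP

theorem t_MNODE : S_MNODE := p_MNODE t_MAUT t_MFIN t_MFP t_MFI

theorem t_MSIZE : S_MSIZE := p_MSIZE

theorem t_MINV : S_MINV := p_MINV t_MCALL t_MNODE t_MSIZE

theorem t_MHALT : S_MHALT := p_MHALT t_MRECOK t_MCALL t_MNODE t_MINV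

theorem t_MTC : S_MTC := p_MTC

theorem t_MARI : S_MARI := p_MARI

theorem t_MCNT : S_MCNT := p_MCNT t_MPDL t_MPDI t_MIMP t_MPLAN t_MGAIN t_MCALL t_MTC t_MARI

theorem t_MPT : S_MPT := p_MPT

theorem t_MAINX : S_MAINX := p_MAINX t_MRECOK t_MSIZE t_MINV t_MHALT t_MCNT t_MPT

theorem t_WLX : S_WLX := p_WLX

theorem t_FTIME : S_FTIME := p_FTIME

theorem t_FINX : S_FINX := p_FINX t_FTIME

/-- Tournament isomorphism in time `n ^ o(log n)`. -/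
theorem final : FINAL := by
  have hG : GAME := game_of_gain gain
  obtain ⟨tr, h1⟩ := trx_of t_ETRPT t_ETRS t_ETRH t_EREC hG
  obtain ⟨cls, h2⟩ := t_WLX
  obtain ⟨mn, h3⟩ := t_MAINX t_EREC gain tr cls h1 h2
  exact t_FINX mn h3

end Pool.Agent.P.MP_f1a348_lc.TO
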