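import Pool.Agent.P.MP_f1a348_lc.TO.BDefs

/-! Tournament isomorphism, block B: basic facts on systems. -/

set_option autoImplicit false
set_option linter.unusedSectionVars false

namespace Pool.Agent.P.MP_f1a348_lc.TO

open Equiv Finset
open scoped Classical

namespace Sys

variable {Y : Type} [Fintype Y] [DecidableEq Y] {k : ℕ} {Γ : Sys Y k}

theorem b_sub {A B : Finset Y} {f : Perm Y} (h : Γ.L A f) (hB : B ⊆ A) : Γ.L B f :=
  Γ.loc h hB fun _ _ => rfl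

theorem b_image_fix {S : Finset Y} {f : Perm Y} (h : ∀ x ∈ S, f x = x) : S.image f = S := by
  rw [Finset.image_congr (g := id) fun x hx => h x hx, Finset.image_id]

theorem b_refl (S : Finset Y) (a : Y) : Γ.E1 S a a := ⟨1, ⟨Γ.one _, fun _ _ => rfl⟩, rfl⟩

theorem b_symm {S : Finset Y} {a b : Y} (h : Γ.E1 S a b) : Γ.E1 S b a := by
  obtain ⟨f, ⟨hL, hf⟩, rfl⟩ := h
  refine ⟨f⁻¹, ⟨?_, fun x hx => ?_⟩, by simp⟩
  · have := Γ.inv hL
    rwa [Finset.image_union, b_image_fix hf, Finset.image_singleton] at this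
  · rw [Perm.inv_eq_iff_eq, hf x hx]

theorem b_trans {S : Finset Y} {a b c : Y} (h : Γ.E1 S a b) (h' : Γ.E1 S b c) : Γ.E1 S a c := by
  obtain ⟨f, ⟨hL, hf⟩, rfl⟩ := h
  obtain ⟨g, ⟨gL, hg⟩, rfl⟩ := h'
  refine ⟨g * f, ⟨Γ.mul hL ?_, fun x hx => by simp [hf x hx, hg x hx]⟩, rfl⟩
  rwa [Finset.image_union, b_image_fix hf, Finset.image_singleton]

theorem b_anti {S S' : Finset Y} {a b : Y} (h : Γ.E1 S' a b) (hS : S ⊆ S') : Γ.E1 S a b := by
  obtain ⟨f, ⟨hL, hf⟩, rfl⟩ := h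
  exact ⟨f, ⟨b_sub hL (Finset.union_subset_union hS le_rfl), fun x hx => hf x (hS hx)⟩, rfl⟩

/-- Transport of types along a local automorphism. -/
theorem b_transport {A S : Finset Y} {a b : Y} {f : Perm Y} (hf : Γ.L A f) (hS : S ⊆ A)
    (ha : a ∈ A) (hb : b ∈ A) (h : Γ.E1 S a b) : Γ.E1 (S.image f) (f a) (f b) := by
  obtain ⟨g, ⟨gL, hg⟩, rfl⟩ := h
  have h1 : Γ.L (S ∪ {a}) f := b_sub hf (Finset.union_subset hS (by simpa using ha))
  have h2 : Γ.L (S ∪ {g a}) f := b_sub hf (Finset.union_subset hS (by simpa using hb))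
  have e1 : (S ∪ {a}).image g = S ∪ {g a} := by
    rw [Finset.image_union, b_image_fix hg, Finset.image_singleton]
  have h3 : Γ.L (S ∪ {a}) (f * g) := Γ.mul gL (e1 ▸ h2)
  have e2 : ((S ∪ {a}).image f).image (f⁻¹ : Perm Y) = S ∪ {a} := by
    rw [Finset.image_image]
    simp
  have h4 := Γ.mul (Γ.inv h1) (e2.symm ▸ h3)
  rw [Finset.image_union, Finset.image_singleton] at h4
  refine ⟨f * g * f⁻¹, ⟨h4, fun x hx => ?_⟩, by simp⟩
  obtain ⟨y, hy, rfl⟩ := Finset.mem_image.1 hx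
  simp [hg y hy]

theorem b_mem_atom {S : Finset Y} {a b : Y} : b ∈ Γ.atom S a ↔ Γ.E1 S a b := by simp [atom]

theorem b_mem_tr {T Z : Finset Y} {z z' : Y} :
    z' ∈ Γ.tr T Z z ↔ Γ.E1 T z z' ∧ ∀ y ∈ Z, Γ.E1 (insert y T) z z' := by simp [tr]

theorem b_mem_sm {K : ℕ} {T Z : Finset Y} {z : Y} :
    z ∈ Γ.sm K T Z ↔ K ^ T.card * (Γ.tr T Z z).card ≤ Fintype.card Y := by simp [sm]

theorem b_tr_empty (T : Finset Y) (z : Y) : Γ.tr T ∅ z = Γ.atom T z := by
  ext w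
  simp [b_mem_tr, b_mem_atom]

theorem b_tr_self (T Z : Finset Y) (z : Y) : z ∈ Γ.tr T Z z :=
  b_mem_tr.2 ⟨b_refl _ _, fun _ _ => b_refl _ _⟩

theorem b_tr_eq {T Z : Finset Y} {z z' : Y} (h : z' ∈ Γ.tr T Z z) : Γ.tr T Z z' = Γ.tr T Z z := by
  obtain ⟨h1, h2⟩ := b_mem_tr.1 h
  ext w
  rw [b_mem_tr, b_mem_tr]
  exact ⟨fun h => ⟨b_trans h1 h.1, fun y hy => b_trans (h2 y hy) (h.2 y hy)⟩,
    fun h => ⟨b_trans (b_symm h1) h.1, fun y hy => b_trans (b_symm (h2 y hy)) (h.2 y hy)⟩⟩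

theorem b_sm_mono {K K' : ℕ} {T Z Z' : Finset Y} (hK : K' ≤ K) (hZ : Z ⊆ Z') :
    Γ.sm K T Z ⊆ Γ.sm K' T Z' := by
  intro z hz
  rw [b_mem_sm] at hz ⊢
  refine le_trans (Nat.mul_le_mul (Nat.pow_le_pow_left hK _) (Finset.card_le_card ?_)) hz
  intro w hw
  rw [b_mem_tr] at hw ⊢
  exact ⟨hw.1, fun y hy => hw.2 y (hZ hy)⟩

/-- `Z` is a union of atoms over `T`. -/
def BCl (Γ : Sys Y k) (T Z : Finset Y) : Prop := ∀ z z', Γ.E1 T z z' → z ∈ Z → z' ∈ Z

theorem b_tr_card {T Z : Finset Y} (hk : T.card + 3 ≤ k) (hZ : Γ.BCl T Z) {z z' : Y}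
    (h : Γ.E1 T z z') : (Γ.tr T Z z).card ≤ (Γ.tr T Z z').card := by
  obtain ⟨f, ⟨hL, hf⟩, rfl⟩ := h
  have c1 : (T ∪ {z}).card ≤ T.card + 1 := by
    simpa using Finset.card_union_le T {z}
  obtain ⟨β, hβ⟩ := Γ.ext hL (by omega)
  refine Finset.card_le_card_of_injOn β ?_ β.injective.injOn
  intro w hw
  obtain ⟨h1, h2⟩ := b_mem_tr.1 (Finset.mem_coe.1 hw)
  obtain ⟨g, hg, hgw, gL⟩ := hβ w
  have gT : ∀ x ∈ T, g x = x := fun x hx => by rw [hg x (by simp [hx]), hf x hx]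
  have gz : g z = f z := hg z (by simp)
  refine Finset.mem_coe.2 (b_mem_tr.2 ⟨?_, fun y' hy' => ?_⟩)
  · have := b_transport gL (S := T) (a := z) (b := w) (fun x hx => by simp [hx]) (by simp)
      (by simp) h1
    rwa [b_image_fix gT, gz, hgw] at this
  · have c2 := Finset.card_insert_le w (T ∪ {z})
    obtain ⟨β', hβ'⟩ := Γ.ext gL (by omega)
    obtain ⟨g', hg', hgy, gL'⟩ := hβ' (β'⁻¹ y')
    have ey : g' (β'⁻¹ y') = y' := by rw [hgy]; simp
    have gT' : ∀ x ∈ T, g' x = x := fun x hx => by rw [hg' x (by simp [hx]), gT x hx]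
    have hy : β'⁻¹ y' ∈ Z := hZ _ _ (b_symm ⟨g', ⟨b_sub gL' (fun x hx => by
      simp only [Finset.mem_union, Finset.mem_singleton, Finset.mem_insert] at hx ⊢
      tauto), gT'⟩, ey⟩) hy'
    have := b_transport gL' (S := insert (β'⁻¹ y') T) (a := z) (b := w) (fun x hx => by
      simp only [Finset.mem_union, Finset.mem_singleton, Finset.mem_insert] at hx ⊢
      tauto) (by simp) (by simp) (h2 _ hy)
    rwa [Finset.image_insert, b_image_fix gT', ey, hg' z (by simp), gz, hg' w (by simp),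
      hgw] at this

theorem b_cl_sm {K : ℕ} {T Z : Finset Y} (hk : T.card + 3 ≤ k) (hZ : Γ.BCl T Z) :
    Γ.BCl T (Γ.sm K T Z) := by
  intro z z' h hz
  rw [b_mem_sm] at hz ⊢
  exact le_trans (Nat.mul_le_mul_left _ (b_tr_card hk hZ (b_symm h))) hz

/-- An invariant function of two points. -/
def BInv (Γ : Sys Y k) {R : Type} (M : Y → Y → R) : Prop :=
  ∀ a b (f : Perm Y), Γ.L {a, b} f → M (f a) (f b) = M a b

theorem BInv.e1 {R : Type} {M : Y → Y → R} (hM : Γ.BInv M) {S : Finset Y} {a b y : Y}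
    (h : Γ.E1 S a b) (hy : y ∈ S) : M b y = M a y ∧ M y b = M y a := by
  obtain ⟨f, ⟨hL, hf⟩, rfl⟩ := h
  constructor
  · have := hM a y f (b_sub hL fun x hx => by
      rcases Finset.mem_insert.1 hx with rfl | hx
      · simp
      · simp [Finset.mem_singleton.1 hx, hy])
    rwa [hf y hy] at this
  · have := hM y a f (b_sub hL fun x hx => by
      rcases Finset.mem_insert.1 hx with rfl | hx
      · simp [hy]
      · simp [Finset.mem_singleton.1 hx])
    rwa [hf y hy] at this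

/-- The bijection that transports third points. -/
theorem b_beta (hk : 3 ≤ k) {a b : Y} {f : Perm Y} (h : Γ.L {a, b} f) :
    ∃ β : Perm Y, ∀ (R : Type) (M : Y → Y → R), Γ.BInv M → ∀ w,
      M (f a) (β w) = M a w ∧ M (f b) (β w) = M b w ∧ M (β w) (f b) = M w b := by
  obtain ⟨β, hβ⟩ := Γ.ext h (lt_of_le_of_lt Finset.card_le_two (by omega))
  refine ⟨β, fun R M hM w => ?_⟩
  obtain ⟨g, hg, hw, gL⟩ := hβ w
  rw [← hg a (by simp), ← hg b (by simp), ← hw]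
  refine ⟨hM _ _ _ (b_sub gL ?_), hM _ _ _ (b_sub gL ?_), hM _ _ _ (b_sub gL ?_)⟩ <;>
  · intro x hx
    simp only [Finset.mem_singleton, Finset.mem_insert] at hx ⊢
    tauto

theorem BInv.mul (hk : 3 ≤ k) {M N : Matrix Y Y ℝ} (hM : Γ.BInv M) (hN : Γ.BInv N) :
    Γ.BInv (M * N : Matrix Y Y ℝ) := by
  intro a b f h
  obtain ⟨β, hβ⟩ := b_beta hk h
  rw [Matrix.mul_apply, Matrix.mul_apply, ← Equiv.sum_comp β]
  exact Finset.sum_congr rfl fun w _ => by rw [(hβ _ M hM w).1, (hβ _ N hN w).2.2]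

theorem BInv.aeval (hk : 3 ≤ k) {M : Matrix Y Y ℝ} (hM : Γ.BInv M) (p : Polynomial ℝ) :
    Γ.BInv (Polynomial.aeval M p : Matrix Y Y ℝ) := by
  induction p using Polynomial.induction_on with
  | C c =>
    intro a b f _
    simp [Matrix.algebraMap_matrix_apply]
  | add p q hp hq =>
    intro a b f h
    rw [map_add, Matrix.add_apply, Matrix.add_apply, hp a b f h, hq a b f h]
  | monomial n c ih =>
    rw [pow_succ, ← mul_assoc, map_mul, Polynomial.aeval_X]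
    exact ih.mul hk hM

/-- The invariant orientation. -/
theorem b_orient (Γ : Sys Y k) : ∃ M : Matrix Y Y ℝ, (∀ a, M a a = 0) ∧
    (∀ a b, a ≠ b → M a b = 1 ∨ M a b = -1) ∧ (∀ a b, M b a = -M a b) ∧ Γ.BInv M := by
  let c : Y → Y → Set (Y × Y) := fun a b => {p | ∃ f, Γ.L {a, b} f ∧ f a = p.1 ∧ f b = p.2}
  have hc : Γ.BInv c := by
    intro a b f h
    have e : ({a, b} : Finset Y).image f = {f a, f b} := by simp
    ext p
    constructor
    · rintro ⟨g, gL, h1, h2⟩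
      exact ⟨g * f, Γ.mul h (e ▸ gL), h1, h2⟩
    · rintro ⟨g, gL, h1, h2⟩
      have e2 : (({a, b} : Finset Y).image f).image (f⁻¹ : Perm Y) = {a, b} := by simp
      have := Γ.mul (Γ.inv h) (e2.symm ▸ gL)
      rw [e] at this
      exact ⟨g * f⁻¹, this, by simpa using h1, by simpa using h2⟩
  have hne : ∀ a b, a ≠ b → c a b ≠ c b a := by
    intro a b hab e
    have h1 : (b, a) ∈ c b a := ⟨1, Γ.one _, rfl, rfl⟩
    rw [← e] at h1
    obtain ⟨g, gL, h2, h3⟩ := h1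
    exact hab (Γ.anti gL h2 h3)
  let i := Fintype.equivFin (Set (Y × Y))
  refine ⟨fun a b => if i (c a b) < i (c b a) then 1 else if i (c b a) < i (c a b) then -1 else 0,
    fun a => by simp, fun a b hab => ?_, fun a b => ?_, fun a b f h => ?_⟩
  · rcases lt_trichotomy (i (c a b)) (i (c b a)) with h | h | h
    · simp [h]
    · exact absurd (i.injective h) (hne a b hab)
    · simp [h, h.not_gt]
  · rcases lt_trichotomy (i (c a b)) (i (c b a)) with h | h | h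
    · simp [h, h.not_gt]
    · simp [h]
    · simp [h, h.not_gt]
  · have h' : Γ.L {b, a} f := by rwa [Finset.pair_comm]
    simp only [hc a b f h, hc b a f h']

theorem b_rowsum (hk : 3 ≤ k) (hH : Γ.Hom) {M : Matrix Y Y ℝ} (hM : Γ.BInv M)
    (ha : ∀ a b, M b a = -M a b) (a : Y) : ∑ y, M a y = 0 := by
  have h1 : ∀ b, ∑ y, M b y = ∑ y, M a y := by
    intro b
    obtain ⟨f, ⟨hL, -⟩, rfl⟩ := hH a b
    obtain ⟨β, hβ⟩ := b_beta hk (a := a) (b := a) (f := f) (by simpa using hL)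
    rw [← Equiv.sum_comp β]
    exact Finset.sum_congr rfl fun w _ => (hβ _ M hM w).1
  have h2 : ∑ b, ∑ y, M b y = -∑ b, ∑ y, M b y :=
    calc ∑ b, ∑ y, M b y = ∑ y, ∑ b, M b y := Finset.sum_comm
      _ = ∑ y, ∑ b, -M y b :=
          Finset.sum_congr rfl fun y _ => Finset.sum_congr rfl fun b _ => ha y b
      _ = -∑ b, ∑ y, M b y := by simp only [Finset.sum_neg_distrib]
  have h3 : ∑ b, ∑ y, M b y = 0 := by linarith
  rw [Finset.sum_congr rfl fun b _ => h1 b, Finset.sum_const, Finset.card_univ, nsmul_eq_mul] at h3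
  have h4 : (Fintype.card Y : ℝ) ≠ 0 := by
    have : 0 < Fintype.card Y := Fintype.card_pos_iff.2 ⟨a⟩
    positivity
  exact (mul_eq_zero.1 h3).resolve_left h4

/-- Lowering the level. -/
def blow (Γ : Sys Y k) {k' : ℕ} (h : k' ≤ k) : Sys Y k' where
  L := Γ.L
  loc := Γ.loc
  one := Γ.one
  inv := Γ.inv
  mul := Γ.mul
  ext := fun hL hA => Γ.ext hL (lt_of_lt_of_le hA h)
  anti := Γ.anti

end Sys

end Pool.Agent.P.MP_f1a348_lc.TO
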