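import Mathlib

/-! The block lemma: a family of subgroups of a normal subgroup of a primitive group. -/

set_option linter.unusedSectionVars false

namespace Pool.Agent.P.MP_f1a348_lc.TO

open Equiv Finset
open scoped Classical

section core
variable {E : Type} [Fintype E] [DecidableEq E]

/-- orbit relation -/
def blkOb (H : Subgroup (Perm E)) : Setoid E where
  r x y := ∃ h ∈ H, h x = y
  iseqv := ⟨fun x => ⟨1, H.one_mem, rfl⟩,
    fun ⟨h, hh, e⟩ => ⟨h⁻¹, H.inv_mem hh, by rw [← e]; simp⟩,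
    fun ⟨h, hh, e⟩ ⟨g, hg, e'⟩ => ⟨g * h, H.mul_mem hg hh, by rw [← e', ← e]; rfl⟩⟩

def blkNrm (K M : Subgroup (Perm E)) : Prop := ∀ k ∈ K, ∀ m ∈ M, k * m * k⁻¹ ∈ M

def blkMin (K M : Subgroup (Perm E)) : Prop :=
  M ≤ K ∧ M ≠ ⊥ ∧ blkNrm K M ∧ ∀ N ≤ M, blkNrm K N → N = ⊥ ∨ N = M

def blkCj (q : Perm E) (M : Subgroup (Perm E)) : Subgroup (Perm E) :=
  M.comap (MulAut.conj q⁻¹).toMonoidHom

def blkPrim (Q : Subgroup (Perm E)) : Prop := ∀ r : Setoid E,
  (∀ q ∈ Q, ∀ x y, r x y → r (q x) (q y)) → (∀ x y, r x y → x = y) ∨ ∀ x y, r x y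

theorem blk_mem_cj {q g : Perm E} {M : Subgroup (Perm E)} :
    g ∈ blkCj q M ↔ q⁻¹ * g * q ∈ M := by
  simp [blkCj]

theorem blk_cj_cj (p q : Perm E) (M : Subgroup (Perm E)) :
    blkCj p (blkCj q M) = blkCj (p * q) M := by
  ext g
  simp [blk_mem_cj, mul_assoc]

theorem blk_cj_one (M : Subgroup (Perm E)) : blkCj 1 M = M := by
  ext g
  simp [blk_mem_cj]

theorem blk_ob_pres {K H : Subgroup (Perm E)} (hn : blkNrm K H) {g : Perm E} (hg : g ∈ K)
    {x y : E} (h : blkOb H x y) : blkOb H (g x) (g y) := by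
  obtain ⟨h, hh, e⟩ := h
  exact ⟨g * h * g⁻¹, hn g hg h hh, by simp [e]⟩

theorem blk_ob_mono {H H' : Subgroup (Perm E)} (hl : H ≤ H') {x y : E} (h : blkOb H x y) :
    blkOb H' x y := by
  obtain ⟨h, hh, e⟩ := h
  exact ⟨h, hl hh, e⟩

theorem blk_ob_cj {M : Subgroup (Perm E)} {q : Perm E} {x y : E} :
    blkOb (blkCj q M) (q x) (q y) ↔ blkOb M x y := by
  constructor
  · rintro ⟨h, hh, e⟩
    exact ⟨q⁻¹ * h * q, blk_mem_cj.1 hh, by simp [e]⟩
  · rintro ⟨h, hh, e⟩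
    exact ⟨q * h * q⁻¹, blk_mem_cj.2 (by simpa [mul_assoc] using hh), by simp [e]⟩

theorem blk_trans {Q H : Subgroup (Perm E)} (hp : blkPrim Q) (hn : blkNrm Q H) (h0 : H ≠ ⊥)
    (x y : E) : blkOb H x y := by
  rcases hp (blkOb H) (fun q hq x y h => blk_ob_pres hn hq h) with h | h
  · refine absurd ((Subgroup.eq_bot_iff_forall H).2 fun g hg => Equiv.ext fun z => ?_) h0
    exact (h z (g z) ⟨g, hg, rfl⟩).symm
  · exact h x y

theorem blk_min_cj {Q K M : Subgroup (Perm E)} (hK : blkNrm Q K) (hM : blkMin K M) {q : Perm E}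
    (hq : q ∈ Q) : blkMin K (blkCj q M) := by
  obtain ⟨h1, h2, h3, h4⟩ := hM
  have hK' : ∀ k ∈ K, q⁻¹ * k * q ∈ K := fun k hk => by simpa using hK q⁻¹ (Q.inv_mem hq) k hk
  refine ⟨fun g hg => ?_, fun h => h2 ?_, fun k hk m hm => ?_, fun N hN hn => ?_⟩
  · simpa [mul_assoc] using hK q hq _ (h1 (blk_mem_cj.1 hg))
  · rw [← blk_cj_one M, ← inv_mul_cancel q, ← blk_cj_cj, h]
    ext g
    simp [blk_mem_cj, mul_assoc, mul_inv_eq_iff_eq_mul, ← mul_assoc]
  · rw [blk_mem_cj] at hm ⊢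
    simpa [mul_assoc] using h3 _ (hK' k hk) _ hm
  · have e : N = blkCj q (blkCj q⁻¹ N) := by rw [blk_cj_cj, mul_inv_cancel, blk_cj_one]
    rcases h4 (blkCj q⁻¹ N) (fun g hg => by
        simpa [mul_assoc] using blk_mem_cj.1 (hN (blk_mem_cj.1 hg))) (fun k hk m hm => by
        rw [blk_mem_cj] at hm ⊢
        simpa [mul_assoc] using hn _ (hK q hq k hk) _ hm) with h | h
    · left
      rw [e, h]
      ext g
      simp [blk_mem_cj, mul_assoc, inv_mul_eq_iff_eq_mul]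
    · right
      rw [e, h]

theorem blk_comm {K M N : Subgroup (Perm E)} (hM : blkMin K M) (hN : blkMin K N) (hne : M ≠ N)
    {g h : Perm E} (hg : g ∈ M) (hh : h ∈ N) : g * h = h * g := by
  have hn : blkNrm K (M ⊓ N) := fun k hk m hm => ⟨hM.2.2.1 k hk m hm.1, hN.2.2.1 k hk m hm.2⟩
  have h0 : M ⊓ N = ⊥ := by
    rcases hM.2.2.2 _ inf_le_left hn with h | h
    · exact h
    · rcases hN.2.2.2 _ inf_le_right hn with h' | h'
      · exact h'
      · exact absurd (h.symm.trans h') hne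
  have h1 : g * h * g⁻¹ * h⁻¹ ∈ M ⊓ N := by
    refine ⟨?_, N.mul_mem (hN.2.2.1 g (hM.1 hg) h hh) (N.inv_mem hh)⟩
    have := M.mul_mem hg (hM.2.2.1 h (hN.1 hh) _ (M.inv_mem hg))
    simpa [mul_assoc] using this
  rw [h0, Subgroup.mem_bot, mul_inv_eq_one, mul_inv_eq_iff_eq_mul] at h1
  exact h1

theorem blk_exists_min {K A : Subgroup (Perm E)} (hA : A ≤ K) (h0 : A ≠ ⊥) (hn : blkNrm K A) :
    ∃ M ≤ A, blkMin K M := by
  obtain ⟨M, ⟨h1, h2, h3⟩, hm⟩ := (wellFounded_lt (α := Subgroup (Perm E))).has_min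
    {M | M ≤ A ∧ M ≠ ⊥ ∧ blkNrm K M} ⟨A, le_rfl, h0, hn⟩
  refine ⟨M, h1, h1.trans hA, h2, h3, fun N hN hn' => ?_⟩
  by_contra hc
  push Not at hc
  exact hm N ⟨hN.trans h1, hc.1, hn'⟩ (lt_of_le_of_ne hN hc.2)

/-- conjugates of `M` -/
def blkS (Q M : Subgroup (Perm E)) : Set (Subgroup (Perm E)) := {N | ∃ q ∈ Q, N = blkCj q M}

def blkD (Q M N : Subgroup (Perm E)) : Subgroup (Perm E) := sSup (blkS Q M \ {N})

theorem blk_S_cj {Q M N : Subgroup (Perm E)} (hN : N ∈ blkS Q M) {q : Perm E} (hq : q ∈ Q) :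
    blkCj q N ∈ blkS Q M := by
  obtain ⟨p, hp, rfl⟩ := hN
  exact ⟨q * p, Q.mul_mem hq hp, blk_cj_cj _ _ _⟩

theorem blk_join {Q K M N P : Subgroup (Perm E)} (hp : blkPrim Q) (hK : blkNrm Q K)
    (hM : blkMin K M) (hN : N ∈ blkS Q M) (hP : P ≤ blkD Q M N) (hn : blkNrm K P) :
    (∀ x y, blkOb N x y → blkOb P x y → x = y) ∨ ∀ x y, blkOb N x y → blkOb P x y := by
  have hmin : ∀ N' ∈ blkS Q M, blkMin K N' := by
    rintro _ ⟨q, hq, rfl⟩
    exact blk_min_cj hK hM hq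
  let r : Setoid E := ⟨fun x y => ∀ N' ∈ blkS Q M, blkOb (blkD Q M N') x y,
    fun x N' _ => (blkOb _).refl x, fun h N' h' => (blkOb _).symm (h N' h'),
    fun h h2 N' h' => (blkOb _).trans (h N' h') (h2 N' h')⟩
  rcases hp r (fun q hq x y h N' hN' => by
      have h1 := h _ (blk_S_cj hN' (Q.inv_mem hq))
      refine blk_ob_mono ?_ ((blk_ob_cj (q := q)).2 h1)
      intro g hg
      have hle : blkD Q M (blkCj q⁻¹ N') ≤ blkCj q⁻¹ (blkD Q M N') :=
        sSup_le fun N'' hN'' d hd => blk_mem_cj.2 ((le_sSup (show blkCj q N'' ∈ blkS Q M \ {N'}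
          from ⟨blk_S_cj hN''.1 hq, fun e => hN''.2 (by
            rw [Set.mem_singleton_iff] at e ⊢
            rw [← e, blk_cj_cj, inv_mul_cancel, blk_cj_one])⟩) : _ ≤ blkD Q M N')
          (blk_mem_cj.2 (by simpa [mul_assoc] using hd)))
      simpa [mul_assoc] using blk_mem_cj.1 (hle (blk_mem_cj.1 hg))) with h | h
  · left
    intro x y h1 h2
    refine h x y fun N' hN' => ?_
    by_cases e : N' = N
    · exact e ▸ blk_ob_mono hP h2
    · exact blk_ob_mono (le_sSup (show N ∈ blkS Q M \ {N'} from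
        ⟨hN, fun e' => e (Set.mem_singleton_iff.1 e').symm⟩)) h1
  · have hDK : blkD Q M N ≤ K := sSup_le fun N' hN' => (hmin N' hN'.1).1
    have hDc : ∀ g ∈ N, ∀ d ∈ blkD Q M N, g * d = d * g := fun g hg d hd =>
      (sSup_le (s := blkS Q M \ {N}) (a := Subgroup.centralizer {g}) (fun N' hN' d hd =>
        Subgroup.mem_centralizer_iff.2 fun g' hg' => by
          rw [Set.mem_singleton_iff.1 hg']
          exact blk_comm (hmin N hN) (hmin N' hN'.1) (fun e => hN'.2 e.symm) hg hd) hd) g rfl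
    let T : Subgroup (Perm E) :=
      { carrier := {g | g ∈ N ∧ ∀ y, blkOb P y (g y)}
        one_mem' := ⟨N.one_mem, fun y => (blkOb P).refl y⟩
        mul_mem' := fun {a b} ha hb => ⟨N.mul_mem ha.1 hb.1, fun y =>
          (blkOb P).trans (hb.2 y) (ha.2 (b y))⟩
        inv_mem' := fun {a} ha => ⟨N.inv_mem ha.1, fun y => (blkOb P).symm (by
          simpa using ha.2 (a⁻¹ y))⟩ }
    rcases (hmin N hN).2.2.2 T (fun g hg => hg.1) (fun k hk m hm =>
      ⟨(hmin N hN).2.2.1 k hk m hm.1, fun y => by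
        simpa using blk_ob_pres hn hk (hm.2 (k⁻¹ y))⟩) with hT | hT
    · left
      rintro x _ ⟨g, hg, rfl⟩ h2
      have : g ∈ T := ⟨hg, fun y => by
        obtain ⟨d, hd, rfl⟩ := h x y N hN
        have e : g (d x) = d (g x) := by
          rw [← Perm.mul_apply, hDc g hg d hd, Perm.mul_apply]
        rw [e]
        exact blk_ob_pres hn (hDK hd) h2⟩
      rw [hT, Subgroup.mem_bot] at this
      rw [this]
      rfl
    · right
      rintro x _ ⟨g, hg, rfl⟩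
      exact (hT.ge hg).2 x

theorem blk_S_min {Q K M N : Subgroup (Perm E)} (hK : blkNrm Q K) (hM : blkMin K M)
    (hN : N ∈ blkS Q M) : blkMin K N := by
  obtain ⟨q, hq, rfl⟩ := hN
  exact blk_min_cj hK hM hq

theorem blk_S_self (Q M : Subgroup (Perm E)) : M ∈ blkS Q M := ⟨1, Q.one_mem, (blk_cj_one M).symm⟩

/-- an orbit as a finite set -/
noncomputable def blkCl (N : Subgroup (Perm E)) (x : E) : Finset E := univ.filter (blkOb N x)

theorem blk_mem_cl {N : Subgroup (Perm E)} {x y : E} : y ∈ blkCl N x ↔ blkOb N x y := by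
  simp [blkCl]

theorem blk_card {Q K M N : Subgroup (Perm E)} (hp : blkPrim Q) (hK : blkNrm Q K)
    (hM : blkMin K M) (hN : N ∈ blkS Q M) (x y : E) : (blkCl N x).card = (blkCl M y).card := by
  obtain ⟨q, hq, rfl⟩ := hN
  obtain ⟨k, hk, e⟩ := blk_trans hp hK (fun h => hM.2.1 (le_bot_iff.1 (h ▸ hM.1))) (q⁻¹ x) y
  have h1 : (blkCl M (q⁻¹ x)).card = (blkCl (blkCj q M) (q (q⁻¹ x))).card :=
    Finset.card_equiv q fun z => by rw [blk_mem_cl, blk_mem_cl, blk_ob_cj]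
  have h2 : (blkCl M (q⁻¹ x)).card = (blkCl M (k (q⁻¹ x))).card :=
    Finset.card_equiv k fun z => by
      rw [blk_mem_cl, blk_mem_cl]
      exact ⟨blk_ob_pres hM.2.2.1 hk, fun h => by
        simpa using blk_ob_pres hM.2.2.1 (K.inv_mem hk) h⟩
  rw [e] at h2
  rw [← h2, h1]
  simp

theorem blk_alt {Q K M N : Subgroup (Perm E)} (hp : blkPrim Q) (hK : blkNrm Q K)
    (hM : blkMin K M) (hN : N ∈ blkS Q M) :
    (∀ x y, blkOb N x y → blkOb M x y → x = y) ∨ ∀ x y, blkOb N x y → blkOb M x y := by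
  by_cases e : M = N
  · exact Or.inr fun x y h => e ▸ h
  · exact blk_join hp hK hM hN (le_sSup (show M ∈ blkS Q M \ {N} from ⟨blk_S_self Q M, e⟩))
      hM.2.2.1

theorem blk_sq {Q K M : Subgroup (Perm E)} (hp : blkPrim Q) (hK : blkNrm Q K)
    (hM : blkMin K M) (hi : ¬ ∀ x y, blkOb M x y) (x : E) :
    (blkCl M x).card ^ 2 ≤ Fintype.card E := by
  obtain ⟨N, hN, h⟩ : ∃ N ∈ blkS Q M, ∀ x y, blkOb N x y → blkOb M x y → x = y := by
    by_contra hc
    rcases hp (blkOb M) (fun q hq x y h => by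
      have hq' := blk_S_cj (blk_S_self Q M) hq
      exact ((blk_alt hp hK hM hq').resolve_left fun h => hc ⟨_, hq', h⟩) _ _
        (blk_ob_cj.2 h)) with h | h
    · exact hM.2.1 ((Subgroup.eq_bot_iff_forall M).2 fun g hg => Equiv.ext fun z =>
        (h z (g z) ⟨g, hg, rfl⟩).symm)
    · exact hi h
  have h1 : ((blkCl N x).biUnion (blkCl M)).card = ∑ u ∈ blkCl N x, (blkCl M u).card :=
    card_biUnion fun u hu v hv hne => disjoint_left.2 fun z h1 h2 => hne (h u v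
      ((blkOb N).trans ((blkOb N).symm (blk_mem_cl.1 hu)) (blk_mem_cl.1 hv))
      ((blkOb M).trans (blk_mem_cl.1 h1) ((blkOb M).symm (blk_mem_cl.1 h2))))
  rw [sum_congr rfl fun u _ => blk_card hp hK hM (blk_S_self Q M) u x, sum_const,
    blk_card hp hK hM hN x x, smul_eq_mul, ← sq] at h1
  rw [← h1]
  exact card_le_univ _

theorem blk_prod {K N P : Subgroup (Perm E)} (hn : blkNrm K N) (hP : P ≤ K) {g : Perm E}
    (hg : g ∈ N ⊔ P) : ∃ n ∈ N, ∃ p ∈ P, g = p * n := by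
  let T : Subgroup (Perm E) :=
    { carrier := {g | ∃ n ∈ N, ∃ p ∈ P, g = p * n}
      one_mem' := ⟨1, N.one_mem, 1, P.one_mem, by simp⟩
      mul_mem' := by
        rintro _ _ ⟨n, h1, p, h2, rfl⟩ ⟨n', h3, p', h4, rfl⟩
        exact ⟨p'⁻¹ * n * p'⁻¹⁻¹ * n', N.mul_mem (hn _ (hP (P.inv_mem h4)) n h1) h3, p * p',
          P.mul_mem h2 h4, by group⟩
      inv_mem' := by
        rintro _ ⟨n, h1, p, h2, rfl⟩
        exact ⟨p * n⁻¹ * p⁻¹, hn p (hP h2) _ (N.inv_mem h1), p⁻¹, P.inv_mem h2, by group⟩ }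
  exact (sup_le (c := T) (fun n h => ⟨n, h, 1, P.one_mem, by simp⟩)
    (fun p h => ⟨1, N.one_mem, p, h, by simp⟩)) hg

theorem blk_grid {K N P : Subgroup (Perm E)} (hn : blkNrm K N) (hn' : blkNrm K P)
    (h : ∀ x y, blkOb N x y → blkOb P x y → x = y) {k : Perm E} (hk : k ∈ K) {u v z : E}
    (hu : k u = u) (hv : k v = v) (h1 : blkOb N z u) (h2 : blkOb P z v) : k z = z :=
  h _ _ ((blkOb N).trans (hu ▸ blk_ob_pres hn hk h1) ((blkOb N).symm h1))
    ((blkOb P).trans (hv ▸ blk_ob_pres hn' hk h2) ((blkOb P).symm h2))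

theorem blk_base {Q K M : Subgroup (Perm E)} (hp : blkPrim Q) (hK : blkNrm Q K)
    (hM : blkMin K M) (α : E) (J : Finset (Subgroup (Perm E))) (hJ : ∀ N ∈ J, N ∈ blkS Q M) :
    blkNrm K (J.sup id) ∧ ∃ β : Fin (blkCl M α).card → E, (∀ c, blkOb (J.sup id) α (β c)) ∧
      ∀ k ∈ K, k α = α → (∀ c, k (β c) = β c) → ∀ z, blkOb (J.sup id) α z → k z = z := by
  induction J using Finset.induction_on with
  | empty =>
    refine ⟨fun k _ m hm => ?_, fun _ => α, fun _ => (blkOb _).refl α, ?_⟩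
    · rw [sup_empty, Subgroup.mem_bot] at hm ⊢
      simp [hm]
    · rintro k _ hk _ _ ⟨g, hg, rfl⟩
      rw [sup_empty, Subgroup.mem_bot] at hg
      simpa [hg] using hk
  | insert N J hNJ ih =>
    obtain ⟨hn, β, h1, h2⟩ := ih fun N' h => hJ N' (mem_insert_of_mem h)
    have hN := hJ N (mem_insert_self _ _)
    have hm := blk_S_min hK hM hN
    have hPK : J.sup id ≤ K :=
      Finset.sup_le fun N' h => (blk_S_min hK hM (hJ N' (mem_insert_of_mem h))).1
    have hPD : J.sup id ≤ blkD Q M N := Finset.sup_le fun N' h =>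
      le_sSup (show N' ∈ blkS Q M \ {N} from ⟨hJ N' (mem_insert_of_mem h), fun e =>
        hNJ ((Set.mem_singleton_iff.1 e) ▸ h)⟩)
    rw [sup_insert, id]
    generalize J.sup id = P at *
    refine ⟨fun k hk m hm' => ?_, ?_⟩
    · obtain ⟨n, h3, p, h4, rfl⟩ := blk_prod hm.2.2.1 hPK hm'
      have e : k * (p * n) * k⁻¹ = (k * p * k⁻¹) * (k * n * k⁻¹) := by group
      rw [e]
      exact Subgroup.mul_mem _ (Subgroup.mem_sup_right (hn k hk p h4))
        (Subgroup.mem_sup_left (hm.2.2.1 k hk n h3))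
    rcases blk_join hp hK hM hN hPD hn with h | h
    · let u := (Finset.equivFinOfCardEq (blk_card hp hK hM hN α α)).symm
      choose g hg e using fun c => blk_mem_cl.1 (u c).2
      refine ⟨fun c => g c (β c), fun c => (blkOb _).trans (blk_ob_mono le_sup_right (h1 c))
        ⟨g c, Subgroup.mem_sup_left (hg c), rfl⟩, ?_⟩
      rintro k hk hα hβ _ ⟨m, hm', rfl⟩
      have f1 := h2 k hk hα fun c =>
        blk_grid hm.2.2.1 hn h hk (hβ c) hα ⟨g c, hg c, rfl⟩ ((blkOb P).symm (h1 c))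
      have f2 : ∀ z, blkOb N α z → k z = z := fun z hz => by
        obtain ⟨c, hc⟩ := u.surjective ⟨z, blk_mem_cl.2 hz⟩
        have ez : g c α = z := by rw [e, hc]
        exact blk_grid hm.2.2.1 hn h hk hα (hβ c) ((blkOb N).symm hz)
          (ez ▸ blk_ob_pres hn (hm.1 (hg c)) (h1 c))
      obtain ⟨n, h3, p, h4, e1⟩ := blk_prod hm.2.2.1 hPK hm'
      obtain ⟨p', h5, n', h6, e2⟩ := blk_prod hn hm.1 (sup_comm N P ▸ hm')
      exact blk_grid hm.2.2.1 hn h hk (f1 (p' α) ⟨p', h5, rfl⟩) (f2 (n α) ⟨n, h3, rfl⟩)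
        ((blkOb N).symm ⟨n', h6, by rw [e2]; rfl⟩) ((blkOb P).symm ⟨p, h4, by rw [e1]; rfl⟩)
    · refine ⟨β, fun c => blk_ob_mono le_sup_right (h1 c), ?_⟩
      rintro k hk hα hβ _ ⟨m, hm', rfl⟩
      obtain ⟨n, h3, p, h4, rfl⟩ := blk_prod hm.2.2.1 hPK hm'
      exact h2 k hk hα hβ _ ((blkOb P).trans (h α (n α) ⟨n, h3, rfl⟩) ⟨p, h4, rfl⟩)

theorem blk_intr {Q K M : Subgroup (Perm E)} (hp : blkPrim Q) (hK : blkNrm Q K)
    (hM : blkMin K M) (hi : ¬ ∀ x y, blkOb M x y) (a0 : ℕ) :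
    (∃ B : Finset E, B.card ≤ a0 + 1 ∧ ∀ k ∈ K, (∀ b ∈ B, k b = b) → k = 1) ∨
    (∃ (α β : E) (χ : E → Set E) (a : ℕ), a0 ≤ a ∧ a ^ 2 ≤ Fintype.card E ∧
      (∀ q ∈ Q, q α = α → q β = β → ∀ x y, χ x = χ y → χ (q x) = χ (q y)) ∧
      ∀ x, {y | χ y = χ x}.ncard = a) := by
  obtain ⟨g, hg, α, hα⟩ : ∃ g ∈ M, ∃ α, g α ≠ α := by
    by_contra hc
    push Not at hc
    exact hM.2.1 ((Subgroup.eq_bot_iff_forall M).2 fun g hg => Equiv.ext (hc g hg))
  by_cases ha : a0 ≤ (blkCl M α).card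
  · right
    have hχ : ∀ x y, {z | blkOb M x z} = {z | blkOb M y z} ↔ blkOb M x y := fun x y =>
      ⟨fun h => (h.ge ((blkOb M).refl y) :), fun h => Set.ext fun z =>
        ⟨(blkOb M).trans ((blkOb M).symm h), (blkOb M).trans h⟩⟩
    refine ⟨α, g α, fun x => {z | blkOb M x z}, _, ha, blk_sq hp hK hM hi α, ?_, fun x => ?_⟩
    · intro q hq h1 h2 x y h
      rw [hχ] at h ⊢
      rcases blk_alt hp hK hM (blk_S_cj (blk_S_self Q M) hq) with h' | h'
      · have h3 : blkOb M α (g α) := ⟨g, hg, rfl⟩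
        have h4 := (blk_ob_cj (q := q)).2 h3
        rw [h1, h2] at h4
        exact absurd (h' _ _ h4 h3).symm hα
      · exact h' _ _ (blk_ob_cj.2 h)
    · rw [← blk_card hp hK hM (blk_S_self Q M) x α, ← Set.ncard_coe_finset]
      congr 1
      ext y
      rw [Set.mem_ofPred_eq, hχ, mem_coe, blk_mem_cl]
      exact ⟨(blkOb M).symm, (blkOb M).symm⟩
  · left
    have hf := Set.toFinite (blkS Q M)
    obtain ⟨-, β, -, h2⟩ := blk_base hp hK hM α hf.toFinset fun N h => hf.mem_toFinset.1 h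
    have hle : ∀ N ∈ blkS Q M, N ≤ hf.toFinset.sup id := fun N h =>
      Finset.le_sup (f := id) (hf.mem_toFinset.2 h)
    have ht := blk_trans (H := hf.toFinset.sup id) hp (fun q hq m hm => by
      have : hf.toFinset.sup id ≤ blkCj q⁻¹ (hf.toFinset.sup id) := Finset.sup_le fun N h d hd =>
        blk_mem_cj.2 (hle _ (blk_S_cj (hf.mem_toFinset.1 h) hq)
          (blk_mem_cj.2 (by simpa [mul_assoc] using hd)))
      simpa using blk_mem_cj.1 (this hm))
      (fun h => hM.2.1 (le_bot_iff.1 (h ▸ hle M (blk_S_self Q M))))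
    refine ⟨insert α (univ.image β), (card_insert_le _ _).trans ?_, fun k hk h => Equiv.ext
      fun z => h2 k hk (h α (mem_insert_self _ _)) (fun c => h _ (mem_insert_of_mem
        (mem_image_of_mem _ (mem_univ c)))) z (ht α z)⟩
    have := card_image_le (s := univ) (f := β)
    rw [card_univ, Fintype.card_fin] at this
    omega

end core

end Pool.Agent.P.MP_f1a348_lc.TO
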