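import Pool.Agent.P.MP_f1a348_lc.TO.Sys

/-! Tournament isomorphism, block C: definitions. -/

set_option autoImplicit false
set_option linter.unusedSectionVars false

namespace Pool.Agent.P.MP_f1a348_lc.TO

open Equiv Finset
open scoped Classical

section Grp

variable {G X : Type} [Group G] [MulAction G X]

/-- `A` is normalised by `H`. -/
def Nz (H A : Subgroup G) : Prop := ∀ h ∈ H, ∀ a ∈ A, h * a * h⁻¹ ∈ A

/-- The orbit of `x` under the subgroup `H`. -/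
def ob (H : Subgroup G) (x : X) : Set X := {y | ∃ h ∈ H, h • x = y}

/-- No subgroup lies strictly between the stabiliser of `x` in `H` and `H`. -/
def Pr (H : Subgroup G) (x : X) : Prop :=
  ∀ V : Subgroup G, H ⊓ MulAction.stabilizer G x ≤ V → V ≤ H →
    V ≤ MulAction.stabilizer G x ∨ V = H

theorem mem_ob {H : Subgroup G} {x y : X} : y ∈ ob H x ↔ ∃ h ∈ H, h • x = y := Iff.rfl

theorem self_mem_ob (H : Subgroup G) (x : X) : x ∈ ob H x := ⟨1, H.one_mem, one_smul _ _⟩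

theorem smul_mem_ob {H : Subgroup G} {x y : X} {h : G} (hh : h ∈ H) (hy : y ∈ ob H x) :
    h • y ∈ ob H x := by
  obtain ⟨g, hg, rfl⟩ := hy
  exact ⟨h * g, H.mul_mem hh hg, mul_smul _ _ _⟩

theorem ob_mono {H H' : Subgroup G} (h : H' ≤ H) (x : X) : ob H' x ⊆ ob H x :=
  fun _ ⟨g, hg, e⟩ => ⟨g, h hg, e⟩

theorem ob_eq_of_mem {H : Subgroup G} {x y : X} (hy : y ∈ ob H x) : ob H y = ob H x := by
  obtain ⟨g, hg, rfl⟩ := hy
  ext z
  constructor
  · rintro ⟨h, hh, rfl⟩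
    exact ⟨h * g, H.mul_mem hh hg, mul_smul _ _ _⟩
  · rintro ⟨h, hh, rfl⟩
    exact ⟨h * g⁻¹, H.mul_mem hh (H.inv_mem hg), by rw [mul_smul, inv_smul_smul]⟩

theorem ob_finite [Finite G] (H : Subgroup G) (x : X) : (ob H x).Finite := by
  have : ob H x ⊆ Set.range (fun g : G => g • x) := fun _ ⟨g, _, e⟩ => ⟨g, e⟩
  exact (Set.finite_range _).subset this

theorem ob_eq_orbit (H : Subgroup G) (x : X) : ob H x = MulAction.orbit H x := by
  ext y
  constructor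
  · rintro ⟨h, hh, rfl⟩
    exact ⟨⟨h, hh⟩, rfl⟩
  · rintro ⟨⟨h, hh⟩, rfl⟩
    exact ⟨h, hh, rfl⟩

/-- The orbit size is the index of the stabiliser. -/
theorem ncard_ob (H : Subgroup G) (x : X) :
    (ob H x).ncard = (MulAction.stabilizer G x).relIndex H := by
  rw [ob_eq_orbit, Subgroup.relIndex, ← MulAction.index_stabilizer]
  congr 1

/-- Invariant equivalence relations on a primitive orbit are trivial. -/
theorem Pr.eqv {H : Subgroup G} {x0 : X} (hP : Pr H x0) (r : X → X → Prop)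
    (hrefl : ∀ x ∈ ob H x0, r x x)
    (hsymm : ∀ x ∈ ob H x0, ∀ y ∈ ob H x0, r x y → r y x)
    (htrans : ∀ x ∈ ob H x0, ∀ y ∈ ob H x0, ∀ z ∈ ob H x0, r x y → r y z → r x z)
    (hinv : ∀ h ∈ H, ∀ x ∈ ob H x0, ∀ y ∈ ob H x0, r x y → r (h • x) (h • y)) :
    (∀ x ∈ ob H x0, ∀ y ∈ ob H x0, r x y → x = y) ∨ (∀ x ∈ ob H x0, ∀ y ∈ ob H x0, r x y) := by
  have h0 := self_mem_ob H x0
  let V : Subgroup G :=
    { carrier := {g | g ∈ H ∧ r x0 (g • x0)}
      one_mem' := ⟨H.one_mem, by simpa using hrefl x0 h0⟩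
      mul_mem' := by
        rintro a b ⟨ha, ra⟩ ⟨hb, rb⟩
        refine ⟨H.mul_mem ha hb, ?_⟩
        rw [mul_smul]
        exact htrans _ h0 _ (smul_mem_ob ha h0) _ (smul_mem_ob ha (smul_mem_ob hb h0)) ra
          (hinv a ha _ h0 _ (smul_mem_ob hb h0) rb)
      inv_mem' := by
        rintro a ⟨ha, ra⟩
        refine ⟨H.inv_mem ha, ?_⟩
        have := hinv a⁻¹ (H.inv_mem ha) _ h0 _ (smul_mem_ob ha h0) ra
        rw [inv_smul_smul] at this
        exact hsymm _ (smul_mem_ob (H.inv_mem ha) h0) _ h0 this }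
  have key : ∀ a ∈ H, ∀ b ∈ H, r (a • x0) (b • x0) ↔ a⁻¹ * b ∈ V := by
    intro a ha b hb
    constructor
    · intro hr
      refine ⟨H.mul_mem (H.inv_mem ha) hb, ?_⟩
      have := hinv a⁻¹ (H.inv_mem ha) _ (smul_mem_ob ha h0) _ (smul_mem_ob hb h0) hr
      rwa [inv_smul_smul, ← mul_smul] at this
    · rintro ⟨hab, hr⟩
      have := hinv a ha _ h0 _ (smul_mem_ob hab h0) hr
      rwa [← mul_smul, mul_inv_cancel_left] at this
  rcases hP V (by
      rintro g ⟨hg, hs⟩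
      refine ⟨hg, ?_⟩
      have : g • x0 = x0 := hs
      rw [this]; exact hrefl x0 h0) (fun g hg => hg.1) with hV | hV
  · left
    rintro x ⟨a, ha, rfl⟩ y ⟨b, hb, rfl⟩ hr
    have h1 : (a⁻¹ * b) • x0 = x0 := hV ((key a ha b hb).1 hr)
    rw [mul_smul, inv_smul_eq_iff] at h1
    exact h1.symm
  · right
    rintro x ⟨a, ha, rfl⟩ y ⟨b, hb, rfl⟩
    rw [key a ha b hb, hV]
    exact H.mul_mem (H.inv_mem ha) hb

end Grp

/-- The group form of the output of block B, with its constants. -/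
def GGk (K t0 n0 : ℕ) : Prop :=
  ∀ (G X : Type) [Group G] [Finite G] [MulAction G X] (H : Subgroup G) (x0 : X),
    Odd (Nat.card H) → Pr H x0 → n0 ≤ (ob H x0).ncard →
    ∃ (T : Finset X) (Z1 Z2 : Set X), (T : Set X) ⊆ ob H x0 ∧ 1 ≤ T.card ∧ T.card ≤ t0 ∧
      Z1 ⊆ ob H x0 ∧ Z2 ⊆ ob H x0 ∧
      (∀ h ∈ H ⊓ fixingSubgroup G (T : Set X), ∀ y ∈ Z1, h • y ∈ Z1) ∧
      (∀ h ∈ H ⊓ fixingSubgroup G (T : Set X), ∀ y ∈ Z2, h • y ∈ Z2) ∧
      (∀ y ∈ Z1, K ^ T.card * (ob (H ⊓ fixingSubgroup G (T : Set X)) y).ncard ≤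
        (ob H x0).ncard) ∧
      (∀ y ∈ Z2, K ^ T.card *
        (ob (H ⊓ fixingSubgroup G (T : Set X) ⊓ fixingSubgroup G Z1) y).ncard ≤
        (ob H x0).ncard) ∧
      (∀ y ∈ ob H x0, K ^ T.card *
        (ob (H ⊓ fixingSubgroup G (T : Set X) ⊓ fixingSubgroup G Z2) y).ncard ≤
        (ob H x0).ncard)

section Game

variable {Ω : Type} [Fintype Ω] [DecidableEq Ω]

/-- `c` pins suffice to make the window small compared with `s`. -/
def Reach (m s : ℕ) : ℕ → Subgroup (Perm Ω) → Finset Ω → Prop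
  | 0, H, W => ∀ H' ≤ H, ∀ w, orb H' w ⊆ W → M2 m H' w → (orb H' w).card ^ 2 * m ≤ s ^ 2
  | c + 1, H, W => ∀ H' ≤ H, ∀ w, orb H' w ⊆ W → M2 m H' w →
      (orb H' w).card ^ 2 * m ≤ s ^ 2 ∨ ∃ p, Reach m s c (stab H' p) (orb H' w)

/-- An invariant labelling of the window with small classes and few labels. -/
structure Focus (m a0 s l : ℕ) (H : Subgroup (Perm Ω)) (W : Finset Ω) {Λ : Type}
    (φ : Ω → Λ) : Prop where
  inv : ∀ h ∈ H, ∀ x ∈ W, h x ∈ W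
  card : W.card ≤ s
  eqv : ∀ h ∈ H, ∀ x ∈ W, ∀ y ∈ W, φ x = φ y → φ (h x) = φ (h y)
  cls : ∀ x ∈ W, {y | y ∈ W ∧ φ y = φ x}.ncard ^ 2 * m ≤ s ^ 2
  lab : (φ '' (W : Set Ω)).ncard ≤ a0 ^ l

/-- Every focus whose labels are fixed by `X` is resolved with `c + 2 l` pins. -/
def Good (m a0 c : ℕ) (H X : Subgroup (Perm Ω)) : Prop :=
  ∀ (Λ : Type) (φ : Ω → Λ) (s l : ℕ) (H' : Subgroup (Perm Ω)) (W : Finset Ω), H' ≤ H →
    Focus m a0 s l H' W φ → (∀ h ∈ H', h ∈ X → ∀ x ∈ W, φ (h x) = φ x) →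
    Reach m s (c + 2 * l) H' W

end Game

/-- The kernel of an action on an orbit of size at most `n` is good with `c` pins. -/
def Trk (Ω : Type) [Fintype Ω] [DecidableEq Ω] (m a0 c n : ℕ) : Prop :=
  ∀ (X : Type) [MulAction (Perm Ω) X] (H : Subgroup (Perm Ω)) (x0 : X) (p : Ω),
    Odd (Nat.card H) → stab H p ≤ MulAction.stabilizer (Perm Ω) x0 → (ob H x0).ncard ≤ n →
    Good m a0 c H (fixingSubgroup (Perm Ω) (ob H x0))

end Pool.Agent.P.MP_f1a348_lc.TO
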