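import Pool.Agent.P.MP_f1a348_lc.TO.CDefs

/-! Tournament isomorphism, block C: the statements. -/

set_option autoImplicit false
set_option linter.unusedSectionVars false

namespace Pool.Agent.P.MP_f1a348_lc.TO

open Equiv Finset
open scoped Classical

-- deps:
def S_BLK0 : Prop :=
  ∀ (E : Type) [Fintype E] [DecidableEq E] (Q K A C : Subgroup (Perm E)) (a0 : ℕ),
    (∀ r : E → E → Prop, Equivalence r → (∀ q ∈ Q, ∀ x y, r x y → r (q x) (q y)) →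
      (∀ x y, r x y → x = y) ∨ (∀ x y, r x y)) →
    K ≤ Q → Nz Q K → A ≤ K → Nz K A → A ≠ ⊥ → C ≤ K → (∀ a ∈ A, ∀ c ∈ C, a * c = c * a) →
    (∃ B : Finset E, B.card ≤ a0 + 1 ∧ ∀ c ∈ C, (∀ b ∈ B, c b = b) → c = 1) ∨
    (∃ (α β : E) (χ : E → Set E) (a : ℕ), a0 ≤ a ∧ a ^ 2 ≤ Fintype.card E ∧
      (∀ q ∈ Q, q α = α → q β = β → ∀ x y, χ x = χ y → χ (q x) = χ (q y)) ∧
      ∀ x, {y | χ y = χ x}.ncard = a)

-- deps: BLK0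
def S_BLK : Prop :=
  ∀ (G X J : Type) [Group G] [Finite G] [MulAction G X] [Finite J] [Nonempty J]
    (H K : Subgroup G) (R : J → Subgroup G) (x0 : X) (a0 : ℕ),
    Pr H x0 → K ≤ H → Nz H K → (∀ j, R j ≤ K) → (∀ j, Nz K (R j)) →
    (⨅ j, R j) ≤ fixingSubgroup G (ob H x0) →
    (∃ B : Finset X, (B : Set X) ⊆ ob H x0 ∧ B.card ≤ a0 + 1 ∧
      ∃ j, R j ⊓ fixingSubgroup G (B : Set X) ≤ fixingSubgroup G (ob H x0)) ∨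
    (∃ α ∈ ob H x0, ∃ β ∈ ob H x0, ∃ (χ : X → Set X) (a : ℕ), a0 ≤ a ∧
      a ^ 2 ≤ (ob H x0).ncard ∧
      (∀ h ∈ H, h • α = α → h • β = β → ∀ x ∈ ob H x0, ∀ y ∈ ob H x0,
        χ x = χ y → χ (h • x) = χ (h • y)) ∧
      ∀ x ∈ ob H x0, {y | y ∈ ob H x0 ∧ χ y = χ x}.ncard = a)

-- deps:
def S_GGAIN : Prop := GAIN → ∀ K : ℕ, ∃ t0 n0 : ℕ, GGk K t0 n0

-- deps: BLK
-- imports: Pool.Agent.P.MP_f1a348_lc.TO.CBase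
def S_LEVEL : Prop :=
  ∀ (Ω J : Type) [Fintype Ω] [DecidableEq Ω] [Finite J] [Nonempty J] (m a0 c : ℕ)
    (H K : Subgroup (Perm Ω)) (R : J → Subgroup (Perm Ω)),
    Nz H K → (∀ j, R j ≤ K) → (∀ j, Nz K (R j)) → (∀ j, Good m a0 c H (R j)) →
    Good m a0 (c + (a0 + 1)) H (⨅ j, R j)

-- deps: LEVEL
-- imports: Pool.Agent.P.MP_f1a348_lc.TO.CBase
def S_STEP : Prop :=
  ∀ (Ω J : Type) [Fintype Ω] [DecidableEq Ω] [Finite J] (m a0 c : ℕ)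
    (H A : Subgroup (Perm Ω)) (U X : J → Subgroup (Perm Ω)) (p : J → Ω),
    A ≤ H → Nz H A → (∀ j, stab H (p j) ≤ U j) → (∀ j, U j ≤ H) → (∀ j, A ≤ U j) →
    (∀ j, Nz (U j) (X j)) → Good m a0 c H A → (∀ j, Good m a0 c (U j) (X j)) →
    Good m a0 (c + 2 * (a0 + 1) + 1) H (A ⊓ ⨅ j, X j)

-- deps: LEVEL STEP
-- imports: Pool.Agent.P.MP_f1a348_lc.TO.CBase
def S_MID : Prop :=
  ∀ (Ω : Type) [Fintype Ω] [DecidableEq Ω] (m a0 B K t0 n0 l : ℕ),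
    GGk K t0 n0 → 1 ≤ m → 1 ≤ B → 1 ≤ K → t0 ≤ l → n0 ≤ K ^ l →
    (∀ l' ≤ l, Trk Ω m a0 (B * l') (K ^ l')) →
    ∀ (X : Type) [MulAction (Perm Ω) X] (H : Subgroup (Perm Ω)) (x0 : X) (p : Ω),
      Odd (Nat.card H) → stab H p ≤ MulAction.stabilizer (Perm Ω) x0 → Pr H x0 →
      (ob H x0).ncard ≤ K ^ (l + 1) →
      Good m a0 (B * l + 5 * (a0 + 1) + 3) H (fixingSubgroup (Perm Ω) (ob H x0))

-- deps: STEP MID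
-- imports: Pool.Agent.P.MP_f1a348_lc.TO.CBase
def S_TRACK : Prop :=
  ∀ (Ω : Type) [Fintype Ω] [DecidableEq Ω] (m a0 K t0 n0 l0 : ℕ),
    GGk K t0 n0 → 2 ≤ K → 1 ≤ l0 → t0 ≤ l0 → n0 ≤ K ^ l0 → (K ^ l0).factorial ≤ m →
    ∀ l, Trk Ω m a0 ((9 * (a0 + 1) + 8) * l) (K ^ l)

-- deps:
-- imports: Pool.Agent.P.MP_f1a348_lc.TO.CBase
def S_ROUND : Prop :=
  ∀ (Ω : Type) [Fintype Ω] [DecidableEq Ω] (m a0 c n l : ℕ),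
    1 ≤ m → Trk Ω m a0 c n → Fintype.card Ω ≤ n → Fintype.card Ω ≤ a0 ^ l →
    ∀ (R : ℕ) (H : Subgroup (Perm Ω)) (W : Finset Ω), Odd (Nat.card H) →
      W.card ^ 2 ≤ m ^ R → Win m (R * (c + 2 * l)) H W

-- deps: GGAIN TRACK ROUND
-- imports: Pool.Agent.P.MP_f1a348_lc.TO.CBase
def S_GAMEC : Prop := GAIN → GAME

end Pool.Agent.P.MP_f1a348_lc.TO
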