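import Pool.Agent.P.MP_f1a348_lc.TO.Sys
import Pool.Agent.P.MP_f1a348_lc.GI.PTA

/-! Tournament isomorphism, block D: the common data and the specifications of the programs. -/

set_option autoImplicit false
set_option linter.unusedSectionVars false

namespace Pool.Agent.P.MP_f1a348_lc.TO

open Pool.Agent.Lib.Helper47 Pool.Agent.P.MP_f1a348_lc.GI

/-! ### recursive programs -/

/-- A recursive program: a call `q` runs through the list `todo`, makes one call for each item
and updates its state with the answer. -/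
structure Rec (C Q T S A : Type) where
  todo : C → Q → List T
  ini : C → Q → S
  call : C → Q → T → S → Q
  upd : C → Q → T → S → A → S
  fin : C → Q → S → A
  out : A

namespace Rec
variable {C Q T S A : Type} (R : Rec C Q T S A) (c : C)

/-- the answer, for a bounded depth of the recursion -/
def ev : ℕ → Q → A
  | 0, _ => R.out
  | d + 1, q => R.fin c q
      ((R.todo c q).foldl (fun s t => R.upd c q t s (ev d (R.call c q t s))) (R.ini c q))

/-- the number of calls -/
def cnt : ℕ → Q → ℕ
  | 0, _ => 1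
  | d + 1, q => 1 + ((R.todo c q).foldl (fun (p : S × ℕ) t =>
      (R.upd c q t p.1 (R.ev c d (R.call c q t p.1)), p.2 + cnt d (R.call c q t p.1)))
      (R.ini c q, 0)).2

/-- invariants that bound the sizes of all data by `B` -/
structure Inv [Enc Q] [Enc T] [Enc S] [Enc A] (B : ℕ) (oq : Q → Prop) (os : Q → S → Prop)
    (oa : Q → A → Prop) : Prop where
  ini : ∀ q, oq q → os q (R.ini c q)
  call : ∀ q t s, oq q → t ∈ R.todo c q → os q s → oq (R.call c q t s)
  upd : ∀ q t s r, oq q → t ∈ R.todo c q → os q s → oa (R.call c q t s) r →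
    os q (R.upd c q t s r)
  fin : ∀ q s, oq q → os q s → oa q (R.fin c q s)
  out : ∀ q, oq q → oa q R.out
  sq : ∀ q, oq q → size q ≤ B ∧ size (R.todo c q) ≤ B
  ss : ∀ q s, oq q → os q s → size s ≤ B
  sa : ∀ q r, oq q → oa q r → size r ≤ B

/-- all parts run in polynomial time -/
structure Poly [Enc C] [Enc Q] [Enc T] [Enc S] [Enc A] : Prop where
  todo : PT (fun x : C × Q => R.todo x.1 x.2)
  ini : PT (fun x : C × Q => R.ini x.1 x.2)
  call : PT (fun x : C × Q × T × S => R.call x.1 x.2.1 x.2.2.1 x.2.2.2)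
  upd : PT (fun x : C × Q × T × S × A => R.upd x.1 x.2.1 x.2.2.1 x.2.2.2.1 x.2.2.2.2)
  fin : PT (fun x : C × Q × S => R.fin x.1 x.2.1 x.2.2)
end Rec

/-- The stack machine: arguments are the context, the budget, the depth and the call. -/
def REC : Prop :=
  ∀ (C Q T S A : Type) [Enc C] [Enc Q] [Enc T] [Enc S] [Enc A] (R : Rec C Q T S A), R.Poly →
    ∃ run : C × List Unit × List Unit × Q → Option A, PT run ∧
      (∀ c pad d q a, run (c, pad, d, q) = some a → a = R.ev c d.length q) ∧
      ∀ c pad d q B oq os oa, R.Inv c B oq os oa → oq q →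
        8 * (R.cnt c d.length q + 1) ≤ pad.length →
        (d.length + 2) * (8 * B + 4 * d.length + 40) ≤ pad.length →
        run (c, pad, d, q) = some (R.ev c d.length q)

/-! ### strings and cosets -/

/-- finitary permutations of the vertices -/
abbrev U : Type := FP ℕ

/-- finite sets of coloured positions; the position `none` is fixed by all permutations -/
def Str : Type := Finset (Option ℕ × ℕ)

namespace Str
/-- the underlying finite set -/
def val (s : Str) : Finset (Option ℕ × ℕ) := s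
/-- the string with the listed entries -/
def mk (l : List (Option ℕ × ℕ)) : Str := l.toFinset
/-- the canonical list of the entries -/
def list (s : Str) : List (Option ℕ × ℕ) := srt s.val

theorem ext {s t : Str} (h : ∀ p, p ∈ s.val ↔ p ∈ t.val) : s = t := Finset.ext h
@[simp] theorem mem_mk {l : List (Option ℕ × ℕ)} {p : Option ℕ × ℕ} : p ∈ (mk l).val ↔ p ∈ l :=
  List.mem_toFinset
@[simp] theorem mem_list {s : Str} {p : Option ℕ × ℕ} : p ∈ s.list ↔ p ∈ s.val := mem_srt
theorem list_inj : Function.Injective list := fun s t h =>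
  ext fun p => by rw [← mem_list, ← mem_list, h]

instance : DecidableEq Str := inferInstanceAs (DecidableEq (Finset (Option ℕ × ℕ)))
instance : Enc Str := Enc.ofInj list list_inj

/-- the action on one entry -/
def mv (g : U) (p : Option ℕ × ℕ) : Option ℕ × ℕ := (p.1.map g.app, p.2)

@[simp] theorem mv_one (p : Option ℕ × ℕ) : mv 1 p = p := by
  obtain ⟨_ | a, b⟩ := p <;> rfl
theorem mv_mul (g h : U) (p : Option ℕ × ℕ) : mv (g * h) p = mv g (mv h p) := by
  obtain ⟨_ | a, b⟩ := p <;> rfl

instance : MulAction U Str where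
  smul g s := (s.val.image (mv g) : Finset _)
  one_smul s := by
    change s.val.image (mv 1) = s.val
    rw [show mv 1 = id from funext mv_one, Finset.image_id]
  mul_smul g h s := by
    change s.val.image (mv (g * h)) = (s.val.image (mv h)).image (mv g)
    rw [Finset.image_image]
    exact congrArg (fun f => s.val.image f) (funext (mv_mul g h))

theorem val_smul (g : U) (s : Str) : (g • s).val = s.val.image (mv g) := rfl
theorem smul_mk (g : U) (l : List (Option ℕ × ℕ)) : g • mk l = mk (l.map (mv g)) :=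
  ext fun p => by simp [val_smul]

variable {α : Type} [Enc α]

@[fun_prop] theorem pt_list {f : α → Str} (hf : PT f) : PT (fun a => (f a).list) :=
  hf.cast fun _ => rfl

@[fun_prop] theorem pt_mk {l : α → List (Option ℕ × ℕ)} (hl : PT l) : PT (fun a => mk (l a)) :=
  (PT.comp pt_srt hl).cast fun _ => rfl

@[fun_prop] theorem pt_mv {g : α → U} {p : α → Option ℕ × ℕ} (hg : PT g) (hp : PT p) :
    PT (fun a => mv (g a) (p a)) := by
  have h : PT (fun a => ((p a).1.elim none (fun v => some ((g a).app v)), (p a).2)) := by fun_prop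
  refine h.of_eq fun a => ?_
  unfold mv
  cases (p a).1 <;> rfl

instance : PA U Str := ⟨by
  have h : PT (fun x : U × Str => mk (x.2.list.map (mv x.1))) := by fun_prop
  exact h.of_eq fun x => ext fun p => by simp [val_smul]⟩
end Str

/-- a coset `σ ⟨S⟩` -/
abbrev Co : Type := U × List U
/-- failure, the empty set, or a coset -/
abbrev Res : Type := Option (Option Co)
/-- the budget and the level -/
abbrev Par : Type := List Unit × List Unit

/-- the elements of a coset -/
def cset (c : Co) : Set U := {g | c.1⁻¹ * g ∈ gen c.2}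
/-- the elements of an optional coset -/
def rset (r : Option Co) : Set U := {g | ∃ c, r = some c ∧ g ∈ cset c}
/-- no element of order two -/
def NoInv (H : Subgroup U) : Prop := ∀ g ∈ H, g * g = 1 → g = 1
/-- `g` moves only points of `V` -/
def Sup (V : List ℕ) (g : U) : Prop := ∀ v, v ∉ V → g.app v = v

/-! ### the transporter of a set of strings -/

/-- parameters, the support of the group, a coset, two sets of strings -/
abbrev TRIn : Type := Par × List ℕ × Co × List Str × List Str

structure TRPre (p : Par) (V : List ℕ) (c : Co) (X : List Str) : Prop where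
  sup : ∀ s ∈ c.2, Sup V s
  pos : ∀ y ∈ X, ∀ e ∈ y.val, ∀ v, e.1 = some v → v ∈ V
  big : (V.length + X.length + 2) ^ 4 ≤ p.1.length

/-- the elements of a coset of a group of odd order that carry `X` onto `Y` -/
structure TRSpec (tr : TRIn → Res) : Prop where
  pt : PT tr
  sound : ∀ p V c X Y r, TRPre p V c X → tr (p, V, c, X, Y) = some r →
    rset r = {g | g ∈ cset c ∧ ∀ y, y ∈ X ↔ g • y ∈ Y} ∧
      ∀ c', r = some c' → gen c'.2 ≤ gen c.2 ∧ c'.2.length ≤ V.length ^ 2
  halts : ∃ c1 : ℕ, ∀ E : ℕ, ∃ c0 : ℕ, ∀ p V c X Y (M : ℕ), TRPre p V c X → NoInv (gen c.2) →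
    size (V, c, X, Y) ≤ M → Nat.log 2 M + c0 ≤ E * p.2.length →
    (M + 2) ^ (c1 * (p.2.length + 1)) ≤ p.1.length → tr (p, V, c, X, Y) ≠ none

/-! ### digraphs and the refinement -/

/-- two digraphs: vertices and arcs -/
abbrev Q : Type := List ℕ × List (ℕ × ℕ) × List ℕ × List (ℕ × ℕ)

/-- `φ` is an isomorphism of the digraph induced by `E` on `A` onto that induced by `F` on `B` -/
structure DIso (φ : ℕ → ℕ) (A : List ℕ) (E : List (ℕ × ℕ)) (B : List ℕ) (F : List (ℕ × ℕ)) :
    Prop where
  bij : Set.BijOn φ {x | x ∈ A} {x | x ∈ B}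
  arc : ∀ u ∈ A, ∀ v ∈ A, (u, v) ∈ E ↔ (φ u, φ v) ∈ F

/-- `E` induces a tournament on `A` -/
def Tour (A : List ℕ) (E : List (ℕ × ℕ)) : Prop :=
  ∀ u ∈ A, ∀ v ∈ A, (u, v) ∈ E ↔ u ≠ v ∧ (v, u) ∉ E

structure WLPre (p : Par) (A B : List ℕ) : Prop where
  na : A.Nodup
  nb : B.Nodup
  len : A.length = B.length
  lev : 4 ≤ p.2.length
  big : (A.length + 1) ^ p.2.length ≤ p.1.length

/-- the colour of a tuple (side `false` is the first digraph) under the joint refinement -/
structure WLSpec (cls : Par × Q × Bool × List ℕ → ℕ) : Prop where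
  pt : PT cls
  iso : ∀ p A E B F φ, WLPre p A B → DIso φ A E B F → ∀ l : List ℕ, (∀ x ∈ l, x ∈ A) →
    1 ≤ l.length → l.length ≤ p.2.length →
    cls (p, (A, E, B, F), false, l) = cls (p, (A, E, B, F), true, l.map φ)
  sys : ∀ p A E B F, WLPre p A B → Tour A E → ∃ Γ : Sys {x // x ∈ A} p.2.length,
    (∀ l l' : List {x // x ∈ A}, l.length = l'.length → 1 ≤ l.length → l.length ≤ p.2.length →
      (cls (p, (A, E, B, F), false, l.map Subtype.val) =
          cls (p, (A, E, B, F), false, l'.map Subtype.val) ↔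
        ∃ f, Γ.L l.toFinset f ∧ l.map f = l')) ∧
    ∀ a b f, Γ.L {a, b} f → ((a.1, b.1) ∈ E ↔ ((f a).1, (f b).1) ∈ E)
  atom : ∀ p A E B F (C B' : List ℕ) F' (c : ℕ), WLPre p A B → WLPre p C B' →
    (∀ x, x ∈ C ↔ x ∈ A ∧ cls (p, (A, E, B, F), false, [x]) = c) → ∀ x ∈ C, ∀ y ∈ C,
    cls (p, (C, E, B', F'), false, [x]) = cls (p, (C, E, B', F'), false, [y])
  le : ∀ p A E B F b l, WLPre p A B → cls (p, (A, E, B, F), b, l) ≤ 2 * (A.length + 1) ^ p.2.length

/-! ### the isomorphism test -/

structure MPre (p : Par) (q : Q) : Prop where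
  na : q.1.Nodup
  nb : q.2.2.1.Nodup
  tour : Tour q.1 q.2.1
  lev : 4 ≤ p.2.length
  big : (q.1.length + 2) ^ (p.2.length + 8) ≤ p.1.length

structure MSpec (mn : Par × Q → Option Bool) : Prop where
  pt : PT mn
  sound : ∀ p q b, MPre p q → mn (p, q) = some b →
    (b = true ↔ ∃ φ, DIso φ q.1 q.2.1 q.2.2.1 q.2.2.2)
  halts : ∃ c1 : ℕ, ∀ E : ℕ, ∃ c0 : ℕ, ∀ p q (M : ℕ), MPre p q →
    (∀ x ∈ q.1, x < M) → (∀ x ∈ q.2.2.1, x < M) → size q ≤ M → p.2.length ≤ M →
    Nat.log 2 M + c0 ≤ E * p.2.length → (M + 2) ^ (c1 * (p.2.length + 1)) ≤ p.1.length →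
    mn (p, q) ≠ none

/-! ### the final statement -/

/-- a tournament on `Fin n` -/
def IsTournament {n : ℕ} (X : Fin n → Fin n → Bool) : Prop :=
  (∀ u, X u u = false) ∧ ∀ u v, u ≠ v → X v u = !X u v

/-- the adjacency matrix, row by row -/
def arcBits {n : ℕ} (X : Fin n → Fin n → Bool) : List Bool :=
  List.ofFn fun x : Fin (n * n) => X x.divNat x.modNat

/-- tournament isomorphism in time `n ^ o(log n)` -/
def FINAL : Prop :=
  ∃ (tm : Turing.FinTM2) (e₀ : tm.Γ tm.k₀ ≃ Bool) (e₁ : tm.Γ tm.k₁ ≃ Bool),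
    (∀ k, Finite (tm.Γ k)) ∧ ∀ ε : ℝ, 0 < ε → ∃ C : ℝ,
      ∀ (n : ℕ) (X Y : Fin n → Fin n → Bool), IsTournament X → IsTournament Y →
        ∃ (t : ℕ) (b : Bool), (t : ℝ) ≤ C * (n : ℝ) ^ (ε * Real.logb 2 n) ∧
          Nonempty (Turing.TM2OutputsInTime tm ((arcBits X ++ arcBits Y).map e₀.symm)
            (Option.some ([b].map e₁.symm)) t) ∧
          (b = true ↔ ∃ f : Equiv.Perm (Fin n), ∀ u v, Y (f u) (f v) = X u v)

/-- block D1 (engines) -/
def TRX : Prop := REC → GAME → ∃ tr, TRSpec tr
/-- block D2 (refinement) -/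
def WLX : Prop := ∃ cls, WLSpec cls
/-- block D3 (main recursion) -/
def MAINX : Prop := REC → GAIN → ∀ tr cls, TRSpec tr → WLSpec cls → ∃ mn, MSpec mn
/-- block D4 (machine and running time) -/
def FINX : Prop := ∀ mn, MSpec mn → FINAL

end Pool.Agent.P.MP_f1a348_lc.TO
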