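import Pool.Agent.P.MP_f1a348_lc.TO.DDefs
import Pool.Agent.P.MP_f1a348_lc.TO.ERec
import Pool.Agent.P.MP_f1a348_lc.TO.EGrp

/-! Tournament isomorphism, block D1: the engine that cuts the solutions out of a coset. -/

set_option autoImplicit false
set_option linter.unusedSectionVars false

namespace Pool.Agent.P.MP_f1a348_lc.TO

open Pool.Agent.Lib.Helper47 Pool.Agent.P.MP_f1a348_lc.GI

/-- a coset -/
abbrev Cs (G : Type) : Type := G × List G
/-- failure, the empty set, or a coset -/
abbrev Rs (G : Type) : Type := Option (Option (G × List G))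
/-- frames: fuel, current result, a list of points, and the data of a window, a list of moves or
a list of cosets -/
abbrev Fm (G Ω : Type) : Type := List Unit × Rs G × List Ω ×
  (List Ω ⊕ (Cs G × List (Ω × List Ω)) ⊕ (Cs G × List G × List G))

/-- the parameters of the engine -/
structure Cx (G Ω₀ Ω : Type) where
  /-- the budget -/
  pad : List Unit
  /-- the small budget for orbits and generators -/
  sp : List Unit
  /-- the bound for the number of blocks -/
  um : List Unit
  base : List Ω₀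
  dom : List Ω
  leaf : G → Ω → Bool
  merge : Cs G → List Ω → List Ω → Rs G

section abstract
variable {G Ω : Type} [Group G] [MulAction G Ω]

/-- the set of the entries -/
def St (l : List Ω) : Set Ω := {x | x ∈ l}
/-- the orbit -/
def orbS (K : Subgroup G) (w : Ω) : Set Ω := {x | ∃ u ∈ K, u • w = x}
/-- all elements have odd order -/
def OddG (H : Subgroup G) : Prop := ∀ g ∈ H, ∃ n, Odd n ∧ g ^ n = 1
/-- `U` is a proper subgroup of `K` that contains the stabiliser of `w` -/
structure Btw (K : Subgroup G) (w : Ω) (U : Subgroup G) : Prop where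
  lo : K ⊓ MulAction.stabilizer G w ≤ U
  hi : U ≤ K
  ne : U ≠ K
/-- the orbit of `w` is not a point and has no block system with between `2` and `m` blocks -/
def M2L (m : ℕ) (K : Subgroup G) (w : Ω) : Prop :=
  (∃ g ∈ K, g • w ≠ w) ∧ ∀ U, Btw K w U → ¬ Idx U K m
/-- `f` pins from `dom` suffice on the window `W` -/
def WinL (dom : List Ω) (m : ℕ) : ℕ → Subgroup G → Set Ω → Prop
  | 0, H, W => ∀ K ≤ H, ∀ w, orbS K w ⊆ W → ¬ M2L m K w
  | f + 1, H, W => ∀ K ≤ H, ∀ w, orbS K w ⊆ W → M2L m K w →
      ∃ p ∈ dom, WinL dom m f (K ⊓ MulAction.stabilizer G p) (orbS K w)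

theorem WinL.mono {dom : List Ω} {m f : ℕ} {H H' : Subgroup G} {W W' : Set Ω}
    (h : WinL dom m f H W) (e : H' ≤ H) (e' : W' ⊆ W) : WinL dom m f H' W' := by
  cases f <;> exact fun K hK w hw => h K (hK.trans e) w (hw.trans e')

@[simp] theorem mem_St {l : List Ω} {x : Ω} : x ∈ St l ↔ x ∈ l := Iff.rfl
theorem mem_orbS {K : Subgroup G} {w x : Ω} : x ∈ orbS K w ↔ ∃ u ∈ K, u • w = x := Iff.rfl
end abstract

variable {G Ω₀ Ω : Type} [Group G] [DecidableEq G] [MulAction G Ω₀] [DecidableEq Ω₀]
  [MulAction G Ω] [DecidableEq Ω]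

/-! ### the programs -/

/-- the test `h • p ∈ B` -/
def memB (p : Ω) (B : List Ω) (h : G) : Bool := B.contains (h • p)

/-- all generators fix `w` -/
def fixG (S : List G) (w : Ω) : Bool := S.all (fun s => s • w == w)

namespace Cx
variable (x : Cx G Ω₀ Ω)

/-- the blocks generated by `B` and one more point -/
def nextB (S : List G) (O : List Ω) (w : Ω) (B : List Ω) : List (List Ω) :=
  (prodL (bfs x.um (memB w B) S) (bfs x.um (memB w B) S)).map
    (fun r => orbL x.sp (r.1⁻¹ * r.2 :: subG x.sp x.base (memB w B) S) O w)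

/-- the candidates for a block -/
def cands (S : List G) (O : List Ω) (w : Ω) : List (List Ω) :=
  (fun L => (L ++ L.flatMap (x.nextB S O w)).take x.pad.length)^[x.sp.length] [[w]]

/-- a proper block with few translates -/
def findB (S : List G) (O : List Ω) (w : Ω) : Option (List Ω) :=
  (x.cands S O w).find? (fun B => Nat.ble (bfs x.um (memB w B) S).length x.um.length &&
    S.any (fun s => !memB w B s))

/-- treat the window `W` orbit by orbit -/
def winF (f : List Unit) (c : Cs G) (W : List Ω) : Fm G Ω := (f, some (some c), [], .inl W)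

/-- treat the orbit `O` of `w` -/
def tryF (f : List Unit) (c : Cs G) (O : List Ω) (w : Ω) : Fm G Ω :=
  bif fixG c.2 w then (f, some (bif x.leaf c.1 w then some c else none), O, .inr (.inl (c, [])))
  else (x.findB c.2 O w).elim
    (f.tail, none, O, .inr (.inl (c, bif f.isEmpty then [] else x.dom.map (fun p => (p, [p])))))
    (fun B => (f, none, O, .inr (.inl (c, [(w, B)]))))

/-- split the coset along the subgroup given by a move -/
def brF (f : List Unit) (c : Cs G) (O : List Ω) (v : Ω × List Ω) : Fm G Ω :=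
  (f, some none, O, .inr (.inr (c, subG x.sp x.base (memB v.1 v.2) c.2,
    (bfs x.sp (memB v.1 v.2) c.2).map (fun r => c.1 * r))))

/-- the orbit of the first point of `B` -/
def hd (r : Rs G) (B : List Ω) : List Ω :=
  (r.bind id).elim [] (fun c => B.head?.elim [] (fun w => orbL x.sp c.2 B w))

/-- the engine as a recursive procedure -/
def prog : RP (Fm G Ω) (Rs G) where
  ask s := s.2.2.2.elim
    (fun B => (s.2.1.bind id).bind (fun c => B.head?.map
      (fun w => x.tryF s.1 c (orbL x.sp c.2 B w) w)))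
    (fun y => y.elim
      (fun z => bif s.2.1.isSome then none else z.2.head?.map (fun v => x.brF s.1 z.1 s.2.2.1 v))
      (fun z => bif s.2.1.isSome then z.2.2.head?.map (fun g => winF s.1 (g, z.2.1) s.2.2.1)
        else none))
  upd s r := s.2.2.2.elim
    (fun B => (s.1, r.bind (fun o => o.elim (some none)
        (fun c => x.merge c s.2.2.1 (x.hd s.2.1 B))), s.2.2.1 ++ x.hd s.2.1 B,
      .inl (B.filter (fun b => !(x.hd s.2.1 B).contains b))))
    (fun y => y.elim
      (fun z => (s.1, r, s.2.2.1, .inr (.inl (z.1, z.2.tail))))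
      (fun z => (s.1, s.2.1.bind (fun a => r.map (fun b => join x.sp x.base a b)), s.2.2.1,
        .inr (.inr (z.1, z.2.1, z.2.2.tail)))))
  out s := s.2.1

/-- the engine -/
def eng [Enc G] [Enc Ω] (f : List Unit) (c : Cs G) : Rs G :=
  (x.prog.run x.pad (winF f (c.1, sims x.sp x.base c.2) x.dom)).bind id
end Cx

/-! ### the specifications -/

/-- the solutions on `W` inside a coset -/
def Sol (P : Set Ω → G → Prop) (r : Option (Cs G)) (W : List Ω) : Set G :=
  {g | g ∈ cs r ∧ P (St W) g}

/-- a short description of a subset of `σ H` -/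
def Gd (H : Subgroup G) (σ : G) (n : ℕ) (r : Option (Cs G)) : Prop :=
  (∀ g ∈ cs r, σ⁻¹ * g ∈ H) ∧ ∀ p ∈ r, p.2.length ≤ n

/-- the arguments of a merge -/
structure MArg (H : Subgroup G) (σ : G) (n : ℕ) (P : Set Ω → G → Prop) (c : Cs G)
    (A O : List Ω) : Prop where
  gd : Gd H σ n (some c)
  ia : InvL (gen c.2) A
  io : InvL (gen c.2) O
  sol : ∀ g ∈ cs (some c), P (St A) g ∧ P (St O) g

/-- the properties of a problem -/
structure Prob (H : Subgroup G) (σ : G) (n : ℕ) (P : Set Ω → G → Prop) (leaf : G → Ω → Bool)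
    (merge : Cs G → List Ω → List Ω → Rs G) : Prop where
  nil : ∀ g, P ∅ g
  mono : ∀ W W' g, W ⊆ W' → P W' g → P W g
  heap : ∀ (K : Subgroup G) (W : Set Ω) a b c, (∀ u ∈ K, ∀ w ∈ W, u • w ∈ W) → a⁻¹ * b ∈ K →
    a⁻¹ * c ∈ K → P W a → P W b → P W c → P W (a * b⁻¹ * c)
  leaf : ∀ g u w, u • w = w → (leaf g w = true ↔ P {w} (g * u))
  merge : ∀ c A O r, MArg H σ n P c A O → merge c A O = some r →
    cs r = Sol P (some c) (A ++ O) ∧ ∀ p ∈ r, p.2.length ≤ n

namespace Cx
variable (x : Cx G Ω₀ Ω)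

/-- the parameters fit the group `H` -/
structure Ok (H : Subgroup G) : Prop where
  faith : Faith x.sp x.base H
  inv : InvL H x.dom
  len : x.dom.length ≤ x.sp.length

/-- a short list of points -/
def Sub (l : List Ω) : Prop := (∀ a ∈ l, a ∈ x.dom) ∧ l.length ≤ x.dom.length

/-- a move describes a subgroup of small index -/
def Mv (K : Subgroup G) (v : Ω × List Ω) : Prop :=
  v.1 ∈ x.dom ∧ x.Sub v.2 ∧
    ∃ U : Subgroup G, (∀ u ∈ K, memB v.1 v.2 u = true ↔ u ∈ U) ∧ Idx U K x.dom.length

/-- the invariant of the frames -/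
def Pre (H : Subgroup G) (σ : G) (P : Set Ω → G → Prop) (k : ℕ) : Fm G Ω → Prop
  | (f, r, A, .inl B) => f.length ≤ k ∧ x.Sub (A ++ B) ∧ ∀ o ∈ r, Gd H σ x.sp.length o ∧
      ∀ c ∈ o, InvL (gen c.2) A ∧ InvL (gen c.2) B ∧ ∀ g ∈ cs (some c), P (St A) g
  | (f, r, O, .inr (.inl (c, V))) => f.length ≤ k ∧ x.Sub O ∧ Gd H σ x.sp.length (some c) ∧
      InvL (gen c.2) O ∧ (V.length ≤ x.dom.length ∧ ∀ v ∈ V, x.Mv (gen c.2) v) ∧
      ∀ o ∈ r, Gd H σ x.sp.length o ∧ cs o = Sol P (some c) O
  | (f, r, O, .inr (.inr (c, S, R))) => f.length ≤ k ∧ x.Sub O ∧ Gd H σ x.sp.length (some c) ∧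
      InvL (gen c.2) O ∧ (gen S ≤ gen c.2 ∧ S.length ≤ x.sp.length) ∧
      (R.length ≤ x.dom.length ∧ ∀ g ∈ R, g ∈ cs (some c)) ∧
      ∀ o ∈ r, Gd H σ x.sp.length o ∧ cs o ⊆ Sol P (some c) O ∧
        ∀ g ∈ Sol P (some c) O, g ∈ cs o ∨ ∃ t ∈ R, t⁻¹ * g ∈ gen S

/-- the meaning of the results -/
def Post (H : Subgroup G) (σ : G) (P : Set Ω → G → Prop) : Fm G Ω → Rs G → Prop
  | (_, r, A, .inl B), r' => ∀ o' ∈ r', Gd H σ x.sp.length o' ∧ ∃ o ∈ r, cs o' = Sol P o (A ++ B)
  | (_, _, O, .inr (.inl (c, _))), r' => ∀ o' ∈ r', Gd H σ x.sp.length o' ∧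
      cs o' = Sol P (some c) O
  | (_, _, O, .inr (.inr (c, _))), r' => ∀ o' ∈ r', Gd H σ x.sp.length o' ∧
      cs o' = Sol P (some c) O

/-- the budget for the block search -/
def Big : Prop := ((x.um.length + 1) ^ 2 + 1) ^ (Nat.log 2 x.dom.length + 1) ≤ x.pad.length
end Cx

/-- the number of calls for each point of the window -/
def cost (m N f h : ℕ) : ℕ := 2 * (4 * (m + 1)) ^ h * (4 * (N + 1) ^ 2) ^ f

/-- the parameters are computed in polynomial time -/
structure Cx.Poly [Enc G] [Enc Ω₀] [Enc Ω] {α : Type} [Enc α] (x : α → Cx G Ω₀ Ω) : Prop where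
  pad : PT (fun a => (x a).pad)
  sp : PT (fun a => (x a).sp)
  um : PT (fun a => (x a).um)
  base : PT (fun a => (x a).base)
  dom : PT (fun a => (x a).dom)
  leaf : PT (fun p : α × G × Ω => (x p.1).leaf p.2.1 p.2.2)
  merge : PT (fun p : α × Cs G × List Ω × List Ω => (x p.1).merge p.2.1 p.2.2.1 p.2.2.2)

/-! ### strings -/

/-- `g` carries `X` to `Y` on `W` -/
def siP (X Y : List Ω) (W : Set Ω) (g : G) : Prop := ∀ w ∈ W, (w ∈ X ↔ g • w ∈ Y)

/-- the parameters for string isomorphism -/
def siCx (pad sp um : List Unit) (base : List Ω₀) (dom X Y : List Ω) : Cx G Ω₀ Ω :=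
  ⟨pad, sp, um, base, dom, fun g w => X.contains w == Y.contains (g • w), fun c _ _ => some (some c)⟩

theorem si_prob (H : Subgroup G) (σ : G) (n : ℕ) (X Y : List Ω) :
    Prob H σ n (siP X Y) (fun g w => X.contains w == Y.contains (g • w))
      (fun c _ _ => some (some c)) where
  nil := fun _ _ h => h.elim
  mono := fun _ _ _ e h w hw => h w (e hw)
  heap := fun K W a b c hW h1 h2 ha hb hc w hw => by
    have h3 : (b⁻¹ * c) • w ∈ W := hW _ (by simpa [mul_assoc] using mul_mem (inv_mem h1) h2) w hw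
    rw [hc w hw, mul_assoc, mul_smul, ← ha _ h3, hb _ h3, ← mul_smul, mul_inv_cancel_left]
  leaf := fun g u w h => by rw [beq_iff_eq, Bool.eq_iff_iff]; simp [siP, mul_smul, h]
  merge := fun c A O r h e => by
    obtain rfl : some c = r := Option.some.inj e
    refine ⟨Set.ext fun g => ⟨fun hg => ⟨hg, fun w hw => ?_⟩, fun hg => hg.1⟩, h.gd.2⟩
    exact (List.mem_append.1 hw).elim ((h.sol g hg).1 w) ((h.sol g hg).2 w)

/-! ### sets of strings -/

/-- the entries at the positions of `W` -/
def res (W : List (Option ℕ)) (s : Str) : Str := Str.mk (s.list.filter (fun e => W.contains e.1))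

open Classical in
/-- the entries at the positions of `W` -/
noncomputable def resS (W : Set (Option ℕ)) (s : Str) : Str := s.val.filter (fun e => e.1 ∈ W)

/-- the traces of `X` and of `g⁻¹ Y` on `W` agree -/
def hyP (X Y : List Str) (W : Set (Option ℕ)) (g : U) : Prop :=
  ∀ z, (∃ s ∈ X, resS W s = z) ↔ ∃ t ∈ Y, resS W (g⁻¹ • t) = z

/-- the test for one position -/
noncomputable def hyLeaf (X Y : List Str) (g : U) (w : Option ℕ) : Bool :=
  X.all (fun s => Y.any (fun t => res [w] s == res [w] (g⁻¹ • t))) &&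
    Y.all (fun t => X.any (fun s => res [w] s == res [w] (g⁻¹ • t)))

/-- all unions of a trace on `A` and a trace on `O` -/
noncomputable def hyWin (X : List Str) (A O : List (Option ℕ)) : List Str :=
  (prodL X X).map (fun p => Str.mk ((res A p.1).list ++ (res O p.2).list))

/-- merge two windows by a string isomorphism test `si window X' Y' coset` -/
noncomputable def hyMerge (si : List Str → List Str → List Str → Co → Res) (X Y : List Str)
    (c : Co) (A O : List (Option ℕ)) : Res :=
  si (hyWin X A O) (X.map (res (A ++ O))) (Y.map (fun t => c.1 • res (A ++ O) (c.1⁻¹ • t))) c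

/-! ### the transporter -/

/-- `2 ^ j` in unary, cut at the budget -/
def dbl (pad j : List Unit) : List Unit := (fun l => (l ++ l).take pad.length)^[j.length] [()]

/-- the square of the length in unary -/
def sqU {β : Type} (l : List β) : List Unit := (prodL l l).map (fun _ => ())

/-- the small budget -/
def spOf (V : List ℕ) (X : List Str) : List Unit :=
  sqU (() :: (V.map (fun _ => ()) ++ X.map (fun _ => ())))

/-- the positions -/
def posL (V : List ℕ) : List (Option ℕ) := none :: V.map some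

/-- the parameters of the inner engine -/
noncomputable def inCx (p : Par) (V : List ℕ) (X D X' Y' : List Str) : Cx U ℕ Str :=
  siCx p.1 (spOf V X) (dbl p.1 p.2) V D X' Y'

/-- the parameters of the outer engine -/
noncomputable def hyCx (p : Par) (V : List ℕ) (X Y : List Str) : Cx U ℕ (Option ℕ) :=
  ⟨p.1, spOf V X, dbl p.1 p.2, V, posL V, hyLeaf X Y,
    hyMerge (fun D X' Y' c => (inCx p V X D X' Y').eng p.2 c) X Y⟩

/-- the preliminary test -/
noncomputable def trT (V : List ℕ) (c : Co) (X Y : List Str) : Bool :=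
  X.isEmpty == Y.isEmpty &&
    Y.all (fun t => (c.1⁻¹ • t).list.all (fun e => (posL V).contains e.1))

/-- the transporter -/
noncomputable def trP (q : TRIn) : Res :=
  bif trT q.2.1 q.2.2.1 q.2.2.2.1 q.2.2.2.2 then
    ((hyCx q.1 q.2.1 q.2.2.2.1 q.2.2.2.2).eng q.1.2 q.2.2.1).map
      (fun o => o.map (fun c => (c.1, sims (sqU q.2.1) q.2.1 c.2)))
  else some none

end Pool.Agent.P.MP_f1a348_lc.TO
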