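import Pool.Agent.P.MP_f1a348_lc.TO.EDefs

/-! Tournament isomorphism, blocks D0 and D1: the statements. -/

set_option autoImplicit false
set_option linter.unusedSectionVars false

namespace Pool.Agent.P.MP_f1a348_lc.TO

open Pool.Agent.Lib.Helper47 Pool.Agent.P.MP_f1a348_lc.GI

def S_EHALF : Prop := ∀ (G Ω : Type) [Group G] [MulAction G Ω] (K U : Subgroup G) (w : Ω),
  OddG K → Btw K w U → (orbS K w).Finite →
    ∀ a ∈ orbS K w, 2 * (orbS U a).ncard ≤ (orbS K w).ncard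

def S_EBLK : Prop := ∀ (G Ω₀ Ω : Type) [Group G] [DecidableEq G] [MulAction G Ω₀] [DecidableEq Ω₀]
  [MulAction G Ω] [DecidableEq Ω] (x : Cx G Ω₀ Ω) (S : List G) (O : List Ω) (w : Ω),
  Faith x.sp x.base (gen S) → InvL (gen S) O → O.length ≤ x.sp.length → w ∈ O →
    (∀ B, x.findB S O w = some B → ((∀ a ∈ B, a ∈ O) ∧ B.length ≤ O.length) ∧
      ∃ U, Btw (gen S) w U ∧ Idx U (gen S) x.um.length ∧
        ∀ u ∈ gen S, memB w B u = true ↔ u ∈ U) ∧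
    (((x.um.length + 1) ^ 2 + 1) ^ (Nat.log 2 O.length + 1) ≤ x.pad.length →
      x.findB S O w = none → ∀ U, Btw (gen S) w U → ¬ Idx U (gen S) x.um.length)

-- deps: EBLK
def S_ESTEP : Prop := ∀ (G Ω₀ Ω : Type) [Group G] [DecidableEq G] [MulAction G Ω₀]
  [DecidableEq Ω₀] [MulAction G Ω] [DecidableEq Ω] (x : Cx G Ω₀ Ω) (H : Subgroup G) (σ : G)
  (P : Set Ω → G → Prop) (k : ℕ), x.Ok H → Prob H σ x.sp.length P x.leaf x.merge →
    (∀ s, x.Pre H σ P k s → x.prog.ask s = none → x.Post H σ P s (x.prog.out s)) ∧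
    ∀ s a, x.Pre H σ P k s → x.prog.ask s = some a → x.Pre H σ P k a ∧
      ∀ r, x.Post H σ P a r → x.Pre H σ P k (x.prog.upd s r) ∧
        ∀ r', x.Post H σ P (x.prog.upd s r) r' → x.Post H σ P s r'

def S_ESIZE : Prop := ∀ (G Ω₀ Ω : Type) [Group G] [DecidableEq G] [MulAction G Ω₀]
  [DecidableEq Ω₀] [MulAction G Ω] [DecidableEq Ω] [Enc G] [Enc Ω] (x : Cx G Ω₀ Ω)
  (H : Subgroup G) (σ : G) (P : Set Ω → G → Prop) (k M : ℕ) (s : Fm G Ω),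
  (∀ g ∈ H, size g ≤ M) → (∀ g, σ⁻¹ * g ∈ H → size g ≤ M) → (∀ a ∈ x.dom, size a ≤ M) →
    x.sp.length ≤ M → x.dom.length ≤ M → x.Pre H σ P k s → size s ≤ 2 * k + 20 * (M + 2) ^ 3

-- deps: EHALF EBLK ESTEP
def S_EEV : Prop := ∀ (G Ω₀ Ω : Type) [Group G] [DecidableEq G] [MulAction G Ω₀]
  [DecidableEq Ω₀] [MulAction G Ω] [DecidableEq Ω] (x : Cx G Ω₀ Ω) (H : Subgroup G) (σ : G)
  (P : Set Ω → G → Prop), x.Ok H → Prob H σ x.sp.length P x.leaf x.merge → OddG H → x.Big →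
    (∀ c A O, MArg H σ x.sp.length P c A O → x.merge c A O ≠ none) →
    ∀ (f : List Unit) (c : Cs G), Gd H σ x.sp.length (some c) →
      ∃ r n, x.prog.Ev (fun _ => True) (Cx.winF f c x.dom) r n ∧
        n ≤ x.dom.length * cost x.um.length x.dom.length f.length
          (Nat.log 2 x.dom.length + 1) + 1 ∧
        (WinL x.dom x.um.length f.length (gen c.2) (St x.dom) → r ≠ none)

-- deps: ESTEP ESIZE EEV
def S_EENG : Prop := ∀ (G Ω₀ Ω : Type) [Group G] [DecidableEq G] [MulAction G Ω₀]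
  [DecidableEq Ω₀] [MulAction G Ω] [DecidableEq Ω] [Enc G] [Enc Ω] (x : Cx G Ω₀ Ω) (c : Cs G)
  (P : Set Ω → G → Prop) (f : List Unit), x.Ok (gen c.2) →
    Prob (gen c.2) c.1 x.sp.length P x.leaf x.merge →
    (∀ r, x.eng f c = some r →
      cs r = Sol P (some c) x.dom ∧ ∀ p ∈ r, p.2.length ≤ x.sp.length) ∧
    ∀ M, OddG (gen c.2) → WinL x.dom x.um.length f.length (gen c.2) (St x.dom) →
      (∀ c' A O, MArg (gen c.2) c.1 x.sp.length P c' A O → x.merge c' A O ≠ none) →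
      (∀ g ∈ gen (c.1 :: c.2), size g ≤ M) → (∀ a ∈ x.dom, size a ≤ M) → x.sp.length ≤ M →
      x.um.length ≤ 2 ^ f.length → (M + 2) ^ (20 * (f.length + 1)) ≤ x.pad.length →
      x.eng f c ≠ none

def S_EPT : Prop := ∀ (G Ω₀ Ω α : Type) [Group G] [DecidableEq G] [MulAction G Ω₀]
  [DecidableEq Ω₀] [MulAction G Ω] [DecidableEq Ω] [Enc G] [Enc Ω₀] [Enc Ω] [Enc α] [PG G]
  [PA G Ω₀] [PA G Ω] (x : α → Cx G Ω₀ Ω) (f : α → List Unit) (c : α → Cs G),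
  Cx.Poly x → PT f → PT c → PT (fun a => (x a).eng (f a) (c a))

def S_EWIN : Prop := GAME → ∀ D E : ℕ, ∃ m0 c : ℕ, ∀ (G Ω : Type) [Group G] [DecidableEq G]
  [MulAction G Ω] [DecidableEq Ω] (H : Subgroup G) (dom : List Ω) (m f : ℕ), OddG H →
    InvL H dom → m0 ≤ m → dom.length ≤ m ^ D → Nat.log 2 dom.length + c ≤ E * f →
    WinL dom m f H (St dom)

def S_EHYP : Prop := ∀ (X Y : List Str) (H : Subgroup U) (σ : U) (n : ℕ)
  (si : List Str → List Str → List Str → Co → Res), (X = [] ↔ Y = []) →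
  (∀ c D X' Y' r, Gd H σ n (some c) → InvL (gen c.2) D → D.length ≤ X.length ^ 2 →
    si D X' Y' c = some r → cs r = Sol (siP X' Y') (some c) D ∧ ∀ p ∈ r, p.2.length ≤ n) →
  Prob H σ n (hyP X Y) (hyLeaf X Y) (hyMerge si X Y) ∧
    ∀ c A O, MArg H σ n (hyP X Y) c A O → InvL (gen c.2) (hyWin X A O)

-- deps: EENG EHYP
def S_ETROK : Prop := ∀ (p : Par) (V : List ℕ) (c : Co) (X Y : List Str),
  (∀ s ∈ c.2, Sup V s) → (X = [] ↔ Y = []) →
    (hyCx p V X Y).Ok (gen c.2) ∧ Faith (sqU V) V (gen c.2) ∧ (NoInv (gen c.2) → OddG (gen c.2)) ∧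
    Prob (gen c.2) c.1 (spOf V X).length (hyP X Y) (hyCx p V X Y).leaf (hyCx p V X Y).merge ∧
    ∀ c' A O X' Y', MArg (gen c.2) c.1 (spOf V X).length (hyP X Y) c' A O →
      (inCx p V X (hyWin X A O) X' Y').Ok (gen c'.2)

-- deps: EPT
def S_ETRPT : Prop := PT trP

-- deps: EENG ETROK
def S_ETRS : Prop := ∀ p V c X Y r, TRPre p V c X → trP (p, V, c, X, Y) = some r →
  rset r = {g | g ∈ cset c ∧ ∀ y, y ∈ X ↔ g • y ∈ Y} ∧
    ∀ c', r = some c' → gen c'.2 ≤ gen c.2 ∧ c'.2.length ≤ V.length ^ 2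

-- deps: EENG EWIN ETROK
def S_ETRH : Prop := GAME → ∃ c1 : ℕ, ∀ E : ℕ, ∃ c0 : ℕ, ∀ p V c X Y (M : ℕ), TRPre p V c X →
  NoInv (gen c.2) → size (V, c, X, Y) ≤ M → Nat.log 2 M + c0 ≤ E * p.2.length →
    (M + 2) ^ (c1 * (p.2.length + 1)) ≤ p.1.length → trP (p, V, c, X, Y) ≠ none

theorem trx_of (h1 : S_ETRPT) (h2 : S_ETRS) (h3 : S_ETRH) : TRX :=
  fun _ h => ⟨trP, h1, h2, h3 h⟩

end Pool.Agent.P.MP_f1a348_lc.TO
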