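import Pool.Agent.P.MP_f1a348_lc.TO.EDefs
import Pool.Agent.P.MP_f1a348_lc.TO.CBase

/-! Tournament isomorphism, block D1: the game for lists, and the halving lemma. -/

set_option autoImplicit false
set_option linter.unusedSectionVars false

namespace Pool.Agent.P.MP_f1a348_lc.TO

open Equiv
open scoped Classical

namespace EWin

variable {G Ω : Type} [Group G] [MulAction G Ω]

theorem odd_sq {K V : Subgroup G} (hK : OddG K) {g : G} (hg : g ∈ K) (h : g * g ∈ V) : g ∈ V := by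
  obtain ⟨n, ⟨r, rfl⟩, e⟩ := hK g hg
  have h1 : g = ((g * g) ^ r)⁻¹ := by
    rw [eq_inv_iff_mul_eq_one, ← pow_two, ← pow_mul, ← pow_succ', e]
  rw [h1]
  exact V.inv_mem (V.pow_mem h r)

theorem half_q {K V : Subgroup G} (hK : OddG K) (hV : V ≤ K) (hne : V ≠ K)
    (hfin : (ob K (q1 V)).Finite) {y : G ⧸ V} (hy : y ∈ ob K (q1 V)) :
    2 * (ob V y).ncard ≤ (ob K (q1 V)).ncard := by
  obtain ⟨g, hg, rfl⟩ := hy
  have h0 := self_mem_ob K (q1 V)
  by_cases hgV : g ∈ V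
  · obtain ⟨k, hk, hkV⟩ : ∃ k ∈ K, k ∉ V := by
      by_contra hc
      push Not at hc
      exact hne (le_antisymm hV hc)
    have e : ob V (g • q1 V) = {q1 V} := by
      ext z
      constructor
      · rintro ⟨u, hu, rfl⟩
        rw [← mul_smul]
        exact smul_q1_eq.2 (V.mul_mem hu hgV)
      · rintro rfl
        exact ⟨g⁻¹, V.inv_mem hgV, inv_smul_smul _ _⟩
    rw [e, Set.ncard_singleton]
    exact (Set.one_lt_ncard hfin).2 ⟨_, smul_mem_ob hk h0, _, h0, fun e => hkV (smul_q1_eq.1 e)⟩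
  have hst : MulAction.stabilizer G (g • q1 V) = cj g V := by
    ext u
    rw [MulAction.mem_stabilizer_iff, mem_cj, ← smul_q1_eq, mul_smul, mul_smul, inv_smul_eq_iff]
  have hpos : V.relIndex K ≠ 0 := by
    rw [← ncard_ob_q1]
    exact ((Set.ncard_pos hfin).2 ⟨_, h0⟩).ne'
  have e1 : (cj g V).relIndex K = V.relIndex K := by
    rw [← hst, ← ncard_ob, ob_eq_of_mem (smul_mem_ob hg h0), ncard_ob_q1]
  have e2 : (ob V (g⁻¹ • q1 V)).ncard = (ob V (g • q1 V)).ncard := by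
    rw [← ncard_ob_cj g V (g⁻¹ • q1 V), smul_inv_smul, ncard_ob_q1, ncard_ob, hst]
    have h1 := Subgroup.relIndex_mul_relIndex (V ⊓ cj g V) V K inf_le_left hV
    have h2 := Subgroup.relIndex_mul_relIndex (V ⊓ cj g V) (cj g V) K inf_le_right (cj_le hg hV)
    rw [Subgroup.inf_relIndex_left] at h1
    rw [Subgroup.inf_relIndex_right, e1, ← h1] at h2
    exact Nat.eq_of_mul_eq_mul_right (Nat.pos_of_ne_zero hpos) h2
  have s1 : ∀ a ∈ K, ob V (a • q1 V) ⊆ ob K (q1 V) := fun a ha =>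
    (ob_mono hV _).trans (ob_eq_of_mem (smul_mem_ob ha h0)).subset
  have hd : Disjoint (ob V (g • q1 V)) (ob V (g⁻¹ • q1 V)) := by
    rw [Set.disjoint_left]
    rintro _ ⟨u, hu, rfl⟩ ⟨u', hu', e⟩
    have h1 : (g * u'⁻¹ * u * g) • q1 V = q1 V := by
      rw [mul_smul, mul_smul, ← e, mul_smul, inv_smul_smul, smul_inv_smul]
    have h2 := V.mul_mem (V.mul_mem (V.inv_mem hu') hu) (smul_q1_eq.1 h1)
    have h3 : u'⁻¹ * u * g ∈ V := odd_sq hK
      (K.mul_mem (K.mul_mem (K.inv_mem (hV hu')) (hV hu)) hg) (by simpa [mul_assoc] using h2)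
    exact hgV ((V.mul_mem_cancel_left (V.mul_mem (V.inv_mem hu') hu)).1 h3)
  rw [two_mul]
  nth_rewrite 2 [← e2]
  rw [← Set.ncard_union_eq hd (hfin.subset (s1 g hg)) (hfin.subset (s1 _ (K.inv_mem hg)))]
  exact Set.ncard_le_ncard (Set.union_subset (s1 g hg) (s1 _ (K.inv_mem hg))) hfin

end EWin

/-- A proper subgroup above a point stabiliser has orbits of at most half the size. -/
theorem half {G Ω : Type} [Group G] [MulAction G Ω] {K V : Subgroup G} {w : Ω} (hK : OddG K)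
    (hfin : (orbS K w).Finite) (hB : Btw K w V) :
    ∀ x ∈ orbS K w, 2 * (orbS V x).ncard ≤ (orbS K w).ncard := by
  change (ob K w).Finite at hfin
  change ∀ x ∈ ob K w, 2 * (ob V x).ncard ≤ (ob K w).ncard
  have h0 := self_mem_ob K w
  let ψ : Ω → G ⧸ V := fun x => if hx : x ∈ ob K w then hx.choose • q1 V else q1 V
  have h1 : ∀ h ∈ K, ψ (h • w) = h • q1 V := by
    intro h hh
    have hx : h • w ∈ ob K w := ⟨h, hh, rfl⟩
    have e : ψ (h • w) = hx.choose • q1 V := dif_pos hx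
    obtain ⟨hg, eg⟩ := hx.choose_spec
    have h2 : h⁻¹ * hx.choose ∈ V := hB.lo ⟨K.mul_mem (K.inv_mem hh) hg, by
      show (h⁻¹ * hx.choose) • w = w
      rw [mul_smul, eg, inv_smul_smul]⟩
    have h3 := smul_q1_eq.2 h2
    rw [mul_smul, inv_smul_eq_iff] at h3
    rw [e, h3]
  have h2 : ∀ h ∈ K, ∀ x ∈ ob K w, ψ (h • x) = h • ψ x := by
    rintro h hh _ ⟨g, hg, rfl⟩
    rw [h1 g hg, ← mul_smul, ← mul_smul, h1 _ (K.mul_mem hh hg)]
  have h3 : ψ '' ob K w = ob K (q1 V) := by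
    ext y
    constructor
    · rintro ⟨_, ⟨g, hg, rfl⟩, rfl⟩
      exact ⟨g, hg, (h1 g hg).symm⟩
    · rintro ⟨g, hg, rfl⟩
      exact ⟨g • w, ⟨g, hg, rfl⟩, h1 g hg⟩
  have h4 : ∀ x ∈ ob K w, {y | y ∈ ob K w ∧ ψ y = ψ x}.ncard =
      {y | y ∈ ob K w ∧ ψ y = ψ w}.ncard := by
    rintro _ ⟨g, hg, rfl⟩
    rw [← Set.ncard_image_of_injective {y | y ∈ ob K w ∧ ψ y = ψ w} (MulAction.injective g)]
    congr 1
    ext y
    constructor
    · rintro ⟨hy, e⟩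
      refine ⟨g⁻¹ • y, ⟨smul_mem_ob (K.inv_mem hg) hy, ?_⟩, smul_inv_smul _ _⟩
      rw [h2 _ (K.inv_mem hg) y hy, e, h2 g hg w h0, inv_smul_smul]
    · rintro ⟨z, ⟨hz, e⟩, rfl⟩
      exact ⟨smul_mem_ob hg hz, by rw [h2 g hg z hz, e, h2 g hg w h0]⟩
  intro x hx
  have hψx : ψ x ∈ ob K (q1 V) := h3 ▸ ⟨x, hx, rfl⟩
  have h5 := fib_count hfin ψ _ h4 (ob K (q1 V)) h3.ge
  have h6 := fib_count hfin ψ _ h4 (ob V (ψ x))
    (h3 ▸ (ob_mono hB.hi _).trans (ob_eq_of_mem hψx).subset)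
  have h7 := EWin.half_q hK hB.hi hB.ne (h3 ▸ hfin.image ψ) hψx
  have h8 : (ob V x).ncard ≤ {y | y ∈ ob K w ∧ ψ y ∈ ob V (ψ x)}.ncard := by
    refine Set.ncard_le_ncard ?_ (hfin.subset fun _ h => h.1)
    rintro _ ⟨u, hu, rfl⟩
    exact ⟨smul_mem_ob (hB.hi hu) hx, u, hu, (h2 u (hB.hi hu) x hx).symm⟩
  have h9 : {y | y ∈ ob K w ∧ ψ y ∈ ob K (q1 V)}.ncard ≤ (ob K w).ncard :=
    Set.ncard_le_ncard (fun _ h => h.1) hfin
  rw [h6] at h8
  rw [h5] at h9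
  exact le_trans (Nat.mul_le_mul_left 2 h8)
    (le_trans (by rw [← mul_assoc]; exact Nat.mul_le_mul_right _ h7) h9)

/-- The game for a group of odd exponent acting on the entries of a list. -/
theorem win_bridge (hG : GAME) (D E : ℕ) : ∃ m0 c : ℕ,
    ∀ (G Ω : Type) [Group G] [MulAction G Ω] (H : Subgroup G) (dom : List Ω) (m f : ℕ),
      OddG H → InvL H dom → m0 ≤ m → dom.length ≤ m ^ D →
      Nat.log 2 dom.length + c ≤ E * f → WinL dom m f H (St dom) := by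
  obtain ⟨m0, c, hW⟩ := hG D E
  refine ⟨m0, c, fun G Ω _ _ H dom m f hodd hinv hm hD hE => ?_⟩
  let act : MulAction H {x // x ∈ dom} :=
    { smul := fun h y => ⟨(h : G) • (y : Ω), hinv _ h.2 _ y.2⟩
      one_smul := fun y => Subtype.ext (one_smul G (y : Ω))
      mul_smul := fun a b y => Subtype.ext (mul_smul (a : G) (b : G) (y : Ω)) }
  let ρ : H →* Perm {x // x ∈ dom} := MulAction.toPermHom H _
  have hρ : ∀ (h : H) (y : {x // x ∈ dom}), (ρ h y).1 = (h : G) • y.1 := fun _ _ => rfl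
  let im : Subgroup G → Subgroup (Perm {x // x ∈ dom}) := fun S => (S.subgroupOf H).map ρ
  have him : ∀ S σ, σ ∈ im S ↔ ∃ h : H, (h : G) ∈ S ∧ ρ h = σ := fun S σ => Subgroup.mem_map
  have hcard : Fintype.card {x // x ∈ dom} ≤ dom.length := by
    rw [Fintype.card_of_subtype dom.toFinset (by simp)]
    exact List.toFinset_card_le dom
  have hod : Odd (Nat.card (im H)) := by
    rw [← Nat.not_even_iff_odd, even_iff_two_dvd]
    intro h2
    obtain ⟨⟨σ, hσ⟩, ho⟩ := exists_prime_orderOf_dvd_card' (hp := ⟨Nat.prime_two⟩) 2 h2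
    obtain ⟨h, hh, rfl⟩ := (him _ _).1 hσ
    obtain ⟨n, hn, e⟩ := hodd h hh
    have h3 : (⟨ρ h, hσ⟩ : im H) ^ n = 1 := by
      apply Subtype.ext
      have : h ^ n = 1 := Subtype.ext e
      simp [← map_pow, this]
    have h4 := orderOf_dvd_of_pow_eq_one h3
    rw [ho] at h4
    exact (Nat.not_even_iff_odd.2 hn) (even_iff_two_dvd.2 h4)
  have hM : ∀ K ≤ H, ∀ w : {x // x ∈ dom}, M2L m K w.1 → M2 m (im K) w := by
    intro K hK w ⟨⟨g, hg, hgw⟩, h2⟩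
    refine ⟨⟨ρ ⟨g, hK hg⟩, (him _ _).2 ⟨_, hg, rfl⟩, fun e => hgw (congrArg Subtype.val e)⟩,
      fun V h3 h4 h5 => ?_⟩
    by_contra hc
    have hI := (idx_of_relIndex (V := V) (K := im K) Subgroup.FiniteIndex.index_ne_zero).mono
      le_rfl (not_lt.1 hc)
    refine h2 (K ⊓ (V.comap ρ).map H.subtype) ⟨fun u hu => ⟨hu.1, ⟨u, hK hu.1⟩,
      h3 (mem_stab.2 ⟨(him _ _).2 ⟨_, hu.1, rfl⟩, Subtype.ext hu.2⟩), rfl⟩, inf_le_left,
      fun e => h5 (le_antisymm h4 fun σ hσ => ?_)⟩ fun l hl hp => ?_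
    · obtain ⟨h, hh, rfl⟩ := (him _ _).1 hσ
      obtain ⟨h', h6, e'⟩ := (e.ge hh).2
      rwa [← show h' = h from Subtype.ext e']
    · have h6 := hI (l.pmap (fun u hu => ρ ⟨u, hK hu⟩) hl) (by
        intro σ hσ
        obtain ⟨u, hu, rfl⟩ := List.mem_pmap.1 hσ
        exact (him _ _).2 ⟨_, hl u hu, rfl⟩) (hp.pmap hl fun u hu v hv hn hV => hn
          ⟨K.mul_mem (K.inv_mem hu) hv, (⟨u, hK hu⟩ : H)⁻¹ * ⟨v, hK hv⟩, by
            simpa using hV, rfl⟩)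
      rwa [List.length_pmap] at h6
  have horb : ∀ K ≤ H, ∀ w x : {x // x ∈ dom}, x ∈ orb (im K) w ↔ x.1 ∈ orbS K w.1 := by
    intro K hK w x
    rw [mem_orb]
    constructor
    · rintro ⟨σ, hσ, rfl⟩
      obtain ⟨h, hh, rfl⟩ := (him _ _).1 hσ
      exact ⟨h, hh, rfl⟩
    · rintro ⟨u, hu, e⟩
      exact ⟨ρ ⟨u, hK hu⟩, (him _ _).2 ⟨_, hu, rfl⟩, Subtype.ext e⟩
  have hmono : ∀ {S T : Subgroup G}, S ≤ T → im S ≤ im T := fun h σ hσ => by
    obtain ⟨g, hg, e⟩ := (him _ _).1 hσ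
    exact (him _ _).2 ⟨g, h hg, e⟩
  have key : ∀ (f : ℕ) (K : Subgroup G) (W : Set Ω) (W' : Finset {x // x ∈ dom}), K ≤ H →
      W ⊆ St dom → (∀ x : {x // x ∈ dom}, x.1 ∈ W → x ∈ W') → Win m f (im K) W' →
      WinL dom m f K W := by
    intro f
    induction f with
    | zero =>
      intro K W W' hK hW1 hW2 h K1 h1 w hw hM2
      have hwd : w ∈ dom := hW1 (hw ⟨1, K1.one_mem, one_smul _ _⟩)
      exact h (im K1) (hmono h1) ⟨w, hwd⟩
        (fun x hx => hW2 x (hw ((horb K1 (h1.trans hK) _ x).1 hx))) (hM K1 (h1.trans hK) _ hM2)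
    | succ f ih =>
      intro K W W' hK hW1 hW2 h K1 h1 w hw hM2
      have hwd : w ∈ dom := hW1 (hw ⟨1, K1.one_mem, one_smul _ _⟩)
      obtain ⟨p, hp⟩ := h (im K1) (hmono h1) ⟨w, hwd⟩
        (fun x hx => hW2 x (hw ((horb K1 (h1.trans hK) _ x).1 hx))) (hM K1 (h1.trans hK) _ hM2)
      refine ⟨p.1, p.2, ih _ _ (orb (im K1) ⟨w, hwd⟩) (inf_le_left.trans (h1.trans hK))
        (hw.trans hW1) (fun x hx => (horb K1 (h1.trans hK) _ x).2 hx) (hp.mono ?_ le_rfl)⟩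
      intro σ hσ
      obtain ⟨g, hg, rfl⟩ := (him _ _).1 hσ
      exact mem_stab.2 ⟨(him _ _).2 ⟨g, hg.1, rfl⟩, Subtype.ext hg.2⟩
  exact key f H _ Finset.univ le_rfl le_rfl (fun x _ => Finset.mem_univ x)
    (hW _ (im H) m f hod hm (hcard.trans hD)
      (le_trans (Nat.add_le_add_right (Nat.log_mono_right hcard) c) hE))

end Pool.Agent.P.MP_f1a348_lc.TO
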