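import Pool.Agent.P.MP_f1a348_lc.TO.DDefs

/-! Tournament isomorphism, block D4: the statements. -/

set_option autoImplicit false
set_option linter.unusedSectionVars false

namespace Pool.Agent.P.MP_f1a348_lc.TO

open Pool.Agent.Lib.Helper47 Pool.Agent.P.MP_f1a348_lc.GI

/-- a bound for the size of the parsed input -/
def fM (n c0 : ℕ) : ℕ := 16 * (n + 2) ^ 3 + 2 * (c0 + 4)

/-- a level at which the test answers -/
def fJ (n E c0 : ℕ) : ℕ := (Nat.log 2 (fM n c0) + c0) / E + 4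

-- deps:
def S_FTIME : Prop :=
  ∀ (d : ℕ) (ε : ℝ), 0 < ε → ∃ E : ℕ, 1 ≤ E ∧ ∀ c0 : ℕ, ∃ C : ℝ, ∀ n : ℕ,
    (((fM n c0 + 2) ^ (d * (fJ n E c0 + 8)) : ℕ) : ℝ) ≤ C * (n : ℝ) ^ (ε * Real.logb 2 n)

-- deps: FTIME
-- imports: Pool.Agent.Lib.Helper33.RT
def S_FINX : Prop := FINX

end Pool.Agent.P.MP_f1a348_lc.TO
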