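import Pool.Agent.P.MP_f1a348_lc.TO.DDefs
import Pool.Agent.P.MP_f1a348_lc.GI.ABasic

/-! Tournament isomorphism, block D3: the main recursion. -/

set_option autoImplicit false
set_option linter.unusedSectionVars false

namespace Pool.Agent.P.MP_f1a348_lc.TO

open Pool.Agent.Lib.Helper47 Pool.Agent.P.MP_f1a348_lc.GI

noncomputable section

/-! ### tools -/

/-- labelled classes -/
abbrev PD : Type := List (Str × List ℕ)
/-- the table of the answers of the calls -/
abbrev Tb : Type := List (Q × Res)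

/-- the fibre of `z` -/
def fib (N : List ℕ) (f : ℕ → Str) (z : ℕ) : List ℕ := N.filter fun y => f y == f z
/-- the fibres of `f` on `N` with their labels -/
def parts (N : List ℕ) (f : ℕ → Str) : PD :=
  (N.filter fun z => (fib N f z).head? == some z).map fun z => (f z, fib N f z)
/-- one round of the search of a component -/
def cstep (V : List ℕ) (r : ℕ → ℕ → Bool) (S : List ℕ) : List ℕ :=
  V.filter fun y => S.contains y || S.any fun x => r x y || r y x
/-- the connected component of `x` -/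
def comp (V : List ℕ) (r : ℕ → ℕ → Bool) (x : ℕ) : List ℕ :=
  (cstep V r)^[V.length] (V.filter fun y => y == x)
/-- the number of arcs from `C` to `D` -/
def arcs (E : List (ℕ × ℕ)) (C D : List ℕ) : ℕ := (prodL C D).countP fun e => E.contains e
/-- sequencing -/
def bindR (r : Res) (f : Co → Res) : Res := r.elim none fun o => o.elim (some none) f
/-- the restriction of `g` to `A` -/
def rst (A : List ℕ) (g : U) : U := FP.ofList (A.map fun x => (x, g.app x))
/-- the union of two sets of isomorphisms -/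
def uni (A : List ℕ) (r r' : Res) : Res :=
  r.elim none fun o => r'.elim none fun o' => some (o.elim o' fun c => some (o'.elim c fun c' =>
    (c.1, sims ((prodL A A).map fun _ => ()) A (rst A (c.1⁻¹ * c'.1) :: (c.2 ++ c'.2)))))
/-- vertices and arcs as strings -/
def strs (V : List ℕ) (E : List (ℕ × ℕ)) : List Str :=
  V.map (fun v => Str.mk [(some v, 2)]) ++
    ((prodL V V).filter fun e => E.contains e).map fun e => Str.mk [(some e.1, 0), (some e.2, 1)]
/-- the answer of the call `q` -/
def look (tb : Tb) (q : Q) : Option Co :=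
  (tb.find? fun e => e.1 == q).elim none fun e => e.2.elim none fun o => o
/-- the calls that compare the classes -/
def tcalls (E F : List (ℕ × ℕ)) (a b : PD) : List Q :=
  a.flatMap fun x => a.map (fun y => (x.2, E, y.2, E)) ++ b.map fun y => (x.2, E, y.2, F)
/-- the isomorphism type of the class `C` -/
def typ (tb : Tb) (E : List (ℕ × ℕ)) (a : PD) (C : List ℕ) (G : List (ℕ × ℕ)) : ℕ :=
  a.findIdx fun x => (look tb (x.2, E, C, G)).isSome
/-- the label together with the isomorphism type -/
def labP (tb : Tb) (E : List (ℕ × ℕ)) (a : PD) (G : List (ℕ × ℕ)) (x : Str × List ℕ) : Str :=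
  Str.mk ((none, 2 * typ tb E a x.2 G + 1) :: x.1.list)
/-- the lift of `g` to the classes -/
def lf (tb : Tb) (E : List (ℕ × ℕ)) (D : List ℕ) (a b : PD) (G : List (ℕ × ℕ)) (g : U) : U :=
  FP.ofList (D.map (fun d => (d, g.app d)) ++ a.flatMap fun x =>
    (b.find? fun y => y.1 == g • x.1).elim [] fun y =>
      (look tb (x.2, E, y.2, G)).elim [] fun c => x.2.map fun z => (z, c.1.app z))
/-- the generators of the automorphism groups of the classes -/
def autG (tb : Tb) (E : List (ℕ × ℕ)) (a : PD) : List U :=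
  a.flatMap fun x => (look tb (x.2, E, x.2, E)).elim [] fun c => c.2

section prog
variable (tr : TRIn → Res) (cls : Par × Q × Bool × List ℕ → ℕ) (p : Par)

/-- extend a coset from the control domain to the classes -/
def lift (tb : Tb) (E F : List (ℕ × ℕ)) (V D : List ℕ) (c : Co) (a b : PD) : Res :=
  bindR (tr (p, V, c, a.map (labP tb E a E), b.map (labP tb E a F))) fun c' =>
    some (some (lf tb E D a b F c'.1, c'.2.map (lf tb E D a a E) ++ autG tb E a))
/-- keep the isomorphisms -/
def finish (q : Q) (c : Co) : Res := tr (p, q.1, c, strs q.1 q.2.1, strs q.2.2.1 q.2.2.2)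

/-- the vertices of one side -/
def sV (q : Q) (b : Bool) : List ℕ := bif b then q.2.2.1 else q.1
/-- the arcs of one side -/
def sE (q : Q) (b : Bool) : List (ℕ × ℕ) := bif b then q.2.2.2 else q.2.1

/-- the trace of `z` on `Z` over the pins `T` -/
def lab (q : Q) (b : Bool) (T Z : List ℕ) (z : ℕ) : Str :=
  Str.mk ((none, 2 * cls (p, q, b, z :: T)) :: Z.map fun y => (some y, cls (p, q, b, z :: y :: T)))
/-- the next layer -/
def nxt (q : Q) (b : Bool) (T : List ℕ) (κ : ℕ) (Z : List ℕ) : List ℕ :=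
  (sV q b).filter fun z => Z.contains z ||
    Nat.ble (κ * (fib (sV q b) (lab cls p q b T Z) z).length) (sV q b).length
/-- the layers -/
def lay (q : Q) (b : Bool) (T : List ℕ) (κ : ℕ) (i : ℕ) : List ℕ := (nxt cls p q b T κ)^[i] []
/-- the new points of the next layer -/
def new (q : Q) (b : Bool) (T : List ℕ) (κ : ℕ) (Z : List ℕ) : List ℕ :=
  (nxt cls p q b T κ Z).filter fun z => !Z.contains z
/-- the classes of the next layer -/
def pdL (q : Q) (b : Bool) (T : List ℕ) (κ : ℕ) (Z : List ℕ) : PD :=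
  parts (new cls p q b T κ Z) (lab cls p q b T Z)

/-- the component of `x` in the graph of the pairs of colour `c` -/
def blk (q : Q) (b : Bool) (c x : ℕ) : List ℕ :=
  comp (sV q b) (fun u v => cls (p, q, b, [u, v]) == c) x
/-- the first point of the component -/
def rep (q : Q) (b : Bool) (c x : ℕ) : ℕ := (blk cls p q b c x).headD x
/-- the vertices of the quotient -/
def reps (q : Q) (b : Bool) (c : ℕ) : List ℕ := (sV q b).filter fun x => rep cls p q b c x == x
/-- the arcs of the quotient -/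
def qE (q : Q) (b : Bool) (c : ℕ) : List (ℕ × ℕ) :=
  (prodL (reps cls p q b c) (reps cls p q b c)).filter fun e =>
    Nat.blt (arcs (sE q b) (blk cls p q b c e.2) (blk cls p q b c e.1))
      (arcs (sE q b) (blk cls p q b c e.1) (blk cls p q b c e.2))
/-- the components as classes -/
def pdI (q : Q) (b : Bool) (c : ℕ) : PD :=
  parts (sV q b) fun x => Str.mk [(some (rep cls p q b c x), 0)]
/-- the call for the quotients -/
def quo (q : Q) (c : ℕ) : Q :=
  (reps cls p q false c, qE cls p q false c, reps cls p q true c, qE cls p q true c)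

/-- all vertices have one colour -/
def hom (q : Q) : Bool :=
  q.1.all fun x => cls (p, q, false, [x]) == cls (p, q, false, [q.1.headD 0])
/-- a disconnected colour -/
def impC (q : Q) : Option ℕ :=
  ((prodL q.1 q.1).find? fun e => e.1 != e.2 &&
    Nat.blt (blk cls p q false (cls (p, q, false, [e.1, e.2])) e.1).length q.1.length).elim none
    fun e => some (cls (p, q, false, [e.1, e.2]))
/-- the candidates: pins and thresholds, best gain first -/
def cands (q : Q) : List (List ℕ × ℕ) :=
  (List.range p.2.length).reverse.flatMap fun K => (List.range p.2.tail.tail.length).flatMap fun t =>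
    (tuples p.1 q.1 (p.2.take (t + 1))).map fun T => (T, (K + 2) ^ T.length)
/-- pins whose three layers exhaust the vertices -/
def gainT (q : Q) : Option (List ℕ × ℕ) :=
  (cands p q).find? fun x => (lay cls p q false x.1 x.2 3).length == q.1.length
/-- a colour for the quotient, or pins with a threshold -/
def plan (q : Q) : Option ℕ × List ℕ × ℕ :=
  bif hom cls p q then (impC cls p q, (gainT cls p q).getD ([q.1.headD 0], 0)) else (none, [], 0)

/-- the calls for the layer number `i` -/
def callsL (q : Q) (T : List ℕ) (κ : ℕ) (T' : List ℕ) (i : ℕ) : List Q :=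
  tcalls q.2.1 q.2.2.2 (pdL cls p q false T κ (lay cls p q false T κ i))
    (pdL cls p q true T' κ (lay cls p q true T' κ i))
/-- the calls for the pins `T` -/
def callsP (q : Q) (T : List ℕ) (κ : ℕ) : List Q :=
  (tuples p.1 q.2.2.1 T).flatMap fun T' =>
    callsL cls p q T κ T' 0 ++ (callsL cls p q T κ T' 1 ++ callsL cls p q T κ T' 2)
/-- the calls for the colour `c` -/
def callsI (q : Q) (c : ℕ) : List Q :=
  quo cls p q c :: tcalls q.2.1 q.2.2.2 (pdI cls p q false c) (pdI cls p q true c)
/-- all calls -/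
def calls (q : Q) : List Q :=
  bif q.1.length == q.2.2.1.length && Nat.ble 2 q.1.length then
    (plan cls p q).1.elim (callsP cls p q (plan cls p q).2.1 (plan cls p q).2.2) (callsI cls p q)
  else []

/-- the lift for the layer number `i` -/
def stepL (tb : Tb) (q : Q) (T : List ℕ) (κ : ℕ) (T' : List ℕ) (i : ℕ) (c : Co) : Res :=
  lift tr p tb q.2.1 q.2.2.2 (lay cls p q false T κ i) (lay cls p q false T κ i) c
    (pdL cls p q false T κ (lay cls p q false T κ i))
    (pdL cls p q true T' κ (lay cls p q true T' κ i))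
/-- the isomorphisms that send `T` to `T'` -/
def pinOne (tb : Tb) (q : Q) (T : List ℕ) (κ : ℕ) (T' : List ℕ) : Res :=
  bindR (bindR (bindR (stepL tr cls p tb q T κ T' 0 (1, [])) (stepL tr cls p tb q T κ T' 1))
    (stepL tr cls p tb q T κ T' 2)) (finish tr p q)
/-- the answer with pins -/
def finP (tb : Tb) (q : Q) (T : List ℕ) (κ : ℕ) : Res :=
  (tuples p.1 q.2.2.1 T).foldl (fun r T' => uni q.1 r (pinOne tr cls p tb q T κ T')) (some none)
/-- the answer with a quotient -/
def finI (tb : Tb) (q : Q) (c : ℕ) : Res :=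
  bindR (bindR (some (look tb (quo cls p q c))) fun c₀ => lift tr p tb q.2.1 q.2.2.2
    (reps cls p q false c) [] c₀ (pdI cls p q false c) (pdI cls p q true c)) (finish tr p q)
/-- the table is complete -/
def full (q : Q) (tb : Tb) : Bool :=
  tb.all (fun e => e.2.isSome) && (calls cls p q).all fun t => tb.any fun e => e.1 == t
/-- the answer -/
def finM (q : Q) (tb : Tb) : Res :=
  bif q.1.length == q.2.2.1.length then
    bif Nat.ble 2 q.1.length then
      bif full cls p q tb then
        (plan cls p q).1.elim (finP tr cls p tb q (plan cls p q).2.1 (plan cls p q).2.2)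
          (finI tr cls p tb q)
      else none
    else finish tr p q (FP.ofList (q.1.zip q.2.2.1), [])
  else some none
end prog

/-- the main recursion -/
def mainR (tr : TRIn → Res) (cls : Par × Q × Bool × List ℕ → ℕ) : Rec Par Q Q Tb Res where
  todo := calls cls
  ini := fun _ _ => []
  call := fun _ _ t _ => t
  upd := fun _ _ t s r => bif s.any (fun e => e.1 == t) then s else (t, r) :: s
  fin := finM tr cls
  out := none

/-! ### predicates -/

/-- `a` is a partition of `N` into classes with different labels -/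
structure IsPD (N : List ℕ) (a : PD) : Prop where
  nodup : a.Nodup
  inj : ∀ x ∈ a, ∀ y ∈ a, x.1 = y.1 → x = y
  disj : ∀ x ∈ a, ∀ y ∈ a, ∀ z ∈ x.2, z ∈ y.2 → x = y
  cover : ∀ z, z ∈ N ↔ ∃ x ∈ a, z ∈ x.2
  nd : ∀ x ∈ a, x.2.Nodup
  ne : ∀ x ∈ a, x.2 ≠ []
  even : ∀ x ∈ a, ∀ e ∈ x.1.val, e.1 = none → Even e.2

/-- `r` consists of isomorphisms, and its group lives on the first digraph -/
structure PS (q : Q) (r : Option Co) : Prop where
  iso : ∀ g ∈ rset r, DIso g.app q.1 q.2.1 q.2.2.1 q.2.2.2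
  sup : ∀ c, r = some c → ∀ s ∈ c.2, Sup q.1 s
  len : ∀ c, r = some c → c.2.length ≤ q.1.length ^ 2

/-- `r` contains an extension of the restriction of `φ` to `A` -/
def Cov (A : List ℕ) (φ : ℕ → ℕ) (r : Option Co) : Prop :=
  ∃ g ∈ rset r, ∀ x ∈ A, g.app x = φ x

/-- `r` is the set of all isomorphisms -/
structure MS (q : Q) (r : Option Co) : Prop extends PS q r where
  cov : ∀ φ, DIso φ q.1 q.2.1 q.2.2.1 q.2.2.2 → Cov q.1 φ r

/-- `Z'` is the image of `Z` -/
def Cor (φ : ℕ → ℕ) (Z Z' : List ℕ) : Prop := ∀ y, y ∈ Z' ↔ ∃ x ∈ Z, φ x = y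

/-- `φ` maps the classes `a` isomorphically onto the classes `b`, as `g` does with the labels -/
structure Mat (φ : ℕ → ℕ) (g : U) (a : PD) (E : List (ℕ × ℕ)) (b : PD) (F : List (ℕ × ℕ)) :
    Prop where
  fwd : ∀ x ∈ a, ∃ y ∈ b, y.1 = g • x.1 ∧ DIso φ x.2 E y.2 F
  fro : ∀ y ∈ b, ∃ x ∈ a, y.1 = g • x.1

/-- `x` is a lift of `g` -/
structure Over (E : List (ℕ × ℕ)) (D : List ℕ) (a b : PD) (G : List (ℕ × ℕ)) (g x : U) :
    Prop where
  eq : ∀ d ∈ D, x.app d = g.app d
  fwd : ∀ u ∈ a, ∃ v ∈ b, v.1 = g • u.1 ∧ DIso x.app u.2 E v.2 G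

/-- small lists of vertices -/
def SmV (M : ℕ) (V : List ℕ) : Prop := V.length ≤ M ∧ ∀ x ∈ V, x < M
/-- small strings -/
def SmS (M : ℕ) (s : Str) : Prop :=
  s.val.card ≤ M + 2 ∧ ∀ e ∈ s.val, e.2 ≤ 4 * (M + 1) ^ M + 2 * M + 2 ∧ ∀ v, e.1 = some v → v < M
/-- small lists of strings -/
def SmL (M : ℕ) (X : List Str) : Prop := X.length ≤ (M + 1) ^ 2 ∧ ∀ s ∈ X, SmS M s
/-- small cosets -/
def SmC (M : ℕ) (c : Co) : Prop :=
  Sup (List.range M) c.1 ∧ (∀ s ∈ c.2, Sup (List.range M) s) ∧ c.2.length ≤ (M + 1) ^ 3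
/-- small partitions -/
def SmP (M : ℕ) (a : PD) : Prop :=
  a.length ≤ M ∧ ∀ x ∈ a, SmV M x.2 ∧ x.1.val.card ≤ M + 1 ∧
    ∀ e ∈ x.1.val, e.2 ≤ 4 * (M + 1) ^ M ∧ ∀ v, e.1 = some v → v < M
/-- small calls -/
structure SmQ (M : ℕ) (q : Q) : Prop where
  a : SmV M q.1
  b : SmV M q.2.2.1
  e : size q.2.1 ≤ (M + 2) ^ 4
  f : size q.2.2.2 ≤ (M + 2) ^ 4
/-- the transporter does not fail on small inputs -/
def HT (tr : TRIn → Res) (p : Par) (M : ℕ) : Prop :=
  ∀ V c X Y, TRPre p V c X → NoInv (gen c.2) → SmV M V → SmC M c → SmL M X → SmL M Y →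
    tr (p, V, c, X, Y) ≠ none

/-- valid calls -/
structure OQ (p : Par) (M : ℕ) (q : Q) : Prop where
  pre : MPre p q
  sm : SmQ M q
  lev : p.2.length ≤ M
/-- valid answers -/
def OA (M : ℕ) (q : Q) (r : Option Co) : Prop :=
  MS q r ∧ ∀ c, r = some c → Sup (List.range M) c.1
/-- the table answers the calls `L` -/
def TbOK (M : ℕ) (tb : Tb) (L : List Q) : Prop := ∀ t ∈ L, OA M t (look tb t)
/-- valid tables -/
def OS (cls : Par × Q × Bool × List ℕ → ℕ) (p : Par) (M : ℕ) (q : Q) (tb : Tb) : Prop :=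
  (tb.map Prod.fst).Nodup ∧ ∀ e ∈ tb, e.1 ∈ calls cls p q ∧ ∀ o, e.2 = some o → OA M e.1 o

/-- the hypotheses of the lift -/
structure LC (p : Par) (M : ℕ) (tb : Tb) (E F : List (ℕ × ℕ)) (V D : List ℕ) (c : Co)
    (N N' : List ℕ) (a b : PD) : Prop where
  pa : IsPD N a
  pb : IsPD N' b
  tour : ∀ x ∈ a, Tour x.2 E
  dis : ∀ x ∈ D, x ∉ N
  sup : ∀ s ∈ c.2, Sup V s
  keep : ∀ s ∈ gen c.2, ∀ x ∈ D, s.app x ∈ D
  ni : NoInv (gen c.2)
  pos : ∀ x ∈ a, ∀ e ∈ x.1.val, ∀ v, e.1 = some v → v ∈ V
  big : (V.length + a.length + 2) ^ 4 ≤ p.1.length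
  tb : TbOK M tb (tcalls E F a b)
  sv : SmV M V
  sd : SmV M D
  sc : SmC M c
  sa : SmP M a
  sb : SmP M b

/-- the bound for the number of calls -/
def gam (K W G n0 s : ℕ) : ℕ := W ^ Nat.log K s * G ^ min s n0

end

end Pool.Agent.P.MP_f1a348_lc.TO
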