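import Pool.Agent.P.MP_f1a348_lc.TO.MDefs

/-! Tournament isomorphism, block D3: the steps. -/

set_option autoImplicit false
set_option linter.unusedSectionVars false

namespace Pool.Agent.P.MP_f1a348_lc.TO

open Pool.Agent.Lib.Helper47 Pool.Agent.P.MP_f1a348_lc.GI

/-- the type of the colouring of tuples -/
abbrev Cls : Type := Par × Q × Bool × List ℕ → ℕ

-- deps:
-- imports: Pool.Agent.P.MP_f1a348_lc.TO.Rec
def S_EREC : Prop := REC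

-- deps:
def S_MRECOK : Prop :=
  ∀ (C Q T S A : Type) (R : Rec C Q T S A) (c : C) (oq : Q → Prop) (os : Q → S → Prop)
    (oa : Q → A → Prop), (∀ q, oq q → os q (R.ini c q)) →
    (∀ q t s, oq q → t ∈ R.todo c q → os q s → oq (R.call c q t s)) →
    (∀ q t s r, oq q → t ∈ R.todo c q → os q s → oa (R.call c q t s) r → os q (R.upd c q t s r)) →
    (∀ q s, oq q → os q s → oa q (R.fin c q s)) → (∀ q, oq q → oa q R.out) →
    ∀ d q, oq q → oa q (R.ev c d q)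

-- deps:
def S_MPARTS : Prop :=
  ∀ (N : List ℕ) (f : ℕ → Str), N.Nodup → (∀ z ∈ N, ∀ e ∈ (f z).val, e.1 = none → Even e.2) →
    IsPD N (parts N f) ∧ (parts N f).length ≤ N.length ∧
      ∀ x, x ∈ parts N f ↔ ∃ z ∈ N, x = (f z, fib N f z)

-- deps:
def S_MCOMP : Prop :=
  ∀ (V : List ℕ) (r : ℕ → ℕ → Bool) (x : ℕ), V.Nodup → ∃ P : ℕ → Bool, comp V r x = V.filter P ∧
    ∀ y ∈ V, P y = true ↔ x ∈ V ∧
      Relation.ReflTransGen (fun a b => b ∈ V ∧ (r a b = true ∨ r b a = true)) x y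

-- deps:
def S_MAUT : Prop :=
  (∀ (A : List ℕ) (E : List (ℕ × ℕ)) (g : U), Tour A E → DIso g.app A E A E →
    (∀ x ∈ A, g.app (g.app x) = x) → ∀ x ∈ A, g.app x = x) ∧
  (∀ (V : List ℕ) (S : List U), (∀ s ∈ S, Sup V s) → ∀ g ∈ gen S, Sup V g) ∧
  (∀ (V : List ℕ) (g : U), Sup V g → ∀ x, g.app x ∈ V ↔ x ∈ V) ∧
  (∀ (H : Subgroup U), NoInv H → ∀ h ∈ H, ∃ r : ℕ, h = (h * h) ^ r) ∧
  (∀ φ ψ A E B F C G, DIso φ A E B F → DIso ψ B F C G → DIso (fun x => ψ (φ x)) A E C G) ∧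
  (∀ (g : U) A E B F, DIso g.app A E B F → DIso g⁻¹.app B F A E) ∧
  (∀ φ ψ A E B F, DIso φ A E B F → (∀ x ∈ A, ψ x = φ x) → DIso ψ A E B F) ∧
  (∀ φ A E B F, DIso φ A E B F → ∃ g : U, ∀ x ∈ A, g.app x = φ x) ∧
  (∀ φ A E B F, A.Nodup → B.Nodup → DIso φ A E B F → A.length = B.length) ∧
  ∀ (q : Q) (c : Co), PS q (some c) → (Tour q.1 q.2.1 → NoInv (gen c.2)) ∧
    ∀ h ∈ gen c.2, DIso h.app q.1 q.2.1 q.1 q.2.1

-- deps: MAUT
-- imports: Pool.Agent.P.MP_f1a348_lc.GI.Sims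
def S_MUNI : Prop :=
  ∀ (M : ℕ) (q : Q) (o o' : Option Co), PS q o → PS q o' →
    (∀ c, o = some c → Sup (List.range M) c.1) → (∀ c, o' = some c → Sup (List.range M) c.1) →
    ∃ u, uni q.1 (some o) (some o') = some u ∧ PS q u ∧ (∀ c, u = some c → Sup (List.range M) c.1) ∧
      ∀ φ, Cov q.1 φ o ∨ Cov q.1 φ o' → Cov q.1 φ u

-- deps: MAUT
def S_MFIN : Prop :=
  ∀ tr, TRSpec tr → ∀ p M q c, OQ p M q → (∀ s ∈ c.2, Sup q.1 s) → SmC M c →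
    (∀ r, finish tr p q c = some r → PS q r ∧ (∀ c', r = some c' → Sup (List.range M) c'.1) ∧
      ∀ φ, DIso φ q.1 q.2.1 q.2.2.1 q.2.2.2 → Cov q.1 φ (some c) → Cov q.1 φ r) ∧
    (HT tr p M → NoInv (gen c.2) → finish tr p q c ≠ none)

-- deps: MAUT
def S_MTYP : Prop :=
  ∀ M tb E (a : PD) (x : Str × List ℕ) (C : List ℕ) G, x ∈ a →
    (∀ y ∈ a, OA M (y.2, E, x.2, E) (look tb (y.2, E, x.2, E))) →
    (∀ y ∈ a, OA M (y.2, E, C, G) (look tb (y.2, E, C, G))) →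
    (typ tb E a x.2 E = typ tb E a C G ↔ ∃ φ, DIso φ x.2 E C G)

-- deps: MAUT
def S_MLF : Prop :=
  ∀ M tb E (D N N' : List ℕ) (a b : PD) G (g : U), IsPD N a → IsPD N' b → (∀ x ∈ D, x ∉ N) →
    (∀ x ∈ D, g.app x ∉ N') → (∀ x ∈ a, ∀ y ∈ b, OA M (x.2, E, y.2, G) (look tb (x.2, E, y.2, G))) →
    (∀ x ∈ a, ∃ y ∈ b, y.1 = g • x.1 ∧ ∃ φ, DIso φ x.2 E y.2 G) →
    Over E D a b G g (lf tb E D a b G g) ∧
      ∀ v, v ∉ D → v ∉ N → v ∉ N' → (∀ d ∈ D, g.app d ≠ v) → (lf tb E D a b G g).app v = v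

-- deps: MAUT
def S_MOVG : Prop :=
  ∀ E (D N : List ℕ) (a : PD) (H : Subgroup U) (S : List U), IsPD N a → (∀ x ∈ a, Tour x.2 E) →
    NoInv H → (∀ h ∈ H, ∀ x ∈ D, h.app x ∈ D) →
    (∀ s ∈ S, Sup (D ++ N) s ∧ ∃ h ∈ H, Over E D a a E h s) →
    NoInv (gen S) ∧ ∀ s ∈ gen S, ∃ h ∈ H, Over E D a a E h s

-- deps: MAUT
def S_MKER : Prop :=
  ∀ M tb E (D N : List ℕ) (a : PD), IsPD N a → (∀ x ∈ D, x ∉ N) →
    (∀ x ∈ a, OA M (x.2, E, x.2, E) (look tb (x.2, E, x.2, E))) →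
    (∀ s ∈ autG tb E a, Sup N s ∧ Over E D a a E 1 s) ∧
      ∀ u : U, Sup (D ++ N) u → Over E D a a E 1 u → u ∈ gen (autG tb E a)

-- deps: MAUT
def S_MCOV : Prop :=
  ∀ E F (D N N' : List ℕ) (a b : PD) (S' S : List U) (τ τ' g : U) (φ : ℕ → ℕ), IsPD N a →
    IsPD N' b → (∀ x ∈ D, x ∉ N) → (∀ h ∈ gen S', ∀ x ∈ D, h.app x ∈ D) →
    (∀ s ∈ S, Sup (D ++ N) s) → (∀ s ∈ S', ∃ u ∈ S, Over E D a a E s u) →
    (∀ u : U, Sup (D ++ N) u → Over E D a a E 1 u → u ∈ gen S) → Over E D a b F τ τ' →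
    (∀ y ∈ b, ∃ x ∈ a, y.1 = τ • x.1) → τ⁻¹ * g ∈ gen S' → (∀ x ∈ D, g.app x = φ x) →
    Set.InjOn φ {x | x ∈ D ++ N} → Mat φ g a E b F → Cov (D ++ N) φ (some (τ', S))

-- deps: MAUT MTYP MLF MOVG MKER MCOV
def S_MLIFT : Prop :=
  ∀ tr, TRSpec tr → ∀ p M tb E F V D c N N' a b, LC p M tb E F V D c N N' a b →
    (∀ r, lift tr p tb E F V D c a b = some r →
      (∀ c', r = some c' → (∀ s ∈ c'.2, Sup (D ++ N) s) ∧ NoInv (gen c'.2) ∧ SmC M c') ∧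
      ∀ φ g, g ∈ cset c → (∀ x ∈ D, g.app x = φ x) → Set.InjOn φ {x | x ∈ D ++ N} →
        Mat φ g a E b F → Cov (D ++ N) φ r) ∧
    (HT tr p M → lift tr p tb E F V D c a b ≠ none)

-- deps: MAUT MPARTS
def S_MLAB : Prop :=
  ∀ cls, WLSpec cls → ∀ p A E B F φ (T Z Z' : List ℕ) (κ : ℕ), WLPre p A B → DIso φ A E B F →
    (∀ x ∈ T, x ∈ A) → T.length + 2 ≤ p.2.length → (∀ x ∈ Z, x ∈ A) → Cor φ Z Z' →
    Cor φ (nxt cls p (A, E, B, F) false T κ Z) (nxt cls p (A, E, B, F) true (T.map φ) κ Z') ∧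
      ∀ g : U, (∀ x ∈ Z, g.app x = φ x) → Mat φ g (pdL cls p (A, E, B, F) false T κ Z) E
        (pdL cls p (A, E, B, F) true (T.map φ) κ Z') F

-- deps: MPARTS
def S_MPDL : Prop :=
  ∀ cls, WLSpec cls → ∀ p M q b (T : List ℕ) (κ i : ℕ), OQ p M q → q.1.length = q.2.2.1.length →
    IsPD (new cls p q b T κ (lay cls p q b T κ i)) (pdL cls p q b T κ (lay cls p q b T κ i)) ∧
    SmP M (pdL cls p q b T κ (lay cls p q b T κ i)) ∧
    (pdL cls p q b T κ (lay cls p q b T κ i)).length ≤ q.1.length ∧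
    (lay cls p q b T κ i).Sublist (sV q b) ∧
    (new cls p q b T κ (lay cls p q b T κ i)).Sublist (sV q b) ∧
    (∀ x, x ∈ lay cls p q b T κ (i + 1) ↔
      x ∈ lay cls p q b T κ i ++ new cls p q b T κ (lay cls p q b T κ i)) ∧
    (∀ x ∈ lay cls p q b T κ i, x ∉ new cls p q b T κ (lay cls p q b T κ i)) ∧
    (∀ x ∈ pdL cls p q b T κ (lay cls p q b T κ i), x.2.Sublist (sV q b) ∧
      κ * x.2.length ≤ (sV q b).length ∧
      ∀ e ∈ x.1.val, ∀ v, e.1 = some v → v ∈ lay cls p q b T κ i)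

-- deps: MPARTS MCOMP
def S_MPDI : Prop :=
  ∀ cls p M q b (c : ℕ), OQ p M q →
    IsPD (sV q b) (pdI cls p q b c) ∧ SmP M (pdI cls p q b c) ∧
    (pdI cls p q b c).length ≤ (sV q b).length ∧ (reps cls p q b c).Sublist (sV q b) ∧
    size (qE cls p q b c) ≤ (M + 2) ^ 4 ∧
    (∀ x ∈ sV q b, rep cls p q b c x ∈ reps cls p q b c ∧ x ∈ blk cls p q b c x ∧
      (blk cls p q b c x).Sublist (sV q b) ∧
      ∀ y ∈ sV q b, (y ∈ blk cls p q b c x ↔ rep cls p q b c y = rep cls p q b c x) ∧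
        (y ∈ blk cls p q b c x → blk cls p q b c y = blk cls p q b c x)) ∧
    ∀ x, x ∈ pdI cls p q b c ↔
      ∃ r ∈ reps cls p q b c, x = (Str.mk [(some r, 0)], blk cls p q b c r)

-- deps: MAUT MCOMP MPDI
def S_MQUO : Prop :=
  ∀ cls, WLSpec cls → ∀ p M q φ (c : ℕ), OQ p M q → DIso φ q.1 q.2.1 q.2.2.1 q.2.2.2 →
    ∃ ψ, DIso ψ (reps cls p q false c) (qE cls p q false c) (reps cls p q true c)
      (qE cls p q true c) ∧ ∀ g : U, (∀ x ∈ reps cls p q false c, g.app x = ψ x) →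
      Mat φ g (pdI cls p q false c) q.2.1 (pdI cls p q true c) q.2.2.2

-- deps: MCOMP MPDI
def S_MBLK : Prop :=
  ∀ cls, WLSpec cls → ∀ p M q (c : ℕ), OQ p M q → q.1.length = q.2.2.1.length →
    hom cls p q = true → ∃ s, (∀ x ∈ q.1, (blk cls p q false c x).length = s) ∧
      (q.1 ≠ [] → Odd s)

-- deps: MCOMP MPDI MBLK
def S_MIMP : Prop :=
  ∀ cls, WLSpec cls → ∀ p M q (c : ℕ), OQ p M q → q.1.length = q.2.2.1.length →
    (plan cls p q).1 = some c → hom cls p q = true ∧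
      Tour (reps cls p q false c) (qE cls p q false c) ∧ reps cls p q false c ≠ [] ∧
      2 * (reps cls p q false c).length ≤ q.1.length ∧
      ∀ x ∈ pdI cls p q false c, 2 * x.2.length ≤ q.1.length

-- deps: MPARTS MPDL
def S_MPLAN : Prop :=
  ∀ cls, WLSpec cls → ∀ p M q T κ, OQ p M q → q.1.length = q.2.2.1.length → 2 ≤ q.1.length →
    plan cls p q = (none, T, κ) → (∀ x ∈ T, x ∈ q.1) ∧ T.length + 2 ≤ p.2.length ∧
      T.length ≤ q.1.length ∧ κ ≤ q.1.length ∧ (∀ x ∈ q.1, x ∈ lay cls p q false T κ 3) ∧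
      (∀ i, ∀ x ∈ pdL cls p q false T κ (lay cls p q false T κ i), x.2.length < q.1.length) ∧
      (hom cls p q = false → T = [] ∧ pdL cls p q false T κ (lay cls p q false T κ 1) = [] ∧
        pdL cls p q false T κ (lay cls p q false T κ 2) = [] ∧
        ∀ x ∈ pdL cls p q false T κ (lay cls p q false T κ 0), ∀ B' F', B'.Nodup →
          x.2.length = B'.length → hom cls p (x.2, q.2.1, B', F') = true)

-- deps: MCOMP
def S_MGAIN : Prop :=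
  GAIN → ∀ K : ℕ, 2 ≤ K → ∃ j0 n0 : ℕ, ∀ cls, WLSpec cls → ∀ p M q T κ, OQ p M q →
    q.1.length = q.2.2.1.length → j0 ≤ p.2.length → n0 ≤ q.1.length → hom cls p q = true →
    plan cls p q = (none, T, κ) → 1 ≤ T.length ∧ K ^ T.length ≤ κ

-- deps: MPDL MPDI MIMP MPLAN
def S_MCALL : Prop :=
  ∀ cls, WLSpec cls → ∀ p M q, OQ p M q → (∀ t ∈ calls cls p q, OQ p M t ∧ t.1 ≠ [] ∧
    t.1.length < q.1.length) ∧ (calls cls p q).length ≤ (M + 2) ^ (p.2.length + 4)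

-- deps: MAUT MLIFT MFIN MLAB MPDL
def S_MPIN : Prop :=
  ∀ tr cls, TRSpec tr → WLSpec cls → ∀ p M q tb (T T' : List ℕ) (κ : ℕ), OQ p M q →
    q.1.length = q.2.2.1.length → (∀ x ∈ T, x ∈ q.1) → T.length + 2 ≤ p.2.length →
    (∀ x ∈ q.1, x ∈ lay cls p q false T κ 3) → (∀ i < 3, TbOK M tb (callsL cls p q T κ T' i)) →
    (∀ r, pinOne tr cls p tb q T κ T' = some r → PS q r ∧
      (∀ c, r = some c → Sup (List.range M) c.1) ∧
      ∀ φ, DIso φ q.1 q.2.1 q.2.2.1 q.2.2.2 → T' = T.map φ → Cov q.1 φ r) ∧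
    (HT tr p M → pinOne tr cls p tb q T κ T' ≠ none)

-- deps: MAUT MUNI MPIN MPLAN
def S_MFP : Prop :=
  ∀ tr cls, TRSpec tr → WLSpec cls → ∀ p M q tb T κ, OQ p M q → q.1.length = q.2.2.1.length →
    2 ≤ q.1.length → plan cls p q = (none, T, κ) → TbOK M tb (callsP cls p q T κ) →
    (∀ r, finP tr cls p tb q T κ = some r → OA M q r) ∧ (HT tr p M → finP tr cls p tb q T κ ≠ none)

-- deps: MAUT MLIFT MFIN MPDI MQUO MIMP
def S_MFI : Prop :=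
  ∀ tr cls, TRSpec tr → WLSpec cls → ∀ p M q tb c, OQ p M q → q.1.length = q.2.2.1.length →
    (plan cls p q).1 = some c → TbOK M tb (callsI cls p q c) →
    (∀ r, finI tr cls p tb q c = some r → OA M q r) ∧ (HT tr p M → finI tr cls p tb q c ≠ none)

-- deps: MAUT MFIN MFP MFI
def S_MNODE : Prop :=
  ∀ tr cls, TRSpec tr → WLSpec cls → ∀ p M q tb, OQ p M q → OS cls p M q tb →
    (∀ r, finM tr cls p q tb = some r → OA M q r) ∧
      (HT tr p M → full cls p q tb = true → finM tr cls p q tb ≠ none)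

-- deps:
def S_MSIZE : Prop :=
  ∃ d : ℕ, ∀ M : ℕ, (∀ V c X Y, SmV M V → SmC M c → SmL M X → SmL M Y →
      size ((V, c, X, Y) : List ℕ × Co × List Str × List Str) ≤ (M + 2) ^ d) ∧
    (∀ q, SmQ M q → size q ≤ (M + 2) ^ d) ∧
    ∀ (q : Q) (r : Res), SmQ M q → (∀ o, r = some o → OA M q o) → size r ≤ (M + 2) ^ d

-- deps: MCALL MNODE MSIZE
def S_MINV : Prop :=
  ∃ d : ℕ, ∀ tr cls, TRSpec tr → WLSpec cls → ∀ p M,
    (mainR tr cls).Inv p ((M + 2) ^ (p.2.length + d)) (OQ p M) (OS cls p M)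
      (fun q r => ∀ o, r = some o → OA M q o)

-- deps: MRECOK MCALL MNODE MINV
def S_MHALT : Prop :=
  ∀ tr cls, TRSpec tr → WLSpec cls → ∀ p M, HT tr p M → ∀ d q, OQ p M q → q.1.length < d →
    (mainR tr cls).ev p d q ≠ none

-- deps:
def S_MTC : Prop :=
  ∀ (E F : List (ℕ × ℕ)) (N N' : List ℕ) (a b : PD) (n w : ℕ) (f : Q → ℕ), IsPD N a → IsPD N' b →
    N.Nodup → N'.Nodup → N.length ≤ n → N'.length ≤ n →
    (∀ t ∈ tcalls E F a b, t.1.length ≠ t.2.2.1.length → f t ≤ 1) →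
    (∀ t ∈ tcalls E F a b, t.1.length = t.2.2.1.length → f t ≤ t.1.length ^ 7 * w) →
    ∀ s, (∀ x ∈ a, x.2.length ≤ s) →
      ((tcalls E F a b).map f).sum ≤ 2 * n ^ 2 + 2 * n ^ 2 * s ^ 5 * w

-- deps:
def S_MARI : Prop :=
  ∀ K M n0 : ℕ, 2 ≤ K → ∀ n, 2 ≤ n → n ≤ M →
    let Γ := gam K (400 * (M + 1) ^ 3) (400 * (n0 + 1) ^ (n0 + 2)) n0
    Monotone Γ ∧ (∀ s, 1 ≤ Γ s) ∧
    (1 + (2 * n ^ 2 + 2 * n ^ 2 * n ^ 5 * (16 * Γ n)) ≤ 64 * n ^ 7 * Γ n) ∧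
    (∀ r s, 2 * r ≤ n → 2 * s ≤ n →
      1 + (64 * r ^ 7 * Γ r + (2 * n ^ 2 + 2 * n ^ 2 * s ^ 5 * (64 * Γ s))) ≤ 16 * n ^ 7 * Γ n) ∧
    (∀ t s, (1 ≤ t ∧ K ^ t ≤ n ∧ K ^ t * s ≤ n) ∨ (n < n0 ∧ t ≤ n ∧ s < n) →
      1 + n ^ t * (3 * (2 * n ^ 2 + 2 * n ^ 2 * s ^ 5 * (64 * Γ s))) ≤ 16 * n ^ 7 * Γ n)

-- deps: MPDL MPDI MIMP MPLAN MGAIN MCALL MTC MARI
def S_MCNT : Prop :=
  GAIN → ∀ K : ℕ, 2 ≤ K → ∃ j0 n0 : ℕ, ∀ tr cls, WLSpec cls → ∀ p M, j0 ≤ p.2.length →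
    ∀ d q, OQ p M q → (mainR tr cls).cnt p d q ≤ 64 * (q.1.length + 1) ^ 7 *
      gam K (400 * (M + 1) ^ 3) (400 * (n0 + 1) ^ (n0 + 2)) n0 q.1.length

-- deps:
def S_MPT : Prop := ∀ (tr : TRIn → Res) (cls : Cls), PT tr → PT cls → (mainR tr cls).Poly

-- deps: MRECOK MSIZE MINV MHALT MCNT MPT
def S_MAINX : Prop := MAINX

end Pool.Agent.P.MP_f1a348_lc.TO
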