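import Pool.Agent.Lib.Helper47.PTMore

/-!
Recursive procedures with adaptive calls, run by a stack machine with a unary budget.
-/

namespace Pool.Agent.P.MP_f1a348_lc.TO

open Pool.Agent.Lib.Helper47

/-- a recursive procedure on frames `S` with results `R` -/
structure RP (S R : Type) where
  /-- the frame of the next call, or `none` if the frame is finished -/
  ask : S → Option S
  /-- absorb the result of a call -/
  upd : S → R → S
  /-- the result of a finished frame -/
  out : S → R

namespace RP
variable {S R : Type} (P : RP S R)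

/-- the frame `s` returns `r` after `n` visits, all frames satisfying `ok` -/
inductive Ev (ok : S → Prop) : S → R → ℕ → Prop
  | done {s : S} : ok s → P.ask s = none → Ev ok s (P.out s) 1
  | call {s a : S} {r r' : R} {m n : ℕ} : ok s → P.ask s = some a → Ev ok a r m →
      Ev ok (P.upd s r) r' n → Ev ok s r' (m + n + 1)

variable {P}

theorem Ev.mono {ok ok' : S → Prop} (h : ∀ s, ok s → ok' s) {s : S} {r : R} {n : ℕ}
    (e : P.Ev ok s r n) : P.Ev ok' s r n := by
  induction e with
  | done h1 h2 => exact .done (h _ h1) h2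
  | call h1 h2 _ _ i1 i2 => exact .call (h _ h1) h2 i1 i2

theorem Ev.pos {ok : S → Prop} {s : S} {r : R} {n : ℕ} (e : P.Ev ok s r n) : 0 < n := by
  cases e <;> omega

theorem Ev.ok {ok : S → Prop} {s : S} {r : R} {n : ℕ} (e : P.Ev ok s r n) : ok s := by
  cases e <;> assumption

theorem Ev.det {ok ok' : S → Prop} {s : S} {r r' : R} {n n' : ℕ} (e : P.Ev ok s r n)
    (e' : P.Ev ok' s r' n') : r = r' ∧ n = n' := by
  induction e generalizing r' n' with
  | done h1 h2 =>
    cases e' with
    | done _ _ => exact ⟨rfl, rfl⟩
    | call _ h3 _ _ => rw [h2] at h3; cases h3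
  | call h1 h2 _ _ i1 i2 =>
    cases e' with
    | done _ h3 => rw [h2] at h3; cases h3
    | call _ h3 f1 f2 =>
      rw [h2] at h3
      cases h3
      obtain ⟨rfl, rfl⟩ := i1 f1
      obtain ⟨rfl, rfl⟩ := i2 f2
      exact ⟨rfl, rfl⟩

/-- soundness rule -/
theorem Ev.sound {ok : S → Prop} (Pre : S → Prop) (Post : S → R → Prop)
    (h1 : ∀ s, Pre s → P.ask s = none → Post s (P.out s))
    (h2 : ∀ s a, Pre s → P.ask s = some a → ok a → Pre a ∧ ∀ r, Post a r → Pre (P.upd s r) ∧
      ∀ r', Post (P.upd s r) r' → Post s r')
    {s : S} {r : R} {n : ℕ} (e : P.Ev ok s r n) : Pre s → Post s r := by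
  induction e with
  | done _ h => exact fun hp => h1 _ hp h
  | call _ h e1 _ i1 i2 =>
    intro hp
    obtain ⟨a1, a2⟩ := h2 _ _ hp h e1.ok
    obtain ⟨a3, a4⟩ := a2 _ (i1 a1)
    exact a4 _ (i2 a3)

/-- total correctness rule with a cost bound -/
theorem ev_of {ok : S → Prop} (Pre : S → Prop) (Post : S → R → Prop) (T : S → ℕ)
    (h0 : ∀ s, Pre s → ok s)
    (h1 : ∀ s, Pre s → P.ask s = none → Post s (P.out s) ∧ 0 < T s)
    (h2 : ∀ s a, Pre s → P.ask s = some a → Pre a ∧ T a < T s ∧ ∀ r, Post a r →
      Pre (P.upd s r) ∧ T a + T (P.upd s r) < T s ∧ ∀ r', Post (P.upd s r) r' → Post s r')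
    (s : S) (hs : Pre s) : ∃ r n, P.Ev ok s r n ∧ n ≤ T s ∧ Post s r := by
  induction hT : T s using Nat.strong_induction_on generalizing s with
  | _ t ih =>
    subst hT
    cases h : P.ask s with
    | none => exact ⟨_, _, .done (h0 s hs) h, (h1 s hs h).2, (h1 s hs h).1⟩
    | some a =>
      obtain ⟨a1, a2, a3⟩ := h2 s a hs h
      obtain ⟨r, m, b1, b2, b3⟩ := ih _ a2 a a1 rfl
      obtain ⟨a4, a5, a6⟩ := a3 r b3
      obtain ⟨r', n, c1, c2, c3⟩ := ih _ (by omega) _ a4 rfl
      exact ⟨r', _, .call (h0 s hs) h b1 c1, by omega, a6 r' c3⟩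

variable (P)

/-- push a frame if it passes the guard; a failure empties the stack -/
def push (g : S → Bool) (s : S) (L : List S) : List S × Option R :=
  bif g s then (s :: L, none) else ([], none)

/-- one step of the stack machine -/
def step (g : S → Bool) (c : List S × Option R) : List S × Option R :=
  c.1.head?.elim c (fun s => c.2.elim
    ((P.ask s).elim (c.1.tail, some (P.out s)) (fun a => push g a c.1))
    (fun r => push g (P.upd s r) c.1.tail))

variable {P}

theorem step_nil (g : S → Bool) (o : Option R) : P.step g ([], o) = ([], o) := rfl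

theorem iter_nil (g : S → Bool) (o : Option R) (n : ℕ) : (P.step g)^[n] ([], o) = ([], o) :=
  Function.iterate_fixed (step_nil g o) n

theorem step_done {g : S → Bool} {s : S} (L : List S) (h : P.ask s = none) :
    P.step g (s :: L, none) = (L, some (P.out s)) := by simp [step, h]

theorem step_call {g : S → Bool} {s a : S} (L : List S) (h : P.ask s = some a) :
    P.step g (s :: L, none) = push g a (s :: L) := by simp [step, h]

theorem step_ret {g : S → Bool} (s : S) (L : List S) (r : R) :
    P.step g (s :: L, some r) = push g (P.upd s r) L := by simp [step]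

theorem Ev.steps {g : S → Bool} {s : S} {r : R} {n : ℕ} (e : P.Ev (fun s => g s = true) s r n) :
    ∀ L, ∃ N, N < 2 * n ∧ (P.step g)^[N] (s :: L, none) = (L, some r) := by
  induction e with
  | done _ h => exact fun L => ⟨1, by omega, step_done L h⟩
  | @call s a r r' m n _ h e1 e2 i1 i2 =>
    intro L
    obtain ⟨N1, a1, a2⟩ := i1 (s :: L)
    obtain ⟨N2, b1, b2⟩ := i2 L
    refine ⟨N2 + 1 + N1 + 1, by omega, ?_⟩
    rw [Function.iterate_succ_apply, step_call L h, push, e1.ok, cond_true,
      Function.iterate_add_apply, a2, Function.iterate_succ_apply, step_ret, push, e2.ok,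
      cond_true, b2]

/-- the meaning of a configuration -/
def Den (P : RP S R) (g : S → Bool) : List S → Option R → R → Prop
  | [], o, r => o = some r
  | s :: L, o, r => ∃ r₁ n, P.Ev (fun s => g s = true) (o.elim s (P.upd s)) r₁ n ∧
      Den P g L (some r₁) r

theorem den_push {g : S → Bool} {s : S} {L : List S} {r : R}
    (h : Den P g (push (R := R) g s L).1 (push (R := R) g s L).2 r) :
    Den P g (s :: L) none r := by
  unfold push at h
  cases e : g s
  · rw [e] at h; cases h
  · rw [e] at h; exact h

theorem den_step {g : S → Bool} {c : List S × Option R} {r : R} (h0 : ∀ s ∈ c.1, g s = true)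
    (h : Den P g (P.step g c).1 (P.step g c).2 r) : Den P g c.1 c.2 r := by
  obtain ⟨_ | ⟨s, L⟩, o⟩ := c
  · exact h
  · cases o with
    | none =>
      cases e : P.ask s with
      | none =>
        rw [step_done L e] at h
        exact ⟨_, _, .done (h0 s List.mem_cons_self) e, h⟩
      | some a =>
        rw [step_call L e] at h
        obtain ⟨r₁, m, a1, r₂, n, a2, a3⟩ := den_push h
        exact ⟨r₂, _, .call (h0 s List.mem_cons_self) e a1 a2, a3⟩
    | some r₀ =>
      rw [step_ret] at h
      exact den_push h

theorem step_ok {g : S → Bool} {c : List S × Option R} (h0 : ∀ s ∈ c.1, g s = true) :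
    ∀ s ∈ (P.step g c).1, g s = true := by
  have hp : ∀ (y : S) (L : List S), (∀ s ∈ L, g s = true) →
      ∀ s ∈ (push (R := R) g y L).1, g s = true := fun y L h => by
    unfold push
    cases e : g y
    · simp
    · exact List.forall_mem_cons.2 ⟨e, h⟩
  obtain ⟨_ | ⟨s, L⟩, o⟩ := c
  · exact h0
  · cases o with
    | none =>
      cases e : P.ask s with
      | none => rw [step_done L e]; exact (List.forall_mem_cons.1 h0).2
      | some a => rw [step_call L e]; exact hp _ _ h0
    | some r₀ => rw [step_ret]; exact hp _ _ (List.forall_mem_cons.1 h0).2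

theorem den_iter {g : S → Bool} (n : ℕ) {c : List S × Option R} {r : R}
    (h0 : ∀ s ∈ c.1, g s = true)
    (h : Den P g ((P.step g)^[n] c).1 ((P.step g)^[n] c).2 r) : Den P g c.1 c.2 r := by
  induction n generalizing c with
  | zero => exact h
  | succ n ih => exact den_step h0 (ih (step_ok h0) h)

variable (P)

/-- run the machine for `2 * pad.length` steps with guard `g` -/
def runG (g : S → Bool) (pad : List Unit) (s : S) : Option R :=
  bif g s && ((P.step g)^[(pad ++ pad).length] ([s], none)).1.isEmpty then
    ((P.step g)^[(pad ++ pad).length] ([s], none)).2 else none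

variable {P}

theorem runG_sound {g : S → Bool} {pad : List Unit} {s : S} {r : R}
    (h : P.runG g pad s = some r) : ∃ n, P.Ev (fun s => g s = true) s r n := by
  unfold runG at h
  cases e0 : g s
  · rw [e0] at h; cases h
  rw [e0] at h
  generalize e : (P.step g)^[(pad ++ pad).length] ([s], none) = c at h
  obtain ⟨_ | ⟨x, L⟩, o⟩ := c
  · have : Den P g ((P.step g)^[(pad ++ pad).length] ([s], none)).1
        ((P.step g)^[(pad ++ pad).length] ([s], none)).2 r := by rw [e]; exact h
    obtain ⟨r₁, n, a1, a2⟩ := den_iter _ (by simpa using e0) this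
    cases a2
    exact ⟨n, a1⟩
  · cases h

theorem runG_complete {g : S → Bool} {pad : List Unit} {s : S} {r : R} {n : ℕ}
    (e : P.Ev (fun s => g s = true) s r n) (hn : n ≤ pad.length) : P.runG g pad s = some r := by
  obtain ⟨N, a1, a2⟩ := e.steps []
  obtain ⟨k, hk⟩ : ∃ k, (pad ++ pad).length = k + N :=
    ⟨(pad ++ pad).length - N, by rw [List.length_append]; omega⟩
  rw [runG, hk, Function.iterate_add_apply, a2, iter_nil, e.ok]
  rfl

section time
variable [Enc S]

variable (P) in
/-- run the machine; every frame must have size at most `pad.length` -/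
def run (pad : List Unit) (s : S) : Option R :=
  P.runG (fun x => Nat.ble (size x) pad.length) pad s

theorem run_sound {pad : List Unit} {s : S} {r : R} (h : P.run pad s = some r) :
    ∃ n, P.Ev (fun _ => True) s r n := (runG_sound h).imp fun _ e => e.mono fun _ _ => trivial

theorem run_complete {pad : List Unit} {s : S} {r : R} {n B : ℕ}
    (e : P.Ev (fun x => size x ≤ B) s r n) (hn : n ≤ pad.length) (hB : B ≤ pad.length) :
    P.run pad s = some r :=
  runG_complete (e.mono fun _ h => Nat.ble_eq_true_of_le (h.trans hB)) hn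

variable [Enc R] {α : Type} [Enc α]

@[fun_prop] theorem pt_size {β : Type} [Enc β] {f : α → β} (hf : PT f) :
    PT (fun a => size (f a)) := PT.length (PT.code.comp hf)

theorem pt_runG {P : α → RP S R} {g : α → S → Bool} (h0 : PT (fun p : α × S => g p.1 p.2))
    (h1 : PT (fun p : α × S => (P p.1).ask p.2))
    (h2 : PT (fun p : α × S × R => (P p.1).upd p.2.1 p.2.2))
    (h3 : PT (fun p : α × S => (P p.1).out p.2)) {pad : α → List Unit} {s : α → S} (h4 : PT pad)
    (h5 : PT s) (I : α → S → Prop) (J : α → R → Prop) (i0 : ∀ a, I a (s a))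
    (i1 : ∀ a x y, I a x → (P a).ask x = some y → g a y = true → I a y)
    (i2 : ∀ a x r, I a x → J a r → g a ((P a).upd x r) = true → I a ((P a).upd x r))
    (i3 : ∀ a x, I a x → J a ((P a).out x)) (M : α → ℕ) (hM : PS M)
    (i4 : ∀ a x, I a x → size x ≤ M a) : PT (fun a => (P a).runG (g a) (pad a) (s a)) := by
  have hs : PT (fun p : α × List S × Option R => (P p.1).step (g p.1) p.2) := by
    unfold step push
    have e1 := h2.comp (g := fun q : ((α × List S × Option R) × S) × R => (q.1.1.1, q.1.2, q.2))
      (by fun_prop)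
    refine PT.optElim (by fun_prop) (by fun_prop) (PT.optElim (by fun_prop) (PT.optElim
      (h1.comp (g := fun q : (α × List S × Option R) × S => (q.1.1, q.2)) (by fun_prop))
      (PT.prodMk (by fun_prop) (PT.some
        (h3.comp (g := fun q : (α × List S × Option R) × S => (q.1.1, q.2)) (by fun_prop))))
      (PT.cond (h0.comp (g := fun q : ((α × List S × Option R) × S) × S => (q.1.1.1, q.2))
        (by fun_prop)) (by fun_prop) (PT.const _)))
      (PT.cond (h0.comp (PT.prodMk (by fun_prop) e1))
        (PT.prodMk (PT.cons e1 (by fun_prop)) (PT.const _)) (PT.const _)))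
  obtain ⟨p, hp⟩ := h3.size_le
  have hL : PS (fun a => (pad a ++ pad a).length) :=
    (PT.append h4 h4).size_le.mono fun _ => (length_lt_size _).le
  have key : ∀ a i, (∀ x ∈ (((P a).step (g a))^[i] ([s a], none)).1, I a x) ∧
      (((P a).step (g a))^[i] ([s a], none)).1.length ≤ i + 1 ∧
      ∀ r ∈ (((P a).step (g a))^[i] ([s a], none)).2, J a r ∧
        size r ≤ p.eval (size a + M a + 1) := by
    intro a i
    induction i with
    | zero => exact ⟨by simpa using i0 a, by simp, by simp⟩
    | succ i ih =>
      rw [Function.iterate_succ_apply']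
      generalize ((P a).step (g a))^[i] ([s a], none) = c at ih
      obtain ⟨a1, a2, a3⟩ := ih
      have hpush : ∀ (y : S) (L : List S), (g a y = true → I a y) → (∀ x ∈ L, I a x) →
          L.length ≤ i + 1 → (∀ x ∈ (push (R := R) (g a) y L).1, I a x) ∧
          (push (R := R) (g a) y L).1.length ≤ i + 1 + 1 ∧
          ∀ r ∈ (push (R := R) (g a) y L).2, J a r ∧ size r ≤ p.eval (size a + M a + 1) := by
        intro y L b0 b1 b2
        unfold push
        cases e : g a y
        · simp
        · exact ⟨List.forall_mem_cons.2 ⟨b0 e, b1⟩, by simpa using b2, by simp⟩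
      obtain ⟨_ | ⟨x, L⟩, o⟩ := c
      · exact ⟨a1, by simp [step_nil], a3⟩
      · have b1 := List.forall_mem_cons.1 a1
        have b2 : L.length ≤ i + 1 := by simp at a2; omega
        cases o with
        | none =>
          cases e : (P a).ask x with
          | none =>
            rw [step_done L e]
            refine ⟨b1.2, by simp; omega, fun r hr => ?_⟩
            obtain rfl := Option.mem_some_iff.1 hr
            exact ⟨i3 a x b1.1, (hp (a, x)).trans (eval_mono p
              (by rw [size_pair]; have := i4 a x b1.1; omega))⟩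
          | some y => rw [step_call L e]; exact hpush _ _ (i1 a x y b1.1 e) a1 a2
        | some r => rw [step_ret]; exact hpush _ _ (i2 a x r b1.1 (a3 r rfl).1) b1.2 b2
  have hi := PT.iterate (f := fun a => (P a).step (g a)) hs
    (PT.append h4 h4) (s := fun a => ([s a], none)) (by fun_prop)
    (fun a => ((pad a ++ pad a).length + 1) * (M a + 1) + 1 + (p.eval (size a + M a + 1) + 2) + 1)
    (((((hL.add (PB.const 1)).mul (hM.add (PB.const 1))).add (PB.const 1)).add
      ((((PB.self.add hM).add (PB.const 1)).eval p).add (PB.const 2))).add (PB.const 1))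
    (fun a i hi => by
      obtain ⟨a1, a2, a3⟩ := key a i
      have := size_list_le fun x hx => i4 a x (a1 x hx)
      have := Nat.mul_le_mul_right (M a + 1) (a2.trans (Nat.add_le_add_right hi 1))
      have : size (((P a).step (g a))^[i] ([s a], none)).2 ≤ p.eval (size a + M a + 1) + 2 := by
        cases e : (((P a).step (g a))^[i] ([s a], none)).2 with
        | none => simp
        | some r => simpa using (a3 r e).2
      rw [size_prod]; omega)
  unfold runG
  exact PT.cond (PT.and (h0.comp (PT.prodMk PT.id h5)) (PT.isEmpty (PT.fst hi))) (PT.snd hi)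
    (PT.const _)

theorem pt_run {P : α → RP S R} (h1 : PT (fun p : α × S => (P p.1).ask p.2))
    (h2 : PT (fun p : α × S × R => (P p.1).upd p.2.1 p.2.2))
    (h3 : PT (fun p : α × S => (P p.1).out p.2)) {pad : α → List Unit} {s : α → S} (h4 : PT pad)
    (h5 : PT s) : PT (fun a => (P a).run (pad a) (s a)) :=
  pt_runG (g := fun a x => Nat.ble (size x) (pad a).length) (by fun_prop) h1 h2 h3 h4 h5
    (fun a x => size x ≤ size (s a) + (pad a).length) (fun _ _ => True)
    (fun _ => Nat.le_add_right _ _)
    (fun _ _ _ _ _ h => (Nat.le_of_ble_eq_true h).trans (Nat.le_add_left _ _))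
    (fun _ _ _ _ _ h => (Nat.le_of_ble_eq_true h).trans (Nat.le_add_left _ _))
    (fun _ _ _ => trivial) _ (h5.size_le.add (h4.size_le.mono fun _ => (length_lt_size _).le))
    (fun _ _ h => h)
end time

end RP

end Pool.Agent.P.MP_f1a348_lc.TO
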