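import Mathlib

/-! Tournament isomorphism: the common definitions of the blocks. -/

set_option autoImplicit false
set_option linter.unusedSectionVars false

namespace Pool.Agent.P.MP_f1a348_lc.TO

open Equiv Finset
open scoped Classical

/-- A system of local automorphisms of level `k` without a swapped pair. -/
structure Sys (Y : Type) [Fintype Y] [DecidableEq Y] (k : ℕ) where
  L : Finset Y → Perm Y → Prop
  loc : ∀ {A B : Finset Y} {f g : Perm Y}, L A f → B ⊆ A → (∀ x ∈ B, g x = f x) → L B g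
  one : ∀ A : Finset Y, L A 1
  inv : ∀ {A : Finset Y} {f : Perm Y}, L A f → L (A.image f) f⁻¹
  mul : ∀ {A : Finset Y} {f g : Perm Y}, L A f → L (A.image f) g → L A (g * f)
  ext : ∀ {A : Finset Y} {f : Perm Y}, L A f → A.card < k →
    ∃ β : Perm Y, ∀ w, ∃ g : Perm Y, (∀ x ∈ A, g x = f x) ∧ g w = β w ∧ L (insert w A) g
  anti : ∀ {a b : Y} {f : Perm Y}, L {a, b} f → f a = b → f b = a → a = b

namespace Sys

variable {Y : Type} [Fintype Y] [DecidableEq Y] {k : ℕ} (Γ : Sys Y k)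

/-- `f` is a local automorphism over `S` defined on `B`. -/
def Aut (S B : Finset Y) (f : Perm Y) : Prop := Γ.L (S ∪ B) f ∧ ∀ x ∈ S, f x = x

/-- `a` and `b` have the same type over `S`. -/
def E1 (S : Finset Y) (a b : Y) : Prop := ∃ f : Perm Y, Γ.Aut S {a} f ∧ f a = b

/-- The pairs `(a, b)` and `(a', b')` have the same type over `S`. -/
def E2 (S : Finset Y) (a b a' b' : Y) : Prop :=
  ∃ f : Perm Y, Γ.Aut S {a, b} f ∧ f a = a' ∧ f b = b'

/-- The atom of `a` over `S`. -/
noncomputable def atom (S : Finset Y) (a : Y) : Finset Y := univ.filter (fun b => Γ.E1 S a b)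

/-- The trace class of `z` over `T` with respect to `Z`. -/
noncomputable def tr (T Z : Finset Y) (z : Y) : Finset Y :=
  univ.filter (fun z' => Γ.E1 T z z' ∧ ∀ y ∈ Z, Γ.E1 (insert y T) z z')

/-- The points with a small trace class. -/
noncomputable def sm (K : ℕ) (T Z : Finset Y) : Finset Y :=
  univ.filter (fun z => K ^ T.card * (Γ.tr T Z z).card ≤ Fintype.card Y)

/-- All points have one type. -/
def Hom : Prop := ∀ a b : Y, Γ.E1 ∅ a b

/-- Every invariant equivalence relation is trivial. -/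
def Prim : Prop :=
  ∀ E : Y → Y → Prop, Equivalence E →
    (∀ a b (f : Perm Y), Γ.L {a, b} f → E a b → E (f a) (f b)) →
    (∀ a b, E a b → a = b) ∨ (∀ a b, E a b)

end Sys

/-- Block B, the output: few pins and three layers with small classes. -/
def GAIN : Prop :=
  ∀ K : ℕ, ∃ k t0 n0 : ℕ, ∀ (Y : Type) [Fintype Y] [DecidableEq Y] (Γ : Sys Y k),
    n0 ≤ Fintype.card Y → Γ.Hom → Γ.Prim →
    ∃ T : Finset Y, 1 ≤ T.card ∧ T.card ≤ t0 ∧
      Γ.sm K T (Γ.sm K T (Γ.sm K T ∅)) = univ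

section Game

variable {Ω : Type} [Fintype Ω] [DecidableEq Ω]

/-- The orbit of `w` under `H`. -/
noncomputable def orb (H : Subgroup (Perm Ω)) (w : Ω) : Finset Ω :=
  univ.filter (fun x => ∃ g ∈ H, g w = x)

/-- The stabiliser of `p` in `H`. -/
def stab (H : Subgroup (Perm Ω)) (p : Ω) : Subgroup (Perm Ω) :=
  H ⊓ MulAction.stabilizer (Perm Ω) p

/-- The orbit of `w` is not a point and has no block system with between `2` and `m` blocks. -/
def M2 (m : ℕ) (H : Subgroup (Perm Ω)) (w : Ω) : Prop :=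
  (∃ g ∈ H, g w ≠ w) ∧
    ∀ U : Subgroup (Perm Ω), stab H w ≤ U → U ≤ H → U ≠ H → m < U.relIndex H

/-- `f` pins suffice on the window `W`. -/
def Win (m : ℕ) : ℕ → Subgroup (Perm Ω) → Finset Ω → Prop
  | 0, H, W => ∀ H' ≤ H, ∀ w, orb H' w ⊆ W → ¬ M2 m H' w
  | f + 1, H, W => ∀ H' ≤ H, ∀ w, orb H' w ⊆ W → M2 m H' w →
      ∃ p, Win m f (stab H' p) (orb H' w)

end Game

/-- Block C, the output: for groups of odd order few pins suffice. -/
def GAME : Prop :=
  ∀ D E : ℕ, ∃ m0 c : ℕ, ∀ (Ω : Type) [Fintype Ω] [DecidableEq Ω] (G : Subgroup (Perm Ω))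
    (m f : ℕ), Odd (Nat.card G) → m0 ≤ m → Fintype.card Ω ≤ m ^ D →
    Nat.log 2 (Fintype.card Ω) + c ≤ E * f → Win m f G univ

end Pool.Agent.P.MP_f1a348_lc.TO
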