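import Pool.Agent.P.MP_f1a348_lc.TO.Sys

/-! Tournament isomorphism, block D2: bisimulations between tuples of two digraphs. -/

set_option autoImplicit false
set_option linter.unusedSectionVars false

namespace Pool.Agent.P.MP_f1a348_lc.TO.WL

open Function

variable {α β γ : Type} {k : ℕ} {r : α → α → Prop} {s : β → β → Prop} {t : γ → γ → Prop}

/-- the two tuples have the same equalities and arcs -/
def At (r : α → α → Prop) (s : β → β → Prop) (u : Fin k → α) (v : Fin k → β) : Prop :=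
  ∀ i j, (u i = u j ↔ v i = v j) ∧ (r (u i) (u j) ↔ s (v i) (v j))

/-- a winning strategy in the bijective pebble game -/
def Bis (r : α → α → Prop) (s : β → β → Prop) (R : (Fin k → α) → (Fin k → β) → Prop) : Prop :=
  ∀ u v, R u v → At r s u v ∧ ∀ i, ∃ e : α ≃ β, ∀ w, R (update u i w) (update v i (e w))

/-- the largest bisimulation -/
def Sim (r : α → α → Prop) (s : β → β → Prop) (u : Fin k → α) (v : Fin k → β) : Prop :=
  ∃ R, Bis r s R ∧ R u v

theorem Sim.bis : Bis r s (Sim (k := k) r s) := fun u v ⟨R, hR, h⟩ =>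
  ⟨(hR u v h).1, fun i => ((hR u v h).2 i).imp fun _ he w => ⟨R, hR, he w⟩⟩

theorem Sim.at {u : Fin k → α} {v : Fin k → β} (h : Sim r s u v) : At r s u v := (Sim.bis u v h).1

theorem Sim.step {u : Fin k → α} {v : Fin k → β} (h : Sim r s u v) (i : Fin k) :
    ∃ e : α ≃ β, ∀ w, Sim r s (update u i w) (update v i (e w)) := (Sim.bis u v h).2 i

theorem Sim.of_iso (e : α ≃ β) (he : ∀ x y, r x y ↔ s (e x) (e y)) (u : Fin k → α) :
    Sim r s u (e ∘ u) := by
  refine ⟨fun u v => v = e ∘ u, ?_, rfl⟩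
  rintro u _ rfl
  exact ⟨fun i j => ⟨e.injective.eq_iff.symm, he _ _⟩,
    fun i => ⟨e, fun w => (comp_update e u i w).symm⟩⟩

theorem Sim.refl (u : Fin k → α) : Sim r r u u := Sim.of_iso (Equiv.refl α) (fun _ _ => Iff.rfl) u

theorem Sim.symm {u : Fin k → α} {v : Fin k → β} (h : Sim r s u v) : Sim s r v u := by
  refine ⟨fun v u => Sim r s u v, fun v u h => ⟨fun i j => ⟨(h.at i j).1.symm, (h.at i j).2.symm⟩,
    fun i => ?_⟩, h⟩
  obtain ⟨e, he⟩ := h.step i
  exact ⟨e.symm, fun w => by simpa using he (e.symm w)⟩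

theorem Sim.trans {u : Fin k → α} {v : Fin k → β} {x : Fin k → γ} (h : Sim r s u v)
    (h' : Sim s t v x) : Sim r t u x := by
  refine ⟨fun u x => ∃ v, Sim r s u v ∧ Sim s t v x, ?_, v, h, h'⟩
  rintro u x ⟨v, h, h'⟩
  refine ⟨fun i j => ⟨(h.at i j).1.trans (h'.at i j).1, (h.at i j).2.trans (h'.at i j).2⟩,
    fun i => ?_⟩
  obtain ⟨e, he⟩ := h.step i
  obtain ⟨e', he'⟩ := h'.step i
  exact ⟨e.trans e', fun w => ⟨_, he w, he' (e w)⟩⟩

theorem update_comp_update (u : Fin k → α) (σ : Fin k → Fin k) {i j : Fin k} (w : α)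
    (h : ∀ x, x ≠ j → σ x ≠ i) : update (u ∘ σ) j w = update u i w ∘ update σ j i := by
  funext x
  by_cases hx : x = j
  · subst hx; simp
  · simp [hx, h x hx]

theorem Sim.reindex {u : Fin k → α} {v : Fin k → β} (h : Sim r s u v) (σ : Fin k → Fin k) :
    Sim r s (u ∘ σ) (v ∘ σ) := by
  refine ⟨fun u' v' => ∃ u v σ, Sim r s u v ∧ u' = u ∘ σ ∧ v' = v ∘ σ, ?_, u, v, σ, h, rfl, rfl⟩
  rintro _ _ ⟨u, v, σ, h, rfl, rfl⟩
  refine ⟨fun i j => h.at (σ i) (σ j), fun j => ?_⟩
  have hc : ((Finset.univ.erase j).image σ).card < (Finset.univ : Finset (Fin k)).card :=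
    Finset.card_image_le.trans_lt (Finset.card_erase_lt_of_mem (Finset.mem_univ j))
  obtain ⟨i, -, hi⟩ := Finset.exists_mem_notMem_of_card_lt_card hc
  have hσ : ∀ x, x ≠ j → σ x ≠ i := fun x hx e =>
    hi (Finset.mem_image.2 ⟨x, by simpa using hx, e⟩)
  obtain ⟨e, he⟩ := h.step i
  exact ⟨e, fun w => ⟨_, _, update σ j i, he w, update_comp_update u σ w hσ,
    update_comp_update v σ _ hσ⟩⟩

theorem Sim.const {u : Fin k → α} {v : Fin k → β} (h : Sim r s u v) (i : Fin k) :
    Sim r s (fun _ : Fin k => u i) (fun _ => v i) := h.reindex (fun _ => i)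

/-- restriction to a union of classes of points -/
theorem Sim.restrict (ι : γ → α) (hι : Injective ι) (ht : ∀ x y, t x y ↔ r (ι x) (ι y))
    (hc : ∀ x y : α, Sim r r (fun _ : Fin k => x) (fun _ => y) →
      x ∈ Set.range ι → y ∈ Set.range ι)
    {u v : Fin k → γ} (h : Sim r r (ι ∘ u) (ι ∘ v)) : Sim t t u v := by
  refine ⟨fun u v => Sim r r (ι ∘ u) (ι ∘ v), fun u v h => ⟨fun i j => ⟨?_, ?_⟩, fun i => ?_⟩, h⟩
  · have := (h.at i j).1
    simpa only [comp_apply, hι.eq_iff] using this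
  · rw [ht, ht]; exact (h.at i j).2
  · obtain ⟨e, he⟩ := h.step i
    have h1 : ∀ w, w ∈ Set.range ι ↔ e w ∈ Set.range ι := fun w => by
      have := (he w).const i
      simp only [update_self] at this
      exact ⟨hc _ _ this, hc _ _ this.symm⟩
    let e' : γ ≃ γ := (Equiv.ofInjective ι hι).trans
      ((e.subtypeEquiv h1).trans (Equiv.ofInjective ι hι).symm)
    have h2 : ∀ w, ι (e' w) = e (ι w) := fun w => Equiv.apply_ofInjective_symm hι _
    refine ⟨e', fun w => ?_⟩
    change Sim r r (ι ∘ update u i w) (ι ∘ update v i (e' w))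
    rw [comp_update, comp_update, h2]
    exact he (ι w)

theorem exists_perm [Finite α] {u v : Fin k → α} (h : ∀ i j, u i = u j ↔ v i = v j) :
    ∃ f : Equiv.Perm α, f ∘ u = v := by
  have hg : Injective (fun x : Set.range u => v x.2.choose) := fun x y e =>
    Subtype.ext (x.2.choose_spec.symm.trans (((h _ _).2 e).trans y.2.choose_spec))
  obtain ⟨f, hf⟩ := Equiv.Perm.exists_extending_pair _ _
    (Subtype.val_injective (p := (· ∈ Set.range u))) hg
  refine ⟨f, funext fun i => (hf ⟨u i, i, rfl⟩).trans ?_⟩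
  exact (h _ _).1 (Exists.choose_spec (⟨i, rfl⟩ : u i ∈ Set.range u))

/-- a bijection from equal numbers of points in each class -/
theorem exists_equiv {T : Type} [Finite α] [Finite β] (a : α → T) (b : β → T) (R : T → T → Prop)
    (hs : ∀ x y, R x y → R y x) (htr : ∀ x y z, R x y → R y z → R x z) (ha : ∀ w, R (a w) (a w))
    (hb : ∀ w, R (b w) (b w))
    (h : ∀ x, R x x → Nat.card {w // R x (a w)} = Nat.card {w // R x (b w)}) :
    ∃ e : α ≃ β, ∀ w, R (a w) (b (e w)) := by
  have key : ∀ x y, R x x → ({z | R z y} = {z | R z x} ↔ R x y) := fun x y hx =>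
    ⟨fun e => (Set.ext_iff.1 e x).2 hx,
      fun e => Set.ext fun z => ⟨fun hz => htr _ _ _ hz (hs _ _ e), fun hz => htr _ _ _ hz e⟩⟩
  have hf : ∀ K : Set T, Nonempty ({w // {z | R z (a w)} = K} ≃ {w // {z | R z (b w)} = K}) := by
    intro K
    by_cases hK : ∃ x, R x x ∧ K = {z | R z x}
    · obtain ⟨x, hx, rfl⟩ := hK
      simp only [key x _ hx]
      exact Finite.card_eq.1 (h x hx)
    · have : IsEmpty {w // {z | R z (a w)} = K} := ⟨fun w => hK ⟨_, ha w, w.2.symm⟩⟩
      have : IsEmpty {w // {z | R z (b w)} = K} := ⟨fun w => hK ⟨_, hb w, w.2.symm⟩⟩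
      exact ⟨Equiv.equivOfIsEmpty _ _⟩
  exact ⟨_, fun w => (key _ _ (ha w)).1 (Equiv.ofFiberEquiv_map (f := fun w => {z | R z (a w)})
    (g := fun w => {z | R z (b w)}) (fun K => (hf K).some) w)⟩

/-! ### the system of local automorphisms -/

section sys
variable {Y : Type} [Fintype Y] [DecidableEq Y] (ρ : Y → Y → Prop)

/-- all tuples over `A` are similar to their images -/
def Loc (k : ℕ) (A : Finset Y) (f : Equiv.Perm Y) : Prop :=
  ∀ u : Fin k → Y, (∀ i, u i ∈ A) → Sim ρ ρ u (f ∘ u)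

variable {ρ}

theorem Loc.of_sim {A : Finset Y} {f : Equiv.Perm Y} {u : Fin k → Y} (h : Sim ρ ρ u (f ∘ u))
    (hA : ∀ x ∈ A, ∃ i, u i = x) : Loc ρ k A f := by
  intro v hv
  choose σ hσ using fun i => hA (v i) (hv i)
  obtain rfl : v = u ∘ σ := funext fun i => (hσ i).symm
  exact h.reindex σ

theorem Loc.arc (hk : 2 ≤ k) {a b : Y} {f : Equiv.Perm Y} (h : Loc ρ k {a, b} f) :
    ρ a b ↔ ρ (f a) (f b) := by
  have := ((h (fun i => if i.1 = 0 then a else b) (fun i => by split_ifs <;> simp)).at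
    ⟨0, by omega⟩ ⟨1, by omega⟩).2
  simpa using this

theorem Loc.ext {A : Finset Y} {f : Equiv.Perm Y} (h : Loc ρ k A f) (hA : A.card < k) :
    ∃ e : Equiv.Perm Y, ∀ w, ∃ g : Equiv.Perm Y,
      (∀ x ∈ A, g x = f x) ∧ g w = e w ∧ Loc ρ k (insert w A) g := by
  rcases A.eq_empty_or_nonempty with rfl | ⟨a, ha⟩
  · exact ⟨1, fun w => ⟨1, by simp, rfl, fun u _ => Sim.refl u⟩⟩
  let u : Fin k → Y := fun i => if h : i.1 < A.card then (A.equivFin.symm ⟨i.1, h⟩).1 else a
  let i : Fin k := ⟨A.card, hA⟩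
  have h1 : ∀ j, u j ∈ A := fun j => by
    simp only [u]
    split_ifs with hj
    · exact (A.equivFin.symm ⟨j.1, hj⟩).2
    · exact ha
  have h2 : ∀ x ∈ A, ∃ j, j ≠ i ∧ u j = x := fun x hx =>
    ⟨⟨(A.equivFin ⟨x, hx⟩).1, (A.equivFin ⟨x, hx⟩).2.trans hA⟩,
      fun e => (A.equivFin ⟨x, hx⟩).2.ne (congrArg Fin.val e), by simp [u]⟩
  obtain ⟨e, he⟩ := (h u h1).step i
  refine ⟨e, fun w => ?_⟩
  have h3 : ∀ x ∈ A, (Equiv.swap (f w) (e w) * f) x = f x := fun x hx => by
    obtain ⟨j, hj, rfl⟩ := h2 x hx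
    have h4 := ((he w).at j i).1
    simp only [update_self, update_of_ne hj, comp_apply] at h4
    rw [Equiv.Perm.mul_apply]
    by_cases hw : u j = w
    · rw [← h4.1 hw, ← hw, Equiv.swap_self, Equiv.refl_apply]
    · exact Equiv.swap_apply_of_ne_of_ne (f.injective.ne hw) (fun e => hw (h4.2 e))
  have h5 : (Equiv.swap (f w) (e w) * f) w = e w := Equiv.swap_apply_left _ _
  refine ⟨_, h3, h5, Loc.of_sim (u := update u i w) ?_ (fun x hx => ?_)⟩
  · rw [comp_update, h5, show (Equiv.swap (f w) (e w) * f : Equiv.Perm Y) ∘ u = f ∘ u from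
      funext fun j => h3 _ (h1 j)]
    exact he w
  · rcases Finset.mem_insert.1 hx with rfl | hx
    · exact ⟨i, update_self ..⟩
    · obtain ⟨j, hj, rfl⟩ := h2 x hx
      exact ⟨j, update_of_ne hj ..⟩

/-- the system of a tournament -/
def sys (ρ : Y → Y → Prop) (hk : 2 ≤ k) (hρ : ∀ a b, a ≠ b → (ρ a b ↔ ¬ ρ b a)) : Sys Y k where
  L := Loc ρ k
  loc := fun {A B f g} h hB hg u hu => by
    rw [show g ∘ u = f ∘ u from funext fun i => hg _ (hu i)]
    exact h u fun i => hB (hu i)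
  one := fun _ u _ => Sim.refl u
  inv := fun {A f} h u hu => by
    have := h (⇑f⁻¹ ∘ u) (fun i => by
      obtain ⟨x, hx, e⟩ := Finset.mem_image.1 (hu i)
      simpa [← e] using hx)
    rw [show f ∘ ⇑f⁻¹ ∘ u = u from funext fun i => by simp] at this
    exact this.symm
  mul := fun {A f g} h h' u hu =>
    (h u hu).trans (h' (f ∘ u) fun i => Finset.mem_image_of_mem _ (hu i))
  ext := fun h hA => h.ext hA
  anti := fun {a b f} h h1 h2 => by
    by_contra hab
    have h3 := h.arc hk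
    rw [h1, h2] at h3
    have h4 := hρ a b hab
    tauto
end sys

/-! ### tuples from lists -/

/-- a nonempty list, filled up with its first entry -/
def tup (k : ℕ) (a : α) (l : List α) : Fin k → α := fun i => (a :: l).getD i a

theorem comp_tup (f : α → β) (a : α) (l : List α) : f ∘ tup k a l = tup k (f a) (l.map f) :=
  funext fun _ => (List.getD_map (a :: l) a f).symm

theorem tup_mem (a : α) (l : List α) (i : Fin k) : tup k a l i ∈ a :: l := by
  unfold tup
  rcases Nat.lt_or_ge i (a :: l).length with h | h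
  · rw [List.getD_eq_getElem _ _ h]; exact List.getElem_mem h
  · rw [List.getD_eq_default _ _ h]; exact List.mem_cons_self

theorem tup_onto {a : α} {l : List α} (h : (a :: l).length ≤ k) {x : α} (hx : x ∈ a :: l) :
    ∃ i, tup k a l i = x := by
  obtain ⟨i, hi, rfl⟩ := List.getElem_of_mem hx
  exact ⟨⟨i, hi.trans_le h⟩, List.getD_eq_getElem _ _ hi⟩

theorem tup_inj {a b : α} {l m : List α} (h : (a :: l).length ≤ k)
    (h' : (a :: l).length = (b :: m).length) (e : tup k a l = tup k b m) : a :: l = b :: m := by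
  refine List.ext_getElem h' fun i h1 h2 => ?_
  have := congrFun e ⟨i, h1.trans_le h⟩
  rwa [tup, tup, List.getD_eq_getElem _ _ h1, List.getD_eq_getElem _ _ h2] at this

theorem tup_nil (a : α) : tup k a [] = fun _ => a :=
  funext fun i => List.mem_singleton.1 (tup_mem a [] i)

theorem sim_tup_iff {Y : Type} [Fintype Y] [DecidableEq Y] {ρ : Y → Y → Prop} {a b : Y}
    {l m : List Y} (h : (a :: l).length ≤ k) (h' : (a :: l).length = (b :: m).length) :
    Sim ρ ρ (tup k a l) (tup k b m) ↔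
      ∃ f, Loc ρ k (a :: l).toFinset f ∧ (a :: l).map f = b :: m := by
  constructor
  · intro hs
    obtain ⟨f, hf⟩ := exists_perm fun i j => (hs.at i j).1
    refine ⟨f, Loc.of_sim (hf ▸ hs) fun x hx => tup_onto h (List.mem_toFinset.1 hx), ?_⟩
    rw [comp_tup] at hf
    exact tup_inj (by simpa using h) (by simpa using h') hf
  · rintro ⟨f, h1, h2⟩
    have := h1 (tup k a l) fun i => List.mem_toFinset.2 (tup_mem a l i)
    rw [comp_tup] at this
    rw [List.map_cons, List.cons.injEq] at h2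
    rwa [h2.1, h2.2] at this

end Pool.Agent.P.MP_f1a348_lc.TO.WL
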