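import Pool.Agent.P.MP_f1a348_lc.TO.DDefs

/-! Tournament isomorphism, block D2: the statement. -/

set_option autoImplicit false
set_option linter.unusedSectionVars false

namespace Pool.Agent.P.MP_f1a348_lc.TO

open Pool.Agent.Lib.Helper47 Pool.Agent.P.MP_f1a348_lc.GI

-- deps:
-- imports: Pool.Agent.P.MP_f1a348_lc.TO.WProg
def S_WLX : Prop := WLX

end Pool.Agent.P.MP_f1a348_lc.TO
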