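import Pool.Agent.P.MP_f1a348_lc.TO.DDefs
import Pool.Agent.P.MP_f1a348_lc.TO.WBis

/-! Tournament isomorphism, block D2: the joint refinement of the tuples of two digraphs. -/

set_option autoImplicit false
set_option linter.unusedSectionVars false

namespace Pool.Agent.P.MP_f1a348_lc.TO.WL

open Pool.Agent.Lib.Helper47 Pool.Agent.P.MP_f1a348_lc.GI Function

/-- a tuple with its side -/
abbrev Tp : Type := Bool × List ℕ

/-- the vertices of one side -/
def vs (q : Q) (b : Bool) : List ℕ := bif b then q.2.2.1 else q.1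
/-- the arcs of one side -/
def ar (q : Q) (b : Bool) : List (ℕ × ℕ) := bif b then q.2.2.2 else q.2.1
/-- the positions -/
def ix (p : Par) : List ℕ := List.range p.2.length
/-- all tuples -/
def tt (p : Par) (q : Q) : List Tp :=
  (tuples p.1 q.1 p.2).map (fun t => (false, t)) ++ (tuples p.1 q.2.2.1 p.2).map (fun t => (true, t))
/-- the atomic type -/
def aty (p : Par) (q : Q) (u : Tp) : List (Bool × Bool) :=
  (prodL (ix p) (ix p)).map (fun z => (u.2.getD z.1 0 == u.2.getD z.2 0,
    (ar q u.1).contains (u.2.getD z.1 0, u.2.getD z.2 0)))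
/-- the numbers of neighbours in each class -/
def sig (p : Par) (q : Q) (R : List (Tp × Tp)) (u : Tp) : List ℕ :=
  (prodL (ix p) (tt p q)).map (fun z =>
    (vs q u.1).countP (fun w => R.contains (z.2, (u.1, u.2.set z.1 w))))
/-- the first relation -/
def r0 (p : Par) (q : Q) : List (Tp × Tp) :=
  (prodL (tt p q) (tt p q)).filter (fun z => aty p q z.1 == aty p q z.2)
/-- one round -/
def stp (p : Par) (q : Q) (R : List (Tp × Tp)) : List (Tp × Tp) :=
  R.filter (fun z => sig p q R z.1 == sig p q R z.2)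
/-- the stable relation -/
def rr (p : Par) (q : Q) : List (Tp × Tp) := (stp p q)^[(r0 p q).length] (r0 p q)
/-- a list filled up with its first entry -/
def padL (p : Par) (l : List ℕ) : List ℕ := (ix p).map (fun i => l.getD i (l.headD 0))
/-- the colour -/
def cls (x : Par × Q × Bool × List ℕ) : ℕ :=
  (tt x.1 x.2.1).findIdx (fun t => (rr x.1 x.2.1).contains (t, (x.2.2.1, padL x.1 x.2.2.2)))

section pt
variable {α : Type} [Enc α] {p : α → Par} {q : α → Q}

@[fun_prop] theorem pt_vs {b : α → Bool} (hq : PT q) (hb : PT b) :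
    PT (fun a => vs (q a) (b a)) := by unfold vs; fun_prop

@[fun_prop] theorem pt_ar {b : α → Bool} (hq : PT q) (hb : PT b) :
    PT (fun a => ar (q a) (b a)) := by unfold ar; fun_prop

@[fun_prop] theorem pt_ix (hp : PT p) : PT (fun a => ix (p a)) := PT.rangeLength (PT.snd hp)

@[fun_prop] theorem pt_tt (hp : PT p) (hq : PT q) : PT (fun a => tt (p a) (q a)) := by
  unfold tt; fun_prop

@[fun_prop] theorem pt_aty {u : α → Tp} (hp : PT p) (hq : PT q) (hu : PT u) :
    PT (fun a => aty (p a) (q a) (u a)) := by unfold aty; fun_prop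

@[fun_prop] theorem pt_sig {R : α → List (Tp × Tp)} {u : α → Tp} (hp : PT p) (hq : PT q)
    (hR : PT R) (hu : PT u) : PT (fun a => sig (p a) (q a) (R a) (u a)) := by
  unfold sig; fun_prop

@[fun_prop] theorem pt_r0 (hp : PT p) (hq : PT q) : PT (fun a => r0 (p a) (q a)) := by
  unfold r0; fun_prop

@[fun_prop] theorem pt_stp {R : α → List (Tp × Tp)} (hp : PT p) (hq : PT q) (hR : PT R) :
    PT (fun a => stp (p a) (q a) (R a)) := by unfold stp; fun_prop

@[fun_prop] theorem pt_rr (hp : PT p) (hq : PT q) : PT (fun a => rr (p a) (q a)) :=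
  PT.iterate_inv (f := fun a R => stp (p a) (q a) R) (by fun_prop) (pt_r0 hp hq) (pt_r0 hp hq)
    (fun a R => R.Sublist (r0 (p a) (q a))) (fun _ => List.Sublist.refl _)
    (fun _ _ h => List.filter_sublist.trans h) _ (pt_r0 hp hq).size_le (fun _ _ h => size_sublist h)

@[fun_prop] theorem pt_padL {l : α → List ℕ} (hp : PT p) (hl : PT l) :
    PT (fun a => padL (p a) (l a)) := by unfold padL; fun_prop
end pt

theorem pt_cls : PT cls := by unfold cls; fun_prop

theorem fix_iter {τ : Type} (f : List τ → List τ) (hf : ∀ R, (f R).Sublist R) (n : ℕ) :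
    ∀ R : List τ, R.length ≤ n → f (f^[n] R) = f^[n] R := by
  induction n with
  | zero =>
    intro R h
    obtain rfl := List.length_eq_zero_iff.1 (Nat.le_zero.1 h)
    exact List.sublist_nil.1 (hf [])
  | succ n ih =>
    intro R h
    by_cases e : f R = R
    · rw [iterate_fixed e, e]
    · have h1 := (hf R).length_le
      have h2 : (f R).length ≠ R.length := fun h2 => e ((hf R).eq_of_length h2)
      exact ih (f R) (by omega)

theorem countP_card {l : List ℕ} (hl : l.Nodup) (P : ℕ → Bool) :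
    l.countP P = Nat.card {w : {x // x ∈ l} // P w.1 = true} := by
  rw [Nat.card_congr (Equiv.subtypeSubtypeEquivSubtypeInter (· ∈ l) (fun x => P x = true)),
    Nat.subtype_card (l.filter P).toFinset (by simp), List.toFinset_card_of_nodup (hl.filter _),
    List.countP_eq_length_filter]

/-- an equivalence relation on the tuples that respects the atomic types -/
structure Eqv (p : Par) (q : Q) (R : List (Tp × Tp)) : Prop where
  refl : ∀ t ∈ tt p q, (t, t) ∈ R
  symm : ∀ x y, (x, y) ∈ R → (y, x) ∈ R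
  trans : ∀ x y z, (x, y) ∈ R → (y, z) ∈ R → (x, z) ∈ R
  mem : ∀ x y, (x, y) ∈ R → x ∈ tt p q ∧ aty p q x = aty p q y

variable {p : Par} {q : Q}

theorem mem_r0 {x y : Tp} :
    (x, y) ∈ r0 p q ↔ (x ∈ tt p q ∧ y ∈ tt p q) ∧ aty p q x = aty p q y := by
  simp [r0, mem_prodL]

theorem mem_stp {R : List (Tp × Tp)} {x y : Tp} :
    (x, y) ∈ stp p q R ↔ (x, y) ∈ R ∧ sig p q R x = sig p q R y := by
  simp [stp]

theorem eqv_iter (n : ℕ) : Eqv p q ((stp p q)^[n] (r0 p q)) := by
  induction n with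
  | zero =>
    exact ⟨fun t ht => mem_r0.2 ⟨⟨ht, ht⟩, rfl⟩,
      fun x y h => mem_r0.2 ⟨(mem_r0.1 h).1.symm, (mem_r0.1 h).2.symm⟩,
      fun x y z h h' => mem_r0.2 ⟨⟨(mem_r0.1 h).1.1, (mem_r0.1 h').1.2⟩,
        (mem_r0.1 h).2.trans (mem_r0.1 h').2⟩,
      fun x y h => ⟨(mem_r0.1 h).1.1, (mem_r0.1 h).2⟩⟩
  | succ n ih =>
    rw [iterate_succ_apply']
    exact ⟨fun t ht => mem_stp.2 ⟨ih.refl t ht, rfl⟩,
      fun x y h => mem_stp.2 ⟨ih.symm _ _ (mem_stp.1 h).1, (mem_stp.1 h).2.symm⟩,
      fun x y z h h' => mem_stp.2 ⟨ih.trans _ _ _ (mem_stp.1 h).1 (mem_stp.1 h').1,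
        (mem_stp.1 h).2.trans (mem_stp.1 h').2⟩,
      fun x y h => ih.mem _ _ (mem_stp.1 h).1⟩

/-- the arcs between listed vertices -/
def arcOn (V : List ℕ) (E : List (ℕ × ℕ)) (x y : {x // x ∈ V}) : Prop := (x.1, y.1) ∈ E

/-- the code of a tuple -/
def toL (b : Bool) {V : List ℕ} {k : ℕ} (u : Fin k → {x // x ∈ V}) : Tp :=
  (b, List.ofFn fun i => (u i).1)

theorem toL_getD (b : Bool) {V : List ℕ} {k : ℕ} (u : Fin k → {x // x ∈ V}) (i : Fin k) :
    (toL b u).2.getD i 0 = (u i).1 := by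
  simp [toL, List.getD_eq_getElem?_getD]

theorem toL_set (b : Bool) {V : List ℕ} {k : ℕ} (u : Fin k → {x // x ∈ V}) (i : Fin k)
    (w : {x // x ∈ V}) : ((toL b u).1, (toL b u).2.set i w.1) = toL b (update u i w) := by
  refine Prod.ext rfl (List.ext_getElem (by simp [toL]) fun j h1 h2 => ?_)
  simp only [toL, List.getElem_set, List.getElem_ofFn, update_apply, Fin.ext_iff]
  split_ifs with h3 h4 h4
  · rfl
  · exact absurd h3.symm h4
  · exact absurd h4.symm h3
  · rfl

/-- the conditions on the input -/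
structure Ok (p : Par) (q : Q) : Prop where
  nd : ∀ b, (vs q b).Nodup
  big : ∀ b, (vs q b).length ^ p.2.length ≤ p.1.length

theorem toL_mem (h : Ok p q) (b : Bool) (u : Fin p.2.length → {x // x ∈ vs q b}) :
    toL b u ∈ tt p q := by
  have : (toL b u).2 ∈ tuples p.1 (vs q b) p.2 :=
    tuples_complete (h.big b) (by simp [toL]) (fun x hx => by
      obtain ⟨i, rfl⟩ := List.mem_ofFn.1 hx
      exact (u i).2)
  cases b
  · exact List.mem_append_left _ (List.mem_map.2 ⟨_, this, rfl⟩)
  · exact List.mem_append_right _ (List.mem_map.2 ⟨_, this, rfl⟩)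

theorem aty_iff {b c : Bool} (u : Fin p.2.length → {x // x ∈ vs q b})
    (v : Fin p.2.length → {x // x ∈ vs q c}) : aty p q (toL b u) = aty p q (toL c v) ↔
      At (arcOn (vs q b) (ar q b)) (arcOn (vs q c) (ar q c)) u v := by
  have key : ∀ i j : Fin p.2.length, ((toL b u).2.getD i 0 == (toL b u).2.getD j 0,
      (ar q (toL b u).1).contains ((toL b u).2.getD i 0, (toL b u).2.getD j 0)) =
      ((toL c v).2.getD i 0 == (toL c v).2.getD j 0,
      (ar q (toL c v).1).contains ((toL c v).2.getD i 0, (toL c v).2.getD j 0)) ↔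
      (u i = u j ↔ v i = v j) ∧
        (arcOn (vs q b) (ar q b) (u i) (u j) ↔ arcOn (vs q c) (ar q c) (v i) (v j)) := by
    intro i j
    rw [toL_getD, toL_getD, toL_getD, toL_getD, Prod.mk.injEq, Bool.eq_iff_iff, beq_iff_eq,
      beq_iff_eq, Subtype.val_inj, Subtype.val_inj, Bool.eq_iff_iff, List.contains_iff_mem,
      List.contains_iff_mem]
    rfl
  rw [aty, aty, List.map_inj_left]
  constructor
  · intro h i j
    exact (key i j).1 (h (i.1, j.1) (mem_prodL.2 ⟨List.mem_range.2 i.2, List.mem_range.2 j.2⟩))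
  · rintro h ⟨i, j⟩ hz
    obtain ⟨hi, hj⟩ := mem_prodL.1 hz
    exact (key ⟨i, List.mem_range.1 hi⟩ ⟨j, List.mem_range.1 hj⟩).2 (h _ _)

theorem sig_iff (h : Ok p q) (R : List (Tp × Tp)) {b c : Bool}
    (u : Fin p.2.length → {x // x ∈ vs q b}) (v : Fin p.2.length → {x // x ∈ vs q c}) :
    sig p q R (toL b u) = sig p q R (toL c v) ↔ ∀ i, ∀ t ∈ tt p q,
      Nat.card {w // (t, toL b (update u i w)) ∈ R} =
        Nat.card {w // (t, toL c (update v i w)) ∈ R} := by
  have key : ∀ (b : Bool) (u : Fin p.2.length → {x // x ∈ vs q b}) (i : Fin p.2.length) (t : Tp),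
      (vs q (toL b u).1).countP (fun w => R.contains (t, ((toL b u).1, (toL b u).2.set i w))) =
        Nat.card {w // (t, toL b (update u i w)) ∈ R} := fun b u i t => by
    refine (countP_card (h.nd b) _).trans ?_
    simp only [toL_set, List.contains_iff_mem]
  rw [sig, sig, List.map_inj_left]
  constructor
  · intro h1 i t ht
    rw [← key, ← key]
    exact h1 (i.1, t) (mem_prodL.2 ⟨List.mem_range.2 i.2, ht⟩)
  · rintro h1 ⟨i, t⟩ hz
    obtain ⟨hi, ht⟩ := mem_prodL.1 hz
    exact (key b u ⟨i, List.mem_range.1 hi⟩ t).trans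
      ((h1 _ t ht).trans (key c v ⟨i, List.mem_range.1 hi⟩ t).symm)

theorem mem_iter (h : Ok p q) {b c : Bool} (n : ℕ) :
    ∀ (u : Fin p.2.length → {x // x ∈ vs q b}) (v : Fin p.2.length → {x // x ∈ vs q c}),
      Sim (arcOn (vs q b) (ar q b)) (arcOn (vs q c) (ar q c)) u v →
      (toL b u, toL c v) ∈ (stp p q)^[n] (r0 p q) := by
  induction n with
  | zero => exact fun u v hs => mem_r0.2 ⟨⟨toL_mem h b u, toL_mem h c v⟩, (aty_iff u v).2 hs.at⟩
  | succ n ih =>
    intro u v hs
    rw [iterate_succ_apply']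
    refine mem_stp.2 ⟨ih u v hs, (sig_iff h _ u v).2 fun i t _ => ?_⟩
    obtain ⟨e, he⟩ := hs.step i
    have hE := eqv_iter (p := p) (q := q) n
    exact Nat.card_congr (e.subtypeEquiv fun w => ⟨fun h1 => hE.trans _ _ _ h1 (ih _ _ (he w)),
      fun h1 => hE.trans _ _ _ h1 (hE.symm _ _ (ih _ _ (he w)))⟩)

theorem mem_rr (h : Ok p q) {b c : Bool} (u : Fin p.2.length → {x // x ∈ vs q b})
    (v : Fin p.2.length → {x // x ∈ vs q c}) : (toL b u, toL c v) ∈ rr p q ↔
      Sim (arcOn (vs q b) (ar q b)) (arcOn (vs q c) (ar q c)) u v := by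
  refine ⟨fun h1 => ⟨fun u v => (toL b u, toL c v) ∈ rr p q, fun u v h1 => ?_, h1⟩,
    mem_iter h _ u v⟩
  have hE : Eqv p q (rr p q) := eqv_iter _
  have hf : stp p q (rr p q) = rr p q :=
    fix_iter (stp p q) (fun _ => List.filter_sublist) _ _ le_rfl
  refine ⟨(aty_iff u v).1 (hE.mem _ _ h1).2, fun i => ?_⟩
  have h2 := (sig_iff h _ u v).1 (mem_stp.1 (hf.symm ▸ h1)).2 i
  exact exists_equiv (fun w => toL b (update u i w)) (fun w => toL c (update v i w))
    (fun x y => (x, y) ∈ rr p q) hE.symm hE.trans (fun w => hE.refl _ (toL_mem h b _))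
    (fun w => hE.refl _ (toL_mem h c _)) (fun x hx => h2 x (hE.mem _ _ hx).1)

theorem padL_eq (b : Bool) {V : List ℕ} (a : {x // x ∈ V}) (l : List {x // x ∈ V}) :
    (b, padL p ((a :: l).map Subtype.val)) = toL b (tup p.2.length a l) := by
  refine Prod.ext rfl (List.ext_getElem (by simp [toL, padL, ix]) fun j h1 h2 => ?_)
  simp only [padL, ix, toL, List.getElem_map, List.getElem_range, List.getElem_ofFn, tup]
  exact List.getD_map (a :: l) a Subtype.val

theorem cls_iff (h : Ok p q) {b c : Bool} (a : {x // x ∈ vs q b}) (l : List {x // x ∈ vs q b})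
    (a' : {x // x ∈ vs q c}) (l' : List {x // x ∈ vs q c}) :
    cls (p, q, b, (a :: l).map Subtype.val) = cls (p, q, c, (a' :: l').map Subtype.val) ↔
      Sim (arcOn (vs q b) (ar q b)) (arcOn (vs q c) (ar q c)) (tup p.2.length a l)
        (tup p.2.length a' l') := by
  have hE : Eqv p q (rr p q) := eqv_iter _
  rw [← mem_rr h]
  simp only [cls, padL_eq]
  have hu := toL_mem h b (tup p.2.length a l)
  have hv := toL_mem h c (tup p.2.length a' l')
  generalize toL b (tup p.2.length a l) = u at hu ⊢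
  generalize toL c (tup p.2.length a' l') = v at hv ⊢
  constructor
  · intro e
    have h1 : (tt p q).findIdx (fun t => (rr p q).contains (t, u)) < (tt p q).length :=
      List.findIdx_lt_length_of_exists ⟨u, hu, List.contains_iff_mem.2 (hE.refl u hu)⟩
    have h2 := List.findIdx_getElem (w := h1)
    have h3 := List.findIdx_getElem (w := e ▸ h1)
    simp only [← e] at h3
    exact hE.trans _ _ _ (hE.symm _ _ (List.contains_iff_mem.1 h2)) (List.contains_iff_mem.1 h3)
  · intro e
    congr 1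
    funext t
    rw [Bool.eq_iff_iff, List.contains_iff_mem, List.contains_iff_mem]
    exact ⟨fun h1 => hE.trans _ _ _ h1 e, fun h1 => hE.trans _ _ _ h1 (hE.symm _ _ e)⟩

theorem ok_of {A B : List ℕ} (E F : List (ℕ × ℕ)) (h : WLPre p A B) : Ok p (A, E, B, F) := by
  have h1 : A.length ^ p.2.length ≤ p.1.length :=
    (Nat.pow_le_pow_left (Nat.le_succ _) _).trans h.big
  refine ⟨fun b => ?_, fun b => ?_⟩ <;> cases b
  exacts [h.na, h.nb, h1, h.len ▸ h1]

end Pool.Agent.P.MP_f1a348_lc.TO.WL
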