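import Pool.Agent.P.MP_f1a348_lc.TO.WIface
import Pool.Agent.P.MP_f1a348_lc.TO.WProg

/-! Step WLX. -/

set_option autoImplicit false
set_option linter.unusedSectionVars false

namespace Pool.Agent.P.MP_f1a348_lc.TO

open Pool.Agent.Lib.Helper47 Pool.Agent.P.MP_f1a348_lc.GI

namespace WL

theorem cls_ff {p : Par} {A B : List ℕ} (E F : List (ℕ × ℕ)) (h : WLPre p A B) (a : {x // x ∈ A})
    (l : List {x // x ∈ A}) (a' : {x // x ∈ A}) (l' : List {x // x ∈ A}) :
    cls (p, (A, E, B, F), false, (a :: l).map Subtype.val) =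
        cls (p, (A, E, B, F), false, (a' :: l').map Subtype.val) ↔
      Sim (arcOn A E) (arcOn A E) (tup p.2.length a l) (tup p.2.length a' l') :=
  cls_iff (b := false) (c := false) (ok_of E F h) a l a' l'

theorem cls_ft {p : Par} {A B : List ℕ} (E F : List (ℕ × ℕ)) (h : WLPre p A B) (a : {x // x ∈ A})
    (l : List {x // x ∈ A}) (a' : {x // x ∈ B}) (l' : List {x // x ∈ B}) :
    cls (p, (A, E, B, F), false, (a :: l).map Subtype.val) =
        cls (p, (A, E, B, F), true, (a' :: l').map Subtype.val) ↔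
      Sim (arcOn A E) (arcOn B F) (tup p.2.length a l) (tup p.2.length a' l') :=
  cls_iff (b := false) (c := true) (ok_of E F h) a l a' l'

theorem cls_one {p : Par} {A B : List ℕ} (E F : List (ℕ × ℕ)) (h : WLPre p A B)
    (a a' : {x // x ∈ A}) :
    cls (p, (A, E, B, F), false, [a.1]) = cls (p, (A, E, B, F), false, [a'.1]) ↔
      Sim (arcOn A E) (arcOn A E) (fun _ : Fin p.2.length => a) (fun _ => a') := by
  rw [← tup_nil, ← tup_nil]
  exact cls_ff E F h a [] a' []

end WL

open WL in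
theorem p_WLX :
    S_WLX := by
  refine ⟨cls, pt_cls, ?_, ?_, ?_, ?_⟩
  · intro p A E B F φ h hφ l hl h1 _
    lift l to List {x // x ∈ A} using hl
    obtain ⟨a, l, rfl⟩ := List.exists_cons_of_length_pos (l := l) (by rwa [List.length_map] at h1)
    let e : {x // x ∈ A} ≃ {x // x ∈ B} := hφ.bij.equiv φ
    have h2 : ((a :: l).map Subtype.val).map φ = (e a :: l.map e).map Subtype.val := by
      rw [← List.map_cons, List.map_map, List.map_map]; rfl
    rw [h2, cls_ft E F h, ← comp_tup]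
    exact Sim.of_iso e (fun x y => hφ.arc _ x.2 _ y.2) _
  · intro p A E B F h hT
    have hk : 2 ≤ p.2.length := le_trans (by norm_num) h.lev
    refine ⟨sys (arcOn A E) hk (fun a b hab => ?_), fun l l' h1 h2 h3 => ?_,
      fun a b f hf => Loc.arc hk hf⟩
    · have := hT _ a.2 _ b.2
      simpa [arcOn, Subtype.val_inj, hab] using this
    · obtain ⟨a, l, rfl⟩ := List.exists_cons_of_length_pos (l := l) h2
      obtain ⟨a', l', rfl⟩ := List.exists_cons_of_length_pos (l := l') (h1 ▸ h2)
      rw [cls_ff E F h]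
      exact sim_tup_iff h3 h1
  · intro p A E B F C B' F' c h h' hC x hx y hy
    let ι : {x // x ∈ C} → {x // x ∈ A} := fun z => ⟨z.1, ((hC _).1 z.2).1⟩
    refine (cls_one E F' h' ⟨x, hx⟩ ⟨y, hy⟩).2 (Sim.restrict (r := arcOn A E) ι
      (fun z z' e => Subtype.ext (congrArg Subtype.val e :)) (fun _ _ => Iff.rfl) ?_ ?_)
    · rintro _ w hs ⟨z, rfl⟩
      exact ⟨⟨w.1, (hC _).2 ⟨w.2, ((cls_one E F h _ _).2 hs).symm.trans ((hC _).1 z.2).2⟩⟩, rfl⟩
    · exact (cls_one E F h (ι ⟨x, hx⟩) (ι ⟨y, hy⟩)).1 (((hC _).1 hx).2.trans ((hC _).1 hy).2.symm)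
  · intro p A E B F b l h
    refine List.findIdx_le_length.trans ?_
    have h1 := length_tuples_le p.1 A p.2
    have h2 := length_tuples_le p.1 B p.2
    have h3 : A.length ^ p.2.length ≤ (A.length + 1) ^ p.2.length :=
      Nat.pow_le_pow_left (Nat.le_succ _) _
    rw [← h.len] at h2
    simp only [tt, List.length_append, List.length_map]
    omega

end Pool.Agent.P.MP_f1a348_lc.TO
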