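import Pool.Agent.P.MP_f1a348_lc.TO.AIface

section

/-! Step AB1. -/

set_option autoImplicit false
set_option linter.unusedSectionVars false

namespace Pool.Agent.P.MP_f1a348_lc.TO

open Equiv Finset Filter
open scoped Classical

theorem p_AB1 (hAGEO : S_AGEO) (hAMALG : S_AMALG) :
    S_AB1 := by
  intro P s
  filter_upwards [hAGEO P (s + 2), hAMALG P (s + 2)] with G h hA
  intro S S' a a' x y y' H hS hc hH hP qx qy hx hy hy' qq e
  have c1 := card_insert_le x S'
  have c2 := card_insert_le y S'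
  have c3 := card_insert_le x (insert y S')
  have n1 : x ∉ G.acl (insert y S') := h.toPre.nexch (by omega) hx hy
  have n2 : y ∉ G.acl S' := h.toPre.nmono (subset_insert x S') (by omega) hy
  obtain ⟨z, z1, z2⟩ := h.qav (by omega) n2 (insert y S') (by omega)
  obtain ⟨ya, a1, a2, a3⟩ := hA S' (insert y S') (insert x (insert y S')) x y z
    (subset_insert _ _) (by omega) (by omega) z1 n1 hy z2
  obtain ⟨yb, b1, b2, b3⟩ := hA S' (insert y S') (insert x (insert y S')) x y' z
    (subset_insert _ _) (by omega) (by omega) (qq.symm.trans z1) n1 hy' z2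
  have s1 : S ⊆ insert x S' := hS.trans (subset_insert _ _)
  have e1 := h.qe2 s1 (by omega) (mem_insert_self x S') a2
  have e2 := h.qe2 s1 (by omega) (mem_insert_self x S') b2
  obtain ⟨f, f1, f2, f3⟩ := hP (insert y S') x x ya yb (hS.trans (subset_insert _ _)) (by omega) qx
    (qy.trans (h.qd s1 (by omega) a2)) (Ctx.Q.refl _ _) (a3.symm.trans b3) n1 a1 b1
    ((e1.symm.trans e).trans e2)
  have q1 := h.q_tr (S' := insert x S') f1.1
    (insert_subset (by simp) ((subset_insert _ _).trans subset_union_left)) (by simp) (by simp)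
    (fun w hw => ⟨w, hw, by
      rcases mem_insert.1 hw with rfl | hw
      · exact f2
      · exact f1.2 w (mem_insert_of_mem hw)⟩) (by omega) a2.symm
  rw [f3, f1.2 y (mem_insert_self _ _)] at q1
  exact q1.symm.trans b2.symm

end Pool.Agent.P.MP_f1a348_lc.TO

end

section

/-! Step ACC. -/

set_option autoImplicit false
set_option linter.unusedSectionVars false

namespace Pool.Agent.P.MP_f1a348_lc.TO

open Equiv Finset Filter
open scoped Classical

theorem p_ACC (hAGEO : S_AGEO) (hAB1 : S_AB1) :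
    S_ACC := by
  intro P s
  filter_upwards [hAGEO P (3 * s + 9), hAB1 P s] with Γ h hB
  intro q H S c u v hH hs hP hu hv iu iv hE
  have ci : ∀ (J : Finset (Fin q)) (w : Fin q → Γ.Y), (J.image w).card ≤ q := fun J w =>
    card_image_le.trans (by simpa using card_le_univ J)
  have cu : ∀ (J : Finset (Fin q)) (w : Fin q → Γ.Y), (S ∪ J.image w).card ≤ S.card + q :=
    fun J w => (card_union_le _ _).trans (Nat.add_le_add_left (ci J w) _)
  have gen : ∀ (w : Fin q → Γ.Y), Γ.IndF S w → ∀ (J : Finset (Fin q)) (j : Fin q), j ∉ J →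
      w j ∉ Γ.acl (S ∪ J.image w) := fun w iw J j hj =>
    h.toPre.nmono (union_subset_union_right (image_subset_image fun i hi =>
      mem_erase.2 ⟨fun e : i = j => hj (e ▸ hi), mem_univ _⟩))
      (by have := cu (univ.erase j) w; omega) (iw j)
  have main : ∀ J : Finset (Fin q), ∃ f : Perm Γ.Y, Γ.SL S (J.image u) f ∧
      ∀ i ∈ J, f (u i) = v i := by
    intro J
    induction J using Finset.induction_on with
    | empty => exact ⟨1, Ctx.SL.one _ _, by simp⟩
    | insert j J hj ih =>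
      obtain ⟨f, hf, hfu⟩ := ih
      obtain ⟨g, hgf, hg⟩ := h.sext {u j} (by omega) (by have := ci J u; omega)
        (by rw [card_singleton]; omega) hf
      have hgu : ∀ i ∈ J, g (u i) = v i := fun i hi => by
        rw [hgf _ (mem_union_right _ (mem_image_of_mem _ hi)), hfu i hi]
      have q1 : Γ.Q S (c j) (g (u j)) := (hu j).trans (h.pres (by omega) hg (by simp))
      have q2 : Γ.Q S (g (u j)) (v j) := q1.symm.trans (hv j)
      have gy : g (u j) ∉ Γ.acl (S ∪ J.image v) := by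
        refine h.toPre.nacl_tr hg.aut.1 (S := S ∪ J.image u)
          (union_subset_union_right subset_union_left) (by simp) (fun y hy => ?_)
          (by have := cu J u; omega) (gen u iu J j hj)
        rcases mem_union.1 hy with hy | hy
        · exact ⟨y, mem_union_left _ hy, hg.fix y hy⟩
        · obtain ⟨i, hi, rfl⟩ := mem_image.1 hy
          exact ⟨u i, mem_union_right _ (mem_image_of_mem _ hi), hgu i hi⟩
      have inner : ∀ J' : Finset (Fin q), J' ⊆ J → Γ.Q (S ∪ J'.image v) (g (u j)) (v j) := by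
        intro J'
        induction J' using Finset.induction_on with
        | empty => intro _; simpa using q2
        | insert i J' hi ih' =>
          intro hJ
          have hiJ : i ∈ J := hJ (mem_insert_self _ _)
          have hij : i ≠ j := fun e => hj (e ▸ hiJ)
          have sub : insert (v i) (S ∪ J'.image v) ⊆ S ∪ J.image v := by
            rw [← union_insert, ← image_insert]
            exact union_subset_union_right (image_subset_image hJ)
          have e2 : Γ.G.E2 S (u i) (u j) (g (u i)) (g (u j)) :=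
            Sys.E2.of hg.aut
              (mem_union_right _ (mem_union_left _ (mem_image_of_mem _ hiJ))) (by simp)
          rw [hgu i hiJ] at e2
          have := hB S (S ∪ J'.image v) (c i) (c j) (v i) (g (u j)) (v j) H subset_union_left
            (by have := cu J' v; omega) hs (hP i j hij) (hv i) q1 (gen v iv J' i hi)
            (h.toPre.nmono sub (by have := cu J v; omega) gy)
            (h.toPre.nmono sub (by have := cu J v; omega) (gen v iv J j hj))
            (ih' ((subset_insert _ _).trans hJ)) (e2.symm.trans (hE i j hij))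
          rwa [image_insert, union_insert]
      obtain ⟨t, ht, hty⟩ := h.transfer (by have := cu J v; omega) (inner J subset_rfl)
      have ht' : Γ.SL S (J.image v ∪ {g (u j)}) t :=
        h.sbase subset_union_left (by have := cu J v; omega) (by rw [card_singleton]; omega) ht
          (union_subset_union_left subset_union_right)
      have cs : ∀ (w : Fin q → Γ.Y) (z : Γ.Y), (J.image w ∪ {z}).card ≤ q + 1 := fun w z =>
        (card_union_le _ _).trans (by rw [card_singleton]; have := ci J w; omega)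
      have hm : Γ.SL S (J.image u ∪ {u j}) (t * g) := by
        refine h.smul (by omega) (by have := cs u (u j); omega)
          (by have := cs v (g (u j)); omega) hg ht' fun x hx => ?_
        rcases mem_union.1 hx with hx | hx
        · obtain ⟨i, hi, rfl⟩ := mem_image.1 hx
          rw [hgu i hi]
          exact mem_union_right _ (mem_union_left _ (mem_image_of_mem _ hi))
        · rw [mem_singleton.1 hx]; simp
      refine ⟨t * g, hm.mono ?_, fun i hi => ?_⟩
      · rw [image_insert]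
        exact insert_subset (by simp) (subset_union_left.trans subset_union_right)
      · rcases mem_insert.1 hi with rfl | hi
        · exact hty
        · rw [Perm.mul_apply, hgu i hi]
          exact ht.fix _ (mem_union_right _ (mem_image_of_mem _ hi))
  obtain ⟨f, h1, h2⟩ := main univ
  exact ⟨f, h1, fun i => h2 i (mem_univ i)⟩

end Pool.Agent.P.MP_f1a348_lc.TO

end

section

/-! Step AFA. -/

set_option autoImplicit false
set_option linter.unusedSectionVars false

namespace Pool.Agent.P.MP_f1a348_lc.TO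

open Equiv Finset Filter
open scoped Classical

theorem p_AFA :
    S_AFA := by
  intro P s
  filter_upwards [ev_k P (s + 2), ev_n P (P.K ^ (s + 2) * (P.C s + 1))] with Γ hk hn
  have hK : 0 < P.K := by have := P.hK; omega
  have hcard : ∀ {S : Finset Γ.Y}, S.card ≤ s → (Γ.acl S).card ≤ P.C s := fun {S} hc =>
    (Γ.F1 S (by omega)).trans (P.hC hc)
  refine ⟨by omega, hcard, fun {S w} hc hw => ?_, fun {S x} hc hx => ?_, fun {S a f} hc hf => ?_,
    fun {A B} hA hB => ?_⟩
  · rw [Γ.mem_acl, not_le] at hw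
    exact hw.trans_le (Nat.mul_le_mul_right _ (Nat.pow_le_pow_right hK (by omega)))
  · have h1 : (Γ.G.atom S x).card ≤ 1 :=
      card_le_one.2 fun a ha b hb => by
        rw [(Sys.mem_atom.1 ha).eq_of_mem hx, (Sys.mem_atom.1 hb).eq_of_mem hx]
    rw [Γ.mem_acl]
    exact (Nat.mul_le_mul (Nat.pow_le_pow_right hK (by omega)) (h1.trans (by omega))).trans hn
  · rw [Γ.mem_acl, Γ.mem_acl, Sys.card_atom_tr hf (by omega), card_image_of_injective _ f.injective]
  · by_contra hcon
    push Not at hcon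
    have h1 : A.card ≤ P.C s + 1 := ((card_le_card hcon).trans (hcard hB)).trans (by omega)
    exact absurd (hA.trans_le (Nat.mul_le_mul_left _ h1)) (not_lt.2 hn)

end Pool.Agent.P.MP_f1a348_lc.TO

end

section

/-! Step AFB. -/

set_option autoImplicit false
set_option linter.unusedSectionVars false

namespace Pool.Agent.P.MP_f1a348_lc.TO

open Equiv Finset Filter
open scoped Classical

theorem p_AFB (hAFA : S_AFA) :
    S_AFB := by
  intro P s
  filter_upwards [hAFA P (2 * s + 2),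
    ev_n P (P.K ^ (2 * s + 2 + 1) * (P.C (2 * s + 2) * P.C (2 * s + 2) + P.C (2 * s + 2)))]
    with G h hn
  have hroom := h.room
  have small : ∀ (S : Finset G.Y) (w : G.Y), S.card ≤ 2 * s + 2 →
      (G.G.atom S w).card ≤ P.C (2 * s + 2) * P.C (2 * s + 2) + P.C (2 * s + 2) →
      w ∈ G.acl S := fun S w h1 h2 =>
    G.mem_acl.2 ((Nat.mul_le_mul (Nat.pow_le_pow_right (by have := P.hK; omega) (by omega))
      h2).trans hn)
  have he : ∀ (S : Finset G.Y) (w z : G.Y), w ∈ G.acl S → G.G.E1 S w z → z ∈ G.acl S :=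
    fun S w z h1 h2 => by
      rw [G.mem_acl] at h1 ⊢
      rwa [Sys.atom_eq h2]
  have mono : ∀ (S S' : Finset G.Y) (w : G.Y), S ⊆ S' → S'.card ≤ 2 * s + 2 → w ∈ G.acl S →
      w ∈ G.acl S' := fun S S' w h1 h2 h3 => by
    refine small S' w h2 (le_trans ?_ (Nat.le_add_left _ _))
    refine le_trans (card_le_card fun z hz => ?_) (h.card ((card_le_card h1).trans h2))
    exact he S w z h3 ((Sys.mem_atom.1 hz).base h1)
  have one : ∀ (S : Finset G.Y) (a b : G.Y), S.card + 2 ≤ 2 * s + 2 → b ∈ G.acl S →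
      a ∈ G.acl (insert b S) → a ∈ G.acl S := fun S a b h1 h2 h3 => by
    refine small S a (by omega) (le_trans ?_ (Nat.le_add_right _ _))
    have hsub : G.G.atom S a ⊆ (G.acl S).biUnion fun b' => G.acl (insert b' S) := by
      intro a' ha'
      obtain ⟨f, hf, rfl⟩ := Sys.mem_atom.1 ha'
      obtain ⟨g, hg1, hg2⟩ := hf.ext {b} (by simp only [card_singleton]; omega)
      have hc := card_insert_le b S
      refine mem_biUnion.2 ⟨g b, he S b _ h2 (Sys.E1.of hg2 (by simp)), ?_⟩
      have h4 := (h.tr (S := insert b S) (a := a) (f := g) (by omega)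
        (Sys.mono hg2.1 (by intro z hz; simp only [mem_insert, mem_union, mem_singleton] at hz ⊢
                            tauto))).2 h3
      rwa [image_insert, Sys.image_fix hg2.2, hg1 a (by simp)] at h4
    refine (card_le_card hsub).trans (card_biUnion_le.trans ?_)
    refine (sum_le_card_nsmul _ _ (P.C (2 * s + 2)) fun b' _ => ?_).trans ?_
    · exact h.card ((card_insert_le _ _).trans (by omega))
    · rw [smul_eq_mul]
      exact Nat.mul_le_mul_right _ (h.card (by omega))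
  have many : ∀ (S B : Finset G.Y) (a : G.Y), S.card + B.card + 1 ≤ 2 * s + 2 →
      (∀ b ∈ B, b ∈ G.acl S) → a ∈ G.acl (S ∪ B) → a ∈ G.acl S := by
    intro S B a
    induction B using Finset.induction_on with
    | empty => intro _ _ h3; simpa using h3
    | insert b B hb ih =>
      intro h1 h2 h3
      rw [card_insert_of_notMem hb] at h1
      have hc := card_union_le S B
      rw [union_insert] at h3
      exact ih (by omega) (fun z hz => h2 z (mem_insert_of_mem hz))
        (one _ a b (by omega) (mono S _ b subset_union_left (by omega)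
          (h2 b (mem_insert_self _ _))) h3)
  refine ⟨fun {S S' a} h1 h2 h3 h4 => ?_⟩
  have hc := card_union_le S S'
  exact many S S' a (by omega) h3 (mono S' _ a subset_union_right (by omega) h4)

end Pool.Agent.P.MP_f1a348_lc.TO

end

section

/-! Step AFEW1. -/

set_option autoImplicit false
set_option linter.unusedSectionVars false

namespace Pool.Agent.P.MP_f1a348_lc.TO

open Equiv Finset Filter
open scoped Classical

theorem p_AFEW1 (hAGEO : S_AGEO) (hAL5 : S_AL5) :
    S_AFEW1 := by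
  intro P s
  filter_upwards [hAL5 P s] with G h S x d hS hx
  obtain ⟨V, h1, h2, h3⟩ := lin_reps (Sys.E1.equiv (Γ := G.G) (insert x S))
    (fil fun y => G.Q S d y ∧ y ∉ G.acl (insert x S)) (G.cls S d) (2 * P.K ^ 2)
    (card_pos.1 (Ctx.cls_pos S d)) fun y hy => by
      obtain ⟨y1, y2⟩ := mem_fil.1 hy
      have := h S x y hS hx y2
      rw [Ctx.cls_eq y1] at this
      refine this.trans (Nat.mul_le_mul_left _ (card_le_card fun z hz => ?_))
      rw [mem_fil] at hz
      exact mem_filter.2 hz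
  exact ⟨V, h2, fun v hv => by simpa only [mem_fil] using h1 hv,
    fun y y1 y2 => h3 y (mem_fil.2 ⟨y1, y2⟩)⟩

end Pool.Agent.P.MP_f1a348_lc.TO

end

section

/-! Step AFL. -/

set_option autoImplicit false
set_option linter.unusedSectionVars false

namespace Pool.Agent.P.MP_f1a348_lc.TO

open Equiv Finset Filter
open scoped Classical

theorem afl_lrg {P : APar} {Γ : Ctx P} {s : ℕ} (h : Γ.Pre (s + 1)) (hM : Γ.Meet s) (hn : 0 < Γ.n)
    {S : Finset Γ.Y} (hS : S.card ≤ s) : Γ.Lrg S (Γ.Q S) := by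
  obtain ⟨E, ⟨e1, e2⟩, hE⟩ := (measure fun E : Γ.Y → Γ.Y → Prop =>
      (fil fun p : Γ.Y × Γ.Y => E p.1 p.2).card).wf.has_min {E | Γ.Dfn S E ∧ Γ.Lrg S E}
    ⟨fun _ _ => True, ⟨⟨fun _ => trivial, id, fun _ => id⟩, fun _ _ _ _ => rfl⟩, fun x _ =>
      (h.exists_nacl hn ((card_insert_le _ _).trans (by omega))).imp fun _ hy => ⟨trivial, hy⟩⟩
  intro x hx
  obtain ⟨y, h1, h2⟩ := e2 x hx
  refine ⟨y, fun E' d1 d2 => ?_, h2⟩
  have h3 := hE (fun x y => E x y ∧ E' x y)
    ⟨⟨⟨fun x => ⟨e1.1.refl x, d1.1.refl x⟩, fun a => ⟨e1.1.symm a.1, d1.1.symm a.2⟩,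
      fun a b => ⟨e1.1.trans a.1 b.1, d1.1.trans a.2 b.2⟩⟩,
      fun f x y hf => by simp only [e1.2 f x y hf, d1.2 f x y hf]⟩, hM S E E' hS e1 e2 d1 d2⟩
  have h4 := eq_of_subset_of_card_le
    (show (fil fun p : Γ.Y × Γ.Y => E p.1 p.2 ∧ E' p.1 p.2) ⊆ fil fun p => E p.1 p.2 from
      fun p hp => mem_fil.2 (mem_fil.1 hp).1) (not_lt.1 h3)
  exact (mem_fil.1 (h4.ge (mem_fil.2 h1 : (x, y) ∈ _))).2

theorem p_AFL (hAPRE : S_APRE) (hAFQ : S_AFQ) (hAMEET : S_AMEET) :
    S_AFL := by
  intro P s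
  filter_upwards [hAPRE P s, hAPRE P (s + 1), hAMEET P s, ev_n P 1] with Γ h0 h hM hn
  have qlg : ∀ {S : Finset Γ.Y} {x : Γ.Y}, S.card ≤ s → x ∉ Γ.acl S → Γ.Lg s (Γ.cls S x) := by
    intro S x hS hx
    obtain ⟨y, h1, h2⟩ := afl_lrg h hM hn hS x hx
    rw [Ctx.mem_acl, not_le] at h2
    refine h2.trans_le (Nat.mul_le_mul (Nat.pow_le_pow_right (by have := P.hK; omega)
      (by have := card_insert_le x S; omega)) (card_le_card fun z hz => ?_))
    rw [Ctx.mem_cls, (Ctx.Q.inv2 S).e2 (Sys.E2_iff.2 (Sys.mem_atom.1 hz))]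
    exact h1
  refine ⟨qlg, fun {S S' x y} hS hc e => e _ ⟨Ctx.Q.equiv S, (Ctx.Q.inv2 S).base hS⟩ fun z hz => ?_,
    fun {S} hS => ?_⟩
  · obtain ⟨u, h1, h2⟩ := h.avoid ((qlg ((card_le_card hS).trans hc) (h0.nmono hS hc hz)).up
      (Nat.le_succ s)) ((card_insert_le z S').trans (Nat.succ_le_succ hc))
    exact ⟨u, Ctx.mem_cls.1 h1, h2⟩
  · obtain ⟨V, h1, h2, h3⟩ := lin_reps (Ctx.Q.equiv S) (Γ.rep S \ Γ.acl S) univ (P.K ^ (s + 2))
      (card_pos.1 hn) fun y hy => by
        exact (qlg hS (mem_sdiff.1 hy).2).le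
    refine (card_le_card fun r hr => ?_).trans
      ((card_union_le (Γ.acl S) V).trans (Nat.add_le_add (h0.card hS) h2))
    by_cases h4 : r ∈ Γ.acl S
    · exact mem_union_left _ h4
    · obtain ⟨v, hv, e⟩ := h3 r (mem_sdiff.2 ⟨hr, h4⟩)
      exact mem_union_right _ (Γ.rep_inj (mem_sdiff.1 (h1 hv)).1 hr e ▸ hv)

end Pool.Agent.P.MP_f1a348_lc.TO

end

section

/-! Step AIND2. -/

set_option autoImplicit false
set_option linter.unusedSectionVars false

namespace Pool.Agent.P.MP_f1a348_lc.TO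

open Equiv Finset Filter
open scoped Classical

theorem p_AIND2 (hAGEO : S_AGEO) (hAI2A : S_AI2A) (hAI2B : S_AI2B) :
    S_AIND2 := by
  intro P s
  filter_upwards [hAGEO P (s + 3), hAI2A P s, hAI2B P s, ev_n P 1] with Γ h h1 h2 hn
  intro θ θ' hθ hθ' hK hS S S' d b b' R H hs hc hd hR hb hb' hH hH1
  have cS : S.card ≤ s := (card_le_card hs).trans hc
  have i1 : Γ.G.Inv3 S' (fun b b' y => ind (Γ.Q S d y) * (Γ.cen S (R b b') y * H y)) :=
    fun f x y z hf => by
      have e1 := (Ctx.Q.inv2 S).app hf hs (mem_union_left _ hd) (by simp : z ∈ _)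
      have e2 := (h.cen3 (by omega) hR).app hf hs (by simp : x ∈ _) (by simp : y ∈ _)
        (by simp : z ∈ _)
      have e3 := hH.app hf subset_rfl (by simp : z ∈ _)
      rw [hf.2 d hd] at e1
      simp only [e1, e2, e3]
  have i2 : Γ.G.Inv2 S' (fun b b' => (∑ y ∈ Γ.cls S d, Γ.cen S (R b b') y * H y) ^ 2) :=
    fun f x y hf => by
      have := i1.sum (by have := h.room; omega) f x y hf
      simp only [sum_ind_mul] at this
      exact congrArg (· ^ 2) this
  have a1 := h1 θ hθ hS S d R H cS hR hH1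
  have a2 := h2 S' b b' _ hc i2 (fun _ _ => sq_nonneg _) hb hb'
  have n0 : (0 : ℝ) < Γ.n := by exact_mod_cast hn
  have k0 := pow_pos P.K_pos (2 * s + 5)
  refine abs_le_of_sq_le_sq' ?_ (by positivity) |> abs_le.2
  refine le_of_mul_le_mul_left ?_ (pow_pos n0 2)
  calc _ ≤ _ := a2
    _ ≤ (P.K : ℝ) ^ (2 * s + 5) * (θ * (Γ.n : ℝ) ^ 4) := mul_le_mul_of_nonneg_left a1 k0.le
    _ = θ * (P.K : ℝ) ^ (2 * s + 5) * (Γ.n : ℝ) ^ 4 := by ring
    _ ≤ θ' ^ 2 * (Γ.n : ℝ) ^ 4 := mul_le_mul_of_nonneg_right hK (by positivity)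
    _ = _ := by ring

end Pool.Agent.P.MP_f1a348_lc.TO

end

section

/-! Step AL5. -/

set_option autoImplicit false
set_option linter.unusedSectionVars false

namespace Pool.Agent.P.MP_f1a348_lc.TO

open Equiv Finset Filter
open scoped Classical

theorem AL5_num {K g : ℝ} {l : ℕ} (hl : 1 ≤ l) (hg : 0 ≤ g)
    (h : 1 / 2 < (K ^ 2 * g) ^ l) : 1 < 2 * K ^ 2 * g := by
  by_contra h1
  have h2 : 2 * (K ^ 2 * g) ≤ 1 := by linarith [not_lt.1 h1]
  have h0 : 0 ≤ K ^ 2 * g := by positivity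
  have h3 : (2 * (K ^ 2 * g)) ^ l ≤ 1 := pow_le_one₀ (by positivity) h2
  have h4 : (2 : ℝ) ^ 1 ≤ 2 ^ l := pow_le_pow_right₀ (by norm_num) hl
  have h5 : 0 ≤ (K ^ 2 * g) ^ l := by positivity
  rw [mul_pow] at h3
  nlinarith

theorem p_AL5 (hAGEO : S_AGEO) (hAIND0 : S_AIND0) (hAL5A : S_AL5A) :
    S_AL5 := by
  intro P s
  obtain ⟨l, hl⟩ : ∃ l, l = s + 2 := ⟨_, rfl⟩
  obtain ⟨t, ht⟩ : ∃ t, t = s + l + 1 := ⟨_, rfl⟩
  obtain ⟨de, hde⟩ : ∃ de, de = P.dl t := ⟨_, rfl⟩
  have hde0 : 0 < de := hde ▸ P.dl_pos t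
  have hK := P.K_pos
  have hl0 : (0 : ℝ) < l := by exact_mod_cast (by omega : 0 < l)
  obtain ⟨θ, hθ0, hθ1, hθ2⟩ : ∃ θ : ℝ, 0 < θ ∧ l * θ ≤ de ^ (l + 1) / 2 ∧
      l * θ * (P.K : ℝ) ^ (2 * l) ≤ 1 / 2 := by
    refine ⟨min (de ^ (l + 1) / 2 / l) (1 / 2 / (l * (P.K : ℝ) ^ (2 * l))),
      lt_min (by positivity) (by positivity), ?_, ?_⟩
    · have := min_le_left (de ^ (l + 1) / 2 / l) (1 / 2 / (l * (P.K : ℝ) ^ (2 * l)))
      rw [le_div_iff₀ hl0] at this
      linarith
    · have := min_le_right (de ^ (l + 1) / 2 / l) (1 / 2 / (l * (P.K : ℝ) ^ (2 * l)))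
      rw [le_div_iff₀ (by positivity)] at this
      linarith
  filter_upwards [hAGEO P t, hAIND0 P t θ hθ0, hAL5A P s l,
    ev_real P ((P.C t + 1) / (de ^ (l + 1) / 2))] with G h hI hA hn
  intro S x y hS hx hy
  rw [div_le_iff₀ (by positivity)] at hn
  have hC0 : (0 : ℝ) ≤ P.C t := by positivity
  have hp0 : 0 < de ^ (l + 1) := by positivity
  have hn0 : (0 : ℝ) < G.n := by
    by_contra h0
    have h1 : (G.n : ℝ) ≤ 0 := not_lt.1 h0
    nlinarith
  obtain ⟨B, H, -, hB, -, hinv, hH⟩ := hA θ hθ0.le (ht ▸ hI.2) S x y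
    (fun b z => G.G.E2 S b z x y) hS hx (Sys.inv2_E2 S x y)
  rw [← ht] at hB
  have hcell : (fil fun z => z ∈ G.cls S y ∧ G.G.E2 S x z x y) =
      fil fun z => z ∈ G.cls S y ∧ G.G.E1 (insert x S) y z := by
    ext z
    simp only [mem_fil, Sys.E2_iff]
    exact ⟨fun e => ⟨e.1, e.2.symm⟩, fun e => ⟨e.1, e.2.symm⟩⟩
  have hdm := Ctx.den_mul S (fun z => G.G.E2 S x z x y) y
  rw [hcell] at hdm
  obtain ⟨g, hg⟩ : ∃ g, g = G.den S (fun z => G.G.E2 S x z x y) y := ⟨_, rfl⟩
  have hg0 : 0 ≤ g := hg ▸ Ctx.den_nonneg _ _ _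
  have hg1 : g ≤ 1 := hg ▸ Ctx.den_le_one _ _ _
  rw [← hg] at hdm hH
  have hcx : (insert x S).card ≤ t := (card_insert_le _ _).trans (by omega)
  have hsub : G.cls (insert x S) y ⊆ fil fun z => z ∈ G.cls S y ∧ G.G.E1 (insert x S) y z := by
    intro z hz
    rw [Ctx.mem_cls] at hz
    exact mem_fil.2 ⟨Ctx.mem_cls.2 (h.qd (subset_insert _ _) hcx hz), h.qe1 hcx hz⟩
  have hlg := ((h.qlg hcx hy).mono hsub).real
  rw [← hde, ← hdm] at hlg
  obtain ⟨D, hD⟩ : ∃ D : ℝ, D = (G.cls S y).card := ⟨_, rfl⟩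
  have hDn : D ≤ G.n := by rw [hD]; exact_mod_cast card_le_univ _
  have hD0 : 0 < D := by rw [hD]; exact_mod_cast Ctx.cls_pos S y
  rw [← hD] at hdm hH hlg
  have hgde : de ≤ g := by
    by_contra h0
    have h1 : g < de := not_le.1 h0
    nlinarith
  have hlow : de ^ (l + 1) * G.n ≤ g ^ l * D := by
    obtain ⟨m, rfl⟩ : ∃ m, l = m + 1 := ⟨s + 1, hl⟩
    have h1 : de ^ m ≤ g ^ m := pow_le_pow_left₀ hde0.le hgde m
    have h2 : de ^ m * (de * G.n) ≤ g ^ m * (g * D) :=
      mul_le_mul h1 hlg.le (by positivity) (by positivity)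
    have h3 : de ^ (m + 1 + 1) * G.n ≤ de ^ m * (de * G.n) := by
      have h4 : de ≤ 1 := hde ▸ P.dl_le_one t
      have h5 : 0 ≤ de ^ m * (de * G.n) := by positivity
      calc de ^ (m + 1 + 1) * G.n = de * (de ^ m * (de * G.n)) := by ring
        _ ≤ _ := by nlinarith
    calc _ ≤ _ := h3
      _ ≤ _ := h2
      _ = _ := by ring
  rw [abs_le] at hH
  have hθn : l * θ * G.n ≤ de ^ (l + 1) / 2 * G.n := mul_le_mul_of_nonneg_right hθ1 hn0.le
  have hHC : P.C t < H.card := by
    have : (P.C t : ℝ) < H.card := by nlinarith [hH.1]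
    exact_mod_cast this
  obtain ⟨z, hz, hzB⟩ := exists_mem_notMem_of_card_lt_card ((h.card hB).trans_lt hHC)
  have hat : G.G.atom B z ⊆ H := fun w hw => by
    have := hinv.e1 (Sys.mem_atom.1 hw)
    exact this.mpr hz
  rw [Ctx.mem_acl, not_le] at hzB
  have h6 : G.n < P.K ^ (2 * l) * H.card :=
    hzB.trans_le (Nat.mul_le_mul (Nat.pow_le_pow_right (by have := P.hK; omega) (by omega))
      (card_le_card hat))
  have h7 : (G.n : ℝ) < (P.K : ℝ) ^ (2 * l) * H.card := by exact_mod_cast h6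
  have hKp : 0 < (P.K : ℝ) ^ (2 * l) := by positivity
  have hgl : 0 ≤ g ^ l := by positivity
  have h8 : (H.card : ℝ) ≤ g ^ l * G.n + l * θ * G.n := by
    have := mul_le_mul_of_nonneg_left hDn hgl
    linarith [hH.2]
  have h9 : 1 / 2 < ((P.K : ℝ) ^ 2 * g) ^ l := by
    rw [mul_pow, ← pow_mul]
    have h10 := mul_le_mul_of_nonneg_left h8 hKp.le
    have h11 := mul_le_mul_of_nonneg_right hθ2 hn0.le
    have h12 : 1 / 2 * (G.n : ℝ) < (P.K : ℝ) ^ (2 * l) * g ^ l * G.n := by nlinarith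
    exact lt_of_mul_lt_mul_right h12 hn0.le
  have h13 := AL5_num (by omega) hg0 h9
  have h14 : D ≤ 2 * (P.K : ℝ) ^ 2 * (g * D) := by nlinarith
  rw [hdm, hD] at h14
  exact_mod_cast h14

end Pool.Agent.P.MP_f1a348_lc.TO

end

section

/-! Step ALOW. -/

set_option autoImplicit false
set_option linter.unusedSectionVars false

namespace Pool.Agent.P.MP_f1a348_lc.TO

open Equiv Finset Filter
open scoped Classical

theorem ALOW_sq {ι Y : Type} [Fintype ι] [DecidableEq ι] [Fintype Y] (f : ι → Y → Y → ℝ) :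
    ∑ u : ι → Y, (∑ w, ∏ i, f i w (u i)) ^ 2 = ∑ w, ∑ w', ∏ i, ∑ x, f i w x * f i w' x := by
  simp only [pow_two, sum_mul_sum]
  rw [sum_comm]
  refine sum_congr rfl fun w _ => ?_
  rw [sum_comm]
  refine sum_congr rfl fun w' _ => ?_
  rw [prod_univ_sum, Fintype.piFinset_univ]
  exact sum_congr rfl fun u _ => prod_mul_distrib.symm

theorem p_ALOW (hAGEO : S_AGEO) (hAINDS : S_AINDS) (hAM1 : S_AM1) (hAM2 : S_AM2) :
    S_ALOW := by
  intro P s
  have d0 := P.dl_pos s
  have d1 := P.dl_le_one s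
  have e0 : 0 < (P.dl s ^ 2) ^ P.q / 2 := by positivity
  have e1 : (P.dl s ^ 2) ^ P.q ≤ 1 := pow_le_one₀ (by positivity) (pow_le_one₀ d0.le d1)
  refine ⟨P.dl s * ((P.dl s ^ 2) ^ P.q / 2), by positivity, ?_⟩
  filter_upwards [hAGEO P s, hAINDS P (s + 2) _ e0, hAM1 P s, hAM2 P s]
    with G h ⟨θ, t0, t1, t2, t3⟩ h1 h2 S a c H hH T
  have hr := T.room
  have n0 : (0 : ℝ) ≤ G.n := Nat.cast_nonneg _
  have t4 : G.n * θ ^ P.q ≤ (P.dl s ^ 2) ^ P.q / 2 := by
    refine le_trans (mul_le_mul_of_nonneg_left ?_ n0) t2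
    exact pow_le_pow_of_le_one t0 (by linarith) (Nat.le_succ _)
  have row : ∀ w, ind (G.Q S a w) * ((P.dl s ^ 2) ^ P.q / 2 * G.n ^ P.q) ≤
      ∑ w', ∏ i, G.MM S a (c i) w w' := fun w => by
    by_cases hw : G.Q S a w
    · have b0 : 0 ≤ (θ * G.n) ^ P.q := by positivity
      have key : ∀ w', (if w' = w then (P.dl s ^ 2 * G.n) ^ P.q else 0) - (θ * G.n) ^ P.q ≤
          ∏ i, G.MM S a (c i) w w' := fun w' => by
        split_ifs with e
        · have := prod_le_prod (s := univ) (f := fun _ : Fin P.q => P.dl s ^ 2 * G.n)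
            (fun _ _ => by positivity) fun i _ => (h2 S a c H hH T i w hw).1
          rw [prod_const, card_univ, Fintype.card_fin] at this
          rw [e]; linarith
        by_cases hw' : w' ∈ G.acl (insert w S)
        · have := prod_nonneg (s := univ) fun i _ => (h2 S a c H hH T i w hw).2 w' hw'
          linarith
        · have := prod_le_prod (s := univ) (g := fun _ : Fin P.q => θ * G.n)
            (fun _ _ => abs_nonneg _) fun i _ => h1 θ t0 t3 S a (c i) w w' (by omega)
              (h.toPre.nmono (subset_insert a S) ((card_insert_le _ _).trans (by omega)) (T.hc i))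
              hw'
          rw [prod_const, card_univ, Fintype.card_fin, ← abs_prod] at this
          linarith [neg_abs_le (∏ i, G.MM S a (c i) w w')]
      refine le_trans ?_ (sum_le_sum fun w' _ => key w')
      rw [sum_sub_distrib, sum_ite_eq', if_pos (mem_univ w), sum_const, card_univ, nsmul_eq_mul,
        ind_pos hw, mul_pow, mul_pow]
      have := mul_le_mul_of_nonneg_right t4 (pow_nonneg n0 P.q)
      linarith
    · rw [ind_neg hw, zero_mul]
      refine (sum_eq_zero fun w' _ => ?_).ge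
      refine prod_eq_zero (mem_univ ⟨0, by have := P.q_ge; omega⟩) (sum_eq_zero fun x _ => ?_)
      rw [Ctx.ff_eq_zero fun e => hw e.1, zero_mul]
  refine le_trans ?_ ((sum_le_sum fun w _ => row w).trans
    (ALOW_sq fun i => G.ff S a (c i)).ge)
  rw [← sum_mul, sum_ind]
  have := (h.qlg (by omega) T.ha).real
  calc _ = P.dl s * G.n * ((P.dl s ^ 2) ^ P.q / 2 * G.n ^ P.q) := by ring
    _ ≤ _ := mul_le_mul_of_nonneg_right this.le (by positivity)

end Pool.Agent.P.MP_f1a348_lc.TO

end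

section

/-! Step ANU2. -/

set_option autoImplicit false
set_option linter.unusedSectionVars false

namespace Pool.Agent.P.MP_f1a348_lc.TO

open Equiv Finset Filter
open scoped Classical

theorem p_ANU2 (hAGEO : S_AGEO) (hAUP : S_AUP) :
    S_ANU2 := by
  intro P s
  filter_upwards [hAUP P s] with G hU
  intro S S' x y x' y' hS hc hx hy qx qy
  set τ : Finset G.Y → G.Y × G.Y → Finset (G.Y × G.Y) :=
    fun T p => fil fun r : G.Y × G.Y => G.G.E2 T p.1 p.2 r.1 r.2 with hτ
  set g : Finset (G.Y × G.Y) → Finset (G.Y × G.Y) :=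
    fun t => fil fun r : G.Y × G.Y => ∃ p ∈ t, G.G.E2 S p.1 p.2 r.1 r.2 with hg
  have h1 : ∀ p, g (τ S' p) = τ S p := fun p => by
    ext r
    simp only [hg, hτ, mem_fil]
    exact ⟨fun ⟨p', a, b⟩ => (a.base hS).trans b, fun a => ⟨p, Sys.E2.refl _ _ _, a⟩⟩
  have h2 : ∀ p p' : G.Y × G.Y, G.G.E2 S p.1 p.2 p'.1 p'.2 → τ S p = τ S p' := fun p p' e => by
    ext r
    simp only [hτ, mem_fil]
    exact ⟨e.symm.trans, e.trans⟩
  set U' := (fil fun p : G.Y × G.Y =>
    G.Q S' x' p.1 ∧ G.Q S' y' p.2 ∧ p.2 ∉ G.acl (insert p.1 S')).image (τ S') with hU'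
  have h3 : G.nu S x y ≤ (U'.image g).card := by
    refine card_le_card fun t ht => ?_
    obtain ⟨p, hp, rfl⟩ := mem_image.1 ht
    obtain ⟨p1, p2, p3⟩ := mem_fil.1 hp
    obtain ⟨y'', a1, a2, a3⟩ := hU S S' p.1 p.2 x' y' hS hc hx hy (p1.symm.trans qx)
      (p2.symm.trans qy) p3
    refine mem_image.2 ⟨τ S' (x', y''),
      mem_image_of_mem _ (mem_fil.2 ⟨Ctx.Q.refl _ _, a1, a2⟩), ?_⟩
    rw [h1]
    exact (h2 p (x', y'') a3).symm
  refine ⟨h3.trans card_image_le, fun x'' y'' b1 b2 b3 b4 b5 b6 => ?_⟩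
  refine lt_of_le_of_lt h3 (lt_of_le_of_ne card_image_le fun e => b6 ?_)
  have m1 : τ S' (x', y') ∈ U' :=
    mem_image_of_mem _ (mem_fil.2 ⟨Ctx.Q.refl _ _, Ctx.Q.refl _ _, b3⟩)
  have m2 : τ S' (x'', y'') ∈ U' := mem_image_of_mem _ (mem_fil.2 ⟨b1, b2, b4⟩)
  have e2 : τ S' (x', y') = τ S' (x'', y'') :=
    card_image_iff.1 e (mem_coe.2 m1) (mem_coe.2 m2) (by
      rw [h1, h1]; exact h2 (x', y') (x'', y'') b5)
  have m3 : (x'', y'') ∈ τ S' (x'', y'') := mem_fil.2 (Sys.E2.refl _ _ _)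
  rw [← e2] at m3
  exact (mem_fil (p := fun r : G.Y × G.Y => G.G.E2 S' x' y' r.1 r.2)).1 m3

end Pool.Agent.P.MP_f1a348_lc.TO

end

section

/-! Step APRE. -/

set_option autoImplicit false
set_option linter.unusedSectionVars false

namespace Pool.Agent.P.MP_f1a348_lc.TO

open Equiv Finset Filter
open scoped Classical

theorem p_APRE (hAFA : S_AFA) (hAFB : S_AFB) (hAFC : S_AFC) :
    S_APRE := by
  intro P s
  filter_upwards [hAFA P s, hAFB P s, hAFC P s] with Γ h1 h2 h3
  exact ⟨h1, h2, h3⟩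

end Pool.Agent.P.MP_f1a348_lc.TO

end
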