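import Pool.Agent.P.MP_f1a348_lc.TO.CIface
import Pool.Agent.P.MP_f1a348_lc.TO.CBlk
import Pool.Agent.P.MP_f1a348_lc.TO.CBase

section

/-! Step BLK. -/

set_option autoImplicit false
set_option linter.unusedSectionVars false

namespace Pool.Agent.P.MP_f1a348_lc.TO

open Equiv Finset
open scoped Classical

section Wrap

variable {G X : Type} [Group G] [MulAction G X]

/-- The action of `H` on its orbit. -/
def wbRho (H : Subgroup G) (x0 : X) : H →* Perm (ob H x0) where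
  toFun h :=
    { toFun := fun y => ⟨(h : G) • (y : X), smul_mem_ob h.2 y.2⟩
      invFun := fun y => ⟨(h : G)⁻¹ • (y : X), smul_mem_ob (H.inv_mem h.2) y.2⟩
      left_inv := fun _ => Subtype.ext (inv_smul_smul _ _)
      right_inv := fun _ => Subtype.ext (smul_inv_smul _ _) }
  map_one' := Equiv.ext fun y => Subtype.ext (one_smul G (y : X))
  map_mul' a b := Equiv.ext fun y => Subtype.ext (mul_smul (a : G) (b : G) (y : X))

theorem wbRho_val {H : Subgroup G} {x0 : X} (h : H) (y : ob H x0) :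
    ((wbRho H x0 h y : ob H x0) : X) = (h : G) • (y : X) := rfl

/-- The image of a subgroup in the permutations of the orbit. -/
def wbImg (H : Subgroup G) (x0 : X) (S : Subgroup G) : Subgroup (Perm (ob H x0)) :=
  (S.subgroupOf H).map (wbRho H x0)

theorem mem_wbImg {H S : Subgroup G} {x0 : X} {σ : Perm (ob H x0)} :
    σ ∈ wbImg H x0 S ↔ ∃ g : H, (g : G) ∈ S ∧ wbRho H x0 g = σ := by
  simp only [wbImg, Subgroup.mem_map, Subgroup.mem_subgroupOf]

theorem wbImg_mono {H S T : Subgroup G} (x0 : X) (h : S ≤ T) : wbImg H x0 S ≤ wbImg H x0 T := by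
  intro σ hσ
  obtain ⟨g, hg, rfl⟩ := mem_wbImg.1 hσ
  exact mem_wbImg.2 ⟨g, h hg, rfl⟩

theorem wbImg_nz {H S T : Subgroup G} (x0 : X) (h : Nz S T) :
    Nz (wbImg H x0 S) (wbImg H x0 T) := by
  intro σ hσ τ hτ
  obtain ⟨g, hg, rfl⟩ := mem_wbImg.1 hσ
  obtain ⟨a, ha, rfl⟩ := mem_wbImg.1 hτ
  exact mem_wbImg.2 ⟨g * a * g⁻¹, h g hg a ha, by rw [map_mul, map_mul, map_inv]⟩

theorem wbRho_eq_one {H : Subgroup G} {x0 : X} (g : H) :
    wbRho H x0 g = 1 ↔ (g : G) ∈ fixingSubgroup G (ob H x0) := by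
  rw [mem_fixingSubgroup_iff]
  constructor
  · intro h y hy
    exact congrArg Subtype.val (congrArg (fun σ : Perm (ob H x0) => σ ⟨y, hy⟩) h)
  · intro h
    exact Equiv.ext fun y => Subtype.ext (h y y.2)

theorem wb_prim {H : Subgroup G} {x0 : X} (hP : Pr H x0) (r : ob H x0 → ob H x0 → Prop)
    (hr : Equivalence r) (hq : ∀ q ∈ wbImg H x0 H, ∀ x y, r x y → r (q x) (q y)) :
    (∀ x y, r x y → x = y) ∨ (∀ x y, r x y) := by
  rcases hP.eqv (fun x y => ∃ (hx : x ∈ ob H x0) (hy : y ∈ ob H x0), r ⟨x, hx⟩ ⟨y, hy⟩)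
    (fun x hx => ⟨hx, hx, hr.refl _⟩)
    (fun x hx y hy ⟨_, _, h⟩ => ⟨hy, hx, hr.symm h⟩)
    (fun x hx y _ z hz ⟨_, _, h1⟩ ⟨_, _, h2⟩ => ⟨hx, hz, hr.trans h1 h2⟩)
    (fun h hh x hx y hy ⟨_, _, h1⟩ => ⟨smul_mem_ob hh hx, smul_mem_ob hh hy,
      hq _ (mem_wbImg.2 ⟨⟨h, hh⟩, hh, rfl⟩) _ _ h1⟩) with h | h
  · exact Or.inl fun x y hxy => Subtype.ext (h x x.2 y y.2 ⟨x.2, y.2, hxy⟩)
  · refine Or.inr fun x y => ?_
    obtain ⟨_, _, h1⟩ := h x x.2 y y.2
    exact h1

/-- The choice of the commuting pair. -/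
theorem wb_pair {J : Type} [Finite J] {K F : Subgroup G} {R : J → Subgroup G}
    (hRK : ∀ j, R j ≤ K) (hN : ∀ j, Nz K (R j)) (hF : (⨅ j, R j) ≤ F) (hK : ¬ K ≤ F) :
    ∃ (A : Subgroup G) (j : J), A ≤ K ∧ Nz K A ∧ ¬ A ≤ F ∧
      ∀ a ∈ A, ∀ c ∈ R j, a * c * a⁻¹ * c⁻¹ ∈ F := by
  have : Fintype J := Fintype.ofFinite J
  let A : Finset J → Subgroup G := fun S => K ⊓ ⨅ i ∈ S, R i
  have hA : ∀ (S : Finset J) (g : G), g ∈ A S ↔ g ∈ K ∧ ∀ i ∈ S, g ∈ R i := fun S g => by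
    simp only [A, Subgroup.mem_inf, Subgroup.mem_iInf]
  obtain ⟨S, hS, hmax⟩ := Finset.exists_max_image (univ.filter fun S : Finset J => ¬ A S ≤ F)
    Finset.card ⟨∅, mem_filter.2 ⟨mem_univ _, fun h => hK fun g hg =>
      h ((hA ∅ g).2 ⟨hg, fun i hi => absurd hi (Finset.notMem_empty i)⟩)⟩⟩
  have hS' : ¬ A S ≤ F := (mem_filter.1 hS).2
  obtain ⟨j, hj⟩ : ∃ j, j ∉ S := by
    by_contra hc
    push Not at hc
    exact hS' fun g hg => hF (Subgroup.mem_iInf.2 fun i => ((hA S g).1 hg).2 i (hc i))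
  have hins : A (insert j S) ≤ F := by
    by_contra hc
    have := hmax _ (mem_filter.2 ⟨mem_univ _, hc⟩)
    rw [card_insert_of_notMem hj] at this
    omega
  refine ⟨A S, j, fun g hg => ((hA S g).1 hg).1, fun k hk a ha => ?_, hS', fun a ha c hc => ?_⟩
  · obtain ⟨h1, h2⟩ := (hA S a).1 ha
    exact (hA S _).2 ⟨K.mul_mem (K.mul_mem hk h1) (K.inv_mem hk), fun i hi =>
      hN i k hk a (h2 i hi)⟩
  · obtain ⟨h1, h2⟩ := (hA S a).1 ha
    have hcK := hRK j hc
    refine hins ((hA _ _).2 ⟨K.mul_mem (K.mul_mem (K.mul_mem h1 hcK) (K.inv_mem h1))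
      (K.inv_mem hcK), fun i hi => ?_⟩)
    rcases mem_insert.1 hi with rfl | hi
    · exact (R i).mul_mem (hN i a h1 c hc) ((R i).inv_mem hc)
    · have := (R i).mul_mem (h2 i hi) (hN i c hcK _ ((R i).inv_mem (h2 i hi)))
      simpa [mul_assoc] using this

end Wrap

theorem p_BLK (hBLK0 : S_BLK0) :
    S_BLK := by
  intro G X J _ _ _ _ _ H K R x0 a0 hP hKH hHK hRK hN hF
  by_cases hK : K ≤ fixingSubgroup G (ob H x0)
  · obtain ⟨j⟩ := ‹Nonempty J›
    exact Or.inl ⟨∅, by simp, by simp, j, inf_le_left.trans ((hRK j).trans hK)⟩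
  obtain ⟨A, j, hAK, hKA, hAF, hcomm⟩ := wb_pair hRK hN hF hK
  have : Fintype (ob H x0) := (ob_finite H x0).fintype
  rcases hBLK0 (ob H x0) (wbImg H x0 H) (wbImg H x0 K) (wbImg H x0 A) (wbImg H x0 (R j)) a0
    (fun r hr hq => wb_prim hP r hr hq) (wbImg_mono x0 hKH) (wbImg_nz x0 hHK)
    (wbImg_mono x0 hAK) (wbImg_nz x0 hKA)
    (fun h => hAF fun g hg => by
      have h1 : wbRho H x0 ⟨g, hKH (hAK hg)⟩ ∈ wbImg H x0 A := mem_wbImg.2 ⟨_, hg, rfl⟩
      rw [h, Subgroup.mem_bot] at h1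
      exact (wbRho_eq_one _).1 h1)
    (wbImg_mono x0 (hRK j))
    (fun σ hσ τ hτ => by
      obtain ⟨a, ha, rfl⟩ := mem_wbImg.1 hσ
      obtain ⟨c, hc, rfl⟩ := mem_wbImg.1 hτ
      have h1 := (wbRho_eq_one (x0 := x0) (a * c * a⁻¹ * c⁻¹)).2 (hcomm a ha c hc)
      rw [map_mul, map_mul, map_mul, map_inv, map_inv, mul_inv_eq_one,
        mul_inv_eq_iff_eq_mul] at h1
      exact h1) with ⟨B, hB, h⟩ | ⟨α, β, χ, a, h1, h2, h3, h4⟩
  · refine Or.inl ⟨B.map (Function.Embedding.subtype _), ?_, by rwa [card_map], j, ?_⟩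
    · intro x hx
      obtain ⟨y, _, rfl⟩ := mem_map.1 (mem_coe.1 hx)
      exact y.2
    · rintro g ⟨hg, hgB⟩
      have hgH : g ∈ H := hKH (hRK j hg)
      refine (wbRho_eq_one (x0 := x0) ⟨g, hgH⟩).1 (h _ (mem_wbImg.2 ⟨_, hg, rfl⟩) fun b hb => ?_)
      exact Subtype.ext ((mem_fixingSubgroup_iff G).1 hgB b
        (mem_coe.2 (mem_map.2 ⟨b, hb, rfl⟩)))
  · let χ' : X → Set X := fun x => if h : x ∈ ob H x0 then Subtype.val '' χ ⟨x, h⟩ else ∅
    have hχ : ∀ (x y : X) (hx : x ∈ ob H x0) (hy : y ∈ ob H x0),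
        χ' x = χ' y ↔ χ ⟨x, hx⟩ = χ ⟨y, hy⟩ := fun x y hx hy => by
      simp only [χ', dif_pos hx, dif_pos hy]
      exact (Set.image_injective.2 Subtype.val_injective).eq_iff
    refine Or.inr ⟨α, α.2, β, β.2, χ', a, h1, ?_, ?_, ?_⟩
    · rwa [← Nat.card_coe_set_eq, Nat.card_eq_fintype_card]
    · intro h hh hα hβ x hx y hy hxy
      rw [hχ _ _ (smul_mem_ob hh hx) (smul_mem_ob hh hy)]
      exact h3 _ (mem_wbImg.2 ⟨⟨h, hh⟩, hh, rfl⟩) (Subtype.ext hα) (Subtype.ext hβ) _ _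
        ((hχ x y hx hy).1 hxy)
    · intro x hx
      rw [← h4 ⟨x, hx⟩, ← Set.ncard_image_of_injective _ Subtype.val_injective]
      congr 1
      ext y
      constructor
      · rintro ⟨hy, e⟩
        exact ⟨⟨y, hy⟩, (hχ y x hy hx).1 e, rfl⟩
      · rintro ⟨y, e, rfl⟩
        exact ⟨y.2, (hχ y x y.2 hx).2 e⟩

end Pool.Agent.P.MP_f1a348_lc.TO

end

section

/-! Step BLK0. -/

set_option autoImplicit false
set_option linter.unusedSectionVars false

namespace Pool.Agent.P.MP_f1a348_lc.TO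

open Equiv Finset
open scoped Classical

theorem p_BLK0 :
    S_BLK0 := by
  intro E _ _ Q K A C a0 hr _ hK hA hnA hA0 hC hcomm
  have hp : blkPrim Q := fun r h => hr r r.iseqv h
  obtain ⟨M, hMA, hM⟩ := blk_exists_min hA hA0 hnA
  by_cases hi : ∀ x y, blkOb M x y
  · left
    obtain ⟨g, hg, α, -⟩ : ∃ g ∈ M, ∃ α, g α ≠ α := by
      by_contra hc
      push Not at hc
      exact hM.2.1 ((Subgroup.eq_bot_iff_forall M).2 fun g hg => Equiv.ext (hc g hg))
    refine ⟨{α}, by simp, fun c hc h => Equiv.ext fun z => ?_⟩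
    obtain ⟨m, hm, rfl⟩ := hi α z
    have e : c (m α) = m (c α) := by
      rw [← Perm.mul_apply, ← hcomm m (hMA hm) c hc, Perm.mul_apply]
    rw [e, h α (mem_singleton_self α)]
    rfl
  · rcases blk_intr hp hK hM hi a0 with ⟨B, h1, h2⟩ | h
    · exact Or.inl ⟨B, h1, fun c hc h => h2 c (hC hc) h⟩
    · exact Or.inr h

end Pool.Agent.P.MP_f1a348_lc.TO

end

section

/-! Step LEVEL. -/

set_option autoImplicit false
set_option linter.unusedSectionVars false

namespace Pool.Agent.P.MP_f1a348_lc.TO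

open Equiv Finset
open scoped Classical

theorem p_LEVEL (hBLK : S_BLK) :
    S_LEVEL := by
  intro Ω J _ _ _ _ m a0 c H K R hK hRK hR hG Λ φ s l
  induction l generalizing Λ s with
  | zero =>
    intro H' W h1 hF hX
    refine Reach.loc fun H1 h2 w hw hM => ?_
    rcases hF.state h2 hw with h3 | ⟨V, hs, hV, hne, hidx, hmem⟩
    · exact Or.inl h3
    · exfalso
      have h4 : V.relIndex H1 ≠ 0 := Subgroup.FiniteIndex.index_ne_zero
      have h5 : V.relIndex H1 = 1 := by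
        rw [pow_zero] at hidx
        omega
      exact hne (le_antisymm hV (Subgroup.relIndex_eq_one.1 h5))
  | succ l ih =>
    intro H' W h1 hF hX
    refine Reach.loc fun H1 h2 w hw hM => ?_
    rcases hF.state h2 hw with h3 | ⟨V, hs, hV, hne, hidx, hmem⟩
    · exact Or.inl h3
    right
    have hH1 : H1 ≤ H := h2.trans h1
    obtain ⟨U, hVU, hUH, hUne, hPr⟩ := exists_max hV hne
    have hsU : stab H1 w ≤ MulAction.stabilizer (Perm Ω) (q1 U) := by
      rw [stabilizer_q1]; exact hs.trans hVU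
    obtain ⟨ψ, k, hψ1, hψ2, hψ3, hψ4, hψ5⟩ := exists_psi hsU
    set e := (ob H1 (q1 U)).ncard with he
    have hme : m < e := by
      rw [he, ncard_ob_q1]; exact hM.2 U (hs.trans hVU) hUH hUne
    have hea : e ≤ a0 ^ (l + 1) := by
      rw [he, ncard_ob_q1]
      exact (Subgroup.relIndex_le_of_le_left hVU Subgroup.FiniteIndex.index_ne_zero).trans hidx
    have hOs : (orb H1 w).card ≤ s := (Finset.card_le_card hw).trans hF.card
    have hwW : w ∈ W := hw (self_mem_orb H1 w)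
    have hψO : ∀ x ∈ orb H1 w, ψ x ∈ ob H1 (q1 U) := fun x hx => hψ3 ▸ ⟨x, hx, rfl⟩
    have hfix : ∀ g ∈ H1, g ∈ (⨅ j, R j) → g ∈ fixingSubgroup (Perm Ω) (ob H1 (q1 U)) := by
      intro g hg hgR
      rw [mem_fixingSubgroup_iff]
      rintro y ⟨h, hh, rfl⟩
      have hhw : h w ∈ W := hF.inv h (h2 hh) w hwW
      have h4 : φ (g (h w)) = φ (h w) := hX g (h2 hg) hgR _ hhw
      have h5 : h⁻¹ * g * h ∈ V := by
        refine (hmem _).2 ⟨H1.mul_mem (H1.mul_mem (H1.inv_mem hh) hg) hh, ?_⟩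
        have := hF.eqv h⁻¹ (h2 (H1.inv_mem hh)) _ (hF.inv g (h2 hg) _ hhw) _ hhw h4
        simpa using this
      have h6 := smul_q1_eq.2 (hVU h5)
      rw [mul_smul, mul_smul, inv_smul_eq_iff] at h6
      exact h6
    rcases hBLK (Perm Ω) (Perm Ω ⧸ U) J H1 (K ⊓ H1) (fun j => R j ⊓ H1) (q1 U) a0 hPr
      inf_le_right ((hK.mono hH1).inf (Nz.self H1)) (fun j => inf_le_inf_right _ (hRK j))
      (fun j => ((hR j).mono inf_le_left).inf ((Nz.self H1).mono inf_le_right)) (by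
        intro g hg
        rw [Subgroup.mem_iInf] at hg
        exact hfix g (hg (Classical.arbitrary J)).2 (Subgroup.mem_iInf.2 fun j => (hg j).1)) with
      ⟨B, hB, hBc, j, hj⟩ | ⟨α, hα, β, hβ, χ, a, ha0, hae, hχ, hcl⟩
    · obtain ⟨P, hPc, hP⟩ := exists_pins hsU B hB
      have hFoc : Focus m a0 s (l + 1) H1 (orb H1 w) ψ := by
        refine ⟨fun h hh x hx => apply_mem_orb hh hx, hOs, ?_, ?_, ?_⟩
        · intro h hh x hx y hy exy
          rw [hψ2 h hh x hx, hψ2 h hh y hy, exy]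
        · intro x hx
          rw [hψ4 x hx]
          refine le_trans ?_ (Nat.pow_le_pow_left hOs 2)
          rw [hψ5]
          have : m ≤ e ^ 2 := by nlinarith
          nlinarith
        · rw [hψ3]; exact hea
      have h4 := hG j _ ψ s (l + 1) (H1 ⊓ fixingSubgroup (Perm Ω) (P : Set Ω)) (orb H1 w)
        (inf_le_left.trans hH1) (hFoc.mono inf_le_left) (by
          intro g hg hgR x hx
          have h5 := hj ⟨⟨hgR, hg.1⟩, (hP hg).2⟩
          rw [hψ2 g hg.1 x hx]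
          exact (mem_fixingSubgroup_iff _).1 h5 _ (hψO x hx))
      exact (Reach.pins P h4).le (by omega)
    · obtain ⟨P, hPc, hP⟩ := exists_pins hsU {α, β} (by
        intro y hy
        rcases Finset.mem_insert.1 (Finset.mem_coe.1 hy) with rfl | hy
        · exact hα
        · rw [Finset.mem_singleton.1 hy]; exact hβ)
      have hP2 : P.card ≤ 2 := hPc.trans Finset.card_le_two
      have hfin : (ob H1 (q1 U)).Finite := ob_finite _ _
      have hapos : 0 < a := by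
        rw [← hcl α hα]
        exact (Set.ncard_pos (hfin.subset fun _ h => h.1)).2 ⟨α, hα, rfl⟩
      have hlab : e = (χ '' ob H1 (q1 U)).ncard * a := by
        rw [← fib_count hfin χ a hcl _ le_rfl, he]
        congr 1
        ext y
        exact ⟨fun hy => ⟨hy, y, hy, rfl⟩, fun hy => hy.1⟩
      have hFoc : Focus m a0 s l (H1 ⊓ fixingSubgroup (Perm Ω) (P : Set Ω)) (orb H1 w)
          (fun x => χ (ψ x)) := by
        refine ⟨fun h hh x hx => apply_mem_orb hh.1 hx, hOs, ?_, ?_, ?_⟩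
        · intro h hh x hx y hy exy
          have h5 := (mem_fixingSubgroup_iff _).1 (hP hh).2
          rw [hψ2 h hh.1 x hx, hψ2 h hh.1 y hy]
          exact hχ h hh.1 (h5 α (by simp)) (h5 β (by simp)) _ (hψO x hx) _ (hψO y hy) exy
        · intro x hx
          have h5 := fib_count (S := (orb H1 w : Set Ω)) (Finset.finite_toSet _) ψ k hψ4
            {y | y ∈ ob H1 (q1 U) ∧ χ y = χ (ψ x)} (by rw [hψ3]; exact fun _ h => h.1)
          rw [hcl _ (hψO x hx)] at h5
          have h6 : {y | y ∈ orb H1 w ∧ χ (ψ y) = χ (ψ x)}.ncard = a * k := by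
            rw [← h5]
            congr 1
            ext y
            exact ⟨fun hy => ⟨hy.1, hψO y hy.1, hy.2⟩, fun hy => ⟨hy.1, hy.2.2⟩⟩
          rw [h6]
          refine le_trans ?_ (Nat.pow_le_pow_left hOs 2)
          rw [hψ5]
          calc (a * k) ^ 2 * m = (a ^ 2 * m) * k ^ 2 := by ring
            _ ≤ (e * e) * k ^ 2 := Nat.mul_le_mul_right _ (Nat.mul_le_mul hae hme.le)
            _ = (e * k) ^ 2 := by ring
        · have h5 : (fun x => χ (ψ x)) '' (orb H1 w : Set Ω) = χ '' ob H1 (q1 U) := by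
            rw [← hψ3, Set.image_image]
          rw [h5]
          rcases Nat.eq_zero_or_pos a0 with h0 | h0
          · rw [h0, zero_pow (Nat.succ_ne_zero l)] at hea
            omega
          · refine Nat.le_of_mul_le_mul_right ?_ h0
            rw [← pow_succ]
            exact le_trans (Nat.mul_le_mul_left _ ha0) (hlab ▸ hea)
      have h4 := ih _ (fun x => χ (ψ x)) s (H1 ⊓ fixingSubgroup (Perm Ω) (P : Set Ω)) (orb H1 w)
        (inf_le_left.trans hH1) hFoc (by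
          intro g hg hgR x hx
          show χ (ψ (g x)) = χ (ψ x)
          rw [hψ2 g hg.1 x hx, (mem_fixingSubgroup_iff _).1 (hfix g hg.1 hgR) _ (hψO x hx)])
      exact (Reach.pins P h4).le (by omega)

end Pool.Agent.P.MP_f1a348_lc.TO

end

section

/-! Step MID. -/

set_option autoImplicit false
set_option linter.unusedSectionVars false

namespace Pool.Agent.P.MP_f1a348_lc.TO

open Equiv Finset
open scoped Classical

theorem mid_lay (hSTEP : S_STEP) {Ω : Type} [Fintype Ω] [DecidableEq Ω] {m a0 c0 c N : ℕ}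
    (hT : Trk Ω m a0 c0 N) {X : Type} [MulAction (Perm Ω) X] {A0 A : Subgroup (Perm Ω)}
    (ho : Odd (Nat.card A0)) {Z : Set X} (hZ : Z.Finite)
    (pin : ∀ y ∈ Z, ∃ q, stab A0 q ≤ MulAction.stabilizer (Perm Ω) y) (hA : A ≤ A0)
    (hN : Nz A0 A) (hc : c0 ≤ c) (hG : Good m a0 c A0 A) (hs : ∀ y ∈ Z, (ob A y).ncard ≤ N) :
    Good m a0 (c + 2 * (a0 + 1) + 1) A0 (A0 ⊓ fixingSubgroup (Perm Ω) Z) := by
  have := hZ.to_subtype
  choose q hq using pin
  let U : Z → Subgroup (Perm Ω) := fun y =>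
    { carrier := {g | g ∈ A0 ∧ g • y.1 ∈ ob A y.1}
      one_mem' := ⟨A0.one_mem, by rw [one_smul]; exact self_mem_ob _ _⟩
      mul_mem' := by
        rintro a b ⟨ha, ea⟩ ⟨hb, β, hβ, eb⟩
        refine ⟨A0.mul_mem ha hb, ?_⟩
        have := smul_mem_ob (hN a ha β hβ) ea
        rwa [mul_smul, inv_smul_smul, mul_smul, eb, ← mul_smul] at this
      inv_mem' := by
        rintro a ⟨ha, α, hα, ea⟩
        refine ⟨A0.inv_mem ha, _, hN _ (A0.inv_mem ha) _ (A.inv_mem hα), ?_⟩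
        rw [inv_inv, mul_smul, ← ea, mul_smul, inv_smul_smul] }
  have hU : ∀ y, U y ≤ A0 := fun y g hg => hg.1
  refine (hSTEP Ω Z m a0 c A0 A U (fun y => fixingSubgroup (Perm Ω) (ob (U y) y.1))
    (fun y => q y.1 y.2) hA hN (fun y g hg => ⟨hg.1, ?_⟩) hU
    (fun y g hg => ⟨hA hg, g, hg, rfl⟩) (fun y => Nz.fix_ob _ _) hG fun y =>
      (hT X (U y) y.1 (q y.1 y.2) (odd_of_le (hU y) ho) ((stab_mono (hU y) _).trans (hq _ _))
        ((Set.ncard_le_ncard ?_ (ob_finite _ _)).trans (hs _ y.2))).le hc).mono le_rfl ?_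
  · rw [show g • y.1 = y.1 from hq _ _ hg]
    exact self_mem_ob _ _
  · rintro z ⟨g, hg, rfl⟩
    exact hg.2
  · rintro g ⟨hg, -, hx⟩
    exact ⟨hg, (mem_fixingSubgroup_iff _).2 fun y hy =>
      (mem_fixingSubgroup_iff _).1 (Subgroup.mem_iInf.1 hx ⟨y, hy⟩) y (self_mem_ob _ _)⟩

theorem p_MID (hLEVEL : S_LEVEL) (hSTEP : S_STEP) :
    S_MID := by
  intro Ω _ _ m a0 B K t0 n0 l hGG hm hB hK ht0 hn0 hT X _ H x0 p ho hp hP hn
  by_cases h0 : (ob H x0).ncard ≤ K ^ l
  · exact (hT l le_rfl X H x0 p ho hp h0).le (by omega)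
  obtain ⟨T, Z1, Z2, hT0, t1, t2, z1, z2, i1, i2, s1, s2, s3⟩ :=
    hGG (Perm Ω) X H x0 ho hP (by omega)
  set A0 := H ⊓ fixingSubgroup (Perm Ω) (T : Set X) with hA0
  have hT1 := hT (l + 1 - T.card) (by omega)
  have key : ∀ o : ℕ, K ^ T.card * o ≤ (ob H x0).ncard → o ≤ K ^ (l + 1 - T.card) := by
    intro o h
    refine Nat.le_of_mul_le_mul_left ((h.trans hn).trans_eq ?_) (pow_pos hK T.card)
    rw [← pow_add]
    congr 1
    omega
  have ho0 : Odd (Nat.card A0) := odd_of_le inf_le_left ho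
  have pin : ∀ y ∈ ob H x0, ∃ q, stab A0 q ≤ MulAction.stabilizer (Perm Ω) y := by
    rintro y ⟨g, hg, rfl⟩
    exact ⟨g p, (stab_mono inf_le_left _).trans (stab_apply_le hp hg)⟩
  have hf := ob_finite H x0
  have g1 : Good m a0 (B * (l + 1 - T.card) + (a0 + 1)) A0
      (A0 ⊓ fixingSubgroup (Perm Ω) Z1) := by
    have := (hf.subset z1).to_subtype
    refine (hLEVEL Ω (Option Z1) m a0 _ A0 A0
      (fun j => j.elim A0 fun y => A0 ⊓ fixingSubgroup (Perm Ω) (ob A0 y.1)) (Nz.self _)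
      ?_ ?_ ?_).mono le_rfl ?_
    · rintro (_ | y)
      exacts [le_rfl, inf_le_left]
    · rintro (_ | y)
      exacts [Nz.self _, (Nz.self _).inf (Nz.fix_ob _ _)]
    · rintro (_ | y)
      · exact (Good.self hm _).le (Nat.zero_le _)
      · obtain ⟨q, hq⟩ := pin y.1 (z1 y.2)
        exact (hT1 X A0 y.1 q ho0 hq (key _ (s1 _ y.2))).mono le_rfl le_rfl
    · rintro g ⟨hg, hx⟩
      exact ⟨hg, (mem_fixingSubgroup_iff _).2 fun y hy => (mem_fixingSubgroup_iff _).1
        (Subgroup.mem_iInf.1 hx (some ⟨y, hy⟩)).2 y (self_mem_ob _ _)⟩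
  have g2 := mid_lay hSTEP hT1 ho0 (hf.subset z2) (fun y hy => pin y (z2 hy)) inf_le_left
    ((Nz.self _).inf (Nz.fix i1)) (Nat.le_add_right _ _) g1 fun y hy => key _ (s2 y hy)
  have g3 := mid_lay hSTEP hT1 ho0 hf pin inf_le_left ((Nz.self _).inf (Nz.fix i2))
    (by omega) g2 fun y hy => key _ (s3 y hy)
  obtain ⟨P, hP1, hP2⟩ := exists_pins hp T hT0
  refine (Good.pins P (g3.mono hP2 (inf_le_right.trans inf_le_right))).le ?_
  obtain ⟨u, hu⟩ := Nat.exists_eq_add_of_le t1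
  obtain ⟨v, hv⟩ := Nat.exists_eq_add_of_le (t2.trans ht0)
  rw [show l + 1 - T.card = v + 1 by omega, show l = (v + 1) + u by omega, mul_add B (v + 1) u]
  have := Nat.le_mul_of_pos_left u hB
  omega

end Pool.Agent.P.MP_f1a348_lc.TO

end

section

/-! Step STEP. -/

set_option autoImplicit false
set_option linter.unusedSectionVars false

namespace Pool.Agent.P.MP_f1a348_lc.TO

open Equiv Finset
open scoped Classical

theorem p_STEP (hLEVEL : S_LEVEL) :
    S_STEP := by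
  intro Ω J _ _ _ m a0 c H A U X p hAH hHA hpU hUH hAU hUX hGA hGX
  have h1 : ∀ j, Good m a0 (c + (a0 + 1) + 1) H (A ⊓ X j) := by
    intro j
    have h2 := hLEVEL Ω Bool m a0 c (U j) (U j) (fun b => cond b A (U j ⊓ X j))
      (Nz.self _)
      (by
        rintro (_ | _)
        · exact inf_le_left
        · exact hAU j)
      (by
        rintro (_ | _)
        · exact (Nz.self _).inf (hUX j)
        · exact hHA.mono (hUH j))
      (by
        rintro (_ | _)
        · exact (hGX j).mono le_rfl le_rfl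
        · exact hGA.mono (hUH j) inf_le_right)
    refine Good.pin (p j) (h2.mono (hpU j) ?_)
    refine inf_le_right.trans (le_inf (iInf_le _ true) ?_)
    exact (iInf_le _ false).trans inf_le_right
  have h3 := hLEVEL Ω (Option J) m a0 (c + (a0 + 1) + 1) H A
    (fun o => o.elim A fun j => A ⊓ X j) hHA
    (by
      rintro (_ | j)
      · exact le_rfl
      · exact inf_le_left)
    (by
      rintro (_ | j)
      · exact Nz.self _
      · exact (Nz.self _).inf ((hUX j).mono (hAU j)))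
    (by
      rintro (_ | j)
      · exact hGA.le (by omega)
      · exact h1 j)
  refine (h3.mono le_rfl ?_).le (by omega)
  refine inf_le_right.trans (le_inf (iInf_le _ none) (le_iInf fun j => ?_))
  exact (iInf_le _ (some j)).trans inf_le_right

end Pool.Agent.P.MP_f1a348_lc.TO

end
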