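import Pool.Agent.P.MP_f1a348_lc.TO.EIface
import Pool.Agent.P.MP_f1a348_lc.TO.EWin

section

/-! Step EBLK. -/

set_option autoImplicit false
set_option linter.unusedSectionVars false

namespace Pool.Agent.P.MP_f1a348_lc.TO

open Pool.Agent.Lib.Helper47 Pool.Agent.P.MP_f1a348_lc.GI

namespace EBLK
variable {G Ω₀ Ω : Type} [Group G] [DecidableEq G] [MulAction G Ω₀] [DecidableEq Ω₀]
  [MulAction G Ω] [DecidableEq Ω]

/-- `B` lists the orbit of `w` under `U` -/
structure Blk (K : Subgroup G) (O : List Ω) (w : Ω) (B : List Ω) (U : Subgroup G) : Prop where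
  lo : K ⊓ MulAction.stabilizer G w ≤ U
  hi : U ≤ K
  mem : ∀ b, b ∈ B ↔ ∃ u ∈ U, u • w = b
  len : B.length ≤ O.length

theorem Blk.test {K U : Subgroup G} {O B : List Ω} {w : Ω} (h : Blk K O w B U) :
    ∀ u ∈ K, memB w B u = true ↔ u ∈ U := fun u hu => by
  rw [memB, List.contains_iff_mem, h.mem]
  refine ⟨fun ⟨v, hv, e⟩ => ?_, fun e => ⟨u, e, rfl⟩⟩
  have : v⁻¹ * u ∈ U := h.lo (Subgroup.mem_inf.2 ⟨K.mul_mem (K.inv_mem (h.hi hv)) hu, by
    rw [MulAction.mem_stabilizer_iff, mul_smul, ← e, inv_smul_smul]⟩)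
  simpa using mul_mem hv this

theorem blk_one (K : Subgroup G) {O : List Ω} {w : Ω} (hw : w ∈ O) :
    Blk K O w [w] (K ⊓ MulAction.stabilizer G w) :=
  ⟨le_rfl, inf_le_left, fun _ => ⟨fun e => ⟨1, one_mem _, by
      simpa using (List.mem_singleton.1 e).symm⟩,
    fun ⟨_, hu, e⟩ => List.mem_singleton.2 (e.symm.trans hu.2)⟩, List.length_pos_of_mem hw⟩

variable {x : Cx G Ω₀ Ω} {S : List G} {O : List Ω} {w : Ω}

theorem gen_sub (hf : Faith x.sp x.base (gen S)) (hi : InvL (gen S) O)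
    (hl : O.length ≤ x.sp.length) (hw : w ∈ O) {B : List Ω} {U : Subgroup G}
    (h : Blk (gen S) O w B U) : gen (subG x.sp x.base (memB w B) S) = U := by
  have e : Idx U (gen S) O.length := (hi.idx hw).of_le fun u hu =>
    h.lo ⟨hu.1, mem_fixS.1 hu.2 w (by simp)⟩
  rw [gen_subG hf h.test ((bfs_length _ h.test e).trans hl), inf_eq_right.2 h.hi]

theorem blk_next (hf : Faith x.sp x.base (gen S)) (hi : InvL (gen S) O)
    (hl : O.length ≤ x.sp.length) (hw : w ∈ O) {B : List Ω} {U : Subgroup G}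
    (h : Blk (gen S) O w B U) {g : G} (hg : g ∈ gen S) :
    ∃ U', Blk (gen S) O w (orbL x.sp (g :: subG x.sp x.base (memB w B) S) O w) U' ∧ U ≤ U' ∧
      g ∈ U' ∧ ∀ Z, U ≤ Z → g ∈ Z → U' ≤ Z := by
  have e := gen_sub hf hi hl hw h
  have a1 : U ≤ gen (g :: subG x.sp x.base (memB w B) S) :=
    e ▸ gen_mono fun y hy => List.mem_cons_of_mem _ hy
  have a2 : ∀ Z, U ≤ Z → g ∈ Z → gen (g :: subG x.sp x.base (memB w B) S) ≤ Z := fun Z b c =>
    gen_le.2 (List.forall_mem_cons.2 ⟨c, gen_le.1 (e ▸ b)⟩)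
  exact ⟨_, ⟨h.lo.trans a1, a2 _ h.hi hg, fun b => mem_orbL (hi.mono (a2 _ h.hi hg)) hl hw,
    (orbL_sublist _ _ _ _).length_le⟩, a1, mem_gen List.mem_cons_self, a2⟩

/-- the stages of the search -/
def stage (x : Cx G Ω₀ Ω) (S : List G) (O : List Ω) (w : Ω) (i : ℕ) : List (List Ω) :=
  (fun L => (L ++ L.flatMap (x.nextB S O w)).take x.pad.length)^[i] [[w]]

theorem stage_succ (i : ℕ) : stage x S O w (i + 1) =
    (stage x S O w i ++ (stage x S O w i).flatMap (x.nextB S O w)).take x.pad.length :=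
  Function.iterate_succ_apply' _ _ _

theorem stage_blk (hf : Faith x.sp x.base (gen S)) (hi : InvL (gen S) O)
    (hl : O.length ≤ x.sp.length) (hw : w ∈ O) (i : ℕ) :
    ∀ B ∈ stage x S O w i, ∃ U, Blk (gen S) O w B U := by
  induction i with
  | zero => intro B hB; rw [List.mem_singleton.1 hB]; exact ⟨_, blk_one _ hw⟩
  | succ i ih =>
    intro B hB
    rw [stage_succ] at hB
    rcases List.mem_append.1 (List.mem_of_mem_take hB) with hB | hB
    · exact ih B hB
    · obtain ⟨C, hC, hB⟩ := List.mem_flatMap.1 hB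
      obtain ⟨U, hU⟩ := ih C hC
      obtain ⟨r, hr, rfl⟩ := List.mem_map.1 hB
      have b := (bfsIter_inv (memB w C) S x.um.length).1
      exact (blk_next hf hi hl hw hU (mul_mem (inv_mem (b _ (mem_prodL.1 hr).1))
        (b _ (mem_prodL.1 hr).2))).imp fun _ h => h.1

theorem next_length (L : List (List Ω)) :
    (L ++ L.flatMap (x.nextB S O w)).length ≤ L.length * ((x.um.length + 1) ^ 2 + 1) := by
  induction L with
  | nil => simp
  | cons B L ih =>
    have b : (bfs x.um (memB w B) S).length ≤ x.um.length + 1 :=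
      (bfsIter_inv (memB w B) S x.um.length).2
    have c : (x.nextB S O w B).length ≤ (x.um.length + 1) ^ 2 := by
      rw [Cx.nextB, List.length_map, length_prodL, sq]
      exact Nat.mul_le_mul b b
    simp only [List.length_append, List.flatMap_cons, List.length_cons] at ih ⊢
    rw [Nat.add_mul]
    omega

theorem stage_length (i : ℕ) : (stage x S O w i).length ≤ ((x.um.length + 1) ^ 2 + 1) ^ i := by
  induction i with
  | zero => simp [stage]
  | succ i ih =>
    rw [stage_succ, pow_succ]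
    exact ((List.take_sublist _ _).length_le.trans (next_length _)).trans
      (Nat.mul_le_mul_right _ ih)

theorem stage_mono (hp : 1 ≤ x.pad.length) {i j : ℕ} (h : i ≤ j) :
    ∀ B ∈ stage x S O w i, B ∈ stage x S O w j := by
  induction h with
  | refl => exact fun _ h => h
  | @step j _ ih =>
    intro B hB
    have e : (stage x S O w j).length ≤ x.pad.length := by
      cases j with
      | zero => exact hp
      | succ j => rw [stage_succ]; exact List.length_take_le _ _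
    rw [stage_succ, List.take_append, List.take_of_length_le e]
    exact List.mem_append_left _ (ih B hB)

theorem double {K U U' : Subgroup G} {B B' : List Ω} (h : Blk K O w B U) (h' : Blk K O w B' U')
    (e : U ≤ U') {g : G} (hg : g ∈ U') (hn : g ∉ U) : 2 * B.toFinset.card ≤ B'.toFinset.card := by
  have d : Disjoint B.toFinset (B.toFinset.image (fun b => g • b)) := by
    refine Finset.disjoint_left.2 fun b hb hc => hn ?_
    obtain ⟨c, hd, rfl⟩ := Finset.mem_image.1 hc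
    obtain ⟨u, hu, rfl⟩ := (h.mem _).1 (List.mem_toFinset.1 hd)
    have := (h.test (g * u) (mul_mem (h'.hi hg) (h.hi hu))).1 (by
      rw [memB, List.contains_iff_mem, mul_smul]; exact List.mem_toFinset.1 hb)
    exact (U.mul_mem_cancel_right hu).1 this
  have c := Finset.card_union_eq_card_add_card.2 d
  rw [Finset.card_image_of_injective _ (MulAction.injective g)] at c
  rw [two_mul, ← c]
  refine Finset.card_le_card fun b hb => List.mem_toFinset.2 ((h'.mem _).2 ?_)
  rcases Finset.mem_union.1 hb with hb | hb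
  · obtain ⟨u, hu, rfl⟩ := (h.mem _).1 (List.mem_toFinset.1 hb)
    exact ⟨u, e hu, rfl⟩
  · obtain ⟨c, hc, rfl⟩ := Finset.mem_image.1 hb
    obtain ⟨u, hu, rfl⟩ := (h.mem _).1 (List.mem_toFinset.1 hc)
    exact ⟨g * u, mul_mem hg (e hu), mul_smul _ _ _⟩

end EBLK

open EBLK in
theorem p_EBLK :
    S_EBLK := by
  intro G Ω₀ Ω _ _ _ _ _ _ x S O w hf hi hl hw
  refine ⟨fun B hB => ?_, fun hp hn Z hZ hI => ?_⟩
  · obtain ⟨U, hU⟩ := stage_blk hf hi hl hw x.sp.length B (List.mem_of_find?_eq_some hB)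
    have t := List.find?_some hB
    rw [Bool.and_eq_true, Nat.ble_eq, List.any_eq_true] at t
    obtain ⟨t1, s, hs, t2⟩ := t
    refine ⟨⟨fun a ha => ?_, hU.len⟩, U, ⟨hU.lo, hU.hi, fun e => ?_⟩, ?_, hU.test⟩
    · obtain ⟨u, hu, rfl⟩ := (hU.mem a).1 ha
      exact hi u (hU.hi hu) w hw
    · rw [(hU.test s (mem_gen hs)).2 (e ▸ mem_gen hs)] at t2
      exact Bool.false_ne_true t2
    · exact (idx_of_cover _ fun u hu =>
        ((bfs_cover hU.test t1).2 u hu).imp fun r hr => ⟨hr.1, hr.2.2⟩).mono le_rfl t1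
  · have p1 : 1 ≤ x.pad.length := (Nat.one_le_pow _ _ (Nat.succ_pos _)).trans hp
    have key : ∀ i ≤ Nat.log 2 O.length + 1, ∃ B ∈ stage x S O w i, ∃ U, Blk (gen S) O w B U ∧
        U ≤ Z ∧ 2 ^ i ≤ B.toFinset.card := by
      intro i
      induction i with
      | zero => exact fun _ => ⟨[w], List.mem_singleton.2 rfl, _, blk_one _ hw, hZ.lo, by simp⟩
      | succ i ih =>
        intro hi'
        obtain ⟨B, hB, U, hU, hUZ, hc⟩ := ih (by omega)
        have t := List.find?_eq_none.1 hn B (stage_mono p1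
          ((show i ≤ Nat.log 2 O.length by omega).trans ((Nat.log_le_self _ _).trans hl)) B hB)
        rw [Bool.and_eq_true, Nat.ble_eq, List.any_eq_true] at t
        have t2 : ∃ s ∈ S, (!memB w B s) = true := by
          by_contra c
          refine hZ.ne (le_antisymm hZ.hi
            (gen_le.2 fun s hs => hUZ ((hU.test s (mem_gen hs)).1 ?_)))
          by_contra d
          exact c ⟨s, hs, by simpa using d⟩
        obtain ⟨-, a2, a3, -⟩ := bfs_spec x.um hU.test
        have t3 : ∃ r ∈ bfs x.um (memB w B) S, ∃ r' ∈ bfs x.um (memB w B) S,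
            r⁻¹ * r' ∉ U ∧ r⁻¹ * r' ∈ Z := by
          by_contra c
          exact t ⟨hI _ a2 ((List.Pairwise.and_mem.1 a3).imp fun {a b} h d =>
            c ⟨a, h.1, b, h.2.1, h.2.2, d⟩), t2⟩
        obtain ⟨r, hr, r', hr', b1, b2⟩ := t3
        obtain ⟨U', c1, c2, c3, c4⟩ :=
          blk_next hf hi hl hw hU (mul_mem (inv_mem (a2 r hr)) (a2 r' hr'))
        refine ⟨_, ?_, U', c1, c4 Z hUZ b2, ?_⟩
        · rw [stage_succ, List.take_of_length_le]
          · exact List.mem_append_right _ (List.mem_flatMap.2 ⟨B, hB,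
              List.mem_map.2 ⟨(r, r'), mem_prodL.2 ⟨hr, hr'⟩, rfl⟩⟩)
          · refine (next_length _).trans
              (((Nat.mul_le_mul_right _ (stage_length i)).trans ?_).trans hp)
            rw [← pow_succ]
            exact Nat.pow_le_pow_right (Nat.succ_pos _) hi'
        · have := double hU c1 c2 c3 b1
          rw [pow_succ]
          omega
    obtain ⟨B, -, U, hU, -, hc⟩ := key _ le_rfl
    exact absurd (hc.trans (B.toFinset_card_le.trans hU.len))
      (Nat.lt_pow_succ_log_self (by norm_num) _).not_ge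

end Pool.Agent.P.MP_f1a348_lc.TO

end

section

/-! Step EHALF. -/

set_option autoImplicit false
set_option linter.unusedSectionVars false

namespace Pool.Agent.P.MP_f1a348_lc.TO

open Pool.Agent.Lib.Helper47 Pool.Agent.P.MP_f1a348_lc.GI

namespace EHALF

open Classical in
theorem half {Ω : Type} (O : Finset Ω) (r : Ω → Ω → Prop) (d : ℕ) (hne : O.Nonempty)
    (hd : ∀ x ∈ O, d ≤ (O.filter (r x)).card) (has : ∀ x y, r x y → ¬ r y x) :
    2 * d ≤ O.card := by
  have h1 : ∑ x ∈ O, (O.filter (r x)).card = ∑ y ∈ O, (O.filter (fun x => r x y)).card :=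
    Finset.sum_card_bipartiteAbove_eq_sum_card_bipartiteBelow r
  have h2 : ∀ x ∈ O, (O.filter (r x)).card + (O.filter (fun y => r y x)).card ≤ O.card := by
    intro x _
    rw [← Finset.card_union_of_disjoint (Finset.disjoint_filter.2 fun y _ h => has x y h)]
    exact Finset.card_le_card
      (Finset.union_subset (Finset.filter_subset _ _) (Finset.filter_subset _ _))
  have h3 := Finset.sum_le_sum h2
  have h4 := Finset.sum_le_sum hd
  rw [Finset.sum_add_distrib, ← h1, Finset.sum_const, smul_eq_mul] at h3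
  rw [Finset.sum_const, smul_eq_mul] at h4
  refine Nat.le_of_mul_le_mul_left ?_ hne.card_pos
  calc O.card * (2 * d) = 2 * (O.card * d) := by ring
    _ ≤ _ := by omega

theorem odd_mem {G : Type} [Group G] {K U : Subgroup G} (h : OddG K) {g : G} (hg : g ∈ K)
    (h2 : g * g ∈ U) : g ∈ U := by
  obtain ⟨n, ⟨m, rfl⟩, hn⟩ := h g hg
  have : g = (g * g) ^ (m + 1) := by
    rw [← pow_two, ← pow_mul, show 2 * (m + 1) = 2 * m + 1 + 1 by ring, pow_succ, hn, one_mul]
  rw [this]
  exact U.pow_mem h2 _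

end EHALF

theorem p_EHALF :
    S_EHALF := by
  classical
  intro G Ω _ _ K U w hodd hb hfin a ha
  obtain ⟨g0, hg0, rfl⟩ := ha
  have hst : ∀ g ∈ K, ∀ g' ∈ K, g • w = g' • w → g⁻¹ * g' ∈ U := fun g hg g' hg' h =>
    hb.lo ⟨K.mul_mem (K.inv_mem hg) hg', by
      change (g⁻¹ * g') • w = w
      rw [mul_smul, ← h, inv_smul_smul]⟩
  obtain ⟨k, hk, hkU, c, hc⟩ : ∃ k ∈ K, k ∉ U ∧ ∃ c : G, ∀ y ∈ orbS U (g0 • w),
      ∃ u ∈ U, ∃ u' ∈ U, c • y = (u * k * u') • w := by
    by_cases h : g0 ∈ U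
    · obtain ⟨k, hk, hkU⟩ : ∃ k ∈ K, k ∉ U := by
        by_contra h'
        push Not at h'
        exact hb.ne (le_antisymm hb.hi h')
      refine ⟨k, hk, hkU, k, ?_⟩
      rintro y ⟨u, hu, rfl⟩
      exact ⟨1, U.one_mem, u * g0, U.mul_mem hu h, by simp [mul_smul]⟩
    · refine ⟨g0, hg0, h, 1, ?_⟩
      rintro y ⟨u, hu, rfl⟩
      exact ⟨u, hu, 1, U.one_mem, by simp [mul_smul]⟩
  rw [Set.ncard_eq_toFinset_card _ hfin]
  refine EHALF.half hfin.toFinset
    (fun x y => ∃ g ∈ K, ∃ u ∈ U, ∃ u' ∈ U, g • w = x ∧ (g * (u * k * u')) • w = y) _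
    ⟨w, hfin.mem_toFinset.2 ⟨1, K.one_mem, one_smul _ _⟩⟩ ?_ ?_
  · intro x hx
    obtain ⟨g, hg, rfl⟩ := hfin.mem_toFinset.1 hx
    rw [← Set.ncard_coe_finset]
    refine Set.ncard_le_ncard_of_injOn (fun y => (g * c) • y) ?_
      (MulAction.injective (g * c)).injOn (Finset.finite_toSet _)
    intro y hy
    obtain ⟨u, hu, u', hu', e⟩ := hc y hy
    have e' : (g * (u * k * u')) • w = (g * c) • y := by rw [mul_smul, ← e, mul_smul]
    rw [Finset.mem_coe, Finset.mem_filter]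
    exact ⟨hfin.mem_toFinset.2 ⟨_, K.mul_mem hg (K.mul_mem (K.mul_mem (hb.hi hu) hk)
      (hb.hi hu')), e'⟩, g, hg, u, hu, u', hu', rfl, e'⟩
  · rintro x y ⟨g, hg, u, hu, u', hu', e1, e2⟩ ⟨g', hg', v, hv, v', hv', e3, e4⟩
    have h1 := hst _ (K.mul_mem hg (K.mul_mem (K.mul_mem (hb.hi hu) hk) (hb.hi hu'))) _ hg'
      (e2.trans e3.symm)
    have h2 := hst _ hg _ (K.mul_mem hg' (K.mul_mem (K.mul_mem (hb.hi hv) hk) (hb.hi hv')))
      (e1.trans e4.symm)
    have hz := U.mul_mem (U.mul_mem hu' h1) hv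
    set z := u' * ((g * (u * k * u'))⁻¹ * g') * v with hzd
    have h3 : k * z * (k * z) ∈ U := by
      have h4 := U.mul_mem (U.mul_mem (U.mul_mem (U.inv_mem hu) h2) (U.inv_mem hv')) hz
      have h5 : k * z * (k * z) = u⁻¹ * (g⁻¹ * (g' * (v * k * v'))) * v'⁻¹ * z := by
        rw [hzd]; group
      rwa [h5]
    have h6 := EHALF.odd_mem hodd (K.mul_mem hk (hb.hi hz)) h3
    exact hkU (by simpa using U.mul_mem h6 (U.inv_mem hz))

end Pool.Agent.P.MP_f1a348_lc.TO

end

section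

/-! Step EHYP. -/

set_option autoImplicit false
set_option linter.unusedSectionVars false

namespace Pool.Agent.P.MP_f1a348_lc.TO

open Pool.Agent.Lib.Helper47 Pool.Agent.P.MP_f1a348_lc.GI

namespace EHYP

theorem mem_resS {W : Set (Option ℕ)} {s : Str} {p : Option ℕ × ℕ} :
    p ∈ (resS W s).val ↔ p ∈ s.val ∧ p.1 ∈ W := by
  classical
  exact Finset.mem_filter

theorem res_eq (l : List (Option ℕ)) (s : Str) : res l s = resS (St l) s :=
  Str.ext fun p => by
    rw [mem_resS, res, Str.mem_mk, List.mem_filter, Str.mem_list, mem_St]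
    simp

theorem mv_fst (g : U) (p : Option ℕ × ℕ) : (Str.mv g p).1 = g • p.1 := by
  obtain ⟨_ | a, b⟩ := p <;> rfl

theorem mem_smul {g : U} {s : Str} {p : Option ℕ × ℕ} :
    p ∈ (g • s).val ↔ Str.mv g⁻¹ p ∈ s.val := by
  rw [Str.val_smul, Finset.mem_image]
  constructor
  · rintro ⟨q, hq, rfl⟩
    rwa [← Str.mv_mul, inv_mul_cancel, Str.mv_one]
  · intro h
    exact ⟨_, h, by rw [← Str.mv_mul, mul_inv_cancel, Str.mv_one]⟩

/-- `u` keeps `W` -/
def Kp (u : U) (W : Set (Option ℕ)) : Prop := ∀ w, u • w ∈ W ↔ w ∈ W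

theorem Kp.inv {u : U} {W : Set (Option ℕ)} (h : Kp u W) : Kp u⁻¹ W := fun w => by
  rw [← h (u⁻¹ • w), smul_inv_smul]

theorem kp_of {K : Subgroup U} {W : Set (Option ℕ)} (h : ∀ u ∈ K, ∀ w ∈ W, u • w ∈ W) {u : U}
    (hu : u ∈ K) : Kp u W := fun w =>
  ⟨fun e => by simpa using h _ (inv_mem hu) _ e, h u hu w⟩

theorem key {u : U} {W : Set (Option ℕ)} (h : Kp u W) (s : Str) :
    resS W (u • s) = u • resS W s := Str.ext fun p => by
  rw [mem_resS, mem_smul, mem_smul, mem_resS, mv_fst, h.inv]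

theorem resS_resS {W W' : Set (Option ℕ)} (h : W ⊆ W') (s : Str) :
    resS W (resS W' s) = resS W s := Str.ext fun p => by
  rw [mem_resS, mem_resS, mem_resS]
  exact ⟨fun e => ⟨e.1.1, e.2⟩, fun e => ⟨⟨e.1, h e.2⟩, e.2⟩⟩

/-- the traces of `X` -/
def Tr (X : List Str) (W : Set (Option ℕ)) (z : Str) : Prop := ∃ s ∈ X, resS W s = z
/-- the traces of `g⁻¹ Y` -/
def Rr (Y : List Str) (W : Set (Option ℕ)) (g : U) (z : Str) : Prop :=
  ∃ t ∈ Y, resS W (g⁻¹ • t) = z

theorem hyP_iff {X Y : List Str} {W : Set (Option ℕ)} {g : U} :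
    hyP X Y W g ↔ ∀ z, Tr X W z ↔ Rr Y W g z := Iff.rfl

theorem shift {Y : List Str} {W : Set (Option ℕ)} {g u : U} (h : Kp u W) (z : Str) :
    Rr Y W (g * u) z ↔ Rr Y W g (u • z) := by
  unfold Rr
  refine exists_congr fun t => and_congr_right fun _ => ?_
  rw [mul_inv_rev, mul_smul, key h.inv, inv_smul_eq_iff]

theorem tr_inv {X Y : List Str} {W : Set (Option ℕ)} {g u : U} (h : Kp u W) (h1 : hyP X Y W g)
    (h2 : hyP X Y W (g * u)) (z : Str) : Tr X W (u • z) ↔ Tr X W z := by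
  rw [hyP_iff.1 h1, hyP_iff.1 h2, shift h]

theorem fix_res {u : U} {w : Option ℕ} (h : u • w = w) (s : Str) :
    resS {w} (u⁻¹ • s) = resS {w} s := Str.ext fun p => by
  rw [mem_resS, mem_resS, mem_smul, inv_inv]
  refine and_congr_left fun hp => ?_
  have e : Str.mv u p = p := Prod.ext (by rw [mv_fst, Set.mem_singleton_iff.1 hp, h]) rfl
  rw [e]

/-- the union of two strings -/
def un (a b : Str) : Str := Str.mk (a.list ++ b.list)

theorem mem_un {a b : Str} {p : Option ℕ × ℕ} : p ∈ (un a b).val ↔ p ∈ a.val ∨ p ∈ b.val := by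
  rw [un, Str.mem_mk, List.mem_append, Str.mem_list, Str.mem_list]

theorem smul_un (u : U) (a b : Str) : u • un a b = un (u • a) (u • b) := Str.ext fun p => by
  rw [mem_smul, mem_un, mem_un, mem_smul, mem_smul]

theorem res_app (A O : List (Option ℕ)) (s : Str) :
    resS (St (A ++ O)) s = un (resS (St A) s) (resS (St O) s) := Str.ext fun p => by
  rw [mem_un, mem_resS, mem_resS, mem_resS, mem_St, mem_St, mem_St, List.mem_append, and_or_left]

theorem mem_win {X : List Str} {A O : List (Option ℕ)} {z : Str} :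
    z ∈ hyWin X A O ↔ ∃ a b, Tr X (St A) a ∧ Tr X (St O) b ∧ un a b = z := by
  rw [hyWin, List.mem_map]
  constructor
  · rintro ⟨p, hp, rfl⟩
    rw [mem_prodL] at hp
    exact ⟨_, _, ⟨p.1, hp.1, (res_eq _ _).symm⟩, ⟨p.2, hp.2, (res_eq _ _).symm⟩, rfl⟩
  · rintro ⟨_, _, ⟨s, hs, rfl⟩, ⟨t, ht, rfl⟩, rfl⟩
    exact ⟨(s, t), mem_prodL.2 ⟨hs, ht⟩, by rw [res_eq, res_eq]; rfl⟩

theorem win_inv {X Y : List Str} {H : Subgroup U} {σ : U} {n : ℕ} {c : Co}
    {A O : List (Option ℕ)} (h : MArg H σ n (hyP X Y) c A O) : InvL (gen c.2) (hyWin X A O) := by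
  intro u hu z hz
  obtain ⟨a, b, ha, hb, rfl⟩ := mem_win.1 hz
  have h1 := h.sol c.1 (self_mem_cs c.1 c.2)
  have h2 := h.sol (c.1 * u) (mem_cs.2 (by rwa [inv_mul_cancel_left]))
  exact mem_win.2 ⟨_, _, (tr_inv (kp_of h.ia hu) h1.1 h2.1 a).2 ha,
    (tr_inv (kp_of h.io hu) h1.2 h2.2 b).2 hb, (smul_un u a b).symm⟩

theorem si_iff {X Y : List Str} {H : Subgroup U} {σ : U} {n : ℕ} {c : Co}
    {A O : List (Option ℕ)} (h : MArg H σ n (hyP X Y) c A O) {g : U} (hg : g ∈ cs (some c)) :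
    siP (X.map (res (A ++ O))) (Y.map (fun t => c.1 • res (A ++ O) (c.1⁻¹ • t)))
      (St (hyWin X A O)) g ↔ hyP X Y (St (A ++ O)) g := by
  have hs := h.sol g hg
  have hu : c.1⁻¹ * g ∈ gen c.2 := mem_cs.1 hg
  have hk : Kp (c.1⁻¹ * g) (St (A ++ O)) := fun w => by
    rw [mem_St, mem_St, List.mem_append, List.mem_append, h.ia.iff hu, h.io.iff hu]
  have e1 : ∀ z, z ∈ X.map (res (A ++ O)) ↔ Tr X (St (A ++ O)) z := fun z => by
    simp only [List.mem_map, res_eq, Tr]
  have e2 : ∀ z, g • z ∈ Y.map (fun t => c.1 • res (A ++ O) (c.1⁻¹ • t)) ↔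
      Rr Y (St (A ++ O)) g z := fun z => by
    have e := shift (Y := Y) (g := c.1) hk z
    rw [mul_inv_cancel_left] at e
    rw [e, List.mem_map]
    refine exists_congr fun t => and_congr_right fun _ => ?_
    rw [res_eq, mul_smul, eq_inv_smul_iff]
  rw [hyP_iff]
  unfold siP
  simp only [e1, e2]
  refine ⟨fun hz z => ⟨fun e => (hz z ?_).1 e, fun e => (hz z ?_).2 e⟩, fun hz z _ => hz z⟩
  · obtain ⟨s, hs', rfl⟩ := e
    exact mem_win.2 ⟨_, _, ⟨s, hs', rfl⟩, ⟨s, hs', rfl⟩, (res_app A O s).symm⟩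
  · obtain ⟨t, ht, rfl⟩ := e
    exact mem_win.2 ⟨_, _, (hyP_iff.1 hs.1 _).2 ⟨t, ht, rfl⟩, (hyP_iff.1 hs.2 _).2 ⟨t, ht, rfl⟩,
      (res_app A O _).symm⟩

end EHYP

open EHYP in
theorem p_EHYP :
    S_EHYP := by
  intro X Y H σ n si hXY hsi
  refine ⟨⟨?_, ?_, ?_, ?_, ?_⟩, fun c A O h => win_inv h⟩
  · intro g z
    have e : ∀ s, resS ∅ s = Str.mk [] := fun s => Str.ext fun p => by
      rw [mem_resS, Str.mem_mk]; simp
    have e' : ∀ l : List Str, (∃ x, x ∈ l) ↔ ¬ l = [] := fun l => by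
      rw [List.eq_nil_iff_forall_not_mem, not_forall]
      simp only [not_not]
    simp only [e, exists_and_right, e', hXY]
  · intro W W' g e h z
    constructor
    · rintro ⟨s, hs, rfl⟩
      obtain ⟨t, ht, e'⟩ := (h _).1 ⟨s, hs, rfl⟩
      exact ⟨t, ht, by rw [← resS_resS e, e', resS_resS e]⟩
    · rintro ⟨t, ht, rfl⟩
      obtain ⟨s, hs, e'⟩ := (h _).2 ⟨t, ht, rfl⟩
      exact ⟨s, hs, by rw [← resS_resS e, e', resS_resS e]⟩
  · intro K W a b c hW h1 h2 ha hb hc
    have k1 := kp_of hW h1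
    have k2 := kp_of hW h2
    have k3 := kp_of hW (mul_mem (inv_mem h1) h2)
    have e : a * b⁻¹ * c = a * ((a⁻¹ * b)⁻¹ * (a⁻¹ * c)) := by group
    rw [hyP_iff, e]
    intro z
    rw [shift k3, ← hyP_iff.1 ha, mul_smul,
      ← tr_inv k1 ha (by rwa [mul_inv_cancel_left]) ((a⁻¹ * b)⁻¹ • _), smul_inv_smul,
      tr_inv k2 ha (by rwa [mul_inv_cancel_left])]
  · intro g u w h
    have e : St [w] = {w} := Set.ext fun x => by simp
    simp only [hyLeaf, hyP, Bool.and_eq_true, List.all_eq_true, List.any_eq_true, beq_iff_eq,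
      res_eq, e, mul_inv_rev, mul_smul, fix_res h]
    constructor
    · rintro ⟨h1, h2⟩ z
      constructor
      · rintro ⟨s, hs, rfl⟩
        obtain ⟨t, ht, e'⟩ := h1 s hs
        exact ⟨t, ht, e'.symm⟩
      · rintro ⟨t, ht, rfl⟩
        exact h2 t ht
    · intro hz
      refine ⟨fun s hs => ?_, fun t ht => (hz _).2 ⟨t, ht, rfl⟩⟩
      obtain ⟨t, ht, e'⟩ := (hz _).1 ⟨s, hs, rfl⟩
      exact ⟨t, ht, e'.symm⟩
  · intro c A O r h e
    have hl : (hyWin X A O).length ≤ X.length ^ 2 := by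
      rw [hyWin, List.length_map, length_prodL, pow_two]
    obtain ⟨h1, h2⟩ := hsi c _ _ _ r h.gd (win_inv h) hl e
    refine ⟨h1.trans (Set.ext fun g => and_congr_right fun hg => si_iff h hg), h2⟩

end Pool.Agent.P.MP_f1a348_lc.TO

end

section

/-! Step ETRS. -/

set_option autoImplicit false
set_option linter.unusedSectionVars false

namespace Pool.Agent.P.MP_f1a348_lc.TO

open Pool.Agent.Lib.Helper47 Pool.Agent.P.MP_f1a348_lc.GI

namespace ETRS

/-- all positions lie in `D` -/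
def In (D : List (Option ℕ)) (z : Str) : Prop := ∀ e ∈ z.val, e.1 ∈ D

theorem In.smul {D : List (Option ℕ)} {H : Subgroup U} (hD : InvL H D) {z : Str} (h : In D z)
    {u : U} (hu : u ∈ H) : In D (u • z) := by
  intro e he
  rw [Str.val_smul] at he
  obtain ⟨e', he', rfl⟩ := Finset.mem_image.1 he
  exact hD u hu _ (h e' he')

theorem In.resS {D : List (Option ℕ)} {z : Str} (h : In D z) : resS (St D) z = z := by
  classical
  refine Str.ext fun e => ?_
  change e ∈ Finset.filter _ z.val ↔ _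
  rw [Finset.mem_filter]
  exact ⟨fun a => a.1, fun a => ⟨a, h e a⟩⟩

theorem rset_eq (r : Option Co) : rset r = cs r := by
  ext g
  simp [rset, cs, cset]

theorem trT_iff {V : List ℕ} {c : Co} {X Y : List Str} : trT V c X Y = true ↔
    (X = [] ↔ Y = []) ∧ ∀ t ∈ Y, In (posL V) (c.1⁻¹ • t) := by
  rw [trT, Bool.and_eq_true, beq_iff_eq, Bool.eq_iff_iff]
  simp [In]

end ETRS

open ETRS in
theorem p_ETRS (hEENG : S_EENG) (hETROK : S_ETROK) :
    S_ETRS := by
  intro p V c X Y r hpre hr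
  have hX : ∀ y ∈ X, In (posL V) y := fun y hy e he => by
    rcases h : e.1 with _ | v
    · exact List.mem_cons_self
    · exact List.mem_cons_of_mem _ (List.mem_map_of_mem (hpre.pos y hy e he v h))
  rw [rset_eq]
  cases hT : trT V c X Y with
  | false =>
    rw [trP, hT, cond_false] at hr
    obtain rfl : none = r := Option.some.inj hr
    refine ⟨?_, fun c' h => by cases h⟩
    rw [cs_none]
    refine (Set.eq_empty_of_forall_notMem ?_).symm
    rintro g ⟨hg, h⟩
    have hY : ∀ t ∈ Y, g⁻¹ • t ∈ X := fun t ht => (h _).2 (by rwa [smul_inv_smul])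
    have hE : X = [] ↔ Y = [] := by
      simp only [List.eq_nil_iff_forall_not_mem]
      exact ⟨fun a t ht => a _ (hY t ht), fun a y hy => a _ ((h y).1 hy)⟩
    have : trT V c X Y = true := trT_iff.2 ⟨hE, fun t ht => by
      have h1 := (hX _ (hY t ht)).smul (hETROK p V c X Y hpre.sup hE).1.inv hg
      rwa [mul_smul, smul_inv_smul] at h1⟩
    rw [hT] at this
    cases this
  | true =>
    rw [trP, hT, cond_true] at hr
    obtain ⟨hE, hY⟩ := trT_iff.1 hT
    obtain ⟨k1, k2, -, k3, -⟩ := hETROK p V c X Y hpre.sup hE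
    obtain ⟨o, ho, rfl⟩ := Option.map_eq_some_iff.1 hr
    have h1 := ((hEENG _ _ _ (hyCx p V X Y) c (hyP X Y) p.2 k1 k3).1 o ho).1
    have h2 : ∀ c', o = some c' → gen c'.2 ≤ gen c.2 := fun c' e =>
      le_of_cs (σ := c'.1) (τ := c.1) fun g hg => by
        have h3 : g ∈ cs o := e ▸ hg
        rw [h1] at h3
        exact mem_cs.1 h3.1
    refine ⟨?_, fun c' h => ?_⟩
    · have h3 : cs (o.map (fun c => (c.1, sims (sqU V) V c.2))) = cs o := by
        rcases o with _ | c'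
        · rfl
        · ext g
          rw [Option.map_some, mem_cs, k2.gen_sims (h2 c' rfl)]
          exact mem_cs.symm
      rw [h3, h1]
      ext g
      refine and_congr mem_cs (Iff.rfl) |>.trans (and_congr_right fun hg => ?_)
      have h4 : ∀ t ∈ Y, resS (St (posL V)) (g⁻¹ • t) = g⁻¹ • t := fun t ht => by
        have h5 := (hY t ht).smul k1.inv (inv_mem hg)
        rw [← mul_smul, mul_inv_rev, inv_inv, mul_inv_cancel_right] at h5
        exact h5.resS
      change hyP X Y (St (posL V)) g ↔ _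
      refine ⟨fun h y => ⟨fun hy => ?_, fun hy => ?_⟩, fun h z => ⟨?_, ?_⟩⟩
      · obtain ⟨t, ht, e⟩ := (h y).1 ⟨y, hy, (hX y hy).resS⟩
        rw [← e, h4 t ht, smul_inv_smul]
        exact ht
      · obtain ⟨s, hs, e⟩ := (h y).2 ⟨_, hy, by rw [h4 _ hy, inv_smul_smul]⟩
        rw [← e, (hX s hs).resS]
        exact hs
      · rintro ⟨s, hs, rfl⟩
        exact ⟨_, (h s).1 hs, by rw [inv_smul_smul]⟩
      · rintro ⟨t, ht, rfl⟩
        exact ⟨_, (h _).2 (by rwa [smul_inv_smul]), rfl⟩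
    · obtain ⟨c'', e, rfl⟩ := Option.map_eq_some_iff.1 h
      refine ⟨(k2.gen_sims (h2 c'' e)).le.trans (h2 c'' e), (sims_length _ _ _).trans ?_⟩
      rw [sqU, List.length_map, length_prodL, sq]

end Pool.Agent.P.MP_f1a348_lc.TO

end

section

/-! Step EWIN. -/

set_option autoImplicit false
set_option linter.unusedSectionVars false

namespace Pool.Agent.P.MP_f1a348_lc.TO

open Pool.Agent.Lib.Helper47 Pool.Agent.P.MP_f1a348_lc.GI

theorem p_EWIN :
    S_EWIN := by
  intro hG D E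
  obtain ⟨m0, c, h⟩ := win_bridge hG D E
  exact ⟨m0, c, fun G Ω _ _ _ _ => h G Ω⟩

end Pool.Agent.P.MP_f1a348_lc.TO

end
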